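import Pool.Agent.Lib.TriD.Cnt

set_option autoImplicit false

/-!
MODULE Bad (about 250 lines). Few vertices have few common neighbours. `n = Fintype.card V`, `γ = c ^ 3 / 8`,
`B = 4 * K / c ^ 3`.

PROOFS. `mix_card`: `Host.mix` with `D = nbr p G j S` (all in part `j`); `nbr p G j (insert u S) =
D.filter (fun z => G.Adj u z)`; `bad.card * D.card ≤ K * n` and `D.card ≥ c' * n > 0` give `bad.card ≤ K / c'`.
GOOD: if `S ⊆ A0`, `S.card ≤ 4` and `c ^ 3 * n ≤ card (nbr p G j S)` then by `cnt_common` both classes `O`, `A` contain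
at least `(3/16) c ^ 3 s - (2 ξ + 12 δ) s ≥ (c ^ 3 / 8) s` common `H`-neighbours of `S` (hypothesis `hsm`).
`bad_edge`: `S = {u, v}`, `card (nbr p G j {u, v}) = k ≥ c n` (`Host.cod`, `H ≤ G`); by `mix_card` (`c' = c`) at most `K / c`
vertices `u'` of part `i` have `card (nbr p G j {u', u, v}) < c * k`, the others have `≥ c ^ 2 n ≥ c ^ 3 n`.
`bad_vert`: `S = {v}`, `card (nbr p G j {v}) ≥ c n` (`Host.deg`), then the same.
`bad_quad`: for `x, y` (an edge of `G`, `Host.cells`) `card (nbr p G 2 {x, y}) = k ≥ c n`. At most `K / c` columns `y'` have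
`card (nbr p G 2 {y', x, y}) < c * k`; for the other `y'` at most `K / c ^ 2` rows `x'` have
`card (nbr p G 2 {x', y', x, y}) < c * card (nbr p G 2 {y', x, y})`; for all other pairs it is `≥ c ^ 3 n`. So the number of
bad pairs in `A0 × A0` is at most `(K / c) * card (cls p A0 0) + card (cls p A0 1) * (K / c ^ 2) ≤ 4 K s / c ^ 2 ≤ B s`
(`cnt_size`, `ξ ≤ 1`).
If `c > 1` were allowed nothing would exist; `0 < c < 1` is assumed; `n > 0` because `0 < s ≤ n`.
-/

open scoped Classical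

noncomputable section

namespace Pool.Agent.Lib.TriD

variable {V : Type} [Fintype V]

private theorem good_set {p : V → Fin 3} {G H : SimpleGraph V} {c s ξ δ : ℝ}
    {A0 A1 A2 A3 : Finset V}
    (hL : Level p G H s ξ δ A0 A1 A2 A3) (hδ : 0 ≤ δ) (hsm : 2 * ξ + 12 * δ ≤ c ^ 3 / 16)
    (S : Finset V) (hS : S ⊆ A0) (hS4 : S.card ≤ 4) (j : Fin 3)
    (hc3 : c ^ 3 * Fintype.card V ≤ (nbr p G j S).card) :
    c ^ 3 / 8 * s ≤ ((cls p (A0 \ A1) j).filter (fun z => ∀ u ∈ S, H.Adj u z)).card ∧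
    c ^ 3 / 8 * s ≤ ((cls p (A1 \ A2) j).filter (fun z => ∀ u ∈ S, H.Adj u z)).card := by
  obtain ⟨h1, h2⟩ := cnt_common hL hδ S hS hS4 j
  have hs := hL.s0
  have hn : (0:ℝ) < Fintype.card V := lt_of_lt_of_le hL.s0 hL.s1
  have h3 : c ^ 3 * s ≤ s / Fintype.card V * (nbr p G j S).card := by
    have h5 : c ^ 3 * s = s / Fintype.card V * (c ^ 3 * Fintype.card V) := by field_simp
    rw [h5]
    exact mul_le_mul_of_nonneg_left hc3 (by positivity)
  have h4 : (2 * ξ + 12 * δ) * s ≤ c ^ 3 / 16 * s := mul_le_mul_of_nonneg_right hsm hs.le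
  constructor <;> linarith

private theorem K_le {c K : ℝ} (hc : 0 < c) (hc1 : c < 1) (hK : 0 ≤ K) :
    K / c ≤ K / c ^ 3 ∧ K / c ^ 2 ≤ K / c ^ 3 ∧ K / c ^ 3 ≤ 4 * K / c ^ 3 := by
  have h1 : c ^ 3 ≤ c := by
    have := pow_le_pow_of_le_one hc.le hc1.le (show 1 ≤ 3 by norm_num)
    simpa using this
  have h2 : c ^ 3 ≤ c ^ 2 := pow_le_pow_of_le_one hc.le hc1.le (by norm_num)
  have h3 : 0 < c ^ 3 := by positivity
  refine ⟨div_le_div_of_nonneg_left hK h3 h1, div_le_div_of_nonneg_left hK h3 h2, ?_⟩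
  apply div_le_div_of_nonneg_right _ h3.le
  linarith

private theorem pow_bound {c n k : ℝ} (hc : 0 < c) (hc1 : c < 1) (hn : 0 ≤ n) (hk : c * n ≤ k) :
    c ^ 3 * n ≤ k ∧ c ^ 3 * n ≤ c * k ∧ c ^ 2 * n ≤ c * k := by
  have h2 : c ^ 2 ≤ c := by
    have := pow_le_pow_of_le_one hc.le hc1.le (show 1 ≤ 2 by norm_num)
    simpa using this
  have h3 : c ^ 3 ≤ c ^ 2 := pow_le_pow_of_le_one hc.le hc1.le (by norm_num)
  have h4 : c ^ 2 * n ≤ c * k := by
    have := mul_le_mul_of_nonneg_left hk hc.le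
    nlinarith
  have h5 : c ^ 3 * n ≤ c ^ 2 * n := mul_le_mul_of_nonneg_right h3 hn
  have h6 : c ^ 2 * n ≤ c * n := mul_le_mul_of_nonneg_right h2 hn
  exact ⟨by linarith, by linarith, h4⟩

theorem mix_card {p : V → Fin 3} {G : SimpleGraph V} {c K : ℝ} (hG : Host p G c K)
    (hn : 0 < Fintype.card V) (j i : Fin 3) (hij : i ≠ j) (S : Finset V) (c' : ℝ) (hc' : 0 < c')
    (hS : c' * Fintype.card V ≤ (nbr p G j S).card) :
    ((Finset.univ.filter (fun u => p u = i ∧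
      ((nbr p G j (insert u S)).card : ℝ) < c * (nbr p G j S).card)).card : ℝ) ≤ K / c' := by
  have hnR : (0:ℝ) < Fintype.card V := by exact_mod_cast hn
  have h := hG.mix j i (nbr p G j S) hij.symm (fun z hz => (Finset.mem_filter.1 hz).2.1)
  have he : ∀ u : V, nbr p G j (insert u S) = (nbr p G j S).filter (fun z => G.Adj u z) := by
    intro u
    ext z
    simp only [nbr, Finset.mem_filter, Finset.mem_univ, true_and, Finset.mem_insert,
      forall_eq_or_imp]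
    tauto
  simp only [he]
  set B : ℝ := ((Finset.univ.filter (fun u => p u = i ∧
      (((nbr p G j S).filter (fun z => G.Adj u z)).card : ℝ) < c * (nbr p G j S).card)).card : ℝ)
    with hB
  have hB0 : 0 ≤ B := by rw [hB]; positivity
  rw [le_div_iff₀ hc']
  have h1 : B * (c' * Fintype.card V) ≤ K * Fintype.card V :=
    le_trans (mul_le_mul_of_nonneg_left hS hB0) h
  have h2 : (B * c') * Fintype.card V ≤ K * Fintype.card V := by
    calc (B * c') * Fintype.card V = B * (c' * Fintype.card V) := by ring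
      _ ≤ _ := h1
  exact le_of_mul_le_mul_right h2 hnR

theorem bad_edge {p : V → Fin 3} {G H : SimpleGraph V} {c K s ξ δ : ℝ} {A0 A1 A2 A3 : Finset V}
    (hG : Host p G c K) (hL : Level p G H s ξ δ A0 A1 A2 A3) (hc : 0 < c) (hc1 : c < 1)
    (hK : 0 ≤ K) (hξ : 0 ≤ ξ) (hδ : 0 ≤ δ) (hsm : 2 * ξ + 12 * δ ≤ c ^ 3 / 16)
    {u v : V} (h : H.Adj u v) {j i : Fin 3} (hju : j ≠ p u) (hjv : j ≠ p v) (hij : i ≠ j) :
    ((A0.filter (fun u' => p u' = i ∧ ¬ (c ^ 3 / 8 * s ≤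
        ((cls p (A0 \ A1) j).filter (fun z => H.Adj u z ∧ H.Adj v z ∧ H.Adj u' z)).card ∧
      c ^ 3 / 8 * s ≤
        ((cls p (A1 \ A2) j).filter (fun z => H.Adj u z ∧ H.Adj v z ∧ H.Adj u' z)).card))).card : ℝ)
      ≤ 4 * K / c ^ 3 := by
  have hn : (0:ℝ) < Fintype.card V := lt_of_lt_of_le hL.s0 hL.s1
  have hn' : 0 < Fintype.card V := by exact_mod_cast hn
  obtain ⟨k, hk1, hk2⟩ := hG.cod
  have hk := hk2 u v (hL.le h) j hju hjv
  have hu := hL.supp u v h
  have hv := hL.supp v u h.symm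
  obtain ⟨-, hp2, -⟩ := pow_bound hc hc1 hn.le hk1
  have hm := mix_card hG hn' j i hij {u, v} c hc (by rw [hk]; exact hk1)
  obtain ⟨hK1, -, hK3⟩ := K_le hc hc1 hK
  refine le_trans ?_ (le_trans hm (le_trans hK1 hK3))
  norm_cast
  apply Finset.card_le_card
  intro u' hu'
  rw [Finset.mem_filter] at hu' ⊢
  obtain ⟨h1, h2, h3⟩ := hu'
  refine ⟨Finset.mem_univ _, h2, ?_⟩
  by_contra h4
  push Not at h4
  apply h3
  have hS : insert u' ({u, v} : Finset V) ⊆ A0 := by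
    intro w hw
    simp only [Finset.mem_insert, Finset.mem_singleton] at hw
    rcases hw with rfl | rfl | rfl <;> assumption
  have hS4 : (insert u' ({u, v} : Finset V)).card ≤ 4 :=
    le_trans (Finset.card_insert_le _ _) (by
      have := Finset.card_le_two (a := u) (b := v)
      omega)
  rw [hk] at h4
  obtain ⟨g1, g2⟩ := good_set hL hδ hsm _ hS hS4 j (le_trans hp2 h4)
  constructor
  · refine le_trans g1 ?_
    norm_cast
    apply Finset.card_le_card
    intro z hz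
    rw [Finset.mem_filter] at hz ⊢
    exact ⟨hz.1, hz.2 u (by simp), hz.2 v (by simp), hz.2 u' (by simp)⟩
  · refine le_trans g2 ?_
    norm_cast
    apply Finset.card_le_card
    intro z hz
    rw [Finset.mem_filter] at hz ⊢
    exact ⟨hz.1, hz.2 u (by simp), hz.2 v (by simp), hz.2 u' (by simp)⟩

theorem bad_vert {p : V → Fin 3} {G H : SimpleGraph V} {c K s ξ δ : ℝ} {A0 A1 A2 A3 : Finset V}
    (hG : Host p G c K) (hL : Level p G H s ξ δ A0 A1 A2 A3) (hc : 0 < c) (hc1 : c < 1)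
    (hK : 0 ≤ K) (hξ : 0 ≤ ξ) (hδ : 0 ≤ δ) (hsm : 2 * ξ + 12 * δ ≤ c ^ 3 / 16)
    {v : V} (hv : v ∈ A0) {j i : Fin 3} (hjv : j ≠ p v) (hij : i ≠ j) :
    ((A0.filter (fun u' => p u' = i ∧ ¬ (c ^ 3 / 8 * s ≤
        ((cls p (A0 \ A1) j).filter (fun z => H.Adj v z ∧ H.Adj u' z)).card ∧
      c ^ 3 / 8 * s ≤
        ((cls p (A1 \ A2) j).filter (fun z => H.Adj v z ∧ H.Adj u' z)).card))).card : ℝ)
      ≤ 4 * K / c ^ 3 := by
  have hn : (0:ℝ) < Fintype.card V := lt_of_lt_of_le hL.s0 hL.s1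
  have hn' : 0 < Fintype.card V := by exact_mod_cast hn
  have hk1 := hG.deg v j hjv
  obtain ⟨-, hp2, -⟩ := pow_bound hc hc1 hn.le hk1
  have hm := mix_card hG hn' j i hij {v} c hc hk1
  obtain ⟨hK1, -, hK3⟩ := K_le hc hc1 hK
  refine le_trans ?_ (le_trans hm (le_trans hK1 hK3))
  norm_cast
  apply Finset.card_le_card
  intro u' hu'
  rw [Finset.mem_filter] at hu' ⊢
  obtain ⟨h1, h2, h3⟩ := hu'
  refine ⟨Finset.mem_univ _, h2, ?_⟩
  by_contra h4
  push Not at h4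
  apply h3
  have hS : insert u' ({v} : Finset V) ⊆ A0 := by
    intro w hw
    simp only [Finset.mem_insert, Finset.mem_singleton] at hw
    rcases hw with rfl | rfl <;> assumption
  have hS4 : (insert u' ({v} : Finset V)).card ≤ 4 :=
    le_trans (Finset.card_insert_le _ _) (by simp)
  obtain ⟨g1, g2⟩ := good_set hL hδ hsm _ hS hS4 j (le_trans hp2 h4)
  constructor
  · refine le_trans g1 ?_
    norm_cast
    apply Finset.card_le_card
    intro z hz
    rw [Finset.mem_filter] at hz ⊢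
    exact ⟨hz.1, hz.2 v (by simp), hz.2 u' (by simp)⟩
  · refine le_trans g2 ?_
    norm_cast
    apply Finset.card_le_card
    intro z hz
    rw [Finset.mem_filter] at hz ⊢
    exact ⟨hz.1, hz.2 v (by simp), hz.2 u' (by simp)⟩

theorem good_one {p : V → Fin 3} {G H : SimpleGraph V} {c K s ξ δ : ℝ} {A0 A1 A2 A3 : Finset V}
    (hG : Host p G c K) (hL : Level p G H s ξ δ A0 A1 A2 A3) (hc : 0 < c) (hc1 : c < 1)
    (hξ : 0 ≤ ξ) (hδ : 0 ≤ δ) (hsm : 2 * ξ + 12 * δ ≤ c ^ 3 / 16)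
    {v : V} (hv : v ∈ A0) {j : Fin 3} (hjv : j ≠ p v) :
    c ^ 3 / 8 * s ≤ ((cls p (A0 \ A1) j).filter (fun z => H.Adj v z)).card ∧
      c ^ 3 / 8 * s ≤ ((cls p (A1 \ A2) j).filter (fun z => H.Adj v z)).card := by
  have hn : (0:ℝ) < Fintype.card V := lt_of_lt_of_le hL.s0 hL.s1
  have hk1 := hG.deg v j hjv
  obtain ⟨hp1, -, -⟩ := pow_bound hc hc1 hn.le hk1
  obtain ⟨g1, g2⟩ := good_set hL hδ hsm {v} (by simpa using hv) (by simp) j hp1
  simp only [Finset.mem_singleton, forall_eq] at g1 g2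
  exact ⟨g1, g2⟩

theorem bad_quad {p : V → Fin 3} {G H : SimpleGraph V} {c K s ξ δ : ℝ} {A0 A1 A2 A3 : Finset V}
    (hG : Host p G c K) (hL : Level p G H s ξ δ A0 A1 A2 A3) (hc : 0 < c) (hc1 : c < 1)
    (hK : 0 ≤ K) (hξ : 0 ≤ ξ) (hξ1 : ξ ≤ 1) (hδ : 0 ≤ δ) (hsm : 2 * ξ + 12 * δ ≤ c ^ 3 / 16)
    {x y : V} (hx : x ∈ A0) (hy : y ∈ A0) (hpx : p x = 0) (hpy : p y = 1) :
    (((A0 ×ˢ A0).filter (fun e => p e.1 = 0 ∧ p e.2 = 1 ∧
      (((cls p (A0 \ A1) 2).filter (fun b => H.Adj x b ∧ H.Adj y b ∧ H.Adj e.1 b ∧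
        H.Adj e.2 b)).card : ℝ) < c ^ 3 / 8 * s)).card : ℝ) ≤ 4 * K / c ^ 3 * s := by
  have hn : (0:ℝ) < Fintype.card V := lt_of_lt_of_le hL.s0 hL.s1
  have hn' : 0 < Fintype.card V := by exact_mod_cast hn
  have hs := hL.s0
  obtain ⟨k, hk1, hk2⟩ := hG.cod
  have hk := hk2 x y (hG.cells x y hpx hpy) 2 (by rw [hpx]; decide) (by rw [hpy]; decide)
  obtain ⟨hp1, -, hp3⟩ := pow_bound hc hc1 hn.le hk1
  obtain ⟨hK1, hK2, hK3⟩ := K_le hc hc1 hK
  have hm := mix_card hG hn' 2 1 (by decide) {x, y} c hc (by rw [hk]; exact hk1)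
  set B1 : Finset V := Finset.univ.filter (fun u => p u = 1 ∧
      ((nbr p G 2 (insert u {x, y})).card : ℝ) < c * (nbr p G 2 {x, y}).card) with hB1
  set B2 : V → Finset V := fun y' => Finset.univ.filter (fun u => p u = 0 ∧
      ((nbr p G 2 (insert u (insert y' {x, y}))).card : ℝ) <
        c * (nbr p G 2 (insert y' {x, y})).card) with hB2
  have hY : ∀ y', p y' = 1 → y' ∉ B1 → c ^ 2 * Fintype.card V ≤
      ((nbr p G 2 (insert y' {x, y})).card : ℝ) := by
    intro y' h1 h2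
    by_contra h3
    apply h2
    rw [hB1, Finset.mem_filter]
    refine ⟨Finset.mem_univ _, h1, ?_⟩
    rw [hk]
    push Not at h3
    linarith
  have hm2 : ∀ y', p y' = 1 → y' ∉ B1 → ((B2 y').card : ℝ) ≤ K / c ^ 2 := fun y' h1 h2 =>
    mix_card hG hn' 2 0 (by decide) (insert y' {x, y}) (c ^ 2) (by positivity) (hY y' h1 h2)
  obtain ⟨hs0, -, -, -⟩ := cnt_size hG hL 0
  obtain ⟨hs1, -, -, -⟩ := cnt_size hG hL 1
  have hsub : ((A0 ×ˢ A0).filter (fun e => p e.1 = 0 ∧ p e.2 = 1 ∧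
      (((cls p (A0 \ A1) 2).filter (fun b => H.Adj x b ∧ H.Adj y b ∧ H.Adj e.1 b ∧
        H.Adj e.2 b)).card : ℝ) < c ^ 3 / 8 * s)) ⊆
      (cls p A0 0 ×ˢ B1) ∪
      ((cls p A0 1 \ B1).biUnion (fun y' => (B2 y').image (fun x' => (x', y')))) := by
    rintro ⟨x', y'⟩ he
    rw [Finset.mem_filter, Finset.mem_product] at he
    obtain ⟨⟨h1, h2⟩, h3, h4, h5⟩ := he
    simp only at h1 h2 h3 h4 h5
    rw [Finset.mem_union]
    by_cases hb : y' ∈ B1
    · left
      rw [Finset.mem_product]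
      exact ⟨Finset.mem_filter.2 ⟨h1, h3⟩, hb⟩
    · right
      rw [Finset.mem_biUnion]
      refine ⟨y', Finset.mem_sdiff.2 ⟨Finset.mem_filter.2 ⟨h2, h4⟩, hb⟩, ?_⟩
      rw [Finset.mem_image]
      refine ⟨x', ?_, rfl⟩
      rw [hB2, Finset.mem_filter]
      refine ⟨Finset.mem_univ _, h3, ?_⟩
      by_contra h6
      push Not at h6
      apply not_le.2 h5
      have hS : insert x' (insert y' ({x, y} : Finset V)) ⊆ A0 := by
        intro w hw
        simp only [Finset.mem_insert, Finset.mem_singleton] at hw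
        rcases hw with rfl | rfl | rfl | rfl <;> assumption
      have hS4 : (insert x' (insert y' ({x, y} : Finset V))).card ≤ 4 := by
        have e1 := Finset.card_le_two (a := x) (b := y)
        have e2 := Finset.card_insert_le y' ({x, y} : Finset V)
        have e3 := Finset.card_insert_le x' (insert y' ({x, y} : Finset V))
        omega
      have h7 : c ^ 3 * Fintype.card V ≤
          ((nbr p G 2 (insert x' (insert y' {x, y}))).card : ℝ) := by
        refine le_trans ?_ h6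
        have := mul_le_mul_of_nonneg_left (hY y' h4 hb) hc.le
        calc c ^ 3 * (Fintype.card V : ℝ) = c * (c ^ 2 * Fintype.card V) := by ring
          _ ≤ _ := this
      obtain ⟨g1, -⟩ := good_set hL hδ hsm _ hS hS4 2 h7
      refine le_trans g1 ?_
      norm_cast
      apply Finset.card_le_card
      intro z hz
      rw [Finset.mem_filter] at hz ⊢
      exact ⟨hz.1, hz.2 x (by simp), hz.2 y (by simp), hz.2 x' (by simp), hz.2 y' (by simp)⟩
  have hc1' : ((((A0 ×ˢ A0).filter (fun e => p e.1 = 0 ∧ p e.2 = 1 ∧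
      (((cls p (A0 \ A1) 2).filter (fun b => H.Adj x b ∧ H.Adj y b ∧ H.Adj e.1 b ∧
        H.Adj e.2 b)).card : ℝ) < c ^ 3 / 8 * s))).card : ℝ) ≤
      ((cls p A0 0).card : ℝ) * B1.card + ((cls p A0 1).card : ℝ) * (K / c ^ 2) := by
    have e1 := (Finset.card_le_card hsub).trans (Finset.card_union_le _ _)
    have e2 : ((((A0 ×ˢ A0).filter (fun e => p e.1 = 0 ∧ p e.2 = 1 ∧
      (((cls p (A0 \ A1) 2).filter (fun b => H.Adj x b ∧ H.Adj y b ∧ H.Adj e.1 b ∧
        H.Adj e.2 b)).card : ℝ) < c ^ 3 / 8 * s))).card : ℝ) ≤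
        ((cls p A0 0 ×ˢ B1).card : ℝ) +
        (((cls p A0 1 \ B1).biUnion (fun y' => (B2 y').image (fun x' => (x', y')))).card : ℝ) := by
      exact_mod_cast e1
    refine le_trans e2 ?_
    rw [Finset.card_product]
    push_cast
    have e3 : ((((cls p A0 1 \ B1).biUnion
        (fun y' => (B2 y').image (fun x' => (x', y')))).card : ℕ) : ℝ) ≤
        ∑ y' ∈ (cls p A0 1 \ B1), (((B2 y').image (fun x' => (x', y'))).card : ℝ) := by
      exact_mod_cast Finset.card_biUnion_le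
    have e4 : ∑ y' ∈ (cls p A0 1 \ B1), (((B2 y').image (fun x' => (x', y'))).card : ℝ) ≤
        ∑ y' ∈ (cls p A0 1 \ B1), K / c ^ 2 := by
      apply Finset.sum_le_sum
      intro y' hy'
      rw [Finset.mem_sdiff] at hy'
      have e5 : (((B2 y').image (fun x' => (x', y'))).card : ℝ) ≤ ((B2 y').card : ℝ) := by
        exact_mod_cast Finset.card_image_le
      exact le_trans e5 (hm2 y' (Finset.mem_filter.1 hy'.1).2 hy'.2)
    have e6 : ∑ y' ∈ (cls p A0 1 \ B1), K / c ^ 2 ≤ ((cls p A0 1).card : ℝ) * (K / c ^ 2) := by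
      rw [Finset.sum_const, nsmul_eq_mul]
      apply mul_le_mul_of_nonneg_right _ (by positivity)
      exact_mod_cast Finset.card_le_card Finset.sdiff_subset
    linarith
  refine le_trans hc1' ?_
  have f1 : ((cls p A0 0).card : ℝ) ≤ 2 * s := by nlinarith
  have f2 : ((cls p A0 1).card : ℝ) ≤ 2 * s := by nlinarith
  have f3 : (B1.card : ℝ) ≤ K / c ^ 3 := le_trans hm hK1
  have f4 : ((cls p A0 0).card : ℝ) * B1.card ≤ 2 * s * (K / c ^ 3) :=
    mul_le_mul f1 f3 (by positivity) (by positivity)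
  have f5 : ((cls p A0 1).card : ℝ) * (K / c ^ 2) ≤ 2 * s * (K / c ^ 3) :=
    mul_le_mul f2 hK2 (by positivity) (by positivity)
  have f6 : 4 * K / c ^ 3 * s = 2 * s * (K / c ^ 3) + 2 * s * (K / c ^ 3) := by ring
  linarith

end Pool.Agent.Lib.TriD
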