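import Pool.Agent.Lib.TriD.Defs

set_option autoImplicit false

/-!
Definitions for the fractional lemma: type weights and demands.
-/

open scoped Classical

noncomputable section

namespace Pool.Agent.Lib.TriD

variable {V : Type} [Fintype V]

/-- The number of the three vertices that lie in `A`. -/
def cntA (A : Finset V) (u v z : V) : ℕ :=
  (if u ∈ A then 1 else 0) + (if v ∈ A then 1 else 0) + (if z ∈ A then 1 else 0)

/-- Type weights: `0` for forbidden triangles, otherwise a constant depending on the type. -/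
def bw (q δ : ℝ) (A1 A2 : Finset V) (u v z : V) : ℝ :=
  if 2 ≤ cntA A2 u v z ∨ cntA A1 u v z = 3 then 0
  else if cntA A1 u v z = 0 then 4 / 3 * (1 - (1 - δ / 3) / 4 - (1 - δ / 4) / 12) / q
  else if cntA A1 u v z = 1 then
    (if cntA A2 u v z = 1 then 4 / 3 * (1 - δ / 4) / q else 4 / 3 * (1 - δ / 3) / q)
  else 4 / 3 * δ / q

/-- Demands on the edges between part `i` and part `j`: `1` on outer, `δ` on inner edges. -/
def dem (p : V → Fin 3) (H : SimpleGraph V) (A1 A2 : Finset V) (δ : ℝ) (i j : Fin 3) (u v : V) : ℝ :=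
  if p u = i ∧ p v = j ∧ H.Adj u v then
    (if u ∈ A1 ∧ v ∈ A1 then (if u ∈ A2 ∧ v ∈ A2 then 0 else δ) else 1)
  else 0

end Pool.Agent.Lib.TriD
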