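import Mathlib

set_option autoImplicit false

/-!
MODULE Trans (about 300 lines). Transport lemma: a function with small prescribed row and column sums,
supported on a bipartite graph `Γ ⊆ Y × Z` in which most pairs have many common neighbours.

Notation: `N y = {z ∈ Z | (y,z) ∈ Γ}`, `co y y' = card (N y ∩ N y')`; a pair `y, y'` is GOOD if
`κ * s ≤ co y y'` (symmetric). If `Y = ∅` then `∑ g = 0`; `hzz` shows that `Z = ∅` too (a `z ∈ Z` would have
a good partner, so a neighbour in `Y`), and `F = 0`. Let `Y ≠ ∅`. Then `Z ≠ ∅` by the same argument.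

PROOF. (0) Every `y ∈ Y` has a good partner (bad partners are at most a quarter), so
`κ * s ≤ card (N y) `, so `κ * s ≤ card Z` and `card Γ ≥ κ * s * card Y`; same for `z`.
(1) `σ = ∑ f = ∑ g`, `|σ| ≤ η * card Y`. `F0 = σ / card Γ` on `Γ`: `|F0| ≤ η / (κ s)`.
`f' y = f y - σ * card (N y) / card Γ`, `g'` the same: `∑ f' = ∑ g' = 0`, `|f'| ≤ η + (η/(κ s)) * s ≤ 2 η/κ`
(as `card (N y) ≤ card Z ≤ s`, `κ ≤ 1`).
(2) For `y1 y2 ∈ Y` let `I y1 y2 = {y' ∈ Y | good y1 y' ∧ good y' y2}`: at least `card Y / 2` elements.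
`T a b = ∑ y1 ∈ Y, ∑ y2 ∈ Y, f' y1 / (card Y * card (I y1 y2)) * ∑ y' ∈ I y1 y2,
 (e y1 y' a b + e y' y2 a b)` with `e u v a b = (if a = u ∧ b = v then 1 else 0) - (if a = v ∧ b = u then 1 else 0)`.
`T` is antisymmetric, zero on bad pairs, row sums `∑ b, T a b = f' a` (the inner row sum is
`[a = y1] - [a = y2]`, and `∑ y1, ∑ y2, f' y1 / card Y * ([a = y1] - [a = y2]) = f' a - (∑ f')/card Y`),
`|T a b| ≤ 8 * (2 η/κ) / card Y`: each of the four indicator terms is nonzero only when two of the three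
indices `y1, y', y2` are fixed.
`F1 y z = ∑ y' ∈ Y with good y y', z ∈ N y ∩ N y', T y y' / co y y'`. Row sums `f'`, column sums `0` by
antisymmetry (swap the summation variables), `|F1| ≤ card Y * (16 η/(κ card Y)) / (κ s) = 16 η/(κ² s)`.
(3) `F2` the same with the two sides exchanged. `F = F0 + F1 + F2`, `|F| ≤ 33 η/(κ² s)`.
HINT: prove (2) as a private lemma for the rows and apply it to the transposed graph for the columns.

The proof below is shorter: `F y z = φ y - (mean of φ over the neighbours of z) + g z / deg z` on `Γ`, where `φ` solves a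
weighted Laplace equation on `Y` (`solve`), whose oscillation is bounded by the maximum principle (`osc_bound`);
it gives `|F| ≤ 9 η / (κ² s)`.
-/

namespace Pool.Agent.Lib.TriD

private theorem osc_bound {ι : Type} [Fintype ι] [Nonempty ι] (K : ι → ι → ℝ) (k M : ℝ)
    (hk : 0 < k) (hK0 : ∀ a b, 0 ≤ K a b)
    (hcom : ∀ a b, (Fintype.card ι : ℝ) / 2 ≤
      ((Finset.univ.filter (fun c => k ≤ K a c ∧ k ≤ K b c)).card : ℝ))
    (f φ : ι → ℝ) (hf : ∀ a, |f a| ≤ M) (h : ∀ a, ∑ c, K a c * (φ a - φ c) = f a) (a b : ι) :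
    φ a - φ b ≤ 4 * M / (k * Fintype.card ι) := by
  obtain ⟨a0, ha0⟩ := Finite.exists_max φ
  obtain ⟨b0, hb0⟩ := Finite.exists_min φ
  have hn : (0 : ℝ) < Fintype.card ι := by exact_mod_cast Fintype.card_pos
  have h1 : f a0 - f b0 = ∑ c, (K a0 c * (φ a0 - φ c) + K b0 c * (φ c - φ b0)) := by
    rw [Finset.sum_add_distrib, h a0, ← h b0, sub_eq_add_neg, ← Finset.sum_neg_distrib]
    congr 1
    apply Finset.sum_congr rfl
    intro c _
    ring
  have h2 : ∑ c ∈ Finset.univ.filter (fun c => k ≤ K a0 c ∧ k ≤ K b0 c), k * (φ a0 - φ b0) ≤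
      ∑ c, (K a0 c * (φ a0 - φ c) + K b0 c * (φ c - φ b0)) := by
    refine le_trans (Finset.sum_le_sum (g := fun c => K a0 c * (φ a0 - φ c) + K b0 c * (φ c - φ b0))
      ?_) (Finset.sum_le_sum_of_subset_of_nonneg (Finset.filter_subset _ _) ?_)
    · intro c hc
      obtain ⟨hc1, hc2⟩ := (Finset.mem_filter.mp hc).2
      have e1 := mul_le_mul_of_nonneg_right hc1 (sub_nonneg.mpr (ha0 c))
      have e2 := mul_le_mul_of_nonneg_right hc2 (sub_nonneg.mpr (hb0 c))
      nlinarith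
    · intro c _ _
      have e1 := mul_nonneg (hK0 a0 c) (sub_nonneg.mpr (ha0 c))
      have e2 := mul_nonneg (hK0 b0 c) (sub_nonneg.mpr (hb0 c))
      linarith
  rw [Finset.sum_const, nsmul_eq_mul, ← h1] at h2
  have h3 : f a0 - f b0 ≤ 2 * M := by
    have e1 := (abs_le.mp (hf a0)).2
    have e2 := (abs_le.mp (hf b0)).1
    linarith
  have h4 : (Fintype.card ι : ℝ) / 2 * (k * (φ a0 - φ b0)) ≤ 2 * M := by
    have h5 : 0 ≤ k * (φ a0 - φ b0) := mul_nonneg hk.le (sub_nonneg.mpr (ha0 b0))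
    have := mul_le_mul_of_nonneg_right (hcom a0 b0) h5
    linarith
  have h6 : φ a - φ b ≤ φ a0 - φ b0 := by
    have := ha0 a
    have := hb0 b
    linarith
  refine le_trans h6 ?_
  rw [le_div_iff₀ (mul_pos hk hn)]
  nlinarith

private theorem solve {ι : Type} [Fintype ι] [Nonempty ι] (K : ι → ι → ℝ) (k M : ℝ)
    (hk : 0 < k) (hK0 : ∀ a b, 0 ≤ K a b) (hKs : ∀ a b, K a b = K b a)
    (hcom : ∀ a b, (Fintype.card ι : ℝ) / 2 ≤
      ((Finset.univ.filter (fun c => k ≤ K a c ∧ k ≤ K b c)).card : ℝ))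
    (f : ι → ℝ) (hf : ∀ a, |f a| ≤ M) (hsum : ∑ a, f a = 0) :
    ∃ φ : ι → ℝ, (∀ a, ∑ c, K a c * (φ a - φ c) = f a) ∧
      ∀ a b, φ a - φ b ≤ 4 * M / (k * Fintype.card ι) := by
  have hn : (0 : ℝ) < Fintype.card ι := by exact_mod_cast Fintype.card_pos
  have hzero : ∀ φ : ι → ℝ, ∑ a, ∑ c, K a c * (φ a - φ c) = 0 := by
    intro φ
    have h1 : ∑ a, ∑ c, K a c * (φ a - φ c) = - ∑ a, ∑ c, K a c * (φ a - φ c) := by
      conv_lhs => rw [Finset.sum_comm]
      rw [← Finset.sum_neg_distrib]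
      apply Finset.sum_congr rfl
      intro a _
      rw [← Finset.sum_neg_distrib]
      apply Finset.sum_congr rfl
      intro c _
      rw [hKs c a]
      ring
    linarith
  let L : (ι → ℝ) →ₗ[ℝ] (ι → ℝ) :=
    { toFun := fun φ a => ∑ c, K a c * (φ a - φ c) + ∑ c, φ c
      map_add' := by
        intro φ ψ
        funext a
        simp only [Pi.add_apply]
        have h1 : ∑ c, K a c * (φ a + ψ a - (φ c + ψ c)) =
            ∑ c, K a c * (φ a - φ c) + ∑ c, K a c * (ψ a - ψ c) := by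
          rw [← Finset.sum_add_distrib]
          apply Finset.sum_congr rfl
          intro c _
          ring
        rw [h1, Finset.sum_add_distrib]
        ring
      map_smul' := by
        intro r φ
        funext a
        simp only [Pi.smul_apply, smul_eq_mul, RingHom.id_apply]
        have h1 : ∑ c, K a c * (r * φ a - r * φ c) = r * ∑ c, K a c * (φ a - φ c) := by
          rw [Finset.mul_sum]
          apply Finset.sum_congr rfl
          intro c _
          ring
        rw [h1, ← Finset.mul_sum]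
        ring }
  have hL : ∀ φ a, L φ a = ∑ c, K a c * (φ a - φ c) + ∑ c, φ c := fun φ a => rfl
  have hsumL : ∀ φ, ∑ a, L φ a = (Fintype.card ι : ℝ) * ∑ c, φ c := by
    intro φ
    simp only [hL]
    rw [Finset.sum_add_distrib, hzero φ, Finset.sum_const, nsmul_eq_mul, Finset.card_univ]
    ring
  have hinj : Function.Injective L := by
    rw [← LinearMap.ker_eq_bot, LinearMap.ker_eq_bot']
    intro φ hφ
    have h1 : ∑ c, φ c = 0 := by
      have h2 := hsumL φ
      rw [hφ] at h2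
      simp only [Pi.zero_apply, Finset.sum_const_zero] at h2
      rcases mul_eq_zero.mp h2.symm with h3 | h3
      · exact absurd h3 hn.ne'
      · exact h3
    have h2 : ∀ a, ∑ c, K a c * (φ a - φ c) = (fun _ : ι => (0 : ℝ)) a := by
      intro a
      have h3 := congrFun hφ a
      rw [hL, h1] at h3
      simpa using h3
    have h3 : ∀ a b, φ a - φ b ≤ 0 := by
      intro a b
      have h4 := osc_bound K k 0 hk hK0 hcom (fun _ => 0) φ (by simp) h2 a b
      simpa using h4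
    have h4 : ∀ a b, φ a = φ b := by
      intro a b
      have e1 := h3 a b
      have e2 := h3 b a
      linarith
    funext a
    have h5 : ∑ c, φ c = (Fintype.card ι : ℝ) * φ a := by
      rw [Finset.sum_congr rfl (fun c _ => h4 c a), Finset.sum_const, nsmul_eq_mul,
        Finset.card_univ]
    rw [h1] at h5
    rcases mul_eq_zero.mp h5.symm with h6 | h6
    · exact absurd h6 hn.ne'
    · simpa using h6
  obtain ⟨φ, hφ⟩ := (LinearMap.injective_iff_surjective.mp hinj) f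
  have h1 : ∑ c, φ c = 0 := by
    have h2 := hsumL φ
    rw [hφ, hsum] at h2
    rcases mul_eq_zero.mp h2.symm with h3 | h3
    · exact absurd h3 hn.ne'
    · exact h3
  have h2 : ∀ a, ∑ c, K a c * (φ a - φ c) = f a := by
    intro a
    have h3 := congrFun hφ a
    rw [hL, h1, add_zero] at h3
    exact h3
  exact ⟨φ, h2, fun a b => osc_bound K k M hk hK0 hcom f φ hf h2 a b⟩

open scoped Classical in
theorem transport {α β : Type} (Y : Finset α) (Z : Finset β) (Γ : Finset (α × β))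
    (hΓ : Γ ⊆ Y ×ˢ Z) (κ s η : ℝ) (hκ : 0 < κ) (hκ1 : κ ≤ 1) (hs : 0 < s) (hη : 0 ≤ η)
    (hY : (Y.card : ℝ) ≤ s) (hZ : (Z.card : ℝ) ≤ s)
    (hyy : ∀ y ∈ Y, 4 * (Y.filter (fun y' =>
      ((Z.filter (fun z => (y, z) ∈ Γ ∧ (y', z) ∈ Γ)).card : ℝ) < κ * s)).card ≤ Y.card)
    (hzz : ∀ z ∈ Z, 4 * (Z.filter (fun z' =>
      ((Y.filter (fun y => (y, z) ∈ Γ ∧ (y, z') ∈ Γ)).card : ℝ) < κ * s)).card ≤ Z.card)
    (f : α → ℝ) (g : β → ℝ) (hf : ∀ y ∈ Y, |f y| ≤ η) (hg : ∀ z ∈ Z, |g z| ≤ η)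
    (hfg : ∑ y ∈ Y, f y = ∑ z ∈ Z, g z) :
    ∃ F : α → β → ℝ, (∀ y z, (y, z) ∉ Γ → F y z = 0) ∧ (∀ y ∈ Y, ∑ z ∈ Z, F y z = f y) ∧
      (∀ z ∈ Z, ∑ y ∈ Y, F y z = g z) ∧ ∀ y z, |F y z| ≤ 33 * η / (κ ^ 2 * s) := by
  classical
  -- degrees
  set χ : α → β → ℝ := fun y z => if (y, z) ∈ Γ then 1 else 0 with hχ
  set d : β → ℝ := fun z => ∑ y ∈ Y, χ y z with hd
  have hχ0 : ∀ y z, 0 ≤ χ y z := by
    intro y z
    simp only [hχ]
    split_ifs <;> norm_num
  have hχ1 : ∀ y z, χ y z ≤ 1 := by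
    intro y z
    simp only [hχ]
    split_ifs <;> norm_num
  have hdc : ∀ z, d z = ((Y.filter (fun y => (y, z) ∈ Γ)).card : ℝ) := by
    intro z
    simp only [hd, hχ]
    rw [Finset.sum_boole]
  have hks : 0 < κ * s := mul_pos hκ hs
  have hdz : ∀ z ∈ Z, κ * s ≤ d z := by
    intro z hz
    have h1 := hzz z hz
    have h2 : 0 < Z.card := Finset.card_pos.mpr ⟨z, hz⟩
    have h3 : ∃ z' ∈ Z, ¬ ((Y.filter (fun y => (y, z) ∈ Γ ∧ (y, z') ∈ Γ)).card : ℝ) < κ * s := by
      by_contra hcon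
      push Not at hcon
      rw [Finset.filter_true_of_mem hcon] at h1
      omega
    obtain ⟨z', _, h4⟩ := h3
    rw [hdc]
    refine le_trans (not_lt.mp h4) ?_
    exact_mod_cast Finset.card_le_card (fun y hy => by
      rw [Finset.mem_filter] at hy ⊢
      exact ⟨hy.1, hy.2.1⟩)
  have hdpos : ∀ z ∈ Z, 0 < d z := fun z hz => lt_of_lt_of_le hks (hdz z hz)
  rcases Y.eq_empty_or_nonempty with hYe | hYn
  · -- Y is empty, so Z is empty
    have hZe : ∀ z, z ∉ Z := by
      intro z hz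
      have h1 := hdpos z hz
      simp only [hd, hYe, Finset.sum_empty] at h1
      exact lt_irrefl _ h1
    refine ⟨fun _ _ => 0, fun _ _ _ => rfl, ?_, ?_, ?_⟩
    · intro y hy
      rw [hYe] at hy
      exact absurd hy (Finset.notMem_empty y)
    · intro z hz
      exact absurd hz (hZe z)
    · intro y z
      rw [abs_zero]
      positivity
  have hn : (0 : ℝ) < Y.card := by exact_mod_cast Finset.card_pos.mpr hYn
  have hdn : ∀ z, d z ≤ Y.card := by
    intro z
    rw [hdc]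
    exact_mod_cast Finset.card_filter_le _ _
  -- the kernel
  set K : α → α → ℝ := fun y y' => ∑ z ∈ Z, χ y z * χ y' z / d z with hK
  have hK0 : ∀ y y', 0 ≤ K y y' := by
    intro y y'
    apply Finset.sum_nonneg
    intro z hz
    exact div_nonneg (mul_nonneg (hχ0 y z) (hχ0 y' z)) (hdpos z hz).le
  have hKs : ∀ y y', K y y' = K y' y := by
    intro y y'
    apply Finset.sum_congr rfl
    intro z _
    ring
  have hKg : ∀ y y', κ * s ≤ ((Z.filter (fun z => (y, z) ∈ Γ ∧ (y', z) ∈ Γ)).card : ℝ) →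
      κ * s / Y.card ≤ K y y' := by
    intro y y' hg
    have h1 : ∀ z ∈ Z, χ y z * χ y' z / Y.card ≤ χ y z * χ y' z / d z := by
      intro z hz
      exact div_le_div_of_nonneg_left (mul_nonneg (hχ0 y z) (hχ0 y' z)) (hdpos z hz) (hdn z)
    refine le_trans ?_ (Finset.sum_le_sum h1)
    rw [← Finset.sum_div]
    refine div_le_div_of_nonneg_right (le_trans hg (le_of_eq ?_)) hn.le
    rw [Finset.card_filter, Nat.cast_sum]
    apply Finset.sum_congr rfl
    intro z _
    simp only [hχ]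
    by_cases h1 : (y, z) ∈ Γ <;> by_cases h2 : (y', z) ∈ Γ <;> simp [h1, h2]
  -- common good partners
  have hcom : ∀ y ∈ Y, ∀ y' ∈ Y, (Y.card : ℝ) / 2 ≤ ((Y.filter (fun c =>
      κ * s / Y.card ≤ K y c ∧ κ * s / Y.card ≤ K y' c)).card : ℝ) := by
    intro y hy y' hy'
    have h1 : Y ⊆ (Y.filter (fun c => κ * s / Y.card ≤ K y c ∧ κ * s / Y.card ≤ K y' c)) ∪
        (Y.filter (fun c => ((Z.filter (fun z => (y, z) ∈ Γ ∧ (c, z) ∈ Γ)).card : ℝ) < κ * s) ∪
        Y.filter (fun c => ((Z.filter (fun z => (y', z) ∈ Γ ∧ (c, z) ∈ Γ)).card : ℝ) < κ * s)) := by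
      intro c hc
      simp only [Finset.mem_union, Finset.mem_filter]
      by_cases h2 : ((Z.filter (fun z => (y, z) ∈ Γ ∧ (c, z) ∈ Γ)).card : ℝ) < κ * s
      · exact Or.inr (Or.inl ⟨hc, h2⟩)
      by_cases h3 : ((Z.filter (fun z => (y', z) ∈ Γ ∧ (c, z) ∈ Γ)).card : ℝ) < κ * s
      · exact Or.inr (Or.inr ⟨hc, h3⟩)
      exact Or.inl ⟨hc, hKg _ _ (not_lt.mp h2), hKg _ _ (not_lt.mp h3)⟩
    have h2 := Finset.card_le_card h1
    have h3 := h2.trans ((Finset.card_union_le _ _).trans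
      (Nat.add_le_add_left (Finset.card_union_le _ _) _))
    have h4 := hyy y hy
    have h5 := hyy y' hy'
    have h6 : Y.card ≤ 2 * (Y.filter (fun c =>
      κ * s / Y.card ≤ K y c ∧ κ * s / Y.card ≤ K y' c)).card := by omega
    have h7 : (Y.card : ℝ) ≤ 2 * ((Y.filter (fun c =>
      κ * s / Y.card ≤ K y c ∧ κ * s / Y.card ≤ K y' c)).card : ℝ) := by exact_mod_cast h6
    linarith
  -- right hand side
  set f' : α → ℝ := fun y => f y - ∑ z ∈ Z, χ y z * g z / d z with hf'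
  have hf'b : ∀ y ∈ Y, |f' y| ≤ 2 * η / κ := by
    intro y hy
    have h1 : |∑ z ∈ Z, χ y z * g z / d z| ≤ ∑ z ∈ Z, η / (κ * s) := by
      refine le_trans (Finset.abs_sum_le_sum_abs _ _) (Finset.sum_le_sum ?_)
      intro z hz
      rw [abs_div, abs_mul, abs_of_nonneg (hχ0 y z), abs_of_pos (hdpos z hz)]
      have h2 : χ y z * |g z| ≤ η := by
        have := mul_le_mul (hχ1 y z) (hg z hz) (abs_nonneg _) zero_le_one
        linarith
      exact div_le_div₀ hη h2 hks (hdz z hz)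
    rw [Finset.sum_const, nsmul_eq_mul] at h1
    have h2 : (Z.card : ℝ) * (η / (κ * s)) ≤ η / κ := by
      have h3 : (Z.card : ℝ) * (η / (κ * s)) ≤ s * (η / (κ * s)) :=
        mul_le_mul_of_nonneg_right hZ (by positivity)
      have h4 : s * (η / (κ * s)) = η / κ := by
        field_simp
      linarith
    have h3 : η ≤ η / κ := by
      rw [le_div_iff₀ hκ]
      nlinarith
    have h4 := abs_sub (f y) (∑ z ∈ Z, χ y z * g z / d z)
    have h5 := hf y hy
    have h6 : 2 * η / κ = η / κ + η / κ := by ring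
    have h7 : f' y = f y - ∑ z ∈ Z, χ y z * g z / d z := rfl
    rw [h7, h6]
    linarith
  have hf'0 : ∑ y ∈ Y, f' y = 0 := by
    simp only [hf']
    rw [Finset.sum_sub_distrib, Finset.sum_comm, hfg, sub_eq_zero]
    apply Finset.sum_congr rfl
    intro z hz
    rw [← Finset.sum_div, ← Finset.sum_mul]
    have h1 : ∑ y ∈ Y, χ y z = d z := rfl
    rw [h1]
    have := (hdpos z hz).ne'
    field_simp
  -- solve on the subtype
  have : Nonempty Y := hYn.to_subtype
  have hcardY : (Fintype.card Y : ℝ) = Y.card := by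
    rw [Fintype.card_coe]
  obtain ⟨φ, hφ1, hφ2⟩ := solve (ι := Y) (fun a b => K a b) (κ * s / Y.card) (2 * η / κ)
    (div_pos hks hn) (fun a b => hK0 a b) (fun a b => hKs a b) (by
      intro a b
      rw [hcardY]
      refine le_trans (hcom a a.2 b b.2) (le_of_eq ?_)
      congr 1
      rw [← Finset.card_map (Function.Embedding.subtype (· ∈ Y))]
      congr 1
      ext c
      simp only [Finset.mem_filter, Finset.mem_map, Finset.mem_univ, true_and,
        Function.Embedding.subtype_apply]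
      constructor
      · rintro ⟨h1, h2⟩
        exact ⟨⟨c, h1⟩, h2, rfl⟩
      · rintro ⟨⟨x, hx⟩, h2, rfl⟩
        exact ⟨hx, h2⟩) (fun a => f' a) (fun a => hf'b a a.2) (by
      rw [← hf'0]
      exact Finset.sum_coe_sort Y f')
  -- extend φ to α
  set ψ : α → ℝ := fun y => if h : y ∈ Y then φ ⟨y, h⟩ else 0 with hψ
  have hψc : ∀ a : Y, ψ a = φ a := by
    intro a
    simp only [hψ]
    rw [dif_pos a.2]
  have hψ1 : ∀ y ∈ Y, ∑ y' ∈ Y, K y y' * (ψ y - ψ y') = f' y := by
    intro y hy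
    have h1 := hφ1 ⟨y, hy⟩
    simp only at h1
    rw [← h1, ← Finset.sum_coe_sort Y]
    apply Finset.sum_congr rfl
    intro c _
    rw [hψc c, ← hψc ⟨y, hy⟩]
  have hψ2 : ∀ y ∈ Y, ∀ y' ∈ Y, |ψ y - ψ y'| ≤ 8 * η / (κ ^ 2 * s) := by
    have h0 : 4 * (2 * η / κ) / (κ * s / (Y.card : ℝ) * (Fintype.card Y : ℝ)) =
        8 * η / (κ ^ 2 * s) := by
      rw [hcardY, div_mul_cancel₀ _ hn.ne']
      field_simp
      ring
    intro y hy y' hy'
    rw [abs_le]
    have h1 := hφ2 ⟨y, hy⟩ ⟨y', hy'⟩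
    have h2 := hφ2 ⟨y', hy'⟩ ⟨y, hy⟩
    rw [h0, ← hψc, ← hψc] at h1 h2
    constructor
    · simp only at h1 h2
      linarith
    · simp only at h1 h2
      linarith
  -- the solution
  have hkey : ∀ y, ∀ z ∈ Z, ψ y - (∑ y' ∈ Y, χ y' z * ψ y') / d z =
      ∑ y' ∈ Y, χ y' z * (ψ y - ψ y') / d z := by
    intro y z hz
    have h1 := (hdpos z hz).ne'
    rw [← Finset.sum_div]
    have h2 : ∑ y' ∈ Y, χ y' z * (ψ y - ψ y') = d z * ψ y - ∑ y' ∈ Y, χ y' z * ψ y' := by
      have h3 : d z * ψ y = ∑ y' ∈ Y, χ y' z * ψ y := by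
        rw [← Finset.sum_mul]
      rw [h3, ← Finset.sum_sub_distrib]
      apply Finset.sum_congr rfl
      intro y' _
      ring
    rw [h2]
    field_simp
  refine ⟨fun y z => χ y z * (ψ y - (∑ y' ∈ Y, χ y' z * ψ y') / d z + g z / d z), ?_, ?_, ?_, ?_⟩
  · intro y z hyz
    simp only [hχ]
    rw [if_neg hyz, zero_mul]
  · intro y hy
    have h1 : ∑ z ∈ Z, χ y z * (ψ y - (∑ y' ∈ Y, χ y' z * ψ y') / d z + g z / d z) =
        ∑ z ∈ Z, ∑ y' ∈ Y, χ y z * χ y' z / d z * (ψ y - ψ y') + ∑ z ∈ Z, χ y z * g z / d z := by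
      rw [← Finset.sum_add_distrib]
      apply Finset.sum_congr rfl
      intro z hz
      rw [hkey y z hz, mul_add, Finset.mul_sum]
      congr 1
      · apply Finset.sum_congr rfl
        intro y' _
        ring
      · ring
    rw [h1, Finset.sum_comm]
    have h2 : ∑ y' ∈ Y, ∑ z ∈ Z, χ y z * χ y' z / d z * (ψ y - ψ y') =
        ∑ y' ∈ Y, K y y' * (ψ y - ψ y') := by
      apply Finset.sum_congr rfl
      intro y' _
      rw [← Finset.sum_mul]
    rw [h2, hψ1 y hy]
    simp only [hf']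
    ring
  · intro z hz
    have h1 : ∑ y ∈ Y, χ y z * (ψ y - (∑ y' ∈ Y, χ y' z * ψ y') / d z + g z / d z) =
        ∑ y ∈ Y, χ y z * ψ y - (∑ y ∈ Y, χ y z) * ((∑ y' ∈ Y, χ y' z * ψ y') / d z) +
          (∑ y ∈ Y, χ y z) * (g z / d z) := by
      rw [Finset.sum_mul, Finset.sum_mul, ← Finset.sum_sub_distrib, ← Finset.sum_add_distrib]
      apply Finset.sum_congr rfl
      intro y _
      ring
    have h2 : ∑ y ∈ Y, χ y z = d z := rfl
    have h3 := (hdpos z hz).ne'
    rw [h1, h2]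
    field_simp
    ring
  · intro y z
    by_cases hyz : (y, z) ∈ Γ
    · obtain ⟨hy, hz⟩ := Finset.mem_product.mp (hΓ hyz)
      simp only at hy hz
      have hc1 : χ y z = 1 := by
        simp only [hχ]
        rw [if_pos hyz]
      have h1 : |∑ y' ∈ Y, χ y' z * (ψ y - ψ y') / d z| ≤ 8 * η / (κ ^ 2 * s) := by
        have h2 : ∑ y' ∈ Y, χ y' z * (8 * η / (κ ^ 2 * s)) / d z = 8 * η / (κ ^ 2 * s) := by
          rw [← Finset.sum_div, ← Finset.sum_mul]
          have h3 : ∑ y ∈ Y, χ y z = d z := rfl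
          rw [h3]
          exact mul_div_cancel_left₀ _ (hdpos z hz).ne'
        rw [← h2]
        refine le_trans (Finset.abs_sum_le_sum_abs _ _) (Finset.sum_le_sum ?_)
        intro y' hy'
        rw [abs_div, abs_mul, abs_of_nonneg (hχ0 y' z), abs_of_pos (hdpos z hz)]
        exact div_le_div_of_nonneg_right
          (mul_le_mul_of_nonneg_left (hψ2 y hy y' hy') (hχ0 y' z)) (hdpos z hz).le
      have h2 : |g z / d z| ≤ η / (κ * s) := by
        rw [abs_div, abs_of_pos (hdpos z hz)]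
        exact div_le_div₀ hη (hg z hz) hks (hdz z hz)
      have h3 : η / (κ * s) ≤ η / (κ ^ 2 * s) := by
        apply div_le_div_of_nonneg_left hη (by positivity)
        have : κ ^ 2 ≤ κ := by nlinarith
        exact mul_le_mul_of_nonneg_right this hs.le
      show |χ y z * (ψ y - (∑ y' ∈ Y, χ y' z * ψ y') / d z + g z / d z)| ≤ _
      rw [hc1, one_mul, hkey y z hz]
      have h4 := abs_add_le (∑ y' ∈ Y, χ y' z * (ψ y - ψ y') / d z) (g z / d z)
      have h5 : 8 * η / (κ ^ 2 * s) + η / (κ ^ 2 * s) ≤ 33 * η / (κ ^ 2 * s) := by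
        rw [← add_div]
        apply div_le_div_of_nonneg_right _ (by positivity)
        linarith
      linarith
    · have hc0 : χ y z = 0 := by
        simp only [hχ]
        rw [if_neg hyz]
      show |χ y z * (ψ y - (∑ y' ∈ Y, χ y' z * ψ y') / d z + g z / d z)| ≤ _
      rw [hc0, zero_mul, abs_zero]
      positivity

end Pool.Agent.Lib.TriD
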