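import Pool.Agent.Lib.TriD.Bad
import Pool.Agent.Lib.TriD.FDefs
import Pool.Agent.Lib.TriD.Trans

set_option autoImplicit false

/-!
MODULE Bal (about 350 lines). Correction of the demands on inner edges so that all vertex sums agree.

PROOF. For `x` in part 0 put `τ x = ∑ y, dem 0 1 x y - ∑ b, dem 0 2 x b`, for `y` in part 1 `τ y = ∑ x, dem 0 1 x y -
∑ b, dem 1 2 y b`, for `b` in part 2 `τ b = ∑ x, dem 0 2 x b - ∑ y, dem 1 2 y b`; exchanging sums
`∑ τ x - ∑ τ y + ∑ τ b = 0` (sums over the parts).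
(1) `τ v = 0` if `v ∉ A1`: all `H`-edges at `v` have demand `1`, and `H` is `TDiv` (the number of `z` in part `j` with
`H.Adj v z` is `(nbr p H j {v}).card`).
(2) `|τ u| ≤ 3 ξ s` if `u ∈ A1`: the sum of the demands into part `j` is (number of `H`-neighbours) `- a_j + δ * i_j`,
`a_j = card {z ∈ A1 | H.Adj u z, p z = j}`, `i_j` = those not both in `A2` with `u`, i.e. `i_j = a_j` if `u ∉ A2` and
`i_j = a_j - w_j`, `w_j = card {z ∈ A2 | ...}`, if `u ∈ A2`. In `A1` `H` equals `G` (`full`, `le`), so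
`a_j = (nbr p G j {u} ∩ A1).card` is within `ξ s` of `(s / n / 4) * (nbr p G j {u}).card`, `w_j` within `ξ s` of `(s/n/16) * ...`, and
`(nbr p G j {u}).card` is the same for both parts (`Host.tdiv`). So the difference of the two sides is at most
`2 ξ s + δ * 4 ξ s ≤ 3 ξ s`.
(3) `Y0 = cls p A1 0`, `Y1 = cls p A1 1`, `Z = cls p A1 2`; `Γ02`, `Γ12` the inner edges in `Y0 × Z`, `Y1 × Z`.
`c' = (∑ y ∈ Y1, τ y) / Z.card`. `card Z ≥ (3/16 c - 2 ξ) s ≥ c s / 8`, `card Y1 ≤ s`, so `|c'| ≤ 24 ξ s / c`.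
`transport` for `Γ12` with `f = τ`, `g = const c'`; `transport` for `Γ02` with `f = τ`, `g b = c' - τ b`; the sums agree.
`η = 27 ξ s / c`, `κ = c ^ 3 / 8`, result `|ν| ≤ 33 * 27 * 64 ξ / c ^ 7 ≤ 60000 ξ / c ^ 7`.
Hypotheses of `transport`: `card ≤ s` (`cnt_size`: `(1/4 + ξ) s`, note `hsm` gives `ξ ≤ 1/32`); common neighbours: for `x, x'` in
`Y0` not a bad pair of `bad_vert` (`v = x`, `j = 2`, `i = 0`) there are `≥ κ s` common `H`-neighbours `b ∈ A1 \ A2`, and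
these are inner neighbours; the bad partners are at most `4 K / c ^ 3 ≤ card Y0 / 4` since `card Y0 ≥ c s / 8` and
`s ≥ 128 K / c ^ 4`. Same for `Y1`, and for `b, b'` in `Z` with `j = 0` or `j = 1`, `i = 2`.
(4) Check the three equations: at `x`: `∑ b, ν02 x b = τ x` for `x ∈ Y0`, both sides `0` for other `x`; at `b ∈ Z`:
`∑ x ν02 x b - ∑ y ν12 y b = (c' - τ b) - c' = - τ b`.
-/

open scoped Classical

noncomputable section

namespace Pool.Agent.Lib.TriD

variable {V : Type} [Fintype V]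

/-- symmetric demand -/
private def dd (H : SimpleGraph V) (A1 A2 : Finset V) (δ : ℝ) (u v : V) : ℝ :=
  if H.Adj u v then (if u ∈ A1 ∧ v ∈ A1 then (if u ∈ A2 ∧ v ∈ A2 then 0 else δ) else 1) else 0

omit [Fintype V] in
private theorem dd_symm (H : SimpleGraph V) (A1 A2 : Finset V) (δ : ℝ) (u v : V) :
    dd H A1 A2 δ u v = dd H A1 A2 δ v u := by
  unfold dd
  by_cases h : H.Adj u v
  · have h' := h.symm
    by_cases h1 : u ∈ A1 <;> by_cases h2 : v ∈ A1 <;> by_cases h3 : u ∈ A2 <;>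
      by_cases h4 : v ∈ A2 <;> simp [h, h', h1, h2, h3, h4]
  · have h' : ¬ H.Adj v u := fun k => h k.symm
    simp [h, h']

/-- weighted degree into a part -/
private def DD (p : V → Fin 3) (H : SimpleGraph V) (A1 A2 : Finset V) (δ : ℝ) (j : Fin 3)
    (u : V) : ℝ := ∑ z, if p z = j then dd H A1 A2 δ u z else 0

omit [Fintype V] in
private theorem dem_eq (p : V → Fin 3) (H : SimpleGraph V) (A1 A2 : Finset V) (δ : ℝ)
    (i j : Fin 3) (u v : V) :
    dem p H A1 A2 δ i j u v = if p u = i then (if p v = j then dd H A1 A2 δ u v else 0) else 0 := by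
  unfold dem dd
  by_cases h1 : p u = i
  · by_cases h2 : p v = j
    · simp [h1, h2]
    · simp [h2]
  · simp [h1]

private theorem dem_left (p : V → Fin 3) (H : SimpleGraph V) (A1 A2 : Finset V) (δ : ℝ)
    (i j : Fin 3) (u : V) :
    ∑ v, dem p H A1 A2 δ i j u v = if p u = i then DD p H A1 A2 δ j u else 0 := by
  simp only [dem_eq]
  by_cases h1 : p u = i
  · simp only [h1, if_true]
    rfl
  · simp [h1]

private theorem dem_right (p : V → Fin 3) (H : SimpleGraph V) (A1 A2 : Finset V) (δ : ℝ)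
    (i j : Fin 3) (v : V) :
    ∑ u, dem p H A1 A2 δ i j u v = if p v = j then DD p H A1 A2 δ i v else 0 := by
  simp only [dem_eq]
  by_cases h1 : p v = j
  · simp only [h1, if_true]
    unfold DD
    exact Finset.sum_congr rfl fun u _ => by rw [dd_symm]
  · simp [h1]

private theorem ee (p : V → Fin 3) (H : SimpleGraph V) (A1 A2 : Finset V) (δ : ℝ)
    (i j : Fin 3) :
    (∑ u, if p u = i then DD p H A1 A2 δ j u else 0) =
      ∑ v, if p v = j then DD p H A1 A2 δ i v else 0 := by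
  rw [← Finset.sum_congr rfl fun u _ => dem_left p H A1 A2 δ i j u, Finset.sum_comm]
  exact Finset.sum_congr rfl fun v _ => dem_right p H A1 A2 δ i j v

private theorem nbr_one (p : V → Fin 3) (G : SimpleGraph V) (j : Fin 3) (u : V) :
    nbr p G j {u} = Finset.univ.filter (fun z => p z = j ∧ G.Adj u z) := by
  ext z
  simp [nbr]

private theorem DD_out {p : V → Fin 3} {H : SimpleGraph V} {A1 A2 : Finset V} (δ : ℝ) (j : Fin 3)
    {u : V} (hu : u ∉ A1) : DD p H A1 A2 δ j u = (nbr p H j {u}).card := by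
  rw [nbr_one, Finset.card_filter, Nat.cast_sum]
  unfold DD dd
  refine Finset.sum_congr rfl fun z _ => ?_
  by_cases h1 : p z = j <;> by_cases h2 : H.Adj u z <;> simp [h1, h2, hu]

private theorem DD_in {p : V → Fin 3} {G H : SimpleGraph V} {A1 A2 : Finset V} (δ : ℝ) (j : Fin 3)
    {u : V} (hu : u ∈ A1) (h21 : A2 ⊆ A1) (hle : H ≤ G)
    (hfull : ∀ u v, u ∈ A1 → v ∈ A1 → G.Adj u v → H.Adj u v) :
    DD p H A1 A2 δ j u = (nbr p H j {u}).card - (1 - δ) * (nbr p G j {u} ∩ A1).card -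
      δ * (if u ∈ A2 then ((nbr p G j {u} ∩ A2).card : ℝ) else 0) := by
  have e1 : ((nbr p H j {u}).card : ℝ) = ∑ z, if p z = j ∧ H.Adj u z then (1 : ℝ) else 0 := by
    rw [nbr_one, Finset.card_filter, Nat.cast_sum]
    exact Finset.sum_congr rfl fun z _ => by push_cast; rfl
  have e2 : ((nbr p G j {u} ∩ A1).card : ℝ) =
      ∑ z, if (p z = j ∧ H.Adj u z) ∧ z ∈ A1 then (1 : ℝ) else 0 := by
    have h : nbr p G j {u} ∩ A1 =
        Finset.univ.filter (fun z => (p z = j ∧ H.Adj u z) ∧ z ∈ A1) := by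
      ext z
      rw [nbr_one, Finset.mem_inter, Finset.mem_filter, Finset.mem_filter]
      constructor
      · rintro ⟨⟨-, h1, h2⟩, h3⟩
        exact ⟨Finset.mem_univ _, ⟨h1, hfull u z hu h3 h2⟩, h3⟩
      · rintro ⟨-, ⟨h1, h2⟩, h3⟩
        exact ⟨⟨Finset.mem_univ _, h1, hle h2⟩, h3⟩
    rw [h, Finset.card_filter, Nat.cast_sum]
    exact Finset.sum_congr rfl fun z _ => by push_cast; rfl
  have e3 : ((nbr p G j {u} ∩ A2).card : ℝ) =
      ∑ z, if (p z = j ∧ H.Adj u z) ∧ z ∈ A2 then (1 : ℝ) else 0 := by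
    have h : nbr p G j {u} ∩ A2 =
        Finset.univ.filter (fun z => (p z = j ∧ H.Adj u z) ∧ z ∈ A2) := by
      ext z
      rw [nbr_one, Finset.mem_inter, Finset.mem_filter, Finset.mem_filter]
      constructor
      · rintro ⟨⟨-, h1, h2⟩, h3⟩
        exact ⟨Finset.mem_univ _, ⟨h1, hfull u z hu (h21 h3) h2⟩, h3⟩
      · rintro ⟨-, ⟨h1, h2⟩, h3⟩
        exact ⟨⟨Finset.mem_univ _, h1, hle h2⟩, h3⟩
    rw [h, Finset.card_filter, Nat.cast_sum]
    exact Finset.sum_congr rfl fun z _ => by push_cast; rfl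
  rw [e1, e2, e3]
  unfold DD dd
  by_cases hu2 : u ∈ A2
  · rw [if_pos hu2, Finset.mul_sum, Finset.mul_sum, ← Finset.sum_sub_distrib,
      ← Finset.sum_sub_distrib]
    refine Finset.sum_congr rfl fun z _ => ?_
    by_cases h1 : p z = j
    · by_cases h2 : H.Adj u z
      · by_cases h3 : z ∈ A1
        · by_cases h4 : z ∈ A2
          · simp [h1, h2, h3, h4, hu, hu2]
          · simp [h1, h2, h3, h4, hu]
        · have h4 : z ∉ A2 := fun h => h3 (h21 h)
          simp [h1, h2, h3, h4]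
      · simp [h2]
    · simp [h1]
  · rw [if_neg hu2, mul_zero, sub_zero, Finset.mul_sum, ← Finset.sum_sub_distrib]
    refine Finset.sum_congr rfl fun z _ => ?_
    by_cases h1 : p z = j
    · by_cases h2 : H.Adj u z
      · by_cases h3 : z ∈ A1
        · simp [h1, h2, h3, hu, hu2]
        · simp [h1, h2, h3]
      · simp [h2]
    · simp [h1]

private theorem tau_small {p : V → Fin 3} {G H : SimpleGraph V} {c K s ξ δ : ℝ}
    {A0 A1 A2 A3 : Finset V} (hG : Host p G c K) (hL : Level p G H s ξ δ A0 A1 A2 A3)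
    (hδ : 0 ≤ δ) (hδ1 : δ ≤ 1) {u : V} (hu : u ∈ A1) {j k : Fin 3} (hj : j ≠ p u)
    (hk : k ≠ p u) : |DD p H A1 A2 δ j u - DD p H A1 A2 δ k u| ≤ 2 * (ξ * s) := by
  rw [DD_in δ j hu hL.sub2 hL.le hL.full, DD_in δ k hu hL.sub2 hL.le hL.full]
  have h1 : ((nbr p H j {u}).card : ℝ) = (nbr p H k {u}).card := by
    rw [hL.tdiv u j k hj hk]
  have h2 : ((nbr p G j {u}).card : ℝ) = (nbr p G k {u}).card := by
    rw [hG.tdiv u j k hj hk]
  have hu0 : ({u} : Finset V) ⊆ A0 := Finset.singleton_subset_iff.2 (hL.sub1 hu)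
  have hc : ({u} : Finset V).card ≤ 4 := by simp
  have a1 := hL.vor1 {u} hu0 hc j
  have a2 := hL.vor1 {u} hu0 hc k
  have b1 := hL.vor2 {u} hu0 hc j
  have b2 := hL.vor2 {u} hu0 hc k
  rw [← h2] at a2 b2
  have a3 : |((nbr p G j {u} ∩ A1).card : ℝ) - (nbr p G k {u} ∩ A1).card| ≤ 2 * (ξ * s) := by
    rw [abs_le] at a1 a2 ⊢
    constructor <;> linarith [a1.1, a1.2, a2.1, a2.2]
  have b3 : |((nbr p G j {u} ∩ A2).card : ℝ) - (nbr p G k {u} ∩ A2).card| ≤ 2 * (ξ * s) := by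
    rw [abs_le] at b1 b2 ⊢
    constructor <;> linarith [b1.1, b1.2, b2.1, b2.2]
  have hpos : 0 ≤ 2 * (ξ * s) := (abs_nonneg _).trans a3
  have hw : |(if u ∈ A2 then ((nbr p G j {u} ∩ A2).card : ℝ) else 0) -
      (if u ∈ A2 then ((nbr p G k {u} ∩ A2).card : ℝ) else 0)| ≤ 2 * (ξ * s) := by
    by_cases h : u ∈ A2
    · simp only [h, if_true]
      exact b3
    · simp only [h, if_false, sub_self, abs_zero]
      exact hpos
  rw [h1]
  set a := ((nbr p G j {u} ∩ A1).card : ℝ)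
  set a' := ((nbr p G k {u} ∩ A1).card : ℝ)
  set w := (if u ∈ A2 then ((nbr p G j {u} ∩ A2).card : ℝ) else 0)
  set w' := (if u ∈ A2 then ((nbr p G k {u} ∩ A2).card : ℝ) else 0)
  set h := ((nbr p H k {u}).card : ℝ)
  rw [abs_le] at a3 hw ⊢
  have e : h - (1 - δ) * a - δ * w - (h - (1 - δ) * a' - δ * w') =
      -((1 - δ) * (a - a')) - δ * (w - w') := by ring
  rw [e]
  have k1 := mul_le_mul_of_nonneg_left a3.1 (sub_nonneg.2 hδ1)
  have k2 := mul_le_mul_of_nonneg_left a3.2 (sub_nonneg.2 hδ1)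
  have k3 := mul_le_mul_of_nonneg_left hw.1 hδ
  have k4 := mul_le_mul_of_nonneg_left hw.2 hδ
  constructor <;> nlinarith

private theorem tau_out {p : V → Fin 3} {G H : SimpleGraph V} {s ξ δ : ℝ}
    {A0 A1 A2 A3 : Finset V} (hL : Level p G H s ξ δ A0 A1 A2 A3)
    {u : V} (hu : u ∉ A1) {j k : Fin 3} (hj : j ≠ p u)
    (hk : k ≠ p u) : DD p H A1 A2 δ j u = DD p H A1 A2 δ k u := by
  rw [DD_out δ j hu, DD_out δ k hu, hL.tdiv u j k hj hk]

private theorem cls_big {p : V → Fin 3} {G H : SimpleGraph V} {c K s ξ δ : ℝ}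
    {A0 A1 A2 A3 : Finset V} (hG : Host p G c K) (hL : Level p G H s ξ δ A0 A1 A2 A3)
    (hc : 0 < c) (hc1 : c < 1) (hδ : 0 ≤ δ) (hsm : 2 * ξ + 12 * δ ≤ c ^ 3 / 16) (j : Fin 3) :
    c * s / 8 ≤ (cls p A1 j).card := by
  have h1 := (cnt_size hG hL j).2.2.2
  have h2 : ((cls p (A1 \ A2) j).card : ℝ) ≤ (cls p A1 j).card := by
    have h3 : cls p (A1 \ A2) j ⊆ cls p A1 j := by
      intro z hz
      unfold cls at hz ⊢
      rw [Finset.mem_filter, Finset.mem_sdiff] at hz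
      rw [Finset.mem_filter]
      exact ⟨hz.1.1, hz.2⟩
    exact_mod_cast Finset.card_le_card h3
  have h3 : c ^ 3 ≤ c := by
    have h4 : c ^ 2 ≤ 1 := by nlinarith
    nlinarith
  have h4 : c / 8 ≤ 3 / 16 * c - 2 * ξ := by linarith
  have h5 := mul_le_mul_of_nonneg_right h4 hL.s0.le
  have h6 : c * s / 8 = c / 8 * s := by ring
  rw [h6]
  linarith

/-- transport between part `i` and part `2` -/
private theorem tr {p : V → Fin 3} {G H : SimpleGraph V} {c K s ξ δ : ℝ} {A0 A1 A2 A3 : Finset V}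
    (hG : Host p G c K) (hL : Level p G H s ξ δ A0 A1 A2 A3) (hc : 0 < c) (hc1 : c < 1)
    (hK : 0 ≤ K) (hξ : 0 ≤ ξ) (hδ : 0 ≤ δ) (hsm : 2 * ξ + 12 * δ ≤ c ^ 3 / 16)
    (hs : 128 * K / c ^ 4 ≤ s) (i : Fin 3) (hi : i ≠ 2) (f g : V → ℝ)
    (hf : ∀ y ∈ cls p A1 i, |f y| ≤ 27 * ξ * s / c)
    (hg : ∀ z ∈ cls p A1 2, |g z| ≤ 27 * ξ * s / c)
    (hfg : ∑ y ∈ cls p A1 i, f y = ∑ z ∈ cls p A1 2, g z) :
    ∃ ν : V → V → ℝ, (∀ x b, ν x b ≠ 0 → p x = i ∧ p b = 2 ∧ Inner H A1 A2 x b) ∧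
      (∀ x b, |ν x b| ≤ 60000 * ξ / c ^ 7) ∧ (∀ x ∈ cls p A1 i, ∑ b, ν x b = f x) ∧
      (∀ b ∈ cls p A1 2, ∑ x, ν x b = g b) := by
  have hs0 := hL.s0
  have hcs : ∀ A : Finset V, ∀ j z, z ∈ cls p A j ↔ z ∈ A ∧ p z = j := by
    intro A j z
    unfold cls
    rw [Finset.mem_filter]
  have hc3 : c ^ 3 ≤ 1 := pow_le_one₀ hc.le hc1.le
  have hc3' : 0 < c ^ 3 := by positivity
  have hξ1 : ξ ≤ 1 / 32 := by linarith
  have hsz : ∀ j, ((cls p A1 j).card : ℝ) ≤ s := by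
    intro j
    have h1 := (cnt_size hG hL j).2.1
    have h2 : (1 / 4 + ξ) * s ≤ 1 * s := mul_le_mul_of_nonneg_right (by linarith) hs0.le
    linarith
  have hbig : ∀ j, 4 * (4 * K / c ^ 3) ≤ (cls p A1 j).card := by
    intro j
    have h1 := cls_big hG hL hc hc1 hδ hsm j
    refine le_trans ?_ h1
    have h2 : 128 * K ≤ s * c ^ 4 := by
      rwa [div_le_iff₀ (by positivity)] at hs
    rw [← mul_div_assoc, div_le_div_iff₀ hc3' (by norm_num)]
    have h3 : c * s * c ^ 3 = s * c ^ 4 := by ring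
    rw [h3]
    linarith
  set Γ : Finset (V × V) := (cls p A1 i ×ˢ cls p A1 2).filter (fun e => Inner H A1 A2 e.1 e.2)
    with hΓ
  have hΓm : ∀ x b, (x, b) ∈ Γ ↔ (x ∈ cls p A1 i ∧ b ∈ cls p A1 2) ∧ Inner H A1 A2 x b := by
    intro x b
    rw [hΓ, Finset.mem_filter, Finset.mem_product]
  -- adjacency gives inner edges
  have hin1 : ∀ x z, x ∈ cls p A1 i → z ∈ cls p (A1 \ A2) 2 → H.Adj x z → (x, z) ∈ Γ := by
    intro x z hx hz hxz
    rw [hcs, Finset.mem_sdiff] at hz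
    rw [hΓm]
    refine ⟨⟨hx, (hcs _ _ _).2 ⟨hz.1.1, hz.2⟩⟩, hxz, ⟨((hcs _ _ _).1 hx).1, hz.1.1⟩, ?_⟩
    exact fun h => hz.1.2 h.2
  have hin2 : ∀ x z, x ∈ cls p (A1 \ A2) i → z ∈ cls p A1 2 → H.Adj z x → (x, z) ∈ Γ := by
    intro x z hx hz hxz
    rw [hcs, Finset.mem_sdiff] at hx
    rw [hΓm]
    refine ⟨⟨(hcs _ _ _).2 ⟨hx.1.1, hx.2⟩, hz⟩, hxz.symm, ⟨hx.1.1, ((hcs _ _ _).1 hz).1⟩, ?_⟩
    exact fun h => hx.1.2 h.1
  obtain ⟨F, hF0, hF1, hF2, hF3⟩ := transport (cls p A1 i) (cls p A1 2) Γ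
    (Finset.filter_subset _ _) (c ^ 3 / 8) s (27 * ξ * s / c) (by positivity) (by linarith) hs0
    (by positivity) (hsz i) (hsz 2)
    (by
      intro y hy
      have hy' := (hcs _ _ _).1 hy
      have h1 := bad_vert hG hL hc hc1 hK hξ hδ hsm (v := y) (hL.sub1 hy'.1) (j := 2) (i := i)
        (by rw [hy'.2]; exact hi.symm) hi
      have h2 : (cls p A1 i).filter (fun y' =>
          (((cls p A1 2).filter (fun z => (y, z) ∈ Γ ∧ (y', z) ∈ Γ)).card : ℝ) < c ^ 3 / 8 * s) ⊆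
          A0.filter (fun u' => p u' = i ∧ ¬ (c ^ 3 / 8 * s ≤
            ((cls p (A0 \ A1) 2).filter (fun z => H.Adj y z ∧ H.Adj u' z)).card ∧
          c ^ 3 / 8 * s ≤
            ((cls p (A1 \ A2) 2).filter (fun z => H.Adj y z ∧ H.Adj u' z)).card)) := by
        intro y' hy'2
        rw [Finset.mem_filter] at hy'2 ⊢
        have h3 := (hcs _ _ _).1 hy'2.1
        refine ⟨hL.sub1 h3.1, h3.2, fun h4 => ?_⟩
        have h5 : ((cls p (A1 \ A2) 2).filter (fun z => H.Adj y z ∧ H.Adj y' z)) ⊆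
            ((cls p A1 2).filter (fun z => (y, z) ∈ Γ ∧ (y', z) ∈ Γ)) := by
          intro z hz
          rw [Finset.mem_filter] at hz ⊢
          have h6 := (hcs _ _ _).1 hz.1
          rw [Finset.mem_sdiff] at h6
          exact ⟨(hcs _ _ _).2 ⟨h6.1.1, h6.2⟩, hin1 y z hy hz.1 hz.2.1, hin1 y' z hy'2.1 hz.1 hz.2.2⟩
        have h6 : (((cls p (A1 \ A2) 2).filter (fun z => H.Adj y z ∧ H.Adj y' z)).card : ℝ) ≤
            ((cls p A1 2).filter (fun z => (y, z) ∈ Γ ∧ (y', z) ∈ Γ)).card := by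
          exact_mod_cast Finset.card_le_card h5
        linarith [h4.2, hy'2.2]
      have h3 : (((cls p A1 i).filter (fun y' =>
          (((cls p A1 2).filter (fun z => (y, z) ∈ Γ ∧ (y', z) ∈ Γ)).card : ℝ) <
            c ^ 3 / 8 * s)).card : ℝ) ≤ 4 * K / c ^ 3 :=
        le_trans (by exact_mod_cast Finset.card_le_card h2) h1
      have h4 := hbig i
      have h5 : (4 : ℝ) * (((cls p A1 i).filter (fun y' =>
          (((cls p A1 2).filter (fun z => (y, z) ∈ Γ ∧ (y', z) ∈ Γ)).card : ℝ) <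
            c ^ 3 / 8 * s)).card : ℝ) ≤ ((cls p A1 i).card : ℝ) := by linarith
      exact_mod_cast h5)
    (by
      intro y hy
      have hy' := (hcs _ _ _).1 hy
      have h1 := bad_vert hG hL hc hc1 hK hξ hδ hsm (v := y) (hL.sub1 hy'.1) (j := i) (i := 2)
        (by rw [hy'.2]; exact hi) hi.symm
      have h2 : (cls p A1 2).filter (fun y' =>
          (((cls p A1 i).filter (fun z => (z, y) ∈ Γ ∧ (z, y') ∈ Γ)).card : ℝ) < c ^ 3 / 8 * s) ⊆
          A0.filter (fun u' => p u' = 2 ∧ ¬ (c ^ 3 / 8 * s ≤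
            ((cls p (A0 \ A1) i).filter (fun z => H.Adj y z ∧ H.Adj u' z)).card ∧
          c ^ 3 / 8 * s ≤
            ((cls p (A1 \ A2) i).filter (fun z => H.Adj y z ∧ H.Adj u' z)).card)) := by
        intro y' hy'2
        rw [Finset.mem_filter] at hy'2 ⊢
        have h3 := (hcs _ _ _).1 hy'2.1
        refine ⟨hL.sub1 h3.1, h3.2, fun h4 => ?_⟩
        have h5 : ((cls p (A1 \ A2) i).filter (fun z => H.Adj y z ∧ H.Adj y' z)) ⊆
            ((cls p A1 i).filter (fun z => (z, y) ∈ Γ ∧ (z, y') ∈ Γ)) := by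
          intro z hz
          rw [Finset.mem_filter] at hz ⊢
          have h6 := (hcs _ _ _).1 hz.1
          rw [Finset.mem_sdiff] at h6
          exact ⟨(hcs _ _ _).2 ⟨h6.1.1, h6.2⟩, hin2 z y hz.1 hy hz.2.1, hin2 z y' hz.1 hy'2.1 hz.2.2⟩
        have h6 : (((cls p (A1 \ A2) i).filter (fun z => H.Adj y z ∧ H.Adj y' z)).card : ℝ) ≤
            ((cls p A1 i).filter (fun z => (z, y) ∈ Γ ∧ (z, y') ∈ Γ)).card := by
          exact_mod_cast Finset.card_le_card h5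
        linarith [h4.2, hy'2.2]
      have h3 : (((cls p A1 2).filter (fun y' =>
          (((cls p A1 i).filter (fun z => (z, y) ∈ Γ ∧ (z, y') ∈ Γ)).card : ℝ) <
            c ^ 3 / 8 * s)).card : ℝ) ≤ 4 * K / c ^ 3 :=
        le_trans (by exact_mod_cast Finset.card_le_card h2) h1
      have h4 := hbig 2
      have h5 : (4 : ℝ) * (((cls p A1 2).filter (fun y' =>
          (((cls p A1 i).filter (fun z => (z, y) ∈ Γ ∧ (z, y') ∈ Γ)).card : ℝ) <
            c ^ 3 / 8 * s)).card : ℝ) ≤ ((cls p A1 2).card : ℝ) := by linarith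
      exact_mod_cast h5)
    f g hf hg hfg
  have hz1 : ∀ x b, b ∉ cls p A1 2 → F x b = 0 := fun x b hb =>
    hF0 x b (fun h => hb ((hΓm x b).1 h).1.2)
  have hz2 : ∀ x b, x ∉ cls p A1 i → F x b = 0 := fun x b hb =>
    hF0 x b (fun h => hb ((hΓm x b).1 h).1.1)
  refine ⟨F, fun x b hxb => ?_, fun x b => ?_, fun x hx => ?_, fun b hb => ?_⟩
  · have h1 : (x, b) ∈ Γ := by
      by_contra h
      exact hxb (hF0 x b h)
    rw [hΓm] at h1
    exact ⟨((hcs _ _ _).1 h1.1.1).2, ((hcs _ _ _).1 h1.1.2).2, h1.2⟩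
  · refine (hF3 x b).trans ?_
    have e1 : 33 * (27 * ξ * s / c) / ((c ^ 3 / 8) ^ 2 * s) = 57024 * ξ / c ^ 7 := by
      field_simp
      ring
    rw [e1]
    exact div_le_div_of_nonneg_right (by linarith) (by positivity)
  · rw [← hF1 x hx]
    exact (Finset.sum_subset (Finset.subset_univ _) fun b _ hb => hz1 x b hb).symm
  · rw [← hF2 b hb]
    exact (Finset.sum_subset (Finset.subset_univ _) fun x _ hx => hz2 x b hx).symm

theorem balance {p : V → Fin 3} {G H : SimpleGraph V} {c K s ξ δ : ℝ} {A0 A1 A2 A3 : Finset V}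
    (hG : Host p G c K) (hL : Level p G H s ξ δ A0 A1 A2 A3) (hc : 0 < c) (hc1 : c < 1)
    (hK : 0 ≤ K) (hξ : 0 ≤ ξ) (hδ : 0 ≤ δ) (hsm : 2 * ξ + 12 * δ ≤ c ^ 3 / 16)
    (hs : 128 * K / c ^ 4 ≤ s) :
    ∃ ν02 ν12 : V → V → ℝ,
      (∀ x b, ν02 x b ≠ 0 → p x = 0 ∧ p b = 2 ∧ Inner H A1 A2 x b) ∧
      (∀ y b, ν12 y b ≠ 0 → p y = 1 ∧ p b = 2 ∧ Inner H A1 A2 y b) ∧
      (∀ x b, |ν02 x b| ≤ 60000 * ξ / c ^ 7) ∧ (∀ y b, |ν12 y b| ≤ 60000 * ξ / c ^ 7) ∧
      (∀ x, ∑ y, dem p H A1 A2 δ 0 1 x y = ∑ b, (dem p H A1 A2 δ 0 2 x b + ν02 x b)) ∧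
      (∀ y, ∑ x, dem p H A1 A2 δ 0 1 x y = ∑ b, (dem p H A1 A2 δ 1 2 y b + ν12 y b)) ∧
      (∀ b, ∑ x, (dem p H A1 A2 δ 0 2 x b + ν02 x b) =
        ∑ y, (dem p H A1 A2 δ 1 2 y b + ν12 y b)) := by
  have hs0 := hL.s0
  have hcs : ∀ A : Finset V, ∀ j z, z ∈ cls p A j ↔ z ∈ A ∧ p z = j := by
    intro A j z
    unfold cls
    rw [Finset.mem_filter]
  have hc3 : c ^ 3 ≤ 1 := pow_le_one₀ hc.le hc1.le
  have hδ1 : δ ≤ 1 := by linarith
  have hξ1 : ξ ≤ 1 / 32 := by linarith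
  have hsz : ∀ j, ((cls p A1 j).card : ℝ) ≤ s := by
    intro j
    have h1 := (cnt_size hG hL j).2.1
    have h2 : (1 / 4 + ξ) * s ≤ 1 * s := mul_le_mul_of_nonneg_right (by linarith) hs0.le
    linarith
  have hbig := cls_big hG hL hc hc1 hδ hsm
  have hZpos : (0 : ℝ) < (cls p A1 2).card := lt_of_lt_of_le (by positivity) (hbig 2)
  set τ0 : V → ℝ := fun x => DD p H A1 A2 δ 1 x - DD p H A1 A2 δ 2 x with hτ0
  set τ1 : V → ℝ := fun x => DD p H A1 A2 δ 0 x - DD p H A1 A2 δ 2 x with hτ1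
  set τ2 : V → ℝ := fun x => DD p H A1 A2 δ 0 x - DD p H A1 A2 δ 1 x with hτ2
  have o0 : ∀ x, x ∉ A1 → p x = 0 → τ0 x = 0 := fun x hx hp =>
    sub_eq_zero.2 (tau_out hL hx (by rw [hp]; decide) (by rw [hp]; decide))
  have o1 : ∀ x, x ∉ A1 → p x = 1 → τ1 x = 0 := fun x hx hp =>
    sub_eq_zero.2 (tau_out hL hx (by rw [hp]; decide) (by rw [hp]; decide))
  have o2 : ∀ x, x ∉ A1 → p x = 2 → τ2 x = 0 := fun x hx hp =>
    sub_eq_zero.2 (tau_out hL hx (by rw [hp]; decide) (by rw [hp]; decide))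
  have b0 : ∀ x ∈ cls p A1 0, |τ0 x| ≤ 2 * (ξ * s) := by
    intro x hx
    have h := (hcs _ _ _).1 hx
    exact tau_small hG hL hδ hδ1 h.1 (by rw [h.2]; decide) (by rw [h.2]; decide)
  have b1 : ∀ x ∈ cls p A1 1, |τ1 x| ≤ 2 * (ξ * s) := by
    intro x hx
    have h := (hcs _ _ _).1 hx
    exact tau_small hG hL hδ hδ1 h.1 (by rw [h.2]; decide) (by rw [h.2]; decide)
  have b2 : ∀ x ∈ cls p A1 2, |τ2 x| ≤ 2 * (ξ * s) := by
    intro x hx
    have h := (hcs _ _ _).1 hx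
    exact tau_small hG hL hδ hδ1 h.1 (by rw [h.2]; decide) (by rw [h.2]; decide)
  have hsum : ∀ (i : Fin 3) (τ : V → ℝ), (∀ x, x ∉ A1 → p x = i → τ x = 0) →
      ∑ x ∈ cls p A1 i, τ x = ∑ x, if p x = i then τ x else 0 := by
    intro i τ hτ
    rw [← Finset.sum_filter]
    refine Finset.sum_subset (fun x hx => ?_) fun x hx hx' => ?_
    · rw [Finset.mem_filter]
      exact ⟨Finset.mem_univ _, ((hcs _ _ _).1 hx).2⟩
    · rw [Finset.mem_filter] at hx
      refine hτ x (fun h => hx' ((hcs _ _ _).2 ⟨h, hx.2⟩)) hx.2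
  have htot : ∑ x ∈ cls p A1 0, τ0 x = ∑ y ∈ cls p A1 1, τ1 y - ∑ b ∈ cls p A1 2, τ2 b := by
    rw [hsum 0 τ0 o0, hsum 1 τ1 o1, hsum 2 τ2 o2]
    have hsp : ∀ (i j k : Fin 3), (∑ x, if p x = i then DD p H A1 A2 δ j x - DD p H A1 A2 δ k x else 0) =
        (∑ x, if p x = i then DD p H A1 A2 δ j x else 0) -
          ∑ x, if p x = i then DD p H A1 A2 δ k x else 0 := by
      intro i j k
      rw [← Finset.sum_sub_distrib]
      refine Finset.sum_congr rfl fun x _ => ?_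
      split_ifs
      · rfl
      · rw [sub_zero]
    simp only [hτ0, hτ1, hτ2]
    rw [hsp, hsp, hsp, ee p H A1 A2 δ 0 1, ee p H A1 A2 δ 0 2, ee p H A1 A2 δ 1 2]
    ring
  set c' : ℝ := (∑ y ∈ cls p A1 1, τ1 y) / (cls p A1 2).card with hc'
  have hξs : 0 ≤ ξ * s := mul_nonneg hξ hs0.le
  have hc'b : |c'| ≤ 24 * ξ * s / c := by
    rw [hc', abs_div, abs_of_pos hZpos, div_le_div_iff₀ hZpos hc]
    have h1 : |∑ y ∈ cls p A1 1, τ1 y| ≤ s * (2 * (ξ * s)) := by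
      refine (Finset.abs_sum_le_sum_abs _ _).trans ((Finset.sum_le_sum b1).trans ?_)
      rw [Finset.sum_const, nsmul_eq_mul]
      exact mul_le_mul_of_nonneg_right (hsz 1) (by positivity)
    have h2 := mul_le_mul_of_nonneg_right h1 hc.le
    have h3 := mul_le_mul_of_nonneg_left (hbig 2) (by positivity : (0 : ℝ) ≤ 24 * ξ * s)
    nlinarith
  have hdiv : ξ * s ≤ ξ * s / c := by
    rw [le_div_iff₀ hc]
    nlinarith
  have e27 : 27 * ξ * s / c = 27 * (ξ * s / c) := by ring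
  have e24 : 24 * ξ * s / c = 24 * (ξ * s / c) := by ring
  have hdp : 0 ≤ ξ * s / c := by positivity
  obtain ⟨ν12, n1, n2, n3, n4⟩ := tr hG hL hc hc1 hK hξ hδ hsm hs 1 (by decide) τ1 (fun _ => c')
    (fun y hy => (b1 y hy).trans (by rw [e27]; linarith))
    (fun z _ => hc'b.trans (by rw [e27, e24]; linarith))
    (by
      rw [Finset.sum_const, nsmul_eq_mul, hc', mul_div_cancel₀ _ hZpos.ne'])
  obtain ⟨ν02, m1, m2, m3, m4⟩ := tr hG hL hc hc1 hK hξ hδ hsm hs 0 (by decide) τ0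
    (fun b => c' - τ2 b)
    (fun y hy => (b0 y hy).trans (by rw [e27]; linarith))
    (fun z hz => by
      have h1 := abs_sub c' (τ2 z)
      have h2 := b2 z hz
      rw [e27]
      rw [e24] at hc'b
      linarith)
    (by
      have hq : ∑ z ∈ cls p A1 2, (c' - τ2 z) =
          (cls p A1 2).card * c' - ∑ z ∈ cls p A1 2, τ2 z := by
        rw [Finset.sum_sub_distrib, Finset.sum_const, nsmul_eq_mul]
      rw [hq, hc', mul_div_cancel₀ _ hZpos.ne']
      exact htot)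
  refine ⟨ν02, ν12, m1, n1, m2, n2, fun x => ?_, fun y => ?_, fun b => ?_⟩
  · rw [Finset.sum_add_distrib, dem_left, dem_left]
    by_cases hx : p x = 0
    · rw [if_pos hx, if_pos hx]
      by_cases hxA : x ∈ A1
      · rw [m3 x ((hcs _ _ _).2 ⟨hxA, hx⟩), hτ0]
        ring
      · have h1 : ∑ b, ν02 x b = 0 := Finset.sum_eq_zero fun b _ => by
          by_contra h
          exact hxA (m1 x b h).2.2.2.1.1
        rw [h1, add_zero]
        exact sub_eq_zero.1 (o0 x hxA hx)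
    · rw [if_neg hx, if_neg hx, zero_add]
      exact (Finset.sum_eq_zero fun b _ => by
        by_contra h
        exact hx (m1 x b h).1).symm
  · rw [Finset.sum_add_distrib, dem_left, dem_right]
    by_cases hx : p y = 1
    · rw [if_pos hx, if_pos hx]
      by_cases hxA : y ∈ A1
      · rw [n3 y ((hcs _ _ _).2 ⟨hxA, hx⟩), hτ1]
        ring
      · have h1 : ∑ b, ν12 y b = 0 := Finset.sum_eq_zero fun b _ => by
          by_contra h
          exact hxA (n1 y b h).2.2.2.1.1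
        rw [h1, add_zero]
        exact sub_eq_zero.1 (o1 y hxA hx)
    · rw [if_neg hx, if_neg hx, zero_add]
      exact (Finset.sum_eq_zero fun b _ => by
        by_contra h
        exact hx (n1 y b h).1).symm
  · rw [Finset.sum_add_distrib, Finset.sum_add_distrib, dem_right, dem_right]
    by_cases hx : p b = 2
    · rw [if_pos hx, if_pos hx]
      by_cases hxA : b ∈ A1
      · rw [m4 b ((hcs _ _ _).2 ⟨hxA, hx⟩), n4 b ((hcs _ _ _).2 ⟨hxA, hx⟩), hτ2]
        ring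
      · have h1 : ∑ x, ν02 x b = 0 := Finset.sum_eq_zero fun x _ => by
          by_contra h
          exact hxA (m1 x b h).2.2.2.1.2
        have h2 : ∑ x, ν12 x b = 0 := Finset.sum_eq_zero fun x _ => by
          by_contra h
          exact hxA (n1 x b h).2.2.2.1.2
        rw [h1, h2, add_zero, add_zero]
        exact sub_eq_zero.1 (o2 b hxA hx)
    · rw [if_neg hx, if_neg hx, zero_add, zero_add]
      rw [Finset.sum_eq_zero fun x _ => by
        by_contra h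
        exact hx (m1 x b h).2.1]
      exact (Finset.sum_eq_zero fun x _ => by
        by_contra h
        exact hx (n1 x b h).2.1).symm

end Pool.Agent.Lib.TriD
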