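import Pool.Agent.Lib.TriD.Cnt
import Pool.Agent.Lib.TriD.FDefs

set_option autoImplicit false

/-!
MODULE Base (about 250 lines). The sums of the type weights. `q = s / n * k`, `c * s ≤ q ≤ s`.

PROOFS. `bw` is symmetric in its three vertices (`bw_comm12`, `bw_comm23`: `cntA` is symmetric).
Let `H.Adj u v` and `z` run over the common `H`-neighbours of `u, v` in part `j`; all of them are in `A0` (`supp`), so they
split into the classes `A0 \ A1`, `A1 \ A2`, `A2` with sizes `T_O, T_A, T_W`, which by `cnt_tri` are within `ε = (2 ξ + 6 δ) s` of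
`3/4 q, 3/16 q, 1/16 q`. Write `al, zA, zW, be` for the four constants of `bw`.
(OO) `u, v ∉ A1`: the sum is `al T_O + zA T_A + zW T_W`, main term `1`, error at most `(4/3 / q) * 3 * ε`.
(OA) exactly one of `u, v` in `A1`, and it is not in `A2`: `zA T_O + be (T_A + T_W)`, main term `(1 - δ/3) + δ/3 = 1`.
(OW) exactly one of `u, v` in `A1`, and it is in `A2`: `zW T_O + be T_A` (`z ∈ A2` gives `cntA A2 = 2`, weight `0`), main term
`(1 - δ/4) + δ/4 = 1`. All errors are at most `(4 / q) ε ≤ (4 / (c s)) (2 ξ + 6 δ) s ≤ (24 / c) (ξ + δ)`.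
(inner) `u, v ∈ A1`, not both in `A2`: `be T_O` (`z ∈ A1` gives `cntA A1 = 3`), main term `δ`, error at most
`(4/3) δ / q * ε ≤ (8 / c) δ (ξ + δ)`. (both in `A2`: sum `0`.)
`bw_bounds`: all four constants are at most `(4/3) / q ≤ 4 / (c s)`; `be ≥ (4/3) δ / s`; the other three are
`≥ (8/9) / s` (`0 ≤ δ ≤ 1/2`; the type with one vertex in `A1` needs `δ ≤ 12/13` for `δ / s ≤ bw`).
In an allowed triangle `cntA A2 ≤ 1` and `cntA A1 ≤ 2`; in a `Two` triangle `cntA A1 ≤ 1`.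
-/

open scoped Classical

noncomputable section

namespace Pool.Agent.Lib.TriD

variable {V : Type} [Fintype V]

private theorem cntA_c12 (A : Finset V) (u v z : V) : cntA A u v z = cntA A v u z := by
  unfold cntA; ring

private theorem cntA_c23 (A : Finset V) (u v z : V) : cntA A u v z = cntA A u z v := by
  unfold cntA; ring

theorem bw_comm12 (q δ : ℝ) (A1 A2 : Finset V) (u v z : V) :
    bw q δ A1 A2 u v z = bw q δ A1 A2 v u z := by
  unfold bw
  rw [cntA_c12 A1 u v z, cntA_c12 A2 u v z]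

theorem bw_comm23 (q δ : ℝ) (A1 A2 : Finset V) (u v z : V) :
    bw q δ A1 A2 u v z = bw q δ A1 A2 u z v := by
  unfold bw
  rw [cntA_c23 A1 u v z, cntA_c23 A2 u v z]

private theorem frac_bd {c s q δ x : ℝ} (hc : 0 < c) (hs : 0 < s) (hq : c * s ≤ q) (hq1 : q ≤ s)
    (hδ : 0 ≤ δ) (hx0 : 0 ≤ x) (hx : x ≤ 4 / 3) :
    0 ≤ x / q ∧ x / q ≤ 4 / (c * s) ∧ (δ ≤ x → δ / s ≤ x / q) ∧ (1 / 2 ≤ x → 1 / (2 * s) ≤ x / q) := by
  have hcs : 0 < c * s := mul_pos hc hs
  have hq0 : 0 < q := lt_of_lt_of_le hcs hq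
  refine ⟨div_nonneg hx0 hq0.le, div_le_div₀ (by norm_num) (by linarith) hcs hq,
    fun h => div_le_div₀ hx0 h hq0 hq1, fun h => ?_⟩
  have : 1 / (2 * s) = (1 / 2) / s := by rw [div_div]
  rw [this]
  exact div_le_div₀ hx0 h hq0 hq1

theorem bw_bounds {p : V → Fin 3} {H : SimpleGraph V} {A1 A2 : Finset V} {c s q δ : ℝ} (hc : 0 < c)
    (hs : 0 < s) (hq : c * s ≤ q) (hq1 : q ≤ s) (hδ : 0 ≤ δ) (hδ1 : δ ≤ 1 / 2) {x y b : V} :
    0 ≤ bw q δ A1 A2 x y b ∧ bw q δ A1 A2 x y b ≤ 4 / (c * s) ∧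
    (Allow p H A1 A2 x y b → δ / s ≤ bw q δ A1 A2 x y b) ∧
    (Allow p H A1 A2 x y b → Two p H A1 x y b → 1 / (2 * s) ≤ bw q δ A1 A2 x y b) := by
  have hcs : 0 < c * s := mul_pos hc hs
  unfold bw
  split_ifs with h1 h2 h3 h4
  · have key : ¬ Allow p H A1 A2 x y b := by
      rintro ⟨-, g1, g2, g3, g4⟩
      unfold cntA at h1
      by_cases a1 : x ∈ A1 <;> by_cases a2 : y ∈ A1 <;> by_cases a3 : b ∈ A1 <;>
        by_cases b1 : x ∈ A2 <;> by_cases b2 : y ∈ A2 <;> by_cases b3 : b ∈ A2 <;> simp_all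
    exact ⟨le_refl _, by positivity, fun h => absurd h key, fun h => absurd h key⟩
  · obtain ⟨e1, e2, e3, e4⟩ := frac_bd (x := 4 / 3 * (1 - (1 - δ / 3) / 4 - (1 - δ / 4) / 12))
      hc hs hq hq1 hδ (by linarith) (by linarith)
    exact ⟨e1, e2, fun _ => e3 (by linarith), fun _ _ => e4 (by linarith)⟩
  · obtain ⟨e1, e2, e3, e4⟩ := frac_bd (x := 4 / 3 * (1 - δ / 4))
      hc hs hq hq1 hδ (by linarith) (by linarith)
    exact ⟨e1, e2, fun _ => e3 (by linarith), fun _ _ => e4 (by linarith)⟩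
  · obtain ⟨e1, e2, e3, e4⟩ := frac_bd (x := 4 / 3 * (1 - δ / 3))
      hc hs hq hq1 hδ (by linarith) (by linarith)
    exact ⟨e1, e2, fun _ => e3 (by linarith), fun _ _ => e4 (by linarith)⟩
  · obtain ⟨e1, e2, e3, e4⟩ := frac_bd (x := 4 / 3 * δ)
      hc hs hq hq1 hδ (by linarith) (by linarith)
    refine ⟨e1, e2, fun _ => e3 (by linarith), fun _ h => ?_⟩
    exfalso
    obtain ⟨-, g1, g2, g3⟩ := h
    unfold cntA at h1 h2 h3
    by_cases a1 : x ∈ A1 <;> by_cases a2 : y ∈ A1 <;> by_cases a3 : b ∈ A1 <;> simp_all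

private theorem num3 {a b w q X Y Z ε : ℝ} (hq : 0 < q) (ha : 0 ≤ a) (hb : 0 ≤ b) (hw : 0 ≤ w)
    (h1 : |X - 3 / 4 * q| ≤ ε) (h2 : |Y - 3 / 16 * q| ≤ ε) (h3 : |Z - 1 / 16 * q| ≤ ε) :
    |a / q * X + b / q * Y + w / q * Z - (3 / 4 * a + 3 / 16 * b + 1 / 16 * w)| ≤
      (a + b + w) * (ε / q) := by
  have e : a / q * X + b / q * Y + w / q * Z - (3 / 4 * a + 3 / 16 * b + 1 / 16 * w) =
      a / q * (X - 3 / 4 * q) + b / q * (Y - 3 / 16 * q) + w / q * (Z - 1 / 16 * q) := by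
    field_simp
    ring
  have ga : |a / q * (X - 3 / 4 * q)| ≤ a / q * ε := by
    rw [abs_mul, abs_of_nonneg (div_nonneg ha hq.le)]
    exact mul_le_mul_of_nonneg_left h1 (div_nonneg ha hq.le)
  have gb : |b / q * (Y - 3 / 16 * q)| ≤ b / q * ε := by
    rw [abs_mul, abs_of_nonneg (div_nonneg hb hq.le)]
    exact mul_le_mul_of_nonneg_left h2 (div_nonneg hb hq.le)
  have gw : |w / q * (Z - 1 / 16 * q)| ≤ w / q * ε := by
    rw [abs_mul, abs_of_nonneg (div_nonneg hw hq.le)]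
    exact mul_le_mul_of_nonneg_left h3 (div_nonneg hw hq.le)
  have e2 : (a + b + w) * (ε / q) = a / q * ε + b / q * ε + w / q * ε := by ring
  rw [e, e2]
  refine (abs_add_le _ _).trans (add_le_add ((abs_add_le _ _).trans (add_le_add ga gb)) gw)

private theorem eps_le {c s q ξ δ : ℝ} (hc : 0 < c) (hs : 0 < s) (hq : c * s ≤ q) (hξ : 0 ≤ ξ)
    (hδ : 0 ≤ δ) : (2 * ξ + 6 * δ) * s / q ≤ (2 * ξ + 6 * δ) / c := by
  have hcs : 0 < c * s := mul_pos hc hs
  have hq0 : 0 < q := lt_of_lt_of_le hcs hq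
  rw [div_le_div_iff₀ hq0 hc]
  have h0 : 0 ≤ 2 * ξ + 6 * δ := by positivity
  nlinarith [mul_le_mul_of_nonneg_left hq h0]

private theorem sum_split {p : V → Fin 3} {G H : SimpleGraph V} {s ξ δ : ℝ} {A0 A1 A2 A3 : Finset V}
    (hL : Level p G H s ξ δ A0 A1 A2 A3) (u v : V) (j : Fin 3) (f : V → ℝ) (a b w : ℝ)
    (ha : ∀ z, z ∉ A1 → z ∉ A2 → f z = a) (hb : ∀ z, z ∈ A1 → z ∉ A2 → f z = b)
    (hw : ∀ z, z ∈ A1 → z ∈ A2 → f z = w) :
    ∑ z ∈ Finset.univ.filter (fun z => p z = j ∧ H.Adj u z ∧ H.Adj v z), f z =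
      a * (((cls p (A0 \ A1) j).filter (fun z => H.Adj u z ∧ H.Adj v z)).card : ℝ) +
      b * (((cls p (A1 \ A2) j).filter (fun z => H.Adj u z ∧ H.Adj v z)).card : ℝ) +
      w * (((cls p A2 j).filter (fun z => H.Adj u z ∧ H.Adj v z)).card : ℝ) := by
  have h0 : ∀ z, H.Adj u z → z ∈ A0 := fun z h => hL.supp z u h.symm
  have e1 : (Finset.univ.filter (fun z => p z = j ∧ H.Adj u z ∧ H.Adj v z)).filter
      (fun z => ¬ z ∈ A1) = (cls p (A0 \ A1) j).filter (fun z => H.Adj u z ∧ H.Adj v z) := by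
    ext z
    simp only [cls, Finset.mem_filter, Finset.mem_univ, true_and, Finset.mem_sdiff]
    constructor
    · rintro ⟨⟨h1, h2, h3⟩, h4⟩
      exact ⟨⟨⟨h0 z h2, h4⟩, h1⟩, h2, h3⟩
    · rintro ⟨⟨⟨h1, h4⟩, h5⟩, h2, h3⟩
      exact ⟨⟨h5, h2, h3⟩, h4⟩
  have e2 : ((Finset.univ.filter (fun z => p z = j ∧ H.Adj u z ∧ H.Adj v z)).filter
      (fun z => z ∈ A1)).filter (fun z => ¬ z ∈ A2) =
      (cls p (A1 \ A2) j).filter (fun z => H.Adj u z ∧ H.Adj v z) := by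
    ext z
    simp only [cls, Finset.mem_filter, Finset.mem_univ, true_and, Finset.mem_sdiff]
    tauto
  have e3 : ((Finset.univ.filter (fun z => p z = j ∧ H.Adj u z ∧ H.Adj v z)).filter
      (fun z => z ∈ A1)).filter (fun z => z ∈ A2) =
      (cls p A2 j).filter (fun z => H.Adj u z ∧ H.Adj v z) := by
    ext z
    simp only [cls, Finset.mem_filter, Finset.mem_univ, true_and]
    constructor
    · rintro ⟨⟨⟨h1, h2, h3⟩, h4⟩, h5⟩
      exact ⟨⟨h5, h1⟩, h2, h3⟩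
    · rintro ⟨⟨h1, h5⟩, h2, h3⟩
      exact ⟨⟨⟨h5, h2, h3⟩, hL.sub2 h1⟩, h1⟩
  rw [← Finset.sum_filter_add_sum_filter_not _ (fun z => z ∈ A1),
    ← Finset.sum_filter_add_sum_filter_not (Finset.filter (fun z => z ∈ A1) _) (fun z => z ∈ A2),
    e1, e2, e3]
  have s1 : ∑ z ∈ (cls p (A0 \ A1) j).filter (fun z => H.Adj u z ∧ H.Adj v z), f z =
      a * (((cls p (A0 \ A1) j).filter (fun z => H.Adj u z ∧ H.Adj v z)).card : ℝ) := by
    rw [Finset.sum_congr rfl (fun z hz => ?_), Finset.sum_const, nsmul_eq_mul, mul_comm]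
    simp only [cls, Finset.mem_filter, Finset.mem_sdiff] at hz
    exact ha z hz.1.1.2 (fun h => hz.1.1.2 (hL.sub2 h))
  have s2 : ∑ z ∈ (cls p (A1 \ A2) j).filter (fun z => H.Adj u z ∧ H.Adj v z), f z =
      b * (((cls p (A1 \ A2) j).filter (fun z => H.Adj u z ∧ H.Adj v z)).card : ℝ) := by
    rw [Finset.sum_congr rfl (fun z hz => ?_), Finset.sum_const, nsmul_eq_mul, mul_comm]
    simp only [cls, Finset.mem_filter, Finset.mem_sdiff] at hz
    exact hb z hz.1.1.1 hz.1.1.2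
  have s3 : ∑ z ∈ (cls p A2 j).filter (fun z => H.Adj u z ∧ H.Adj v z), f z =
      w * (((cls p A2 j).filter (fun z => H.Adj u z ∧ H.Adj v z)).card : ℝ) := by
    rw [Finset.sum_congr rfl (fun z hz => ?_), Finset.sum_const, nsmul_eq_mul, mul_comm]
    simp only [cls, Finset.mem_filter] at hz
    exact hw z (hL.sub2 hz.1.1) hz.1.1
  rw [s1, s2, s3]
  ring

private theorem q_ge {n : ℕ} {c s : ℝ} {k : ℕ} (hs : 0 < s) (hsn : s ≤ n) (hk : c * n ≤ k) :
    c * s ≤ s / n * k := by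
  have hn : (0 : ℝ) < n := lt_of_lt_of_le hs hsn
  have h1 : s / n * (c * n) ≤ s / n * k := mul_le_mul_of_nonneg_left hk (div_nonneg hs.le hn.le)
  have h2 : s / n * (c * n) = c * s := by field_simp
  linarith

theorem base_sum {p : V → Fin 3} {G H : SimpleGraph V} {c K s ξ δ : ℝ} {A0 A1 A2 A3 : Finset V}
    (hG : Host p G c K) (hL : Level p G H s ξ δ A0 A1 A2 A3) (hc : 0 < c) (hξ : 0 ≤ ξ)
    (hδ : 0 ≤ δ) (hδ1 : δ ≤ 1) (k : ℕ) (hk0 : c * Fintype.card V ≤ k)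
    (hk : ∀ u v, G.Adj u v → ∀ j, j ≠ p u → j ≠ p v → (nbr p G j {u, v}).card = k)
    {u v : V} {j : Fin 3} (hju : j ≠ p u) (hjv : j ≠ p v) :
    (Outer H A1 u v → |∑ z ∈ Finset.univ.filter (fun z => p z = j ∧ H.Adj u z ∧ H.Adj v z),
        bw (s / Fintype.card V * k) δ A1 A2 u v z - 1| ≤ 24 / c * (ξ + δ)) ∧
    (Inner H A1 A2 u v → |∑ z ∈ Finset.univ.filter (fun z => p z = j ∧ H.Adj u z ∧ H.Adj v z),
        bw (s / Fintype.card V * k) δ A1 A2 u v z - δ| ≤ 24 / c * δ * (ξ + δ)) := by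
  have hq : c * s ≤ s / Fintype.card V * k := q_ge hL.s0 hL.s1 hk0
  have hcnt := fun h => cnt_tri hG hL k hk (u := u) (v := v) h hju hjv
  generalize s / (Fintype.card V : ℝ) * (k : ℝ) = q at hq hcnt ⊢
  have hcs : 0 < c * s := mul_pos hc hL.s0
  have hq0 : 0 < q := lt_of_lt_of_le hcs hq
  have hε := eps_le hc hL.s0 hq hξ hδ
  have hc' : 0 < 1 / c := by positivity
  have hX : 0 ≤ (2 * ξ + 6 * δ) * s / q := by
    have := hL.s0
    positivity
  have hE : ∀ t : ℝ, 0 ≤ t → t ≤ 4 → t * ((2 * ξ + 6 * δ) * s / q) ≤ 24 / c * (ξ + δ) := by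
    intro t ht0 ht
    have h1 : t * ((2 * ξ + 6 * δ) * s / q) ≤ 4 * ((2 * ξ + 6 * δ) / c) :=
      mul_le_mul ht hε hX (by norm_num)
    have h2 : 24 / c * (ξ + δ) - 4 * ((2 * ξ + 6 * δ) / c) = 16 * ξ * (1 / c) := by
      field_simp
      ring
    have h3 : 0 ≤ 16 * ξ * (1 / c) := by positivity
    linarith
  constructor
  · rintro ⟨hA, hO⟩
    obtain ⟨t1, t2, t3⟩ := hcnt hA
    by_cases hu : u ∈ A1
    · have hv : v ∉ A1 := fun h => hO ⟨hu, h⟩
      have hv2 : v ∉ A2 := fun h => hv (hL.sub2 h)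
      by_cases hu2 : u ∈ A2
      · rw [sum_split hL u v j _ (4 / 3 * (1 - δ / 4) / q) (4 / 3 * δ / q) (0 / q)
          (fun z h1 h2 => by simp [bw, cntA, hu, hv, hu2, hv2, h1, h2])
          (fun z h1 h2 => by simp [bw, cntA, hu, hv, hu2, hv2, h1, h2])
          (fun z h1 h2 => by simp [bw, cntA, hu, hv, hu2, hv2, h1, h2])]
        have := num3 (a := 4 / 3 * (1 - δ / 4)) (b := 4 / 3 * δ) (w := 0) hq0 (by linarith)
          (by linarith) le_rfl t1 t2 t3
        have e : 3 / 4 * (4 / 3 * (1 - δ / 4)) + 3 / 16 * (4 / 3 * δ) + 1 / 16 * (0 : ℝ) = 1 := by ring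
        rw [e] at this
        exact this.trans (hE _ (by linarith) (by linarith))
      · rw [sum_split hL u v j _ (4 / 3 * (1 - δ / 3) / q) (4 / 3 * δ / q) (4 / 3 * δ / q)
          (fun z h1 h2 => by simp [bw, cntA, hu, hv, hu2, hv2, h1, h2])
          (fun z h1 h2 => by simp [bw, cntA, hu, hv, hu2, hv2, h1, h2])
          (fun z h1 h2 => by simp [bw, cntA, hu, hv, hu2, hv2, h1, h2])]
        have := num3 (a := 4 / 3 * (1 - δ / 3)) (b := 4 / 3 * δ) (w := 4 / 3 * δ) hq0 (by linarith)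
          (by linarith) (by linarith) t1 t2 t3
        have e : 3 / 4 * (4 / 3 * (1 - δ / 3)) + 3 / 16 * (4 / 3 * δ) + 1 / 16 * (4 / 3 * δ) = 1 := by
          ring
        rw [e] at this
        exact this.trans (hE _ (by linarith) (by linarith))
    · have hu2 : u ∉ A2 := fun h => hu (hL.sub2 h)
      by_cases hv : v ∈ A1
      · by_cases hv2 : v ∈ A2
        · rw [sum_split hL u v j _ (4 / 3 * (1 - δ / 4) / q) (4 / 3 * δ / q) (0 / q)
            (fun z h1 h2 => by simp [bw, cntA, hu, hv, hu2, hv2, h1, h2])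
            (fun z h1 h2 => by simp [bw, cntA, hu, hv, hu2, hv2, h1, h2])
            (fun z h1 h2 => by simp [bw, cntA, hu, hv, hu2, hv2, h1, h2])]
          have := num3 (a := 4 / 3 * (1 - δ / 4)) (b := 4 / 3 * δ) (w := 0) hq0 (by linarith)
            (by linarith) le_rfl t1 t2 t3
          have e : 3 / 4 * (4 / 3 * (1 - δ / 4)) + 3 / 16 * (4 / 3 * δ) + 1 / 16 * (0 : ℝ) = 1 := by
            ring
          rw [e] at this
          exact this.trans (hE _ (by linarith) (by linarith))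
        · rw [sum_split hL u v j _ (4 / 3 * (1 - δ / 3) / q) (4 / 3 * δ / q) (4 / 3 * δ / q)
            (fun z h1 h2 => by simp [bw, cntA, hu, hv, hu2, hv2, h1, h2])
            (fun z h1 h2 => by simp [bw, cntA, hu, hv, hu2, hv2, h1, h2])
            (fun z h1 h2 => by simp [bw, cntA, hu, hv, hu2, hv2, h1, h2])]
          have := num3 (a := 4 / 3 * (1 - δ / 3)) (b := 4 / 3 * δ) (w := 4 / 3 * δ) hq0 (by linarith)
            (by linarith) (by linarith) t1 t2 t3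
          have e : 3 / 4 * (4 / 3 * (1 - δ / 3)) + 3 / 16 * (4 / 3 * δ) + 1 / 16 * (4 / 3 * δ) = 1 := by
            ring
          rw [e] at this
          exact this.trans (hE _ (by linarith) (by linarith))
      · have hv2 : v ∉ A2 := fun h => hv (hL.sub2 h)
        rw [sum_split hL u v j _ (4 / 3 * (1 - (1 - δ / 3) / 4 - (1 - δ / 4) / 12) / q)
          (4 / 3 * (1 - δ / 3) / q) (4 / 3 * (1 - δ / 4) / q)
          (fun z h1 h2 => by simp [bw, cntA, hu, hv, hu2, hv2, h1, h2])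
          (fun z h1 h2 => by simp [bw, cntA, hu, hv, hu2, hv2, h1, h2])
          (fun z h1 h2 => by simp [bw, cntA, hu, hv, hu2, hv2, h1, h2])]
        have := num3 (a := 4 / 3 * (1 - (1 - δ / 3) / 4 - (1 - δ / 4) / 12))
          (b := 4 / 3 * (1 - δ / 3)) (w := 4 / 3 * (1 - δ / 4)) hq0 (by linarith)
          (by linarith) (by linarith) t1 t2 t3
        have e : 3 / 4 * (4 / 3 * (1 - (1 - δ / 3) / 4 - (1 - δ / 4) / 12)) +
            3 / 16 * (4 / 3 * (1 - δ / 3)) + 1 / 16 * (4 / 3 * (1 - δ / 4)) = 1 := by ring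
        rw [e] at this
        exact this.trans (hE _ (by linarith) (by linarith))
  · rintro ⟨hA, ⟨hu, hv⟩, hI⟩
    obtain ⟨t1, t2, t3⟩ := hcnt hA
    rw [sum_split hL u v j _ (4 / 3 * δ / q) (0 / q) (0 / q)
      (fun z h1 h2 => by
        by_cases hu2 : u ∈ A2
        · have hv2 : v ∉ A2 := fun h => hI ⟨hu2, h⟩
          simp [bw, cntA, hu, hv, hu2, hv2, h1, h2]
        · by_cases hv2 : v ∈ A2
          · simp [bw, cntA, hu, hv, hu2, hv2, h1, h2]
          · simp [bw, cntA, hu, hv, hu2, hv2, h1, h2])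
      (fun z h1 h2 => by simp [bw, cntA, hu, hv, h1])
      (fun z h1 h2 => by simp [bw, cntA, hu, hv, h1])]
    have := num3 (a := 4 / 3 * δ) (b := 0) (w := 0) hq0 (by linarith) le_rfl le_rfl t1 t2 t3
    have e : 3 / 4 * (4 / 3 * δ) + 3 / 16 * (0 : ℝ) + 1 / 16 * 0 = δ := by ring
    rw [e] at this
    refine this.trans ?_
    have h1 : (4 / 3 * δ + 0 + 0) * ((2 * ξ + 6 * δ) * s / q) ≤
        (4 / 3 * δ + 0 + 0) * ((2 * ξ + 6 * δ) / c) :=
      mul_le_mul_of_nonneg_left hε (by linarith)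
    have h2 : 24 / c * δ * (ξ + δ) - (4 / 3 * δ + 0 + 0) * ((2 * ξ + 6 * δ) / c) =
        (64 / 3 * ξ + 16 * δ) * δ * (1 / c) := by
      field_simp
      ring
    have h3 : 0 ≤ (64 / 3 * ξ + 16 * δ) * δ * (1 / c) := by positivity
    linarith

end Pool.Agent.Lib.TriD
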