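import Mathlib

set_option autoImplicit false

/-!
MODULE Birk (about 100 lines). Birkhoff's theorem for finite sets `Y`, `Z` of equal size, as a probability
distribution on bijections.

PROOF. Mathlib: `doublyStochastic_eq_convexHull_permMatrix` (for `Matrix n n ℝ`, `n` a fintype).
Take `n = {y // y ∈ Y}` and an equivalence `{y // y ∈ Y} ≃ {z // z ∈ Z}` (`Finset.equivOfCardEq`), the
matrix `M a b = W a (e b)` is doubly stochastic, so it lies in the convex hull of the (finite) set of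
permutation matrices: `∑ σ, q σ • permMatrix σ` with `q σ ≥ 0`, sum 1 (`convexHull_range_eq...` or
`mem_convexHull_of_exists_fintype` / `Set.Finite.convexHull_eq`). Enumerate the permutations by
`Fin (Fintype.card (Equiv.Perm n))` and put `π i y = e (σ i y)` for `y ∈ Y` and an arbitrary value for
`y ∉ Y` (if `β` is empty then `α` ... : for `y ∉ Y` one needs an element of `β`; this is why the
statement uses `Set.BijOn` and we assume `[Nonempty β]`).
-/

namespace Pool.Agent.Lib.TriD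

open scoped Classical in
theorem birkhoff_sample {α β : Type} [Nonempty β] (Y : Finset α) (Z : Finset β)
    (hcard : Y.card = Z.card) (W : α → β → ℝ) (h0 : ∀ y ∈ Y, ∀ z ∈ Z, 0 ≤ W y z)
    (hr : ∀ y ∈ Y, ∑ z ∈ Z, W y z = 1) (hc : ∀ z ∈ Z, ∑ y ∈ Y, W y z = 1) :
    ∃ (m : ℕ) (p : Fin m → ℝ) (π : Fin m → α → β), (∀ i, 0 ≤ p i) ∧ ∑ i, p i = 1 ∧
      (∀ i, Set.BijOn (π i) Y Z) ∧
      (∀ y ∈ Y, ∀ z ∈ Z, (∑ i, if π i y = z then p i else 0) = W y z) := by
  let e : {y // y ∈ Y} ≃ {z // z ∈ Z} := Finset.equivOfCardEq hcard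
  let M : Matrix {y // y ∈ Y} {y // y ∈ Y} ℝ := fun a b => W a.1 (e b).1
  have hM : M ∈ doublyStochastic ℝ {y // y ∈ Y} := by
    rw [mem_doublyStochastic_iff_sum]
    refine ⟨fun a b => h0 a.1 a.2 _ (e b).2, fun a => ?_, fun b => ?_⟩
    · show ∑ b, W a.1 (e b).1 = 1
      rw [Equiv.sum_comp e (fun z => W a.1 z.1), ← hr a.1 a.2]
      exact Finset.sum_coe_sort Z (fun z => W a.1 z)
    · show ∑ a : {y // y ∈ Y}, W a.1 (e b).1 = 1
      rw [← hc (e b).1 (e b).2]
      exact Finset.sum_coe_sort Y (fun y => W y (e b).1)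
  obtain ⟨w, hw0, hw1, hw2⟩ := exists_eq_sum_perm_of_mem_doublyStochastic hM
  let g : Fin (Fintype.card (Equiv.Perm {y // y ∈ Y})) ≃ Equiv.Perm {y // y ∈ Y} :=
    (Fintype.equivFin _).symm
  let π : Fin (Fintype.card (Equiv.Perm {y // y ∈ Y})) → α → β := fun i y =>
    if h : y ∈ Y then (e (g i ⟨y, h⟩)).1 else Classical.arbitrary β
  have hπ : ∀ i y (h : y ∈ Y), π i y = (e (g i ⟨y, h⟩)).1 := fun i y h => dif_pos h
  refine ⟨_, fun i => w (g i), π, fun i => hw0 _, ?_, ?_, ?_⟩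
  · rw [← hw1]
    exact Equiv.sum_comp g w
  · intro i
    refine ⟨?_, ?_, ?_⟩
    · intro y hy
      rw [hπ i y hy]
      exact (e _).2
    · intro y hy y' hy' h
      have h1 : (e (g i ⟨y, hy⟩)).1 = (e (g i ⟨y', hy'⟩)).1 := by
        rw [← hπ i y hy, ← hπ i y' hy']
        exact h
      have h2 := (g i).injective (e.injective (Subtype.ext h1))
      exact congrArg Subtype.val h2
    · intro z hz
      refine ⟨((g i).symm (e.symm ⟨z, hz⟩)).1, ((g i).symm (e.symm ⟨z, hz⟩)).2, ?_⟩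
      rw [hπ i _ ((g i).symm (e.symm ⟨z, hz⟩)).2]
      simp
  · intro y hy z hz
    have h1 : M ⟨y, hy⟩ (e.symm ⟨z, hz⟩) = W y z := by
      show W y (e (e.symm ⟨z, hz⟩)).1 = W y z
      rw [Equiv.apply_symm_apply]
    rw [← h1, ← hw2, Matrix.sum_apply, ← Equiv.sum_comp g]
    refine Finset.sum_congr rfl fun i _ => ?_
    rw [Matrix.smul_apply, Equiv.Perm.permMatrix, PEquiv.toMatrix_apply, Equiv.toPEquiv_apply,
      smul_eq_mul, hπ i y hy, mul_ite, mul_one, mul_zero]
    refine if_congr ?_ rfl rfl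
    rw [Option.mem_def, Option.some_inj, Equiv.eq_symm_apply]
    constructor
    · intro h
      exact Subtype.ext h
    · intro h
      rw [h]

end Pool.Agent.Lib.TriD
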