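import Pool.Agent.Lib.TriD.Defs

set_option autoImplicit false

/-!
MODULE Cnt (about 250 lines). Counting lemmas of one level. `n = Fintype.card V`, `O = A0 \ A1`, `A = A1 \ A2`, `W = A2`.

PROOFS. `nbr p G j S ∩ (A0 \ A1)` has `card (nbr ∩ A0) - card (nbr ∩ A1)` elements (`A1 ⊆ A0`), so by `vor0, vor1` it is within
`2 ξ s` of `(3/4) (s/n) card (nbr p G j S)`; same for `A1 \ A2` with `(1/4 - 1/16) = 3/16`; for `A2` it is `vor2`.
`cnt_tri`: `S = {u, v}` with `u, v ∈ A0` (`supp`, symmetric), `card (nbr p G j {u, v}) = k`. The set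
`{z ∈ cls p Z j | H.Adj u z ∧ H.Adj v z}` is contained in `nbr p G j S ∩ Z` (`H ≤ G`, adjacency is symmetric: `nbr` uses
`G.Adj u z`) and the difference has at most `miss G H u (cls p Z j) + miss G H v (cls p Z j) ≤ 6 δ s` elements.
`cnt_common`: the same with `S.card ≤ 4` vertices, difference at most `12 δ s`; for `O` the main term is `3/4 ≥ 3/16`.
`cnt_size`: `S = ∅`: `nbr p G j ∅` is the whole part `j`, its size is between `c n` and `n`.
`cnt_cell`: for rows/columns all pairs are edges of `G` (`Host.cells`), so the non-neighbours in `H` are counted by `miss`.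
`cnt_cell_all`: add the three classes `A0 \ A1`, `A1 \ A2`, `A2`.
-/

open scoped Classical

noncomputable section

namespace Pool.Agent.Lib.TriD

variable {V : Type} [Fintype V]

private theorem cnt_adiff {N Z Z1 : Finset V} (h : Z1 ⊆ Z) :
    ((N ∩ (Z \ Z1)).card : ℝ) = ((N ∩ Z).card : ℝ) - ((N ∩ Z1).card : ℝ) := by
  have h1 : N ∩ (Z \ Z1) = (N ∩ Z) \ (N ∩ Z1) := by
    ext z
    simp only [Finset.mem_inter, Finset.mem_sdiff]
    tauto
  have h2 : N ∩ Z1 ⊆ N ∩ Z := Finset.inter_subset_inter_left h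
  rw [h1, Finset.card_sdiff_of_subset h2, Nat.cast_sub (Finset.card_le_card h2)]

private theorem cnt_le {p : V → Fin 3} {G H : SimpleGraph V} (hle : H ≤ G) (j : Fin 3)
    (S Z : Finset V) :
    (((cls p Z j).filter (fun z => ∀ u ∈ S, H.Adj u z)).card : ℝ) ≤
      ((nbr p G j S ∩ Z).card : ℝ) := by
  have : (cls p Z j).filter (fun z => ∀ u ∈ S, H.Adj u z) ⊆ nbr p G j S ∩ Z := by
    intro z hz
    simp only [cls, nbr, Finset.mem_filter, Finset.mem_inter, Finset.mem_univ, true_and] at hz ⊢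
    exact ⟨⟨hz.1.2, fun u hu => hle (hz.2 u hu)⟩, hz.1.1⟩
  exact_mod_cast Finset.card_le_card this

private theorem cnt_ge {p : V → Fin 3} {G H : SimpleGraph V} (j : Fin 3) (S Z : Finset V) :
    ((nbr p G j S ∩ Z).card : ℝ) ≤
      (((cls p Z j).filter (fun z => ∀ u ∈ S, H.Adj u z)).card : ℝ) +
        ∑ u ∈ S, (miss G H u (cls p Z j) : ℝ) := by
  have h1 : nbr p G j S ∩ Z ⊆ ((cls p Z j).filter (fun z => ∀ u ∈ S, H.Adj u z)) ∪
      S.biUnion (fun u => (cls p Z j).filter (fun z => G.Adj u z ∧ ¬ H.Adj u z)) := by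
    intro z hz
    simp only [cls, nbr, Finset.mem_filter, Finset.mem_inter, Finset.mem_univ, true_and,
      Finset.mem_union, Finset.mem_biUnion] at hz ⊢
    by_cases hh : ∀ u ∈ S, H.Adj u z
    · exact Or.inl ⟨⟨hz.2, hz.1.1⟩, hh⟩
    · push Not at hh
      obtain ⟨u, hu, hn⟩ := hh
      exact Or.inr ⟨u, hu, ⟨hz.2, hz.1.1⟩, hz.1.2 u hu, hn⟩
  have h2 := (Finset.card_le_card h1).trans (Finset.card_union_le _ _)
  have h3 : (S.biUnion (fun u => (cls p Z j).filter (fun z => G.Adj u z ∧ ¬ H.Adj u z))).card ≤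
      ∑ u ∈ S, miss G H u (cls p Z j) := Finset.card_biUnion_le
  have h4 := h2.trans (Nat.add_le_add_left h3 _)
  exact_mod_cast h4

/-- The two-sided estimate for a layer, in terms of the numbers of the two sets. -/
private theorem cnt_layer {p : V → Fin 3} {G H : SimpleGraph V} (hle : H ≤ G) {j : Fin 3}
    {S Z Z1 : Finset V} (hZ : Z1 ⊆ Z) {a b x e M : ℝ}
    (h0 : |((nbr p G j S ∩ Z).card : ℝ) - a * x| ≤ e)
    (h1 : |((nbr p G j S ∩ Z1).card : ℝ) - b * x| ≤ e)
    (hm : ∑ u ∈ S, (miss G H u (cls p (Z \ Z1) j) : ℝ) ≤ M) :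
    (((cls p (Z \ Z1) j).filter (fun z => ∀ u ∈ S, H.Adj u z)).card : ℝ) ≤
        (a - b) * x + 2 * e ∧
    (a - b) * x - 2 * e - M ≤
      (((cls p (Z \ Z1) j).filter (fun z => ∀ u ∈ S, H.Adj u z)).card : ℝ) := by
  have e1 := cnt_le (p := p) hle j S (Z \ Z1)
  have e2 := cnt_ge (p := p) (G := G) (H := H) j S (Z \ Z1)
  rw [cnt_adiff hZ] at e1 e2
  rw [abs_le] at h0 h1
  constructor
  · linarith [h0.2, h1.1]
  · linarith [h0.1, h1.2]

private theorem cnt_miss_sum {G H : SimpleGraph V} {S Z : Finset V} {m : ℝ}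
    (h : ∀ u ∈ S, (miss G H u Z : ℝ) ≤ m) : ∑ u ∈ S, (miss G H u Z : ℝ) ≤ S.card * m := by
  have := Finset.sum_le_card_nsmul S (fun u => (miss G H u Z : ℝ)) m h
  rwa [nsmul_eq_mul] at this

private theorem cnt_cls_empty {p : V → Fin 3} {G : SimpleGraph V} (j : Fin 3) (Z : Finset V) :
    cls p Z j = nbr p G j ∅ ∩ Z := by
  ext z
  simp only [cls, nbr, Finset.mem_filter, Finset.mem_inter, Finset.mem_univ, true_and,
    Finset.notMem_empty, false_imp_iff, implies_true, and_true]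
  tauto

theorem cnt_tri {p : V → Fin 3} {G H : SimpleGraph V} {c K s ξ δ : ℝ} {A0 A1 A2 A3 : Finset V}
    (hG : Host p G c K) (hL : Level p G H s ξ δ A0 A1 A2 A3) (k : ℕ)
    (hk : ∀ u v, G.Adj u v → ∀ j, j ≠ p u → j ≠ p v → (nbr p G j {u, v}).card = k)
    {u v : V} (h : H.Adj u v) {j : Fin 3} (hju : j ≠ p u) (hjv : j ≠ p v) :
    |(((cls p (A0 \ A1) j).filter (fun z => H.Adj u z ∧ H.Adj v z)).card : ℝ) -
      3 / 4 * (s / Fintype.card V * k)| ≤ (2 * ξ + 6 * δ) * s ∧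
    |(((cls p (A1 \ A2) j).filter (fun z => H.Adj u z ∧ H.Adj v z)).card : ℝ) -
      3 / 16 * (s / Fintype.card V * k)| ≤ (2 * ξ + 6 * δ) * s ∧
    |(((cls p A2 j).filter (fun z => H.Adj u z ∧ H.Adj v z)).card : ℝ) -
      1 / 16 * (s / Fintype.card V * k)| ≤ (2 * ξ + 6 * δ) * s := by
  have hu : u ∈ A0 := hL.supp u v h
  have hv : v ∈ A0 := hL.supp v u h.symm
  have hS : ({u, v} : Finset V) ⊆ A0 := by
    intro z hz
    rcases Finset.mem_insert.mp hz with rfl | hz
    · exact hu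
    · rw [Finset.mem_singleton] at hz; rw [hz]; exact hv
  have hc2 : ({u, v} : Finset V).card = 2 := Finset.card_pair h.ne
  have hc : ({u, v} : Finset V).card ≤ 4 := by omega
  have hkk : (nbr p G j {u, v}).card = k := hk u v (hL.le h) j hju hjv
  have v0 := hL.vor0 _ hS hc j
  have v1 := hL.vor1 _ hS hc j
  have v2 := hL.vor2 _ hS hc j
  rw [hkk] at v0 v1 v2
  set x : ℝ := s / Fintype.card V * k with hx
  have v1' : |((nbr p G j {u, v} ∩ A1).card : ℝ) - 1 / 4 * x| ≤ ξ * s := by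
    have : s / Fintype.card V / 4 * (k : ℝ) = 1 / 4 * x := by rw [hx]; ring
    rwa [this] at v1
  have v2' : |((nbr p G j {u, v} ∩ A2).card : ℝ) - 1 / 16 * x| ≤ ξ * s := by
    have : s / Fintype.card V / 16 * (k : ℝ) = 1 / 16 * x := by rw [hx]; ring
    rwa [this] at v2
  have v0' : |((nbr p G j {u, v} ∩ A0).card : ℝ) - 1 * x| ≤ ξ * s := by
    rwa [one_mul]
  have hd : ∀ w ∈ ({u, v} : Finset V), w ∈ A0 := fun w hw => hS hw
  have m0 : ∑ w ∈ ({u, v} : Finset V), (miss G H w (cls p (A0 \ A1) j) : ℝ) ≤ 6 * δ * s := by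
    have := cnt_miss_sum (G := G) (H := H) (fun w hw => (hL.dead w (hd w hw) j).1)
    rw [hc2] at this; push_cast at this; linarith
  have m1 : ∑ w ∈ ({u, v} : Finset V), (miss G H w (cls p (A1 \ A2) j) : ℝ) ≤ 6 * δ * s := by
    have := cnt_miss_sum (G := G) (H := H) (fun w hw => (hL.dead w (hd w hw) j).2.1)
    rw [hc2] at this; push_cast at this; linarith
  have m2 : ∑ w ∈ ({u, v} : Finset V), (miss G H w (cls p A2 j) : ℝ) ≤ 6 * δ * s := by
    have := cnt_miss_sum (G := G) (H := H) (fun w hw => (hL.dead w (hd w hw) j).2.2)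
    rw [hc2] at this; push_cast at this; linarith
  have hfil : ∀ Z : Finset V, (cls p Z j).filter (fun z => H.Adj u z ∧ H.Adj v z) =
      (cls p Z j).filter (fun z => ∀ w ∈ ({u, v} : Finset V), H.Adj w z) := by
    intro Z
    refine Finset.filter_congr fun z _ => ?_
    simp only [Finset.mem_insert, Finset.mem_singleton, forall_eq_or_imp, forall_eq]
  have hδ : 0 ≤ 3 * δ * s := le_trans (Nat.cast_nonneg _) (hL.dead u hu j).1
  have hξ : 0 ≤ ξ * s := (abs_nonneg _).trans v0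
  rw [hfil, hfil, hfil]
  refine ⟨?_, ?_, ?_⟩
  · have := cnt_layer (H := H) hL.le hL.sub1 v0' v1' m0
    rw [abs_le]; constructor <;> nlinarith [this.1, this.2]
  · have := cnt_layer (H := H) hL.le hL.sub2 v1' v2' m1
    rw [abs_le]; constructor <;> nlinarith [this.1, this.2]
  · have e1 := cnt_le (p := p) hL.le j {u, v} A2
    have e2 := cnt_ge (p := p) (G := G) (H := H) j {u, v} A2
    rw [abs_le] at v2' ⊢
    constructor <;> nlinarith [v2'.1, v2'.2]

theorem cnt_common {p : V → Fin 3} {G H : SimpleGraph V} {s ξ δ : ℝ} {A0 A1 A2 A3 : Finset V}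
    (hL : Level p G H s ξ δ A0 A1 A2 A3) (hδ : 0 ≤ δ) (S : Finset V) (hS : S ⊆ A0)
    (hS4 : S.card ≤ 4) (j : Fin 3) :
    3 / 16 * (s / Fintype.card V * (nbr p G j S).card) - (2 * ξ + 12 * δ) * s ≤
      ((cls p (A0 \ A1) j).filter (fun z => ∀ u ∈ S, H.Adj u z)).card ∧
    3 / 16 * (s / Fintype.card V * (nbr p G j S).card) - (2 * ξ + 12 * δ) * s ≤
      ((cls p (A1 \ A2) j).filter (fun z => ∀ u ∈ S, H.Adj u z)).card := by
  have v0 := hL.vor0 _ hS hS4 j
  have v1 := hL.vor1 _ hS hS4 j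
  have v2 := hL.vor2 _ hS hS4 j
  set k : ℝ := ((nbr p G j S).card : ℝ) with hkdef
  have hk0 : 0 ≤ k := Nat.cast_nonneg _
  set x : ℝ := s / Fintype.card V * k with hx
  have hs := hL.s0
  have hx0 : 0 ≤ x := by
    rw [hx]; exact mul_nonneg (div_nonneg hs.le (Nat.cast_nonneg _)) hk0
  have v1' : |((nbr p G j S ∩ A1).card : ℝ) - 1 / 4 * x| ≤ ξ * s := by
    have : s / Fintype.card V / 4 * k = 1 / 4 * x := by rw [hx]; ring
    rwa [this] at v1
  have v2' : |((nbr p G j S ∩ A2).card : ℝ) - 1 / 16 * x| ≤ ξ * s := by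
    have : s / Fintype.card V / 16 * k = 1 / 16 * x := by rw [hx]; ring
    rwa [this] at v2
  have v0' : |((nbr p G j S ∩ A0).card : ℝ) - 1 * x| ≤ ξ * s := by
    rwa [one_mul]
  have hc : (S.card : ℝ) ≤ 4 := by exact_mod_cast hS4
  have hds : 0 ≤ 3 * δ * s := by positivity
  have m0 : ∑ w ∈ S, (miss G H w (cls p (A0 \ A1) j) : ℝ) ≤ 12 * δ * s := by
    have := cnt_miss_sum (G := G) (H := H) (fun w hw => (hL.dead w (hS hw) j).1)
    nlinarith
  have m1 : ∑ w ∈ S, (miss G H w (cls p (A1 \ A2) j) : ℝ) ≤ 12 * δ * s := by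
    have := cnt_miss_sum (G := G) (H := H) (fun w hw => (hL.dead w (hS hw) j).2.1)
    nlinarith
  have l0 := cnt_layer (H := H) hL.le hL.sub1 v0' v1' m0
  have l1 := cnt_layer (H := H) hL.le hL.sub2 v1' v2' m1
  constructor
  · linarith [l0.2]
  · linarith [l1.2]

theorem cnt_size {p : V → Fin 3} {G H : SimpleGraph V} {c K s ξ δ : ℝ} {A0 A1 A2 A3 : Finset V}
    (hG : Host p G c K) (hL : Level p G H s ξ δ A0 A1 A2 A3) (j : Fin 3) :
    ((cls p A0 j).card : ℝ) ≤ (1 + ξ) * s ∧ ((cls p A1 j).card : ℝ) ≤ (1 / 4 + ξ) * s ∧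
    (3 / 4 * c - 2 * ξ) * s ≤ (cls p (A0 \ A1) j).card ∧
    (3 / 16 * c - 2 * ξ) * s ≤ (cls p (A1 \ A2) j).card := by
  have v0 := hL.vor0 ∅ (Finset.empty_subset _) (by simp) j
  have v1 := hL.vor1 ∅ (Finset.empty_subset _) (by simp) j
  have v2 := hL.vor2 ∅ (Finset.empty_subset _) (by simp) j
  have hs := hL.s0
  have hn : (0 : ℝ) < Fintype.card V := lt_of_lt_of_le hs hL.s1
  have hk1 : c * Fintype.card V ≤ ((nbr p G j ∅).card : ℝ) := by
    have := hG.size j
    rwa [cnt_cls_empty (G := G), Finset.inter_univ] at this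
  have hk2 : ((nbr p G j ∅).card : ℝ) ≤ Fintype.card V := by
    exact_mod_cast Finset.card_le_univ _
  set k : ℝ := ((nbr p G j ∅).card : ℝ) with hkdef
  set x : ℝ := s / Fintype.card V * k with hx
  have hsn : 0 < s / (Fintype.card V : ℝ) := div_pos hs hn
  have hxl : c * s ≤ x := by
    have := mul_le_mul_of_nonneg_left hk1 hsn.le
    have e : s / (Fintype.card V : ℝ) * (c * Fintype.card V) = c * s := by
      field_simp
    rw [e] at this
    exact this
  have hxu : x ≤ s := by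
    have := mul_le_mul_of_nonneg_left hk2 hsn.le
    have e : s / (Fintype.card V : ℝ) * (Fintype.card V) = s := by
      field_simp
    rw [e] at this
    exact this
  have v1' : |((nbr p G j ∅ ∩ A1).card : ℝ) - 1 / 4 * x| ≤ ξ * s := by
    have : s / Fintype.card V / 4 * k = 1 / 4 * x := by rw [hx]; ring
    rwa [this] at v1
  have v2' : |((nbr p G j ∅ ∩ A2).card : ℝ) - 1 / 16 * x| ≤ ξ * s := by
    have : s / Fintype.card V / 16 * k = 1 / 16 * x := by rw [hx]; ring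
    rwa [this] at v2
  rw [cnt_cls_empty (G := G) j A0, cnt_cls_empty (G := G) j A1,
    cnt_cls_empty (G := G) j (A0 \ A1), cnt_cls_empty (G := G) j (A1 \ A2),
    cnt_adiff hL.sub1, cnt_adiff hL.sub2]
  rw [abs_le] at v0 v1' v2'
  refine ⟨?_, ?_, ?_, ?_⟩
  · linarith [v0.2]
  · linarith [v1'.2]
  · linarith [v0.1, v1'.2]
  · linarith [v1'.1, v2'.2]

private theorem cnt_cell_le {p : V → Fin 3} {G H : SimpleGraph V} {c K : ℝ}
    (hG : Host p G c K) (Z : Finset V) :
    (∀ x, p x = 0 → (((cls p Z 1).filter (fun y => ¬ H.Adj x y)).card : ℝ) ≤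
      miss G H x (cls p Z 1)) ∧
    (∀ y, p y = 1 → (((cls p Z 0).filter (fun x => ¬ H.Adj x y)).card : ℝ) ≤
      miss G H y (cls p Z 0)) := by
  constructor
  · intro x hx
    have : (cls p Z 1).filter (fun y => ¬ H.Adj x y) ⊆
        (cls p Z 1).filter (fun z => G.Adj x z ∧ ¬ H.Adj x z) := by
      intro y hy
      rw [Finset.mem_filter] at hy ⊢
      have h1 : p y = 1 := by
        have := hy.1
        rw [cls, Finset.mem_filter] at this
        exact this.2
      exact ⟨hy.1, hG.cells x y hx h1, hy.2⟩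
    exact_mod_cast Finset.card_le_card this
  · intro y hy
    have : (cls p Z 0).filter (fun x => ¬ H.Adj x y) ⊆
        (cls p Z 0).filter (fun z => G.Adj y z ∧ ¬ H.Adj y z) := by
      intro x hx
      rw [Finset.mem_filter] at hx ⊢
      have h1 : p x = 0 := by
        have := hx.1
        rw [cls, Finset.mem_filter] at this
        exact this.2
      exact ⟨hx.1, (hG.cells x y h1 hy).symm, fun h => hx.2 h.symm⟩
    exact_mod_cast Finset.card_le_card this

theorem cnt_cell {p : V → Fin 3} {G H : SimpleGraph V} {c K s ξ δ : ℝ} {A0 A1 A2 A3 : Finset V}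
    (hG : Host p G c K) (hL : Level p G H s ξ δ A0 A1 A2 A3) :
    (∀ x ∈ A0, p x = 0 → (((cls p (A0 \ A1) 1).filter (fun y => ¬ H.Adj x y)).card : ℝ) ≤ 3 * δ * s) ∧
    (∀ y ∈ A0, p y = 1 → (((cls p (A0 \ A1) 0).filter (fun x => ¬ H.Adj x y)).card : ℝ) ≤
      3 * δ * s) := by
  have h := cnt_cell_le (H := H) hG (A0 \ A1)
  exact ⟨fun x hx h0 => (h.1 x h0).trans (hL.dead x hx 1).1,
    fun y hy h1 => (h.2 y h1).trans (hL.dead y hy 0).1⟩

private theorem cnt_three {p : V → Fin 3} {A0 A1 A2 : Finset V} (h1 : A1 ⊆ A0) (h2 : A2 ⊆ A1)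
    (j : Fin 3) (P : V → Prop) [DecidablePred P] :
    (((cls p A0 j).filter P).card : ℝ) ≤ (((cls p (A0 \ A1) j).filter P).card : ℝ) +
      (((cls p (A1 \ A2) j).filter P).card : ℝ) + (((cls p A2 j).filter P).card : ℝ) := by
  have : (cls p A0 j).filter P ⊆ ((cls p (A0 \ A1) j).filter P ∪
      (cls p (A1 \ A2) j).filter P) ∪ (cls p A2 j).filter P := by
    intro z hz
    simp only [cls, Finset.mem_filter, Finset.mem_union, Finset.mem_sdiff] at hz ⊢
    by_cases a1 : z ∈ A1 <;> by_cases a2 : z ∈ A2 <;> tauto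
  have c1 := (Finset.card_le_card this).trans (Finset.card_union_le _ _)
  have c2 := c1.trans (Nat.add_le_add_right (Finset.card_union_le _ _) _)
  exact_mod_cast c2

theorem cnt_cell_all {p : V → Fin 3} {G H : SimpleGraph V} {c K s ξ δ : ℝ} {A0 A1 A2 A3 : Finset V}
    (hG : Host p G c K) (hL : Level p G H s ξ δ A0 A1 A2 A3) :
    (∀ x ∈ A0, p x = 0 → (((cls p A0 1).filter (fun y => ¬ H.Adj x y)).card : ℝ) ≤ 9 * δ * s) ∧
    (∀ y ∈ A0, p y = 1 → (((cls p A0 0).filter (fun x => ¬ H.Adj x y)).card : ℝ) ≤ 9 * δ * s) := by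
  have ha := cnt_cell_le (H := H) hG (A0 \ A1)
  have hb := cnt_cell_le (H := H) hG (A1 \ A2)
  have hc := cnt_cell_le (H := H) hG A2
  constructor
  · intro x hx h0
    have t := cnt_three (p := p) hL.sub1 hL.sub2 1 (fun y => ¬ H.Adj x y)
    have d := hL.dead x hx 1
    linarith [ha.1 x h0, hb.1 x h0, hc.1 x h0, d.1, d.2.1, d.2.2]
  · intro y hy h1
    have t := cnt_three (p := p) hL.sub1 hL.sub2 0 (fun x => ¬ H.Adj x y)
    have d := hL.dead y hy 0
    linarith [ha.2 y h1, hb.2 y h1, hc.2 y h1, d.1, d.2.1, d.2.2]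

end Pool.Agent.Lib.TriD
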