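import Mathlib

set_option autoImplicit false

/-!
MODULE Cyc1 (about 120 lines). Four-cycles of cells, algebra. `cyT` is the coefficient of the triangle with symbol `b` for
the centre `(x, y)` and the opposite cell `(x', y')`.

PROOFS. Only renaming of summation variables. `sum_y`: `∑ y, ∑ x', ∑ y', (t x y x' y' b - t x y' x' y b) = 0` and
`∑ y, ∑ x', ∑ y', (t x' y' x y b - t x' y x y' b) = 0` (exchange `y` and `y'`). `sum_x`: pair `t x y x' y' b` with `t x' y x y' b` and
`t x y' x' y b` with `t x' y' x y b`, exchange `x` and `x'`. `sum_b`: `∑ b, t x y x' y' b = u x y x' y'` because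
`∑ b, [b ∈ Fb] / card Fb = 1` if `Good` (then `Fb` is nonempty). `sum_center`: `∑ x', ∑ y', u x y x' y' = f x y` if
`N x y = card {(x', y') | Good x y x' y'} ≠ 0`.
-/

open scoped Classical

noncomputable section

namespace Pool.Agent.Lib.TriD

variable {R C B : Type} [Fintype R] [Fintype C] [Fintype B]

/-- Number of good opposite cells. -/
def cyN (Good : R → C → R → C → Prop) (x : R) (y : C) : ℝ :=
  ((Finset.univ.filter (fun e : R × C => Good x y e.1 e.2)).card : ℝ)

def cyT (f : R → C → ℝ) (Good : R → C → R → C → Prop) (Fb : R → C → R → C → Finset B)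
    (x : R) (y : C) (x' : R) (y' : C) (b : B) : ℝ :=
  if Good x y x' y' ∧ b ∈ Fb x y x' y' then f x y / (cyN Good x y * (Fb x y x' y').card) else 0

def cyU (f : R → C → ℝ) (Good : R → C → R → C → Prop) (x : R) (y : C) (x' : R) (y' : C) : ℝ :=
  if Good x y x' y' then f x y / cyN Good x y else 0

def cyPsi (f : R → C → ℝ) (Good : R → C → R → C → Prop) (Fb : R → C → R → C → Finset B)
    (x : R) (y : C) (b : B) : ℝ :=
  ∑ x', ∑ y', (cyT f Good Fb x y x' y' b - cyT f Good Fb x y' x' y b -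
    cyT f Good Fb x' y x y' b + cyT f Good Fb x' y' x y b)

private theorem swap3 (F : C → R → C → ℝ) :
    ∑ y, ∑ x', ∑ y', F y x' y' = ∑ y, ∑ x', ∑ y', F y' x' y := by
  rw [Finset.sum_comm]
  conv_rhs => rw [Finset.sum_comm]
  exact Finset.sum_congr rfl (fun x' _ => Finset.sum_comm)

private theorem split4 {ι κ : Type} [Fintype ι] [Fintype κ] (a b c d : ι → κ → ℝ) :
    ∑ i, ∑ j, (a i j - b i j - c i j + d i j) =
      ∑ i, ∑ j, a i j - ∑ i, ∑ j, b i j - ∑ i, ∑ j, c i j + ∑ i, ∑ j, d i j := by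
  simp only [Finset.sum_add_distrib, Finset.sum_sub_distrib]

private theorem sum4 {ι : Type} [Fintype ι] (a b c d : ι → ℝ) :
    ∑ i, (a i - b i - c i + d i) = ∑ i, a i - ∑ i, b i - ∑ i, c i + ∑ i, d i := by
  simp only [Finset.sum_add_distrib, Finset.sum_sub_distrib]

theorem cy_sum_y (f : R → C → ℝ) (Good : R → C → R → C → Prop) (Fb : R → C → R → C → Finset B)
    (x : R) (b : B) : ∑ y, cyPsi f Good Fb x y b = 0 := by
  unfold cyPsi
  have h1 : ∀ y : C, ∑ x', ∑ y', (cyT f Good Fb x y x' y' b - cyT f Good Fb x y' x' y b -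
      cyT f Good Fb x' y x y' b + cyT f Good Fb x' y' x y b) =
      ∑ x', ∑ y', cyT f Good Fb x y x' y' b - ∑ x', ∑ y', cyT f Good Fb x y' x' y b -
      ∑ x', ∑ y', cyT f Good Fb x' y x y' b + ∑ x', ∑ y', cyT f Good Fb x' y' x y b :=
    fun y => split4 _ _ _ _
  rw [Finset.sum_congr rfl (fun y _ => h1 y), sum4]
  have h2 := swap3 (fun y x' y' => cyT f Good Fb x y x' y' b)
  have h3 := swap3 (fun y x' y' => cyT f Good Fb x' y x y' b)
  beta_reduce at h2 h3
  rw [h2, h3]
  ring

theorem cy_sum_x (f : R → C → ℝ) (Good : R → C → R → C → Prop) (Fb : R → C → R → C → Finset B)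
    (y : C) (b : B) : ∑ x, cyPsi f Good Fb x y b = 0 := by
  unfold cyPsi
  have h1 : ∀ x : R, ∑ x', ∑ y', (cyT f Good Fb x y x' y' b - cyT f Good Fb x y' x' y b -
      cyT f Good Fb x' y x y' b + cyT f Good Fb x' y' x y b) =
      ∑ x', ∑ y', cyT f Good Fb x y x' y' b - ∑ x', ∑ y', cyT f Good Fb x y' x' y b -
      ∑ x', ∑ y', cyT f Good Fb x' y x y' b + ∑ x', ∑ y', cyT f Good Fb x' y' x y b :=
    fun x => split4 _ _ _ _
  rw [Finset.sum_congr rfl (fun x _ => h1 x), sum4]
  have h2 : ∑ x, ∑ x', ∑ y', cyT f Good Fb x y x' y' b =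
      ∑ x, ∑ x', ∑ y', cyT f Good Fb x' y x y' b := Finset.sum_comm
  have h3 : ∑ x, ∑ x', ∑ y', cyT f Good Fb x y' x' y b =
      ∑ x, ∑ x', ∑ y', cyT f Good Fb x' y' x y b := Finset.sum_comm
  rw [h2, h3]
  ring

private theorem sum_b_T (f : R → C → ℝ) (Good : R → C → R → C → Prop)
    (Fb : R → C → R → C → Finset B)
    (hF : ∀ x y x' y', Good x y x' y' → (Fb x y x' y').Nonempty) (x : R) (y : C) (x' : R) (y' : C) :
    ∑ b, cyT f Good Fb x y x' y' b = cyU f Good x y x' y' := by
  unfold cyT cyU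
  by_cases hg : Good x y x' y'
  · simp only [hg, true_and, if_true]
    rw [← Finset.sum_filter]
    have h1 : (Finset.univ.filter fun b => b ∈ Fb x y x' y') = Fb x y x' y' := by
      ext b
      simp only [Finset.mem_filter, Finset.mem_univ, true_and]
    rw [h1, Finset.sum_const, nsmul_eq_mul]
    have h2 : (0 : ℝ) < ((Fb x y x' y').card : ℝ) := by
      exact_mod_cast Finset.card_pos.2 (hF x y x' y' hg)
    rw [mul_comm (cyN Good x y), ← div_div, mul_div_assoc', mul_div_assoc', mul_comm,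
      mul_div_cancel_right₀ _ h2.ne']
  · simp only [hg, false_and, if_false, Finset.sum_const_zero]

theorem cy_sum_b (f : R → C → ℝ) (Good : R → C → R → C → Prop) (Fb : R → C → R → C → Finset B)
    (hF : ∀ x y x' y', Good x y x' y' → (Fb x y x' y').Nonempty) (x : R) (y : C) :
    ∑ b, cyPsi f Good Fb x y b = ∑ x', ∑ y', (cyU f Good x y x' y' - cyU f Good x y' x' y -
      cyU f Good x' y x y' + cyU f Good x' y' x y) := by
  unfold cyPsi
  rw [Finset.sum_comm]
  refine Finset.sum_congr rfl (fun x' _ => ?_)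
  rw [Finset.sum_comm]
  refine Finset.sum_congr rfl (fun y' _ => ?_)
  rw [sum4, sum_b_T f Good Fb hF, sum_b_T f Good Fb hF, sum_b_T f Good Fb hF,
    sum_b_T f Good Fb hF]

theorem cy_center (f : R → C → ℝ) (Good : R → C → R → C → Prop) (x : R) (y : C)
    (hN : 0 < cyN Good x y) : ∑ x', ∑ y', cyU f Good x y x' y' = f x y := by
  have h1 : ∑ x', ∑ y', cyU f Good x y x' y' =
      ∑ e : R × C, if Good x y e.1 e.2 then f x y / cyN Good x y else 0 := by
    rw [Fintype.sum_prod_type]
    rfl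
  rw [h1, ← Finset.sum_filter, Finset.sum_const, nsmul_eq_mul]
  have h2 : ((Finset.univ.filter (fun e : R × C => Good x y e.1 e.2)).card : ℝ) = cyN Good x y := rfl
  rw [h2]
  field_simp

end Pool.Agent.Lib.TriD
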