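import Pool.Agent.Lib.TriD.Cyc1

set_option autoImplicit false

/-!
MODULE Cyc2 (about 300 lines). Estimate of the remainder. `a = card XO`, `b' = card YO`, `N = cyN Good`.

PROOF. For `(x,y)` with `Γ x y`: all good opposite cells are in `XO × YO`, so `N x y ≤ a b'` and by `h1`
`N x y ≥ a b' - θ s^2 ≥ a b' / 2 ≥ (c s)^2 / 2` (`hθ`). By `cy_center` it suffices to bound by `7 θ M / c^3`, `7 θ M / c^3`,
`9 θ M / c^4` the three sums
`T2 = ∑ x', ∑ y', u x y' x' y`, `T3 = ∑ x', ∑ y', u x' y x y'`, `T4 = ∑ x', ∑ y', u x' y' x y`.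
`T2`: if `y ∉ YO` it is `0`. If `y ∈ YO`: `T2 = ∑ y' with Γ x y', f x y' * m y' / N x y'`, `m y' = card {x' ∈ XO | Good x y' x' y} ≤ a`.
As `∑ y', f x y' = 0` (`f` is zero off `Γ`), `T2 = ∑ y', f x y' * (m y' / N x y' - 1 / b')`, and
`|m / N - 1 / b'| ≤ (a - m) / N + a * (a b' - N) / (N a b')`. The sum of `a - m y'` over the `y'` with `Γ x y'` is at most
`θ s^2` by `h2`, and there are at most `2 s` such `y'` (`hY0`). So
`|T2| ≤ M (θ s^2 * 2 / (c s)^2 + 2 s * θ s^2 * 2 / ((c s)^2 * c s)) ≤ 6 θ M / c^3`.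
`T3`: the same with `h3`, rows and columns exchanged. `T4`: if not (`x ∈ XO` and `y ∈ YO`) it is `0`. Otherwise
`∑∑ f = 0` gives `T4 = ∑ (x',y') with Γ, f x' y' * ([Good x' y' x y] / N x' y' - 1 / (a b'))`; the non-good ones contribute at most
`M θ s^2 / (a b')` (`h4`), the good ones at most `(2 s)^2 * M * θ s^2 / (N a b')`: total `≤ M (θ / c^2 + 8 θ / c^4)`.
Sum: `6/c^3 + 6/c^3 + 9/c^4 ≤ 21 / c^4` (`c ≤ 1`).
-/

open scoped Classical

noncomputable section

namespace Pool.Agent.Lib.TriD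

variable {R C B : Type} [Fintype R] [Fintype C] [Fintype B]

private theorem c2_point {A D n m E L : ℝ} (hA : 0 < A) (hD : 0 < D) (hL : 0 < L) (hP : L ≤ A * D)
    (hn1 : L / 2 ≤ n) (hn2 : n ≤ A * D) (hn3 : A * D - n ≤ E) (hm0 : 0 ≤ m) (hmA : m ≤ A) :
    |m / n - 1 / D| ≤ (A - m) / L + 2 * E / (L * D) := by
  have hn0 : 0 < n := by linarith
  have hE : 0 ≤ E := by linarith
  have hAD : 0 < A * D := mul_pos hA hD
  have h1 : 0 ≤ (A - m) / L := div_nonneg (by linarith) hL.le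
  have h2 : 0 ≤ 2 * E / (L * D) := div_nonneg (by linarith) (mul_pos hL hD).le
  rw [abs_le]
  constructor
  · have h3 : m / (A * D) ≤ m / n := div_le_div_of_nonneg_left hm0 hn0 hn2
    have h4 : 1 / D - m / (A * D) = (A - m) / (A * D) := by field_simp
    have h5 : (A - m) / (A * D) ≤ (A - m) / L :=
      div_le_div_of_nonneg_left (by linarith) hL hP
    linarith
  · have h3 : m / n ≤ A / n := by gcongr
    have h4 : A / n - 1 / D = (A * D - n) / (n * D) := by field_simp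
    have h5 : (A * D - n) / (n * D) ≤ E / (n * D) := by gcongr
    have h6 : E / (n * D) ≤ E / (L / 2 * D) :=
      div_le_div_of_nonneg_left hE (by positivity) (by gcongr)
    have h7 : E / (L / 2 * D) = 2 * E / (L * D) := by field_simp
    linarith

private theorem c2_sum {ι : Type} [Fintype ι] (g m n : ι → ℝ) (Q : ι → Prop) {A D E E' L K M : ℝ}
    (hA : 0 < A) (hD : 0 < D) (hL : 0 < L) (hP : L ≤ A * D) (hM : 0 ≤ M)
    (hg : ∀ i, ¬ Q i → g i = 0) (hgM : ∀ i, |g i| ≤ M) (hg0 : ∑ i, g i = 0)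
    (hn1 : ∀ i, Q i → L / 2 ≤ n i) (hn2 : ∀ i, Q i → n i ≤ A * D)
    (hn3 : ∀ i, Q i → A * D - n i ≤ E) (hm0 : ∀ i, Q i → 0 ≤ m i) (hmA : ∀ i, Q i → m i ≤ A)
    (hE : 0 ≤ E) (hK : ((Finset.univ.filter Q).card : ℝ) ≤ K)
    (hE' : ∑ i ∈ Finset.univ.filter Q, (A - m i) ≤ E') :
    |∑ i, g i * (m i / n i)| ≤ M * (E' / L + K * (2 * E / (L * D))) := by
  have h1 : ∑ i, g i * (m i / n i) = ∑ i ∈ Finset.univ.filter Q, g i * (m i / n i - 1 / D) := by
    have e1 : ∑ i, g i * (m i / n i) = ∑ i, g i * (m i / n i - 1 / D) := by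
      have e2 : ∑ i, g i * (m i / n i - 1 / D) = ∑ i, g i * (m i / n i) - (∑ i, g i) * (1 / D) := by
        rw [Finset.sum_mul, ← Finset.sum_sub_distrib]
        exact Finset.sum_congr rfl fun i _ => by ring
      rw [e2, hg0]
      ring
    rw [e1, Finset.sum_filter]
    refine Finset.sum_congr rfl fun i _ => ?_
    by_cases h : Q i
    · rw [if_pos h]
    · rw [if_neg h, hg i h, zero_mul]
  rw [h1]
  calc |∑ i ∈ Finset.univ.filter Q, g i * (m i / n i - 1 / D)|
      ≤ ∑ i ∈ Finset.univ.filter Q, |g i * (m i / n i - 1 / D)| := Finset.abs_sum_le_sum_abs _ _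
    _ ≤ ∑ i ∈ Finset.univ.filter Q, M * ((A - m i) / L + 2 * E / (L * D)) := by
        refine Finset.sum_le_sum fun i hi => ?_
        have hQ : Q i := (Finset.mem_filter.mp hi).2
        rw [abs_mul]
        exact mul_le_mul (hgM i) (c2_point hA hD hL hP (hn1 i hQ) (hn2 i hQ) (hn3 i hQ)
          (hm0 i hQ) (hmA i hQ)) (abs_nonneg _) hM
    _ = M * ((∑ i ∈ Finset.univ.filter Q, (A - m i)) / L
          + ((Finset.univ.filter Q).card : ℝ) * (2 * E / (L * D))) := by
        rw [← Finset.mul_sum, Finset.sum_add_distrib, Finset.sum_div, Finset.sum_const, nsmul_eq_mul]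
    _ ≤ M * (E' / L + K * (2 * E / (L * D))) := by
        have hq : 0 ≤ 2 * E / (L * D) := div_nonneg (by linarith) (mul_pos hL hD).le
        refine mul_le_mul_of_nonneg_left ?_ hM
        exact add_le_add (div_le_div_of_nonneg_right hE' hL.le) (mul_le_mul_of_nonneg_right hK hq)

private theorem c2_split {α : Type} [Fintype α] (S : Finset α) (p : α → Prop) (h : ∀ a, p a → a ∈ S) :
    ((Finset.univ.filter p).card : ℝ) = S.card - ((S.filter (fun a => ¬ p a)).card : ℝ) := by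
  have e : Finset.univ.filter p = S.filter p := by
    ext a
    simp only [Finset.mem_filter, Finset.mem_univ, true_and]
    exact ⟨fun hp => ⟨h a hp, hp⟩, fun hp => hp.2⟩
  have e2 := Finset.card_filter_add_card_filter_not (s := S) p
  rw [e, ← e2]
  push_cast
  ring

private theorem c2_N (Good : R → C → R → C → Prop) (XO : Finset R) (YO : Finset C) (x : R) (y : C)
    (h : ∀ x' y', Good x y x' y' → x' ∈ XO ∧ y' ∈ YO) :
    cyN Good x y = (XO.card : ℝ) * YO.card
      - (((XO ×ˢ YO).filter (fun e => ¬ Good x y e.1 e.2)).card : ℝ) := by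
  have h1 := c2_split (XO ×ˢ YO) (fun e : R × C => Good x y e.1 e.2)
    (fun e he => Finset.mem_product.mpr (h e.1 e.2 he))
  rw [Finset.card_product] at h1
  push_cast at h1
  exact h1

/-- One line: `T2` and `T3` abstractly. -/
private theorem c2_line {P Z : Type} [Fintype P] [Fintype Z] (ZO : Finset Z) (P0 : Finset P)
    (Q : P → Prop) (G : P → Z → Prop) (g n : P → ℝ) {D E E' L K M : ℝ}
    (hA : 0 < (ZO.card : ℝ)) (hD : 0 < D) (hL : 0 < L) (hP : L ≤ (ZO.card : ℝ) * D) (hM : 0 ≤ M)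
    (hg : ∀ i, ¬ Q i → g i = 0) (hgM : ∀ i, |g i| ≤ M) (hg0 : ∑ i, g i = 0)
    (hn1 : ∀ i, Q i → L / 2 ≤ n i) (hn2 : ∀ i, Q i → n i ≤ (ZO.card : ℝ) * D)
    (hn3 : ∀ i, Q i → (ZO.card : ℝ) * D - n i ≤ E) (hE : 0 ≤ E)
    (hQ : ∀ i, Q i → i ∈ P0) (hG : ∀ i z, G i z → z ∈ ZO)
    (hK : (P0.card : ℝ) ≤ K)
    (hE' : ((∑ i ∈ P0, (ZO.filter (fun z => Q i ∧ ¬ G i z)).card : ℕ) : ℝ) ≤ E') :
    |∑ i, ∑ z, (if G i z then g i / n i else 0)| ≤ M * (E' / L + K * (2 * E / (L * D))) := by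
  have e1 : ∑ i, ∑ z, (if G i z then g i / n i else 0)
      = ∑ i, g i * (((Finset.univ.filter (G i)).card : ℝ) / n i) := by
    refine Finset.sum_congr rfl fun i _ => ?_
    rw [← Finset.sum_filter, Finset.sum_const, nsmul_eq_mul]
    ring
  have hsplit : ∀ i, ((Finset.univ.filter (G i)).card : ℝ)
      = ZO.card - ((ZO.filter (fun z => ¬ G i z)).card : ℝ) := fun i => c2_split ZO (G i) (hG i)
  rw [e1]
  refine c2_sum g (fun i => ((Finset.univ.filter (G i)).card : ℝ)) n Q hA hD hL hP hM hg hgM hg0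
    hn1 hn2 hn3 (fun i _ => by positivity) (fun i _ => ?_) hE ?_ ?_
  · rw [hsplit i]
    have : (0 : ℝ) ≤ ((ZO.filter (fun z => ¬ G i z)).card : ℝ) := by positivity
    linarith
  · refine le_trans ?_ hK
    exact_mod_cast Finset.card_le_card (fun i hi => hQ i (Finset.mem_filter.mp hi).2)
  · refine le_trans ?_ hE'
    push_cast
    have h1 : ∑ i ∈ Finset.univ.filter Q, ((ZO.card : ℝ) - ((Finset.univ.filter (G i)).card : ℝ))
        = ∑ i ∈ Finset.univ.filter Q, ((ZO.filter (fun z => Q i ∧ ¬ G i z)).card : ℝ) := by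
      refine Finset.sum_congr rfl fun i hi => ?_
      have hq : Q i := (Finset.mem_filter.mp hi).2
      have e : ZO.filter (fun z => Q i ∧ ¬ G i z) = ZO.filter (fun z => ¬ G i z) := by
        ext z
        simp [hq]
      rw [hsplit i, e]
      ring
    rw [h1]
    exact Finset.sum_le_sum_of_subset_of_nonneg
      (fun i hi => hQ i (Finset.mem_filter.mp hi).2) (fun i _ _ => by positivity)

theorem cy_rest (Γ : R → C → Prop) (Good : R → C → R → C → Prop)
    (X0 XO : Finset R) (Y0 YO : Finset C) (c s θ M : ℝ) (hc : 0 < c) (hc1 : c ≤ 1) (hs : 0 < s)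
    (hθ0 : 0 ≤ θ) (hθ : θ ≤ c ^ 2 / 2) (hM : 0 ≤ M)
    (hX0 : (X0.card : ℝ) ≤ 2 * s) (hY0 : (Y0.card : ℝ) ≤ 2 * s)
    (hXO : c * s ≤ XO.card) (hYO : c * s ≤ YO.card) (hXs : XO ⊆ X0) (hYs : YO ⊆ Y0)
    (hΓ : ∀ x y, Γ x y → x ∈ X0 ∧ y ∈ Y0)
    (hG : ∀ x y x' y', Good x y x' y' → Γ x y ∧ x' ∈ XO ∧ y' ∈ YO)
    (f : R → C → ℝ) (hf : ∀ x y, ¬ Γ x y → f x y = 0) (hfM : ∀ x y, |f x y| ≤ M)
    (hfx : ∀ x, ∑ y, f x y = 0) (hfy : ∀ y, ∑ x, f x y = 0)
    (h1 : ∀ x y, Γ x y → (((XO ×ˢ YO).filter (fun e => ¬ Good x y e.1 e.2)).card : ℝ) ≤ θ * s ^ 2)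
    (h2 : ∀ x y, Γ x y → y ∈ YO →
      (((XO ×ˢ Y0).filter (fun e => Γ x e.2 ∧ ¬ Good x e.2 e.1 y)).card : ℝ) ≤ θ * s ^ 2)
    (h3 : ∀ x y, Γ x y → x ∈ XO →
      (((X0 ×ˢ YO).filter (fun e => Γ e.1 y ∧ ¬ Good e.1 y x e.2)).card : ℝ) ≤ θ * s ^ 2)
    (h4 : ∀ x y, Γ x y → x ∈ XO → y ∈ YO →
      (((X0 ×ˢ Y0).filter (fun e => Γ e.1 e.2 ∧ ¬ Good e.1 e.2 x y)).card : ℝ) ≤ θ * s ^ 2)
    (x : R) (y : C) (hxy : Γ x y) :
    |f x y - ∑ x', ∑ y', (cyU f Good x y x' y' - cyU f Good x y' x' y -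
      cyU f Good x' y x y' + cyU f Good x' y' x y)| ≤ 21 * θ * M / c ^ 4 := by
  have hcs : 0 < c * s := mul_pos hc hs
  have ha : 0 < (XO.card : ℝ) := lt_of_lt_of_le hcs hXO
  have hb : 0 < (YO.card : ℝ) := lt_of_lt_of_le hcs hYO
  have hL : 0 < (c * s) ^ 2 := by positivity
  have hP : (c * s) ^ 2 ≤ (XO.card : ℝ) * YO.card := by
    rw [sq]
    exact mul_le_mul hXO hYO hcs.le ha.le
  have hE : 0 ≤ θ * s ^ 2 := by positivity
  have hEL : θ * s ^ 2 ≤ (c * s) ^ 2 / 2 := by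
    have : θ * s ^ 2 ≤ c ^ 2 / 2 * s ^ 2 := mul_le_mul_of_nonneg_right hθ (by positivity)
    calc θ * s ^ 2 ≤ c ^ 2 / 2 * s ^ 2 := this
      _ = (c * s) ^ 2 / 2 := by ring
  have hN : ∀ x y, cyN Good x y = (XO.card : ℝ) * YO.card
      - (((XO ×ˢ YO).filter (fun e => ¬ Good x y e.1 e.2)).card : ℝ) := fun x y =>
    c2_N Good XO YO x y (fun x' y' h => (hG x y x' y' h).2)
  have hN1 : ∀ x y, Γ x y → (c * s) ^ 2 / 2 ≤ cyN Good x y := by
    intro x y h
    have := h1 x y h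
    rw [hN x y]
    linarith
  have hN2 : ∀ x y, cyN Good x y ≤ (XO.card : ℝ) * YO.card := by
    intro x y
    rw [hN x y]
    have : (0 : ℝ) ≤ (((XO ×ˢ YO).filter (fun e => ¬ Good x y e.1 e.2)).card : ℝ) := by positivity
    linarith
  have hN3 : ∀ x y, Γ x y → (XO.card : ℝ) * YO.card - cyN Good x y ≤ θ * s ^ 2 := by
    intro x y h
    have := h1 x y h
    rw [hN x y]
    linarith
  have hNpos : 0 < cyN Good x y := lt_of_lt_of_le (by positivity) (hN1 x y hxy)
  -- the three sums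
  have hT2 : |∑ x', ∑ y', cyU f Good x y' x' y| ≤
      M * (θ * s ^ 2 / (c * s) ^ 2 + 2 * s * (2 * (θ * s ^ 2) / ((c * s) ^ 2 * YO.card))) := by
    by_cases hy : y ∈ YO
    · rw [Finset.sum_comm]
      refine c2_line XO Y0 (fun y' => Γ x y') (fun y' x' => Good x y' x' y) (fun y' => f x y')
        (fun y' => cyN Good x y') ha hb hL hP hM (fun y' h => hf x y' h) (fun y' => hfM x y')
        (hfx x) (fun y' h => hN1 x y' h) (fun y' _ => hN2 x y') (fun y' h => hN3 x y' h) hE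
        (fun y' h => (hΓ x y' h).2) (fun y' x' h => (hG x y' x' y h).2.1) hY0 ?_
      have h5 := h2 x y hxy hy
      have h6 : ((XO ×ˢ Y0).filter (fun e => Γ x e.2 ∧ ¬ Good x e.2 e.1 y)).card
          = ∑ i ∈ Y0, (XO.filter (fun z => Γ x i ∧ ¬ Good x i z y)).card := by
        rw [Finset.card_filter, Finset.sum_product_right]
        exact Finset.sum_congr rfl fun b _ => by rw [Finset.card_filter]
      rw [h6] at h5
      exact h5
    · have e : ∑ x', ∑ y', cyU f Good x y' x' y = 0 := by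
        refine Finset.sum_eq_zero fun x' _ => Finset.sum_eq_zero fun y' _ => ?_
        rw [cyU, if_neg]
        exact fun h => hy (hG x y' x' y h).2.2
      rw [e, abs_zero]
      positivity
  have hT3 : |∑ x', ∑ y', cyU f Good x' y x y'| ≤
      M * (θ * s ^ 2 / (c * s) ^ 2 + 2 * s * (2 * (θ * s ^ 2) / ((c * s) ^ 2 * XO.card))) := by
    by_cases hx : x ∈ XO
    · refine c2_line YO X0 (fun x' => Γ x' y) (fun x' y' => Good x' y x y') (fun x' => f x' y)
        (fun x' => cyN Good x' y) hb ha hL (by rw [mul_comm (YO.card : ℝ)]; exact hP) hM (fun x' h => hf x' y h)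
        (fun x' => hfM x' y) (hfy y) (fun x' h => hN1 x' y h)
        (fun x' _ => by rw [mul_comm]; exact hN2 x' y)
        (fun x' h => by rw [mul_comm (YO.card : ℝ)]; exact hN3 x' y h) hE
        (fun x' h => (hΓ x' y h).1) (fun x' y' h => (hG x' y x y' h).2.2) hX0 ?_
      have h5 := h3 x y hxy hx
      have h6 : ((X0 ×ˢ YO).filter (fun e => Γ e.1 y ∧ ¬ Good e.1 y x e.2)).card
          = ∑ i ∈ X0, (YO.filter (fun z => Γ i y ∧ ¬ Good i y x z)).card := by
        rw [Finset.card_filter, Finset.sum_product]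
        exact Finset.sum_congr rfl fun b _ => by rw [Finset.card_filter]
      rw [h6] at h5
      exact h5
    · have e : ∑ x', ∑ y', cyU f Good x' y x y' = 0 := by
        refine Finset.sum_eq_zero fun x' _ => Finset.sum_eq_zero fun y' _ => ?_
        rw [cyU, if_neg]
        exact fun h => hx (hG x' y x y' h).2.1
      rw [e, abs_zero]
      positivity
  have hT4 : |∑ x', ∑ y', cyU f Good x' y' x y| ≤
      M * (θ * s ^ 2 / (c * s) ^ 2 + (2 * s) ^ 2 *
        (2 * (θ * s ^ 2) / ((c * s) ^ 2 * ((XO.card : ℝ) * YO.card)))) := by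
    by_cases hxO : x ∈ XO ∧ y ∈ YO
    · have e0 : ∑ x', ∑ y', cyU f Good x' y' x y
          = ∑ e : R × C, f e.1 e.2 * ((if Good e.1 e.2 x y then (1 : ℝ) else 0) / cyN Good e.1 e.2) := by
        rw [← Finset.univ_product_univ, Finset.sum_product]
        refine Finset.sum_congr rfl fun x' _ => Finset.sum_congr rfl fun y' _ => ?_
        rw [cyU]
        by_cases h : Good x' y' x y
        · rw [if_pos h, if_pos h]
          ring
        · rw [if_neg h, if_neg h]
          ring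
      rw [e0]
      have hsub : (Finset.univ.filter (fun e : R × C => Γ e.1 e.2)) ⊆ X0 ×ˢ Y0 := by
        intro e he
        exact Finset.mem_product.mpr (hΓ e.1 e.2 (Finset.mem_filter.mp he).2)
      refine c2_sum (fun e : R × C => f e.1 e.2)
        (fun e => if Good e.1 e.2 x y then (1 : ℝ) else 0) (fun e => cyN Good e.1 e.2)
        (fun e => Γ e.1 e.2) (A := 1) (D := (XO.card : ℝ) * YO.card) one_pos (mul_pos ha hb) hL
        (by rw [one_mul]; exact hP) hM (fun e h => hf e.1 e.2 h) (fun e => hfM e.1 e.2) ?_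
        (fun e h => hN1 e.1 e.2 h) (fun e _ => by rw [one_mul]; exact hN2 e.1 e.2)
        (fun e h => by rw [one_mul]; exact hN3 e.1 e.2 h) (fun e _ => ?_) (fun e _ => ?_) hE ?_ ?_
      · rw [← Finset.univ_product_univ, Finset.sum_product]
        exact Finset.sum_eq_zero fun x' _ => hfx x'
      · show (0 : ℝ) ≤ if Good e.1 e.2 x y then (1 : ℝ) else 0
        split_ifs <;> norm_num
      · show (if Good e.1 e.2 x y then (1 : ℝ) else 0) ≤ 1
        split_ifs <;> norm_num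
      · have e1 : (((Finset.univ.filter (fun e : R × C => Γ e.1 e.2)).card : ℕ) : ℝ)
            ≤ ((X0 ×ˢ Y0).card : ℝ) := by exact_mod_cast Finset.card_le_card hsub
        refine le_trans e1 ?_
        rw [Finset.card_product]
        push_cast
        rw [sq]
        exact mul_le_mul hX0 hY0 (by positivity) (by positivity)
      · refine le_trans (le_of_eq ?_) (h4 x y hxy hxO.1 hxO.2)
        have e2 : (X0 ×ˢ Y0).filter (fun e => Γ e.1 e.2 ∧ ¬ Good e.1 e.2 x y)
            = (Finset.univ.filter (fun e : R × C => Γ e.1 e.2)).filter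
              (fun e => ¬ Good e.1 e.2 x y) := by
          ext e
          simp only [Finset.mem_filter, Finset.mem_product, Finset.mem_univ, true_and]
          exact ⟨fun h => h.2, fun h => ⟨hΓ e.1 e.2 h.1, h⟩⟩
        rw [e2, Finset.card_filter]
        push_cast
        refine Finset.sum_congr rfl fun e _ => ?_
        by_cases h : Good e.1 e.2 x y <;> simp [h]
    · have e : ∑ x', ∑ y', cyU f Good x' y' x y = 0 := by
        refine Finset.sum_eq_zero fun x' _ => Finset.sum_eq_zero fun y' _ => ?_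
        rw [cyU, if_neg]
        exact fun h => hxO (hG x' y' x y h).2
      rw [e, abs_zero]
      positivity
  have hcen := cy_center f Good x y hNpos
  have esplit : f x y - ∑ x', ∑ y', (cyU f Good x y x' y' - cyU f Good x y' x' y -
      cyU f Good x' y x y' + cyU f Good x' y' x y)
      = ∑ x', ∑ y', cyU f Good x y' x' y + ∑ x', ∑ y', cyU f Good x' y x y'
        - ∑ x', ∑ y', cyU f Good x' y' x y := by
    simp only [Finset.sum_add_distrib, Finset.sum_sub_distrib]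
    rw [hcen]
    ring
  rw [esplit]
  -- numerical part
  have q1 : θ * s ^ 2 / (c * s) ^ 2 = θ / c ^ 2 := by
    field_simp
  have q2 : ∀ D : ℝ, c * s ≤ D → 2 * s * (2 * (θ * s ^ 2) / ((c * s) ^ 2 * D)) ≤ 4 * θ / c ^ 3 := by
    intro D hD
    have e : 2 * s * (2 * (θ * s ^ 2) / ((c * s) ^ 2 * (c * s))) = 4 * θ / c ^ 3 := by
      field_simp
      ring
    rw [← e]
    refine mul_le_mul_of_nonneg_left ?_ (by positivity)
    exact div_le_div_of_nonneg_left (by positivity) (by positivity)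
      (mul_le_mul_of_nonneg_left hD hL.le)
  have q3 : (2 * s) ^ 2 * (2 * (θ * s ^ 2) / ((c * s) ^ 2 * ((XO.card : ℝ) * YO.card)))
      ≤ 8 * θ / c ^ 4 := by
    have e : (2 * s) ^ 2 * (2 * (θ * s ^ 2) / ((c * s) ^ 2 * (c * s) ^ 2)) = 8 * θ / c ^ 4 := by
      field_simp
      ring
    rw [← e]
    refine mul_le_mul_of_nonneg_left ?_ (by positivity)
    exact div_le_div_of_nonneg_left (by positivity) (by positivity)
      (mul_le_mul_of_nonneg_left hP hL.le)
  have q4 : θ / c ^ 2 ≤ θ / c ^ 4 :=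
    div_le_div_of_nonneg_left hθ0 (by positivity) (pow_le_pow_of_le_one hc.le hc1 (by norm_num))
  have q5 : θ / c ^ 3 ≤ θ / c ^ 4 :=
    div_le_div_of_nonneg_left hθ0 (by positivity) (pow_le_pow_of_le_one hc.le hc1 (by norm_num))
  have q5' : 4 * θ / c ^ 3 = 4 * (θ / c ^ 3) := by ring
  have q6' : 8 * θ / c ^ 4 = 8 * (θ / c ^ 4) := by ring
  rw [q1] at hT2 hT3 hT4
  have r2 : |∑ x', ∑ y', cyU f Good x y' x' y| ≤ M * (5 * (θ / c ^ 4)) := by
    refine le_trans hT2 (mul_le_mul_of_nonneg_left ?_ hM)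
    have := q2 YO.card hYO
    linarith
  have r3 : |∑ x', ∑ y', cyU f Good x' y x y'| ≤ M * (5 * (θ / c ^ 4)) := by
    refine le_trans hT3 (mul_le_mul_of_nonneg_left ?_ hM)
    have := q2 XO.card hXO
    linarith
  have r4 : |∑ x', ∑ y', cyU f Good x' y' x y| ≤ M * (9 * (θ / c ^ 4)) := by
    refine le_trans hT4 (mul_le_mul_of_nonneg_left ?_ hM)
    linarith
  have hfin : 0 ≤ M * (θ / c ^ 4) := by positivity
  have e9 : 21 * θ * M / c ^ 4 = 21 * (M * (θ / c ^ 4)) := by ring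
  rw [e9]
  have r2a := abs_le.mp r2
  have r3a := abs_le.mp r3
  have r4a := abs_le.mp r4
  rw [abs_le]
  constructor
  · linarith [r2a.1, r3a.1, r4a.2]
  · linarith [r2a.2, r3a.2, r4a.1]

end Pool.Agent.Lib.TriD
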