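import Pool.Agent.Lib.TriD.Bad
import Pool.Agent.Lib.TriD.Cyc2

set_option autoImplicit false

/-!
MODULE Cyc3 (about 350 lines). Zero sum functions on outer cells: one step with remainder at most one half.

PROOF. `X0 = cls p A0 0`, `XO = cls p (A0 \ A1) 0`, `Y0 = cls p A0 1`, `YO = cls p (A0 \ A1) 1`,
`Γ x y = (p x = 0 ∧ p y = 1 ∧ Outer H A1 x y)`,
`Fb x y x' y' = {b ∈ cls p (A0 \ A1) 2 | H.Adj x b ∧ H.Adj y b ∧ H.Adj x' b ∧ H.Adj y' b}`,
`Good x y x' y' = Γ x y ∧ x' ∈ XO ∧ y' ∈ YO ∧ H.Adj x y' ∧ H.Adj x' y ∧ H.Adj x' y' ∧ c ^ 3 / 8 * s ≤ card (Fb x y x' y')`,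
`ψ = cyPsi f Good Fb`. Constants: `cy_rest` with `c / 2` for `c` (`cnt_size`, `hsm`: `card XO ≥ (3/4 c - 2 ξ) s ≥ c s / 2`,
`card X0 ≤ (1 + ξ) s ≤ 2 s`) and `θ = 36 δ + 4 K / (c ^ 3 s)`.
`h1 - h4`: a pair of rows and a pair of columns (`x, x'`; `y, y'`) fails to be good only if one of the three cells is missing in
`H` or the four vertices have few common symbols. In each of the four counts two of the vertices (a row `r` and a column `l`)
are fixed and the other two (row `r'`, column `l'`) vary: `cells r' l` missing: at most `3 δ s` rows `r'` in the class `A0 \ A1`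
times at most `2 s` columns; NOTE in `h2` the varying column `y' ∈ Y0` may be in `A1`, but then `Γ x y'` says that
the cell `(x, y')` is an edge of `H`, and for the cell `(x', y')` with `x' ∈ XO` one counts the non-neighbours
`x' ∈ cls p (A0 \ A1) 0` of `y'`: at most `3 δ s` for each of the `≤ 2 s` columns `y'` (`cnt_cell`); in `h4` the varying row and column
may be in `A1`, there use `cnt_cell_all` (`9 δ s`). In all cases the missing cells account for at most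
`2 * (9 δ s) * (2 s) = 36 δ s^2` pairs (`h1`: `3 * 3 δ s * 2 s`) and `bad_quad` for at most `4 K / c ^ 3 * s` pairs.
(`bad_quad` is stated for a fixed row and column and counts pairs (row, column); the condition is symmetric in
the two rows and in the two columns.)
Remainder `≤ 21 θ M / (c/2)^4 = 336 θ M / c^4 ≤ M / 2` by `hθ`. `N x y > 0` for `Γ x y` (from `h1`, as in Cyc2).
Support: a nonzero term of `cyPsi f Good Fb x y b` has `b ∈ A0 \ A1` adjacent to `x` and `y` and `(x, y)` is either the centre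
(outer cell) or one of the cells `(x, y')`, `(x', y)`, `(x', y')` of a good quadruple: in `H` and with a vertex outside `A1`; so
`Two p H A1 x y b` (if `x ∉ A1` or `y ∉ A1` and `b ∉ A1`).
Bound: `|∑ x' y', t x y x' y' b| ≤ N * M / (N * c^3/8 * s) = 8 M / (c^3 s)`; the other three: at most `(2 s)^2` terms
`M / (N * (c^3 / 8) s)` with `N ≥ (c s / 2)^2 / 2`: `256 M / (c^5 s)` each. Total `≤ 800 M / (c^5 s)`.
Zero sums of the new function `f - ∑ b ψ`: from `cy_sum_y`, `cy_sum_x` by exchanging sums; it vanishes off `Γ` by the support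
statement (if `ψ x y b ≠ 0` then `Two`, so `Γ x y`).
-/

open scoped Classical

noncomputable section

namespace Pool.Agent.Lib.TriD

variable {V : Type} [Fintype V]

/-- Pairs of a product, counted by rows. -/
private theorem cnt_left {α β : Type} (X : Finset α) (Y : Finset β) (P : α → β → Prop)
    {i1 : ∀ x, DecidablePred (P x)} {i2 : DecidablePred (fun e : α × β => P e.1 e.2)} (b m : ℝ)
    (hb : 0 ≤ b) (hm : (X.card : ℝ) ≤ m)
    (h : ∀ x ∈ X, ((Y.filter (fun y => P x y)).card : ℝ) ≤ b) :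
    (((X ×ˢ Y).filter (fun e => P e.1 e.2)).card : ℝ) ≤ m * b := by
  have h1 : ((X ×ˢ Y).filter (fun e => P e.1 e.2)).card =
      ∑ x ∈ X, (Y.filter (fun y => P x y)).card := by
    rw [Finset.card_filter, Finset.sum_product]
    refine Finset.sum_congr rfl fun x _ => ?_
    rw [Finset.card_filter]
    exact Finset.sum_congr rfl fun y _ => by congr
  rw [h1]
  push_cast
  calc ∑ x ∈ X, ((Y.filter (fun y => P x y)).card : ℝ) ≤ ∑ x ∈ X, b := Finset.sum_le_sum h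
    _ = X.card * b := by rw [Finset.sum_const, nsmul_eq_mul]
    _ ≤ m * b := mul_le_mul_of_nonneg_right hm hb

/-- Pairs of a product, counted by columns. -/
private theorem cnt_right {α β : Type} (X : Finset α) (Y : Finset β) (P : α → β → Prop)
    {i1 : ∀ y, DecidablePred (fun x => P x y)} {i2 : DecidablePred (fun e : α × β => P e.1 e.2)}
    (b m : ℝ)
    (hb : 0 ≤ b) (hm : (Y.card : ℝ) ≤ m)
    (h : ∀ y ∈ Y, ((X.filter (fun x => P x y)).card : ℝ) ≤ b) :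
    (((X ×ˢ Y).filter (fun e => P e.1 e.2)).card : ℝ) ≤ m * b := by
  have h1 : ((X ×ˢ Y).filter (fun e => P e.1 e.2)).card =
      ∑ y ∈ Y, (X.filter (fun x => P x y)).card := by
    rw [Finset.card_filter, Finset.sum_product_right]
    refine Finset.sum_congr rfl fun y _ => ?_
    rw [Finset.card_filter]
    exact Finset.sum_congr rfl fun x _ => by congr
  rw [h1]
  push_cast
  calc ∑ y ∈ Y, ((X.filter (fun x => P x y)).card : ℝ) ≤ ∑ y ∈ Y, b := Finset.sum_le_sum h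
    _ = Y.card * b := by rw [Finset.sum_const, nsmul_eq_mul]
    _ ≤ m * b := mul_le_mul_of_nonneg_right hm hb

private theorem card_cover {α : Type} (S F1 F2 F3 F4 : Finset α)
    (h : ∀ e ∈ S, e ∈ F1 ∨ e ∈ F2 ∨ e ∈ F3 ∨ e ∈ F4) :
    (S.card : ℝ) ≤ F1.card + F2.card + F3.card + F4.card := by
  have hsub : S ⊆ ((F1 ∪ F2) ∪ F3) ∪ F4 := by
    intro e he
    have h' := h e he
    simp only [Finset.mem_union]
    tauto
  have h1 := Finset.card_le_card hsub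
  have h2 := Finset.card_union_le ((F1 ∪ F2) ∪ F3) F4
  have h3 := Finset.card_union_le (F1 ∪ F2) F3
  have h4 := Finset.card_union_le F1 F2
  have h5 : S.card ≤ F1.card + F2.card + F3.card + F4.card := by omega
  exact_mod_cast h5

private def cG (p : V → Fin 3) (H : SimpleGraph V) (A1 : Finset V) (x y : V) : Prop :=
  p x = 0 ∧ p y = 1 ∧ Outer H A1 x y

private def cF (p : V → Fin 3) (H : SimpleGraph V) (A0 A1 : Finset V) (x y x' y' : V) :
    Finset V :=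
  (cls p (A0 \ A1) 2).filter (fun b => H.Adj x b ∧ H.Adj y b ∧ H.Adj x' b ∧ H.Adj y' b)

private def cGood (p : V → Fin 3) (H : SimpleGraph V) (A0 A1 : Finset V) (c s : ℝ)
    (x y x' y' : V) : Prop :=
  cG p H A1 x y ∧ x' ∈ cls p (A0 \ A1) 0 ∧ y' ∈ cls p (A0 \ A1) 1 ∧ H.Adj x y' ∧ H.Adj x' y ∧
    H.Adj x' y' ∧ c ^ 3 / 8 * s ≤ (cF p H A0 A1 x y x' y').card

omit [Fintype V] in
private theorem mem_cF {p : V → Fin 3} {H : SimpleGraph V} {A0 A1 : Finset V} {x y x' y' b : V} :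
    b ∈ cF p H A0 A1 x y x' y' ↔ ((b ∈ A0 ∧ b ∉ A1) ∧ p b = 2) ∧
      H.Adj x b ∧ H.Adj y b ∧ H.Adj x' b ∧ H.Adj y' b := by
  unfold cF cls
  simp only [Finset.mem_filter, Finset.mem_sdiff]

omit [Fintype V] in
private theorem mem_cls {p : V → Fin 3} {Z : Finset V} {j : Fin 3} {x : V} :
    x ∈ cls p Z j ↔ x ∈ Z ∧ p x = j := by
  unfold cls
  simp only [Finset.mem_filter]

omit [Fintype V] in
private theorem mem_clsO {p : V → Fin 3} {A0 A1 : Finset V} {j : Fin 3} {x : V} :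
    x ∈ cls p (A0 \ A1) j ↔ (x ∈ A0 ∧ x ∉ A1) ∧ p x = j := by
  unfold cls
  simp only [Finset.mem_filter, Finset.mem_sdiff]

private theorem ct_ne {p : V → Fin 3} {H : SimpleGraph V} {A0 A1 : Finset V} {c s : ℝ}
    {f : V → V → ℝ} {x y x' y' b : V}
    (h : cyT f (cGood p H A0 A1 c s) (cF p H A0 A1) x y x' y' b ≠ 0) :
    cGood p H A0 A1 c s x y x' y' ∧ b ∈ cF p H A0 A1 x y x' y' := by
  unfold cyT at h
  by_contra hn
  rw [if_neg hn] at h
  exact h rfl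

private theorem psi_two {p : V → Fin 3} {H : SimpleGraph V} {A0 A1 : Finset V} {c s : ℝ}
    {f : V → V → ℝ} {x y b : V}
    (h : cyPsi f (cGood p H A0 A1 c s) (cF p H A0 A1) x y b ≠ 0) : Two p H A1 x y b := by
  unfold cyPsi at h
  obtain ⟨x', _, h1⟩ := Finset.exists_ne_zero_of_sum_ne_zero h
  obtain ⟨y', _, h2⟩ := Finset.exists_ne_zero_of_sum_ne_zero h1
  have h3 : cyT f (cGood p H A0 A1 c s) (cF p H A0 A1) x y x' y' b ≠ 0 ∨
      cyT f (cGood p H A0 A1 c s) (cF p H A0 A1) x y' x' y b ≠ 0 ∨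
      cyT f (cGood p H A0 A1 c s) (cF p H A0 A1) x' y x y' b ≠ 0 ∨
      cyT f (cGood p H A0 A1 c s) (cF p H A0 A1) x' y' x y b ≠ 0 := by
    by_contra hcon
    push Not at hcon
    obtain ⟨e1, e2, e3, e4⟩ := hcon
    apply h2
    rw [e1, e2, e3, e4]
    ring
  rcases h3 with h3 | h3 | h3 | h3
  · obtain ⟨⟨⟨g1, g2, g3⟩, g4, g5, g6, g7, g8, g9⟩, hb⟩ := ct_ne h3
    rw [mem_cF] at hb
    obtain ⟨⟨⟨b1, b2⟩, b3⟩, b4, b5, b6, b7⟩ := hb
    exact ⟨⟨g1, g2, b3, g3.1, b4, b5⟩, g3.2, fun hh => b2 hh.2, fun hh => b2 hh.2⟩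
  · obtain ⟨⟨⟨g1, g2, g3⟩, g4, g5, g6, g7, g8, g9⟩, hb⟩ := ct_ne h3
    rw [mem_cF] at hb
    obtain ⟨⟨⟨b1, b2⟩, b3⟩, b4, b5, b6, b7⟩ := hb
    rw [mem_clsO] at g4 g5
    exact ⟨⟨g1, g5.2, b3, g6, b4, b7⟩, fun hh => g5.1.2 hh.2, fun hh => b2 hh.2,
      fun hh => b2 hh.2⟩
  · obtain ⟨⟨⟨g1, g2, g3⟩, g4, g5, g6, g7, g8, g9⟩, hb⟩ := ct_ne h3
    rw [mem_cF] at hb
    obtain ⟨⟨⟨b1, b2⟩, b3⟩, b4, b5, b6, b7⟩ := hb
    rw [mem_clsO] at g4 g5
    exact ⟨⟨g4.2, g2, b3, g7, b6, b5⟩, fun hh => g4.1.2 hh.1, fun hh => b2 hh.2,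
      fun hh => b2 hh.2⟩
  · obtain ⟨⟨⟨g1, g2, g3⟩, g4, g5, g6, g7, g8, g9⟩, hb⟩ := ct_ne h3
    rw [mem_cF] at hb
    obtain ⟨⟨⟨b1, b2⟩, b3⟩, b4, b5, b6, b7⟩ := hb
    rw [mem_clsO] at g4 g5
    exact ⟨⟨g4.2, g5.2, b3, g8, b6, b7⟩, fun hh => g4.1.2 hh.1, fun hh => b2 hh.2,
      fun hh => b2 hh.2⟩

/-- The bounds on the constants. -/
private theorem consts {p : V → Fin 3} {G H : SimpleGraph V} {c K s ξ δ : ℝ}
    {A0 A1 A2 A3 : Finset V}
    (hG : Host p G c K) (hL : Level p G H s ξ δ A0 A1 A2 A3) (hc : 0 < c) (hc1 : c < 1)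
    (hξ : 0 ≤ ξ) (hδ : 0 ≤ δ) (hsm : 2 * ξ + 12 * δ ≤ c ^ 3 / 16) (j : Fin 3) :
    ((cls p A0 j).card : ℝ) ≤ 2 * s ∧ c / 2 * s ≤ (cls p (A0 \ A1) j).card := by
  obtain ⟨h1, _, h3, _⟩ := cnt_size hG hL j
  have hs := hL.s0
  have hc3 : c ^ 3 ≤ c := by
    have : c ^ 3 = c * (c * c) := by ring
    nlinarith [mul_pos hc hc]
  constructor
  · refine h1.trans ?_
    apply mul_le_mul_of_nonneg_right _ hs.le
    linarith
  · refine le_trans ?_ h3
    apply mul_le_mul_of_nonneg_right _ hs.le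
    linarith

omit [Fintype V] in
private theorem card_clsO_le (p : V → Fin 3) (A0 A1 : Finset V) (j : Fin 3) :
    (cls p (A0 \ A1) j).card ≤ (cls p A0 j).card :=
  Finset.card_le_card (fun x hx => by
    rw [mem_clsO] at hx
    rw [mem_cls]
    exact ⟨hx.1.1, hx.2⟩)

private theorem quad_end {s δ K c a1 a2 a3 a4 t : ℝ} (hs : 0 < s) (hc : 0 < c) 
    (h1 : a1 ≤ 2 * s * (t * δ * s)) (h2 : a2 ≤ 2 * s * (t * δ * s))
    (h3 : a3 ≤ 2 * s * ((18 - 2 * t) * δ * s)) (h4 : a4 ≤ 4 * K / c ^ 3 * s) :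
    a1 + a2 + a3 + a4 ≤ (36 * δ + 4 * K / (c ^ 3 * s)) * s ^ 2 := by
  have h5 : (36 * δ + 4 * K / (c ^ 3 * s)) * s ^ 2 = 36 * δ * s ^ 2 + 4 * K / c ^ 3 * s := by
    field_simp
  rw [h5]
  nlinarith


section counts

variable {p : V → Fin 3} {G H : SimpleGraph V} {c K s ξ δ : ℝ} {A0 A1 A2 A3 : Finset V}

private def badP (p : V → Fin 3) (H : SimpleGraph V) (A0 A1 : Finset V) (c s : ℝ) (x y : V) :
    Finset (V × V) :=
  (A0 ×ˢ A0).filter (fun e => p e.1 = 0 ∧ p e.2 = 1 ∧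
      (((cls p (A0 \ A1) 2).filter (fun b => H.Adj x b ∧ H.Adj y b ∧ H.Adj e.1 b ∧
        H.Adj e.2 b)).card : ℝ) < c ^ 3 / 8 * s)

omit [Fintype V] in
private theorem mem_badP {p : V → Fin 3} {H : SimpleGraph V} {A0 A1 : Finset V} {c s : ℝ}
    {x y : V} {e : V × V} (h1 : e.1 ∈ A0) (h2 : e.2 ∈ A0) (h3 : p e.1 = 0) (h4 : p e.2 = 1)
    (F : Finset V) (hF : ∀ b, (((b ∈ A0 ∧ b ∉ A1) ∧ p b = 2) ∧ H.Adj x b ∧ H.Adj y b ∧
      H.Adj e.1 b ∧ H.Adj e.2 b) ↔ b ∈ F) (h5 : ¬ c ^ 3 / 8 * s ≤ F.card) :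
    e ∈ badP p H A0 A1 c s x y := by
  unfold badP
  have hFe : (cls p (A0 \ A1) 2).filter (fun b => H.Adj x b ∧ H.Adj y b ∧ H.Adj e.1 b ∧
        H.Adj e.2 b) = F := by
    ext b
    rw [← hF b]
    unfold cls
    simp only [Finset.mem_filter, Finset.mem_sdiff]
  rw [Finset.mem_filter, Finset.mem_product]
  refine ⟨⟨h1, h2⟩, h3, h4, ?_⟩
  rw [hFe]
  exact not_le.mp h5

private theorem cG_mem (hL : Level p G H s ξ δ A0 A1 A2 A3) {x y : V} (h : cG p H A1 x y) :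
    x ∈ A0 ∧ y ∈ A0 ∧ p x = 0 ∧ p y = 1 ∧ H.Adj x y :=
  ⟨hL.supp _ _ h.2.2.1, hL.supp _ _ h.2.2.1.symm, h.1, h.2.1, h.2.2.1⟩

private theorem count1 (hG : Host p G c K) (hL : Level p G H s ξ δ A0 A1 A2 A3) (hc : 0 < c)
    (hc1 : c < 1) (hK : 0 ≤ K) (hξ : 0 ≤ ξ) (hξ1 : ξ ≤ 1) (hδ : 0 ≤ δ)
    (hsm : 2 * ξ + 12 * δ ≤ c ^ 3 / 16) {x y : V} (h : cG p H A1 x y) :
    ((((cls p (A0 \ A1) 0) ×ˢ (cls p (A0 \ A1) 1)).filter
      (fun e => ¬ cGood p H A0 A1 c s x y e.1 e.2)).card : ℝ) ≤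
      (36 * δ + 4 * K / (c ^ 3 * s)) * s ^ 2 := by
  obtain ⟨hx, hy, hpx, hpy, hxy⟩ := cG_mem hL h
  have hs := hL.s0
  have hds : 0 ≤ 3 * δ * s := by positivity
  have hX0 := (consts hG hL hc hc1 hξ hδ hsm 0).1
  have hY0 := (consts hG hL hc hc1 hξ hδ hsm 1).1
  have hXO : ((cls p (A0 \ A1) 0).card : ℝ) ≤ 2 * s :=
    le_trans (by exact_mod_cast card_clsO_le p A0 A1 0) hX0
  have hYO : ((cls p (A0 \ A1) 1).card : ℝ) ≤ 2 * s :=
    le_trans (by exact_mod_cast card_clsO_le p A0 A1 1) hY0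
  obtain ⟨cc1, cc2⟩ := cnt_cell hG hL
  refine (card_cover _
    (((cls p (A0 \ A1) 0) ×ˢ (cls p (A0 \ A1) 1)).filter (fun e => ¬ H.Adj x e.2))
    (((cls p (A0 \ A1) 0) ×ˢ (cls p (A0 \ A1) 1)).filter (fun e => ¬ H.Adj e.1 y))
    (((cls p (A0 \ A1) 0) ×ˢ (cls p (A0 \ A1) 1)).filter (fun e => ¬ H.Adj e.1 e.2))
    (badP p H A0 A1 c s x y) ?_).trans ?_
  · intro e he
    rw [Finset.mem_filter, Finset.mem_product] at he
    obtain ⟨⟨e1, e2⟩, e3⟩ := he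
    by_cases a1 : H.Adj x e.2
    swap
    · exact Or.inl (Finset.mem_filter.mpr ⟨Finset.mem_product.mpr ⟨e1, e2⟩, a1⟩)
    by_cases a2 : H.Adj e.1 y
    swap
    · exact Or.inr (Or.inl (Finset.mem_filter.mpr ⟨Finset.mem_product.mpr ⟨e1, e2⟩, a2⟩))
    by_cases a3 : H.Adj e.1 e.2
    swap
    · exact Or.inr (Or.inr (Or.inl (Finset.mem_filter.mpr
        ⟨Finset.mem_product.mpr ⟨e1, e2⟩, a3⟩)))
    · refine Or.inr (Or.inr (Or.inr ?_))
      have e1' := mem_clsO.mp e1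
      have e2' := mem_clsO.mp e2
      refine mem_badP e1'.1.1 e2'.1.1 e1'.2 e2'.2 (cF p H A0 A1 x y e.1 e.2) ?_ ?_
      · intro b
        rw [mem_cF]
      · intro hcard
        exact e3 ⟨h, e1, e2, a1, a2, a3, hcard⟩
  · refine quad_end (t := 3) hs hc ?_ ?_ ?_
      (bad_quad hG hL hc hc1 hK hξ hξ1 hδ hsm hx hy hpx hpy)
    · exact cnt_left (cls p (A0 \ A1) 0) (cls p (A0 \ A1) 1) (fun _ y' => ¬ H.Adj x y') _ _ hds hXO fun _ _ => cc1 x hx hpx
    · exact cnt_right (cls p (A0 \ A1) 0) (cls p (A0 \ A1) 1) (fun x' _ => ¬ H.Adj x' y) _ _ hds hYO fun _ _ => cc2 y hy hpy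
    · refine (cnt_left (cls p (A0 \ A1) 0) (cls p (A0 \ A1) 1) (fun x' y' => ¬ H.Adj x' y') _ _ hds hXO
        fun x' hx' => cc1 x' (mem_clsO.mp hx').1.1 (mem_clsO.mp hx').2).trans ?_
      nlinarith [mul_nonneg hδ (mul_pos hs hs).le]

private theorem count2 (hG : Host p G c K) (hL : Level p G H s ξ δ A0 A1 A2 A3) (hc : 0 < c)
    (hc1 : c < 1) (hK : 0 ≤ K) (hξ : 0 ≤ ξ) (hξ1 : ξ ≤ 1) (hδ : 0 ≤ δ)
    (hsm : 2 * ξ + 12 * δ ≤ c ^ 3 / 16) {x y : V} (h : cG p H A1 x y)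
    (hyO : y ∈ cls p (A0 \ A1) 1) :
    ((((cls p (A0 \ A1) 0) ×ˢ (cls p A0 1)).filter
      (fun e => cG p H A1 x e.2 ∧ ¬ cGood p H A0 A1 c s x e.2 e.1 y)).card : ℝ) ≤
      (36 * δ + 4 * K / (c ^ 3 * s)) * s ^ 2 := by
  obtain ⟨hx, hy, hpx, hpy, hxy⟩ := cG_mem hL h
  have hs := hL.s0
  have hds : 0 ≤ 3 * δ * s := by positivity
  have hY0 := (consts hG hL hc hc1 hξ hδ hsm 1).1
  obtain ⟨cc1, cc2⟩ := cnt_cell hG hL
  refine (card_cover _
    (((cls p (A0 \ A1) 0) ×ˢ (cls p A0 1)).filter (fun e => ¬ H.Adj e.1 e.2))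
    (((cls p (A0 \ A1) 0) ×ˢ (cls p A0 1)).filter (fun e => ¬ H.Adj e.1 y))
    ∅ (badP p H A0 A1 c s x y) ?_).trans ?_
  · intro e he
    rw [Finset.mem_filter, Finset.mem_product] at he
    obtain ⟨⟨e1, e2⟩, e4, e3⟩ := he
    by_cases a1 : H.Adj e.1 e.2
    swap
    · exact Or.inl (Finset.mem_filter.mpr ⟨Finset.mem_product.mpr ⟨e1, e2⟩, a1⟩)
    by_cases a2 : H.Adj e.1 y
    swap
    · exact Or.inr (Or.inl (Finset.mem_filter.mpr ⟨Finset.mem_product.mpr ⟨e1, e2⟩, a2⟩))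
    · refine Or.inr (Or.inr (Or.inr ?_))
      have e1' := mem_clsO.mp e1
      have e2' := mem_cls.mp e2
      refine mem_badP e1'.1.1 e2'.1 e1'.2 e2'.2 (cF p H A0 A1 x e.2 e.1 y) ?_ ?_
      · intro b
        rw [mem_cF]
        tauto
      · intro hcard
        exact e3 ⟨e4, e1, hyO, hxy, a1, a2, hcard⟩
  · refine quad_end (t := 3) hs hc ?_ ?_ ?_
      (bad_quad hG hL hc hc1 hK hξ hξ1 hδ hsm hx hy hpx hpy)
    · exact cnt_right (cls p (A0 \ A1) 0) (cls p A0 1) (fun x' y' => ¬ H.Adj x' y') _ _ hds hY0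
        fun y' hy' => cc2 y' (mem_cls.mp hy').1 (mem_cls.mp hy').2
    · exact cnt_right (cls p (A0 \ A1) 0) (cls p A0 1) (fun x' _ => ¬ H.Adj x' y) _ _ hds hY0 fun _ _ => cc2 y hy hpy
    · rw [Finset.card_empty, Nat.cast_zero]
      have : 0 ≤ δ * s := mul_nonneg hδ hs.le
      nlinarith

private theorem count3 (hG : Host p G c K) (hL : Level p G H s ξ δ A0 A1 A2 A3) (hc : 0 < c)
    (hc1 : c < 1) (hK : 0 ≤ K) (hξ : 0 ≤ ξ) (hξ1 : ξ ≤ 1) (hδ : 0 ≤ δ)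
    (hsm : 2 * ξ + 12 * δ ≤ c ^ 3 / 16) {x y : V} (h : cG p H A1 x y)
    (hxO : x ∈ cls p (A0 \ A1) 0) :
    ((((cls p A0 0) ×ˢ (cls p (A0 \ A1) 1)).filter
      (fun e => cG p H A1 e.1 y ∧ ¬ cGood p H A0 A1 c s e.1 y x e.2)).card : ℝ) ≤
      (36 * δ + 4 * K / (c ^ 3 * s)) * s ^ 2 := by
  obtain ⟨hx, hy, hpx, hpy, hxy⟩ := cG_mem hL h
  have hs := hL.s0
  have hds : 0 ≤ 3 * δ * s := by positivity
  have hX0 := (consts hG hL hc hc1 hξ hδ hsm 0).1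
  obtain ⟨cc1, cc2⟩ := cnt_cell hG hL
  refine (card_cover _
    (((cls p A0 0) ×ˢ (cls p (A0 \ A1) 1)).filter (fun e => ¬ H.Adj e.1 e.2))
    (((cls p A0 0) ×ˢ (cls p (A0 \ A1) 1)).filter (fun e => ¬ H.Adj x e.2))
    ∅ (badP p H A0 A1 c s x y) ?_).trans ?_
  · intro e he
    rw [Finset.mem_filter, Finset.mem_product] at he
    obtain ⟨⟨e1, e2⟩, e4, e3⟩ := he
    by_cases a1 : H.Adj e.1 e.2
    swap
    · exact Or.inl (Finset.mem_filter.mpr ⟨Finset.mem_product.mpr ⟨e1, e2⟩, a1⟩)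
    by_cases a2 : H.Adj x e.2
    swap
    · exact Or.inr (Or.inl (Finset.mem_filter.mpr ⟨Finset.mem_product.mpr ⟨e1, e2⟩, a2⟩))
    · refine Or.inr (Or.inr (Or.inr ?_))
      have e1' := mem_cls.mp e1
      have e2' := mem_clsO.mp e2
      refine mem_badP e1'.1 e2'.1.1 e1'.2 e2'.2 (cF p H A0 A1 e.1 y x e.2) ?_ ?_
      · intro b
        rw [mem_cF]
        tauto
      · intro hcard
        exact e3 ⟨e4, hxO, e2, a1, hxy, a2, hcard⟩
  · refine quad_end (t := 3) hs hc ?_ ?_ ?_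
      (bad_quad hG hL hc hc1 hK hξ hξ1 hδ hsm hx hy hpx hpy)
    · exact cnt_left (cls p A0 0) (cls p (A0 \ A1) 1) (fun x' y' => ¬ H.Adj x' y') _ _ hds hX0
        fun x' hx' => cc1 x' (mem_cls.mp hx').1 (mem_cls.mp hx').2
    · exact cnt_left (cls p A0 0) (cls p (A0 \ A1) 1) (fun _ y' => ¬ H.Adj x y') _ _ hds hX0 fun _ _ => cc1 x hx hpx
    · rw [Finset.card_empty, Nat.cast_zero]
      have : 0 ≤ δ * s := mul_nonneg hδ hs.le
      nlinarith

private theorem count4 (hG : Host p G c K) (hL : Level p G H s ξ δ A0 A1 A2 A3) (hc : 0 < c)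
    (hc1 : c < 1) (hK : 0 ≤ K) (hξ : 0 ≤ ξ) (hξ1 : ξ ≤ 1) (hδ : 0 ≤ δ)
    (hsm : 2 * ξ + 12 * δ ≤ c ^ 3 / 16) {x y : V} (h : cG p H A1 x y)
    (hxO : x ∈ cls p (A0 \ A1) 0) (hyO : y ∈ cls p (A0 \ A1) 1) :
    ((((cls p A0 0) ×ˢ (cls p A0 1)).filter
      (fun e => cG p H A1 e.1 e.2 ∧ ¬ cGood p H A0 A1 c s e.1 e.2 x y)).card : ℝ) ≤
      (36 * δ + 4 * K / (c ^ 3 * s)) * s ^ 2 := by
  obtain ⟨hx, hy, hpx, hpy, hxy⟩ := cG_mem hL h
  have hs := hL.s0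
  have hds : 0 ≤ 9 * δ * s := by positivity
  have hX0 := (consts hG hL hc hc1 hξ hδ hsm 0).1
  have hY0 := (consts hG hL hc hc1 hξ hδ hsm 1).1
  obtain ⟨cc1, cc2⟩ := cnt_cell_all hG hL
  refine (card_cover _
    (((cls p A0 0) ×ˢ (cls p A0 1)).filter (fun e => ¬ H.Adj e.1 y))
    (((cls p A0 0) ×ˢ (cls p A0 1)).filter (fun e => ¬ H.Adj x e.2))
    ∅ (badP p H A0 A1 c s x y) ?_).trans ?_
  · intro e he
    rw [Finset.mem_filter, Finset.mem_product] at he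
    obtain ⟨⟨e1, e2⟩, e4, e3⟩ := he
    by_cases a1 : H.Adj e.1 y
    swap
    · exact Or.inl (Finset.mem_filter.mpr ⟨Finset.mem_product.mpr ⟨e1, e2⟩, a1⟩)
    by_cases a2 : H.Adj x e.2
    swap
    · exact Or.inr (Or.inl (Finset.mem_filter.mpr ⟨Finset.mem_product.mpr ⟨e1, e2⟩, a2⟩))
    · refine Or.inr (Or.inr (Or.inr ?_))
      have e1' := mem_cls.mp e1
      have e2' := mem_cls.mp e2
      refine mem_badP e1'.1 e2'.1 e1'.2 e2'.2 (cF p H A0 A1 e.1 e.2 x y) ?_ ?_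
      · intro b
        rw [mem_cF]
        tauto
      · intro hcard
        exact e3 ⟨e4, hxO, hyO, a1, a2, hxy, hcard⟩
  · refine quad_end (t := 9) hs hc ?_ ?_ ?_
      (bad_quad hG hL hc hc1 hK hξ hξ1 hδ hsm hx hy hpx hpy)
    · exact cnt_right (cls p A0 0) (cls p A0 1) (fun x' _ => ¬ H.Adj x' y) _ _ hds hY0 fun _ _ => cc2 y hy hpy
    · exact cnt_left (cls p A0 0) (cls p A0 1) (fun _ y' => ¬ H.Adj x y') _ _ hds hX0 fun _ _ => cc1 x hx hpx
    · rw [Finset.card_empty, Nat.cast_zero]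
      have : 0 ≤ δ * s := mul_nonneg hδ hs.le
      nlinarith

end counts


private theorem tabs_le {p : V → Fin 3} {H : SimpleGraph V} {A0 A1 : Finset V} {c s M N : ℝ}
    {f : V → V → ℝ} (hc : 0 < c) (hs : 0 < s) (hM : 0 ≤ M) (hfM : ∀ x y, |f x y| ≤ M)
    (x y x' y' b : V) (hN : 0 < N) (hNx : N ≤ cyN (cGood p H A0 A1 c s) x y) :
    |cyT f (cGood p H A0 A1 c s) (cF p H A0 A1) x y x' y' b| ≤
      if cGood p H A0 A1 c s x y x' y' then M / (N * (c ^ 3 / 8 * s)) else 0 := by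
  unfold cyT
  by_cases h : cGood p H A0 A1 c s x y x' y' ∧ b ∈ cF p H A0 A1 x y x' y'
  · rw [if_pos h, if_pos h.1, abs_div]
    have h1 : c ^ 3 / 8 * s ≤ (cF p H A0 A1 x y x' y').card := h.1.2.2.2.2.2.2
    have h2 : 0 < c ^ 3 / 8 * s := by positivity
    have h3 : N * (c ^ 3 / 8 * s) ≤
        cyN (cGood p H A0 A1 c s) x y * ((cF p H A0 A1 x y x' y').card : ℝ) :=
      mul_le_mul hNx h1 h2.le (hN.le.trans hNx)
    have h4 : 0 < N * (c ^ 3 / 8 * s) := mul_pos hN h2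
    rw [abs_of_pos (lt_of_lt_of_le h4 h3)]
    exact div_le_div₀ hM (hfM x y) h4 h3
  · rw [if_neg h, abs_zero]
    split_ifs
    · positivity
    · exact le_refl _

private theorem sum_const_le {X Y : Finset V} {s m : ℝ} (t : V → V → ℝ) (hs : 0 ≤ s) (hm : 0 ≤ m)
    (hX : (X.card : ℝ) ≤ 2 * s) (hY : (Y.card : ℝ) ≤ 2 * s)
    (h0 : ∀ x' y', ¬ (x' ∈ X ∧ y' ∈ Y) → t x' y' = 0) (h1 : ∀ x' y', |t x' y'| ≤ m) :
    |∑ x', ∑ y', t x' y'| ≤ 4 * s ^ 2 * m := by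
  have e1 : ∑ x', ∑ y', t x' y' = ∑ x' ∈ X, ∑ y' ∈ Y, t x' y' := by
    rw [← Finset.sum_subset (Finset.subset_univ X)]
    · refine Finset.sum_congr rfl fun x' _ => ?_
      rw [← Finset.sum_subset (Finset.subset_univ Y)]
      intro y' _ hy'
      exact h0 x' y' (fun h => hy' h.2)
    · intro x' _ hx'
      exact Finset.sum_eq_zero fun y' _ => h0 x' y' (fun h => hx' h.1)
  rw [e1]
  calc |∑ x' ∈ X, ∑ y' ∈ Y, t x' y'| ≤ ∑ x' ∈ X, |∑ y' ∈ Y, t x' y'| :=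
        Finset.abs_sum_le_sum_abs _ _
    _ ≤ ∑ x' ∈ X, ∑ y' ∈ Y, |t x' y'| :=
        Finset.sum_le_sum fun _ _ => Finset.abs_sum_le_sum_abs _ _
    _ ≤ ∑ x' ∈ X, ∑ y' ∈ Y, m := Finset.sum_le_sum fun _ _ => Finset.sum_le_sum fun _ _ => h1 _ _
    _ = (X.card * Y.card : ℝ) * m := by
        simp only [Finset.sum_const, nsmul_eq_mul]
        ring
    _ ≤ (2 * s) * (2 * s) * m :=
        mul_le_mul_of_nonneg_right (mul_le_mul hX hY (by positivity) (by positivity)) hm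
    _ = 4 * s ^ 2 * m := by ring

theorem cyc_step {p : V → Fin 3} {G H : SimpleGraph V} {c K s ξ δ : ℝ} {A0 A1 A2 A3 : Finset V}
    (hG : Host p G c K) (hL : Level p G H s ξ δ A0 A1 A2 A3) (hc : 0 < c) (hc1 : c < 1)
    (hK : 0 ≤ K) (hξ : 0 ≤ ξ) (hδ : 0 ≤ δ) (hsm : 2 * ξ + 12 * δ ≤ c ^ 3 / 16)
    (hθ : 36 * δ + 4 * K / (c ^ 3 * s) ≤ c ^ 4 / 700)
    (f : V → V → ℝ) (M : ℝ) (hM : 0 ≤ M) (hfM : ∀ x y, |f x y| ≤ M)
    (hf : ∀ x y, ¬ (p x = 0 ∧ p y = 1 ∧ Outer H A1 x y) → f x y = 0)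
    (hfx : ∀ x, ∑ y, f x y = 0) (hfy : ∀ y, ∑ x, f x y = 0) :
    ∃ ψ : V → V → V → ℝ, (∀ x y b, ψ x y b ≠ 0 → Two p H A1 x y b) ∧
      (∀ x y b, |ψ x y b| ≤ 800 * M / (c ^ 5 * s)) ∧
      (∀ x b, ∑ y, ψ x y b = 0) ∧ (∀ y b, ∑ x, ψ x y b = 0) ∧
      (∀ x y, |f x y - ∑ b, ψ x y b| ≤ M / 2) := by
  have hs := hL.s0
  have hc2 : c ^ 2 ≤ 1 := pow_le_one₀ hc.le hc1.le
  have hc3 : c ^ 3 ≤ 1 := pow_le_one₀ hc.le hc1.le
  have hξ1 : ξ ≤ 1 := by nlinarith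
  set θ : ℝ := 36 * δ + 4 * K / (c ^ 3 * s) with hθd
  have hθ0 : 0 ≤ θ := by positivity
  have hθ1 : θ ≤ c ^ 2 / 8 := by
    have : c ^ 4 ≤ c ^ 2 := by
      have h4 : c ^ 4 = c ^ 2 * c ^ 2 := by ring
      rw [h4]
      exact mul_le_of_le_one_right (by positivity) hc2
    linarith [sq_nonneg c]
  have hX := consts hG hL hc hc1 hξ hδ hsm 0
  have hY := consts hG hL hc hc1 hξ hδ hsm 1
  have hXO : ((cls p (A0 \ A1) 0).card : ℝ) ≤ 2 * s :=
    le_trans (by exact_mod_cast card_clsO_le p A0 A1 0) hX.1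
  have hYO : ((cls p (A0 \ A1) 1).card : ℝ) ≤ 2 * s :=
    le_trans (by exact_mod_cast card_clsO_le p A0 A1 1) hY.1
  have hC1 := fun x y (h : cG p H A1 x y) => count1 hG hL hc hc1 hK hξ hξ1 hδ hsm h
  have hC2 := fun x y (h : cG p H A1 x y) (h' : y ∈ cls p (A0 \ A1) 1) =>
    count2 hG hL hc hc1 hK hξ hξ1 hδ hsm h h'
  have hC3 := fun x y (h : cG p H A1 x y) (h' : x ∈ cls p (A0 \ A1) 0) =>
    count3 hG hL hc hc1 hK hξ hξ1 hδ hsm h h'
  have hC4 := fun x y (h : cG p H A1 x y) (h' : x ∈ cls p (A0 \ A1) 0)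
    (h'' : y ∈ cls p (A0 \ A1) 1) => count4 hG hL hc hc1 hK hξ hξ1 hδ hsm h h' h''
  rw [← hθd] at hC1 hC2 hC3 hC4
  have hXs : cls p (A0 \ A1) 0 ⊆ cls p A0 0 := fun z hz =>
    mem_cls.mpr ⟨(mem_clsO.mp hz).1.1, (mem_clsO.mp hz).2⟩
  have hYs : cls p (A0 \ A1) 1 ⊆ cls p A0 1 := fun z hz =>
    mem_cls.mpr ⟨(mem_clsO.mp hz).1.1, (mem_clsO.mp hz).2⟩
  have hΓ : ∀ x y, cG p H A1 x y → x ∈ cls p A0 0 ∧ y ∈ cls p A0 1 := by
    intro x y h
    obtain ⟨h1, h2, h3, h4, _⟩ := cG_mem hL h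
    exact ⟨mem_cls.mpr ⟨h1, h3⟩, mem_cls.mpr ⟨h2, h4⟩⟩
  -- lower bound for the number of good opposite cells
  have hNlow : ∀ x y, cG p H A1 x y → c ^ 2 * s ^ 2 / 8 ≤ cyN (cGood p H A0 A1 c s) x y := by
    intro x y h
    have h1 := hC1 x y h
    have h2 : (((cls p (A0 \ A1) 0) ×ˢ (cls p (A0 \ A1) 1)).card : ℝ) ≤
        cyN (cGood p H A0 A1 c s) x y +
        ((((cls p (A0 \ A1) 0) ×ˢ (cls p (A0 \ A1) 1)).filter
      (fun e => ¬ cGood p H A0 A1 c s x y e.1 e.2)).card : ℝ) := by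
      unfold cyN
      rw [← Finset.card_filter_add_card_filter_not (s := (cls p (A0 \ A1) 0) ×ˢ (cls p (A0 \ A1) 1))
        (fun e => cGood p H A0 A1 c s x y e.1 e.2)]
      push_cast
      gcongr
      exact Finset.subset_univ _
    rw [Finset.card_product] at h2
    push_cast at h2
    have h3 : c / 2 * s * (c / 2 * s) ≤
        ((cls p (A0 \ A1) 0).card : ℝ) * ((cls p (A0 \ A1) 1).card : ℝ) :=
      mul_le_mul hX.2 hY.2 (by positivity) (by positivity)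
    have h4 : θ * s ^ 2 ≤ c ^ 2 / 8 * s ^ 2 := mul_le_mul_of_nonneg_right hθ1 (by positivity)
    nlinarith
  refine ⟨fun x y b => cyPsi f (cGood p H A0 A1 c s) (cF p H A0 A1) x y b,
    fun x y b h => psi_two h, ?_, fun x b => cy_sum_y f _ _ x b, fun y b => cy_sum_x f _ _ y b, ?_⟩
  · intro x y b
    -- the four sums
    set N0 : ℝ := c ^ 2 * s ^ 2 / 8 with hN0
    have hN0p : 0 < N0 := by positivity
    set m : ℝ := M / (N0 * (c ^ 3 / 8 * s)) with hm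
    have hm0 : 0 ≤ m := by positivity
    have hgen : ∀ u v u' v' : V,
        |cyT f (cGood p H A0 A1 c s) (cF p H A0 A1) u v u' v' b| ≤ m := by
      intro u v u' v'
      by_cases h : cGood p H A0 A1 c s u v u' v'
      · have h1 := tabs_le (p := p) (H := H) (A0 := A0) (A1 := A1) hc hs hM hfM u v u' v' b hN0p
          (hNlow u v h.1)
        rwa [if_pos h] at h1
      · unfold cyT
        rw [if_neg (fun hh => h hh.1), abs_zero]
        exact hm0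
    have hzero : ∀ u v u' v' : V, ¬ cGood p H A0 A1 c s u v u' v' →
        cyT f (cGood p H A0 A1 c s) (cF p H A0 A1) u v u' v' b = 0 := by
      intro u v u' v' h
      unfold cyT
      rw [if_neg (fun hh => h hh.1)]
    have hb1 : |∑ x', ∑ y', cyT f (cGood p H A0 A1 c s) (cF p H A0 A1) x y x' y' b| ≤
        8 * M / (c ^ 3 * s) := by
      by_cases hxy : cG p H A1 x y
      · have hN := hNlow x y hxy
        have hNp : 0 < cyN (cGood p H A0 A1 c s) x y := lt_of_lt_of_le hN0p hN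
        have h1 : |∑ x', ∑ y', cyT f (cGood p H A0 A1 c s) (cF p H A0 A1) x y x' y' b| ≤
            ∑ x', ∑ y', if cGood p H A0 A1 c s x y x' y' then
              M / (cyN (cGood p H A0 A1 c s) x y * (c ^ 3 / 8 * s)) else 0 := by
          refine (Finset.abs_sum_le_sum_abs _ _).trans (Finset.sum_le_sum fun x' _ => ?_)
          refine (Finset.abs_sum_le_sum_abs _ _).trans (Finset.sum_le_sum fun y' _ => ?_)
          exact tabs_le hc hs hM hfM x y x' y' b hNp le_rfl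
        refine h1.trans (le_of_eq ?_)
        have h2 : (∑ x', ∑ y', if cGood p H A0 A1 c s x y x' y' then
              M / (cyN (cGood p H A0 A1 c s) x y * (c ^ 3 / 8 * s)) else 0) =
            cyN (cGood p H A0 A1 c s) x y *
              (M / (cyN (cGood p H A0 A1 c s) x y * (c ^ 3 / 8 * s))) := by
          rw [← Finset.sum_product', ← Finset.sum_filter, Finset.sum_const, nsmul_eq_mul]
          congr 1
        rw [h2]
        field_simp
      · have h0 : ∀ x' y', cyT f (cGood p H A0 A1 c s) (cF p H A0 A1) x y x' y' b = 0 :=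
          fun x' y' => hzero x y x' y' (fun h => hxy h.1)
        simp only [h0, Finset.sum_const_zero, abs_zero]
        positivity
    have hb2 : |∑ x', ∑ y', cyT f (cGood p H A0 A1 c s) (cF p H A0 A1) x y' x' y b| ≤
        4 * s ^ 2 * m := by
      refine sum_const_le (X := cls p (A0 \ A1) 0) (Y := cls p A0 1) _ hs.le hm0 hXO hY.1 ?_
        fun x' y' => hgen _ _ _ _
      intro x' y' hn
      exact hzero _ _ _ _ (fun h => hn ⟨h.2.1, (hΓ _ _ h.1).2⟩)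
    have hb3 : |∑ x', ∑ y', cyT f (cGood p H A0 A1 c s) (cF p H A0 A1) x' y x y' b| ≤
        4 * s ^ 2 * m := by
      refine sum_const_le (X := cls p A0 0) (Y := cls p (A0 \ A1) 1) _ hs.le hm0 hX.1 hYO ?_
        fun x' y' => hgen _ _ _ _
      intro x' y' hn
      exact hzero _ _ _ _ (fun h => hn ⟨(hΓ _ _ h.1).1, h.2.2.1⟩)
    have hb4 : |∑ x', ∑ y', cyT f (cGood p H A0 A1 c s) (cF p H A0 A1) x' y' x y b| ≤
        4 * s ^ 2 * m := by
      refine sum_const_le (X := cls p A0 0) (Y := cls p A0 1) _ hs.le hm0 hX.1 hY.1 ?_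
        fun x' y' => hgen _ _ _ _
      intro x' y' hn
      exact hzero _ _ _ _ (fun h => hn ⟨(hΓ _ _ h.1).1, (hΓ _ _ h.1).2⟩)
    have hm2 : 4 * s ^ 2 * m = 256 * M / (c ^ 5 * s) := by
      rw [hm, hN0]
      field_simp
      ring
    rw [hm2] at hb2 hb3 hb4
    have hb5 : 8 * M / (c ^ 3 * s) ≤ 8 * M / (c ^ 5 * s) := by
      apply div_le_div_of_nonneg_left (by positivity) (by positivity)
      have : c ^ 5 * s = c ^ 3 * s * c ^ 2 := by ring
      rw [this]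
      exact mul_le_of_le_one_right (by positivity) hc2
    have hsplit : cyPsi f (cGood p H A0 A1 c s) (cF p H A0 A1) x y b =
        (∑ x', ∑ y', cyT f (cGood p H A0 A1 c s) (cF p H A0 A1) x y x' y' b) -
        (∑ x', ∑ y', cyT f (cGood p H A0 A1 c s) (cF p H A0 A1) x y' x' y b) -
        (∑ x', ∑ y', cyT f (cGood p H A0 A1 c s) (cF p H A0 A1) x' y x y' b) +
        (∑ x', ∑ y', cyT f (cGood p H A0 A1 c s) (cF p H A0 A1) x' y' x y b) := by
      unfold cyPsi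
      simp only [Finset.sum_add_distrib, Finset.sum_sub_distrib]
    show |cyPsi f (cGood p H A0 A1 c s) (cF p H A0 A1) x y b| ≤ _
    rw [hsplit]
    have hfin : 8 * M / (c ^ 5 * s) + 256 * M / (c ^ 5 * s) + 256 * M / (c ^ 5 * s) +
        256 * M / (c ^ 5 * s) ≤ 800 * M / (c ^ 5 * s) := by
      rw [← add_div, ← add_div, ← add_div]
      apply div_le_div_of_nonneg_right _ (by positivity)
      linarith
    rw [abs_le] at hb1 hb2 hb3 hb4 ⊢
    constructor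
    · linarith [hb1.1, hb2.2, hb3.2, hb4.1]
    · linarith [hb1.2, hb2.1, hb3.1, hb4.2]
  · intro x y
    by_cases hxy : cG p H A1 x y
    · have hF : ∀ x y x' y', cGood p H A0 A1 c s x y x' y' → (cF p H A0 A1 x y x' y').Nonempty := by
        intro x y x' y' h
        have h1 : c ^ 3 / 8 * s ≤ (cF p H A0 A1 x y x' y').card := h.2.2.2.2.2.2
        have h2 : 0 < c ^ 3 / 8 * s := by positivity
        rw [← Finset.card_pos]
        exact_mod_cast lt_of_lt_of_le h2 h1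
      show |f x y - ∑ b, cyPsi f (cGood p H A0 A1 c s) (cF p H A0 A1) x y b| ≤ M / 2
      rw [cy_sum_b f _ _ hF x y]
      refine (cy_rest (cG p H A1) (cGood p H A0 A1 c s) (cls p A0 0) (cls p (A0 \ A1) 0)
        (cls p A0 1) (cls p (A0 \ A1) 1) (c / 2) s θ M (by positivity) (by linarith) hs hθ0
        (by linarith [sq_nonneg c, (by ring : (c / 2) ^ 2 / 2 = c ^ 2 / 8)]) hM hX.1 hY.1 hX.2 hY.2
        hXs hYs hΓ (fun x y x' y' h => ⟨h.1, h.2.1, h.2.2.1⟩) f hf hfM hfx hfy hC1 hC2 hC3 hC4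
        x y hxy).trans ?_
      have h1 : 21 * θ * M / (c / 2) ^ 4 = 336 * M * θ / c ^ 4 := by
        field_simp
        ring
      rw [h1, div_le_iff₀ (by positivity)]
      have h2 : 336 * M * θ ≤ 336 * M * (c ^ 4 / 700) :=
        mul_le_mul_of_nonneg_left hθ (by positivity)
      have h3 : 0 ≤ M * c ^ 4 := by positivity
      linarith
    · have h1 : f x y = 0 := hf x y hxy
      have h2 : ∀ b, cyPsi f (cGood p H A0 A1 c s) (cF p H A0 A1) x y b = 0 := by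
        intro b
        by_contra hb
        have h3 := psi_two hb
        exact hxy ⟨h3.1.1, h3.1.2.1, h3.1.2.2.2.1, h3.2.1⟩
      simp only [h1, h2, Finset.sum_const_zero, sub_zero, abs_zero]
      positivity

end Pool.Agent.Lib.TriD
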