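import Mathlib

set_option autoImplicit false

/-!
# Triangle decompositions of dense tripartite graphs (MP_6fba53_co)

`p : V → Fin 3` is the part function, parts 0, 1, 2 are called rows, columns, symbols.
-/

open scoped Classical

noncomputable section

namespace Pool.Agent.Lib.TriD

variable {V : Type} [Fintype V]

/-- The part `j` of a set `Z`. -/
def cls (p : V → Fin 3) (Z : Finset V) (j : Fin 3) : Finset V := Z.filter (fun z => p z = j)

/-- Common neighbours of `S` in part `j`. -/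
def nbr (p : V → Fin 3) (G : SimpleGraph V) (j : Fin 3) (S : Finset V) : Finset V :=
  Finset.univ.filter (fun z => p z = j ∧ ∀ u ∈ S, G.Adj u z)

/-- `H` has a decomposition of its edges into triangles. -/
def TD (H : SimpleGraph V) : Prop :=
  ∃ T : Finset (Finset V), (∀ t ∈ T, H.IsNClique 3 t) ∧
    ∀ u v, H.Adj u v → ∃! t, t ∈ T ∧ u ∈ t ∧ v ∈ t

/-- Every vertex has equally many neighbours in both other parts. -/
def TDiv (p : V → Fin 3) (H : SimpleGraph V) : Prop :=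
  ∀ v j k, j ≠ p v → k ≠ p v → (nbr p H j {v}).card = (nbr p H k {v}).card

/-- The graphs for which the theorem is proved. -/
structure Host (p : V → Fin 3) (G : SimpleGraph V) (c K : ℝ) : Prop where
  part : ∀ u v, G.Adj u v → p u ≠ p v
  cells : ∀ u v, p u = 0 → p v = 1 → G.Adj u v
  size : ∀ j, c * Fintype.card V ≤ (cls p Finset.univ j).card
  cod : ∃ k : ℕ, c * Fintype.card V ≤ k ∧ ∀ u v, G.Adj u v → ∀ j, j ≠ p u → j ≠ p v →
    (nbr p G j {u, v}).card = k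
  deg : ∀ v j, j ≠ p v → c * Fintype.card V ≤ (nbr p G j {v}).card
  tdiv : TDiv p G
  mix : ∀ (i j : Fin 3) (D : Finset V), i ≠ j → (∀ z ∈ D, p z = i) →
    ((Finset.univ.filter (fun u => p u = j ∧
      ((D.filter (fun z => G.Adj u z)).card : ℝ) < c * D.card)).card : ℝ) * D.card
        ≤ K * Fintype.card V

/-- Number of edges of `G` from `u` into `Z` that are missing in `H`. -/
def miss (G H : SimpleGraph V) (u : V) (Z : Finset V) : ℕ :=
  (Z.filter (fun z => G.Adj u z ∧ ¬ H.Adj u z)).card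

/-- A triangle of `H` with its vertices in the parts 0, 1, 2. -/
def Tri (p : V → Fin 3) (H : SimpleGraph V) (x y b : V) : Prop :=
  p x = 0 ∧ p y = 1 ∧ p b = 2 ∧ H.Adj x y ∧ H.Adj x b ∧ H.Adj y b

/-- An outer edge: an edge of `H` not inside `A1`. -/
def Outer (H : SimpleGraph V) (A1 : Finset V) (u v : V) : Prop :=
  H.Adj u v ∧ ¬ (u ∈ A1 ∧ v ∈ A1)

/-- An inner edge: an edge of `H` inside `A1`, but not inside `A2`. -/
def Inner (H : SimpleGraph V) (A1 A2 : Finset V) (u v : V) : Prop :=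
  H.Adj u v ∧ (u ∈ A1 ∧ v ∈ A1) ∧ ¬ (u ∈ A2 ∧ v ∈ A2)

/-- Allowed triangles of a level: at least one vertex outside `A1`, no edge inside `A2`. -/
def Allow (p : V → Fin 3) (H : SimpleGraph V) (A1 A2 : Finset V) (x y b : V) : Prop :=
  Tri p H x y b ∧ ¬ (x ∈ A1 ∧ y ∈ A1 ∧ b ∈ A1) ∧ ¬ (x ∈ A2 ∧ y ∈ A2) ∧ ¬ (x ∈ A2 ∧ b ∈ A2) ∧
    ¬ (y ∈ A2 ∧ b ∈ A2)

/-- Triangles with at least two vertices outside `A1`. -/
def Two (p : V → Fin 3) (H : SimpleGraph V) (A1 : Finset V) (x y b : V) : Prop :=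
  Tri p H x y b ∧ ¬ (x ∈ A1 ∧ y ∈ A1) ∧ ¬ (x ∈ A1 ∧ b ∈ A1) ∧ ¬ (y ∈ A1 ∧ b ∈ A1)

/-- The data of one level: nested sets `A0 ⊇ A1 ⊇ A2 ⊇ A3`, scale `s`, current graph `H`. -/
structure Level (p : V → Fin 3) (G H : SimpleGraph V) (s ξ δ : ℝ) (A0 A1 A2 A3 : Finset V) :
    Prop where
  s0 : 0 < s
  s1 : s ≤ Fintype.card V
  sub1 : A1 ⊆ A0
  sub2 : A2 ⊆ A1
  sub3 : A3 ⊆ A2
  vor0 : ∀ S ⊆ A0, S.card ≤ 4 → ∀ j, |((nbr p G j S ∩ A0).card : ℝ) -
    s / Fintype.card V * (nbr p G j S).card| ≤ ξ * s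
  vor1 : ∀ S ⊆ A0, S.card ≤ 4 → ∀ j, |((nbr p G j S ∩ A1).card : ℝ) -
    s / Fintype.card V / 4 * (nbr p G j S).card| ≤ ξ * s
  vor2 : ∀ S ⊆ A0, S.card ≤ 4 → ∀ j, |((nbr p G j S ∩ A2).card : ℝ) -
    s / Fintype.card V / 16 * (nbr p G j S).card| ≤ ξ * s
  le : H ≤ G
  supp : ∀ u v, H.Adj u v → u ∈ A0
  full : ∀ u v, u ∈ A1 → v ∈ A1 → G.Adj u v → H.Adj u v
  tdiv : TDiv p H
  dead : ∀ u ∈ A0, ∀ j, (miss G H u (cls p (A0 \ A1) j) : ℝ) ≤ 3 * δ * s ∧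
    (miss G H u (cls p (A1 \ A2) j) : ℝ) ≤ 3 * δ * s ∧
    (miss G H u (cls p A2 j) : ℝ) ≤ 3 * δ * s

end Pool.Agent.Lib.TriD
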