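import Pool.Agent.Lib.TriD.ZAll

set_option autoImplicit false

open Pool.Agent.Lib.MP_6fba53_co

namespace Pool.Agent.Lib.TriD.DenseDesigns

/-- For every `ε > 0` there is `N` such that for every symmetric `2-(r+c, r, lam)` design with
`r + c ≥ N` and `r - lam ≥ ε (r + c)`, and every block `B j0` of it, there is an extremal
`r × c` triple array: rows are the points of `B j0`, columns the other points, symbols the other
blocks, and the symbol in a cell is a block that misses the row and contains the column. -/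
theorem result : ∀ ε : ℝ, 0 < ε → ∃ N : ℕ, ∀ r c lam : ℕ, N ≤ r + c →
    (lam : ℝ) + ε * (r + c) ≤ r →
    ∀ B : Fin (r + c) → Finset (Fin (r + c)), (∀ j, (B j).card = r) →
    (∀ x y : Fin (r + c), x ≠ y →
      (Finset.univ.filter (fun j => x ∈ B j ∧ y ∈ B j)).card = lam) →
    ∀ j0 : Fin (r + c),
    ∃ (A : Fin r → Fin c → Fin (r + c - 1)) (row : Fin r ≃ {x : Fin (r + c) // x ∈ B j0})
      (col : Fin c ≃ {y : Fin (r + c) // y ∉ B j0})
      (sym : Fin (r + c - 1) ≃ {j : Fin (r + c) // j ≠ j0}),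
      IsTripleArray A (r - lam) (c - (r - lam)) lam (r - lam) ∧
        ∀ i l, (row i).1 ∉ B (sym (A i l)).1 ∧ (col l).1 ∈ B (sym (A i l)).1 := by
  intro ε hε
  obtain ⟨N, hN⟩ := Pool.Agent.Lib.TriD.dense_designs ε hε
  refine ⟨N, fun r c lam h1 h2 B hB hB2 j0 => ?_⟩
  exact hN r c lam h1 h2 B ⟨hB, fun x y hxy => by convert hB2 x y hxy⟩ j0

end Pool.Agent.Lib.TriD.DenseDesigns
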