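import Mathlib

set_option autoImplicit false

/-!
Definitions for one step of the round lemma: the random perfect matching (`Draw`) and the new weights `nextA`.
-/

namespace Pool.Agent.Lib.TriD

open scoped Classical in
/-- `p` is a probability distribution on bijections `π i : Y → Z` with marginals `h ≤ 1/2`. -/
structure Draw {β γ : Type} (Y : Finset β) (Z : Finset γ) {m : ℕ} (p : Fin m → ℝ)
    (π : Fin m → β → γ) (h : β → γ → ℝ) : Prop where
  nonneg : ∀ i, 0 ≤ p i
  sum_one : ∑ i, p i = 1
  bij : ∀ i, Set.BijOn (π i) Y Z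
  marg : ∀ y z, h y z = ∑ i, if y ∈ Y ∧ π i y = z then p i else 0
  half : ∀ y z, h y z ≤ 1 / 2

open scoped Classical in
/-- The new weights: `0` on the pairs of the matching, `A / (1 - h)` elsewhere. -/
noncomputable def nextA {β γ : Type} (A h : β → γ → ℝ) (Y : Finset β) (π : β → γ) : β → γ → ℝ :=
  fun y z => if y ∈ Y ∧ π y = z then 0 else A y z / (1 - h y z)

end Pool.Agent.Lib.TriD
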