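import Pool.Agent.Lib.TriD.Bad

set_option autoImplicit false

/-!
MODULE PhAB. Outer demands on row-symbol edges and on column-symbol edges.
-/

open scoped Classical

noncomputable section

namespace Pool.Agent.Lib.TriD

variable {V : Type} [Fintype V]

private theorem tri_low {p : V → Fin 3} {G H : SimpleGraph V} {c K s ξ δ : ℝ}
    {A0 A1 A2 A3 : Finset V}
    (hG : Host p G c K) (hL : Level p G H s ξ δ A0 A1 A2 A3) (hc : 0 < c) (hc1 : c < 1)
    (hξ : 0 ≤ ξ) (hδ : 0 ≤ δ) (hsm : 2 * ξ + 12 * δ ≤ c ^ 3 / 16)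
    {x b : V} (hx : p x = 0) (hb : p b = 2) (h : H.Adj x b) :
    c * s / 2 ≤ (((cls p (A0 \ A1) 1).filter (fun y => H.Adj x y ∧ H.Adj b y)).card : ℝ) := by
  obtain ⟨k, hk1, hk⟩ := hG.cod
  have hj1 : (1 : Fin 3) ≠ p x := by rw [hx]; decide
  have hj2 : (1 : Fin 3) ≠ p b := by rw [hb]; decide
  have h1 := (cnt_tri hG hL k hk h hj1 hj2).1
  have hs := hL.s0
  have hn : (0 : ℝ) < Fintype.card V := lt_of_lt_of_le hs hL.s1
  have h2 : c * s ≤ s / Fintype.card V * k := by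
    calc c * s = s / Fintype.card V * (c * Fintype.card V) := by field_simp
      _ ≤ s / Fintype.card V * k := by
          apply mul_le_mul_of_nonneg_left hk1
          positivity
  have h3 := (abs_le.1 h1).1
  have hc3 : c ^ 3 ≤ c := by
    have : c ^ 3 = c * c ^ 2 := by ring
    nlinarith [mul_pos hc hc]
  have h4 : (2 * ξ + 6 * δ) * s ≤ c / 16 * s := by
    apply mul_le_mul_of_nonneg_right _ hs.le
    linarith
  nlinarith

private theorem sum_bound (F : V → ℝ) (S : Finset V) (B s M : ℝ) (hB : 0 ≤ B)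
    (h0 : ∀ v, v ∉ S → F v = 0) (hF : ∀ v, |F v| ≤ B) (hS : (S.card : ℝ) ≤ s)
    (hM : s * B ≤ M) : |∑ v, F v| ≤ M := by
  have h1 : ∑ v, F v = ∑ v ∈ S, F v := by
    symm
    apply Finset.sum_subset (Finset.subset_univ _)
    intro v _ hv
    exact h0 v hv
  rw [h1]
  calc |∑ v ∈ S, F v| ≤ ∑ v ∈ S, |F v| := Finset.abs_sum_le_sum_abs _ _
    _ ≤ ∑ _v ∈ S, B := Finset.sum_le_sum fun v _ => hF v
    _ = S.card * B := by rw [Finset.sum_const, nsmul_eq_mul]
    _ ≤ s * B := mul_le_mul_of_nonneg_right hS hB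
    _ ≤ M := hM

private theorem xi_le {c ξ δ : ℝ} (hc : 0 < c) (hc1 : c < 1)
    (hδ : 0 ≤ δ) (hsm : 2 * ξ + 12 * δ ≤ c ^ 3 / 16) : ξ ≤ 1 := by
  have : c ^ 3 ≤ 1 := pow_le_one₀ hc.le hc1.le
  linarith

private theorem size_le {p : V → Fin 3} {G H : SimpleGraph V} {c K s ξ δ : ℝ}
    {A0 A1 A2 A3 : Finset V}
    (hG : Host p G c K) (hL : Level p G H s ξ δ A0 A1 A2 A3) (hc : 0 < c) (hc1 : c < 1)
    (hδ : 0 ≤ δ) (hsm : 2 * ξ + 12 * δ ≤ c ^ 3 / 16) (j : Fin 3) :
    ((cls p A0 j).card : ℝ) ≤ 2 * s := by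
  have h1 := (cnt_size hG hL j).1
  have h2 := xi_le hc hc1 hδ hsm
  have hs := hL.s0
  nlinarith

theorem phA {p : V → Fin 3} {G H : SimpleGraph V} {c K s ξ δ : ℝ} {A0 A1 A2 A3 : Finset V}
    (hG : Host p G c K) (hL : Level p G H s ξ δ A0 A1 A2 A3) (hc : 0 < c) (hc1 : c < 1)
    (hξ : 0 ≤ ξ) (hδ : 0 ≤ δ) (hsm : 2 * ξ + 12 * δ ≤ c ^ 3 / 16)
    (f : V → V → ℝ) (M : ℝ) (hM : 0 ≤ M) (hf : ∀ x b, |f x b| ≤ M) :
    ∃ ψ : V → V → V → ℝ, (∀ x y b, ψ x y b ≠ 0 → Two p H A1 x y b) ∧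
      (∀ x y b, |ψ x y b| ≤ 2 * M / (c * s)) ∧
      (∀ x b, p x = 0 → p b = 2 → Outer H A1 x b → ∑ y, ψ x y b = f x b) ∧
      (∀ x y, |∑ b, ψ x y b| ≤ 4 * M / c) ∧ (∀ y b, |∑ x, ψ x y b| ≤ 4 * M / c) := by
  have hs := hL.s0
  set T : V → V → ℝ := fun x b =>
    (((cls p (A0 \ A1) 1).filter (fun y => H.Adj x y ∧ H.Adj b y)).card : ℝ) with hT
  set ψ : V → V → V → ℝ := fun x y b =>
    if Tri p H x y b ∧ y ∉ A1 ∧ ¬ (x ∈ A1 ∧ b ∈ A1) then f x b / T x b else 0 with hψ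
  have hTlow : ∀ x b, p x = 0 → p b = 2 → H.Adj x b → c * s / 2 ≤ T x b := fun x b hx hb h =>
    tri_low hG hL hc hc1 hξ hδ hsm hx hb h
  have hcs : 0 < c * s := mul_pos hc hs
  have hB : 0 ≤ 2 * M / (c * s) := by positivity
  have hbound : ∀ x y b, |ψ x y b| ≤ 2 * M / (c * s) := by
    intro x y b
    simp only [hψ]
    split_ifs with h
    · obtain ⟨⟨h0, h1, h2, h3, h4, h5⟩, _, _⟩ := h
      have hT1 := hTlow x b h0 h2 h4
      have hTpos : 0 < T x b := lt_of_lt_of_le (by positivity) hT1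
      rw [abs_div, abs_of_pos hTpos, div_le_div_iff₀ hTpos hcs]
      calc |f x b| * (c * s) ≤ M * (c * s) := mul_le_mul_of_nonneg_right (hf x b) hcs.le
        _ = 2 * M * (c * s / 2) := by ring
        _ ≤ 2 * M * T x b := mul_le_mul_of_nonneg_left hT1 (by positivity)
    · simpa using hB
  have htot : 2 * s * (2 * M / (c * s)) ≤ 4 * M / c := by
    apply le_of_eq
    field_simp
    ring
  refine ⟨ψ, ?_, hbound, ?_, ?_, ?_⟩
  · intro x y b h
    have h' : Tri p H x y b ∧ y ∉ A1 ∧ ¬ (x ∈ A1 ∧ b ∈ A1) := by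
      by_contra hcon
      exact h (by simp only [hψ]; rw [if_neg hcon])
    obtain ⟨ht, hy, hxb⟩ := h'
    exact ⟨ht, fun q => hy q.2, hxb, fun q => hy q.1⟩
  · intro x b hx hb hout
    have hT1 := hTlow x b hx hb hout.1
    have hTpos : 0 < T x b := lt_of_lt_of_le (by positivity) hT1
    have h1 : ∑ y, ψ x y b =
        ∑ y ∈ (cls p (A0 \ A1) 1).filter (fun y => H.Adj x y ∧ H.Adj b y), f x b / T x b := by
      simp only [hψ]
      rw [← Finset.sum_filter]
      apply Finset.sum_congr _ (fun _ _ => rfl)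
      ext y
      simp only [Finset.mem_filter, Finset.mem_univ, true_and, cls, Finset.mem_sdiff]
      constructor
      · rintro ⟨⟨_, h2, _, h4, _, h6⟩, h7, _⟩
        exact ⟨⟨⟨hL.supp _ _ h6, h7⟩, h2⟩, h4, h6.symm⟩
      · rintro ⟨⟨⟨_, h7⟩, h2⟩, h4, h6⟩
        exact ⟨⟨hx, h2, hb, h4, hout.1, h6.symm⟩, h7, hout.2⟩
    rw [h1, Finset.sum_const, nsmul_eq_mul]
    change T x b * (f x b / T x b) = f x b
    field_simp
  · intro x y
    apply sum_bound (fun b => ψ x y b) (cls p A0 2) (2 * M / (c * s)) (2 * s) _ hB _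
      (fun b => hbound x y b) (size_le hG hL hc hc1 hδ hsm 2) htot
    intro b hb
    simp only [hψ]
    rw [if_neg]
    rintro ⟨⟨_, _, h2, _, h4, _⟩, _, _⟩
    apply hb
    simp only [cls, Finset.mem_filter]
    exact ⟨hL.supp _ _ h4.symm, h2⟩
  · intro y b
    apply sum_bound (fun x => ψ x y b) (cls p A0 0) (2 * M / (c * s)) (2 * s) _ hB _
      (fun x => hbound x y b) (size_le hG hL hc hc1 hδ hsm 0) htot
    intro x hxx
    simp only [hψ]
    rw [if_neg]
    rintro ⟨⟨h0, _, _, h3, _, _⟩, _, _⟩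
    apply hxx
    simp only [cls, Finset.mem_filter]
    exact ⟨hL.supp _ _ h3, h0⟩

/-- common neighbours in the outer rows -/
private def mB (p : V → Fin 3) (H : SimpleGraph V) (A0 A1 : Finset V) (b y y' : V) : Finset V :=
  (cls p (A0 \ A1) 0).filter (fun x => H.Adj x b ∧ H.Adj x y ∧ H.Adj x y')

private theorem mB_symm (p : V → Fin 3) (H : SimpleGraph V) (A0 A1 : Finset V) (b y y' : V) :
    mB p H A0 A1 b y y' = mB p H A0 A1 b y' y := by
  unfold mB
  apply Finset.filter_congr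
  intro x _
  constructor
  · rintro ⟨a, b, c⟩; exact ⟨a, c, b⟩
  · rintro ⟨a, b, c⟩; exact ⟨a, c, b⟩

private theorem mB_low {p : V → Fin 3} {G H : SimpleGraph V} {c K s ξ δ : ℝ}
    {A0 A1 A2 A3 : Finset V}
    (hG : Host p G c K) (hL : Level p G H s ξ δ A0 A1 A2 A3) (hc : 0 < c) (hc1 : c < 1)
    (hξ : 0 ≤ ξ) (hδ : 0 ≤ δ) (hsm : 2 * ξ + 12 * δ ≤ c ^ 3 / 16)
    {b y y' : V} (hb : p b = 2) (hy : p y = 1) (hy' : p y' = 1) (h : H.Adj y b)
    (h' : H.Adj y' b) :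
    c ^ 3 / 16 * s ≤ ((mB p H A0 A1 b y y').card : ℝ) := by
  have hs := hL.s0
  have hbA : b ∈ A0 := hL.supp _ _ h.symm
  have hyA : y ∈ A0 := hL.supp _ _ h
  have hyA' : y' ∈ A0 := hL.supp _ _ h'
  have h1 := (good_one hG hL hc hc1 hξ hδ hsm hbA (j := 0) (by rw [hb]; decide)).1
  have h2 := (cnt_cell hG hL).2 y hyA hy
  have h3 := (cnt_cell hG hL).2 y' hyA' hy'
  have hsub : (cls p (A0 \ A1) 0).filter (fun z => H.Adj b z) ⊆
      mB p H A0 A1 b y y' ∪ ((cls p (A0 \ A1) 0).filter (fun x => ¬ H.Adj x y) ∪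
        (cls p (A0 \ A1) 0).filter (fun x => ¬ H.Adj x y')) := by
    intro x hx
    simp only [mB, Finset.mem_union, Finset.mem_filter] at hx ⊢
    by_cases q1 : H.Adj x y
    · by_cases q2 : H.Adj x y'
      · exact Or.inl ⟨hx.1, hx.2.symm, q1, q2⟩
      · exact Or.inr (Or.inr ⟨hx.1, q2⟩)
    · exact Or.inr (Or.inl ⟨hx.1, q1⟩)
  have h4 : (((cls p (A0 \ A1) 0).filter (fun z => H.Adj b z)).card : ℝ) ≤
      (mB p H A0 A1 b y y').card + ((((cls p (A0 \ A1) 0).filter (fun x => ¬ H.Adj x y)).card : ℝ) +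
        ((cls p (A0 \ A1) 0).filter (fun x => ¬ H.Adj x y')).card) := by
    have h5 := (Finset.card_le_card hsub).trans ((Finset.card_union_le _ _).trans
      (Nat.add_le_add_left (Finset.card_union_le _ _) _))
    exact_mod_cast h5
  have h6 : 6 * δ * s ≤ c ^ 3 / 32 * s := by
    apply mul_le_mul_of_nonneg_right _ hs.le
    linarith
  have hc3 : 0 < c ^ 3 * s := by positivity
  nlinarith

theorem phB {p : V → Fin 3} {G H : SimpleGraph V} {c K s ξ δ : ℝ} {A0 A1 A2 A3 : Finset V}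
    (hG : Host p G c K) (hL : Level p G H s ξ δ A0 A1 A2 A3) (hc : 0 < c) (hc1 : c < 1)
    (hξ : 0 ≤ ξ) (hδ : 0 ≤ δ) (hsm : 2 * ξ + 12 * δ ≤ c ^ 3 / 16)
    (g : V → V → ℝ) (M : ℝ) (hM : 0 ≤ M) (hg : ∀ y b, |g y b| ≤ M)
    (hg0 : ∀ b, p b = 2 → ∑ y ∈ Finset.univ.filter (fun y => p y = 1 ∧ Outer H A1 y b), g y b = 0) :
    ∃ ψ : V → V → V → ℝ, (∀ x y b, ψ x y b ≠ 0 → Two p H A1 x y b) ∧
      (∀ x y b, |ψ x y b| ≤ 32 * M / (c ^ 3 * s)) ∧
      (∀ y b, p y = 1 → p b = 2 → Outer H A1 y b → ∑ x, ψ x y b = g y b) ∧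
      (∀ x b, ∑ y, ψ x y b = 0) ∧ (∀ x y, |∑ b, ψ x y b| ≤ 64 * M / c ^ 3) := by
  have hs := hL.s0
  set N : V → Finset V := fun b => Finset.univ.filter (fun y => p y = 1 ∧ Outer H A1 y b) with hN
  set t : V → V → V → ℝ := fun b y y' =>
    (g y b - g y' b) / ((N b).card * (mB p H A0 A1 b y y').card) with ht
  set ψ : V → V → V → ℝ := fun x y b =>
    if (p b = 2 ∧ x ∈ cls p (A0 \ A1) 0 ∧ H.Adj x b) ∧ y ∈ N b ∧ H.Adj x y then
      ∑ y' ∈ (N b).filter (fun y' => H.Adj x y'), t b y y' else 0 with hψ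
  have hmemN : ∀ y b, y ∈ N b ↔ (p y = 1 ∧ Outer H A1 y b) := by
    intro y b; simp [hN]
  have hc3 : 0 < c ^ 3 := by positivity
  have hc3s : 0 < c ^ 3 * s := by positivity
  have hB : 0 ≤ 32 * M / (c ^ 3 * s) := by positivity
  have htb : ∀ b y y', p b = 2 → y ∈ N b → y' ∈ N b →
      |t b y y'| ≤ 32 * M / (c ^ 3 * s) / (N b).card := by
    intro b y y' hb hy hy'
    have hy1 := (hmemN y b).1 hy
    have hy1' := (hmemN y' b).1 hy'
    have hm := mB_low hG hL hc hc1 hξ hδ hsm hb hy1.1 hy1'.1 hy1.2.1 hy1'.2.1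
    have hmpos : (0 : ℝ) < (mB p H A0 A1 b y y').card := lt_of_lt_of_le (by positivity) hm
    have hNpos : (0 : ℝ) < (N b).card := by
      exact_mod_cast Finset.card_pos.2 ⟨y, hy⟩
    simp only [ht]
    rw [abs_div, abs_of_pos (mul_pos hNpos hmpos), div_le_div_iff₀ (mul_pos hNpos hmpos) hNpos]
    have h1 : |g y b - g y' b| ≤ 2 * M := by
      calc |g y b - g y' b| ≤ |g y b| + |g y' b| := abs_sub _ _
        _ ≤ 2 * M := by linarith [hg y b, hg y' b]
    have h2 : 2 * M ≤ 32 * M / (c ^ 3 * s) * (mB p H A0 A1 b y y').card := by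
      calc 2 * M = 32 * M / (c ^ 3 * s) * (c ^ 3 / 16 * s) := by field_simp; ring
        _ ≤ _ := mul_le_mul_of_nonneg_left hm hB
    calc |g y b - g y' b| * (N b).card ≤ (32 * M / (c ^ 3 * s) *
          (mB p H A0 A1 b y y').card) * (N b).card :=
          mul_le_mul_of_nonneg_right (h1.trans h2) hNpos.le
      _ = _ := by ring
  have hbound : ∀ x y b, |ψ x y b| ≤ 32 * M / (c ^ 3 * s) := by
    intro x y b
    simp only [hψ]
    split_ifs with h
    · obtain ⟨⟨hb, _, _⟩, hy, _⟩ := h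
      have hNpos : (0 : ℝ) < (N b).card := by
        exact_mod_cast Finset.card_pos.2 ⟨y, hy⟩
      calc |∑ y' ∈ (N b).filter (fun y' => H.Adj x y'), t b y y'|
          ≤ ∑ y' ∈ (N b).filter (fun y' => H.Adj x y'), |t b y y'| :=
            Finset.abs_sum_le_sum_abs _ _
        _ ≤ ∑ y' ∈ N b, |t b y y'| := 
            Finset.sum_le_sum_of_subset_of_nonneg (Finset.filter_subset _ _)
              (fun _ _ _ => abs_nonneg _)
        _ ≤ ∑ _y' ∈ N b, 32 * M / (c ^ 3 * s) / (N b).card :=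
            Finset.sum_le_sum fun y' hy' => htb b y y' hb hy hy'
        _ = 32 * M / (c ^ 3 * s) := by
            rw [Finset.sum_const, nsmul_eq_mul]
            field_simp
    · simpa using hB
  refine ⟨ψ, ?_, hbound, ?_, ?_, ?_⟩
  · intro x y b h
    have h' : (p b = 2 ∧ x ∈ cls p (A0 \ A1) 0 ∧ H.Adj x b) ∧ y ∈ N b ∧ H.Adj x y := by
      by_contra hcon
      exact h (by simp only [hψ]; rw [if_neg hcon])
    obtain ⟨⟨hb, hx, hxb⟩, hy, hxy⟩ := h'
    have hy1 := (hmemN y b).1 hy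
    simp only [cls, Finset.mem_filter, Finset.mem_sdiff] at hx
    exact ⟨⟨hx.2, hy1.1, hb, hxy, hxb, hy1.2.1⟩, fun q => hx.1.2 q.1, fun q => hx.1.2 q.1,
      hy1.2.2⟩
  · intro y b hy hb hout
    have hyN : y ∈ N b := (hmemN y b).2 ⟨hy, hout⟩
    have hNpos : (0 : ℝ) < (N b).card := by
      exact_mod_cast Finset.card_pos.2 ⟨y, hyN⟩
    have h1 : ∑ x, ψ x y b = ∑ x ∈ (cls p (A0 \ A1) 0).filter (fun x => H.Adj x b ∧ H.Adj x y),
        ∑ y' ∈ N b, if H.Adj x y' then t b y y' else 0 := by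
      simp only [hψ]
      rw [← Finset.sum_filter]
      apply Finset.sum_congr
      · ext x
        simp only [Finset.mem_filter, Finset.mem_univ, true_and]
        constructor
        · rintro ⟨⟨_, h2, h3⟩, _, h5⟩
          exact ⟨h2, h3, h5⟩
        · rintro ⟨h2, h3, h5⟩
          exact ⟨⟨hb, h2, h3⟩, hyN, h5⟩
      · intro x _
        rw [Finset.sum_filter]
    rw [h1, Finset.sum_comm]
    have h2 : ∀ y' ∈ N b, ∑ x ∈ (cls p (A0 \ A1) 0).filter (fun x => H.Adj x b ∧ H.Adj x y),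
        (if H.Adj x y' then t b y y' else 0) = (g y b - g y' b) / (N b).card := by
      intro y' hy'
      have hy1' := (hmemN y' b).1 hy'
      have hm := mB_low hG hL hc hc1 hξ hδ hsm hb hy hy1'.1 hout.1 hy1'.2.1
      have hmpos : (0 : ℝ) < (mB p H A0 A1 b y y').card := lt_of_lt_of_le (by positivity) hm
      rw [← Finset.sum_filter, Finset.filter_filter, Finset.sum_const, nsmul_eq_mul]
      have h3 : (cls p (A0 \ A1) 0).filter (fun x => (H.Adj x b ∧ H.Adj x y) ∧ H.Adj x y') =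
          mB p H A0 A1 b y y' := by
        unfold mB
        apply Finset.filter_congr
        intro x _
        rw [and_assoc]
      rw [h3]
      simp only [ht]
      field_simp
    rw [Finset.sum_congr rfl h2, ← Finset.sum_div, Finset.sum_sub_distrib, Finset.sum_const,
      nsmul_eq_mul, hg0 b hb, sub_zero]
    field_simp
  · intro x b
    by_cases h : p b = 2 ∧ x ∈ cls p (A0 \ A1) 0 ∧ H.Adj x b
    · have h1 : ∑ y, ψ x y b = ∑ y ∈ (N b).filter (fun y => H.Adj x y),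
          ∑ y' ∈ (N b).filter (fun y' => H.Adj x y'), t b y y' := by
        simp only [hψ]
        rw [← Finset.sum_filter]
        apply Finset.sum_congr _ (fun _ _ => rfl)
        ext y
        simp only [Finset.mem_filter, Finset.mem_univ, true_and]
        constructor
        · rintro ⟨_, h2, h3⟩; exact ⟨h2, h3⟩
        · rintro ⟨h2, h3⟩; exact ⟨h, h2, h3⟩
      have h2 : ∑ y ∈ (N b).filter (fun y => H.Adj x y),
          ∑ y' ∈ (N b).filter (fun y' => H.Adj x y'), t b y y' =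
          - ∑ y ∈ (N b).filter (fun y => H.Adj x y),
          ∑ y' ∈ (N b).filter (fun y' => H.Adj x y'), t b y y' := by
        conv_lhs => rw [Finset.sum_comm]
        rw [← Finset.sum_neg_distrib]
        refine Finset.sum_congr rfl fun y _ => ?_
        rw [← Finset.sum_neg_distrib]
        refine Finset.sum_congr rfl fun y' _ => ?_
        simp only [ht]
        rw [mB_symm p H A0 A1 b y' y, ← neg_div, neg_sub]
      rw [h1]
      linarith
    · apply Finset.sum_eq_zero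
      intro y _
      simp only [hψ]
      rw [if_neg]
      exact fun q => h q.1
  · intro x y
    have htot : 2 * s * (32 * M / (c ^ 3 * s)) ≤ 64 * M / c ^ 3 := by
      apply le_of_eq
      field_simp
      ring
    apply sum_bound (fun b => ψ x y b) (cls p A0 2) (32 * M / (c ^ 3 * s)) (2 * s) _ hB _
      (fun b => hbound x y b) (size_le hG hL hc hc1 hδ hsm 2) htot
    intro b hb
    simp only [hψ]
    rw [if_neg]
    rintro ⟨⟨h2, _, h4⟩, _, _⟩
    apply hb
    simp only [cls, Finset.mem_filter]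
    exact ⟨hL.supp _ _ h4.symm, h2⟩

end Pool.Agent.Lib.TriD
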