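import Pool.Agent.Lib.TriD.Cyc3

set_option autoImplicit false

/-!
MODULE PhC (about 150 lines). Zero sum functions on outer cells, exactly.

PROOF. Iterate `cyc_step`: `f 0 = f`, `ψ i` for `f i` with the bound `M / 2 ^ i`, `f (i+1) x y = f i x y - ∑ b, ψ i x y b`. By
induction `f i` satisfies all hypotheses with `M / 2 ^ i`: zero off the outer cells (if `ψ i x y b ≠ 0` then `Two`, so `(x, y)` is an
outer cell with `p x = 0`, `p y = 1`), zero row and column sums (exchange sums, `∑ y, ∑ b, ψ i x y b = ∑ b, 0`).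
`|ψ i x y b| ≤ 800 M / (c ^ 5 s) / 2 ^ i`, so `Ψ x y b = ∑' i, ψ i x y b` converges, `|Ψ| ≤ 1600 M / (c ^ 5 s)`. The finite sums over
`y`, `x`, `b` commute with the series (`tsum_finsetSum` / `Summable.tsum_finsetSum`), and
`∑ b, ψ i x y b = f i x y - f (i+1) x y` telescopes to `f x y` because `f i x y → 0`. Support: if all `ψ i x y b = 0` then `Ψ x y b = 0`.
-/

open scoped Classical

noncomputable section

namespace Pool.Agent.Lib.TriD

variable {V : Type} [Fintype V]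

private def PInv (p : V → Fin 3) (H : SimpleGraph V) (A1 : Finset V) (M : ℝ) (i : ℕ)
    (f : V → V → ℝ) : Prop :=
  (∀ x y, |f x y| ≤ M / 2 ^ i) ∧
  (∀ x y, ¬ (p x = 0 ∧ p y = 1 ∧ Outer H A1 x y) → f x y = 0) ∧
  (∀ x, ∑ y, f x y = 0) ∧ (∀ y, ∑ x, f x y = 0)

private def PStep (p : V → Fin 3) (H : SimpleGraph V) (A1 : Finset V) (C : ℝ)
    (ψ : V → V → V → ℝ) : Prop :=
  (∀ x y b, ψ x y b ≠ 0 → Two p H A1 x y b) ∧
  (∀ x y b, |ψ x y b| ≤ C) ∧
  (∀ x b, ∑ y, ψ x y b = 0) ∧ (∀ y b, ∑ x, ψ x y b = 0)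

omit [Fintype V] in
private theorem two_outer {p : V → Fin 3} {H : SimpleGraph V} {A1 : Finset V} {x y b : V}
    (h : Two p H A1 x y b) : p x = 0 ∧ p y = 1 ∧ Outer H A1 x y :=
  ⟨h.1.1, h.1.2.1, h.1.2.2.2.1, h.2.1⟩

private theorem phC_step {p : V → Fin 3} {G H : SimpleGraph V} {c K s ξ δ : ℝ}
    {A0 A1 A2 A3 : Finset V}
    (hG : Host p G c K) (hL : Level p G H s ξ δ A0 A1 A2 A3) (hc : 0 < c) (hc1 : c < 1)
    (hK : 0 ≤ K) (hξ : 0 ≤ ξ) (hδ : 0 ≤ δ) (hsm : 2 * ξ + 12 * δ ≤ c ^ 3 / 16)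
    (hθ : 36 * δ + 4 * K / (c ^ 3 * s) ≤ c ^ 4 / 700) (M : ℝ) (hM : 0 ≤ M) (i : ℕ)
    (f : V → V → ℝ) (hf : PInv p H A1 M i f) :
    ∃ ψ : V → V → V → ℝ, PStep p H A1 (800 * M / (c ^ 5 * s) / 2 ^ i) ψ ∧
      PInv p H A1 M (i + 1) (fun x y => f x y - ∑ b, ψ x y b) := by
  obtain ⟨h1, h2, h3, h4⟩ := hf
  obtain ⟨ψ, a1, a2, a3, a4, a5⟩ := cyc_step hG hL hc hc1 hK hξ hδ hsm hθ f (M / 2 ^ i)
    (by positivity) h1 h2 h3 h4
  refine ⟨ψ, ⟨a1, ?_, a3, a4⟩, ?_, ?_, ?_, ?_⟩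
  · intro x y b
    refine (a2 x y b).trans (le_of_eq ?_)
    ring
  · intro x y
    refine (a5 x y).trans (le_of_eq ?_)
    rw [pow_succ]
    ring
  · intro x y hxy
    have hz : ∀ b, ψ x y b = 0 := by
      intro b
      by_contra hb
      exact hxy (two_outer (a1 x y b hb))
    simp only [h2 x y hxy, hz, Finset.sum_const_zero, sub_zero]
  · intro x
    rw [Finset.sum_sub_distrib, h3 x, Finset.sum_comm]
    simp only [a3, Finset.sum_const_zero, sub_zero]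
  · intro y
    rw [Finset.sum_sub_distrib, h4 y, Finset.sum_comm]
    simp only [a4, Finset.sum_const_zero, sub_zero]

private theorem phC_seq {p : V → Fin 3} {G H : SimpleGraph V} {c K s ξ δ : ℝ}
    {A0 A1 A2 A3 : Finset V}
    (hG : Host p G c K) (hL : Level p G H s ξ δ A0 A1 A2 A3) (hc : 0 < c) (hc1 : c < 1)
    (hK : 0 ≤ K) (hξ : 0 ≤ ξ) (hδ : 0 ≤ δ) (hsm : 2 * ξ + 12 * δ ≤ c ^ 3 / 16)
    (hθ : 36 * δ + 4 * K / (c ^ 3 * s) ≤ c ^ 4 / 700) (M : ℝ) (hM : 0 ≤ M)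
    (f : V → V → ℝ) (hf : PInv p H A1 M 0 f) :
    ∃ (F : ℕ → V → V → ℝ) (ψ : ℕ → V → V → V → ℝ), F 0 = f ∧
      (∀ i, PInv p H A1 M i (F i)) ∧
      (∀ i, PStep p H A1 (800 * M / (c ^ 5 * s) / 2 ^ i) (ψ i)) ∧
      (∀ i x y, F (i + 1) x y = F i x y - ∑ b, ψ i x y b) := by
  choose! Ψ hΨ1 hΨ2 using fun (i : ℕ) (g : V → V → ℝ) (hg : PInv p H A1 M i g) =>
    phC_step hG hL hc hc1 hK hξ hδ hsm hθ M hM i g hg
  let F : ℕ → V → V → ℝ := fun i => Nat.rec f (fun i g => fun x y => g x y - ∑ b, Ψ i g x y b) i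
  have hF : ∀ i, PInv p H A1 M i (F i) := by
    intro i
    induction i with
    | zero => exact hf
    | succ i ih => exact hΨ2 i (F i) ih
  exact ⟨F, fun i => Ψ i (F i), rfl, hF, fun i => hΨ1 i (F i) (hF i), fun i x y => rfl⟩

theorem phC {p : V → Fin 3} {G H : SimpleGraph V} {c K s ξ δ : ℝ} {A0 A1 A2 A3 : Finset V}
    (hG : Host p G c K) (hL : Level p G H s ξ δ A0 A1 A2 A3) (hc : 0 < c) (hc1 : c < 1)
    (hK : 0 ≤ K) (hξ : 0 ≤ ξ) (hδ : 0 ≤ δ) (hsm : 2 * ξ + 12 * δ ≤ c ^ 3 / 16)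
    (hθ : 36 * δ + 4 * K / (c ^ 3 * s) ≤ c ^ 4 / 700)
    (f : V → V → ℝ) (M : ℝ) (hM : 0 ≤ M) (hfM : ∀ x y, |f x y| ≤ M)
    (hf : ∀ x y, ¬ (p x = 0 ∧ p y = 1 ∧ Outer H A1 x y) → f x y = 0)
    (hfx : ∀ x, ∑ y, f x y = 0) (hfy : ∀ y, ∑ x, f x y = 0) :
    ∃ ψ : V → V → V → ℝ, (∀ x y b, ψ x y b ≠ 0 → Two p H A1 x y b) ∧
      (∀ x y b, |ψ x y b| ≤ 1600 * M / (c ^ 5 * s)) ∧
      (∀ x b, ∑ y, ψ x y b = 0) ∧ (∀ y b, ∑ x, ψ x y b = 0) ∧
      (∀ x y, ∑ b, ψ x y b = f x y) := by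
  obtain ⟨F, ψ, hF0, hF, hψ, hrec⟩ := phC_seq hG hL hc hc1 hK hξ hδ hsm hθ M hM f
    ⟨fun x y => by simpa using hfM x y, hf, hfx, hfy⟩
  set C : ℝ := 800 * M / (c ^ 5 * s) with hC
  have hgeo : HasSum (fun n : ℕ => C / 2 ^ n) (2 * C) := by
    have h := hasSum_geometric_two' (2 * C)
    have he : (fun n : ℕ => 2 * C / 2 / 2 ^ n) = fun n : ℕ => C / 2 ^ n := by
      funext n
      rw [mul_div_cancel_left₀ C (two_ne_zero)]
    rwa [he] at h
  have hnorm : ∀ x y b (i : ℕ), ‖ψ i x y b‖ ≤ C / 2 ^ i := by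
    intro x y b i
    rw [Real.norm_eq_abs]
    exact (hψ i).2.1 x y b
  have hsum : ∀ x y b, Summable (fun i => ψ i x y b) := fun x y b =>
    Summable.of_norm_bounded hgeo.summable (hnorm x y b)
  refine ⟨fun x y b => ∑' i, ψ i x y b, ?_, ?_, ?_, ?_, ?_⟩
  · intro x y b hne
    by_contra hT
    apply hne
    have hz : ∀ i, ψ i x y b = 0 := by
      intro i
      by_contra hb
      exact hT ((hψ i).1 x y b hb)
    simp only [hz, tsum_zero]
  · intro x y b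
    have h := tsum_of_norm_bounded hgeo (hnorm x y b)
    rw [Real.norm_eq_abs] at h
    refine h.trans (le_of_eq ?_)
    rw [hC]
    ring
  · intro x b
    rw [← Summable.tsum_finsetSum (fun y _ => hsum x y b)]
    have hz : ∀ i, ∑ y, ψ i x y b = 0 := fun i => (hψ i).2.2.1 x b
    simp only [hz, tsum_zero]
  · intro y b
    rw [← Summable.tsum_finsetSum (fun x _ => hsum x y b)]
    have hz : ∀ i, ∑ x, ψ i x y b = 0 := fun i => (hψ i).2.2.2 y b
    simp only [hz, tsum_zero]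
  · intro x y
    rw [← Summable.tsum_finsetSum (fun b _ => hsum x y b)]
    have hS : Summable (fun i => ∑ b, ψ i x y b) := summable_sum fun b _ => hsum x y b
    have ht := hS.hasSum.tendsto_sum_nat
    have hFlim : Filter.Tendsto (fun n => F n x y) Filter.atTop (nhds 0) := by
      have hg : Filter.Tendsto (fun n : ℕ => M / 2 ^ n) Filter.atTop (nhds 0) := by
        have h := (hasSum_geometric_two' (2 * M)).summable.tendsto_atTop_zero
        have he : (fun n : ℕ => 2 * M / 2 / 2 ^ n) = fun n : ℕ => M / 2 ^ n := by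
          funext n
          rw [mul_div_cancel_left₀ M (two_ne_zero)]
        rwa [he] at h
      exact squeeze_zero_norm (fun n => by rw [Real.norm_eq_abs]; exact (hF n).1 x y) hg
    have hpart : ∀ n : ℕ, ∑ i ∈ Finset.range n, ∑ b, ψ i x y b = f x y - F n x y := by
      intro n
      induction n with
      | zero => simp [hF0]
      | succ n ih =>
        rw [Finset.sum_range_succ, ih, hrec n x y]
        ring
    have ht2 : Filter.Tendsto (fun n : ℕ => ∑ i ∈ Finset.range n, ∑ b, ψ i x y b) Filter.atTop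
        (nhds (f x y)) := by
      have h := hFlim.const_sub (f x y)
      rw [sub_zero] at h
      simpa only [hpart] using h
    exact tendsto_nhds_unique ht ht2

end Pool.Agent.Lib.TriD
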