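import Pool.Agent.Lib.TriD.Cnt

set_option autoImplicit false

/-!
MODULE PhU (about 200 lines). Inner demands are put on triangles with exactly one vertex outside `A1`.

PROOF. For `H.Adj u v` and the third part `j` let `T u v = card {z ∈ cls p (A0 \ A1) j | H.Adj u z ∧ H.Adj v z}`. By `cnt_tri`
and `k ≥ c n`: `T ≥ (3/4) c s - (2 ξ + 6 δ) s ≥ c s / 2` (`hsm`, `c < 1`). Define for an allowed triangle `(x,y,b)`:
if `x, y ∈ A1` (then `b ∉ A1`) `ψ = f01 x y / T x y` (third part 2); if `x, b ∈ A1` `ψ = f02 x b / T x b` (third part 1); if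
`y, b ∈ A1` `ψ = f12 y b / T y b` (third part 0); otherwise, and for triangles that are not allowed, `ψ = 0`. The three cases
exclude each other. `|ψ| ≤ 2 M / (c s)` because the edge in question is inner. For an inner edge `(x, y)`:
the `b` with `Allow x y b` are exactly the `b ∈ cls p (A0 \ A1) 2` with `H.Adj x b ∧ H.Adj y b` (`b ∉ A1`, so `b ∉ A2`), and for
each of them `ψ x y b = f01 x y / T x y`: the sum is `f01 x y`. Same for the other two kinds. For any edge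
`∑ b, |ψ x y b| ≤ card (cls p A0 2) * 2 M / (c s) ≤ 4 M / c` (`ψ ≠ 0` only for `b ∈ A0` by `supp`; `cnt_size`, `ξ ≤ 1`).
-/

open scoped Classical

noncomputable section

namespace Pool.Agent.Lib.TriD

variable {V : Type} [Fintype V]

private theorem sum_bd (F : V → ℝ) (Z : Finset V) (B : ℝ) (h1 : ∀ z, F z ≠ 0 → z ∈ Z)
    (h2 : ∀ z, |F z| ≤ B) : |∑ z, F z| ≤ Z.card * B := by
  have h3 : ∑ z, F z = ∑ z ∈ Z, F z := by
    symm
    apply Finset.sum_subset (Finset.subset_univ Z)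
    intro z _ hz
    by_contra hne
    exact hz (h1 z hne)
  rw [h3]
  calc |∑ z ∈ Z, F z| ≤ ∑ z ∈ Z, |F z| := Finset.abs_sum_le_sum_abs _ _
    _ ≤ ∑ _z ∈ Z, B := Finset.sum_le_sum fun z _ => h2 z
    _ = Z.card * B := by rw [Finset.sum_const, nsmul_eq_mul]

private theorem sum_eq (F : V → ℝ) (Z : Finset V) (w : ℝ) (hZ : (Z.card : ℝ) ≠ 0)
    (h : ∀ z, F z = if z ∈ Z then w / Z.card else 0) : ∑ z, F z = w := by
  rw [Finset.sum_congr rfl fun z _ => h z, Finset.sum_ite_mem, Finset.univ_inter,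
    Finset.sum_const, nsmul_eq_mul]
  field_simp

/-- The common neighbours in part `j` of `A0 \ A1`. -/
private def Ts (p : V → Fin 3) (H : SimpleGraph V) (A0 A1 : Finset V) (j : Fin 3) (u v : V) :
    Finset V :=
  (cls p (A0 \ A1) j).filter (fun z => H.Adj u z ∧ H.Adj v z)

private theorem mem_Ts {p : V → Fin 3} {H : SimpleGraph V} {A0 A1 : Finset V} {j : Fin 3}
    {u v z : V} : z ∈ Ts p H A0 A1 j u v ↔
      z ∈ A0 ∧ z ∉ A1 ∧ p z = j ∧ H.Adj u z ∧ H.Adj v z := by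
  simp only [Ts, cls, Finset.mem_filter, Finset.mem_sdiff]
  tauto

private theorem T_low {p : V → Fin 3} {G H : SimpleGraph V} {c K s ξ δ : ℝ}
    {A0 A1 A2 A3 : Finset V}
    (hG : Host p G c K) (hL : Level p G H s ξ δ A0 A1 A2 A3) (hc : 0 < c) (hc1 : c < 1)
    (hξ : 0 ≤ ξ) (hδ : 0 ≤ δ) (hsm : 2 * ξ + 12 * δ ≤ c ^ 3 / 16)
    {u v : V} (h : H.Adj u v) {j : Fin 3} (hju : j ≠ p u) (hjv : j ≠ p v) :
    c * s / 2 ≤ ((Ts p H A0 A1 j u v).card : ℝ) := by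
  obtain ⟨k, hk1, hk2⟩ := hG.cod
  have h1 := (cnt_tri hG hL k hk2 h hju hjv).1
  have hs := hL.s0
  have hn : (0 : ℝ) < Fintype.card V := lt_of_lt_of_le hs hL.s1
  have h2 : c * s ≤ s / Fintype.card V * k := by
    rw [div_mul_eq_mul_div, le_div_iff₀ hn]
    nlinarith [mul_le_mul_of_nonneg_left hk1 hs.le]
  have h3 : c ^ 3 ≤ c := by
    have h4 : c ^ 3 = c * (c * c) := by ring
    have h5 : c * c ≤ 1 := by nlinarith
    rw [h4]
    nlinarith
  have h6 := (abs_le.1 h1).1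
  have h7 : (2 * ξ + 6 * δ) * s ≤ c / 16 * s := by
    apply mul_le_mul_of_nonneg_right _ hs.le
    linarith
  show c * s / 2 ≤ (((cls p (A0 \ A1) j).filter (fun z => H.Adj u z ∧ H.Adj v z)).card : ℝ)
  nlinarith

theorem phU {p : V → Fin 3} {G H : SimpleGraph V} {c K s ξ δ : ℝ} {A0 A1 A2 A3 : Finset V}
    (hG : Host p G c K) (hL : Level p G H s ξ δ A0 A1 A2 A3) (hc : 0 < c) (hc1 : c < 1)
    (hξ : 0 ≤ ξ) (hδ : 0 ≤ δ) (hsm : 2 * ξ + 12 * δ ≤ c ^ 3 / 16)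
    (f01 f02 f12 : V → V → ℝ) (M : ℝ) (hM : 0 ≤ M)
    (h01 : ∀ x y, Inner H A1 A2 x y → |f01 x y| ≤ M)
    (h02 : ∀ x b, Inner H A1 A2 x b → |f02 x b| ≤ M)
    (h12 : ∀ y b, Inner H A1 A2 y b → |f12 y b| ≤ M) :
    ∃ ψ : V → V → V → ℝ,
      (∀ x y b, ψ x y b ≠ 0 → Allow p H A1 A2 x y b ∧ ¬ Two p H A1 x y b) ∧
      (∀ x y b, |ψ x y b| ≤ 2 * M / (c * s)) ∧
      (∀ x y, p x = 0 → p y = 1 → Inner H A1 A2 x y → ∑ b, ψ x y b = f01 x y) ∧
      (∀ x b, p x = 0 → p b = 2 → Inner H A1 A2 x b → ∑ y, ψ x y b = f02 x b) ∧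
      (∀ y b, p y = 1 → p b = 2 → Inner H A1 A2 y b → ∑ x, ψ x y b = f12 y b) ∧
      (∀ x y, |∑ b, ψ x y b| ≤ 4 * M / c) ∧ (∀ x b, |∑ y, ψ x y b| ≤ 4 * M / c) ∧
      (∀ y b, |∑ x, ψ x y b| ≤ 4 * M / c) := by
  have hs := hL.s0
  have hcs : 0 < c * s := mul_pos hc hs
  have hsub21 := hL.sub2
  have hT : ∀ {u v : V}, H.Adj u v → ∀ {j : Fin 3}, j ≠ p u → j ≠ p v →
      c * s / 2 ≤ ((Ts p H A0 A1 j u v).card : ℝ) := fun h _ hju hjv =>
    T_low hG hL hc hc1 hξ hδ hsm h hju hjv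
  have hB : 0 ≤ 2 * M / (c * s) := by positivity
  -- the bound of one summand
  have hdiv : ∀ {u v : V} {j : Fin 3} {f : ℝ}, H.Adj u v → j ≠ p u → j ≠ p v → |f| ≤ M →
      |f / (Ts p H A0 A1 j u v).card| ≤ 2 * M / (c * s) := by
    intro u v j f h hju hjv hf
    have h1 := hT h hju hjv
    have h2 : (0 : ℝ) < (Ts p H A0 A1 j u v).card := lt_of_lt_of_le (by positivity) h1
    rw [abs_div, abs_of_pos h2, div_le_div_iff₀ h2 hcs]
    calc |f| * (c * s) ≤ M * (c * s) := mul_le_mul_of_nonneg_right hf hcs.le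
      _ = 2 * M * (c * s / 2) := by ring
      _ ≤ 2 * M * (Ts p H A0 A1 j u v).card := mul_le_mul_of_nonneg_left h1 (by positivity)
  let ψ : V → V → V → ℝ := fun x y b =>
    if Allow p H A1 A2 x y b then
      (if x ∈ A1 ∧ y ∈ A1 then f01 x y / (Ts p H A0 A1 2 x y).card
        else if x ∈ A1 ∧ b ∈ A1 then f02 x b / (Ts p H A0 A1 1 x b).card
        else if y ∈ A1 ∧ b ∈ A1 then f12 y b / (Ts p H A0 A1 0 y b).card else 0)
    else 0
  have hψA : ∀ x y b, ψ x y b ≠ 0 → Allow p H A1 A2 x y b := by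
    intro x y b h
    by_contra hA
    exact h (if_neg hA)
  have hψ2 : ∀ x y b, |ψ x y b| ≤ 2 * M / (c * s) := by
    intro x y b
    by_cases hA : Allow p H A1 A2 x y b
    · obtain ⟨⟨hx, hy, hb, hxy, hxb, hyb⟩, hn1, hn2, hn3, hn4⟩ := hA
      have e : ψ x y b = (if x ∈ A1 ∧ y ∈ A1 then f01 x y / (Ts p H A0 A1 2 x y).card
        else if x ∈ A1 ∧ b ∈ A1 then f02 x b / (Ts p H A0 A1 1 x b).card
        else if y ∈ A1 ∧ b ∈ A1 then f12 y b / (Ts p H A0 A1 0 y b).card else 0) :=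
        if_pos ⟨⟨hx, hy, hb, hxy, hxb, hyb⟩, hn1, hn2, hn3, hn4⟩
      rw [e]
      split_ifs with h1 h2 h3
      · exact hdiv hxy (by rw [hx]; decide) (by rw [hy]; decide) (h01 x y ⟨hxy, h1, hn2⟩)
      · exact hdiv hxb (by rw [hx]; decide) (by rw [hb]; decide) (h02 x b ⟨hxb, h2, hn3⟩)
      · exact hdiv hyb (by rw [hy]; decide) (by rw [hb]; decide) (h12 y b ⟨hyb, h3, hn4⟩)
      · simpa using hB
    · have e : ψ x y b = 0 := if_neg hA
      rw [e]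
      simpa using hB
  have hξ1 : ξ ≤ 1 := by
    have : c ^ 3 ≤ 1 := pow_le_one₀ hc.le hc1.le
    linarith
  have hfin : ∀ j : Fin 3, ((cls p A0 j).card : ℝ) * (2 * M / (c * s)) ≤ 4 * M / c := by
    intro j
    have h1 := (cnt_size hG hL j).1
    have h2 : ((cls p A0 j).card : ℝ) ≤ 2 * s := by nlinarith
    calc ((cls p A0 j).card : ℝ) * (2 * M / (c * s)) ≤ 2 * s * (2 * M / (c * s)) :=
          mul_le_mul_of_nonneg_right h2 hB
      _ = 4 * M / c := by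
          field_simp
          ring
  refine ⟨ψ, ?_, hψ2, ?_, ?_, ?_, ?_, ?_, ?_⟩
  · intro x y b h
    have hA := hψA x y b h
    refine ⟨hA, fun h2 => h ?_⟩
    obtain ⟨_, h3, h4, h5⟩ := h2
    have e : ψ x y b = (if x ∈ A1 ∧ y ∈ A1 then f01 x y / (Ts p H A0 A1 2 x y).card
        else if x ∈ A1 ∧ b ∈ A1 then f02 x b / (Ts p H A0 A1 1 x b).card
        else if y ∈ A1 ∧ b ∈ A1 then f12 y b / (Ts p H A0 A1 0 y b).card else 0) := if_pos hA
    rw [e, if_neg h3, if_neg h4, if_neg h5]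
  · intro x y hx hy hI
    obtain ⟨hxy, hA1, hA2⟩ := hI
    have h1 := hT hxy (j := 2) (by rw [hx]; decide) (by rw [hy]; decide)
    refine sum_eq _ (Ts p H A0 A1 2 x y) _ (ne_of_gt (lt_of_lt_of_le (by positivity) h1)) ?_
    intro b
    by_cases hb : b ∈ Ts p H A0 A1 2 x y
    · obtain ⟨hb0, hb1, hb2, hb3, hb4⟩ := mem_Ts.1 hb
      have hbA2 : b ∉ A2 := fun h => hb1 (hsub21 h)
      have hA : Allow p H A1 A2 x y b := ⟨⟨hx, hy, hb2, hxy, hb3, hb4⟩, fun h => hb1 h.2.2, hA2,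
        fun h => hbA2 h.2, fun h => hbA2 h.2⟩
      rw [if_pos hb]
      show (if Allow p H A1 A2 x y b then _ else _) = _
      rw [if_pos hA, if_pos hA1]
    · rw [if_neg hb]
      show (if Allow p H A1 A2 x y b then _ else _) = _
      rw [if_neg]
      intro hA
      obtain ⟨⟨_, _, hb2, _, hxb, hyb⟩, hn1, _, _, _⟩ := hA
      exact hb (mem_Ts.2 ⟨hL.supp b x hxb.symm, fun h => hn1 ⟨hA1.1, hA1.2, h⟩, hb2, hxb, hyb⟩)
  · intro x b hx hb hI
    obtain ⟨hxb, hA1, hA2⟩ := hI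
    have h1 := hT hxb (j := 1) (by rw [hx]; decide) (by rw [hb]; decide)
    refine sum_eq _ (Ts p H A0 A1 1 x b) _ (ne_of_gt (lt_of_lt_of_le (by positivity) h1)) ?_
    intro y
    by_cases hy : y ∈ Ts p H A0 A1 1 x b
    · obtain ⟨hy0, hy1, hy2, hy3, hy4⟩ := mem_Ts.1 hy
      have hyA2 : y ∉ A2 := fun h => hy1 (hsub21 h)
      have hA : Allow p H A1 A2 x y b := ⟨⟨hx, hy2, hb, hy3, hxb, hy4.symm⟩,
        fun h => hy1 h.2.1, fun h => hyA2 h.2, hA2, fun h => hyA2 h.1⟩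
      rw [if_pos hy]
      show (if Allow p H A1 A2 x y b then _ else _) = _
      rw [if_pos hA, if_neg (fun h => hy1 h.2), if_pos hA1]
    · rw [if_neg hy]
      show (if Allow p H A1 A2 x y b then _ else _) = _
      rw [if_neg]
      intro hA
      obtain ⟨⟨_, hy2, _, hxy, _, hyb⟩, hn1, _, _, _⟩ := hA
      exact hy (mem_Ts.2 ⟨hL.supp y x hxy.symm, fun h => hn1 ⟨hA1.1, h, hA1.2⟩, hy2, hxy,
        hyb.symm⟩)
  · intro y b hy hb hI
    obtain ⟨hyb, hA1, hA2⟩ := hI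
    have h1 := hT hyb (j := 0) (by rw [hy]; decide) (by rw [hb]; decide)
    refine sum_eq _ (Ts p H A0 A1 0 y b) _ (ne_of_gt (lt_of_lt_of_le (by positivity) h1)) ?_
    intro x
    by_cases hx : x ∈ Ts p H A0 A1 0 y b
    · obtain ⟨hx0, hx1, hx2, hx3, hx4⟩ := mem_Ts.1 hx
      have hxA2 : x ∉ A2 := fun h => hx1 (hsub21 h)
      have hA : Allow p H A1 A2 x y b := ⟨⟨hx2, hy, hb, hx3.symm, hx4.symm, hyb⟩,
        fun h => hx1 h.1, fun h => hxA2 h.1, fun h => hxA2 h.1, hA2⟩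
      rw [if_pos hx]
      show (if Allow p H A1 A2 x y b then _ else _) = _
      rw [if_pos hA, if_neg (fun h => hx1 h.1), if_neg (fun h => hx1 h.1), if_pos hA1]
    · rw [if_neg hx]
      show (if Allow p H A1 A2 x y b then _ else _) = _
      rw [if_neg]
      intro hA
      obtain ⟨⟨hx2, _, _, hxy, hxb, _⟩, hn1, _, _, _⟩ := hA
      exact hx (mem_Ts.2 ⟨hL.supp x y hxy, fun h => hn1 ⟨h, hA1.1, hA1.2⟩, hx2, hxy.symm,
        hxb.symm⟩)
  · intro x y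
    refine (sum_bd _ (cls p A0 2) _ ?_ (fun b => hψ2 x y b)).trans (hfin 2)
    intro b hb
    have hA := (hψA x y b hb).1
    exact Finset.mem_filter.2 ⟨hL.supp b x hA.2.2.2.2.1.symm, hA.2.2.1⟩
  · intro x b
    refine (sum_bd _ (cls p A0 1) _ ?_ (fun y => hψ2 x y b)).trans (hfin 1)
    intro y hy
    have hA := (hψA x y b hy).1
    exact Finset.mem_filter.2 ⟨hL.supp y x hA.2.2.2.1.symm, hA.2.1⟩
  · intro y b
    refine (sum_bd _ (cls p A0 0) _ ?_ (fun x => hψ2 x y b)).trans (hfin 0)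
    intro x hx
    have hA := (hψA x y b hx).1
    exact Finset.mem_filter.2 ⟨hL.supp x y hA.2.2.2.1, hA.1⟩

end Pool.Agent.Lib.TriD
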