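import Pool.Agent.Lib.TriD.Base
import Pool.Agent.Lib.TriD.Bal
import Pool.Agent.Lib.TriD.PhU
import Pool.Agent.Lib.TriD.PhAB
import Pool.Agent.Lib.TriD.PhC

set_option autoImplicit false

/-!
MODULE Frac (about 350 lines). The fractional lemma: exact weights.

PROOF. `q = s / n * k` (`c s ≤ q ≤ s`: `k ≤ n` because `k` is the size of a set of vertices, if `G` has an edge; `G` has an edge
by `Host.size`, `Host.cells`). `ω0 x y b = if Tri p H x y b then bw q δ A1 A2 x y b else 0`.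
Demands `d01 = dem 0 1`, `d02 = dem 0 2 + ν02`, `d12 = dem 1 2 + ν12` (`balance`), `f01 x y = d01 x y - ∑ b, ω0 x y b`, `f02`, `f12`
similarly. All three satisfy the balance equations (E): `∑ y, f01 x y = ∑ b, f02 x b`, `∑ x, f01 x y = ∑ b, f12 y b`,
`∑ x, f02 x b = ∑ y, f12 y b` (they hold for the demands by `balance` and for the sums of any `ψ : V → V → V → ℝ` by
exchanging sums). By `base_sum` (`bw_comm12`, `bw_comm23` bring the summation variable to the third place):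
`|f| ≤ m1 := (24/c)(ξ + δ)` on outer edges and `|f| ≤ m2 := 60000 ξ / c^7 + (24/c) δ (ξ + δ)` on inner edges; `f = 0` on all other
pairs (non-edges; edges inside `A2`, where `dem = 0` and `bw = 0` because `cntA A2 ≥ 2`).
`phU` with `M = m2`: `ψU`, `|ψU| ≤ 2 m2 / (c s)`; `f' = f - ∂ψU` is zero on inner edges and on non-edges, `|f'| ≤ m1 + 4 m2 / c =: m3` on
outer edges. (`ψU` vanishes on triangles that are not allowed, so `∂ψU` is zero on edges inside `A2` and on non-edges.)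
`phA` for `f'02` (`M = m3`): `ψA`; `f'' = f' - ∂ψA`: `f''02 = 0`, `|f''| ≤ m3 + 4 m3 / c ≤ 5 m3 / c =: m4`, zero off outer edges.
`phB` for `g = f''12` (`M = m4`; (E) gives `∑ y, f''12 y b = ∑ x, f''02 x b = 0`): `ψB`; `f''' = f'' - ∂ψB`: `f'''12 = 0`, `f'''02 = 0`
(`∑ y, ψB = 0`), `|f'''01| ≤ m4 + 64 m4 / c^3 ≤ 65 m4 / c^3 =: m5`, zero row and column sums by (E).
`phC` for `f'''01` (`M = m5`): `ψC`. `ω = ω0 + ψU + ψA + ψB + ψC` has the exact edge sums `d`.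
Bounds (with `m2 ≤ 0.07 c^2 δ`, `m3 ≤ 26 δ / c`, `m4 ≤ 130 δ / c^2`, `m5 ≤ 8450 δ / c^5`): on `Two` triangles the corrections are at
most `1 / (4 s)`; on allowed triangles that are not `Two` only `ψU` is nonzero. Inner sums: `δ + ν ≤ 1.1 δ`.
-/

open scoped Classical

noncomputable section

namespace Pool.Agent.Lib.TriD

variable {V : Type} [Fintype V]

/-- Exact weights: result of the fractional lemma. -/
structure FracW (p : V → Fin 3) (H : SimpleGraph V) (A1 A2 : Finset V) (c s δ : ℝ)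
    (ω : V → V → V → ℝ) : Prop where
  supp : ∀ x y b, ω x y b ≠ 0 → Allow p H A1 A2 x y b
  lb : ∀ x y b, Allow p H A1 A2 x y b → δ / (2 * s) ≤ ω x y b
  ub : ∀ x y b, ω x y b ≤ 5 / (c * s)
  o01 : ∀ x y, p x = 0 → p y = 1 → Outer H A1 x y → ∑ b, ω x y b = 1
  o02 : ∀ x b, p x = 0 → p b = 2 → Outer H A1 x b → ∑ y, ω x y b = 1
  o12 : ∀ y b, p y = 1 → p b = 2 → Outer H A1 y b → ∑ x, ω x y b = 1
  i01 : ∀ x y, x ∈ A1 → y ∈ A1 → ∑ b, ω x y b ≤ 11 / 10 * δ
  i02 : ∀ x b, x ∈ A1 → b ∈ A1 → ∑ y, ω x y b ≤ 11 / 10 * δ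
  i12 : ∀ y b, y ∈ A1 → b ∈ A1 → ∑ x, ω x y b ≤ 11 / 10 * δ

/-! ### Numbers -/

section Num

variable {c ξ δ s K : ℝ}

private theorem powle (hc : 0 < c) (hc1 : c < 1) {a b : ℕ} (h : a ≤ b) : c ^ b ≤ c ^ a :=
  pow_le_pow_of_le_one hc.le hc1.le h

private theorem d_le (hc : 0 < c) (hc1 : c < 1) (hδ1 : δ ≤ c ^ 11 / 10 ^ 9) {a : ℕ} (h : a ≤ 11) :
    δ ≤ c ^ a / 10 ^ 9 :=
  hδ1.trans (div_le_div_of_nonneg_right (powle hc hc1 h) (by norm_num))

private theorem d_small (hc : 0 < c) (hc1 : c < 1) (hδ1 : δ ≤ c ^ 11 / 10 ^ 9) :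
    δ ≤ 1 / 10 ^ 9 := by
  have := d_le hc hc1 hδ1 (a := 0) (by norm_num)
  simpa using this

private theorem x_le (hc : 0 < c) (hc1 : c < 1) (hδ : 0 < δ)
    (hξ1 : ξ ≤ c ^ 9 * δ / 10 ^ 6) : ξ ≤ δ / 10 ^ 6 := by
  refine hξ1.trans (div_le_div_of_nonneg_right ?_ (by norm_num))
  have : c ^ 9 ≤ 1 := pow_le_one₀ hc.le hc1.le
  nlinarith

private theorem hsm_of (hc : 0 < c) (hc1 : c < 1) (hδ : 0 < δ) (hδ1 : δ ≤ c ^ 11 / 10 ^ 9)
    (hξ1 : ξ ≤ c ^ 9 * δ / 10 ^ 6) : 2 * ξ + 12 * δ ≤ c ^ 3 / 16 := by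
  have h1 := d_le hc hc1 hδ1 (a := 3) (by norm_num)
  have h2 := x_le hc hc1 hδ hξ1
  have h3 : 0 < c ^ 3 := by positivity
  norm_num at h1 h2
  linarith

private theorem K_le (hc : 0 < c) (hs : 10 ^ 4 * K / c ^ 7 ≤ s) : 10 ^ 4 * K ≤ c ^ 7 * s := by
  rw [div_le_iff₀ (by positivity)] at hs
  linarith

private theorem hs_of (hc : 0 < c) (hc1 : c < 1) (hK : 0 ≤ K) (hs : 10 ^ 4 * K / c ^ 7 ≤ s)
    (hs0 : 0 < s) : 128 * K / c ^ 4 ≤ s := by
  have h := K_le hc hs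
  rw [div_le_iff₀ (by positivity)]
  have h2 : c ^ 7 * s ≤ c ^ 4 * s := mul_le_mul_of_nonneg_right (powle hc hc1 (by norm_num)) hs0.le
  linarith

private theorem hθ_of (hc : 0 < c) (hc1 : c < 1) (hδ1 : δ ≤ c ^ 11 / 10 ^ 9)
    (hs : 10 ^ 4 * K / c ^ 7 ≤ s) (hs0 : 0 < s) :
    36 * δ + 4 * K / (c ^ 3 * s) ≤ c ^ 4 / 700 := by
  have h1 := d_le hc hc1 hδ1 (a := 4) (by norm_num)
  have h := K_le hc hs
  have h2 : 4 * K / (c ^ 3 * s) ≤ c ^ 4 / 2500 := by
    rw [div_le_div_iff₀ (by positivity) (by norm_num)]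
    have e : c ^ 4 * (c ^ 3 * s) = c ^ 7 * s := by ring
    rw [e]
    linarith
  have h3 : 0 < c ^ 4 := by positivity
  norm_num at h1
  linarith

private theorem nu_le (hc : 0 < c) (hξ1 : ξ ≤ c ^ 9 * δ / 10 ^ 6) :
    60000 * ξ / c ^ 7 ≤ 6 / 100 * c ^ 2 * δ := by
  rw [div_le_iff₀ (by positivity)]
  have e : 6 / 100 * c ^ 2 * δ * c ^ 7 = 60000 * (c ^ 9 * δ / 10 ^ 6) := by ring
  rw [e]
  linarith

private theorem m2_le (hc : 0 < c) (hc1 : c < 1) (hδ : 0 < δ) (hδ1 : δ ≤ c ^ 11 / 10 ^ 9)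
    (hξ1 : ξ ≤ c ^ 9 * δ / 10 ^ 6) :
    60000 * ξ / c ^ 7 + 24 / c * δ * (ξ + δ) ≤ 7 / 100 * c ^ 2 * δ := by
  have h1 := nu_le hc hξ1
  have h2 := x_le hc hc1 hδ hξ1
  have h3 : 24 / c * δ * (ξ + δ) ≤ 1 / 100 * c ^ 2 * δ := by
    have h4 : ξ + δ ≤ 2 * δ := by norm_num at h2; linarith
    have h5 : 24 / c * δ * (ξ + δ) ≤ 24 / c * δ * (2 * δ) :=
      mul_le_mul_of_nonneg_left h4 (by positivity)
    refine h5.trans ?_
    have h6 : δ ≤ c ^ 3 / 10 ^ 9 := d_le hc hc1 hδ1 (by norm_num)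
    have e : 24 / c * δ * (2 * δ) = (48 * δ) * δ / c := by ring
    rw [e, div_le_iff₀ hc]
    have e2 : 1 / 100 * c ^ 2 * δ * c = (1 / 100 * c ^ 3) * δ := by ring
    rw [e2]
    refine mul_le_mul_of_nonneg_right ?_ hδ.le
    have : 0 < c ^ 3 := by positivity
    norm_num at h6
    linarith
  linarith

private theorem m1_le (hc : 0 < c) (hc1 : c < 1) (hδ : 0 < δ)
    (hξ1 : ξ ≤ c ^ 9 * δ / 10 ^ 6) : 24 / c * (ξ + δ) ≤ 25 * δ / c := by
  have h2 := x_le hc hc1 hδ hξ1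
  have e : 24 / c * (ξ + δ) = 24 * (ξ + δ) / c := by ring
  rw [e]
  refine div_le_div_of_nonneg_right ?_ hc.le
  norm_num at h2
  linarith

private theorem m3_le (hc : 0 < c) (hc1 : c < 1) (hδ : 0 < δ) :
    25 * δ / c + 4 * (7 / 100 * c ^ 2 * δ) / c ≤ 26 * δ / c := by
  rw [← add_div]
  refine div_le_div_of_nonneg_right ?_ hc.le
  have : c ^ 2 * δ ≤ 1 * δ := mul_le_mul_of_nonneg_right (pow_le_one₀ hc.le hc1.le) hδ.le
  nlinarith

private theorem m4_le (hc : 0 < c) (hc1 : c < 1) (hδ : 0 < δ) :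
    26 * δ / c + 4 * (26 * δ / c) / c ≤ 130 * δ / c ^ 2 := by
  have e : 26 * δ / c + 4 * (26 * δ / c) / c = (26 * δ * c + 104 * δ) / c ^ 2 := by
    field_simp
    ring
  rw [e]
  refine div_le_div_of_nonneg_right ?_ (by positivity)
  nlinarith

private theorem m5_le (hc : 0 < c) (hc1 : c < 1) (hδ : 0 < δ) :
    130 * δ / c ^ 2 + 64 * (130 * δ / c ^ 2) / c ^ 3 ≤ 8450 * δ / c ^ 5 := by
  have e : 130 * δ / c ^ 2 + 64 * (130 * δ / c ^ 2) / c ^ 3 =
      (130 * δ * c ^ 3 + 8320 * δ) / c ^ 5 := by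
    field_simp
    ring
  rw [e]
  refine div_le_div_of_nonneg_right ?_ (by positivity)
  have : δ * c ^ 3 ≤ δ * 1 := mul_le_mul_of_nonneg_left (pow_le_one₀ hc.le hc1.le) hδ.le
  linarith

private theorem corr_le (hc : 0 < c) (hc1 : c < 1) (hδ1 : δ ≤ c ^ 11 / 10 ^ 9)
    (hs0 : 0 < s) :
    2 * (26 * δ / c) / (c * s) + 32 * (130 * δ / c ^ 2) / (c ^ 3 * s) +
      1600 * (8450 * δ / c ^ 5) / (c ^ 5 * s) ≤ 1 / (4 * s) := by
  have h2 := d_le hc hc1 hδ1 (a := 2) (by norm_num)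
  have h5 := d_le hc hc1 hδ1 (a := 5) (by norm_num)
  have h10 := d_le hc hc1 hδ1 (a := 10) (by norm_num)
  have a2 : δ / c ^ 2 ≤ 1 / 10 ^ 9 := by
    rw [div_le_iff₀ (by positivity)]; linarith
  have a5 : δ / c ^ 5 ≤ 1 / 10 ^ 9 := by
    rw [div_le_iff₀ (by positivity)]; linarith
  have a10 : δ / c ^ 10 ≤ 1 / 10 ^ 9 := by
    rw [div_le_iff₀ (by positivity)]; linarith
  have e : 2 * (26 * δ / c) / (c * s) + 32 * (130 * δ / c ^ 2) / (c ^ 3 * s) +
      1600 * (8450 * δ / c ^ 5) / (c ^ 5 * s) =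
      (52 * (δ / c ^ 2) + 4160 * (δ / c ^ 5) + 13520000 * (δ / c ^ 10)) / s := by
    field_simp
    ring
  have e2 : 1 / (4 * s) = (1 / 4) / s := by
    field_simp
  rw [e, e2]
  refine div_le_div_of_nonneg_right ?_ hs0.le
  norm_num at a2 a5 a10
  linarith

private theorem corrU_le (hc : 0 < c) (hc1 : c < 1) (hδ : 0 < δ) (hs0 : 0 < s) :
    2 * (7 / 100 * c ^ 2 * δ) / (c * s) ≤ δ / (2 * s) := by
  have e : 2 * (7 / 100 * c ^ 2 * δ) / (c * s) = (7 / 50 * c * δ) / s := by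
    field_simp
    ring
  have e2 : δ / (2 * s) = (δ / 2) / s := by
    field_simp
  rw [e, e2]
  refine div_le_div_of_nonneg_right ?_ hs0.le
  nlinarith

end Num

/-! ### The main proof -/

private theorem ite_c {P Q : Prop} [Decidable P] [Decidable Q] {a b : ℝ} (h : P ↔ Q)
    (hab : a = b) : (if P then a else 0) = if Q then b else 0 := by
  by_cases hP : P
  · rw [if_pos hP, if_pos (h.1 hP), hab]
  · rw [if_neg hP, if_neg (fun hQ => hP (h.2 hQ))]

section Main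

variable {p : V → Fin 3} {G H : SimpleGraph V} {c K s ξ δ q : ℝ} {A0 A1 A2 A3 : Finset V}

omit [Fintype V] in
private theorem bw_zero_of_A2 {u v z : V} (hu : u ∈ A2) (hv : v ∈ A2) :
    bw q δ A1 A2 u v z = 0 := by
  have h : 2 ≤ cntA A2 u v z := by
    unfold cntA
    simp [hu, hv]
  simp [bw, h]

omit [Fintype V] in
private theorem allow_of_bw {x y b : V} (ht : Tri p H x y b) (h : bw q δ A1 A2 x y b ≠ 0) :
    Allow p H A1 A2 x y b := by
  have h1 : ¬ (2 ≤ cntA A2 x y b ∨ cntA A1 x y b = 3) := by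
    intro h2
    exact h (by simp [bw, h2])
  refine ⟨ht, ?_, ?_, ?_, ?_⟩
  · rintro ⟨a, b', c'⟩
    exact h1 (Or.inr (by simp [cntA, a, b', c']))
  · rintro ⟨a, b'⟩
    exact h1 (Or.inl (by unfold cntA; simp [a, b']))
  · rintro ⟨a, b'⟩
    refine h1 (Or.inl ?_)
    unfold cntA
    simp only [a, b', if_true]
    omega
  · rintro ⟨a, b'⟩
    refine h1 (Or.inl ?_)
    unfold cntA
    simp only [a, b', if_true]
    omega

omit [Fintype V] in
private theorem allow_of_two (hsub : A2 ⊆ A1) {x y b : V} (h : Two p H A1 x y b) :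
    Allow p H A1 A2 x y b := by
  obtain ⟨ht, h1, h2, h3⟩ := h
  exact ⟨ht, fun h => h1 ⟨h.1, h.2.1⟩, fun h => h1 ⟨hsub h.1, hsub h.2⟩,
    fun h => h2 ⟨hsub h.1, hsub h.2⟩, fun h => h3 ⟨hsub h.1, hsub h.2⟩⟩

/-- Values of the defects on one pair. -/
private theorem pair_bd (hG : Host p G c K) (hL : Level p G H s ξ δ A0 A1 A2 A3) (hc : 0 < c)
    (hξ : 0 ≤ ξ) (hδ : 0 ≤ δ) (hδ1 : δ ≤ 1) (k : ℕ) (hk0 : c * Fintype.card V ≤ k)
    (hk : ∀ u v, G.Adj u v → ∀ j, j ≠ p u → j ≠ p v → (nbr p G j {u, v}).card = k)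
    (i j l : Fin 3) (hil : l ≠ i) (hjl : l ≠ j) (ν : V → V → ℝ) (B : ℝ)
    (hν : ∀ u v, ν u v ≠ 0 → p u = i ∧ p v = j ∧ Inner H A1 A2 u v)
    (hνB : ∀ u v, |ν u v| ≤ B) (u v : V) (S : ℝ)
    (hS : S = ∑ z, if (p u = i ∧ p v = j ∧ H.Adj u v) ∧ (p z = l ∧ H.Adj u z ∧ H.Adj v z) then
      bw (s / Fintype.card V * k) δ A1 A2 u v z else 0) :
    ((p u = i ∧ p v = j ∧ Outer H A1 u v) →
      |dem p H A1 A2 δ i j u v + ν u v - S| ≤ 24 / c * (ξ + δ)) ∧
    ((p u = i ∧ p v = j ∧ Inner H A1 A2 u v) →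
      |dem p H A1 A2 δ i j u v + ν u v - S| ≤ B + 24 / c * δ * (ξ + δ)) ∧
    (¬ (p u = i ∧ p v = j ∧ (Outer H A1 u v ∨ Inner H A1 A2 u v)) →
      dem p H A1 A2 δ i j u v + ν u v - S = 0) := by
  have hS2 : p u = i → p v = j → H.Adj u v →
      S = ∑ z ∈ Finset.univ.filter (fun z => p z = l ∧ H.Adj u z ∧ H.Adj v z),
        bw (s / Fintype.card V * k) δ A1 A2 u v z := by
    intro h1 h2 h3
    rw [hS, Finset.sum_filter]
    refine Finset.sum_congr rfl fun z _ => ?_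
    simp [h1, h2, h3]
  refine ⟨?_, ?_, ?_⟩
  · rintro ⟨h1, h2, h3⟩
    have hb := (base_sum hG hL hc hξ hδ hδ1 k hk0 hk (u := u) (v := v) (j := l)
      (by rw [h1]; exact hil) (by rw [h2]; exact hjl)).1 h3
    rw [← hS2 h1 h2 h3.1] at hb
    have hd : dem p H A1 A2 δ i j u v = 1 := by
      unfold dem
      rw [if_pos ⟨h1, h2, h3.1⟩, if_neg h3.2]
    have hn : ν u v = 0 := by
      by_contra hne
      exact h3.2 (hν u v hne).2.2.2.1
    rw [hd, hn, abs_sub_comm]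
    simpa using hb
  · rintro ⟨h1, h2, h3⟩
    have hb := (base_sum hG hL hc hξ hδ hδ1 k hk0 hk (u := u) (v := v) (j := l)
      (by rw [h1]; exact hil) (by rw [h2]; exact hjl)).2 h3
    rw [← hS2 h1 h2 h3.1] at hb
    have hd : dem p H A1 A2 δ i j u v = δ := by
      unfold dem
      rw [if_pos ⟨h1, h2, h3.1⟩, if_pos h3.2.1, if_neg h3.2.2]
    rw [hd]
    have e : δ + ν u v - S = ν u v - (S - δ) := by ring
    rw [e]
    exact (abs_sub _ _).trans (add_le_add (hνB u v) hb)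
  · intro h
    have hn : ν u v = 0 := by
      by_contra hne
      have := hν u v hne
      exact h ⟨this.1, this.2.1, Or.inr this.2.2⟩
    by_cases hp : p u = i ∧ p v = j ∧ H.Adj u v
    · have h1 : (u ∈ A1 ∧ v ∈ A1) := by
        by_contra h1
        exact h ⟨hp.1, hp.2.1, Or.inl ⟨hp.2.2, h1⟩⟩
      have h2 : (u ∈ A2 ∧ v ∈ A2) := by
        by_contra h2
        exact h ⟨hp.1, hp.2.1, Or.inr ⟨hp.2.2, h1, h2⟩⟩
      have hd : dem p H A1 A2 δ i j u v = 0 := by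
        unfold dem
        rw [if_pos hp, if_pos h1, if_pos h2]
      have hs0 : S = 0 := by
        rw [hS]
        refine Finset.sum_eq_zero fun z _ => ?_
        rw [bw_zero_of_A2 h2.1 h2.2]
        simp
      rw [hd, hn, hs0]
      ring
    · have hd : dem p H A1 A2 δ i j u v = 0 := by
        unfold dem
        rw [if_neg hp]
      have hs0 : S = 0 := by
        rw [hS]
        refine Finset.sum_eq_zero fun z _ => ?_
        rw [if_neg (fun h => hp h.1)]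
      rw [hd, hn, hs0]
      ring


/-- The correction phases, for abstract defects `f01, f02, f12`. -/
private theorem phases (hG : Host p G c K) (hL : Level p G H s ξ δ A0 A1 A2 A3) (hc : 0 < c)
    (hc1 : c < 1) (hK : 0 ≤ K) (hξ : 0 ≤ ξ) (hδ : 0 < δ) (hδ1 : δ ≤ c ^ 11 / 10 ^ 9)
    (hξ1 : ξ ≤ c ^ 9 * δ / 10 ^ 6) (hs : 10 ^ 4 * K / c ^ 7 ≤ s)
    (f01 f02 f12 : V → V → ℝ)
    (e1 : ∀ x, ∑ y, f01 x y = ∑ b, f02 x b) (e2 : ∀ y, ∑ x, f01 x y = ∑ b, f12 y b)
    (e3 : ∀ b, ∑ x, f02 x b = ∑ y, f12 y b)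
    (o01 : ∀ u v, p u = 0 → p v = 1 → Outer H A1 u v → |f01 u v| ≤ 25 * δ / c)
    (o02 : ∀ u v, p u = 0 → p v = 2 → Outer H A1 u v → |f02 u v| ≤ 25 * δ / c)
    (o12 : ∀ u v, p u = 1 → p v = 2 → Outer H A1 u v → |f12 u v| ≤ 25 * δ / c)
    (i01 : ∀ u v, p u = 0 → p v = 1 → Inner H A1 A2 u v → |f01 u v| ≤ 7 / 100 * c ^ 2 * δ)
    (i02 : ∀ u v, p u = 0 → p v = 2 → Inner H A1 A2 u v → |f02 u v| ≤ 7 / 100 * c ^ 2 * δ)
    (i12 : ∀ u v, p u = 1 → p v = 2 → Inner H A1 A2 u v → |f12 u v| ≤ 7 / 100 * c ^ 2 * δ)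
    (z01 : ∀ u v, ¬ (p u = 0 ∧ p v = 1 ∧ (Outer H A1 u v ∨ Inner H A1 A2 u v)) → f01 u v = 0)
    (z02 : ∀ u v, ¬ (p u = 0 ∧ p v = 2 ∧ (Outer H A1 u v ∨ Inner H A1 A2 u v)) → f02 u v = 0)
    (z12 : ∀ u v, ¬ (p u = 1 ∧ p v = 2 ∧ (Outer H A1 u v ∨ Inner H A1 A2 u v)) → f12 u v = 0) :
    ∃ ψ φ : V → V → V → ℝ,
      (∀ x y b, ψ x y b ≠ 0 → Allow p H A1 A2 x y b ∧ ¬ Two p H A1 x y b) ∧
      (∀ x y b, φ x y b ≠ 0 → Two p H A1 x y b) ∧
      (∀ x y b, |ψ x y b| ≤ δ / (2 * s)) ∧ (∀ x y b, |φ x y b| ≤ 1 / (4 * s)) ∧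
      (∀ x y, ∑ b, (ψ x y b + φ x y b) = f01 x y) ∧
      (∀ x b, ∑ y, (ψ x y b + φ x y b) = f02 x b) ∧
      (∀ y b, ∑ x, (ψ x y b + φ x y b) = f12 y b) := by
  have hs0 := hL.s0
  have hsm := hsm_of hc hc1 hδ hδ1 hξ1
  have hθ := hθ_of (K := K) hc hc1 hδ1 hs hs0
  have hM2 : 0 ≤ 7 / 100 * c ^ 2 * δ := by positivity
  have hM3 : 0 ≤ 26 * δ / c := by positivity
  have hM4 : 0 ≤ 130 * δ / c ^ 2 := by positivity
  have hM5 : 0 ≤ 8450 * δ / c ^ 5 := by positivity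
  have hnot : ∀ u v, Inner H A1 A2 u v → ¬ Outer H A1 u v := fun u v h h' => h'.2 h.2.1
  -- phase U
  obtain ⟨ψU, uS, uB, u01, u02, u12, ub01, ub02, ub12⟩ := phU hG hL hc hc1 hξ hδ.le hsm
    f01 f02 f12 (7 / 100 * c ^ 2 * δ) hM2
    (fun x y h => by
      by_cases hp : p x = 0 ∧ p y = 1
      · exact i01 x y hp.1 hp.2 h
      · rw [z01 x y (fun h' => hp ⟨h'.1, h'.2.1⟩)]; simpa using hM2)
    (fun x y h => by
      by_cases hp : p x = 0 ∧ p y = 2
      · exact i02 x y hp.1 hp.2 h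
      · rw [z02 x y (fun h' => hp ⟨h'.1, h'.2.1⟩)]; simpa using hM2)
    (fun x y h => by
      by_cases hp : p x = 1 ∧ p y = 2
      · exact i12 x y hp.1 hp.2 h
      · rw [z12 x y (fun h' => hp ⟨h'.1, h'.2.1⟩)]; simpa using hM2)
  -- an allowed triangle has only outer and inner edges
  have al01 : ∀ x y b, Allow p H A1 A2 x y b →
      p x = 0 ∧ p y = 1 ∧ (Outer H A1 x y ∨ Inner H A1 A2 x y) := by
    intro x y b h
    refine ⟨h.1.1, h.1.2.1, ?_⟩
    by_cases h1 : x ∈ A1 ∧ y ∈ A1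
    · exact Or.inr ⟨h.1.2.2.2.1, h1, h.2.2.1⟩
    · exact Or.inl ⟨h.1.2.2.2.1, h1⟩
  have al02 : ∀ x y b, Allow p H A1 A2 x y b →
      p x = 0 ∧ p b = 2 ∧ (Outer H A1 x b ∨ Inner H A1 A2 x b) := by
    intro x y b h
    refine ⟨h.1.1, h.1.2.2.1, ?_⟩
    by_cases h1 : x ∈ A1 ∧ b ∈ A1
    · exact Or.inr ⟨h.1.2.2.2.2.1, h1, h.2.2.2.1⟩
    · exact Or.inl ⟨h.1.2.2.2.2.1, h1⟩
  have al12 : ∀ x y b, Allow p H A1 A2 x y b →
      p y = 1 ∧ p b = 2 ∧ (Outer H A1 y b ∨ Inner H A1 A2 y b) := by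
    intro x y b h
    refine ⟨h.1.2.1, h.1.2.2.1, ?_⟩
    by_cases h1 : y ∈ A1 ∧ b ∈ A1
    · exact Or.inr ⟨h.1.2.2.2.2.2, h1, h.2.2.2.2⟩
    · exact Or.inl ⟨h.1.2.2.2.2.2, h1⟩
  have tw01 : ∀ x y b, Two p H A1 x y b → p x = 0 ∧ p y = 1 ∧ Outer H A1 x y :=
    fun x y b h => ⟨h.1.1, h.1.2.1, h.1.2.2.2.1, h.2.1⟩
  have tw02 : ∀ x y b, Two p H A1 x y b → p x = 0 ∧ p b = 2 ∧ Outer H A1 x b :=
    fun x y b h => ⟨h.1.1, h.1.2.2.1, h.1.2.2.2.2.1, h.2.2.1⟩
  have tw12 : ∀ x y b, Two p H A1 x y b → p y = 1 ∧ p b = 2 ∧ Outer H A1 y b :=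
    fun x y b h => ⟨h.1.2.1, h.1.2.2.1, h.1.2.2.2.2.2, h.2.2.2⟩
  -- defects after phase U
  set g01 : V → V → ℝ := fun x y => f01 x y - ∑ b, ψU x y b with hg01
  set g02 : V → V → ℝ := fun x b => f02 x b - ∑ y, ψU x y b with hg02
  set g12 : V → V → ℝ := fun y b => f12 y b - ∑ x, ψU x y b with hg12
  have gz01 : ∀ x y, ¬ (p x = 0 ∧ p y = 1 ∧ Outer H A1 x y) → g01 x y = 0 := by
    intro x y h
    by_cases h1 : p x = 0 ∧ p y = 1 ∧ (Outer H A1 x y ∨ Inner H A1 A2 x y)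
    · rcases h1.2.2 with h2 | h2
      · exact absurd ⟨h1.1, h1.2.1, h2⟩ h
      · simp only [hg01]; rw [u01 x y h1.1 h1.2.1 h2, sub_self]
    · have : ∑ b, ψU x y b = 0 := Finset.sum_eq_zero fun b _ => by
        by_contra hne
        exact h1 (al01 x y b (uS x y b hne).1)
      simp only [hg01]; rw [this, z01 x y h1, sub_self]
  have gz02 : ∀ x b, ¬ (p x = 0 ∧ p b = 2 ∧ Outer H A1 x b) → g02 x b = 0 := by
    intro x b h
    by_cases h1 : p x = 0 ∧ p b = 2 ∧ (Outer H A1 x b ∨ Inner H A1 A2 x b)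
    · rcases h1.2.2 with h2 | h2
      · exact absurd ⟨h1.1, h1.2.1, h2⟩ h
      · simp only [hg02]; rw [u02 x b h1.1 h1.2.1 h2, sub_self]
    · have : ∑ y, ψU x y b = 0 := Finset.sum_eq_zero fun y _ => by
        by_contra hne
        exact h1 (al02 x y b (uS x y b hne).1)
      simp only [hg02]; rw [this, z02 x b h1, sub_self]
  have gz12 : ∀ y b, ¬ (p y = 1 ∧ p b = 2 ∧ Outer H A1 y b) → g12 y b = 0 := by
    intro y b h
    by_cases h1 : p y = 1 ∧ p b = 2 ∧ (Outer H A1 y b ∨ Inner H A1 A2 y b)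
    · rcases h1.2.2 with h2 | h2
      · exact absurd ⟨h1.1, h1.2.1, h2⟩ h
      · simp only [hg12]; rw [u12 y b h1.1 h1.2.1 h2, sub_self]
    · have : ∑ x, ψU x y b = 0 := Finset.sum_eq_zero fun x _ => by
        by_contra hne
        exact h1 (al12 x y b (uS x y b hne).1)
      simp only [hg12]; rw [this, z12 y b h1, sub_self]
  have hm3 := m3_le hc hc1 hδ
  have gb01 : ∀ x y, |g01 x y| ≤ 26 * δ / c := by
    intro x y
    by_cases h : p x = 0 ∧ p y = 1 ∧ Outer H A1 x y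
    · exact (abs_sub _ _).trans ((add_le_add (o01 x y h.1 h.2.1 h.2.2) (ub01 x y)).trans hm3)
    · rw [gz01 x y h]; simpa using hM3
  have gb02 : ∀ x y, |g02 x y| ≤ 26 * δ / c := by
    intro x y
    by_cases h : p x = 0 ∧ p y = 2 ∧ Outer H A1 x y
    · exact (abs_sub _ _).trans ((add_le_add (o02 x y h.1 h.2.1 h.2.2) (ub02 x y)).trans hm3)
    · rw [gz02 x y h]; simpa using hM3
  have gb12 : ∀ x y, |g12 x y| ≤ 26 * δ / c := by
    intro x y
    by_cases h : p x = 1 ∧ p y = 2 ∧ Outer H A1 x y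
    · exact (abs_sub _ _).trans ((add_le_add (o12 x y h.1 h.2.1 h.2.2) (ub12 x y)).trans hm3)
    · rw [gz12 x y h]; simpa using hM3
  have ge1 : ∀ x, ∑ y, g01 x y = ∑ b, g02 x b := by
    intro x
    simp only [hg01, hg02, Finset.sum_sub_distrib]
    rw [e1 x, Finset.sum_comm]
  have ge2 : ∀ y, ∑ x, g01 x y = ∑ b, g12 y b := by
    intro y
    simp only [hg01, hg12, Finset.sum_sub_distrib]
    rw [e2 y, Finset.sum_comm]
  have ge3 : ∀ b, ∑ x, g02 x b = ∑ y, g12 y b := by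
    intro b
    simp only [hg02, hg12, Finset.sum_sub_distrib]
    rw [e3 b, Finset.sum_comm]
  -- phase A
  obtain ⟨ψA, aS, aB, a02, ab01, ab12⟩ := phA hG hL hc hc1 hξ hδ.le hsm g02 (26 * δ / c) hM3 gb02
  have aeq : ∀ x b, ∑ y, ψA x y b = g02 x b := by
    intro x b
    by_cases h : p x = 0 ∧ p b = 2 ∧ Outer H A1 x b
    · exact a02 x b h.1 h.2.1 h.2.2
    · rw [gz02 x b h]
      refine Finset.sum_eq_zero fun y _ => ?_
      by_contra hne
      exact h (tw02 x y b (aS x y b hne))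
  set h01 : V → V → ℝ := fun x y => g01 x y - ∑ b, ψA x y b with hh01
  set h12 : V → V → ℝ := fun y b => g12 y b - ∑ x, ψA x y b with hh12
  have hz01 : ∀ x y, ¬ (p x = 0 ∧ p y = 1 ∧ Outer H A1 x y) → h01 x y = 0 := by
    intro x y h
    have : ∑ b, ψA x y b = 0 := Finset.sum_eq_zero fun b _ => by
      by_contra hne
      exact h (tw01 x y b (aS x y b hne))
    simp only [hh01]; rw [this, gz01 x y h, sub_self]
  have hz12 : ∀ y b, ¬ (p y = 1 ∧ p b = 2 ∧ Outer H A1 y b) → h12 y b = 0 := by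
    intro y b h
    have : ∑ x, ψA x y b = 0 := Finset.sum_eq_zero fun x _ => by
      by_contra hne
      exact h (tw12 x y b (aS x y b hne))
    simp only [hh12]; rw [this, gz12 y b h, sub_self]
  have hm4 := m4_le hc hc1 hδ
  have hb01 : ∀ x y, |h01 x y| ≤ 130 * δ / c ^ 2 := fun x y =>
    (abs_sub _ _).trans ((add_le_add (gb01 x y) (ab01 x y)).trans hm4)
  have hb12 : ∀ x y, |h12 x y| ≤ 130 * δ / c ^ 2 := fun x y =>
    (abs_sub _ _).trans ((add_le_add (gb12 x y) (ab12 x y)).trans hm4)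
  have he1 : ∀ x, ∑ y, h01 x y = 0 := by
    intro x
    simp only [hh01, Finset.sum_sub_distrib]
    rw [ge1 x, Finset.sum_comm]
    simp only [aeq, sub_self]
  have he2 : ∀ y, ∑ x, h01 x y = ∑ b, h12 y b := by
    intro y
    simp only [hh01, hh12, Finset.sum_sub_distrib]
    rw [ge2 y, Finset.sum_comm]
  have he3 : ∀ b, ∑ y, h12 y b = 0 := by
    intro b
    simp only [hh12, Finset.sum_sub_distrib]
    rw [← ge3 b, Finset.sum_comm]
    simp only [aeq, sub_self]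
  -- phase B
  obtain ⟨ψB, bS, bB, b12, b02, bb01⟩ := phB hG hL hc hc1 hξ hδ.le hsm h12 (130 * δ / c ^ 2) hM4
    hb12 (fun b hb => by
      rw [← he3 b, Finset.sum_filter]
      refine Finset.sum_congr rfl fun y _ => ?_
      split_ifs with hy
      · rfl
      · exact (hz12 y b (fun h => hy ⟨h.1, h.2.2⟩)).symm)
  have beq : ∀ y b, ∑ x, ψB x y b = h12 y b := by
    intro y b
    by_cases h : p y = 1 ∧ p b = 2 ∧ Outer H A1 y b
    · exact b12 y b h.1 h.2.1 h.2.2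
    · rw [hz12 y b h]
      refine Finset.sum_eq_zero fun x _ => ?_
      by_contra hne
      exact h (tw12 x y b (bS x y b hne))
  set k01 : V → V → ℝ := fun x y => h01 x y - ∑ b, ψB x y b with hk01
  have kz01 : ∀ x y, ¬ (p x = 0 ∧ p y = 1 ∧ Outer H A1 x y) → k01 x y = 0 := by
    intro x y h
    have : ∑ b, ψB x y b = 0 := Finset.sum_eq_zero fun b _ => by
      by_contra hne
      exact h (tw01 x y b (bS x y b hne))
    simp only [hk01]; rw [this, hz01 x y h, sub_self]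
  have kb01 : ∀ x y, |k01 x y| ≤ 8450 * δ / c ^ 5 := fun x y =>
    (abs_sub _ _).trans ((add_le_add (hb01 x y) (bb01 x y)).trans (m5_le hc hc1 hδ))
  have ke1 : ∀ x, ∑ y, k01 x y = 0 := by
    intro x
    simp only [hk01, Finset.sum_sub_distrib]
    rw [he1 x, Finset.sum_comm]
    simp only [b02, Finset.sum_const_zero, sub_self]
  have ke2 : ∀ y, ∑ x, k01 x y = 0 := by
    intro y
    simp only [hk01, Finset.sum_sub_distrib]
    rw [he2 y, Finset.sum_comm]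
    simp only [beq, sub_self]
  -- phase C
  obtain ⟨ψC, cS, cB, c02, c12, c01⟩ := phC hG hL hc hc1 hK hξ hδ.le hsm hθ k01
    (8450 * δ / c ^ 5) hM5 kb01 kz01 ke1 ke2
  refine ⟨ψU, fun x y b => ψA x y b + ψB x y b + ψC x y b, uS, ?_, ?_, ?_, ?_, ?_, ?_⟩
  · intro x y b hne
    by_contra h
    have h1 : ψA x y b = 0 := by
      by_contra h'
      exact h (aS x y b h')
    have h2 : ψB x y b = 0 := by
      by_contra h'
      exact h (bS x y b h')
    have h3 : ψC x y b = 0 := by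
      by_contra h'
      exact h (cS x y b h')
    exact hne (by simp [h1, h2, h3])
  · intro x y b
    exact (uB x y b).trans (corrU_le hc hc1 hδ hs0)
  · intro x y b
    refine (abs_add_three _ _ _).trans ?_
    refine le_trans ?_ (corr_le hc hc1 hδ1 hs0)
    exact add_le_add (add_le_add (aB x y b) (bB x y b)) (cB x y b)
  · intro x y
    simp only [Finset.sum_add_distrib]
    rw [c01 x y]
    simp only [hk01, hh01, hg01]
    ring
  · intro x b
    simp only [Finset.sum_add_distrib]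
    rw [c02 x b, b02 x b, aeq x b]
    simp only [hg02]
    ring
  · intro y b
    simp only [Finset.sum_add_distrib]
    rw [c12 y b, beq y b]
    simp only [hh12, hg12]
    ring

end Main

theorem frac {p : V → Fin 3} {G H : SimpleGraph V} {c K s ξ δ : ℝ} {A0 A1 A2 A3 : Finset V}
    (hG : Host p G c K) (hL : Level p G H s ξ δ A0 A1 A2 A3) (hc : 0 < c) (hc1 : c < 1)
    (hK : 0 ≤ K) (hξ : 0 ≤ ξ) (hδ : 0 < δ) (hδ1 : δ ≤ c ^ 11 / 10 ^ 9)
    (hξ1 : ξ ≤ c ^ 9 * δ / 10 ^ 6) (hs : 10 ^ 4 * K / c ^ 7 ≤ s) (hs1 : 1 ≤ s) :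
    ∃ ω : V → V → V → ℝ, FracW p H A1 A2 c s δ ω := by
  have hs0 := hL.s0
  have hn : (0 : ℝ) < Fintype.card V := hs0.trans_le hL.s1
  have hδs : δ ≤ 1 := (d_small hc hc1 hδ1).trans (by norm_num)
  have hδh : δ ≤ 1 / 2 := (d_small hc hc1 hδ1).trans (by norm_num)
  have hsm := hsm_of hc hc1 hδ hδ1 hξ1
  obtain ⟨k, hk0, hk⟩ := hG.cod
  -- `k ≤ n`
  have hkn : (k : ℝ) ≤ Fintype.card V := by
    have hne : ∀ j, (cls p Finset.univ j).Nonempty := by
      intro j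
      rw [← Finset.card_pos]
      have h1 := hG.size j
      have h2 : 0 < c * Fintype.card V := mul_pos hc hn
      exact_mod_cast h2.trans_le h1
    obtain ⟨x, hx⟩ := hne 0
    obtain ⟨y, hy⟩ := hne 1
    have hx0 : p x = 0 := (Finset.mem_filter.1 hx).2
    have hy0 : p y = 1 := (Finset.mem_filter.1 hy).2
    have h := hk x y (hG.cells x y hx0 hy0) 2 (by rw [hx0]; decide) (by rw [hy0]; decide)
    rw [← h]
    exact_mod_cast Finset.card_le_univ _
  set q : ℝ := s / Fintype.card V * k with hqdef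
  have hq : c * s ≤ q := by
    have : s / Fintype.card V * (c * Fintype.card V) ≤ s / Fintype.card V * k :=
      mul_le_mul_of_nonneg_left hk0 (by positivity)
    refine le_trans (le_of_eq ?_) this
    field_simp
  have hq1 : q ≤ s := by
    have : s / Fintype.card V * k ≤ s / Fintype.card V * Fintype.card V :=
      mul_le_mul_of_nonneg_left hkn (by positivity)
    refine this.trans (le_of_eq ?_)
    field_simp
  obtain ⟨ν02, ν12, n02, n12, nb02, nb12, b1, b2, b3⟩ := balance hG hL hc hc1 hK hξ hδ.le hsm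
    (hs_of hc hc1 hK hs hs0)
  set ω0 : V → V → V → ℝ := fun x y b => if Tri p H x y b then bw q δ A1 A2 x y b else 0 with hω0
  set d01 : V → V → ℝ := fun x y => dem p H A1 A2 δ 0 1 x y with hd01
  set d02 : V → V → ℝ := fun x b => dem p H A1 A2 δ 0 2 x b + ν02 x b with hd02
  set d12 : V → V → ℝ := fun y b => dem p H A1 A2 δ 1 2 y b + ν12 y b with hd12
  have hm1 := m1_le hc hc1 hδ hξ1
  have hm2 := m2_le hc hc1 hδ hδ1 hξ1
  have hnu := nu_le (c := c) hc hξ1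
  have hnn : 0 ≤ 60000 * ξ / c ^ 7 := by positivity
  have P01 := fun u v => pair_bd hG hL hc hξ hδ.le hδs k hk0 hk 0 1 2 (by decide) (by decide)
    (fun _ _ => 0) (60000 * ξ / c ^ 7) (fun _ _ h => absurd rfl h) (fun _ _ => by simpa using hnn)
    u v (∑ b, ω0 u v b) (by
      refine Finset.sum_congr rfl fun z _ => ?_
      simp only [hω0]
      refine ite_c ?_ rfl
      unfold Tri
      tauto)
  have P02 := fun u v => pair_bd hG hL hc hξ hδ.le hδs k hk0 hk 0 2 1 (by decide) (by decide)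
    ν02 (60000 * ξ / c ^ 7) n02 nb02
    u v (∑ y, ω0 u y v) (by
      refine Finset.sum_congr rfl fun z _ => ?_
      simp only [hω0]
      refine ite_c ?_ (bw_comm23 _ _ _ _ _ _ _)
      unfold Tri
      rw [H.adj_comm v z]
      tauto)
  have P12 := fun u v => pair_bd hG hL hc hξ hδ.le hδs k hk0 hk 1 2 0 (by decide) (by decide)
    ν12 (60000 * ξ / c ^ 7) n12 nb12
    u v (∑ x, ω0 x u v) (by
      refine Finset.sum_congr rfl fun z _ => ?_
      simp only [hω0]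
      refine ite_c ?_ ?_
      · unfold Tri
        rw [H.adj_comm v z, H.adj_comm u z]
        tauto
      · rw [bw_comm12, bw_comm23])
  obtain ⟨ψ, φ, pS, fS, pB, fB, s01, s02, s12⟩ := phases hG hL hc hc1 hK hξ hδ hδ1 hξ1 hs
    (fun x y => d01 x y - ∑ b, ω0 x y b) (fun x b => d02 x b - ∑ y, ω0 x y b)
    (fun y b => d12 y b - ∑ x, ω0 x y b)
    (fun x => by
      simp only [Finset.sum_sub_distrib]
      rw [show ∑ y, d01 x y = ∑ b, d02 x b from b1 x, Finset.sum_comm])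
    (fun y => by
      simp only [Finset.sum_sub_distrib]
      rw [show ∑ x, d01 x y = ∑ b, d12 y b from b2 y, Finset.sum_comm])
    (fun b => by
      simp only [Finset.sum_sub_distrib]
      rw [show ∑ x, d02 x b = ∑ y, d12 y b from b3 b, Finset.sum_comm])
    (fun u v h1 h2 h3 => by
      have := (P01 u v).1 ⟨h1, h2, h3⟩
      rw [add_zero] at this
      exact this.trans hm1)
    (fun u v h1 h2 h3 => ((P02 u v).1 ⟨h1, h2, h3⟩).trans hm1)
    (fun u v h1 h2 h3 => ((P12 u v).1 ⟨h1, h2, h3⟩).trans hm1)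
    (fun u v h1 h2 h3 => by
      have := (P01 u v).2.1 ⟨h1, h2, h3⟩
      rw [add_zero] at this
      exact this.trans hm2)
    (fun u v h1 h2 h3 => ((P02 u v).2.1 ⟨h1, h2, h3⟩).trans hm2)
    (fun u v h1 h2 h3 => ((P12 u v).2.1 ⟨h1, h2, h3⟩).trans hm2)
    (fun u v h => by
      have := (P01 u v).2.2 h
      rw [add_zero] at this
      exact this)
    (fun u v h => (P02 u v).2.2 h)
    (fun u v h => (P12 u v).2.2 h)
  have bwb := fun x y b => bw_bounds (p := p) (H := H) (A1 := A1) (A2 := A2) hc hs0 hq hq1 hδ.le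
    hδh (x := x) (y := y) (b := b)
  have w01 : ∀ x y, ∑ b, (ω0 x y b + (ψ x y b + φ x y b)) = d01 x y := by
    intro x y
    rw [Finset.sum_add_distrib, s01 x y]
    ring
  have w02 : ∀ x b, ∑ y, (ω0 x y b + (ψ x y b + φ x y b)) = d02 x b := by
    intro x b
    rw [Finset.sum_add_distrib, s02 x b]
    ring
  have w12 : ∀ y b, ∑ x, (ω0 x y b + (ψ x y b + φ x y b)) = d12 y b := by
    intro y b
    rw [Finset.sum_add_distrib, s12 y b]
    ring
  have demO : ∀ i j u v, p u = i → p v = j → Outer H A1 u v → dem p H A1 A2 δ i j u v = 1 := by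
    intro i j u v h1 h2 h3
    unfold dem
    rw [if_pos ⟨h1, h2, h3.1⟩, if_neg h3.2]
  have demI : ∀ i j u v, u ∈ A1 → v ∈ A1 → dem p H A1 A2 δ i j u v ≤ δ := by
    intro i j u v h1 h2
    unfold dem
    split_ifs with h3 h4 h5
    · exact hδ.le
    · exact le_refl _
    · exact absurd ⟨h1, h2⟩ h4
    · exact hδ.le
  have hc2 : c ^ 2 * δ ≤ δ := by
    have : c ^ 2 * δ ≤ 1 * δ := mul_le_mul_of_nonneg_right (pow_le_one₀ hc.le hc1.le) hδ.le
    linarith
  have hnuδ : 60000 * ξ / c ^ 7 ≤ δ / 10 := by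
    refine hnu.trans ?_
    linarith
  have hψ0 : ∀ x y b, Two p H A1 x y b → ψ x y b = 0 := by
    intro x y b h
    by_contra hne
    exact (pS x y b hne).2 h
  have hφ0 : ∀ x y b, ¬ Two p H A1 x y b → φ x y b = 0 := by
    intro x y b h
    by_contra hne
    exact h (fS x y b hne)
  refine ⟨fun x y b => ω0 x y b + (ψ x y b + φ x y b), ?_, ?_, ?_, ?_, ?_, ?_, ?_, ?_, ?_⟩
  · -- support
    intro x y b hne
    by_contra h
    have h1 : ω0 x y b = 0 := by
      by_contra h'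
      simp only [hω0] at h'
      by_cases ht : Tri p H x y b
      · rw [if_pos ht] at h'
        exact h (allow_of_bw ht h')
      · rw [if_neg ht] at h'
        exact h' rfl
    have h2 : ψ x y b = 0 := by
      by_contra h'
      exact h (pS x y b h').1
    have h3 : φ x y b = 0 := by
      by_contra h'
      exact h (allow_of_two hL.sub2 (fS x y b h'))
    exact hne (by simp [h1, h2, h3])
  · -- lower bound
    intro x y b ha
    have e : ω0 x y b = bw q δ A1 A2 x y b := by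
      simp only [hω0]
      rw [if_pos ha.1]
    by_cases ht : Two p H A1 x y b
    · have h1 := (bwb x y b).2.2.2 ha ht
      have h2 := (abs_le.1 (fB x y b)).1
      have h3 : δ / (2 * s) ≤ 1 / (4 * s) := by
        rw [div_le_div_iff₀ (by positivity) (by positivity)]
        have := d_small hc hc1 hδ1
        norm_num at this
        nlinarith
      have h4 : 1 / (2 * s) = 1 / (4 * s) + 1 / (4 * s) := by
        field_simp
        norm_num
      rw [e, hψ0 x y b ht]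
      linarith
    · have h1 := (bwb x y b).2.2.1 ha
      have h2 := (abs_le.1 (pB x y b)).1
      have h4 : δ / s = δ / (2 * s) + δ / (2 * s) := by
        field_simp
        norm_num
      rw [e, hφ0 x y b ht]
      linarith
  · -- upper bound
    intro x y b
    have h0 : ω0 x y b ≤ 4 / (c * s) := by
      simp only [hω0]
      split_ifs
      · exact (bwb x y b).2.1
      · positivity
    have h5 : 5 / (c * s) = 4 / (c * s) + 1 / (c * s) := by
      rw [← add_div]; norm_num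
    have hcs : c * s ≤ 1 * s := mul_le_mul_of_nonneg_right hc1.le hs0.le
    by_cases ht : Two p H A1 x y b
    · have h2 := (abs_le.1 (fB x y b)).2
      have h3 : 1 / (4 * s) ≤ 1 / (c * s) :=
        one_div_le_one_div_of_le (by positivity) (by linarith)
      rw [hψ0 x y b ht, h5]
      linarith
    · have h2 := (abs_le.1 (pB x y b)).2
      have h3 : δ / (2 * s) ≤ 1 / (c * s) := by
        rw [div_le_div_iff₀ (by positivity) (by positivity)]
        nlinarith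
      rw [hφ0 x y b ht, h5]
      linarith
  · intro x y h1 h2 h3
    rw [w01 x y]
    exact demO 0 1 x y h1 h2 h3
  · intro x b h1 h2 h3
    rw [w02 x b]
    have hn0 : ν02 x b = 0 := by
      by_contra hne
      exact h3.2 (n02 x b hne).2.2.2.1
    simp only [hd02]
    rw [demO 0 2 x b h1 h2 h3, hn0, add_zero]
  · intro y b h1 h2 h3
    rw [w12 y b]
    have hn0 : ν12 y b = 0 := by
      by_contra hne
      exact h3.2 (n12 y b hne).2.2.2.1
    simp only [hd12]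
    rw [demO 1 2 y b h1 h2 h3, hn0, add_zero]
  · intro x y h1 h2
    rw [w01 x y]
    have := demI 0 1 x y h1 h2
    simp only [hd01]
    linarith
  · intro x b h1 h2
    rw [w02 x b]
    have h3 := demI 0 2 x b h1 h2
    have h4 := (abs_le.1 (nb02 x b)).2
    simp only [hd02]
    linarith
  · intro y b h1 h2
    rw [w12 y b]
    have h3 := demI 1 2 y b h1 h2
    have h4 := (abs_le.1 (nb12 y b)).2
    simp only [hd12]
    linarith

end Pool.Agent.Lib.TriD
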