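import Pool.Agent.Lib.TriD.Trans
import Pool.Agent.Lib.TriD.Birk

set_option autoImplicit false

/-!
MODULE Link (about 150 lines). A random perfect matching of a link graph `Γ` with prescribed
approximate marginals `W`.

PROOF. `f y = 1 - ∑ z ∈ Z, W y z`, `g z = 1 - ∑ y ∈ Y, W y z`; `∑ f = card Y - ∑∑ W = card Z - ∑∑ W = ∑ g`.
`transport` gives `F` supported on `Γ`, `|F| ≤ 33 * η / (κ ^ 2 * s) ≤ c / s`. `W' = W + F` is `≥ 0` on `Γ`,
zero off `Γ`, with all row and column sums `1`. `birkhoff_sample` gives `m, p, π` with marginals `W'` on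
`Y × Z`. Put `h y z = ∑ i, if y ∈ Y ∧ π i y = z then p i else 0`. For `y ∈ Y`, `z ∈ Z` it is `W' y z`; for
`y ∉ Y` it is `0`; for `y ∈ Y`, `z ∉ Z` it is `0` because `π i` maps `Y` to `Z`; also `W' = 0` there (`Γ ⊆ Y × Z`).
If `0 < p i`, `y ∈ Y` then `h y (π i y) ≥ p i > 0`, so `(y, π i y) ∈ Γ`.
-/

namespace Pool.Agent.Lib.TriD

open scoped Classical in
theorem link {β γ : Type} [Nonempty γ] (Y : Finset β) (Z : Finset γ) (Γ : Finset (β × γ))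
    (hcard : Y.card = Z.card) (hΓ : Γ ⊆ Y ×ˢ Z) (W : β → γ → ℝ) (s c κ η : ℝ) (hs : 0 < s)
    (hκ : 0 < κ) (hκ1 : κ ≤ 1) (hη0 : 0 ≤ η) (hη : 33 * η / κ ^ 2 ≤ c) (hY : (Y.card : ℝ) ≤ s)
    (hW0 : ∀ y z, (y, z) ∉ Γ → W y z = 0) (hW1 : ∀ y z, (y, z) ∈ Γ → c / s ≤ W y z)
    (hr : ∀ y ∈ Y, |∑ z ∈ Z, W y z - 1| ≤ η) (hc : ∀ z ∈ Z, |∑ y ∈ Y, W y z - 1| ≤ η)
    (hyy : ∀ y ∈ Y, 4 * (Y.filter (fun y' =>
      ((Z.filter (fun z => (y, z) ∈ Γ ∧ (y', z) ∈ Γ)).card : ℝ) < κ * s)).card ≤ Y.card)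
    (hzz : ∀ z ∈ Z, 4 * (Z.filter (fun z' =>
      ((Y.filter (fun y => (y, z) ∈ Γ ∧ (y, z') ∈ Γ)).card : ℝ) < κ * s)).card ≤ Z.card) :
    ∃ (m : ℕ) (p : Fin m → ℝ) (π : Fin m → β → γ) (h : β → γ → ℝ), (∀ i, 0 ≤ p i) ∧ ∑ i, p i = 1 ∧
      (∀ i, Set.BijOn (π i) Y Z) ∧ (∀ i, 0 < p i → ∀ y ∈ Y, (y, π i y) ∈ Γ) ∧
      (∀ y z, h y z = ∑ i, if y ∈ Y ∧ π i y = z then p i else 0) ∧
      (∀ y z, |h y z - W y z| ≤ 33 * η / (κ ^ 2 * s)) ∧ (∀ y z, (y, z) ∉ Γ → h y z = 0) := by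
  have hb0 : 0 ≤ 33 * η / (κ ^ 2 * s) := by positivity
  have hbc : 33 * η / (κ ^ 2 * s) ≤ c / s := by
    rw [← div_div]
    exact div_le_div_of_nonneg_right hη hs.le
  have hZ : (Z.card : ℝ) ≤ s := by rw [← hcard]; exact hY
  obtain ⟨F, hF0, hFr, hFc, hFb⟩ := transport Y Z Γ hΓ κ s η hκ hκ1 hs hη0 hY hZ hyy hzz
    (fun y => 1 - ∑ z ∈ Z, W y z) (fun z => 1 - ∑ y ∈ Y, W y z)
    (fun y hy => by rw [abs_sub_comm]; exact hr y hy)
    (fun z hz => by rw [abs_sub_comm]; exact hc z hz)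
    (by
      rw [Finset.sum_sub_distrib, Finset.sum_sub_distrib, Finset.sum_comm (s := Y) (t := Z)]
      simp [hcard])
  have hpos : ∀ y z, 0 ≤ W y z + F y z := by
    intro y z
    by_cases hyz : (y, z) ∈ Γ
    · have h1 := hW1 y z hyz
      have h2 := neg_le_of_abs_le (hFb y z)
      linarith
    · rw [hW0 y z hyz, hF0 y z hyz, add_zero]
  obtain ⟨m, p, π, hp0, hp1, hπ, hm⟩ := birkhoff_sample Y Z hcard (fun y z => W y z + F y z)
    (fun y _ z _ => hpos y z)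
    (fun y hy => by
      rw [Finset.sum_add_distrib, hFr y hy]
      ring)
    (fun z hz => by
      rw [Finset.sum_add_distrib, hFc z hz]
      ring)
  have hin : ∀ y ∈ Y, ∀ z ∈ Z, (∑ i, if y ∈ Y ∧ π i y = z then p i else 0) = W y z + F y z := by
    intro y hy z hz
    rw [← hm y hy z hz]
    refine Finset.sum_congr rfl fun i _ => ?_
    simp only [hy, true_and]
  have hout : ∀ y z, ¬ (y ∈ Y ∧ z ∈ Z) → (∑ i, if y ∈ Y ∧ π i y = z then p i else 0) = 0 := by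
    intro y z hyz
    refine Finset.sum_eq_zero fun i _ => ?_
    rw [if_neg]
    rintro ⟨h1, h2⟩
    apply hyz
    refine ⟨h1, ?_⟩
    rw [← h2]
    exact (hπ i).mapsTo h1
  have hoff : ∀ y z, (y, z) ∉ Γ → (∑ i, if y ∈ Y ∧ π i y = z then p i else 0) = 0 := by
    intro y z hyz
    by_cases h1 : y ∈ Y ∧ z ∈ Z
    · rw [hin y h1.1 z h1.2, hW0 y z hyz, hF0 y z hyz, add_zero]
    · exact hout y z h1
  refine ⟨m, p, π, fun y z => ∑ i, if y ∈ Y ∧ π i y = z then p i else 0, hp0, hp1, hπ, ?_,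
    fun y z => rfl, ?_, hoff⟩
  · intro i hi y hy
    by_contra hc'
    have h1 := hoff y (π i y) hc'
    have h2 : (if y ∈ Y ∧ π i y = π i y then p i else 0) ≤
        ∑ j, if y ∈ Y ∧ π j y = π i y then p j else 0 :=
      Finset.single_le_sum (f := fun j => if y ∈ Y ∧ π j y = π i y then p j else 0)
        (fun j _ => by
          split_ifs
          · exact hp0 j
          · exact le_rfl) (Finset.mem_univ i)
    rw [h1, if_pos ⟨hy, rfl⟩] at h2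
    linarith
  · intro y z
    by_cases h1 : y ∈ Y ∧ z ∈ Z
    · dsimp only
      rw [hin y h1.1 z h1.2, add_sub_cancel_left]
      exact hFb y z
    · dsimp only
      have h2 : (y, z) ∉ Γ := fun h3 => h1 (Finset.mem_product.1 (hΓ h3))
      rw [hoff y z h2, hW0 y z h2, sub_zero, abs_zero]
      exact hb0

end Pool.Agent.Lib.TriD
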