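import Pool.Agent.Lib.TriD.Draw

set_option autoImplicit false

/-!
MODULE StepI. Row and column sums of the marginals of a random perfect matching, and the total change of the weights
in a row and in a column in one step.
-/

namespace Pool.Agent.Lib.TriD

variable {β γ : Type} {Y : Finset β} {Z : Finset γ} {m : ℕ} {p : Fin m → ℝ} {π : Fin m → β → γ}
  {h : β → γ → ℝ}

/-- If at most one element of `S` satisfies `P`, the sum of `a` over these elements is at most `a`. -/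
private lemma sum_ite_le {ι : Type} (S : Finset ι) (P : ι → Prop) [DecidablePred P] (a : ℝ)
    (ha : 0 ≤ a) (h1 : ∀ x ∈ S, ∀ y ∈ S, P x → P y → x = y) :
    ∑ x ∈ S, (if P x then a else 0) ≤ a := by
  rw [← Finset.sum_filter, Finset.sum_const, nsmul_eq_mul]
  have hc : (S.filter P).card ≤ 1 := by
    refine Finset.card_le_one.2 ?_
    intro x hx y hy
    rw [Finset.mem_filter] at hx hy
    exact h1 x hx.1 y hy.1 hx.2 hy.2
  have hc' : ((S.filter P).card : ℝ) ≤ 1 := by exact_mod_cast hc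
  nlinarith

private lemma Draw.h_nonneg (D : Draw Y Z p π h) (y : β) (z : γ) : 0 ≤ h y z := by
  classical
  rw [D.marg]
  refine Finset.sum_nonneg ?_
  intro i _
  split_ifs
  · exact D.nonneg i
  · exact le_rfl

theorem Draw.sum_row (D : Draw Y Z p π h) (y : β) (ZZ : Finset γ) : ∑ z ∈ ZZ, h y z ≤ 1 := by
  classical
  have h1 : ∑ z ∈ ZZ, h y z = ∑ i, ∑ z ∈ ZZ, if y ∈ Y ∧ π i y = z then p i else 0 := by
    rw [Finset.sum_comm]
    exact Finset.sum_congr rfl (fun z _ => by rw [D.marg])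
  rw [h1, ← D.sum_one]
  refine Finset.sum_le_sum ?_
  intro i _
  refine sum_ite_le ZZ (fun z => y ∈ Y ∧ π i y = z) (p i) (D.nonneg i) ?_
  intro a _ b _ ha hb
  exact ha.2.symm.trans hb.2

theorem Draw.sum_col (D : Draw Y Z p π h) (z : γ) (YY : Finset β) : ∑ y ∈ YY, h y z ≤ 1 := by
  classical
  have h1 : ∑ y ∈ YY, h y z = ∑ i, ∑ y ∈ YY, if y ∈ Y ∧ π i y = z then p i else 0 := by
    rw [Finset.sum_comm]
    exact Finset.sum_congr rfl (fun y _ => by rw [D.marg])
  rw [h1, ← D.sum_one]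
  refine Finset.sum_le_sum ?_
  intro i _
  refine sum_ite_le YY (fun y => y ∈ Y ∧ π i y = z) (p i) (D.nonneg i) ?_
  intro a _ b _ ha hb
  exact (D.bij i).injOn ha.1 hb.1 (ha.2.trans hb.2.symm)

theorem Draw.next_nonneg (D : Draw Y Z p π h) (A : β → γ → ℝ) (hA : ∀ y z, 0 ≤ A y z) (i : Fin m)
    (y : β) (z : γ) : 0 ≤ nextA A h Y (π i) y z := by
  classical
  unfold nextA
  split_ifs
  · exact le_rfl
  · have := D.half y z
    exact div_nonneg (hA y z) (by linarith)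

theorem Draw.next_le (D : Draw Y Z p π h) (A : β → γ → ℝ) (M : ℝ) (hA : ∀ y z, 0 ≤ A y z)
    (hM : ∀ y z, A y z ≤ M) (i : Fin m) (y : β) (z : γ) : nextA A h Y (π i) y z ≤ 2 * M := by
  classical
  have hM0 : 0 ≤ M := (hA y z).trans (hM y z)
  unfold nextA
  split_ifs
  · linarith
  · have h2 := D.half y z
    rw [div_le_iff₀ (by linarith)]
    nlinarith [hM y z]

/-- The change of one weight: `M` on the matching, and `2 * M * h` always. -/
private lemma Draw.incr (D : Draw Y Z p π h) (A : β → γ → ℝ) (M : ℝ) (hA : ∀ y z, 0 ≤ A y z)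
    (hM : ∀ y z, A y z ≤ M) (i : Fin m) (y : β) (z : γ) [Decidable (y ∈ Y ∧ π i y = z)] :
    |nextA A h Y (π i) y z - A y z| ≤ (if y ∈ Y ∧ π i y = z then M else 0) + 2 * M * h y z := by
  have hM0 : 0 ≤ M := (hA y z).trans (hM y z)
  have h0 := D.h_nonneg y z
  have h2 := D.half y z
  have hMh : 0 ≤ M * h y z := mul_nonneg hM0 h0
  unfold nextA
  by_cases hP : y ∈ Y ∧ π i y = z
  · rw [if_pos hP, if_pos hP, zero_sub, abs_neg, abs_of_nonneg (hA y z)]
    have := hM y z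
    linarith
  · rw [if_neg hP, if_neg hP, zero_add]
    have h1 : (0 : ℝ) < 1 - h y z := by linarith
    have e : A y z / (1 - h y z) - A y z = A y z * h y z / (1 - h y z) := by
      field_simp
      ring
    rw [e, abs_of_nonneg (div_nonneg (mul_nonneg (hA y z) h0) h1.le), div_le_iff₀ h1]
    have h3 : A y z * h y z ≤ M * h y z := mul_le_mul_of_nonneg_right (hM y z) h0
    nlinarith [mul_le_mul_of_nonneg_left h2 hMh]

theorem Draw.incr_row (D : Draw Y Z p π h) (A : β → γ → ℝ) (M : ℝ) (hA : ∀ y z, 0 ≤ A y z)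
    (hM : ∀ y z, A y z ≤ M) (i : Fin m) (y : β) (ZZ : Finset γ) :
    ∑ z ∈ ZZ, |nextA A h Y (π i) y z - A y z| ≤ 3 * M := by
  classical
  have hM0 : 0 ≤ M := (hA y (π i y)).trans (hM y (π i y))
  have h1 : ∑ z ∈ ZZ, |nextA A h Y (π i) y z - A y z| ≤
      ∑ z ∈ ZZ, ((if y ∈ Y ∧ π i y = z then M else 0) + 2 * M * h y z) :=
    Finset.sum_le_sum (fun z _ => D.incr A M hA hM i y z)
  rw [Finset.sum_add_distrib, ← Finset.mul_sum] at h1
  have h2 : ∑ z ∈ ZZ, (if y ∈ Y ∧ π i y = z then M else 0) ≤ M :=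
    sum_ite_le ZZ (fun z => y ∈ Y ∧ π i y = z) M hM0 (fun a _ b _ ha hb => ha.2.symm.trans hb.2)
  have h3 := D.sum_row y ZZ
  nlinarith

/-- Here `0 ≤ M` is assumed since `β` may be empty. -/
theorem Draw.incr_col (D : Draw Y Z p π h) (A : β → γ → ℝ) (M : ℝ) (hM0 : 0 ≤ M)
    (hA : ∀ y z, 0 ≤ A y z) (hM : ∀ y z, A y z ≤ M) (i : Fin m) (z : γ) (YY : Finset β) :
    ∑ y ∈ YY, |nextA A h Y (π i) y z - A y z| ≤ 3 * M := by
  classical
  have h1 : ∑ y ∈ YY, |nextA A h Y (π i) y z - A y z| ≤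
      ∑ y ∈ YY, ((if y ∈ Y ∧ π i y = z then M else 0) + 2 * M * h y z) :=
    Finset.sum_le_sum (fun y _ => D.incr A M hA hM i y z)
  rw [Finset.sum_add_distrib, ← Finset.mul_sum] at h1
  have h2 : ∑ y ∈ YY, (if y ∈ Y ∧ π i y = z then M else 0) ≤ M :=
    sum_ite_le YY (fun y => y ∈ Y ∧ π i y = z) M hM0
      (fun a _ b _ ha hb => (D.bij i).injOn ha.1 hb.1 (ha.2.trans hb.2.symm))
  have h3 := D.sum_col z YY
  nlinarith

end Pool.Agent.Lib.TriD
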