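import Pool.Agent.Lib.TriD.Draw

set_option autoImplicit false

/-!
MODULE StepM (about 150 lines). Means of the new weights.

PROOFS. `h ≥ 0` from `marg`. (mean1) `∑ i, p i * nextA A h Y (π i) y z = A y z / (1 - h y z) * ∑ i, p i * [not (y ∈ Y and π i y = z)]
= A y z / (1 - h y z) * (1 - h y z)`; `1 - h ≥ 1/2 > 0`.
(mean2y) for `y ≠ y'` the events `y ∈ Y ∧ π i y = z` and `y' ∈ Y ∧ π i y' = z` exclude each other because `π i` is
injective on `Y`; the product of the two new weights is `A y z * A y' z / ((1 - h y z) * (1 - h y' z))` if neither happens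
and `0` otherwise, so the mean is this number times `1 - h y z - h y' z`, and
`(1 - h - h') / ((1 - h) * (1 - h')) = 1 - h * h' / ((1 - h) * (1 - h'))`.
(mean2z) for `z ≠ z'` the events `π i y = z` and `π i y = z'` exclude each other trivially.
-/

namespace Pool.Agent.Lib.TriD

variable {β γ : Type} {Y : Finset β} {Z : Finset γ} {m : ℕ} {p : Fin m → ℝ} {π : Fin m → β → γ}
  {h : β → γ → ℝ}

open scoped Classical in
theorem Draw.h_nonneg (D : Draw Y Z p π h) (y : β) (z : γ) : 0 ≤ h y z := by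
  rw [D.marg]
  refine Finset.sum_nonneg fun i _ => ?_
  split_ifs
  · exact D.nonneg i
  · exact le_rfl

private theorem Draw.pos (D : Draw Y Z p π h) (y : β) (z : γ) : 0 < 1 - h y z := by
  have := D.half y z
  linarith

open scoped Classical in
private theorem nextA_mul {A : β → γ → ℝ} (i : Fin m) (y : β) (z : γ) :
    nextA A h Y (π i) y z = A y z / (1 - h y z) * (if y ∈ Y ∧ π i y = z then 0 else 1) := by
  unfold nextA
  split_ifs <;> simp

open scoped Classical in
private theorem sum_two (D : Draw Y Z p π h) {y y' : β} {z z' : γ}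
    (hex : ∀ i, ¬ ((y ∈ Y ∧ π i y = z) ∧ (y' ∈ Y ∧ π i y' = z'))) (a a' : ℝ) :
    ∑ i, p i * (a * (if y ∈ Y ∧ π i y = z then 0 else 1) *
      (a' * (if y' ∈ Y ∧ π i y' = z' then 0 else 1))) = a * a' * (1 - h y z - h y' z') := by
  have h1 : ∀ i, p i * (a * (if y ∈ Y ∧ π i y = z then 0 else 1) *
      (a' * (if y' ∈ Y ∧ π i y' = z' then 0 else 1))) =
      a * a' * (p i - (if y ∈ Y ∧ π i y = z then p i else 0) -
        (if y' ∈ Y ∧ π i y' = z' then p i else 0)) := by
    intro i
    have := hex i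
    by_cases h2 : y ∈ Y ∧ π i y = z
    · by_cases h3 : y' ∈ Y ∧ π i y' = z'
      · exact absurd ⟨h2, h3⟩ this
      · rw [if_pos h2, if_neg h3, if_pos h2, if_neg h3]
        ring
    · by_cases h3 : y' ∈ Y ∧ π i y' = z'
      · rw [if_neg h2, if_pos h3, if_neg h2, if_pos h3]
        ring
      · rw [if_neg h2, if_neg h3, if_neg h2, if_neg h3]
        ring
  rw [Finset.sum_congr rfl fun i _ => h1 i, ← Finset.mul_sum, Finset.sum_sub_distrib,
    Finset.sum_sub_distrib, D.sum_one, ← D.marg, ← D.marg]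

open scoped Classical in
theorem Draw.mean1 (D : Draw Y Z p π h) (A : β → γ → ℝ) (y : β) (z : γ) :
    ∑ i, p i * nextA A h Y (π i) y z = A y z := by
  have h1 : ∀ i, p i * nextA A h Y (π i) y z =
      A y z / (1 - h y z) * (p i - (if y ∈ Y ∧ π i y = z then p i else 0)) := by
    intro i
    rw [nextA_mul]
    split_ifs
    · ring
    · ring
  rw [Finset.sum_congr rfl fun i _ => h1 i, ← Finset.mul_sum, Finset.sum_sub_distrib, D.sum_one,
    ← D.marg]
  exact div_mul_cancel₀ _ (D.pos y z).ne'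

theorem Draw.mean2y (D : Draw Y Z p π h) (A : β → γ → ℝ) (y y' : β) (hy : y ≠ y') (z : γ) :
    ∑ i, p i * (nextA A h Y (π i) y z * nextA A h Y (π i) y' z) =
      A y z * A y' z * (1 - h y z * h y' z / ((1 - h y z) * (1 - h y' z))) := by
  classical
  simp only [nextA_mul]
  rw [sum_two D (fun i hi => hy ((D.bij i).injOn hi.1.1 hi.2.1 (hi.1.2.trans hi.2.2.symm)))]
  have h1 := (D.pos y z).ne'
  have h2 := (D.pos y' z).ne'
  field_simp
  ring

theorem Draw.mean2z (D : Draw Y Z p π h) (A : β → γ → ℝ) (y : β) (z z' : γ) (hz : z ≠ z') :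
    ∑ i, p i * (nextA A h Y (π i) y z * nextA A h Y (π i) y z') =
      A y z * A y z' * (1 - h y z * h y z' / ((1 - h y z) * (1 - h y z'))) := by
  classical
  simp only [nextA_mul]
  rw [sum_two D (fun i hi => hz (hi.1.2.symm.trans hi.2.2))]
  have h1 := (D.pos y z).ne'
  have h2 := (D.pos y z').ne'
  field_simp
  ring

end Pool.Agent.Lib.TriD
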