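import Pool.Agent.Lib.TriD.RDefs
import Pool.Agent.Lib.TriD.StepM
import Pool.Agent.Lib.TriD.StepI

set_option autoImplicit false

/-!
MODULE NiceT (about 180 lines). The test functionals are nice with `a = 9 * M ^ 2 / s`, `d = 4 * M ^ 2 * hm / s`
(`1 ≤ M`).

PROOFS. Linear tests: mean exact by `Draw.mean1` (sum over `z`, exchange the sums), so the second inequality is
`0 ≤ d`; `|f (next) - f A| ≤ (1/s) * ∑ z ∈ Z, |next - A| ≤ 3 * M / s ≤ a` by `incr_row` (`incr_col`).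
Quadratic tests, `y ≠ y'`: `|u' v' - u v| ≤ |u' - u| * v' + u * |v' - v|` with `v' ≤ 2 * M`, `u ≤ M`:
at most `(1/s) * (3 M * 2 M + M * 3 M) = 9 M ^ 2 / s`. Mean: by `mean2y` the mean of the product minus the product is
`- A y z * A y' z * h y z * h y' z / ((1 - h y z) * (1 - h y' z))`, in absolute value at most
`M ^ 2 * 4 * hm * h y z` (`1 - h ≥ 1/2`, `h y' z ≤ hm`), the sum over `z` at most `4 * M ^ 2 * hm` by `sum_row`, times
`1 / s`. `quad_col` the same with `mean2z`, `sum_col` (the sum runs over `y ∈ YY`). Note `0 ≤ hm` follows from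
`0 ≤ h ≤ hm` only if `β, γ` are nonempty, so we assume it.
-/

namespace Pool.Agent.Lib.TriD

variable {β γ : Type}

private lemma lin_bound {ι : Type} (S : Finset ι) (κ x y : ι → ℝ) (M s : ℝ) (hM : 1 ≤ M)
    (hs : 0 < s) (hκ : ∀ i, |κ i| ≤ 1 / s) (hsum : ∑ i ∈ S, |x i - y i| ≤ 3 * M) :
    |∑ i ∈ S, κ i * x i - ∑ i ∈ S, κ i * y i| ≤ 9 * M ^ 2 / s := by
  rw [← Finset.sum_sub_distrib]
  have h1 : ∑ i ∈ S, |κ i * x i - κ i * y i| ≤ ∑ i ∈ S, 1 / s * |x i - y i| := by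
    refine Finset.sum_le_sum fun i _ => ?_
    rw [← mul_sub, abs_mul]
    exact mul_le_mul_of_nonneg_right (hκ i) (abs_nonneg _)
  rw [← Finset.mul_sum] at h1
  have h2 : 1 / s * ∑ i ∈ S, |x i - y i| ≤ 1 / s * (3 * M) :=
    mul_le_mul_of_nonneg_left hsum (by positivity)
  have h3 : 1 / s * (3 * M) ≤ 9 * M ^ 2 / s := by
    rw [one_div_mul_eq_div]
    refine div_le_div_of_nonneg_right ?_ hs.le
    nlinarith
  exact (Finset.abs_sum_le_sum_abs _ _).trans (h1.trans (h2.trans h3))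

private lemma quad_bound {ι : Type} (S : Finset ι) (u v u' v' : ι → ℝ) (M s : ℝ) (hM : 1 ≤ M)
    (hs : 0 < s) (hu : ∀ i, 0 ≤ u i) (huM : ∀ i, u i ≤ M) (hv : ∀ i, 0 ≤ v' i)
    (hvM : ∀ i, v' i ≤ 2 * M) (h1 : ∑ i ∈ S, |u' i - u i| ≤ 3 * M)
    (h2 : ∑ i ∈ S, |v' i - v i| ≤ 3 * M) :
    |(∑ i ∈ S, u' i * v' i) / s - (∑ i ∈ S, u i * v i) / s| ≤ 9 * M ^ 2 / s := by
  rw [← sub_div, abs_div, abs_of_pos hs, ← Finset.sum_sub_distrib]
  refine div_le_div_of_nonneg_right ?_ hs.le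
  have h3 : ∑ i ∈ S, |u' i * v' i - u i * v i| ≤
      ∑ i ∈ S, (2 * M * |u' i - u i| + M * |v' i - v i|) := by
    refine Finset.sum_le_sum fun i _ => ?_
    have e : u' i * v' i - u i * v i = (u' i - u i) * v' i + u i * (v' i - v i) := by ring
    rw [e]
    refine (abs_add_le _ _).trans ?_
    rw [abs_mul, abs_mul, abs_of_nonneg (hv i), abs_of_nonneg (hu i)]
    have h4 : |u' i - u i| * v' i ≤ |u' i - u i| * (2 * M) :=
      mul_le_mul_of_nonneg_left (hvM i) (abs_nonneg _)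
    have h5 : u i * |v' i - v i| ≤ M * |v' i - v i| :=
      mul_le_mul_of_nonneg_right (huM i) (abs_nonneg _)
    linarith
  rw [Finset.sum_add_distrib, ← Finset.mul_sum, ← Finset.mul_sum] at h3
  have h6 : 2 * M * ∑ i ∈ S, |u' i - u i| ≤ 2 * M * (3 * M) :=
    mul_le_mul_of_nonneg_left h1 (by linarith)
  have h7 : M * ∑ i ∈ S, |v' i - v i| ≤ M * (3 * M) :=
    mul_le_mul_of_nonneg_left h2 (by linarith)
  refine (Finset.abs_sum_le_sum_abs _ _).trans (h3.trans ?_)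
  calc 2 * M * ∑ i ∈ S, |u' i - u i| + M * ∑ i ∈ S, |v' i - v i|
      ≤ 2 * M * (3 * M) + M * (3 * M) := add_le_add h6 h7
    _ = 9 * M ^ 2 := by ring

private lemma corr_bound {ι : Type} (S : Finset ι) (a a' g g' : ι → ℝ) (M hm s : ℝ) (hM : 1 ≤ M)
    (hhm : 0 ≤ hm) (hs : 0 < s) (ha : ∀ i, 0 ≤ a i) (haM : ∀ i, a i ≤ M) (ha' : ∀ i, 0 ≤ a' i)
    (haM' : ∀ i, a' i ≤ M) (hg : ∀ i, 0 ≤ g i) (hg2 : ∀ i, g i ≤ 1 / 2) (hg' : ∀ i, 0 ≤ g' i)
    (hg2' : ∀ i, g' i ≤ 1 / 2) (hgm : ∀ i, g' i ≤ hm) (hsum : ∑ i ∈ S, g i ≤ 1) :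
    |(∑ i ∈ S, a i * a' i * (1 - g i * g' i / ((1 - g i) * (1 - g' i)))) / s -
      (∑ i ∈ S, a i * a' i) / s| ≤ 4 * M ^ 2 * hm / s := by
  rw [← sub_div, abs_div, abs_of_pos hs, ← Finset.sum_sub_distrib]
  refine div_le_div_of_nonneg_right ?_ hs.le
  have h3 : ∑ i ∈ S, |a i * a' i * (1 - g i * g' i / ((1 - g i) * (1 - g' i))) - a i * a' i| ≤
      ∑ i ∈ S, 4 * M ^ 2 * hm * g i := by
    refine Finset.sum_le_sum fun i _ => ?_
    have e : a i * a' i * (1 - g i * g' i / ((1 - g i) * (1 - g' i))) - a i * a' i =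
        -(a i * a' i * (g i * g' i / ((1 - g i) * (1 - g' i)))) := by ring
    have hp : 1 / 4 ≤ (1 - g i) * (1 - g' i) := by
      nlinarith [hg2 i, hg2' i]
    have hp0 : 0 < (1 - g i) * (1 - g' i) := by linarith
    have hgg : 0 ≤ g i * g' i := mul_nonneg (hg i) (hg' i)
    have haa : 0 ≤ a i * a' i := mul_nonneg (ha i) (ha' i)
    rw [e, abs_neg, abs_of_nonneg (mul_nonneg haa (div_nonneg hgg hp0.le))]
    have h4 : g i * g' i / ((1 - g i) * (1 - g' i)) ≤ 4 * (g i * hm) := by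
      rw [div_le_iff₀ hp0]
      have h5 : g i * g' i ≤ g i * hm := mul_le_mul_of_nonneg_left (hgm i) (hg i)
      have h6 : 0 ≤ g i * hm := mul_nonneg (hg i) hhm
      nlinarith
    have h7 : a i * a' i ≤ M * M := mul_le_mul (haM i) (haM' i) (ha' i) (by linarith)
    calc a i * a' i * (g i * g' i / ((1 - g i) * (1 - g' i)))
        ≤ M * M * (4 * (g i * hm)) :=
          mul_le_mul h7 h4 (div_nonneg hgg hp0.le) (by positivity)
      _ = 4 * M ^ 2 * hm * g i := by ring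
  rw [← Finset.mul_sum] at h3
  refine (Finset.abs_sum_le_sum_abs _ _).trans (h3.trans ?_)
  have h8 : 4 * M ^ 2 * hm * ∑ i ∈ S, g i ≤ 4 * M ^ 2 * hm * 1 :=
    mul_le_mul_of_nonneg_left hsum (by positivity)
  linarith

theorem nice_row (M hm s : ℝ) (hM : 1 ≤ M) (hhm : 0 ≤ hm) (hs : 0 < s) (y : β) (κ : γ → ℝ)
    (hκ : ∀ z, |κ z| ≤ 1 / s) (ZZ : Finset γ) :
    Nice M hm (9 * M ^ 2 / s) (4 * M ^ 2 * hm / s) (fun A : β → γ → ℝ => ∑ z ∈ ZZ, κ z * A y z) := by
  intro Y Z m p π h D hh A hA hAM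
  refine ⟨fun i => ?_, ?_⟩
  · exact lin_bound ZZ κ (fun z => nextA A h Y (π i) y z) (fun z => A y z) M s hM hs hκ
      (D.incr_row A M hA hAM i y ZZ)
  · have h1 : ∑ i, p i * ∑ z ∈ ZZ, κ z * nextA A h Y (π i) y z = ∑ z ∈ ZZ, κ z * A y z := by
      simp_rw [Finset.mul_sum]
      rw [Finset.sum_comm]
      refine Finset.sum_congr rfl fun z _ => ?_
      rw [← D.mean1 A y z, Finset.mul_sum]
      exact Finset.sum_congr rfl fun i _ => by ring
    rw [h1, sub_self, abs_zero]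
    positivity

theorem nice_col (M hm s : ℝ) (hM : 1 ≤ M) (hhm : 0 ≤ hm) (hs : 0 < s) (z : γ) (κ : β → ℝ)
    (hκ : ∀ y, |κ y| ≤ 1 / s) (YY : Finset β) :
    Nice M hm (9 * M ^ 2 / s) (4 * M ^ 2 * hm / s) (fun A : β → γ → ℝ => ∑ y ∈ YY, κ y * A y z) := by
  intro Y Z m p π h D hh A hA hAM
  refine ⟨fun i => ?_, ?_⟩
  · exact lin_bound YY κ (fun y => nextA A h Y (π i) y z) (fun y => A y z) M s hM hs hκ
      (D.incr_col A M (by linarith) hA hAM i z YY)
  · have h1 : ∑ i, p i * ∑ y ∈ YY, κ y * nextA A h Y (π i) y z = ∑ y ∈ YY, κ y * A y z := by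
      simp_rw [Finset.mul_sum]
      rw [Finset.sum_comm]
      refine Finset.sum_congr rfl fun y _ => ?_
      rw [← D.mean1 A y z, Finset.mul_sum]
      exact Finset.sum_congr rfl fun i _ => by ring
    rw [h1, sub_self, abs_zero]
    positivity

theorem nice_quad_row (M hm s : ℝ) (hM : 1 ≤ M) (hhm : 0 ≤ hm) (hs : 0 < s) (y y' : β)
    (hy : y ≠ y') (ZZ : Finset γ) :
    Nice M hm (9 * M ^ 2 / s) (4 * M ^ 2 * hm / s)
      (fun A : β → γ → ℝ => (∑ z ∈ ZZ, A y z * A y' z) / s) := by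
  intro Y Z m p π h D hh A hA hAM
  refine ⟨fun i => ?_, ?_⟩
  · exact quad_bound ZZ (fun z => A y z) (fun z => A y' z) (fun z => nextA A h Y (π i) y z)
      (fun z => nextA A h Y (π i) y' z) M s hM hs (fun z => hA y z) (fun z => hAM y z)
      (fun z => D.next_nonneg A hA i y' z) (fun z => D.next_le A M hA hAM i y' z)
      (D.incr_row A M hA hAM i y ZZ) (D.incr_row A M hA hAM i y' ZZ)
  · have h1 : ∑ i, p i * ((∑ z ∈ ZZ, nextA A h Y (π i) y z * nextA A h Y (π i) y' z) / s) =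
        (∑ z ∈ ZZ, A y z * A y' z * (1 - h y z * h y' z / ((1 - h y z) * (1 - h y' z)))) / s := by
      rw [Finset.sum_congr rfl fun z _ => (D.mean2y A y y' hy z).symm, Finset.sum_comm,
        Finset.sum_div]
      refine Finset.sum_congr rfl fun i _ => ?_
      rw [← Finset.mul_sum]
      ring
    rw [h1]
    exact corr_bound ZZ (fun z => A y z) (fun z => A y' z) (fun z => h y z) (fun z => h y' z) M hm s
      hM hhm hs (fun z => hA y z) (fun z => hAM y z) (fun z => hA y' z) (fun z => hAM y' z)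
      (fun z => D.h_nonneg y z) (fun z => D.half y z) (fun z => D.h_nonneg y' z)
      (fun z => D.half y' z) (fun z => hh y' z) (D.sum_row y ZZ)

theorem nice_quad_col (M hm s : ℝ) (hM : 1 ≤ M) (hhm : 0 ≤ hm) (hs : 0 < s) (z z' : γ)
    (hz : z ≠ z') (YY : Finset β) :
    Nice M hm (9 * M ^ 2 / s) (4 * M ^ 2 * hm / s)
      (fun A : β → γ → ℝ => (∑ y ∈ YY, A y z * A y z') / s) := by
  intro Y Z m p π h D hh A hA hAM
  refine ⟨fun i => ?_, ?_⟩
  · exact quad_bound YY (fun y => A y z) (fun y => A y z') (fun y => nextA A h Y (π i) y z)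
      (fun y => nextA A h Y (π i) y z') M s hM hs (fun y => hA y z) (fun y => hAM y z)
      (fun y => D.next_nonneg A hA i y z') (fun y => D.next_le A M hA hAM i y z')
      (D.incr_col A M (by linarith) hA hAM i z YY) (D.incr_col A M (by linarith) hA hAM i z' YY)
  · have h1 : ∑ i, p i * ((∑ y ∈ YY, nextA A h Y (π i) y z * nextA A h Y (π i) y z') / s) =
        (∑ y ∈ YY, A y z * A y z' * (1 - h y z * h y z' / ((1 - h y z) * (1 - h y z')))) / s := by
      rw [Finset.sum_congr rfl fun y _ => (D.mean2z A y z z' hz).symm, Finset.sum_comm,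
        Finset.sum_div]
      refine Finset.sum_congr rfl fun i _ => ?_
      rw [← Finset.mul_sum]
      ring
    rw [h1]
    exact corr_bound YY (fun y => A y z) (fun y => A y z') (fun y => h y z) (fun y => h y z') M hm s
      hM hhm hs (fun y => hA y z) (fun y => hAM y z) (fun y => hA y z') (fun y => hAM y z')
      (fun y => D.h_nonneg y z) (fun y => D.half y z) (fun y => D.h_nonneg y z')
      (fun y => D.half y z') (fun y => hh y z') (D.sum_col z YY)

theorem nice_zero (M hm s : ℝ) (hhm : 0 ≤ hm) (hs : 0 < s) :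
    Nice M hm (9 * M ^ 2 / s) (4 * M ^ 2 * hm / s) (fun _ : β → γ → ℝ => (0 : ℝ)) := by
  intro Y Z m p π h D hh A hA hAM
  refine ⟨fun i => ?_, ?_⟩
  · rw [sub_self, abs_zero]
    positivity
  · simp only [mul_zero, Finset.sum_const_zero, sub_self, abs_zero]
    positivity

end Pool.Agent.Lib.TriD
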