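import Pool.Agent.Lib.TriD.Draw

set_option autoImplicit false

/-!
Definitions for the round lemma.
-/

namespace Pool.Agent.Lib.TriD

open scoped Classical in
/-- Hypotheses of the round lemma: the elements `x` of `X` are processed one by one, `x` needs a perfect
matching between `Yx x` and `Zx x` in `E0`, different `x` use disjoint sets of pairs. -/
structure RHyp {α β γ : Type} (X : Finset α) (Y : Finset β) (Z : Finset γ) (E0 : Finset (β × γ))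
    (Yx : α → Finset β) (Zx : α → Finset γ) (w : α → β → γ → ℝ) (c s e : ℝ) : Prop where
  hc : 0 < c
  hc1 : c < 1
  hs : 1 ≤ s
  he : 0 ≤ e
  cX : (X.card : ℝ) ≤ s
  cY : (Y.card : ℝ) ≤ s
  cZ : (Z.card : ℝ) ≤ s
  subY : ∀ x ∈ X, Yx x ⊆ Y
  subZ : ∀ x ∈ X, Zx x ⊆ Z
  card : ∀ x ∈ X, (Yx x).card = (Zx x).card
  subE : E0 ⊆ Y ×ˢ Z
  w0 : ∀ x y z, ¬ (x ∈ X ∧ y ∈ Yx x ∧ z ∈ Zx x ∧ (y, z) ∈ E0) → w x y z = 0
  w1 : ∀ x ∈ X, ∀ y ∈ Yx x, ∀ z ∈ Zx x, (y, z) ∈ E0 → c / s ≤ w x y z ∧ w x y z ≤ 1 / (c * s)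
  sumY : ∀ x ∈ X, ∀ y ∈ Yx x, |∑ z ∈ Z, w x y z - 1| ≤ e
  sumZ : ∀ x ∈ X, ∀ z ∈ Zx x, |∑ y ∈ Y, w x y z - 1| ≤ e
  haz : ∀ y z, (y, z) ∈ E0 → ∑ x ∈ X, w x y z ≤ 1 - c
  comY : ∀ x ∈ X, ∀ y ∈ Yx x, 4 * ((Yx x).filter (fun y' =>
    (((Zx x).filter (fun z => (y, z) ∈ E0 ∧ (y', z) ∈ E0)).card : ℝ) < c * s)).card ≤ (Yx x).card
  comZ : ∀ x ∈ X, ∀ z ∈ Zx x, 4 * ((Zx x).filter (fun z' =>
    (((Yx x).filter (fun y => (y, z) ∈ E0 ∧ (y, z') ∈ E0)).card : ℝ) < c * s)).card ≤ (Zx x).card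

/-- A test functional changes little in one step, and its mean changes very little. -/
def Nice {β γ : Type} (M hm a d : ℝ) (f : (β → γ → ℝ) → ℝ) : Prop :=
  ∀ (Y : Finset β) (Z : Finset γ) (m : ℕ) (p : Fin m → ℝ) (π : Fin m → β → γ) (h : β → γ → ℝ),
    Draw Y Z p π h → (∀ y z, h y z ≤ hm) → ∀ A : β → γ → ℝ, (∀ y z, 0 ≤ A y z) →
    (∀ y z, A y z ≤ M) →
    (∀ i, |f (nextA A h Y (π i)) - f A| ≤ a) ∧ |∑ i, p i * f (nextA A h Y (π i)) - f A| ≤ d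

end Pool.Agent.Lib.TriD
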