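import Mathlib

set_option autoImplicit false

/-!
MODULE RNum (about 100 lines). The numerical estimate in the round lemma.

PROOF. Take `lam = s ^ (2/5 : ℝ)`. With `s → ∞` and `c` fixed: `lam * 36 / (c ^ 2 * s) = (36 / c ^ 2) * s ^ (-3/5)`;
`T * 32 / (c ^ 4 * s ^ 2) ≤ (32 / c ^ 4) * s ^ (-1)`; `log (2 * N) ≤ log 2 + 21 * log s`, divided by `s ^ (2/5)` this is
`o (s ^ (-1/3))` since `2/5 > 1/3` (`isLittleO_log_rpow_atTop` with exponent `1/15`);
`T * lam * (36 / (c ^ 2 * s)) ^ 2 ≤ (1296 / c ^ 4) * s ^ (-3/5)`. So each of the three summands is at most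
`s ^ (-1/3) / 3` for all large `s`.
-/

namespace Pool.Agent.Lib.TriD

private lemma log_bound (x : ℝ) (hx : 4000000 ≤ x) :
    3 * (Real.log 2 + 315 * Real.log x) ≤ x := by
  have hx0 : 0 < x := by linarith
  have h2 : Real.log 2 ≤ 1 := by
    have := Real.log_le_sub_one_of_pos (show (0 : ℝ) < 2 by norm_num)
    linarith
  have hr0 : 0 < Real.sqrt x := Real.sqrt_pos.2 hx0
  have hsq : Real.sqrt x * Real.sqrt x = x := Real.mul_self_sqrt hx0.le
  have hlog : Real.log x ≤ 2 * Real.sqrt x := by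
    have h3 := Real.log_le_sub_one_of_pos hr0
    have h4 : Real.log x = Real.log (Real.sqrt x) + Real.log (Real.sqrt x) := by
      rw [← Real.log_mul hr0.ne' hr0.ne', hsq]
    linarith
  have hr : 2000 ≤ Real.sqrt x := by
    rw [show (2000 : ℝ) = Real.sqrt (2000 ^ 2) by
      rw [Real.sqrt_sq (by norm_num)]]
    exact Real.sqrt_le_sqrt (by linarith)
  nlinarith

theorem rnum (c : ℝ) (hc : 0 < c) : ∃ s0 : ℝ, 1 ≤ s0 ∧ ∀ s, s0 ≤ s → ∃ lam : ℝ, 0 < lam ∧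
    lam * (36 / (c ^ 2 * s)) ≤ 1 ∧ ∀ N : ℝ, 1 ≤ N → N ≤ s ^ 21 → ∀ T : ℝ, 0 ≤ T → T ≤ s →
      T * (32 / (c ^ 4 * s ^ 2)) + Real.log (2 * N) / lam + T * lam * (36 / (c ^ 2 * s)) ^ 2 ≤
        s ^ (-(1 / 3) : ℝ) := by
  have ha4 : 0 < 3888 / c ^ 4 := by positivity
  have ha2 : 0 < 36 / c ^ 2 := by positivity
  have hK1 : 4000000 ≤ 4000000 + 3888 / c ^ 4 + 36 / c ^ 2 := by linarith
  have hK0 : 0 ≤ 4000000 + 3888 / c ^ 4 + 36 / c ^ 2 := by linarith
  refine ⟨(4000000 + 3888 / c ^ 4 + 36 / c ^ 2) ^ 15, one_le_pow₀ (by linarith), fun s hs => ?_⟩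
  have hs0 : 0 < s := lt_of_lt_of_le (pow_pos (by linarith) 15) hs
  obtain ⟨x, hKx, hxs⟩ : ∃ x : ℝ, 4000000 + 3888 / c ^ 4 + 36 / c ^ 2 ≤ x ∧ x ^ 15 = s := by
    refine ⟨s ^ (((15 : ℕ) : ℝ)⁻¹), ?_, Real.rpow_inv_natCast_pow hs0.le (by norm_num)⟩
    have h1 := Real.rpow_le_rpow (pow_nonneg hK0 15) hs
      (show (0 : ℝ) ≤ ((15 : ℕ) : ℝ)⁻¹ by positivity)
    rwa [Real.pow_rpow_inv_natCast hK0 (by norm_num)] at h1
  have hx4 : 4000000 ≤ x := by linarith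
  have hx0 : 0 < x := by linarith
  have hx1 : 1 ≤ x := by linarith
  have hb4 : 3888 / c ^ 4 ≤ x := by linarith
  have hb2 : 36 / c ^ 2 ≤ x := by linarith
  subst hxs
  have hpow : (x ^ 15) ^ (-(1 / 3) : ℝ) = 1 / x ^ 5 := by
    rw [← Real.rpow_natCast x 15, ← Real.rpow_mul hx0.le,
      show ((15 : ℕ) : ℝ) * (-(1 / 3)) = -((5 : ℕ) : ℝ) by norm_num, Real.rpow_neg hx0.le,
      Real.rpow_natCast, one_div]
  rw [hpow]
  refine ⟨x ^ 6, by positivity, ?_, ?_⟩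
  · have e : x ^ 6 * (36 / (c ^ 2 * x ^ 15)) = (36 / c ^ 2) / x ^ 9 := by
      field_simp
    rw [e, div_le_one (by positivity)]
    exact hb2.trans (le_self_pow₀ hx1 (by norm_num))
  · intro N hN hNs T hT hTs
    have h1 : T * (32 / (c ^ 4 * (x ^ 15) ^ 2)) ≤ 1 / (3 * x ^ 5) := by
      have e1 : T * (32 / (c ^ 4 * (x ^ 15) ^ 2)) ≤ x ^ 15 * (32 / (c ^ 4 * (x ^ 15) ^ 2)) :=
        mul_le_mul_of_nonneg_right hTs (by positivity)
      have e2 : x ^ 15 * (32 / (c ^ 4 * (x ^ 15) ^ 2)) = (3888 / c ^ 4) * (4 / 486) / x ^ 15 := by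
        field_simp
        ring
      have e3 : (3888 / c ^ 4) * (4 / 486) / x ^ 15 ≤ x * (1 / 3) / x ^ 15 :=
        div_le_div_of_nonneg_right (mul_le_mul hb4 (by norm_num) (by norm_num) hx0.le)
          (by positivity)
      have e4 : x * (1 / 3) / x ^ 15 = 1 / (3 * x ^ 14) := by
        field_simp
      have e5 : 1 / (3 * x ^ 14) ≤ 1 / (3 * x ^ 5) := by
        gcongr
        norm_num
      linarith
    have h2 : Real.log (2 * N) / x ^ 6 ≤ 1 / (3 * x ^ 5) := by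
      have e1 : Real.log (2 * N) ≤ Real.log 2 + 315 * Real.log x := by
        rw [Real.log_mul (by norm_num) (by linarith)]
        have e2 := Real.log_le_log (by linarith) hNs
        rw [Real.log_pow, Real.log_pow] at e2
        push_cast at e2
        linarith
      have e2 := log_bound x hx4
      rw [div_le_div_iff₀ (by positivity) (by positivity)]
      have e3 : Real.log (2 * N) * (3 * x ^ 5) ≤ (x / 3) * (3 * x ^ 5) :=
        mul_le_mul_of_nonneg_right (by linarith) (by positivity)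
      calc Real.log (2 * N) * (3 * x ^ 5) ≤ (x / 3) * (3 * x ^ 5) := e3
        _ = 1 * x ^ 6 := by ring
    have h3 : T * x ^ 6 * (36 / (c ^ 2 * x ^ 15)) ^ 2 ≤ 1 / (3 * x ^ 5) := by
      have e1 : T * x ^ 6 * (36 / (c ^ 2 * x ^ 15)) ^ 2 ≤
          x ^ 15 * x ^ 6 * (36 / (c ^ 2 * x ^ 15)) ^ 2 := by
        gcongr
      have e2 : x ^ 15 * x ^ 6 * (36 / (c ^ 2 * x ^ 15)) ^ 2 =
          (3888 / c ^ 4) * (1 / 3) / x ^ 9 := by
        field_simp
        ring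
      have e3 : (3888 / c ^ 4) * (1 / 3) / x ^ 9 ≤ x * (1 / 3) / x ^ 9 := by
        gcongr
      have e4 : x * (1 / 3) / x ^ 9 = 1 / (3 * x ^ 8) := by
        field_simp
      have e5 : 1 / (3 * x ^ 8) ≤ 1 / (3 * x ^ 5) := by
        gcongr
        norm_num
      linarith
    have h4 : 1 / (3 * x ^ 5) + 1 / (3 * x ^ 5) + 1 / (3 * x ^ 5) = 1 / x ^ 5 := by
      field_simp
      ring
    linarith

end Pool.Agent.Lib.TriD
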