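import Pool.Agent.Lib.TriD.RDefs
import Pool.Agent.Lib.TriD.Link

set_option autoImplicit false

/-!
MODULE RStep (about 350 lines). One step of the round lemma.

`S y z` is the planned survival probability before the step, `A` the current weights (`A y z ≠ 0` iff the pair is
alive), `L` the bound for `|log (A * S)|`, `Δ` the deviation of the tests. Put `ε = e + Δ / c + L ≤ c ^ 7 / 5000`.

PROOF. `A ≤ 2 / c`: if `A y z ≠ 0` then `A * S ≤ exp L ≤ 2` and `S ≥ c`.
`Γ = {(y, z) ∈ Yx x × Zx x | A y z ≠ 0}` (a subset of `E0`), `W y z = if (y, z) ∈ Γ then w x y z / S y z else 0`.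
(1) On `Γ`: `c / s ≤ w ≤ W ≤ 1 / (c ^ 2 * s)`.
(2) Row sums: on `Γ` `1 / S = A * exp (-θ)` with `|θ| ≤ L`, so `|W - w * A| ≤ w * A * (exp L - 1) ≤ w * A * 1.5 * L`
(`L ≤ 1/5000`), hence `|∑ z ∈ Zx x, W y z - ∑ z ∈ Z, w x y z * A y z| ≤ 1.5 * L * ∑ w A`, `∑ w A ≤ 1 + e + Δ / c ≤ 1.1`,
`|∑ w A - 1| ≤ e + Δ / c`. So `|∑ W - 1| ≤ η := 2 * ε`. Same for columns.
(3) Common neighbours: `κ = c ^ 3 / 8`. If `y ≠ y'` in `Yx x` have at least `c * s` common `E0`-neighbours in `Zx x`, then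
`(∑ z ∈ Zx x, A y z * A y' z) / s ≥ c - Δ ≥ c / 2`, every term is `≤ 4 / c ^ 2` and nonzero only if both pairs are alive, so at
least `(c / 2) * s * (c ^ 2 / 4) = κ * s` of the `z ∈ Zx x` are common neighbours in `Γ`. For `y' = y`: the number of
`Γ`-neighbours of `y` is at least the number of common ones with some good `y'' ≠ y`; such a `y''` exists because
`(Yx x).card ≥ 2` (`∑ z ∈ Z, w x y z ≥ 1/2` and `w ≤ 1 / (c * s)` give `(Zx x).card ≥ c * s / 2 ≥ 2`) and at most a quarter of the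
`y''` are bad. So the set of bad partners in `Γ` is contained in the set of bad partners in `E0`; `comY` gives `hyy` of
`link`. Same for `Zx x`.
(4) `link` with `c`, `κ`, `η = 2 ε`: `33 * η / κ ^ 2 = 66 * 64 * ε / c ^ 6 ≤ c` as `ε ≤ c ^ 7 / 5000`. It gives `m, p, π, h`.
`|h - W| ≤ 33 η / (κ ^ 2 s) = 4224 ε / (c ^ 6 s)`, so `h ≤ 1 / (c ^ 2 s) + c / s ≤ 2 / (c ^ 2 * s) ≤ 1/2` (`s ≥ 4 / c ^ 2`).
(5) If `nextA .. y z ≠ 0` then `A y z ≠ 0` and (if `y ∈ Yx x`, `z ∈ Zx x`) `(y, z) ∈ Γ`,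
`nextA * (S - w) = A * S * (1 - W) / (1 - h)`, `|log (1 - W) - log (1 - h)| ≤ 2 * |h - W|` for `W, h ∈ [0, 1/2]`:
total `L + 8448 * ε / (c ^ 6 * s)`. If `(y, z)` is not in `Yx x × Zx x`, then `w x y z = 0`, `h y z = 0`: nothing changes.
NOTE `w x y z = 0` for pairs outside `E0`; `W ≤ 1/2` as `1/(c^2 s) ≤ 1/4`.
-/

namespace Pool.Agent.Lib.TriD

open scoped Classical in
private theorem com_aux {β γ : Type} (P : Finset β) (Q : Finset γ) (E : β → γ → Prop)
    (A : β → γ → ℝ) (c s Δ : ℝ) (hc : 0 < c) (hs : 0 < s) (hΔ : Δ ≤ c / 2)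
    (hA0 : ∀ y z, 0 ≤ A y z) (hAM : ∀ y z, A y z ≤ 2 / c) (hcard : 2 ≤ P.card)
    (hcom : ∀ y ∈ P, 4 * (P.filter (fun y' =>
      ((Q.filter (fun z => E y z ∧ E y' z)).card : ℝ) < c * s)).card ≤ P.card)
    (hq : ∀ y ∈ P, ∀ y' ∈ P, y ≠ y' → |(∑ z ∈ Q, A y z * A y' z) / s -
      ((Q.filter (fun z => E y z ∧ E y' z)).card : ℝ) / s| ≤ Δ) :
    ∀ y ∈ P, 4 * (P.filter (fun y' =>
      ((Q.filter (fun z => A y z ≠ 0 ∧ A y' z ≠ 0)).card : ℝ) < c ^ 3 / 8 * s)).card ≤ P.card := by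
  have key : ∀ y ∈ P, ∀ y' ∈ P, y ≠ y' → c * s ≤ ((Q.filter (fun z => E y z ∧ E y' z)).card : ℝ) →
      c ^ 3 / 8 * s ≤ ((Q.filter (fun z => A y z ≠ 0 ∧ A y' z ≠ 0)).card : ℝ) := by
    intro y hy y' hy' hne hg
    have h1 := (abs_le.mp (hq y hy y' hy' hne)).1
    have h2 : c ≤ ((Q.filter (fun z => E y z ∧ E y' z)).card : ℝ) / s := by
      rw [le_div_iff₀ hs]
      exact hg
    have h3 : c / 2 ≤ (∑ z ∈ Q, A y z * A y' z) / s := by linarith
    rw [le_div_iff₀ hs] at h3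
    have h4 : ∑ z ∈ Q, A y z * A y' z ≤
        ∑ z ∈ Q.filter (fun z => A y z ≠ 0 ∧ A y' z ≠ 0), (2 / c) * (2 / c) := by
      rw [← Finset.sum_filter_add_sum_filter_not Q (fun z => A y z ≠ 0 ∧ A y' z ≠ 0)]
      have h5 : ∑ z ∈ Q.filter (fun z => ¬ (A y z ≠ 0 ∧ A y' z ≠ 0)), A y z * A y' z = 0 := by
        apply Finset.sum_eq_zero
        intro z hz
        have h6 := (Finset.mem_filter.mp hz).2
        by_contra h7
        exact h6 ⟨left_ne_zero_of_mul h7, right_ne_zero_of_mul h7⟩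
      rw [h5, add_zero]
      apply Finset.sum_le_sum
      intro z _
      exact mul_le_mul (hAM y z) (hAM y' z) (hA0 y' z) (by positivity)
    rw [Finset.sum_const, nsmul_eq_mul] at h4
    have h5 := h3.trans h4
    have h6 : c ^ 2 * (c / 2 * s) ≤ c ^ 2 * (((Q.filter (fun z => A y z ≠ 0 ∧ A y' z ≠ 0)).card : ℝ) *
      (2 / c * (2 / c))) := mul_le_mul_of_nonneg_left h5 (by positivity)
    have h7 : c ^ 2 * (((Q.filter (fun z => A y z ≠ 0 ∧ A y' z ≠ 0)).card : ℝ) *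
      (2 / c * (2 / c))) = 4 * ((Q.filter (fun z => A y z ≠ 0 ∧ A y' z ≠ 0)).card : ℝ) := by
      field_simp
      ring
    rw [h7] at h6
    linarith
  intro y hy
  refine le_trans (Nat.mul_le_mul_left 4 (Finset.card_le_card ?_)) (hcom y hy)
  intro y' hy'
  rw [Finset.mem_filter] at hy' ⊢
  refine ⟨hy'.1, ?_⟩
  by_cases hne : y = y'
  · -- a good partner different from y exists
    subst hne
    exfalso
    have h1 : ∃ y'' ∈ P, y'' ≠ y ∧ c * s ≤ ((Q.filter (fun z => E y z ∧ E y'' z)).card : ℝ) := by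
      by_contra hcon
      push Not at hcon
      have h2 : P.erase y ⊆ P.filter (fun y' =>
          ((Q.filter (fun z => E y z ∧ E y' z)).card : ℝ) < c * s) := by
        intro y'' hy''
        rw [Finset.mem_erase] at hy''
        rw [Finset.mem_filter]
        exact ⟨hy''.2, hcon y'' hy''.2 hy''.1⟩
      have h3 := Finset.card_le_card h2
      rw [Finset.card_erase_of_mem hy] at h3
      have h4 := hcom y hy
      omega
    obtain ⟨y'', hy'', hne, hg⟩ := h1
    have h2 := key y hy y'' hy'' (Ne.symm hne) hg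
    have h3 : ((Q.filter (fun z => A y z ≠ 0 ∧ A y'' z ≠ 0)).card : ℝ) ≤
        ((Q.filter (fun z => A y z ≠ 0 ∧ A y z ≠ 0)).card : ℝ) := by
      exact_mod_cast Finset.card_le_card (fun z hz => by
        rw [Finset.mem_filter] at hz ⊢
        exact ⟨hz.1, hz.2.1, hz.2.1⟩)
    linarith [hy'.2]
  · by_contra hcon
    have h1 := key y hy y' hy'.1 hne (not_lt.mp hcon)
    linarith [hy'.2]

private theorem row_aux {γ : Type} (Q Z : Finset γ) (hQZ : Q ⊆ Z) (w A W : γ → ℝ) (L e δ : ℝ)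
    (hL : 0 ≤ L) (hL1 : L ≤ 1 / 2) (he : 0 ≤ e) (hδ : 0 ≤ δ)
    (hW : ∀ z ∈ Q, |W z - w z * A z| ≤ 2 * L * (w z * A z)) (hw : ∀ z, z ∉ Q → w z = 0)
    (h1 : |∑ z ∈ Z, w z * A z - ∑ z ∈ Z, w z| ≤ δ) (h2 : |∑ z ∈ Z, w z - 1| ≤ e) :
    |∑ z ∈ Q, W z - 1| ≤ 2 * (e + δ + L) := by
  have h3 : ∑ z ∈ Z, w z * A z = ∑ z ∈ Q, w z * A z := by
    symm
    apply Finset.sum_subset hQZ
    intro z _ hz
    rw [hw z hz, zero_mul]
  have h4 : |∑ z ∈ Q, W z - ∑ z ∈ Q, w z * A z| ≤ 2 * L * ∑ z ∈ Q, w z * A z := by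
    rw [← Finset.sum_sub_distrib, Finset.mul_sum]
    exact le_trans (Finset.abs_sum_le_sum_abs _ _) (Finset.sum_le_sum hW)
  rw [h3] at h1
  set a := ∑ z ∈ Q, W z
  set b := ∑ z ∈ Q, w z * A z
  set d := ∑ z ∈ Z, w z
  have h5 : |b - 1| ≤ e + δ := by
    have h6 : b - 1 = (b - d) + (d - 1) := by ring
    rw [h6]
    exact (abs_add_le _ _).trans (by linarith)
  have h6 : b ≤ 1 + (e + δ) := by
    have := (abs_le.mp h5).2
    linarith
  have h7 : a - 1 = (a - b) + (b - 1) := by ring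
  rw [h7]
  refine (abs_add_le _ _).trans ?_
  have h8 : 2 * L * b ≤ 2 * L * (1 + (e + δ)) := mul_le_mul_of_nonneg_left h6 (by linarith)
  have h9 : 2 * L * (e + δ) ≤ 1 * (e + δ) := mul_le_mul_of_nonneg_right (by linarith) (by linarith)
  linarith

private theorem log_diff (a b : ℝ) (ha : 1 / 2 ≤ a) (hb : 1 / 2 ≤ b) :
    |Real.log a - Real.log b| ≤ 2 * |a - b| := by
  have key : ∀ a b : ℝ, 1 / 2 ≤ a → 1 / 2 ≤ b → Real.log a - Real.log b ≤ 2 * |a - b| := by
    intro a b ha hb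
    have ha0 : 0 < a := by linarith
    have hb0 : 0 < b := by linarith
    rw [← Real.log_div ha0.ne' hb0.ne']
    have h1 := Real.log_le_sub_one_of_pos (div_pos ha0 hb0)
    have h2 : a / b - 1 = (a - b) / b := by
      field_simp
    have h3 : (a - b) / b ≤ 2 * |a - b| := by
      rw [div_le_iff₀ hb0]
      have h4 := le_abs_self (a - b)
      have h5 := abs_nonneg (a - b)
      nlinarith
    linarith
  rw [abs_le]
  constructor
  · have := key b a hb ha
    rw [abs_sub_comm] at this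
    linarith
  · exact key a b ha hb

private theorem weight_aux (w A S L : ℝ) (hw : 0 ≤ w) (hA : 0 < A) (hS : 0 < S)
    (hL1 : L ≤ 1) (h : |Real.log (A * S)| ≤ L) : |w / S - w * A| ≤ 2 * L * (w * A) := by
  set θ := Real.log (A * S) with hθ
  have h1 : A * S = Real.exp θ := (Real.exp_log (mul_pos hA hS)).symm
  have h2 : w / S = w * A * Real.exp (-θ) := by
    rw [Real.exp_neg, ← h1]
    field_simp
  have h3 : w / S - w * A = w * A * (Real.exp (-θ) - 1) := by
    rw [h2]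
    ring
  rw [h3, abs_mul, abs_of_nonneg (mul_nonneg hw hA.le)]
  have h4 : |Real.exp (-θ) - 1| ≤ 2 * |-θ| := Real.abs_exp_sub_one_le (by rw [abs_neg]; linarith)
  rw [abs_neg] at h4
  have h5 : |Real.exp (-θ) - 1| ≤ 2 * L := by linarith
  have := mul_le_mul_of_nonneg_left h5 (mul_nonneg hw hA.le)
  linarith

open scoped Classical in
theorem rstep {α β γ : Type} [Nonempty γ] {X : Finset α} {Y : Finset β} {Z : Finset γ}
    {E0 : Finset (β × γ)} {Yx : α → Finset β} {Zx : α → Finset γ} {w : α → β → γ → ℝ}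
    {c s e : ℝ} (H : RHyp X Y Z E0 Yx Zx w c s e) (x : α) (hx : x ∈ X) (L Δ : ℝ) (hL : 0 ≤ L)
    (hΔ : 0 ≤ Δ) (hε : e + Δ / c + L ≤ c ^ 7 / 5000) (hs : 4 / c ^ 2 ≤ s)
    (S : β → γ → ℝ) (hS : ∀ y z, (y, z) ∈ E0 → c ≤ S y z - w x y z ∧ S y z ≤ 1)
    (A : β → γ → ℝ) (hA0 : ∀ y z, 0 ≤ A y z)
    (hA : ∀ y z, A y z ≠ 0 → (y, z) ∈ E0 ∧ |Real.log (A y z * S y z)| ≤ L)
    (htY : ∀ y ∈ Yx x, |∑ z ∈ Z, w x y z * A y z - ∑ z ∈ Z, w x y z| ≤ Δ / c)
    (htZ : ∀ z ∈ Zx x, |∑ y ∈ Y, w x y z * A y z - ∑ y ∈ Y, w x y z| ≤ Δ / c)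
    (hqY : ∀ y ∈ Yx x, ∀ y' ∈ Yx x, y ≠ y' → |(∑ z ∈ Zx x, A y z * A y' z) / s -
      (((Zx x).filter (fun z => (y, z) ∈ E0 ∧ (y', z) ∈ E0)).card : ℝ) / s| ≤ Δ)
    (hqZ : ∀ z ∈ Zx x, ∀ z' ∈ Zx x, z ≠ z' → |(∑ y ∈ Yx x, A y z * A y z') / s -
      (((Yx x).filter (fun y => (y, z) ∈ E0 ∧ (y, z') ∈ E0)).card : ℝ) / s| ≤ Δ) :
    ∃ (m : ℕ) (p : Fin m → ℝ) (π : Fin m → β → γ) (h : β → γ → ℝ),
      Draw (Yx x) (Zx x) p π h ∧ (∀ y z, h y z ≤ 2 / (c ^ 2 * s)) ∧
      (∀ i, 0 < p i → ∀ y ∈ Yx x, A y (π i y) ≠ 0) ∧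
      (∀ i, ∀ y z, nextA A h (Yx x) (π i) y z ≠ 0 →
        |Real.log (nextA A h (Yx x) (π i) y z * (S y z - w x y z))| ≤
          L + 8448 * (e + Δ / c + L) / (c ^ 6 * s)) := by
  have hc := H.hc
  have hc1 := H.hc1
  have hs1 := H.hs
  have he := H.he
  have hs0 : 0 < s := by linarith
  have hΔc : 0 ≤ Δ / c := div_nonneg hΔ hc.le
  have hc7 : c ^ 7 ≤ 1 := pow_le_one₀ hc.le hc1.le
  have hc7c : c ^ 7 ≤ c := by
    have := pow_le_pow_of_le_one hc.le hc1.le (show 1 ≤ 7 by norm_num)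
    rwa [pow_one] at this
  set ε : ℝ := e + Δ / c + L with hεdef
  have hε0 : 0 ≤ ε := by positivity
  have hL1 : L ≤ 1 / 5000 := by linarith
  have hΔ2 : Δ ≤ c / 2 := by
    have h1 : Δ / c ≤ 1 / 2 := by linarith
    rw [div_le_iff₀ hc] at h1
    linarith
  have hcs : 4 ≤ c ^ 2 * s := by
    rw [div_le_iff₀ (by positivity)] at hs
    linarith
  -- weights
  have hw0 : ∀ y z, 0 ≤ w x y z := by
    intro y z
    by_cases h : x ∈ X ∧ y ∈ Yx x ∧ z ∈ Zx x ∧ (y, z) ∈ E0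
    · have := (H.w1 x h.1 y h.2.1 z h.2.2.1 h.2.2.2).1
      have h1 : 0 ≤ c / s := by positivity
      linarith
    · rw [H.w0 x y z h]
  have hw1 : ∀ y z, w x y z ≤ 1 / (c * s) := by
    intro y z
    by_cases h : x ∈ X ∧ y ∈ Yx x ∧ z ∈ Zx x ∧ (y, z) ∈ E0
    · exact (H.w1 x h.1 y h.2.1 z h.2.2.1 h.2.2.2).2
    · rw [H.w0 x y z h]
      positivity
  have hSc : ∀ y z, (y, z) ∈ E0 → c ≤ S y z := by
    intro y z h
    have h1 := (hS y z h).1
    have h2 := hw0 y z
    linarith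
  have hApos : ∀ y z, A y z ≠ 0 → 0 < A y z := fun y z h => lt_of_le_of_ne (hA0 y z) (Ne.symm h)
  have hAM : ∀ y z, A y z ≤ 2 / c := by
    intro y z
    by_cases h : A y z = 0
    · rw [h]
      positivity
    · obtain ⟨h1, h2⟩ := hA y z h
      have h3 := hSc y z h1
      have h4 : 0 < A y z * S y z := mul_pos (hApos y z h) (by linarith)
      have h5 : A y z * S y z ≤ 2 := by
        have h6 := (Real.log_le_iff_le_exp h4).mp ((abs_le.mp h2).2)
        have h7 : Real.exp L ≤ 2 := by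
          have h8 := Real.abs_exp_sub_one_le (x := L) (by rw [abs_of_nonneg hL]; linarith)
          rw [abs_of_nonneg hL] at h8
          have := (abs_le.mp h8).2
          linarith
        linarith
      rw [le_div_iff₀ hc]
      have h6 := mul_le_mul_of_nonneg_left h3 (hA0 y z)
      linarith
  -- size of the link
  have hcardYZ := H.card x hx
  have hcard2 : (Yx x).Nonempty → 2 ≤ (Yx x).card := by
    rintro ⟨y, hy⟩
    have h1 := (abs_le.mp (H.sumY x hx y hy)).1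
    have h2 : ∑ z ∈ Z, w x y z = ∑ z ∈ Zx x, w x y z := by
      symm
      apply Finset.sum_subset (H.subZ x hx)
      intro z _ hz
      exact H.w0 x y z (fun h => hz h.2.2.1)
    have h3 : ∑ z ∈ Zx x, w x y z ≤ ∑ z ∈ Zx x, 1 / (c * s) :=
      Finset.sum_le_sum (fun z _ => hw1 y z)
    rw [Finset.sum_const, nsmul_eq_mul, mul_one_div] at h3
    have h4 : 1 / 2 ≤ ((Zx x).card : ℝ) / (c * s) := by
      have : e ≤ 1 / 2 := by linarith
      linarith
    rw [le_div_iff₀ (by positivity)] at h4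
    have h5 : 2 < c * s := by
      have h6 : c ^ 2 * s < c * s := by
        have : c ^ 2 < c := by nlinarith
        exact mul_lt_mul_of_pos_right this hs0
      linarith
    have h6 : (1 : ℝ) < ((Zx x).card : ℝ) := by linarith
    rw [hcardYZ]
    exact_mod_cast h6
  -- the graph of alive pairs
  set Γ : Finset (β × γ) := ((Yx x) ×ˢ (Zx x)).filter (fun q => A q.1 q.2 ≠ 0) with hΓdef
  have hΓ : ∀ y z, (y, z) ∈ Γ ↔ (y ∈ Yx x ∧ z ∈ Zx x) ∧ A y z ≠ 0 := by
    intro y z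
    rw [hΓdef, Finset.mem_filter, Finset.mem_product]
  set W : β → γ → ℝ := fun y z => if (y, z) ∈ Γ then w x y z / S y z else 0 with hWdef
  have hWΓ : ∀ y z, (y, z) ∈ Γ → W y z = w x y z / S y z := by
    intro y z h
    simp only [hWdef]
    rw [if_pos h]
  have hWn : ∀ y z, (y, z) ∉ Γ → W y z = 0 := by
    intro y z h
    simp only [hWdef]
    rw [if_neg h]
  have hWlo : ∀ y z, (y, z) ∈ Γ → c / s ≤ W y z := by
    intro y z h
    rw [hWΓ y z h]
    obtain ⟨⟨h1, h2⟩, h3⟩ := (hΓ y z).mp h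
    obtain ⟨h4, _⟩ := hA y z h3
    have h5 := (H.w1 x hx y h1 z h2 h4).1
    have h6 := (hS y z h4).2
    have h7 := hSc y z h4
    rw [le_div_iff₀ (by linarith)]
    have h8 : c / s * S y z ≤ c / s * 1 := mul_le_mul_of_nonneg_left h6 (by positivity)
    linarith
  have hWhi : ∀ y z, W y z ≤ 1 / (c ^ 2 * s) := by
    intro y z
    by_cases h : (y, z) ∈ Γ
    · rw [hWΓ y z h]
      obtain ⟨⟨h1, h2⟩, h3⟩ := (hΓ y z).mp h
      obtain ⟨h4, _⟩ := hA y z h3
      have h7 := hSc y z h4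
      have h8 : w x y z / S y z ≤ (1 / (c * s)) / c :=
        div_le_div₀ (by positivity) (hw1 y z) hc h7
      have h9 : (1 / (c * s)) / c = 1 / (c ^ 2 * s) := by
        field_simp
      linarith
    · rw [hWn y z h]
      positivity
  have hWw : ∀ y z, y ∈ Yx x → z ∈ Zx x →
      |W y z - w x y z * A y z| ≤ 2 * L * (w x y z * A y z) := by
    intro y z hy hz
    by_cases h : A y z = 0
    · have h1 : (y, z) ∉ Γ := fun h2 => ((hΓ y z).mp h2).2 h
      rw [hWn y z h1, h]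
      simp
    · rw [hWΓ y z ((hΓ y z).mpr ⟨⟨hy, hz⟩, h⟩)]
      obtain ⟨h4, h5⟩ := hA y z h
      exact weight_aux _ _ _ L (hw0 y z) (hApos y z h) (by linarith [hSc y z h4]) (by linarith) h5
  -- apply the link lemma
  have hκ2 : 33 * (2 * ε) / (c ^ 3 / 8) ^ 2 = 4224 * ε / c ^ 6 := by
    field_simp
    ring
  obtain ⟨m, p, π, h, hp0, hp1, hbij, hsup, hform, hclose, hoff⟩ :=
    link (Yx x) (Zx x) Γ hcardYZ (by rw [hΓdef]; exact Finset.filter_subset _ _) W s c (c ^ 3 / 8)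
      (2 * ε) hs0 (by positivity) (by
        have : c ^ 3 ≤ 1 := pow_le_one₀ hc.le hc1.le
        linarith) (by positivity) (by
        rw [hκ2, div_le_iff₀ (by positivity)]
        have h1 : c * c ^ 6 = c ^ 7 := by ring
        rw [h1]
        linarith) (by
        refine le_trans ?_ H.cY
        exact_mod_cast Finset.card_le_card (H.subY x hx)) hWn hWlo (by
        intro y hy
        exact row_aux (Zx x) Z (H.subZ x hx) (fun z => w x y z) (fun z => A y z) (fun z => W y z)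
          L e (Δ / c) hL (by linarith) he hΔc (fun z hz => hWw y z hy hz)
          (fun z hz => H.w0 x y z (fun h => hz h.2.2.1)) (htY y hy) (H.sumY x hx y hy)) (by
        intro z hz
        exact row_aux (Yx x) Y (H.subY x hx) (fun y => w x y z) (fun y => A y z) (fun y => W y z)
          L e (Δ / c) hL (by linarith) he hΔc (fun y hy => hWw y z hy hz)
          (fun y hy => H.w0 x y z (fun h => hy h.2.1)) (htZ z hz) (H.sumZ x hx z hz)) (by
        intro y hy
        have h1 := com_aux (Yx x) (Zx x) (fun y z => (y, z) ∈ E0) A c s Δ hc hs0 hΔ2 hA0 hAM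
          (hcard2 ⟨y, hy⟩) (by
            intro y hy
            convert H.comY x hx y hy) (by
            intro y hy y' hy' hne
            convert hqY y hy y' hy' hne) y hy
        refine le_trans (Nat.mul_le_mul_left 4 (Finset.card_le_card ?_)) h1
        intro y' hy'
        rw [Finset.mem_filter] at hy' ⊢
        refine ⟨hy'.1, lt_of_le_of_lt ?_ hy'.2⟩
        exact_mod_cast Finset.card_le_card (fun z hz => by
          rw [Finset.mem_filter] at hz ⊢
          exact ⟨hz.1, (hΓ y z).mpr ⟨⟨hy, hz.1⟩, hz.2.1⟩, (hΓ y' z).mpr ⟨⟨hy'.1, hz.1⟩, hz.2.2⟩⟩)) (by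
        intro z hz
        have hYne : (Yx x).Nonempty := by
          rw [← Finset.card_pos, hcardYZ]
          exact Finset.card_pos.mpr ⟨z, hz⟩
        have h1 := com_aux (Zx x) (Yx x) (fun z y => (y, z) ∈ E0) (fun z y => A y z) c s Δ hc hs0 hΔ2
          (fun z y => hA0 y z) (fun z y => hAM y z)
          (by rw [← hcardYZ]; exact hcard2 hYne) (by
            intro z hz
            convert H.comZ x hx z hz) (by
            intro z hz z' hz' hne
            convert hqZ z hz z' hz' hne) z hz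
        refine le_trans (Nat.mul_le_mul_left 4 (Finset.card_le_card ?_)) h1
        intro z' hz'
        rw [Finset.mem_filter] at hz' ⊢
        refine ⟨hz'.1, lt_of_le_of_lt ?_ hz'.2⟩
        exact_mod_cast Finset.card_le_card (fun y hy => by
          rw [Finset.mem_filter] at hy ⊢
          exact ⟨hy.1, (hΓ y z).mpr ⟨⟨hy.1, hz⟩, hy.2.1⟩, (hΓ y z').mpr ⟨⟨hy.1, hz'.1⟩, hy.2.2⟩⟩))
  have hclose' : ∀ y z, |h y z - W y z| ≤ 4224 * ε / (c ^ 6 * s) := by
    intro y z
    refine le_trans (hclose y z) (le_of_eq ?_)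
    field_simp
    ring
  have hcs6 : 4224 * ε / (c ^ 6 * s) ≤ c / s := by
    rw [div_le_div_iff₀ (by positivity) hs0]
    have h1 : c * (c ^ 6 * s) = c ^ 7 * s := by ring
    rw [h1]
    exact mul_le_mul_of_nonneg_right (by linarith) hs0.le
  have hcc : c / s ≤ 1 / (c ^ 2 * s) := by
    rw [div_le_div_iff₀ hs0 (by positivity)]
    have h1 : c * (c ^ 2 * s) = c ^ 3 * s := by ring
    have h2 : c ^ 3 ≤ 1 := pow_le_one₀ hc.le hc1.le
    rw [h1]
    exact mul_le_mul_of_nonneg_right h2 hs0.le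
  have hhle : ∀ y z, h y z ≤ 2 / (c ^ 2 * s) := by
    intro y z
    have h1 := (abs_le.mp (hclose' y z)).2
    have h2 := hWhi y z
    have h3 : 2 / (c ^ 2 * s) = 1 / (c ^ 2 * s) + 1 / (c ^ 2 * s) := by ring
    rw [h3]
    linarith
  have hle14 : 1 / (c ^ 2 * s) ≤ 1 / 4 := by
    apply one_div_le_one_div_of_le (by norm_num) hcs
  have hhalf : ∀ y z, h y z ≤ 1 / 2 := by
    intro y z
    have h1 := hhle y z
    have h3 : 2 / (c ^ 2 * s) = 1 / (c ^ 2 * s) + 1 / (c ^ 2 * s) := by ring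
    rw [h3] at h1
    linarith
  refine ⟨m, p, π, h, ⟨hp0, hp1, hbij, ?_, hhalf⟩, hhle, ?_, ?_⟩
  · intro y z
    rw [hform y z]
  · intro i hi y hy
    exact ((hΓ y (π i y)).mp (hsup i hi y hy)).2
  · intro i y z hne
    have hdef : nextA A h (Yx x) (π i) y z = A y z / (1 - h y z) := by
      unfold nextA at hne ⊢
      split_ifs at hne ⊢ with h1
      · exact absurd rfl hne
      · rfl
    rw [hdef] at hne ⊢
    have hAne : A y z ≠ 0 := by
      intro h1
      rw [h1, zero_div] at hne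
      exact hne rfl
    obtain ⟨hE, hlog⟩ := hA y z hAne
    have hAp := hApos y z hAne
    have hSp : 0 < S y z := by linarith [hSc y z hE]
    have hε6 : 0 ≤ 8448 * ε / (c ^ 6 * s) := by positivity
    by_cases hin : (y, z) ∈ Γ
    · have hW1 := hWΓ y z hin
      have h1 : S y z - w x y z = S y z * (1 - W y z) := by
        rw [hW1]
        field_simp
      have hWp : 1 / 2 ≤ 1 - W y z := by
        have := hWhi y z
        linarith
      have hhp : 1 / 2 ≤ 1 - h y z := by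
        have := hhalf y z
        linarith
      have h2 : A y z / (1 - h y z) * (S y z - w x y z) =
          A y z * S y z * (1 - W y z) / (1 - h y z) := by
        rw [h1]
        ring
      rw [h2, Real.log_div (mul_pos (mul_pos hAp hSp) (by linarith)).ne' (by linarith),
        Real.log_mul (mul_pos hAp hSp).ne' (by linarith)]
      have h3 := log_diff (1 - W y z) (1 - h y z) hWp hhp
      have h4 : (1 - W y z) - (1 - h y z) = h y z - W y z := by ring
      rw [h4] at h3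
      have h5 : Real.log (A y z * S y z) + Real.log (1 - W y z) - Real.log (1 - h y z) =
          Real.log (A y z * S y z) + (Real.log (1 - W y z) - Real.log (1 - h y z)) := by ring
      rw [h5]
      refine (abs_add_le _ _).trans ?_
      have h6 := hclose' y z
      have h7 : 8448 * ε / (c ^ 6 * s) = 2 * (4224 * ε / (c ^ 6 * s)) := by ring
      rw [h7]
      linarith
    · have h1 : h y z = 0 := hoff y z hin
      have h2 : w x y z = 0 := by
        apply H.w0
        rintro ⟨_, h3, h4, _⟩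
        exact hin ((hΓ y z).mpr ⟨⟨h3, h4⟩, hAne⟩)
      rw [h1, h2, sub_zero, sub_zero, div_one]
      linarith

end Pool.Agent.Lib.TriD
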