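import Mathlib

set_option autoImplicit false

/-!
MODULE Sel (about 120 lines).

PROOF. Put `Y j s = X j s - X j s0` and `Φ s = ∑ j, Real.cosh (lam * Y j s)`.
By induction on `t ≤ T` one builds `σ 0, ..., σ t` with `Step`, `Good t (σ t)` and
`Φ (σ t) ≤ card J * exp (t * (lam * d + lam ^ 2 * a ^ 2))`  (*).
(*) gives the bound on `|X j (σ t) - X j s0|`: `cosh y ≥ exp |y| / 2`, so
`exp (lam * |Y j|) ≤ 2 * card J * exp (t * (...))`, take logarithms, divide by `lam`, use `t ≤ T`, `hD`.
Step: for the distribution `p, s'` of `hstep` and one `j` put `y = lam * Y j s`,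
`u i = lam * (X j (s' i) - X j s)`, `|u i| ≤ lam * a ≤ 1` if `0 < p i`. Then
`cosh (y + u) = (exp y * exp u + exp (-y) * exp (-u)) / 2`, `exp u ≤ 1 + u + u ^ 2` for `|u| ≤ 1`
(`Real.abs_exp_sub_one_sub_id_le`), so `∑ i, p i * exp (u i) ≤ 1 + lam * d + lam ^ 2 * a ^ 2 ≤
exp (lam * d + lam ^ 2 * a ^ 2)` and the same for `-u i`. Hence
`∑ i, p i * Φ (s' i) ≤ Φ s * exp (lam * d + lam ^ 2 * a ^ 2)` and some `i` with `0 < p i` has
`Φ (s' i) ≤` that. The sequence: first prove the statement [for all `t ≤ T` there is a function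
`σ : ℕ → S` with the properties up to `t`] by induction on `t` (`Function.update` at `t + 1`).
-/

namespace Pool.Agent.Lib.TriD

private lemma avg_exp {m : ℕ} (p u : Fin m → ℝ) (hp : ∀ i, 0 ≤ p i) (hs : ∑ i, p i = 1)
    (b c : ℝ) (hu : ∀ i, 0 < p i → |u i| ≤ b) (hb : b ≤ 1) (hm : ∑ i, p i * u i ≤ c) :
    ∑ i, p i * Real.exp (u i) ≤ Real.exp (c + b ^ 2) := by
  have h1 : ∀ i, p i * Real.exp (u i) ≤ p i * (1 + b ^ 2) + p i * u i := by
    intro i
    rcases (hp i).lt_or_eq with h | h
    · have h2 := hu i h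
      have h3 := (abs_le.mp (Real.abs_exp_sub_one_sub_id_le (h2.trans hb))).2
      have h4 : u i ^ 2 ≤ b ^ 2 := by
        rw [← sq_abs]
        exact pow_le_pow_left₀ (abs_nonneg _) h2 2
      have h5 : Real.exp (u i) ≤ 1 + u i + b ^ 2 := by linarith
      calc p i * Real.exp (u i) ≤ p i * (1 + u i + b ^ 2) := mul_le_mul_of_nonneg_left h5 (hp i)
        _ = p i * (1 + b ^ 2) + p i * u i := by ring
    · rw [← h]; simp
  calc ∑ i, p i * Real.exp (u i) ≤ ∑ i, (p i * (1 + b ^ 2) + p i * u i) :=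
        Finset.sum_le_sum (fun i _ => h1 i)
    _ = (1 + b ^ 2) + ∑ i, p i * u i := by
        rw [Finset.sum_add_distrib, ← Finset.sum_mul, hs, one_mul]
    _ ≤ (c + b ^ 2) + 1 := by linarith
    _ ≤ Real.exp (c + b ^ 2) := Real.add_one_le_exp _

private lemma avg_cosh {m : ℕ} (p u : Fin m → ℝ) (hp : ∀ i, 0 ≤ p i) (hs : ∑ i, p i = 1)
    (y b c : ℝ) (hu : ∀ i, 0 < p i → |u i| ≤ b) (hb : b ≤ 1) (hm : |∑ i, p i * u i| ≤ c) :
    ∑ i, p i * Real.cosh (y + u i) ≤ Real.cosh y * Real.exp (c + b ^ 2) := by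
  have hm' := abs_le.mp hm
  have h1 := avg_exp p u hp hs b c hu hb hm'.2
  have h2 := avg_exp p (fun i => - u i) hp hs b c (fun i hi => by rw [abs_neg]; exact hu i hi) hb
    (by
      have : ∑ i, p i * (- u i) = - ∑ i, p i * u i := by
        rw [← Finset.sum_neg_distrib]
        exact Finset.sum_congr rfl (fun i _ => by ring)
      rw [this]; linarith [hm'.1])
  have h3 : ∑ i, p i * Real.cosh (y + u i) = Real.exp y / 2 * ∑ i, p i * Real.exp (u i) +
      Real.exp (-y) / 2 * ∑ i, p i * Real.exp (- u i) := by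
    rw [Finset.mul_sum, Finset.mul_sum, ← Finset.sum_add_distrib]
    refine Finset.sum_congr rfl (fun i _ => ?_)
    rw [Real.cosh_eq, neg_add, Real.exp_add, Real.exp_add]
    ring
  rw [h3, Real.cosh_eq]
  have h4 : Real.exp y / 2 * ∑ i, p i * Real.exp (u i) ≤
      Real.exp y / 2 * Real.exp (c + b ^ 2) :=
    mul_le_mul_of_nonneg_left h1 (by positivity)
  have h5 : Real.exp (-y) / 2 * ∑ i, p i * Real.exp (- u i) ≤
      Real.exp (-y) / 2 * Real.exp (c + b ^ 2) :=
    mul_le_mul_of_nonneg_left h2 (by positivity)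
  calc _ ≤ Real.exp y / 2 * Real.exp (c + b ^ 2) + Real.exp (-y) / 2 * Real.exp (c + b ^ 2) :=
        add_le_add h4 h5
    _ = _ := by ring

private lemma avg_pot {S J : Type} [Fintype J] (Y : J → S → ℝ) (lam a d : ℝ)
    (hlam : 0 < lam) (hla : lam * a ≤ 1) (s : S) {m : ℕ} (p : Fin m → ℝ) (s' : Fin m → S)
    (hp : ∀ i, 0 ≤ p i) (hs : ∑ i, p i = 1)
    (hu : ∀ j i, 0 < p i → |Y j (s' i) - Y j s| ≤ a)
    (hm : ∀ j, |∑ i, p i * Y j (s' i) - Y j s| ≤ d) :
    ∃ i, 0 < p i ∧ ∑ j, Real.cosh (lam * Y j (s' i)) ≤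
      (∑ j, Real.cosh (lam * Y j s)) * Real.exp (lam * d + lam ^ 2 * a ^ 2) := by
  by_contra hcon
  push Not at hcon
  have h1 : ∑ i, p i * ∑ j, Real.cosh (lam * Y j (s' i)) ≤
      (∑ j, Real.cosh (lam * Y j s)) * Real.exp (lam * d + lam ^ 2 * a ^ 2) := by
    have h2 : ∀ j, ∑ i, p i * Real.cosh (lam * Y j (s' i)) ≤
        Real.cosh (lam * Y j s) * Real.exp (lam * d + lam ^ 2 * a ^ 2) := by
      intro j
      have h3 := avg_cosh p (fun i => lam * (Y j (s' i) - Y j s)) hp hs (lam * Y j s)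
        (lam * a) (lam * d)
        (fun i hi => by
          rw [abs_mul, abs_of_pos hlam]
          exact mul_le_mul_of_nonneg_left (hu j i hi) hlam.le) hla
        (by
          have h4 : ∑ i, p i * (lam * (Y j (s' i) - Y j s)) =
              lam * (∑ i, p i * Y j (s' i) - Y j s) := by
            have h5 : Y j s = ∑ i, p i * Y j s := by rw [← Finset.sum_mul, hs, one_mul]
            conv_rhs => rw [h5]
            rw [← Finset.sum_sub_distrib, Finset.mul_sum]
            exact Finset.sum_congr rfl (fun i _ => by ring)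
          rw [h4, abs_mul, abs_of_pos hlam]
          exact mul_le_mul_of_nonneg_left (hm j) hlam.le)
      have h6 : lam * d + (lam * a) ^ 2 = lam * d + lam ^ 2 * a ^ 2 := by ring
      rw [h6] at h3
      refine le_trans (le_of_eq ?_) h3
      refine Finset.sum_congr rfl (fun i _ => ?_)
      have h7 : lam * Y j s + lam * (Y j (s' i) - Y j s) = lam * Y j (s' i) := by ring
      rw [h7]
    calc ∑ i, p i * ∑ j, Real.cosh (lam * Y j (s' i))
        = ∑ j, ∑ i, p i * Real.cosh (lam * Y j (s' i)) := by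
          rw [Finset.sum_comm]
          exact Finset.sum_congr rfl (fun i _ => Finset.mul_sum _ _ _)
      _ ≤ ∑ j, Real.cosh (lam * Y j s) * Real.exp (lam * d + lam ^ 2 * a ^ 2) :=
          Finset.sum_le_sum (fun j _ => h2 j)
      _ = _ := by rw [Finset.sum_mul]
  have h8 : ∃ i, 0 < p i := by
    by_contra h9
    push Not at h9
    have h10 : ∑ i, p i ≤ 0 := Finset.sum_nonpos (fun i _ => h9 i)
    rw [hs] at h10
    linarith
  obtain ⟨i0, hi0⟩ := h8
  have h11 : (∑ j, Real.cosh (lam * Y j s)) * Real.exp (lam * d + lam ^ 2 * a ^ 2) <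
      ∑ i, p i * ∑ j, Real.cosh (lam * Y j (s' i)) := by
    calc (∑ j, Real.cosh (lam * Y j s)) * Real.exp (lam * d + lam ^ 2 * a ^ 2)
        = ∑ i, p i * ((∑ j, Real.cosh (lam * Y j s)) *
            Real.exp (lam * d + lam ^ 2 * a ^ 2)) := by
          rw [← Finset.sum_mul, hs, one_mul]
      _ < _ := by
          refine Finset.sum_lt_sum (fun i _ => ?_) ⟨i0, Finset.mem_univ _, ?_⟩
          · rcases (hp i).lt_or_eq with h | h
            · exact mul_le_mul_of_nonneg_left (hcon i h).le (hp i)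
            · rw [← h]; simp
          · exact mul_lt_mul_of_pos_left (hcon i0 hi0) hi0
  linarith

private lemma pot_bound {S J : Type} [Fintype J] [Nonempty J] (Y : J → S → ℝ)
    (T : ℕ) (a d D lam : ℝ) (hd : 0 ≤ d) (hlam : 0 < lam)
    (hD : T * d + Real.log (2 * Fintype.card J) / lam + T * lam * a ^ 2 ≤ D)
    (s : S) (t : ℕ) (ht : t ≤ T)
    (h : ∑ j, Real.cosh (lam * Y j s) ≤
      Fintype.card J * Real.exp (t * (lam * d + lam ^ 2 * a ^ 2))) (j : J) :
    |Y j s| ≤ D := by
  have h1 : Real.cosh (lam * Y j s) ≤ ∑ j, Real.cosh (lam * Y j s) :=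
    Finset.single_le_sum (f := fun j => Real.cosh (lam * Y j s))
      (fun j _ => (Real.cosh_pos _).le) (Finset.mem_univ j)
  have h2 : Real.exp (lam * |Y j s|) ≤ 2 * Real.cosh (lam * Y j s) := by
    have h3 : Real.cosh (lam * Y j s) = Real.cosh (lam * |Y j s|) := by
      rw [← Real.cosh_abs (lam * Y j s), abs_mul, abs_of_pos hlam]
    rw [h3, Real.cosh_eq]
    have := Real.exp_pos (-(lam * |Y j s|))
    linarith
  have hc : (0 : ℝ) < Fintype.card J := by exact_mod_cast Fintype.card_pos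
  have h4 : Real.exp (lam * |Y j s|) ≤
      2 * Fintype.card J * Real.exp (t * (lam * d + lam ^ 2 * a ^ 2)) := by
    calc _ ≤ 2 * Real.cosh (lam * Y j s) := h2
      _ ≤ 2 * (Fintype.card J * Real.exp (t * (lam * d + lam ^ 2 * a ^ 2))) := by linarith
      _ = _ := by ring
  have h5 : lam * |Y j s| ≤ Real.log (2 * Fintype.card J) +
      t * (lam * d + lam ^ 2 * a ^ 2) := by
    have h6 := Real.log_le_log (Real.exp_pos _) h4
    rwa [Real.log_exp, Real.log_mul (by positivity) (Real.exp_pos _).ne', Real.log_exp] at h6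
  have h7 : (t : ℝ) ≤ T := by exact_mod_cast ht
  have h8 : (t : ℝ) * (lam * d + lam ^ 2 * a ^ 2) ≤ T * (lam * d + lam ^ 2 * a ^ 2) :=
    mul_le_mul_of_nonneg_right h7 (by positivity)
  have h9 : lam * |Y j s| ≤ lam * D := by
    calc lam * |Y j s| ≤ Real.log (2 * Fintype.card J) + T * (lam * d + lam ^ 2 * a ^ 2) := by
          linarith
      _ = lam * (T * d + Real.log (2 * Fintype.card J) / lam + T * lam * a ^ 2) := by
          field_simp
          ring
      _ ≤ lam * D := mul_le_mul_of_nonneg_left hD hlam.le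
  exact le_of_mul_le_mul_left h9 hlam

theorem selection {S J : Type} [Fintype J] [Nonempty J]
    (X : J → S → ℝ) (Step : ℕ → S → S → Prop) (Good : ℕ → S → Prop) (T : ℕ)
    (a d D lam : ℝ) (ha : 0 < a) (hd : 0 ≤ d) (hlam : 0 < lam) (hla : lam * a ≤ 1)
    (hD : T * d + Real.log (2 * Fintype.card J) / lam + T * lam * a ^ 2 ≤ D)
    (s0 : S) (h0 : Good 0 s0)
    (hstep : ∀ t < T, ∀ s, Good t s → (∀ j, |X j s - X j s0| ≤ D) →
      ∃ (m : ℕ) (p : Fin m → ℝ) (s' : Fin m → S), (∀ i, 0 ≤ p i) ∧ ∑ i, p i = 1 ∧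
        (∀ i, 0 < p i → Step t s (s' i) ∧ Good (t + 1) (s' i)) ∧
        (∀ j i, 0 < p i → |X j (s' i) - X j s| ≤ a) ∧
        (∀ j, |∑ i, p i * X j (s' i) - X j s| ≤ d)) :
    ∃ σ : ℕ → S, σ 0 = s0 ∧ (∀ t < T, Step t (σ t) (σ (t + 1))) ∧ (∀ t ≤ T, Good t (σ t)) ∧
      (∀ t ≤ T, ∀ j, |X j (σ t) - X j s0| ≤ D) := by
  classical
  have main : ∀ t ≤ T, ∃ σ : ℕ → S, σ 0 = s0 ∧ (∀ r < t, Step r (σ r) (σ (r + 1))) ∧
      (∀ r ≤ t, Good r (σ r)) ∧
      (∀ r ≤ t, ∑ j, Real.cosh (lam * (X j (σ r) - X j s0)) ≤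
        Fintype.card J * Real.exp (r * (lam * d + lam ^ 2 * a ^ 2))) := by
    intro t
    induction t with
    | zero =>
      intro _
      refine ⟨fun _ => s0, rfl, fun r hr => absurd hr (Nat.not_lt_zero _), ?_, ?_⟩
      · intro r hr
        obtain rfl : r = 0 := by omega
        exact h0
      · intro r hr
        obtain rfl : r = 0 := by omega
        simp
    | succ t ih =>
      intro ht
      obtain ⟨σ, hσ0, hσ1, hσ2, hσ3⟩ := ih (by omega)
      have hbd : ∀ j, |X j (σ t) - X j s0| ≤ D := fun j =>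
        pot_bound (fun j s => X j s - X j s0) T a d D lam hd hlam hD (σ t) t (by omega)
          (hσ3 t le_rfl) j
      obtain ⟨m, p, s', hp, hs, hgood, hinc, hmean⟩ :=
        hstep t (by omega) (σ t) (hσ2 t le_rfl) hbd
      obtain ⟨i, hi, hpot⟩ := avg_pot (fun j s => X j s - X j s0) lam a d hlam hla (σ t) p s'
        hp hs
        (fun j i hi => by
          have h1 : X j (s' i) - X j s0 - (X j (σ t) - X j s0) = X j (s' i) - X j (σ t) := by
            ring
          simp only [h1]
          exact hinc j i hi)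
        (fun j => by
          have h1 : ∑ i, p i * (X j (s' i) - X j s0) - (X j (σ t) - X j s0) =
              ∑ i, p i * X j (s' i) - X j (σ t) := by
            have h2 : ∑ i, p i * (X j (s' i) - X j s0) = ∑ i, p i * X j (s' i) - X j s0 := by
              calc _ = ∑ i, (p i * X j (s' i) - p i * X j s0) :=
                    Finset.sum_congr rfl (fun i _ => by ring)
                _ = _ := by rw [Finset.sum_sub_distrib, ← Finset.sum_mul, hs, one_mul]
            rw [h2]
            ring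
          simp only [h1]
          exact hmean j)
      have hne : ∀ r ≤ t, Function.update σ (t + 1) (s' i) r = σ r := by
        intro r hr
        exact Function.update_of_ne (by omega) _ _
      have heq : Function.update σ (t + 1) (s' i) (t + 1) = s' i := Function.update_self _ _ _
      refine ⟨Function.update σ (t + 1) (s' i), ?_, ?_, ?_, ?_⟩
      · rw [hne 0 (by omega)]; exact hσ0
      · intro r hr
        rcases Nat.lt_or_ge r t with h | h
        · rw [hne r h.le, hne (r + 1) h]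
          exact hσ1 r h
        · obtain rfl : r = t := by omega
          rw [hne r le_rfl, heq]
          exact (hgood i hi).1
      · intro r hr
        rcases Nat.lt_or_ge r (t + 1) with h | h
        · rw [hne r (by omega)]
          exact hσ2 r (by omega)
        · obtain rfl : r = t + 1 := by omega
          rw [heq]
          exact (hgood i hi).2
      · intro r hr
        rcases Nat.lt_or_ge r (t + 1) with h | h
        · rw [hne r (by omega)]
          exact hσ3 r (by omega)
        · obtain rfl : r = t + 1 := by omega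
          rw [heq]
          refine hpot.trans ?_
          have h1 := hσ3 t le_rfl
          calc _ ≤ (Fintype.card J * Real.exp (t * (lam * d + lam ^ 2 * a ^ 2))) *
                Real.exp (lam * d + lam ^ 2 * a ^ 2) :=
                mul_le_mul_of_nonneg_right h1 (Real.exp_pos _).le
            _ = Fintype.card J * Real.exp (((t + 1 : ℕ) : ℝ) * (lam * d + lam ^ 2 * a ^ 2)) := by
                rw [mul_assoc, ← Real.exp_add]
                push_cast
                ring_nf
  obtain ⟨σ, hσ0, hσ1, hσ2, hσ3⟩ := main T le_rfl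
  exact ⟨σ, hσ0, hσ1, hσ2, fun t ht j =>
    pot_bound (fun j s => X j s - X j s0) T a d D lam hd hlam hD (σ t) t ht (hσ3 t ht) j⟩

end Pool.Agent.Lib.TriD
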