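import Pool.Agent.Lib.TriD.NiceT
import Pool.Agent.Lib.TriD.RNum
import Pool.Agent.Lib.TriD.RStep
import Pool.Agent.Lib.TriD.Sel

set_option autoImplicit false

/-!
MODULE RSel (about 350 lines). The path of the round lemma.

PROOF. Constants: `M = 2 / c`, `hm s = 2 / (c ^ 2 * s)`, `C2 = 8448 / c ^ 6`, `Δ = s ^ (-1/3)`,
`a = 9 * M ^ 2 / s = 36 / (c ^ 2 * s)`, `d = 4 * M ^ 2 * hm / s = 32 / (c ^ 4 * s ^ 2)`,
`e0 = c ^ 7 / (10000 * exp C2)`, `s0` such that `rnum` applies, `s ^ (-1/3) / c ≤ e0`, `4 / c ^ 2 ≤ s`, `5 ≤ s`.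
`T = X.card`, `xs` an enumeration of `X` (`X.equivFin`; if `X` is empty everything is trivial, `T = 0`; then there may
be no element of `α`: in this case use `Nonempty α` as given in the statement).
`S t y z = 1 - ∑ i ∈ range t, w (xs i) y z`; for `(y,z) ∈ E0`: `c ≤ S t y z ≤ 1` for `t ≤ T` by `haz` and `w ≥ 0`.
`L t = (e + Δ / c) * ((1 + C2 / s) ^ t - 1)`, so `L 0 = 0`, `L (t+1) = L t + (C2 / s) * (e + Δ / c + L t)` and
`e + Δ / c + L t = (e + Δ / c) * (1 + C2 / s) ^ t ≤ (e + Δ / c) * exp C2 ≤ c ^ 7 / 5000` for `t ≤ T ≤ s`.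
Tests (finset `𝒯` of functionals, `J = {f // f ∈ 𝒯}`): the zero functional; for `t ∈ TY` the functional
`A ↦ ∑ z ∈ Z, t.2 z * A t.1 z`; for `t ∈ TZ` the functional `A ↦ ∑ y ∈ Y, t.2 y * A y t.1`; for `x ∈ X, y ∈ Y`:
`A ↦ ∑ z ∈ Z, (c * w x y z) * A y z` (`|c * w| ≤ 1 / s`); for `x ∈ X, z ∈ Z` `A ↦ ∑ y ∈ Y, (c * w x y z) * A y z`; for
`x ∈ X`, `y ≠ y'` in `Y`: `A ↦ (∑ z ∈ Zx x, A y z * A y' z) / s`; for `x ∈ X`, `z ≠ z'` in `Z`:
`A ↦ (∑ y ∈ Yx x, A y z * A y z') / s`. All are `Nice M hm a d` by NiceT. `card 𝒯 ≤ 1 + 2 s^20 + 2 s^2 + 2 s^3 ≤ s^21`.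
(For `x ∈ X` some `w x y z` outside the bounds: `|w x y z| ≤ 1/(c s)` always by `w0, w1`.)
`selection` with states `A : β → γ → ℝ`, `s0 = A0 = indicator of E0`, `D = Δ`,
`Good t A := (∀ y z, 0 ≤ A y z) ∧ ∀ y z, A y z ≠ 0 → (y, z) ∈ E0 ∧ |log (A y z * S t y z)| ≤ L t`,
`Step t A A' := ∃ π, BijOn π (Yx (xs t)) (Zx (xs t)) ∧ (∀ y ∈ Yx (xs t), A y (π y) ≠ 0) ∧
 ∀ y z, A' y z ≠ 0 ↔ A y z ≠ 0 ∧ ¬ (y ∈ Yx (xs t) ∧ π y = z)`.
The step condition: `rstep` for `x = xs t`, `L = L t`, `S = S t` gives the draw; successors `nextA A h (Yx x) (π i)`; their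
test increments by `Nice` (`A ≤ M`: if `A y z ≠ 0` then `A * S t ≤ exp (L t) ≤ 2`, `S t ≥ c`); the hypotheses `htY ...` of
`rstep` are the link tests divided by `c` (initial value of the test: `∑ z ∈ Z, c * w x y z * A0 y z = c * ∑ z ∈ Z, w x y z` by
`w0`), `hqY` the quadratic tests (initial value `card {z ∈ Zx x | both in E0} / s`).
Result `|log (A T * S T)| ≤ L T ≤ (e + Δ / c) * exp C2`.
-/

namespace Pool.Agent.Lib.TriD

open scoped Classical in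
private theorem rs_w {α β γ : Type} {X : Finset α} {Y : Finset β} {Z : Finset γ}
    {E0 : Finset (β × γ)} {Yx : α → Finset β} {Zx : α → Finset γ} {w : α → β → γ → ℝ}
    {c s e : ℝ} (H : RHyp X Y Z E0 Yx Zx w c s e) (x : α) (y : β) (z : γ) :
    0 ≤ w x y z ∧ w x y z ≤ 1 / (c * s) := by
  have hs : 0 < s := lt_of_lt_of_le one_pos H.hs
  have hc := H.hc
  by_cases h : x ∈ X ∧ y ∈ Yx x ∧ z ∈ Zx x ∧ (y, z) ∈ E0
  · obtain ⟨h1, h2, h3, h4⟩ := h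
    have h5 := H.w1 x h1 y h2 z h3 h4
    exact ⟨le_trans (div_nonneg H.hc.le hs.le) h5.1, h5.2⟩
  · rw [H.w0 x y z h]
    exact ⟨le_refl _, by positivity⟩

open scoped Classical in
private theorem rs_cw {α β γ : Type} {X : Finset α} {Y : Finset β} {Z : Finset γ}
    {E0 : Finset (β × γ)} {Yx : α → Finset β} {Zx : α → Finset γ} {w : α → β → γ → ℝ}
    {c s e : ℝ} (H : RHyp X Y Z E0 Yx Zx w c s e) (x : α) (y : β) (z : γ) :
    |c * w x y z| ≤ 1 / s := by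
  have hs : 0 < s := lt_of_lt_of_le one_pos H.hs
  have hc := H.hc
  obtain ⟨h1, h2⟩ := rs_w H x y z
  rw [abs_of_nonneg (mul_nonneg hc.le h1)]
  calc c * w x y z ≤ c * (1 / (c * s)) := mul_le_mul_of_nonneg_left h2 hc.le
    _ = 1 / s := by field_simp

private theorem rs_card {s : ℝ} (hs : 5 ≤ s) {a b x y z : ℕ} (ha : (a : ℝ) ≤ s ^ 20)
    (hb : (b : ℝ) ≤ s ^ 20) (hx : (x : ℝ) ≤ s) (hy : (y : ℝ) ≤ s) (hz : (z : ℝ) ≤ s) {n : ℕ}
    (hn : n ≤ 1 + a + b + x * y + x * z + x * (y * y) + x * (z * z)) : (n : ℝ) ≤ s ^ 21 := by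
  have h0 : (n : ℝ) ≤ 1 + a + b + x * y + x * z + x * (y * y) + x * (z * z) := by
    exact_mod_cast hn
  have x0 : (0 : ℝ) ≤ x := Nat.cast_nonneg x
  have y0 : (0 : ℝ) ≤ y := Nat.cast_nonneg y
  have z0 : (0 : ℝ) ≤ z := Nat.cast_nonneg z
  have s0 : (0 : ℝ) ≤ s := by linarith
  have h1 : (x : ℝ) * y ≤ s * s := mul_le_mul hx hy y0 s0
  have h2 : (x : ℝ) * z ≤ s * s := mul_le_mul hx hz z0 s0
  have h3 : (x : ℝ) * (y * y) ≤ s * (s * s) :=
    mul_le_mul hx (mul_le_mul hy hy y0 s0) (mul_nonneg y0 y0) s0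
  have h4 : (x : ℝ) * (z * z) ≤ s * (s * s) :=
    mul_le_mul hx (mul_le_mul hz hz z0 s0) (mul_nonneg z0 z0) s0
  have h5 : (1 : ℝ) ≤ s ^ 17 := one_le_pow₀ (by linarith)
  have h6 : s ^ 3 ≤ s ^ 20 := by
    have h7 : s ^ 20 = s ^ 3 * s ^ 17 := by ring
    rw [h7]
    nlinarith [pow_nonneg s0 3]
  have h8 : 5 * s ^ 20 ≤ s ^ 21 := by
    have h9 : s ^ 21 = s * s ^ 20 := by ring
    rw [h9]
    exact mul_le_mul_of_nonneg_right hs (pow_nonneg s0 20)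
  have h10 : s * (s * s) = s ^ 3 := by ring
  have h11 : s * s ≤ s ^ 3 / 5 := by nlinarith [mul_nonneg s0 s0]
  have h12 : (1 : ℝ) ≤ s ^ 3 / 5 := by nlinarith [mul_nonneg s0 s0]
  rw [h10] at h3 h4
  linarith

open scoped Classical in
private theorem rs_tests {α β γ : Type} {X : Finset α} {Y : Finset β} {Z : Finset γ}
    {E0 : Finset (β × γ)} {Yx : α → Finset β} {Zx : α → Finset γ} {w : α → β → γ → ℝ}
    {c s e : ℝ} (H : RHyp X Y Z E0 Yx Zx w c s e) (hs5 : 5 ≤ s) {M hm : ℝ} (hM : 1 ≤ M)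
    (hhm : 0 ≤ hm) (TY : Finset (β × (γ → ℝ))) (TZ : Finset (γ × (β → ℝ)))
    (hTY : ∀ t ∈ TY, ∀ z, |t.2 z| ≤ 1 / s) (hTZ : ∀ t ∈ TZ, ∀ y, |t.2 y| ≤ 1 / s)
    (hcY : (TY.card : ℝ) ≤ s ^ 20) (hcZ : (TZ.card : ℝ) ≤ s ^ 20) :
    ∃ 𝒯 : Finset ((β → γ → ℝ) → ℝ), 𝒯.Nonempty ∧ (𝒯.card : ℝ) ≤ s ^ 21 ∧
      (∀ f ∈ 𝒯, Nice M hm (9 * M ^ 2 / s) (4 * M ^ 2 * hm / s) f) ∧
      (∀ t ∈ TY, (fun A : β → γ → ℝ => ∑ z ∈ Z, t.2 z * A t.1 z) ∈ 𝒯) ∧
      (∀ t ∈ TZ, (fun A : β → γ → ℝ => ∑ y ∈ Y, t.2 y * A y t.1) ∈ 𝒯) ∧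
      (∀ x ∈ X, ∀ y ∈ Y, (fun A : β → γ → ℝ => ∑ z ∈ Z, (c * w x y z) * A y z) ∈ 𝒯) ∧
      (∀ x ∈ X, ∀ z ∈ Z, (fun A : β → γ → ℝ => ∑ y ∈ Y, (c * w x y z) * A y z) ∈ 𝒯) ∧
      (∀ x ∈ X, ∀ y ∈ Y, ∀ y' ∈ Y, y ≠ y' →
        (fun A : β → γ → ℝ => (∑ z ∈ Zx x, A y z * A y' z) / s) ∈ 𝒯) ∧
      (∀ x ∈ X, ∀ z ∈ Z, ∀ z' ∈ Z, z ≠ z' →
        (fun A : β → γ → ℝ => (∑ y ∈ Yx x, A y z * A y z') / s) ∈ 𝒯) := by
  have hs : 0 < s := by linarith
  let F0 : Finset ((β → γ → ℝ) → ℝ) := {fun _ => 0}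
  let F1 : Finset ((β → γ → ℝ) → ℝ) :=
    TY.image (fun t => fun A : β → γ → ℝ => ∑ z ∈ Z, t.2 z * A t.1 z)
  let F2 : Finset ((β → γ → ℝ) → ℝ) :=
    TZ.image (fun t => fun A : β → γ → ℝ => ∑ y ∈ Y, t.2 y * A y t.1)
  let F3 : Finset ((β → γ → ℝ) → ℝ) :=
    (X ×ˢ Y).image (fun q => fun A : β → γ → ℝ => ∑ z ∈ Z, (c * w q.1 q.2 z) * A q.2 z)
  let F4 : Finset ((β → γ → ℝ) → ℝ) :=
    (X ×ˢ Z).image (fun q => fun A : β → γ → ℝ => ∑ y ∈ Y, (c * w q.1 y q.2) * A y q.2)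
  let F5 : Finset ((β → γ → ℝ) → ℝ) :=
    ((X ×ˢ (Y ×ˢ Y)).filter (fun q => q.2.1 ≠ q.2.2)).image
      (fun q => fun A : β → γ → ℝ => (∑ z ∈ Zx q.1, A q.2.1 z * A q.2.2 z) / s)
  let F6 : Finset ((β → γ → ℝ) → ℝ) :=
    ((X ×ˢ (Z ×ˢ Z)).filter (fun q => q.2.1 ≠ q.2.2)).image
      (fun q => fun A : β → γ → ℝ => (∑ y ∈ Yx q.1, A y q.2.1 * A y q.2.2) / s)
  have c1 : F1.card ≤ TY.card := Finset.card_image_le
  have c2 : F2.card ≤ TZ.card := Finset.card_image_le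
  have c3 : F3.card ≤ X.card * Y.card := Finset.card_image_le.trans (Finset.card_product _ _).le
  have c4 : F4.card ≤ X.card * Z.card := Finset.card_image_le.trans (Finset.card_product _ _).le
  have c5 : F5.card ≤ X.card * (Y.card * Y.card) :=
    Finset.card_image_le.trans ((Finset.card_filter_le _ _).trans
      (by rw [Finset.card_product, Finset.card_product]))
  have c6 : F6.card ≤ X.card * (Z.card * Z.card) :=
    Finset.card_image_le.trans ((Finset.card_filter_le _ _).trans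
      (by rw [Finset.card_product, Finset.card_product]))
  have hcard : (F0 ∪ (F1 ∪ (F2 ∪ (F3 ∪ (F4 ∪ (F5 ∪ F6)))))).card ≤
      1 + TY.card + TZ.card + X.card * Y.card + X.card * Z.card + X.card * (Y.card * Y.card) +
        X.card * (Z.card * Z.card) := by
    have u0 := Finset.card_union_le F0 (F1 ∪ (F2 ∪ (F3 ∪ (F4 ∪ (F5 ∪ F6)))))
    have u1 := Finset.card_union_le F1 (F2 ∪ (F3 ∪ (F4 ∪ (F5 ∪ F6))))
    have u2 := Finset.card_union_le F2 (F3 ∪ (F4 ∪ (F5 ∪ F6)))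
    have u3 := Finset.card_union_le F3 (F4 ∪ (F5 ∪ F6))
    have u4 := Finset.card_union_le F4 (F5 ∪ F6)
    have u5 := Finset.card_union_le F5 F6
    have u6 : F0.card = 1 := Finset.card_singleton _
    omega
  refine ⟨F0 ∪ (F1 ∪ (F2 ∪ (F3 ∪ (F4 ∪ (F5 ∪ F6))))), ⟨fun _ => 0, ?_⟩,
    rs_card hs5 hcY hcZ H.cX H.cY H.cZ hcard, ?_, ?_, ?_, ?_, ?_, ?_, ?_⟩
  · exact Finset.mem_union_left _ (Finset.mem_singleton_self _)
  · intro f hf
    simp only [Finset.mem_union] at hf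
    rcases hf with hf | hf | hf | hf | hf | hf | hf
    · rw [Finset.mem_singleton.1 hf]
      exact nice_zero M hm s hhm hs
    · obtain ⟨t, ht, rfl⟩ := Finset.mem_image.1 hf
      exact nice_row M hm s hM hhm hs t.1 t.2 (hTY t ht) Z
    · obtain ⟨t, ht, rfl⟩ := Finset.mem_image.1 hf
      exact nice_col M hm s hM hhm hs t.1 t.2 (hTZ t ht) Y
    · obtain ⟨q, -, rfl⟩ := Finset.mem_image.1 hf
      exact nice_row M hm s hM hhm hs q.2 (fun z => c * w q.1 q.2 z) (fun z => rs_cw H _ _ _) Z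
    · obtain ⟨q, -, rfl⟩ := Finset.mem_image.1 hf
      exact nice_col M hm s hM hhm hs q.2 (fun y => c * w q.1 y q.2) (fun y => rs_cw H _ _ _) Y
    · obtain ⟨q, hq, rfl⟩ := Finset.mem_image.1 hf
      exact nice_quad_row M hm s hM hhm hs q.2.1 q.2.2 (Finset.mem_filter.1 hq).2 _
    · obtain ⟨q, hq, rfl⟩ := Finset.mem_image.1 hf
      exact nice_quad_col M hm s hM hhm hs q.2.1 q.2.2 (Finset.mem_filter.1 hq).2 _
  · intro t ht
    simp only [Finset.mem_union]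
    exact Or.inr (Or.inl (Finset.mem_image.2 ⟨t, ht, rfl⟩))
  · intro t ht
    simp only [Finset.mem_union]
    exact Or.inr (Or.inr (Or.inl (Finset.mem_image.2 ⟨t, ht, rfl⟩)))
  · intro x hx y hy
    simp only [Finset.mem_union]
    exact Or.inr (Or.inr (Or.inr (Or.inl (Finset.mem_image.2
      ⟨(x, y), Finset.mem_product.2 ⟨hx, hy⟩, rfl⟩))))
  · intro x hx z hz
    simp only [Finset.mem_union]
    exact Or.inr (Or.inr (Or.inr (Or.inr (Or.inl (Finset.mem_image.2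
      ⟨(x, z), Finset.mem_product.2 ⟨hx, hz⟩, rfl⟩)))))
  · intro x hx y hy y' hy' hne
    simp only [Finset.mem_union]
    exact Or.inr (Or.inr (Or.inr (Or.inr (Or.inr (Or.inl (Finset.mem_image.2
      ⟨(x, (y, y')), Finset.mem_filter.2 ⟨Finset.mem_product.2 ⟨hx, Finset.mem_product.2 ⟨hy, hy'⟩⟩,
        hne⟩, rfl⟩))))))
  · intro x hx z hz z' hz' hne
    simp only [Finset.mem_union]
    exact Or.inr (Or.inr (Or.inr (Or.inr (Or.inr (Or.inr (Finset.mem_image.2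
      ⟨(x, (z, z')), Finset.mem_filter.2 ⟨Finset.mem_product.2 ⟨hx, Finset.mem_product.2 ⟨hz, hz'⟩⟩,
        hne⟩, rfl⟩))))))

private theorem rs_ind {β γ : Type} (E : β → γ → Prop) (A0 : β → γ → ℝ)
    (h1 : ∀ y z, E y z → A0 y z = 1) (h0 : ∀ y z, ¬ E y z → A0 y z = 0) (Z : Finset γ)
    (y y' : β) [DecidablePred fun z => E y z ∧ E y' z] :
    ∑ z ∈ Z, A0 y z * A0 y' z = ((Z.filter (fun z => E y z ∧ E y' z)).card : ℝ) := by
  rw [Finset.card_filter, Nat.cast_sum]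
  refine Finset.sum_congr rfl fun z _ => ?_
  by_cases h2 : E y z
  · by_cases h3 : E y' z
    · rw [h1 _ _ h2, h1 _ _ h3, if_pos ⟨h2, h3⟩]
      norm_num
    · rw [h0 _ _ h3, if_neg (fun h => h3 h.2)]
      norm_num
  · rw [h0 _ _ h2, if_neg (fun h => h2 h.1)]
    norm_num

private theorem rs_scale {c Δ u v : ℝ} (hc : 0 < c) (h : |c * u - c * v| ≤ Δ) :
    |u - v| ≤ Δ / c := by
  rw [← mul_sub, abs_mul, abs_of_pos hc] at h
  rw [le_div_iff₀ hc]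
  linarith [mul_comm c |u - v|]

open scoped Classical in
private theorem rs_step {α β γ : Type} [Nonempty γ] {X : Finset α} {Y : Finset β} {Z : Finset γ}
    {E0 : Finset (β × γ)} {Yx : α → Finset β} {Zx : α → Finset γ} {w : α → β → γ → ℝ}
    {c s e : ℝ} (H : RHyp X Y Z E0 Yx Zx w c s e) (x : α) (hx : x ∈ X) {L Δ : ℝ} (hL : 0 ≤ L)
    (hΔ : 0 ≤ Δ) (hε : e + Δ / c + L ≤ c ^ 7 / 5000) (hs : 4 / c ^ 2 ≤ s)
    (S : β → γ → ℝ) (hS : ∀ y z, (y, z) ∈ E0 → c ≤ S y z - w x y z ∧ S y z ≤ 1)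
    (A A0 : β → γ → ℝ) (hAA0 : ∀ y z, A0 y z = if (y, z) ∈ E0 then 1 else 0)
    (hA0 : ∀ y z, 0 ≤ A y z)
    (hA : ∀ y z, A y z ≠ 0 → (y, z) ∈ E0 ∧ |Real.log (A y z * S y z)| ≤ L)
    (𝒯 : Finset ((β → γ → ℝ) → ℝ))
    (hN : ∀ f ∈ 𝒯, Nice (2 / c) (2 / (c ^ 2 * s)) (9 * (2 / c) ^ 2 / s)
      (4 * (2 / c) ^ 2 * (2 / (c ^ 2 * s)) / s) f)
    (t3 : ∀ y ∈ Y, (fun A : β → γ → ℝ => ∑ z ∈ Z, (c * w x y z) * A y z) ∈ 𝒯)
    (t4 : ∀ z ∈ Z, (fun A : β → γ → ℝ => ∑ y ∈ Y, (c * w x y z) * A y z) ∈ 𝒯)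
    (t5 : ∀ y ∈ Y, ∀ y' ∈ Y, y ≠ y' →
        (fun A : β → γ → ℝ => (∑ z ∈ Zx x, A y z * A y' z) / s) ∈ 𝒯)
    (t6 : ∀ z ∈ Z, ∀ z' ∈ Z, z ≠ z' →
        (fun A : β → γ → ℝ => (∑ y ∈ Yx x, A y z * A y z') / s) ∈ 𝒯)
    (hdev : ∀ f ∈ 𝒯, |f A - f A0| ≤ Δ) :
    ∃ (m : ℕ) (p : Fin m → ℝ) (A' : Fin m → β → γ → ℝ), (∀ i, 0 ≤ p i) ∧ ∑ i, p i = 1 ∧
      (∀ i, 0 < p i → (∃ π : β → γ, Set.BijOn π (Yx x) (Zx x) ∧ (∀ y ∈ Yx x, A y (π y) ≠ 0) ∧
         ∀ y z, (A' i y z ≠ 0 ↔ A y z ≠ 0 ∧ ¬ (y ∈ Yx x ∧ π y = z))) ∧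
        (∀ y z, 0 ≤ A' i y z) ∧ ∀ y z, A' i y z ≠ 0 → (y, z) ∈ E0 ∧
          |Real.log (A' i y z * (S y z - w x y z))| ≤
            L + 8448 * (e + Δ / c + L) / (c ^ 6 * s)) ∧
      (∀ f ∈ 𝒯, ∀ i, 0 < p i → |f (A' i) - f A| ≤ 9 * (2 / c) ^ 2 / s) ∧
      (∀ f ∈ 𝒯, |∑ i, p i * f (A' i) - f A| ≤ 4 * (2 / c) ^ 2 * (2 / (c ^ 2 * s)) / s) := by
  have hc := H.hc
  have i1 : ∀ y z, (y, z) ∈ E0 → A0 y z = 1 := fun y z h => by rw [hAA0, if_pos h]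
  have i0 : ∀ y z, (y, z) ∉ E0 → A0 y z = 0 := fun y z h => by rw [hAA0, if_neg h]
  have iw : ∀ y z, w x y z * A0 y z = w x y z := by
    intro y z
    by_cases h : (y, z) ∈ E0
    · rw [i1 _ _ h, mul_one]
    · rw [H.w0 x y z (fun h' => h h'.2.2.2), zero_mul]
  have htY : ∀ y ∈ Yx x, |∑ z ∈ Z, w x y z * A y z - ∑ z ∈ Z, w x y z| ≤ Δ / c := by
    intro y hy
    have h1 := hdev _ (t3 y (H.subY x hx hy))
    refine rs_scale hc ?_
    rw [Finset.mul_sum, Finset.mul_sum]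
    refine le_trans (le_of_eq ?_) h1
    congr 2
    · exact Finset.sum_congr rfl fun z _ => by ring
    · exact Finset.sum_congr rfl fun z _ => by rw [mul_assoc, iw]
  have htZ : ∀ z ∈ Zx x, |∑ y ∈ Y, w x y z * A y z - ∑ y ∈ Y, w x y z| ≤ Δ / c := by
    intro z hz
    have h1 := hdev _ (t4 z (H.subZ x hx hz))
    refine rs_scale hc ?_
    rw [Finset.mul_sum, Finset.mul_sum]
    refine le_trans (le_of_eq ?_) h1
    congr 2
    · exact Finset.sum_congr rfl fun z _ => by ring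
    · exact Finset.sum_congr rfl fun z _ => by rw [mul_assoc, iw]
  have hqY : ∀ y ∈ Yx x, ∀ y' ∈ Yx x, y ≠ y' → |(∑ z ∈ Zx x, A y z * A y' z) / s -
      (((Zx x).filter (fun z => (y, z) ∈ E0 ∧ (y', z) ∈ E0)).card : ℝ) / s| ≤ Δ := by
    intro y hy y' hy' hne
    have h1 := hdev _ (t5 y (H.subY x hx hy) y' (H.subY x hx hy') hne)
    rw [← rs_ind (fun y z => (y, z) ∈ E0) A0 i1 i0 (Zx x) y y']
    exact h1
  have hqZ : ∀ z ∈ Zx x, ∀ z' ∈ Zx x, z ≠ z' → |(∑ y ∈ Yx x, A y z * A y z') / s -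
      (((Yx x).filter (fun y => (y, z) ∈ E0 ∧ (y, z') ∈ E0)).card : ℝ) / s| ≤ Δ := by
    intro z hz z' hz' hne
    have h1 := hdev _ (t6 z (H.subZ x hx hz) z' (H.subZ x hx hz') hne)
    rw [← rs_ind (fun z y => (y, z) ∈ E0) (fun z y => A0 y z) (fun z y => i1 y z)
      (fun z y => i0 y z) (Yx x) z z']
    exact h1
  obtain ⟨m, p, π, h, hD, hh, hp, hlog⟩ := rstep H x hx L Δ hL hΔ hε hs S hS A hA0 hA htY htZ hqY hqZ
  have hM : ∀ y z, A y z ≤ 2 / c := by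
    intro y z
    by_cases h0 : A y z = 0
    · rw [h0]
      positivity
    · obtain ⟨h1, h2⟩ := hA y z h0
      have h3 : 0 < A y z := lt_of_le_of_ne (hA0 y z) (Ne.symm h0)
      have h4 : c ≤ S y z := by
        have h5 := (hS y z h1).1
        have h6 := (rs_w H x y z).1
        linarith
      have h5 : 0 < S y z := lt_of_lt_of_le hc h4
      have h6 : A y z * S y z ≤ Real.exp L := by
        rw [← Real.log_le_iff_le_exp (mul_pos h3 h5)]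
        exact (le_abs_self _).trans h2
      have h7 : Real.exp L ≤ 2 := by
        have h8 : L ≤ 1 / 2 := by
          have h9 : c ^ 7 ≤ 1 := pow_le_one₀ hc.le H.hc1.le
          have h10 : 0 ≤ Δ / c := div_nonneg hΔ hc.le
          have h11 := H.he
          linarith
        have h9 : Real.exp L ≤ Real.exp (1 / 2) := Real.exp_le_exp.2 h8
        have h10 : Real.exp (1 / 2) ≤ 2 := by
          have h11 := Real.exp_one_lt_d9
          have h12 : Real.exp (1 / 2) * Real.exp (1 / 2) = Real.exp 1 := by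
            rw [← Real.exp_add]
            norm_num
          nlinarith [Real.exp_pos (1 / 2 : ℝ)]
        linarith
      rw [le_div_iff₀ hc]
      nlinarith
  have hpos : ∀ y z, 0 < 1 - h y z := fun y z => by
    have h1 := hD.half y z
    linarith
  refine ⟨m, p, fun i => nextA A h (Yx x) (π i), hD.nonneg, hD.sum_one, ?_, ?_, ?_⟩
  · intro i hi
    have hne : ∀ y z, (nextA A h (Yx x) (π i) y z ≠ 0 ↔ A y z ≠ 0 ∧ ¬ (y ∈ Yx x ∧ π i y = z)) := by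
      intro y z
      unfold nextA
      split_ifs with h1
      · exact ⟨fun h2 => absurd rfl h2, fun h2 => absurd h1 h2.2⟩
      · constructor
        · intro h2
          exact ⟨fun h3 => h2 (by rw [h3, zero_div]), h1⟩
        · intro h2
          exact div_ne_zero h2.1 (hpos y z).ne'
    refine ⟨⟨π i, hD.bij i, hp i hi, hne⟩, ?_, ?_⟩
    · intro y z
      change 0 ≤ nextA A h (Yx x) (π i) y z
      unfold nextA
      split_ifs with h1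
      · exact le_refl _
      · exact div_nonneg (hA0 y z) (hpos y z).le
    · intro y z h1
      exact ⟨(hA y z ((hne y z).1 h1).1).1, hlog i y z h1⟩
  · intro f hf i _
    exact ((hN f hf) (Yx x) (Zx x) m p π h hD hh A hA0 hM).1 i
  · intro f hf
    exact ((hN f hf) (Yx x) (Zx x) m p π h hD hh A hA0 hM).2

open scoped Classical in
theorem rsel (c : ℝ) (hc : 0 < c) (hc1 : c < 1) : ∃ s0 e0 : ℝ, 1 ≤ s0 ∧ 0 < e0 ∧
    ∀ {α β γ : Type} [Nonempty α] [Nonempty γ] (X : Finset α) (Y : Finset β) (Z : Finset γ)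
      (E0 : Finset (β × γ)) (Yx : α → Finset β) (Zx : α → Finset γ) (w : α → β → γ → ℝ) (s e : ℝ),
      RHyp X Y Z E0 Yx Zx w c s e → s0 ≤ s → e ≤ e0 →
      ∀ (TY : Finset (β × (γ → ℝ))) (TZ : Finset (γ × (β → ℝ))),
      (∀ t ∈ TY, ∀ z, |t.2 z| ≤ 1 / s) → (∀ t ∈ TZ, ∀ y, |t.2 y| ≤ 1 / s) →
      (TY.card : ℝ) ≤ s ^ 20 → (TZ.card : ℝ) ≤ s ^ 20 →
      ∃ (xs : ℕ → α) (π : ℕ → β → γ) (A : ℕ → β → γ → ℝ),
        (∀ x ∈ X, ∃ t < X.card, xs t = x) ∧ (∀ t < X.card, xs t ∈ X) ∧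
        (∀ t < X.card, ∀ t' < X.card, xs t = xs t' → t = t') ∧
        (∀ y z, A 0 y z = if (y, z) ∈ E0 then 1 else 0) ∧
        (∀ t < X.card, Set.BijOn (π t) (Yx (xs t)) (Zx (xs t)) ∧
          (∀ y ∈ Yx (xs t), A t y (π t y) ≠ 0) ∧
          ∀ y z, (A (t + 1) y z ≠ 0 ↔ A t y z ≠ 0 ∧ ¬ (y ∈ Yx (xs t) ∧ π t y = z))) ∧
        (∀ y z, 0 ≤ A X.card y z) ∧
        (∀ y z, A X.card y z ≠ 0 → |Real.log (A X.card y z * (1 - ∑ x ∈ X, w x y z))| ≤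
          Real.exp (8448 / c ^ 6) * (e + s ^ (-(1 / 3) : ℝ) / c)) ∧
        (∀ t ∈ TY, |∑ z ∈ Z, t.2 z * A X.card t.1 z - ∑ z ∈ Z, t.2 z * A 0 t.1 z| ≤
          s ^ (-(1 / 3) : ℝ)) ∧
        (∀ t ∈ TZ, |∑ y ∈ Y, t.2 y * A X.card y t.1 - ∑ y ∈ Y, t.2 y * A 0 y t.1| ≤
          s ^ (-(1 / 3) : ℝ)) := by
  obtain ⟨s1, hs1, hnum⟩ := rnum c hc
  set C2 : ℝ := 8448 / c ^ 6 with hC2
  have hC2' : 0 < C2 := by positivity
  set e0 : ℝ := c ^ 7 / (10000 * Real.exp C2) with he0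
  have he0' : 0 < e0 := by positivity
  have hev : ∀ᶠ s : ℝ in Filter.atTop, s ^ (-(1 / 3) : ℝ) < c * e0 :=
    (tendsto_rpow_neg_atTop (by norm_num : (0 : ℝ) < 1 / 3)).eventually
      (gt_mem_nhds (mul_pos hc he0'))
  obtain ⟨s2, hs2⟩ := Filter.eventually_atTop.1 hev
  refine ⟨max s1 (max s2 (max (4 / c ^ 2) 5)), e0, hs1.trans (le_max_left _ _), he0', ?_⟩
  intro α β γ _ _ X Y Z E0 Yx Zx w s e H hs he TY TZ hTY hTZ hcY hcZ
  have g1 : s1 ≤ s := (le_max_left _ _).trans hs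
  have g2 : s2 ≤ s := ((le_max_left _ _).trans (le_max_right _ _)).trans hs
  have g3 : 4 / c ^ 2 ≤ s :=
    (((le_max_left _ _).trans (le_max_right _ _)).trans (le_max_right _ _)).trans hs
  have g4 : 5 ≤ s :=
    (((le_max_right _ _).trans (le_max_right _ _)).trans (le_max_right _ _)).trans hs
  have hs0 : 0 < s := by linarith
  obtain ⟨lam, hlam, hla, hN⟩ := hnum s g1
  set Δ : ℝ := s ^ (-(1 / 3) : ℝ) with hΔdef
  have hΔ : 0 < Δ := Real.rpow_pos_of_pos hs0 _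
  have hΔe : Δ / c ≤ e0 := by
    rw [div_le_iff₀ hc, mul_comm]
    exact (hs2 s g2).le
  have hM : (1 : ℝ) ≤ 2 / c := by
    rw [le_div_iff₀ hc]
    linarith
  have hhm : (0 : ℝ) ≤ 2 / (c ^ 2 * s) := by positivity
  obtain ⟨𝒯, hne, hcard, hNice, q1, q2, q3, q4, q5, q6⟩ :=
    rs_tests H g4 hM hhm TY TZ hTY hTZ hcY hcZ
  have hinst : Nonempty {f // f ∈ 𝒯} := by
    obtain ⟨f, hf⟩ := hne
    exact ⟨⟨f, hf⟩⟩
  -- enumeration
  let xs : ℕ → α := fun t => if h : t < X.card then ((X.equivFin.symm ⟨t, h⟩ : X) : α)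
    else Classical.arbitrary α
  have hxs : ∀ t (h : t < X.card), xs t = ((X.equivFin.symm ⟨t, h⟩ : X) : α) := by
    intro t h
    exact dif_pos h
  have x1 : ∀ x ∈ X, ∃ t < X.card, xs t = x := by
    intro x hx
    refine ⟨X.equivFin ⟨x, hx⟩, (X.equivFin ⟨x, hx⟩).2, ?_⟩
    rw [hxs _ (X.equivFin ⟨x, hx⟩).2]
    simp
  have x2 : ∀ t < X.card, xs t ∈ X := by
    intro t ht
    rw [hxs t ht]
    exact (X.equivFin.symm ⟨t, ht⟩).2
  have x3 : ∀ t < X.card, ∀ t' < X.card, xs t = xs t' → t = t' := by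
    intro t ht t' ht' h
    rw [hxs t ht, hxs t' ht'] at h
    have h1 := X.equivFin.symm.injective (Subtype.ext h)
    exact congrArg Fin.val h1
  have xsum : ∀ y z, ∑ i ∈ Finset.range X.card, w (xs i) y z = ∑ x ∈ X, w x y z := by
    intro y z
    refine Finset.sum_bij (fun i _ => xs i) (fun i hi => x2 i (Finset.mem_range.1 hi))
      (fun i hi j hj h => x3 i (Finset.mem_range.1 hi) j (Finset.mem_range.1 hj) h) ?_
      (fun i _ => rfl)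
    intro x hx
    obtain ⟨t, ht, h⟩ := x1 x hx
    exact ⟨t, Finset.mem_range.2 ht, h⟩
  -- survival probabilities
  let S : ℕ → β → γ → ℝ := fun t y z => 1 - ∑ i ∈ Finset.range t, w (xs i) y z
  have S0 : ∀ y z, S 0 y z = 1 := fun y z => by
    change 1 - ∑ i ∈ Finset.range 0, w (xs i) y z = 1
    rw [Finset.sum_range_zero, sub_zero]
  have Ssucc : ∀ t y z, S (t + 1) y z = S t y z - w (xs t) y z := fun t y z => by
    change 1 - ∑ i ∈ Finset.range (t + 1), w (xs i) y z = 1 - ∑ i ∈ Finset.range t, w (xs i) y z - _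
    rw [Finset.sum_range_succ]
    ring
  have Sle : ∀ t y z, S t y z ≤ 1 := fun t y z => by
    change 1 - ∑ i ∈ Finset.range t, w (xs i) y z ≤ 1
    have h1 : 0 ≤ ∑ i ∈ Finset.range t, w (xs i) y z :=
      Finset.sum_nonneg fun i _ => (rs_w H _ _ _).1
    linarith
  have Sge : ∀ t ≤ X.card, ∀ y z, (y, z) ∈ E0 → c ≤ S t y z := fun t ht y z hE => by
    change c ≤ 1 - ∑ i ∈ Finset.range t, w (xs i) y z
    have h1 : ∑ i ∈ Finset.range t, w (xs i) y z ≤ ∑ i ∈ Finset.range X.card, w (xs i) y z :=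
      Finset.sum_le_sum_of_subset_of_nonneg (Finset.range_mono ht) fun i _ _ => (rs_w H _ _ _).1
    rw [xsum] at h1
    have h2 := H.haz y z hE
    linarith
  -- error terms
  let L : ℕ → ℝ := fun t => (e + Δ / c) * ((1 + C2 / s) ^ t - 1)
  have L0 : L 0 = 0 := by
    change (e + Δ / c) * ((1 + C2 / s) ^ 0 - 1) = 0
    rw [pow_zero, sub_self, mul_zero]
  have eΔ : 0 ≤ e + Δ / c := add_nonneg H.he (div_nonneg hΔ.le hc.le)
  have hC2s : 0 ≤ C2 / s := by positivity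
  have Lnn : ∀ t, 0 ≤ L t := fun t => by
    refine mul_nonneg eΔ (sub_nonneg.2 (one_le_pow₀ ?_))
    linarith
  have Lsucc : ∀ t, L (t + 1) = L t + 8448 * (e + Δ / c + L t) / (c ^ 6 * s) := fun t => by
    change (e + Δ / c) * ((1 + C2 / s) ^ (t + 1) - 1) = (e + Δ / c) * ((1 + C2 / s) ^ t - 1) +
      8448 * (e + Δ / c + (e + Δ / c) * ((1 + C2 / s) ^ t - 1)) / (c ^ 6 * s)
    have h1 : C2 / s = 8448 / (c ^ 6 * s) := by
      rw [hC2, div_div]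
    rw [pow_succ]
    generalize hP : (1 + C2 / s) ^ t = P
    rw [h1]
    ring
  have hexp : ∀ t ≤ X.card, (1 + C2 / s) ^ t ≤ Real.exp C2 := by
    intro t ht
    have h1 : 1 + C2 / s ≤ Real.exp (C2 / s) := by
      have h2 := Real.add_one_le_exp (C2 / s)
      linarith
    calc (1 + C2 / s) ^ t ≤ (Real.exp (C2 / s)) ^ t := pow_le_pow_left₀ (by linarith) h1 t
      _ = Real.exp (t * (C2 / s)) := by rw [← Real.exp_nat_mul]
      _ ≤ Real.exp C2 := by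
          refine Real.exp_le_exp.2 ?_
          have h2 : (t : ℝ) ≤ s := le_trans (by exact_mod_cast ht) H.cX
          calc (t : ℝ) * (C2 / s) ≤ s * (C2 / s) := mul_le_mul_of_nonneg_right h2 hC2s
            _ = C2 := by field_simp
  have Lle : ∀ t ≤ X.card, e + Δ / c + L t ≤ (e + Δ / c) * Real.exp C2 := fun t ht => by
    change e + Δ / c + (e + Δ / c) * ((1 + C2 / s) ^ t - 1) ≤ _
    have h1 : e + Δ / c + (e + Δ / c) * ((1 + C2 / s) ^ t - 1) = (e + Δ / c) * (1 + C2 / s) ^ t := by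
      ring
    rw [h1]
    exact mul_le_mul_of_nonneg_left (hexp t ht) eΔ
  have hε : ∀ t ≤ X.card, e + Δ / c + L t ≤ c ^ 7 / 5000 := fun t ht => by
    refine (Lle t ht).trans ?_
    have h1 : e + Δ / c ≤ 2 * e0 := by linarith
    calc (e + Δ / c) * Real.exp C2 ≤ (2 * e0) * Real.exp C2 :=
          mul_le_mul_of_nonneg_right h1 (Real.exp_pos _).le
      _ = c ^ 7 / 5000 := by
          rw [he0]
          have h2 := (Real.exp_pos C2).ne'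
          field_simp
          norm_num
  let A0 : β → γ → ℝ := fun y z => if (y, z) ∈ E0 then 1 else 0
  have hJ1 : (1 : ℝ) ≤ (Fintype.card {f // f ∈ 𝒯} : ℝ) := by
    exact_mod_cast Fintype.card_pos
  have hJ2 : (Fintype.card {f // f ∈ 𝒯} : ℝ) ≤ s ^ 21 := by
    rw [Fintype.card_coe]
    exact hcard
  have ea : 9 * (2 / c) ^ 2 / s = 36 / (c ^ 2 * s) := by
    field_simp
    norm_num
  have ed : 4 * (2 / c) ^ 2 * (2 / (c ^ 2 * s)) / s = 32 / (c ^ 4 * s ^ 2) := by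
    field_simp
    norm_num
  have hsel := selection (S := β → γ → ℝ) (J := {f // f ∈ 𝒯}) (fun j A => j.1 A)
    (fun t A A' => ∃ π : β → γ, Set.BijOn π (Yx (xs t)) (Zx (xs t)) ∧
      (∀ y ∈ Yx (xs t), A y (π y) ≠ 0) ∧
      ∀ y z, (A' y z ≠ 0 ↔ A y z ≠ 0 ∧ ¬ (y ∈ Yx (xs t) ∧ π y = z)))
    (fun t A => (∀ y z, 0 ≤ A y z) ∧
      ∀ y z, A y z ≠ 0 → (y, z) ∈ E0 ∧ |Real.log (A y z * S t y z)| ≤ L t)
    X.card (36 / (c ^ 2 * s)) (32 / (c ^ 4 * s ^ 2)) Δ lam (by positivity) (by positivity) hlam hla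
    (hN _ hJ1 hJ2 X.card (Nat.cast_nonneg _) H.cX) A0
    (by
      refine ⟨fun y z => ?_, fun y z h => ?_⟩
      · change 0 ≤ if (y, z) ∈ E0 then (1 : ℝ) else 0
        split_ifs
        · exact zero_le_one
        · exact le_refl _
      · change (if (y, z) ∈ E0 then (1 : ℝ) else 0) ≠ 0 at h
        by_cases hE : (y, z) ∈ E0
        · refine ⟨hE, ?_⟩
          change |Real.log ((if (y, z) ∈ E0 then (1 : ℝ) else 0) * S 0 y z)| ≤ L 0
          rw [if_pos hE, S0, L0, mul_one, Real.log_one, abs_zero]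
        · rw [if_neg hE] at h
          exact absurd rfl h)
    (by
      intro t ht A hG hdev
      obtain ⟨m, p, A', r1, r2, r3, r4, r5⟩ := rs_step H (xs t) (x2 t ht) (Lnn t) hΔ.le (hε t ht.le)
        g3 (S t) (fun y z hE => by
          refine ⟨?_, Sle t y z⟩
          rw [← Ssucc]
          exact Sge (t + 1) ht y z hE) A A0 (fun y z => rfl) hG.1 hG.2 𝒯 hNice
        (q3 _ (x2 t ht)) (q4 _ (x2 t ht)) (q5 _ (x2 t ht)) (q6 _ (x2 t ht))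
        (fun f hf => hdev ⟨f, hf⟩)
      refine ⟨m, p, A', r1, r2, ?_, ?_, ?_⟩
      · intro i hi
        obtain ⟨k1, k2, k3⟩ := r3 i hi
        refine ⟨k1, k2, fun y z h => ?_⟩
        rw [Ssucc, Lsucc]
        exact k3 y z h
      · intro j i hi
        rw [← ea]
        exact r4 j.1 j.2 i hi
      · intro j
        rw [← ed]
        exact r5 j.1 j.2)
  obtain ⟨σ, hσ0, hσ1, hσ2, hσ3⟩ := hsel
  choose! π hπ using hσ1
  refine ⟨xs, π, σ, x1, x2, x3, ?_, fun t ht => hπ t ht, (hσ2 X.card le_rfl).1, ?_, ?_, ?_⟩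
  · intro y z
    rw [hσ0]
  · intro y z h
    have h1 := ((hσ2 X.card le_rfl).2 y z h).2
    have h2 : S X.card y z = 1 - ∑ x ∈ X, w x y z := by
      change 1 - ∑ i ∈ Finset.range X.card, w (xs i) y z = _
      rw [xsum]
    rw [h2] at h1
    refine h1.trans ?_
    have h3 := Lle X.card le_rfl
    rw [mul_comm (Real.exp C2)]
    linarith
  · intro t ht
    rw [hσ0]
    exact hσ3 X.card le_rfl ⟨_, q1 t ht⟩
  · intro t ht
    rw [hσ0]
    exact hσ3 X.card le_rfl ⟨_, q2 t ht⟩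

end Pool.Agent.Lib.TriD
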