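import Pool.Agent.Lib.TriD.RdS1
import Pool.Agent.Lib.TriD.Bad
import Pool.Agent.Lib.TriD.RDefs

set_option autoImplicit false

/-!
MODULE RdA1 (about 250 lines). The hypotheses of the round lemma for round 1.

`X = cls p (A0 \ A1) 0`, `Y = cls p A0 1`, `Z = cls p A0 2`, `E0` = edges of `H` in `Y × Z` not inside `A2`, `Yx x, Zx x` = the
neighbours of `x`, weights `ω` (zero if `x ∉ X`), constant `cR c δ`, scale `2 s`, error `0`.

PROOF. `cR c δ = c^4 δ^2 / 10^4`. Sizes: `cnt_size`, `(1 + ξ) s ≤ 2 s`. `card`: `H` is `TDiv`, and `nbr p H 1 {x}` is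
`Yx x` because all neighbours of `x` are in `A0` (`supp`). `w0`: if `ω x y b ≠ 0` then `Allow`. `w1`: `x ∉ A1`, so the triangle is
allowed: `cR/(2s) ≤ δ/(2s) ≤ ω ≤ 5/(c s) ≤ 1/(cR * 2 s)`. `sumY`: `(x, y)` is outer (`x ∉ A1`): `∑ b ∈ Z, ω x y b = ∑ b, ω x y b = 1`
(`o01`), `sumZ`: `o02`. `haz`: `∑ x ∈ X, ω x y b = 1 - S1 y b ≤ 1 - c δ / 16 ≤ 1 - cR` (`s1_facts`).
`comY`: `x ∈ X`, `y ∈ Yx x`. By `bad_edge` (`u = x`, `v = y`, `j = 2`, `i = 1`) all but `4 K / c^3` of the `y' ∈ A0` in part 1 have at least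
`c^3/8 s ≥ cR * (2 s)` common neighbours `z ∈ cls p (A0 \ A1) 2` with `x` and `y`, and for these `z` the pairs `(y, z)`, `(y', z)` are in
`E0` (`z ∉ A2`). `(Yx x).card ≥ c^3/8 s` (`good_one`, `j = 1`), so `4 * 4 K / c^3 ≤ (Yx x).card` by `hs : 128 K / c^6 ≤ s`.
`comZ`: `bad_edge` with `u = x`, `v = z`, `j = 1`, `i = 2`.
`hsm` for `bad_edge`: `2 ξ + 12 δ ≤ c^3/16` follows from `hδ1`, `hξ1`.
-/

open scoped Classical

noncomputable section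

namespace Pool.Agent.Lib.TriD

variable {V : Type} [Fintype V]

private theorem ra_num {c δ ξ : ℝ} (hc : 0 < c) (hc1 : c < 1) (hδ : 0 < δ)
    (hδ1 : δ ≤ c ^ 11 / 10 ^ 9) (hξ1 : ξ ≤ c ^ 9 * δ / 10 ^ 6) :
    ξ ≤ 1 ∧ 2 * ξ + 12 * δ ≤ c ^ 3 / 16 ∧ 0 < cR c δ ∧ cR c δ < 1 ∧ cR c δ ≤ δ ∧ 10 * cR c δ ≤ c ∧
    cR c δ ≤ c * δ / 16 ∧ 2 * cR c δ ≤ c ^ 3 / 8 := by
  have hc11 : c ^ 11 ≤ c ^ 3 := pow_le_pow_of_le_one hc.le hc1.le (by norm_num)
  have hc9 : c ^ 9 ≤ 1 := pow_le_one₀ hc.le hc1.le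
  have hc3 : c ^ 3 ≤ 1 := pow_le_one₀ hc.le hc1.le
  have hc4 : c ^ 4 ≤ c := by
    have := pow_le_pow_of_le_one hc.le hc1.le (show 1 ≤ 4 by norm_num)
    simpa using this
  have hc43 : c ^ 4 ≤ c ^ 3 := pow_le_pow_of_le_one hc.le hc1.le (by norm_num)
  have hp3 : 0 < c ^ 3 := by positivity
  have hp4 : 0 < c ^ 4 := by positivity
  have hδc : δ ≤ c ^ 3 / 10 ^ 9 := hδ1.trans (by gcongr)
  have hξδ : ξ ≤ δ / 10 ^ 6 := by
    refine hξ1.trans ?_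
    gcongr
    nlinarith
  norm_num at hδc hξδ
  have hδs : δ ≤ 1 / 1000000000 := by linarith
  have hδ2 : δ ^ 2 ≤ δ := by nlinarith
  have hδ2' : 0 < δ ^ 2 := by positivity
  have hR : cR c δ = c ^ 4 * δ ^ 2 / 10 ^ 4 := rfl
  have hR0 : 0 < cR c δ := by rw [hR]; positivity
  have hR1 : cR c δ ≤ c ^ 4 * δ / 10 ^ 4 := by
    rw [hR]
    gcongr
  have hR2 : c ^ 4 * δ ≤ c * δ := by gcongr
  have hR3 : c ^ 4 * δ ≤ c ^ 3 * δ := by gcongr
  have hR4 : c * δ ≤ c := by nlinarith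
  have hR5 : c * δ ≤ δ := by nlinarith
  have hR6 : c ^ 3 * δ ≤ c ^ 3 := by nlinarith
  have hR7 : 0 < c * δ := by positivity
  norm_num at hR1
  refine ⟨by linarith, by linarith, hR0, by linarith, by linarith, by linarith, by linarith,
    by linarith⟩

private theorem ra_nbr {p : V → Fin 3} {G H : SimpleGraph V} {s ξ δ : ℝ} {A0 A1 A2 A3 : Finset V}
    (hL : Level p G H s ξ δ A0 A1 A2 A3) (x : V) (j : Fin 3) :
    (cls p A0 j).filter (fun y => H.Adj x y) = nbr p H j {x} := by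
  ext y
  simp only [cls, nbr, Finset.mem_filter, Finset.mem_univ, true_and, Finset.mem_singleton,
    forall_eq]
  constructor
  · rintro ⟨⟨_, h2⟩, h3⟩
    exact ⟨h2, h3⟩
  · rintro ⟨h2, h3⟩
    exact ⟨⟨hL.supp y x h3.symm, h2⟩, h3⟩

theorem rhyp1 {p : V → Fin 3} {G H : SimpleGraph V} {c K s ξ δ : ℝ} {A0 A1 A2 A3 : Finset V}
    {ω : V → V → V → ℝ} (hG : Host p G c K) (hL : Level p G H s ξ δ A0 A1 A2 A3)
    (hω : FracW p H A1 A2 c s δ ω) (hc : 0 < c) (hc1 : c < 1) (hK : 0 ≤ K) (hξ : 0 ≤ ξ)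
    (hδ : 0 < δ) (hδ1 : δ ≤ c ^ 11 / 10 ^ 9) (hξ1 : ξ ≤ c ^ 9 * δ / 10 ^ 6) (hs1 : 1 ≤ s)
    (hs : 128 * K / c ^ 6 ≤ s) :
    RHyp (cls p (A0 \ A1) 0) (cls p A0 1) (cls p A0 2)
      ((cls p A0 1 ×ˢ cls p A0 2).filter (fun e => H.Adj e.1 e.2 ∧ ¬ (e.1 ∈ A2 ∧ e.2 ∈ A2)))
      (fun x => (cls p A0 1).filter (fun y => H.Adj x y))
      (fun x => (cls p A0 2).filter (fun b => H.Adj x b))
      (fun x y b => if x ∈ cls p (A0 \ A1) 0 then ω x y b else 0) (cR c δ) (2 * s) 0 := by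
  obtain ⟨n1, hsm, n3, n4, n5, n6, n7, n8⟩ := ra_num hc hc1 hδ hδ1 hξ1
  have hs0 := hL.s0
  have hsz : ∀ j, ((cls p A0 j).card : ℝ) ≤ 2 * s := by
    intro j
    obtain ⟨h1, -, -, -⟩ := cnt_size hG hL j
    nlinarith
  have hsubX : ∀ j, cls p (A0 \ A1) j ⊆ cls p A0 j := fun j =>
    Finset.filter_subset_filter _ Finset.sdiff_subset
  have hXm : ∀ {x j}, x ∈ cls p (A0 \ A1) j → x ∈ A0 ∧ x ∉ A1 ∧ p x = j := by
    intro x j hx
    rw [cls, Finset.mem_filter, Finset.mem_sdiff] at hx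
    exact ⟨hx.1.1, hx.1.2, hx.2⟩
  have hcm : ∀ {x j}, x ∈ cls p A0 j ↔ x ∈ A0 ∧ p x = j := by
    intro x j
    rw [cls, Finset.mem_filter]
  have hE : ∀ {y z}, (y, z) ∈ ((cls p A0 1 ×ˢ cls p A0 2).filter
      (fun e => H.Adj e.1 e.2 ∧ ¬ (e.1 ∈ A2 ∧ e.2 ∈ A2))) ↔
      (y ∈ A0 ∧ p y = 1) ∧ (z ∈ A0 ∧ p z = 2) ∧ H.Adj y z ∧ ¬ (y ∈ A2 ∧ z ∈ A2) := by
    intro y z
    rw [Finset.mem_filter, Finset.mem_product, hcm, hcm]
    tauto
  have hsupp : ∀ {x y z}, ω x y z ≠ 0 → x ∈ A0 ∧ y ∈ A0 ∧ z ∈ A0 ∧ p x = 0 ∧ p y = 1 ∧ p z = 2 ∧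
      H.Adj x y ∧ H.Adj x z ∧ H.Adj y z ∧ ¬ (y ∈ A2 ∧ z ∈ A2) := by
    intro x y z h
    obtain ⟨⟨h1, h2, h3, h4, h5, h6⟩, -, -, -, h7⟩ := hω.supp x y z h
    exact ⟨hL.supp x y h4, hL.supp y x h4.symm, hL.supp z x h5.symm, h1, h2, h3, h4, h5, h6, h7⟩
  have hout : ∀ {x v}, x ∉ A1 → H.Adj x v → Outer H A1 x v := fun h1 h2 => ⟨h2, fun h3 => h1 h3.1⟩
  have hKs : 16 * K / c ^ 3 ≤ c ^ 3 / 8 * s := by
    have h3 : 0 < c ^ 3 := by positivity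
    have h6 : 0 < c ^ 6 := by positivity
    rw [div_le_iff₀ h6] at hs
    rw [div_le_iff₀ h3]
    have e : c ^ 3 / 8 * s * c ^ 3 = s * c ^ 6 / 8 := by ring
    rw [e]
    linarith
  have hR : cR c δ * (2 * s) ≤ c ^ 3 / 8 * s := by nlinarith
  constructor
  · exact n3
  · exact n4
  · linarith
  · exact le_rfl
  · refine le_trans ?_ (hsz 0)
    exact_mod_cast Finset.card_le_card (hsubX 0)
  · exact hsz 1
  · exact hsz 2
  · intro x _
    exact Finset.filter_subset _ _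
  · intro x _
    exact Finset.filter_subset _ _
  · intro x hx
    obtain ⟨-, -, hx3⟩ := hXm hx
    show ((cls p A0 1).filter (fun y => H.Adj x y)).card =
      ((cls p A0 2).filter (fun y => H.Adj x y)).card
    rw [ra_nbr hL, ra_nbr hL]
    exact hL.tdiv x 1 2 (by rw [hx3]; decide) (by rw [hx3]; decide)
  · exact Finset.filter_subset _ _
  · intro x y z h
    by_contra h0
    apply h
    by_cases hx : x ∈ cls p (A0 \ A1) 0
    · simp only [if_pos hx] at h0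
      obtain ⟨h1, h2, h3, h4, h5, h6, h7, h8, h9, h10⟩ := hsupp h0
      refine ⟨hx, Finset.mem_filter.2 ⟨hcm.2 ⟨h2, h5⟩, h7⟩, Finset.mem_filter.2 ⟨hcm.2 ⟨h3, h6⟩, h8⟩,
        hE.2 ⟨⟨h2, h5⟩, ⟨h3, h6⟩, h9, h10⟩⟩
    · exact absurd (if_neg hx) h0
  · intro x hx y hy z hz hyz
    obtain ⟨hx1, hx2, hx3⟩ := hXm hx
    rw [Finset.mem_filter] at hy hz
    obtain ⟨⟨hy1, hy2⟩, ⟨hz1, hz2⟩, h3, h4⟩ := hE.1 hyz
    simp only [if_pos hx]
    have hal : Allow p H A1 A2 x y z :=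
      ⟨⟨hx3, hy2, hz2, hy.2, hz.2, h3⟩, fun h => hx2 h.1, fun h => hx2 (hL.sub2 h.1),
        fun h => hx2 (hL.sub2 h.1), h4⟩
    constructor
    · refine le_trans ?_ (hω.lb x y z hal)
      gcongr
    · refine le_trans (hω.ub x y z) ?_
      rw [div_le_div_iff₀ (by positivity) (by positivity)]
      nlinarith
  · intro x hx y hy
    obtain ⟨hx1, hx2, hx3⟩ := hXm hx
    rw [Finset.mem_filter] at hy
    have hy2 := (hcm.1 hy.1).2
    simp only [if_pos hx]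
    have e : ∑ z ∈ cls p A0 2, ω x y z = ∑ z, ω x y z := by
      apply Finset.sum_subset (Finset.subset_univ _)
      intro z _ hz
      by_contra h0
      obtain ⟨h1, h2, h3, h4, h5, h6, -⟩ := hsupp h0
      exact hz (hcm.2 ⟨h3, h6⟩)
    rw [e, hω.o01 x y hx3 hy2 (hout hx2 hy.2), sub_self, abs_zero]
  · intro x hx z hz
    obtain ⟨hx1, hx2, hx3⟩ := hXm hx
    rw [Finset.mem_filter] at hz
    have hz2 := (hcm.1 hz.1).2
    simp only [if_pos hx]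
    have e : ∑ y ∈ cls p A0 1, ω x y z = ∑ y, ω x y z := by
      apply Finset.sum_subset (Finset.subset_univ _)
      intro y _ hy
      by_contra h0
      obtain ⟨h1, h2, h3, h4, h5, h6, -⟩ := hsupp h0
      exact hy (hcm.2 ⟨h2, h5⟩)
    rw [e, hω.o02 x z hx3 hz2 (hout hx2 hz.2), sub_self, abs_zero]
  · intro y z hyz
    obtain ⟨⟨hy1, hy2⟩, ⟨hz1, hz2⟩, h3, h4⟩ := hE.1 hyz
    obtain ⟨g1, -⟩ := s1_facts hG hL hω hc hc1 hξ hδ hδ1 hξ1 hy2 hz2 h3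
    have e : ∑ x ∈ cls p (A0 \ A1) 0, (if x ∈ cls p (A0 \ A1) 0 then ω x y z else 0) =
        1 - S1 p A0 A1 ω y z := by
      unfold S1
      rw [sub_sub_cancel]
      exact Finset.sum_congr rfl fun x hx => if_pos hx
    rw [e]
    linarith
  · intro x hx y hy
    obtain ⟨hx1, hx2, hx3⟩ := hXm hx
    simp only [Finset.mem_filter] at hy
    obtain ⟨hy1, hy2⟩ := hcm.1 hy.1
    have hbad := bad_edge hG hL hc hc1 hK hξ hδ.le hsm hy.2 (j := 2) (i := 1)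
      (by rw [hx3]; decide) (by rw [hy2]; decide) (by decide)
    obtain ⟨hgood, -⟩ := good_one hG hL hc hc1 hξ hδ.le hsm hx1 (j := 1) (by rw [hx3]; decide)
    have hY : c ^ 3 / 8 * s ≤ (((cls p A0 1).filter (fun y => H.Adj x y)).card : ℝ) := by
      refine le_trans hgood ?_
      exact_mod_cast Finset.card_le_card (Finset.filter_subset_filter _ (hsubX 1))
    have hB : ((((cls p A0 1).filter (fun y => H.Adj x y)).filter (fun y' =>
        ((((cls p A0 2).filter (fun b => H.Adj x b)).filter (fun z =>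
          (y, z) ∈ ((cls p A0 1 ×ˢ cls p A0 2).filter
            (fun e => H.Adj e.1 e.2 ∧ ¬ (e.1 ∈ A2 ∧ e.2 ∈ A2))) ∧
          (y', z) ∈ ((cls p A0 1 ×ˢ cls p A0 2).filter
            (fun e => H.Adj e.1 e.2 ∧ ¬ (e.1 ∈ A2 ∧ e.2 ∈ A2))))).card : ℝ) <
              cR c δ * (2 * s))).card : ℝ) ≤ 4 * K / c ^ 3 := by
      refine le_trans ?_ hbad
      norm_cast
      apply Finset.card_le_card
      intro y' hy'
      rw [Finset.mem_filter, Finset.mem_filter] at hy'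
      obtain ⟨⟨a1, a2⟩, a3⟩ := hy'
      obtain ⟨a4, a5⟩ := hcm.1 a1
      rw [Finset.mem_filter]
      refine ⟨a4, a5, fun hh => ?_⟩
      refine absurd (lt_of_lt_of_le a3 (hR.trans hh.1)) (not_lt.2 ?_)
      norm_cast
      apply Finset.card_le_card
      intro z hz
      rw [Finset.mem_filter] at hz
      obtain ⟨b1, b2, b3, b4⟩ := hz
      obtain ⟨b5, b6, b7⟩ := hXm b1
      have b8 : z ∉ A2 := fun h => b6 (hL.sub2 h)
      rw [Finset.mem_filter, Finset.mem_filter]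
      exact ⟨⟨hcm.2 ⟨b5, b7⟩, b2⟩, hE.2 ⟨⟨hy1, hy2⟩, ⟨b5, b7⟩, b3, fun h => b8 h.2⟩,
        hE.2 ⟨⟨a4, a5⟩, ⟨b5, b7⟩, b4, fun h => b8 h.2⟩⟩
    have h4 : 4 * (4 * K / c ^ 3) = 16 * K / c ^ 3 := by ring
    have hfin := le_trans (le_trans (le_trans (mul_le_mul_of_nonneg_left hB
      (show (0:ℝ) ≤ 4 by norm_num)) h4.le) hKs) hY
    exact_mod_cast hfin
  · intro x hx z hz
    obtain ⟨hx1, hx2, hx3⟩ := hXm hx
    simp only [Finset.mem_filter] at hz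
    obtain ⟨hz1, hz2⟩ := hcm.1 hz.1
    have hbad := bad_edge hG hL hc hc1 hK hξ hδ.le hsm hz.2 (j := 1) (i := 2)
      (by rw [hx3]; decide) (by rw [hz2]; decide) (by decide)
    obtain ⟨hgood, -⟩ := good_one hG hL hc hc1 hξ hδ.le hsm hx1 (j := 2) (by rw [hx3]; decide)
    have hY : c ^ 3 / 8 * s ≤ (((cls p A0 2).filter (fun b => H.Adj x b)).card : ℝ) := by
      refine le_trans hgood ?_
      exact_mod_cast Finset.card_le_card (Finset.filter_subset_filter _ (hsubX 2))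
    have hB : ((((cls p A0 2).filter (fun b => H.Adj x b)).filter (fun z' =>
        ((((cls p A0 1).filter (fun y => H.Adj x y)).filter (fun y =>
          (y, z) ∈ ((cls p A0 1 ×ˢ cls p A0 2).filter
            (fun e => H.Adj e.1 e.2 ∧ ¬ (e.1 ∈ A2 ∧ e.2 ∈ A2))) ∧
          (y, z') ∈ ((cls p A0 1 ×ˢ cls p A0 2).filter
            (fun e => H.Adj e.1 e.2 ∧ ¬ (e.1 ∈ A2 ∧ e.2 ∈ A2))))).card : ℝ) <
              cR c δ * (2 * s))).card : ℝ) ≤ 4 * K / c ^ 3 := by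
      refine le_trans ?_ hbad
      norm_cast
      apply Finset.card_le_card
      intro z' hz'
      rw [Finset.mem_filter, Finset.mem_filter] at hz'
      obtain ⟨⟨a1, a2⟩, a3⟩ := hz'
      obtain ⟨a4, a5⟩ := hcm.1 a1
      rw [Finset.mem_filter]
      refine ⟨a4, a5, fun hh => ?_⟩
      refine absurd (lt_of_lt_of_le a3 (hR.trans hh.1)) (not_lt.2 ?_)
      norm_cast
      apply Finset.card_le_card
      intro y hy
      rw [Finset.mem_filter] at hy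
      obtain ⟨b1, b2, b3, b4⟩ := hy
      obtain ⟨b5, b6, b7⟩ := hXm b1
      have b8 : y ∉ A2 := fun h => b6 (hL.sub2 h)
      rw [Finset.mem_filter, Finset.mem_filter]
      exact ⟨⟨hcm.2 ⟨b5, b7⟩, b2⟩, hE.2 ⟨⟨b5, b7⟩, ⟨hz1, hz2⟩, b3.symm, fun h => b8 h.1⟩,
        hE.2 ⟨⟨b5, b7⟩, ⟨a4, a5⟩, b4.symm, fun h => b8 h.1⟩⟩
    have h4 : 4 * (4 * K / c ^ 3) = 16 * K / c ^ 3 := by ring
    have hfin := le_trans (le_trans (le_trans (mul_le_mul_of_nonneg_left hB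
      (show (0:ℝ) ≤ 4 by norm_num)) h4.le) hKs) hY
    exact_mod_cast hfin

end Pool.Agent.Lib.TriD
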