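import Pool.Agent.Lib.TriD.Round

set_option autoImplicit false

/-!
MODULE RdIdx (about 100 lines). The round lemma with indexed tests and a prescribed error.

PROOF. `round_lemma c` gives `K, s0, e0`. Take `e0' = min e0 (ε / (2 K))` and `m ≥ s0` with `K * m ^ (-1/3) ≤ ε / 2`
(`m = max s0 ((2 K / ε) ^ 3)`; `s ^ (-1/3)` is decreasing). `TY = Finset.univ.image (fun i => (ty i, fy i))`,
`TZ = Finset.univ.image (fun i => (tz i, fz i))`, `card_image_le`.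
-/

open scoped Classical

namespace Pool.Agent.Lib.TriD

theorem round_idx (c : ℝ) (hc : 0 < c) (hc1 : c < 1) (ε : ℝ) (hε : 0 < ε) : ∃ m e0 : ℝ, 1 ≤ m ∧ 0 < e0 ∧
    ∀ {V : Type} [Nonempty V] (X Y Z : Finset V) (E0 : Finset (V × V)) (Yx Zx : V → Finset V)
      (w : V → V → V → ℝ) (s e : ℝ), RHyp X Y Z E0 Yx Zx w c s e → m ≤ s → e ≤ e0 →
      ∀ (ι κ : Type) [Fintype ι] [Fintype κ], (Fintype.card ι : ℝ) ≤ s ^ 20 →
      (Fintype.card κ : ℝ) ≤ s ^ 20 →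
      ∀ (ty : ι → V) (fy : ι → V → ℝ) (tz : κ → V) (fz : κ → V → ℝ),
      (∀ i z, |fy i z| ≤ 1 / s) → (∀ i y, |fz i y| ≤ 1 / s) →
      ∃ π : V → V → V, (∀ x ∈ X, Set.BijOn (π x) (Yx x) (Zx x)) ∧
        (∀ x ∈ X, ∀ y ∈ Yx x, (y, π x y) ∈ E0) ∧
        (∀ x ∈ X, ∀ x' ∈ X, x ≠ x' → ∀ y ∈ Yx x, y ∈ Yx x' → π x y ≠ π x' y) ∧
        (∀ i, |∑ z ∈ Z.filter (fun z => (ty i, z) ∈ E0 ∧ ∀ x ∈ X, ty i ∈ Yx x → π x (ty i) ≠ z),
            fy i z / (1 - ∑ x ∈ X, w x (ty i) z) -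
              ∑ z ∈ Z.filter (fun z => (ty i, z) ∈ E0), fy i z| ≤ ε) ∧
        (∀ i, |∑ y ∈ Y.filter (fun y => (y, tz i) ∈ E0 ∧ ∀ x ∈ X, y ∈ Yx x → π x y ≠ tz i),
            fz i y / (1 - ∑ x ∈ X, w x y (tz i)) -
              ∑ y ∈ Y.filter (fun y => (y, tz i) ∈ E0), fz i y| ≤ ε) := by
  obtain ⟨K, s0, e0, hK, hs0, he0, H⟩ := round_lemma c hc hc1
  refine ⟨max s0 ((2 * K / ε) ^ (3 : ℕ)), min e0 (ε / (2 * K)), hs0.trans (le_max_left _ _),
    lt_min he0 (by positivity), ?_⟩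
  intro V _ X Y Z E0 Yx Zx w s e hR hms hee ι κ _ _ hι hκ ty fy tz fz hfy hfz
  have hspos : 0 < s := lt_of_lt_of_le one_pos hR.hs
  have hq : (0 : ℝ) < 2 * K / ε := by positivity
  have hs3 : s ^ (-(1 / 3) : ℝ) ≤ ε / (2 * K) := by
    have h1 : (2 * K / ε) ^ (3 : ℕ) ≤ s := (le_max_right _ _).trans hms
    have h3 : 2 * K / ε ≤ s ^ ((1 / 3 : ℝ)) := by
      have h4 := Real.rpow_le_rpow (by positivity) h1 (by norm_num : (0 : ℝ) ≤ 1 / 3)
      rw [← Real.rpow_natCast, ← Real.rpow_mul hq.le] at h4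
      norm_num at h4
      convert h4 using 2
    rw [Real.rpow_neg hspos.le]
    have h5 : ε / (2 * K) = (2 * K / ε)⁻¹ := by rw [inv_div]
    rw [h5]
    exact inv_anti₀ hq h3
  have hbd : K * (e + s ^ (-(1 / 3) : ℝ)) ≤ ε := by
    have he2 : e ≤ ε / (2 * K) := hee.trans (min_le_right _ _)
    have h6 : K * (e + s ^ (-(1 / 3) : ℝ)) ≤ K * (ε / (2 * K) + ε / (2 * K)) :=
      mul_le_mul_of_nonneg_left (add_le_add he2 hs3) hK.le
    have h7 : K * (ε / (2 * K) + ε / (2 * K)) = ε := by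
      field_simp
      ring
    linarith
  obtain ⟨π, g1, g2, g3, g4, g5⟩ := H X Y Z E0 Yx Zx w s e hR ((le_max_left _ _).trans hms)
    (hee.trans (min_le_left _ _)) (Finset.univ.image (fun i => (ty i, fy i)))
    (Finset.univ.image (fun i => (tz i, fz i)))
    (by
      intro t ht z
      obtain ⟨i, -, rfl⟩ := Finset.mem_image.1 ht
      exact hfy i z)
    (by
      intro t ht z
      obtain ⟨i, -, rfl⟩ := Finset.mem_image.1 ht
      exact hfz i z)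
    (by
      refine le_trans ?_ hι
      exact_mod_cast (Finset.card_image_le (s := Finset.univ) (f := fun i => (ty i, fy i))))
    (by
      refine le_trans ?_ hκ
      exact_mod_cast (Finset.card_image_le (s := Finset.univ) (f := fun i => (tz i, fz i))))
  refine ⟨π, g1, g2, g3, fun i => ?_, fun i => ?_⟩
  · exact (g4 (ty i, fy i) (Finset.mem_image_of_mem _ (Finset.mem_univ i))).trans hbd
  · exact (g5 (tz i, fz i) (Finset.mem_image_of_mem _ (Finset.mem_univ i))).trans hbd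

end Pool.Agent.Lib.TriD
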