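import Pool.Agent.Lib.TriD.RdA1
import Pool.Agent.Lib.TriD.RdIdx

set_option autoImplicit false

/-!
MODULE RdA2 (about 400 lines). Round 1.

PROOF. Choose `ε1 > 0` with `ε1 * 10 / c ≤ ε`, `2 * ε1 ≤ ε` (e.g. `ε1 = c * ε / 10`) and `m` from `round_idx (cR c δ) ε1` (for the scale `2 s`: `m ≤ s`
suffices), `m ≥ 1`, `m ≥ 128 K / c^6`, `m ≥ 6`. Let `S1 = S1 p A0 A1 ω`; for `x ∈ X` the weight is `ω x y b`, so
`1 - ∑ x ∈ X, w x y b = S1 y b`. Index types `ι = κ = {v // v ∈ A0} × {v // v ∈ A0} × {v // v ∈ A0} × Fin 6`; `card A0 ≤ 3 (1 + ξ) s ≤ 6 s`,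
`card ι ≤ 6 * (6 s)^3 ≤ (2 s)^20`. Row tests (`i = (y, x, x', k)`, `ty i = y`):
k=0: `fy z = c/10 * ω x y z`;  k=1: `c/10 * ω x y z` if `z ∉ A1`, else `0`;  k=2: `1/(2s)` if `z ∉ A1`, `H.Adj x z`, `H.Adj x' z`, else `0`;
k=3,4,5: `1/(2s)` if `z ∈ A1 \ A2` / `A2 \ A3` / `A3`, else `0`.
Column tests (`i = (b, x, x', k)`, `tz i = b`): k=0: `c/10 * ω x y b` if `y ∉ A1`; k=1: `c/10 * ω x y b` if `y ∈ A1`; k=2,3,4: `1/(2s)` if
`y ∈ A1 \ A2` / `A2 \ A3` / `A3`; k=5: `0`. (`0 ≤ ω ≤ 5/(c s)` gives `c/10 * ω ≤ 1/(2s)`.)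
`round_idx` gives `π`. The pairs alive at `y` are the `z` with `al1 y z` (for `y ∈ cls p A0 1`; `al1` implies `z ∈ A0`).
`ta`: test k=0 times `10/c`: `∑ al1 ω x y b / S1 - ∑ (y,b) ∈ E0, ω x y b`, and the second sum is `∑ b, ω x y b = 1` (`ω ≠ 0` implies
`Allow`, so `(y,b) ∈ E0`; `(x, y)` is outer since `y ∉ A1`: `o01`). `tb0, tb1`: column tests k=0,1. `tc`: row test k=1.
`td`: `y ∉ A1`; test k=2 times `2 s`: `∑ alive z in the set, 1/S1 ≥ (number of E0-neighbours z of y in the set) - 2 s ε1`, `y ∉ A2` so all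
`H`-neighbours count; `1/S1 ≤ 16/(c δ)` gives `number alive ≥ (c δ/16) * (number - 2 s ε1)`.
`te`: column test k=2 (`b ∉ A1`). `dead`: for `y ∈ A1`, `Z` one of the three sets (all contained in `A1`): test times `2 s`:
`∑ alive b ∈ cls p Z 2, 1/S1 ≥ N - 2 s ε1`, `N` = number of `b ∈ cls p Z 2` with `H.Adj y b`, not both in `A2`; `1/S1 ≤ 1/(1 - 11/10 δ)`
(`s1_facts`, inner), so `alive ≥ (1 - 11/10 δ)(N - 2 s ε1) ≥ N - 11/10 δ N - 2 s ε1`. Same for `b ∈ A1` with column tests k=2,3,4.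
`bij`, `mem`, `disj`: translate `Set.BijOn` on the finsets to the sets of neighbours (all neighbours are in `A0`).
-/

open scoped Classical

noncomputable section

namespace Pool.Agent.Lib.TriD

section Aux

variable {V : Type} [Fintype V]

private theorem r_om {al E : V → Prop} [DecidablePred al] [DecidablePred E] {f g : V → ℝ}
    {c ε : ℝ} (hc : 0 < c)
    (h : |∑ z ∈ Finset.univ.filter al, (c / 10 * f z) / g z -
      ∑ z ∈ Finset.univ.filter E, c / 10 * f z| ≤ c * ε / 10) :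
    |∑ z ∈ Finset.univ.filter al, f z / g z - ∑ z ∈ Finset.univ.filter E, f z| ≤ ε := by
  have e1 : ∑ z ∈ Finset.univ.filter al, (c / 10 * f z) / g z =
      c / 10 * ∑ z ∈ Finset.univ.filter al, f z / g z := by
    rw [Finset.mul_sum]
    exact Finset.sum_congr rfl fun z _ => by ring
  have e2 : ∑ z ∈ Finset.univ.filter E, c / 10 * f z =
      c / 10 * ∑ z ∈ Finset.univ.filter E, f z := by
    rw [Finset.mul_sum]
  have hc10 : 0 < c / 10 := by positivity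
  rw [e1, e2, ← mul_sub, abs_mul, abs_of_pos hc10] at h
  have e3 : c * ε / 10 = c / 10 * ε := by ring
  rw [e3] at h
  exact le_of_mul_le_mul_left h hc10

private theorem r_lb {al E R : V → Prop} [DecidablePred al] [DecidablePred E] [DecidablePred R]
    {T1 T2 : Finset V} {g : V → ℝ} {s e k : ℝ} (hs : 0 < s) (hk : 0 < k)
    (h : |∑ z ∈ Finset.univ.filter al, (if R z then 1 / (2 * s) else 0) / g z -
      ∑ z ∈ Finset.univ.filter E, (if R z then 1 / (2 * s) else 0)| ≤ e)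
    (hg : ∀ z, al z → R z → k ≤ g z) (hT1 : ∀ z, z ∈ T1 ↔ E z ∧ R z)
    (hT2 : ∀ z, z ∈ T2 ↔ al z ∧ R z) :
    k * ((T1.card : ℝ) - 2 * s * e) ≤ (T2.card : ℝ) := by
  have f1 : Finset.univ.filter (fun z => E z ∧ R z) = T1 := by
    ext z
    simp [hT1]
  have f2 : Finset.univ.filter (fun z => al z ∧ R z) = T2 := by
    ext z
    simp [hT2]
  have h1 : ∑ z ∈ Finset.univ.filter E, (if R z then 1 / (2 * s) else 0) =
      (T1.card : ℝ) * (1 / (2 * s)) := by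
    rw [← Finset.sum_filter, Finset.filter_filter, f1, Finset.sum_const, nsmul_eq_mul]
  have h2 : ∑ z ∈ Finset.univ.filter al, (if R z then 1 / (2 * s) else 0) / g z ≤
      (T2.card : ℝ) * (1 / (2 * s) / k) := by
    have e : ∀ z ∈ Finset.univ.filter al, (if R z then 1 / (2 * s) else 0) / g z =
        if R z then 1 / (2 * s) / g z else 0 := by
      intro z _
      split_ifs
      · rfl
      · exact zero_div _
    rw [Finset.sum_congr rfl e, ← Finset.sum_filter, Finset.filter_filter, f2, ← nsmul_eq_mul]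
    refine Finset.sum_le_card_nsmul _ _ _ ?_
    intro z hz
    rw [hT2] at hz
    exact div_le_div_of_nonneg_left (by positivity) hk (hg z hz.1 hz.2)
  have h3 := (abs_le.1 h).1
  rw [h1] at h3
  set N : ℝ := (T1.card : ℝ)
  set M : ℝ := (T2.card : ℝ)
  have h4 : N * (1 / (2 * s)) - e ≤ M * (1 / (2 * s) / k) := by linarith
  have h5 : (N * (1 / (2 * s)) - e) * (2 * s * k) ≤ M * (1 / (2 * s) / k) * (2 * s * k) :=
    mul_le_mul_of_nonneg_right h4 (by positivity)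
  have e5 : M * (1 / (2 * s) / k) * (2 * s * k) = M := by
    field_simp
  have e6 : (N * (1 / (2 * s)) - e) * (2 * s * k) = k * (N - 2 * s * e) := by
    field_simp
  linarith

variable {p : V → Fin 3} {G H : SimpleGraph V} {c K s ξ δ : ℝ} {A0 A1 A2 A3 : Finset V}
  {ω : V → V → V → ℝ}

private theorem r_tr {al E : V → Prop} [DecidablePred al] [DecidablePred E] {T1 T2 : Finset V}
    {f g g' : V → ℝ} {e : ℝ} (hT1 : ∀ z, z ∈ T1 ↔ al z) (hT2 : ∀ z, z ∈ T2 ↔ E z)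
    (hg : ∀ z, g' z = g z) (h : |∑ z ∈ T1, f z / g' z - ∑ z ∈ T2, f z| ≤ e) :
    |∑ z ∈ Finset.univ.filter al, f z / g z - ∑ z ∈ Finset.univ.filter E, f z| ≤ e := by
  have f1 : Finset.univ.filter al = T1 := by
    ext z
    simp [hT1]
  have f2 : Finset.univ.filter E = T2 := by
    ext z
    simp [hT2]
  have f3 : ∑ z ∈ T1, f z / g' z = ∑ z ∈ T1, f z / g z :=
    Finset.sum_congr rfl fun z _ => by rw [hg z]
  rw [f1, f2, ← f3]
  exact h

omit [Fintype V] in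
private theorem r_mf (P : V → Prop) (inst : DecidablePred P) (S : Finset V) (a : V) :
    a ∈ @Finset.filter V P inst S ↔ a ∈ S ∧ P a := Finset.mem_filter

private theorem r_row1 (hL : Level p G H s ξ δ A0 A1 A2 A3) (π : V → V → V) {y : V}
    (hy0 : y ∈ A0) (hy : p y = 1) (z : V) :
    (z ∈ cls p A0 2 ∧ (y, z) ∈ (cls p A0 1 ×ˢ cls p A0 2).filter
          (fun e => H.Adj e.1 e.2 ∧ ¬ (e.1 ∈ A2 ∧ e.2 ∈ A2)) ∧
          ∀ x ∈ cls p (A0 \ A1) 0, y ∈ (cls p A0 1).filter (fun y => H.Adj x y) → π x y ≠ z) ↔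
      al1 p H A0 A1 A2 π y z := by
  simp only [Finset.mem_filter, Finset.mem_product, al1, cls, hy0, hy, true_and]
  constructor
  · rintro ⟨h1, h2, h3⟩
    exact ⟨h1.2, h2.2.1, h2.2.2, fun x hx hxy => h3 x hx hxy⟩
  · rintro ⟨h1, h2, h3, h4⟩
    exact ⟨⟨hL.supp _ _ h2.symm, h1⟩, ⟨⟨hL.supp _ _ h2.symm, h1⟩, h2, h3⟩,
      fun x hx hxy => h4 x hx hxy⟩

private theorem r_row2 (hL : Level p G H s ξ δ A0 A1 A2 A3) {y : V}
    (hy0 : y ∈ A0) (hy : p y = 1) (z : V) :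
    (z ∈ cls p A0 2 ∧ (y, z) ∈ (cls p A0 1 ×ˢ cls p A0 2).filter
          (fun e => H.Adj e.1 e.2 ∧ ¬ (e.1 ∈ A2 ∧ e.2 ∈ A2))) ↔
      (p z = 2 ∧ H.Adj y z ∧ ¬ (y ∈ A2 ∧ z ∈ A2)) := by
  simp only [Finset.mem_filter, Finset.mem_product, cls, hy0, hy, true_and]
  constructor
  · rintro ⟨h1, h2⟩
    exact ⟨h1.2, h2.2.1, h2.2.2⟩
  · rintro ⟨h1, h2, h3⟩
    exact ⟨⟨hL.supp _ _ h2.symm, h1⟩, ⟨hL.supp _ _ h2.symm, h1⟩, h2, h3⟩

private theorem r_col1 (hL : Level p G H s ξ δ A0 A1 A2 A3) (π : V → V → V) {b : V}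
    (hb0 : b ∈ A0) (hb : p b = 2) (y : V) :
    (y ∈ cls p A0 1 ∧ (y, b) ∈ (cls p A0 1 ×ˢ cls p A0 2).filter
          (fun e => H.Adj e.1 e.2 ∧ ¬ (e.1 ∈ A2 ∧ e.2 ∈ A2)) ∧
          ∀ x ∈ cls p (A0 \ A1) 0, y ∈ (cls p A0 1).filter (fun y => H.Adj x y) → π x y ≠ b) ↔
      al1 p H A0 A1 A2 π y b := by
  simp only [Finset.mem_filter, Finset.mem_product, al1, cls, hb0, hb, true_and, and_true]
  constructor
  · rintro ⟨h1, h2, h3⟩
    exact ⟨h1.2, h2.2.1, h2.2.2, fun x hx hxy => h3 x hx ⟨h1, hxy⟩⟩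
  · rintro ⟨h1, h2, h3, h4⟩
    exact ⟨⟨hL.supp _ _ h2, h1⟩, ⟨⟨hL.supp _ _ h2, h1⟩, h2, h3⟩,
      fun x hx hxy => h4 x hx hxy.2⟩

private theorem r_col2 (hL : Level p G H s ξ δ A0 A1 A2 A3) {b : V}
    (hb0 : b ∈ A0) (hb : p b = 2) (y : V) :
    (y ∈ cls p A0 1 ∧ (y, b) ∈ (cls p A0 1 ×ˢ cls p A0 2).filter
          (fun e => H.Adj e.1 e.2 ∧ ¬ (e.1 ∈ A2 ∧ e.2 ∈ A2))) ↔
      (p y = 1 ∧ H.Adj y b ∧ ¬ (y ∈ A2 ∧ b ∈ A2)) := by
  simp only [Finset.mem_filter, Finset.mem_product, cls, hb0, hb, and_true]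
  constructor
  · rintro ⟨h1, h2⟩
    exact ⟨h1.2, h2.2.1, h2.2.2⟩
  · rintro ⟨h1, h2, h3⟩
    exact ⟨⟨hL.supp _ _ h2, h1⟩, ⟨hL.supp _ _ h2, h1⟩, h2, h3⟩

omit [Fintype V] in
private theorem r_w (y z : V) :
    1 - ∑ x ∈ cls p (A0 \ A1) 0, (if x ∈ cls p (A0 \ A1) 0 then ω x y z else 0) =
      S1 p A0 A1 ω y z := by
  unfold S1
  rw [Finset.sum_congr rfl (fun x hx => if_pos hx)]

omit [Fintype V] in
private theorem r_s1 {S T : Finset V} {R : V → Prop} [DecidablePred R] {f g : V → ℝ}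
    (hT : ∀ z, z ∈ T ↔ z ∈ S ∧ R z) :
    ∑ z ∈ S, (if R z then f z else 0) / g z = ∑ z ∈ T, f z / g z := by
  have e : T = S.filter R := by
    ext z
    rw [hT, Finset.mem_filter]
  rw [e, Finset.sum_filter]
  refine Finset.sum_congr rfl fun z _ => ?_
  split_ifs
  · rfl
  · exact zero_div _

omit [Fintype V] in
private theorem r_s2 {S T : Finset V} {R : V → Prop} [DecidablePred R] {f : V → ℝ}
    (h1 : ∀ z ∈ T, f z ≠ 0 → z ∈ S ∧ R z) (h2 : ∀ z ∈ S, R z → f z ≠ 0 → z ∈ T) :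
    ∑ z ∈ S, (if R z then f z else 0) = ∑ z ∈ T, f z := by
  rw [← Finset.sum_filter]
  refine Finset.sum_congr_of_eq_on_inter ?_ ?_ (fun _ _ _ => rfl)
  · intro z hz hz'
    rw [Finset.mem_filter] at hz
    by_contra h
    exact hz' (h2 z hz.1 hz.2 h)
  · intro z hz hz'
    by_contra h
    exact hz' (Finset.mem_filter.2 (h1 z hz h))

private theorem r_num {c δ s ε : ℝ} (hc : 0 < c) (hc1 : c < 1) (hδ : 0 < δ) (hδ1 : δ ≤ 1)
    (hs : 0 < s) (hε : 0 < ε) : c * δ / 16 * (2 * s * (c * ε / 10)) ≤ ε * s := by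
  have h1 : c * δ * c ≤ 1 := by
    have : c * δ ≤ 1 := mul_le_one₀ hc1.le hδ.le hδ1
    exact mul_le_one₀ this hc.le hc1.le
  have e : c * δ / 16 * (2 * s * (c * ε / 10)) = (c * δ * c) * (ε * s) / 80 := by ring
  rw [e]
  have : (c * δ * c) * (ε * s) ≤ 1 * (ε * s) := mul_le_mul_of_nonneg_right h1 (by positivity)
  have h3 : 0 < ε * s := by positivity
  linarith

private theorem r_dead {D C N M : ℕ} {c δ s ε : ℝ} (hc : 0 < c) (hc1 : c < 1) (hδ : 0 < δ)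
    (_hδ1 : δ ≤ 1 / 2) (hs : 0 < s) (hε : 0 < ε) (hN : N = D + M) (hC : N ≤ C)
    (h : (1 - 11 / 10 * δ) * ((N : ℝ) - 2 * s * (c * ε / 10)) ≤ M) :
    (D : ℝ) ≤ 12 / 10 * δ * C + ε * s := by
  have h1 : (N : ℝ) = D + M := by exact_mod_cast hN
  have h2 : (N : ℝ) ≤ C := by exact_mod_cast hC
  have h0 : (0 : ℝ) ≤ N := by positivity
  have h3 : δ * N ≤ δ * C := mul_le_mul_of_nonneg_left h2 hδ.le
  have h4 : (1 - 11 / 10 * δ) * (2 * s * (c * ε / 10)) ≤ ε * s := by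
    have h5 : c * (ε * s) ≤ 1 * (ε * s) := mul_le_mul_of_nonneg_right hc1.le (by positivity)
    have h6 : 0 < c * (ε * s) := by positivity
    have h7 : 0 ≤ δ * (c * (ε * s)) := by positivity
    nlinarith
  have h5 : 0 ≤ δ * C := mul_nonneg hδ.le (h0.trans h2)
  have e : (1 - 11 / 10 * δ) * ((N : ℝ) - 2 * s * (c * ε / 10)) =
      N - 11 / 10 * (δ * N) - (1 - 11 / 10 * δ) * (2 * s * (c * ε / 10)) := by ring
  rw [e] at h
  linarith

private theorem r_sub (hL : Level p G H s ξ δ A0 A1 A2 A3) {Z : Finset V}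
    (hZ : Z ∈ ({A1 \ A2, A2 \ A3, A3} : Set (Finset V))) {z : V} (hz : z ∈ Z) : z ∈ A1 := by
  simp only [Set.mem_insert_iff, Set.mem_singleton_iff] at hZ
  rcases hZ with h | h | h
  · rw [h, Finset.mem_sdiff] at hz
    exact hz.1
  · rw [h, Finset.mem_sdiff] at hz
    exact hL.sub2 hz.1
  · rw [h] at hz
    exact hL.sub2 (hL.sub3 hz)

private theorem r_fin (hG : Host p G c K) (hL : Level p G H s ξ δ A0 A1 A2 A3)
    (hω : FracW p H A1 A2 c s δ ω) (hc : 0 < c) (hc1 : c < 1) (hξ : 0 ≤ ξ) (hδ : 0 < δ)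
    (hδ1 : δ ≤ c ^ 11 / 10 ^ 9) (hξ1 : ξ ≤ c ^ 9 * δ / 10 ^ 6) {ε : ℝ} (hε : 0 < ε)
    (π : V → V → V)
    (hr0 : ∀ y ∈ cls p A0 1, ∀ x ∈ A0,
      |∑ z ∈ Finset.univ.filter (fun z => al1 p H A0 A1 A2 π y z),
          (c / 10 * ω x y z) / S1 p A0 A1 ω y z -
        ∑ z ∈ Finset.univ.filter (fun z => p z = 2 ∧ H.Adj y z ∧ ¬ (y ∈ A2 ∧ z ∈ A2)),
          c / 10 * ω x y z| ≤ c * ε / 10)
    (hr1 : ∀ y ∈ cls p A0 1, ∀ x ∈ A0,
      |∑ z ∈ Finset.univ.filter (fun z => al1 p H A0 A1 A2 π y z),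
          (c / 10 * (if z ∉ A1 then ω x y z else 0)) / S1 p A0 A1 ω y z -
        ∑ z ∈ Finset.univ.filter (fun z => p z = 2 ∧ H.Adj y z ∧ ¬ (y ∈ A2 ∧ z ∈ A2)),
          c / 10 * (if z ∉ A1 then ω x y z else 0)| ≤ c * ε / 10)
    (hr2 : ∀ y ∈ cls p A0 1, ∀ x ∈ A0, ∀ x' ∈ A0,
      |∑ z ∈ Finset.univ.filter (fun z => al1 p H A0 A1 A2 π y z),
          (if z ∉ A1 ∧ H.Adj x z ∧ H.Adj x' z then 1 / (2 * s) else 0) / S1 p A0 A1 ω y z -
        ∑ z ∈ Finset.univ.filter (fun z => p z = 2 ∧ H.Adj y z ∧ ¬ (y ∈ A2 ∧ z ∈ A2)),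
          (if z ∉ A1 ∧ H.Adj x z ∧ H.Adj x' z then 1 / (2 * s) else 0)| ≤ c * ε / 10)
    (hr3 : ∀ Z ∈ ({A1 \ A2, A2 \ A3, A3} : Set (Finset V)), ∀ y ∈ cls p A0 1,
      |∑ z ∈ Finset.univ.filter (fun z => al1 p H A0 A1 A2 π y z),
          (if z ∈ Z then 1 / (2 * s) else 0) / S1 p A0 A1 ω y z -
        ∑ z ∈ Finset.univ.filter (fun z => p z = 2 ∧ H.Adj y z ∧ ¬ (y ∈ A2 ∧ z ∈ A2)),
          (if z ∈ Z then 1 / (2 * s) else 0)| ≤ c * ε / 10)
    (hc0 : ∀ b ∈ cls p A0 2, ∀ x ∈ A0,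
      |∑ y ∈ Finset.univ.filter (fun y => al1 p H A0 A1 A2 π y b),
          (c / 10 * (if y ∉ A1 then ω x y b else 0)) / S1 p A0 A1 ω y b -
        ∑ y ∈ Finset.univ.filter (fun y => p y = 1 ∧ H.Adj y b ∧ ¬ (y ∈ A2 ∧ b ∈ A2)),
          c / 10 * (if y ∉ A1 then ω x y b else 0)| ≤ c * ε / 10)
    (hc1' : ∀ b ∈ cls p A0 2, ∀ x ∈ A0,
      |∑ y ∈ Finset.univ.filter (fun y => al1 p H A0 A1 A2 π y b),
          (c / 10 * (if y ∈ A1 then ω x y b else 0)) / S1 p A0 A1 ω y b -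
        ∑ y ∈ Finset.univ.filter (fun y => p y = 1 ∧ H.Adj y b ∧ ¬ (y ∈ A2 ∧ b ∈ A2)),
          c / 10 * (if y ∈ A1 then ω x y b else 0)| ≤ c * ε / 10)
    (hc2 : ∀ Z ∈ ({A1 \ A2, A2 \ A3, A3} : Set (Finset V)), ∀ b ∈ cls p A0 2,
      |∑ y ∈ Finset.univ.filter (fun y => al1 p H A0 A1 A2 π y b),
          (if y ∈ Z then 1 / (2 * s) else 0) / S1 p A0 A1 ω y b -
        ∑ y ∈ Finset.univ.filter (fun y => p y = 1 ∧ H.Adj y b ∧ ¬ (y ∈ A2 ∧ b ∈ A2)),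
          (if y ∈ Z then 1 / (2 * s) else 0)| ≤ c * ε / 10)
    (hbij : ∀ x ∈ cls p (A0 \ A1) 0,
      Set.BijOn (π x) {y | p y = 1 ∧ H.Adj x y} {b | p b = 2 ∧ H.Adj x b})
    (hmem : ∀ x ∈ cls p (A0 \ A1) 0, ∀ y, p y = 1 → H.Adj x y →
      H.Adj y (π x y) ∧ ¬ (y ∈ A2 ∧ π x y ∈ A2))
    (hdisj : ∀ x ∈ cls p (A0 \ A1) 0, ∀ x' ∈ cls p (A0 \ A1) 0, x ≠ x' → ∀ y, p y = 1 →
      H.Adj x y → H.Adj x' y → π x y ≠ π x' y) :
    R1Out p H A0 A1 A2 A3 ω c s δ ε π := by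
  have hs := hL.s0
  have hδs : δ ≤ 1 / 10 ^ 9 := by
    refine hδ1.trans (div_le_div_of_nonneg_right (pow_le_one₀ hc.le hc1.le) (by norm_num))
  have hδh : δ ≤ 1 / 2 := hδs.trans (by norm_num)
  have hδo : δ ≤ 1 := hδs.trans (by norm_num)
  have hS : ∀ {y b : V}, al1 p H A0 A1 A2 π y b → c * δ / 16 ≤ S1 p A0 A1 ω y b := by
    intro y b h
    exact (s1_facts hG hL hω hc hc1 hξ hδ hδ1 hξ1 h.1 h.2.1 h.2.2.1).1
  have hSi : ∀ {y b : V}, al1 p H A0 A1 A2 π y b → y ∈ A1 → b ∈ A1 →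
      1 - 11 / 10 * δ ≤ S1 p A0 A1 ω y b := by
    intro y b h h1 h2
    exact (s1_facts hG hL hω hc hc1 hξ hδ hδ1 hξ1 h.1 h.2.1 h.2.2.1).2.2.2 h1 h2
  have hk : 0 < c * δ / 16 := by positivity
  have hki : 0 < 1 - 11 / 10 * δ := by linarith
  have hnum := r_num hc hc1 hδ hδo hs hε
  refine ⟨hbij, hmem, hdisj, ?_, ?_, ?_, ?_, ?_, ?_, ?_⟩
  · -- ta
    intro x hx y hy hxy
    simp only [cls, Finset.mem_filter, Finset.mem_sdiff] at hx hy
    have h := r_om hc (hr0 y (by simp [cls, hy]) x (hL.sub1 hx.1))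
    have e : ∑ z ∈ Finset.univ.filter (fun z => p z = 2 ∧ H.Adj y z ∧ ¬ (y ∈ A2 ∧ z ∈ A2)),
        ω x y z = 1 := by
      rw [Finset.sum_filter_of_ne]
      · exact hω.o01 x y hx.2 hy.2 ⟨hxy, fun h => hy.1.2 h.2⟩
      · intro z _ hz
        have ha := hω.supp x y z hz
        exact ⟨ha.1.2.2.1, ha.1.2.2.2.2.2, ha.2.2.2.2⟩
    rwa [e] at h
  · -- tb0
    intro x hx b hb
    simp only [cls, Finset.mem_filter] at hx
    have h := r_om hc (hc0 b hb x (hL.sub1 hx.1))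
    rw [r_s1 (T := (cls p (A0 \ A1) 1).filter (fun y => al1 p H A0 A1 A2 π y b)),
      r_s2 (T := cls p (A0 \ A1) 1)] at h
    · exact h
    · intro y hy hne
      have ha := hω.supp x y b hne
      simp only [cls, Finset.mem_filter, Finset.mem_sdiff] at hy
      exact ⟨Finset.mem_filter.2 ⟨Finset.mem_univ _, ha.1.2.1, ha.1.2.2.2.2.2, ha.2.2.2.2⟩,
        hy.1.2⟩
    · intro y hy hR hne
      rw [Finset.mem_filter] at hy
      simp only [cls, Finset.mem_filter, Finset.mem_sdiff]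
      exact ⟨⟨hL.supp _ _ hy.2.2.1, hR⟩, hy.2.1⟩
    · intro y
      simp only [cls, Finset.mem_filter, Finset.mem_sdiff, Finset.mem_univ, true_and]
      constructor
      · rintro ⟨h1, h2⟩
        exact ⟨h2, h1.1.2⟩
      · rintro ⟨h1, h2⟩
        exact ⟨⟨⟨hL.supp _ _ h1.2.2.1, h2⟩, h1.1⟩, h1⟩
  · -- tb1
    intro x hx b hb
    simp only [cls, Finset.mem_filter] at hx
    have h := r_om hc (hc1' b hb x (hL.sub1 hx.1))
    rw [r_s1 (T := (cls p A1 1).filter (fun y => al1 p H A0 A1 A2 π y b)),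
      r_s2 (T := cls p A1 1)] at h
    · exact h
    · intro y hy hne
      have ha := hω.supp x y b hne
      simp only [cls, Finset.mem_filter] at hy
      exact ⟨Finset.mem_filter.2 ⟨Finset.mem_univ _, ha.1.2.1, ha.1.2.2.2.2.2, ha.2.2.2.2⟩,
        hy.1⟩
    · intro y hy hR hne
      rw [Finset.mem_filter] at hy
      simp only [cls, Finset.mem_filter]
      exact ⟨hR, hy.2.1⟩
    · intro y
      simp only [cls, Finset.mem_filter, Finset.mem_univ, true_and]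
      constructor
      · rintro ⟨h1, h2⟩
        exact ⟨h2, h1.1⟩
      · rintro ⟨h1, h2⟩
        exact ⟨⟨h2, h1.1⟩, h1⟩
  · -- tc
    intro x hx y hy
    simp only [cls, Finset.mem_filter] at hx hy
    have h := r_om hc (hr1 y (by simp [cls, hy, hL.sub1 hy.1]) x (hL.sub1 hx.1))
    rw [r_s1 (T := (cls p (A0 \ A1) 2).filter (fun b => al1 p H A0 A1 A2 π y b)),
      r_s2 (T := cls p (A0 \ A1) 2)] at h
    · exact h
    · intro b hb hne
      have ha := hω.supp x y b hne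
      simp only [cls, Finset.mem_filter, Finset.mem_sdiff] at hb
      exact ⟨Finset.mem_filter.2 ⟨Finset.mem_univ _, ha.1.2.2.1, ha.1.2.2.2.2.2, ha.2.2.2.2⟩,
        hb.1.2⟩
    · intro b hb hR hne
      rw [Finset.mem_filter] at hb
      simp only [cls, Finset.mem_filter, Finset.mem_sdiff]
      exact ⟨⟨hL.supp _ _ hb.2.2.1.symm, hR⟩, hb.2.1⟩
    · intro b
      simp only [cls, Finset.mem_filter, Finset.mem_sdiff, Finset.mem_univ, true_and]
      constructor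
      · rintro ⟨h1, h2⟩
        exact ⟨h2, h1.1.2⟩
      · rintro ⟨h1, h2⟩
        exact ⟨⟨⟨hL.supp _ _ h1.2.2.1.symm, h2⟩, h1.2.1⟩, h1⟩
  · -- td
    intro y hy x hx x' hx'
    simp only [cls, Finset.mem_filter, Finset.mem_sdiff] at hx hx' hy
    have hy2 : y ∉ A2 := fun h => hy.1.2 (hL.sub2 h)
    have h := r_lb (T1 := (cls p (A0 \ A1) 2).filter
        (fun b => H.Adj y b ∧ H.Adj x b ∧ H.Adj x' b))
      (T2 := (cls p (A0 \ A1) 2).filter (fun b => al1 p H A0 A1 A2 π y b ∧ H.Adj x b ∧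
          H.Adj x' b)) hs hk
      (hr2 y (by simp [cls, hy]) x (hL.sub1 hx.1) x' (hL.sub1 hx'.1)) (fun z hz _ => hS hz)
      (by
        intro z
        simp only [cls, Finset.mem_filter, Finset.mem_sdiff]
        constructor
        · rintro ⟨⟨⟨h1, h2⟩, h3⟩, h4, h5, h6⟩
          exact ⟨⟨h3, h4, fun h => hy2 h.1⟩, h2, h5, h6⟩
        · rintro ⟨⟨h1, h2, _⟩, h4, h5, h6⟩
          exact ⟨⟨⟨hL.supp _ _ h2.symm, h4⟩, h1⟩, h2, h5, h6⟩)
      (by
        intro z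
        simp only [cls, Finset.mem_filter, Finset.mem_sdiff]
        constructor
        · rintro ⟨⟨⟨_, h2⟩, _⟩, h4, h5, h6⟩
          exact ⟨h4, h2, h5, h6⟩
        · rintro ⟨h1, h4, h5, h6⟩
          exact ⟨⟨⟨hL.supp _ _ h1.2.2.1.symm, h4⟩, h1.2.1⟩, h1, h5, h6⟩)
    rw [mul_sub] at h
    linarith
  · -- te
    intro b hb
    simp only [cls, Finset.mem_filter, Finset.mem_sdiff] at hb
    have hb2 : b ∉ A2 := fun h => hb.1.2 (hL.sub2 h)
    have h := r_lb (T1 := (cls p (A1 \ A2) 1).filter (fun y => H.Adj y b))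
      (T2 := (cls p (A1 \ A2) 1).filter (fun y => al1 p H A0 A1 A2 π y b)) hs hk
      (hc2 (A1 \ A2) (by simp) b (by simp [cls, hb])) (fun z hz _ => hS hz)
      (by
        intro z
        simp only [cls, Finset.mem_filter]
        constructor
        · rintro ⟨⟨h1, h2⟩, h3⟩
          exact ⟨⟨h2, h3, fun h => hb2 h.2⟩, h1⟩
        · rintro ⟨⟨h1, h2, _⟩, h4⟩
          exact ⟨⟨h4, h1⟩, h2⟩)
      (by
        intro z
        simp only [cls, Finset.mem_filter]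
        constructor
        · rintro ⟨⟨h1, _⟩, h3⟩
          exact ⟨h3, h1⟩
        · rintro ⟨h1, h4⟩
          exact ⟨⟨h4, h1.1⟩, h1⟩)
    rw [mul_sub] at h
    linarith
  · -- dead
    intro Z hZ
    refine ⟨?_, ?_⟩
    · intro y hy
      simp only [cls, Finset.mem_filter] at hy
      have h := r_lb (T1 := Finset.univ.filter (fun z => (p z = 2 ∧ H.Adj y z ∧
          ¬ (y ∈ A2 ∧ z ∈ A2)) ∧ z ∈ Z))
        (T2 := Finset.univ.filter (fun z => al1 p H A0 A1 A2 π y z ∧ z ∈ Z)) hs hki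
        (hr3 Z hZ y (by simp [cls, hy, hL.sub1 hy.1]))
        (fun z hz hz' => hSi hz hy.1 (r_sub hL hZ hz')) (fun z => by simp) (fun z => by simp)
      refine r_dead hc hc1 hδ hδh hs hε ?_ ?_ h
      · rw [← Finset.card_union_of_disjoint]
        · congr 1
          ext z
          simp only [cls, Finset.mem_filter, Finset.mem_univ, true_and, Finset.mem_union]
          constructor
          · rintro ⟨⟨h1, h2, h3⟩, h4⟩
            by_cases ha : al1 p H A0 A1 A2 π y z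
            · exact Or.inr ⟨ha, h4⟩
            · exact Or.inl ⟨⟨h4, h1⟩, h2, h3, ha⟩
          · rintro (⟨⟨h1, h2⟩, h3, h4, _⟩ | ⟨h1, h2⟩)
            · exact ⟨⟨h2, h3, h4⟩, h1⟩
            · exact ⟨⟨h1.2.1, h1.2.2.1, h1.2.2.2.1⟩, h2⟩
        · rw [Finset.disjoint_left]
          intro z hz hz'
          rw [Finset.mem_filter] at hz hz'
          exact hz.2.2.2 hz'.2.1
      · refine Finset.card_le_card ?_
        intro z hz
        rw [Finset.mem_filter] at hz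
        rw [cls, Finset.mem_filter]
        exact ⟨hz.2.2, hz.2.1.1⟩
    · intro b hb
      simp only [cls, Finset.mem_filter] at hb
      have h := r_lb (T1 := Finset.univ.filter (fun z => (p z = 1 ∧ H.Adj z b ∧
          ¬ (z ∈ A2 ∧ b ∈ A2)) ∧ z ∈ Z))
        (T2 := Finset.univ.filter (fun z => al1 p H A0 A1 A2 π z b ∧ z ∈ Z)) hs hki
        (hc2 Z hZ b (by simp [cls, hb, hL.sub1 hb.1]))
        (fun z hz hz' => hSi hz (r_sub hL hZ hz') hb.1) (fun z => by simp) (fun z => by simp)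
      refine r_dead hc hc1 hδ hδh hs hε ?_ ?_ h
      · rw [← Finset.card_union_of_disjoint]
        · congr 1
          ext z
          simp only [cls, Finset.mem_filter, Finset.mem_univ, true_and, Finset.mem_union]
          constructor
          · rintro ⟨⟨h1, h2, h3⟩, h4⟩
            by_cases ha : al1 p H A0 A1 A2 π z b
            · exact Or.inr ⟨ha, h4⟩
            · exact Or.inl ⟨⟨h4, h1⟩, h2, h3, ha⟩
          · rintro (⟨⟨h1, h2⟩, h3, h4, _⟩ | ⟨h1, h2⟩)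
            · exact ⟨⟨h2, h3, h4⟩, h1⟩
            · exact ⟨⟨h1.1, h1.2.2.1, h1.2.2.2.1⟩, h2⟩
        · rw [Finset.disjoint_left]
          intro z hz hz'
          rw [Finset.mem_filter] at hz hz'
          exact hz.2.2.2 hz'.2.1
      · refine Finset.card_le_card ?_
        intro z hz
        rw [Finset.mem_filter] at hz
        rw [cls, Finset.mem_filter]
        exact ⟨hz.2.2, hz.2.1.1⟩

end Aux

theorem roundA (c K δ ε : ℝ) (hc : 0 < c) (hc1 : c < 1) (hK : 0 ≤ K) (hδ : 0 < δ)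
    (hδ1 : δ ≤ c ^ 11 / 10 ^ 9) (hε : 0 < ε) (hε1 : ε ≤ 1) : ∃ m : ℝ,
    ∀ {V : Type} [Fintype V] {p : V → Fin 3} {G H : SimpleGraph V} {s ξ : ℝ} {A0 A1 A2 A3 : Finset V}
      {ω : V → V → V → ℝ}, Host p G c K → Level p G H s ξ δ A0 A1 A2 A3 → FracW p H A1 A2 c s δ ω →
      0 ≤ ξ → ξ ≤ c ^ 9 * δ / 10 ^ 6 → m ≤ s →
      ∃ π1 : V → V → V, R1Out p H A0 A1 A2 A3 ω c s δ ε π1 := by
  have hcR : 0 < cR c δ := by
    unfold cR
    positivity
  have hδs : δ ≤ 1 / 10 ^ 9 :=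
    hδ1.trans (div_le_div_of_nonneg_right (pow_le_one₀ hc.le hc1.le) (by norm_num))
  have hδo : δ ≤ 1 := hδs.trans (by norm_num)
  have hcR1 : cR c δ < 1 := by
    unfold cR
    have h1 : c ^ 4 ≤ 1 := pow_le_one₀ hc.le hc1.le
    have h2 : δ ^ 2 ≤ 1 := pow_le_one₀ hδ.le hδo
    have h3 : c ^ 4 * δ ^ 2 ≤ 1 := mul_le_one₀ h1 (by positivity) h2
    have : c ^ 4 * δ ^ 2 / 10 ^ 4 ≤ 1 / 10 ^ 4 := div_le_div_of_nonneg_right h3 (by norm_num)
    exact this.trans_lt (by norm_num)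
  obtain ⟨m0, e0, _, he0, R⟩ := round_idx (cR c δ) hcR hcR1 (c * ε / 10) (by positivity)
  refine ⟨max m0 (max (128 * K / c ^ 6) 6), ?_⟩
  intro V _ p G H s ξ A0 A1 A2 A3 ω hG hL hω hξ hξ1 hm
  have hm0 : m0 ≤ s := (le_max_left _ _).trans hm
  have hmK : 128 * K / c ^ 6 ≤ s := ((le_max_left _ _).trans (le_max_right _ _)).trans hm
  have hm6 : (6 : ℝ) ≤ s := ((le_max_right _ _).trans (le_max_right _ _)).trans hm
  have hs0 := hL.s0
  have hs1 : 1 ≤ s := by linarith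
  have hn : 0 < Fintype.card V := by
    have : (0 : ℝ) < Fintype.card V := hs0.trans_le hL.s1
    exact_mod_cast this
  have : Nonempty V := Fintype.card_pos_iff.1 hn
  have hξo : ξ ≤ 1 := by
    refine hξ1.trans ?_
    have h1 : c ^ 9 ≤ 1 := pow_le_one₀ hc.le hc1.le
    have h2 : c ^ 9 * δ ≤ 1 := mul_le_one₀ h1 hδ.le hδo
    have : c ^ 9 * δ / 10 ^ 6 ≤ 1 / 10 ^ 6 := div_le_div_of_nonneg_right h2 (by norm_num)
    exact this.trans (by norm_num)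
  have hA0 : (A0.card : ℝ) ≤ 6 * s := by
    have h : A0.card = (cls p A0 0).card + (cls p A0 1).card + (cls p A0 2).card := by
      rw [Finset.card_eq_sum_card_fiberwise (f := p) (s := A0) (t := Finset.univ)
        (fun x _ => Finset.mem_coe.2 (Finset.mem_univ _)), Fin.sum_univ_three]
      rfl
    have h0 := (cnt_size hG hL 0).1
    have h1 := (cnt_size hG hL 1).1
    have h2 := (cnt_size hG hL 2).1
    have h3 : (1 + ξ) * s ≤ 2 * s := mul_le_mul_of_nonneg_right (by linarith) hs0.le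
    rw [h]
    push_cast
    linarith
  have hcard : (Fintype.card (A0 × A0 × A0 × Fin 6) : ℝ) ≤ (2 * s) ^ 20 := by
    simp only [Fintype.card_prod, Fintype.card_coe, Fintype.card_fin]
    push_cast
    have h0 : (0 : ℝ) ≤ A0.card := by positivity
    have h1 : (A0.card : ℝ) * ((A0.card : ℝ) * ((A0.card : ℝ) * 6)) ≤
        6 * s * (6 * s * (6 * s * 6)) := by
      gcongr
    refine h1.trans ?_
    have h2 : s ^ 3 ≤ s ^ 20 := pow_le_pow_right₀ hs1 (by norm_num)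
    have h3 : 0 < s ^ 20 := by positivity
    have e : (2 * s) ^ 20 = 1048576 * s ^ 20 := by
      rw [mul_pow]
      norm_num
    rw [e]
    have e2 : 6 * s * (6 * s * (6 * s * 6)) = 1296 * s ^ 3 := by ring
    rw [e2]
    linarith
  have hω0 : ∀ x y b, 0 ≤ ω x y b := frac_nonneg hω hs0 hδ
  have hbd : ∀ x y b, |c / 10 * ω x y b| ≤ 1 / (2 * s) := by
    intro x y b
    rw [abs_of_nonneg (mul_nonneg (by positivity) (hω0 x y b))]
    have h1 := hω.ub x y b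
    have h2 : c / 10 * ω x y b ≤ c / 10 * (5 / (c * s)) :=
      mul_le_mul_of_nonneg_left h1 (by positivity)
    refine h2.trans (le_of_eq ?_)
    field_simp
    norm_num
  have hpos : (0 : ℝ) ≤ 1 / (2 * s) := by positivity
  have hbd2 : ∀ (P : Prop) [Decidable P] (x y b : V),
      |c / 10 * (if P then ω x y b else 0)| ≤ 1 / (2 * s) := by
    intro P _ x y b
    split_ifs
    · exact hbd x y b
    · simpa using hpos
  have hbd3 : ∀ (P : Prop) [Decidable P], |(if P then 1 / (2 * s) else 0)| ≤ 1 / (2 * s) := by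
    intro P _
    split_ifs
    · rw [abs_of_nonneg hpos]
    · simpa using hpos
  obtain ⟨F, hF0, hF1, hF2, hF3, hF4, hF5⟩ : ∃ F : (A0 × A0 × A0 × Fin 6) → V → ℝ,
      (∀ y x x' z, F (y, x, x', 0) z = c / 10 * ω x y z) ∧
      (∀ y x x' z, F (y, x, x', 1) z = c / 10 * (if z ∉ A1 then ω x y z else 0)) ∧
      (∀ y x x' z, F (y, x, x', 2) z =
        if z ∉ A1 ∧ H.Adj x z ∧ H.Adj x' z then 1 / (2 * s) else 0) ∧
      (∀ y x x' z, F (y, x, x', 3) z = if z ∈ A1 \ A2 then 1 / (2 * s) else 0) ∧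
      (∀ y x x' z, F (y, x, x', 4) z = if z ∈ A2 \ A3 then 1 / (2 * s) else 0) ∧
      (∀ y x x' z, F (y, x, x', 5) z = if z ∈ A3 then 1 / (2 * s) else 0) :=
    ⟨fun i z => (![c / 10 * ω i.2.1.1 i.1.1 z,
      c / 10 * (if z ∉ A1 then ω i.2.1.1 i.1.1 z else 0),
      (if z ∉ A1 ∧ H.Adj i.2.1.1 z ∧ H.Adj i.2.2.1.1 z then 1 / (2 * s) else 0),
      (if z ∈ A1 \ A2 then 1 / (2 * s) else 0),
      (if z ∈ A2 \ A3 then 1 / (2 * s) else 0),
      (if z ∈ A3 then 1 / (2 * s) else 0)] : Fin 6 → ℝ) i.2.2.2,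
      fun _ _ _ _ => rfl, fun _ _ _ _ => rfl, fun _ _ _ _ => rfl, fun _ _ _ _ => rfl,
      fun _ _ _ _ => rfl, fun _ _ _ _ => rfl⟩
  obtain ⟨F', hG0, hG1, hG2, hG3, hG4, hG5⟩ : ∃ F : (A0 × A0 × A0 × Fin 6) → V → ℝ,
      (∀ b x x' y, F (b, x, x', 0) y = c / 10 * (if y ∉ A1 then ω x y b else 0)) ∧
      (∀ b x x' y, F (b, x, x', 1) y = c / 10 * (if y ∈ A1 then ω x y b else 0)) ∧
      (∀ b x x' y, F (b, x, x', 2) y = if y ∈ A1 \ A2 then 1 / (2 * s) else 0) ∧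
      (∀ b x x' y, F (b, x, x', 3) y = if y ∈ A2 \ A3 then 1 / (2 * s) else 0) ∧
      (∀ b x x' y, F (b, x, x', 4) y = if y ∈ A3 then 1 / (2 * s) else 0) ∧
      (∀ b x x' y, F (b, x, x', 5) y = 0) :=
    ⟨fun i y => (![c / 10 * (if y ∉ A1 then ω i.2.1.1 y i.1.1 else 0),
      c / 10 * (if y ∈ A1 then ω i.2.1.1 y i.1.1 else 0),
      (if y ∈ A1 \ A2 then 1 / (2 * s) else 0),
      (if y ∈ A2 \ A3 then 1 / (2 * s) else 0),
      (if y ∈ A3 then 1 / (2 * s) else 0), 0] : Fin 6 → ℝ) i.2.2.2,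
      fun _ _ _ _ => rfl, fun _ _ _ _ => rfl, fun _ _ _ _ => rfl, fun _ _ _ _ => rfl,
      fun _ _ _ _ => rfl, fun _ _ _ _ => rfl⟩
  have hFb : ∀ i z, |F i z| ≤ 1 / (2 * s) := by
    rintro ⟨y, x, x', k⟩ z
    have hk : k = 0 ∨ k = 1 ∨ k = 2 ∨ k = 3 ∨ k = 4 ∨ k = 5 := by
      fin_cases k <;> simp
    rcases hk with h | h | h | h | h | h
    · rw [h, hF0]; exact hbd _ _ _
    · rw [h, hF1]; exact hbd2 _ _ _ _
    · rw [h, hF2]; exact hbd3 _
    · rw [h, hF3]; exact hbd3 _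
    · rw [h, hF4]; exact hbd3 _
    · rw [h, hF5]; exact hbd3 _
  have hFb' : ∀ i z, |F' i z| ≤ 1 / (2 * s) := by
    rintro ⟨y, x, x', k⟩ z
    have hk : k = 0 ∨ k = 1 ∨ k = 2 ∨ k = 3 ∨ k = 4 ∨ k = 5 := by
      fin_cases k <;> simp
    rcases hk with h | h | h | h | h | h
    · rw [h, hG0]; exact hbd2 _ _ _ _
    · rw [h, hG1]; exact hbd2 _ _ _ _
    · rw [h, hG2]; exact hbd3 _
    · rw [h, hG3]; exact hbd3 _
    · rw [h, hG4]; exact hbd3 _
    · rw [h, hG5, abs_zero]; exact hpos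
  obtain ⟨π, h1, h2, h3, h4, h5⟩ := R (V := V) _ _ _ _ _ _ _ _ _
    (rhyp1 hG hL hω hc hc1 hK hξ hδ hδ1 hξ1 hs1 hmK) (by linarith) he0.le
    (A0 × A0 × A0 × Fin 6) (A0 × A0 × A0 × Fin 6) hcard hcard
    (fun i => i.1.1) F (fun i => i.1.1) F' hFb hFb'
  have rowT : ∀ i : A0 × A0 × A0 × Fin 6, p i.1.1 = 1 →
      |∑ z ∈ Finset.univ.filter (fun z => al1 p H A0 A1 A2 π i.1.1 z),
          F i z / S1 p A0 A1 ω i.1.1 z -
        ∑ z ∈ Finset.univ.filter (fun z => p z = 2 ∧ H.Adj i.1.1 z ∧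
          ¬ (i.1.1 ∈ A2 ∧ z ∈ A2)), F i z| ≤ c * ε / 10 := by
    intro i hi
    refine r_tr ?_ ?_ ?_ (h4 i)
    · intro z
      exact (r_mf _ _ _ _).trans (r_row1 hL π i.1.2 hi z)
    · intro z
      exact (r_mf _ _ _ _).trans (r_row2 hL i.1.2 hi z)
    · intro z
      exact r_w _ _
  have colT : ∀ i : A0 × A0 × A0 × Fin 6, p i.1.1 = 2 →
      |∑ y ∈ Finset.univ.filter (fun y => al1 p H A0 A1 A2 π y i.1.1),
          F' i y / S1 p A0 A1 ω y i.1.1 -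
        ∑ y ∈ Finset.univ.filter (fun y => p y = 1 ∧ H.Adj y i.1.1 ∧
          ¬ (y ∈ A2 ∧ i.1.1 ∈ A2)), F' i y| ≤ c * ε / 10 := by
    intro i hi
    refine r_tr ?_ ?_ ?_ (h5 i)
    · intro z
      exact (r_mf _ _ _ _).trans (r_col1 hL π i.1.2 hi z)
    · intro z
      exact (r_mf _ _ _ _).trans (r_col2 hL i.1.2 hi z)
    · intro z
      exact r_w _ _
  refine ⟨π, r_fin hG hL hω hc hc1 hξ hδ hδ1 hξ1 hε π ?_ ?_ ?_ ?_ ?_ ?_ ?_ ?_ ?_ ?_⟩
  · intro y hy x hx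
    rw [cls, Finset.mem_filter] at hy
    have h := rowT (⟨y, hy.1⟩, ⟨x, hx⟩, ⟨x, hx⟩, 0) hy.2
    simpa only [hF0] using h
  · intro y hy x hx
    rw [cls, Finset.mem_filter] at hy
    have h := rowT (⟨y, hy.1⟩, ⟨x, hx⟩, ⟨x, hx⟩, 1) hy.2
    simpa only [hF1] using h
  · intro y hy x hx x' hx'
    rw [cls, Finset.mem_filter] at hy
    have h := rowT (⟨y, hy.1⟩, ⟨x, hx⟩, ⟨x', hx'⟩, 2) hy.2
    simpa only [hF2] using h
  · intro Z hZ y hy
    rw [cls, Finset.mem_filter] at hy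
    simp only [Set.mem_insert_iff, Set.mem_singleton_iff] at hZ
    rcases hZ with h | h | h
    · subst h
      have h := rowT (⟨y, hy.1⟩, ⟨y, hy.1⟩, ⟨y, hy.1⟩, 3) hy.2
      simpa only [hF3] using h
    · subst h
      have h := rowT (⟨y, hy.1⟩, ⟨y, hy.1⟩, ⟨y, hy.1⟩, 4) hy.2
      simpa only [hF4] using h
    · subst h
      have h := rowT (⟨y, hy.1⟩, ⟨y, hy.1⟩, ⟨y, hy.1⟩, 5) hy.2
      simpa only [hF5] using h
  · intro b hb x hx
    rw [cls, Finset.mem_filter] at hb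
    have h := colT (⟨b, hb.1⟩, ⟨x, hx⟩, ⟨x, hx⟩, 0) hb.2
    simpa only [hG0] using h
  · intro b hb x hx
    rw [cls, Finset.mem_filter] at hb
    have h := colT (⟨b, hb.1⟩, ⟨x, hx⟩, ⟨x, hx⟩, 1) hb.2
    simpa only [hG1] using h
  · intro Z hZ b hb
    rw [cls, Finset.mem_filter] at hb
    simp only [Set.mem_insert_iff, Set.mem_singleton_iff] at hZ
    rcases hZ with h | h | h
    · subst h
      have h := colT (⟨b, hb.1⟩, ⟨b, hb.1⟩, ⟨b, hb.1⟩, 2) hb.2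
      simpa only [hG2] using h
    · subst h
      have h := colT (⟨b, hb.1⟩, ⟨b, hb.1⟩, ⟨b, hb.1⟩, 3) hb.2
      simpa only [hG3] using h
    · subst h
      have h := colT (⟨b, hb.1⟩, ⟨b, hb.1⟩, ⟨b, hb.1⟩, 4) hb.2
      simpa only [hG4] using h
  · intro x hx
    have h := h1 x hx
    have e1 : (((cls p A0 1).filter (fun y => H.Adj x y) : Finset V) : Set V) =
        {y | p y = 1 ∧ H.Adj x y} := by
      ext y
      simp only [cls, Finset.coe_filter, Finset.mem_filter, Set.mem_ofPred_eq]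
      exact ⟨fun h => ⟨h.1.2, h.2⟩, fun h => ⟨⟨hL.supp _ _ h.2.symm, h.1⟩, h.2⟩⟩
    have e2 : (((cls p A0 2).filter (fun b => H.Adj x b) : Finset V) : Set V) =
        {b | p b = 2 ∧ H.Adj x b} := by
      ext y
      simp only [cls, Finset.coe_filter, Finset.mem_filter, Set.mem_ofPred_eq]
      exact ⟨fun h => ⟨h.1.2, h.2⟩, fun h => ⟨⟨hL.supp _ _ h.2.symm, h.1⟩, h.2⟩⟩
    rwa [e1, e2] at h
  · intro x hx y hy hxy
    have h := h2 x hx y (by
      simp only [cls, Finset.mem_filter]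
      exact ⟨⟨hL.supp _ _ hxy.symm, hy⟩, hxy⟩)
    exact (Finset.mem_filter.1 h).2
  · intro x hx x' hx' hne y hy hxy hxy'
    refine h3 x hx x' hx' hne y ?_ ?_
    · simp only [cls, Finset.mem_filter]
      exact ⟨⟨hL.supp _ _ hxy.symm, hy⟩, hxy⟩
    · simp only [cls, Finset.mem_filter]
      exact ⟨⟨hL.supp _ _ hxy.symm, hy⟩, hxy'⟩

end Pool.Agent.Lib.TriD
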