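import Pool.Agent.Lib.TriD.RdS1

set_option autoImplicit false

/-!
MODULE RdB0 (about 150 lines). The planned survival probabilities of round 2.

PROOF. `x ∈ A1`, `(x, b)` an edge of `H`. In `w2 ... y x b` the conditions `y ∈ cls p (A0 \ A1) 1` and `x ∈ A1` hold, so
`∑ y ∈ cls p (A0 \ A1) 1, w2 y x b = ∑ y ∈ (cls p (A0 \ A1) 1).filter al1, ω x y b / S1 y b`, which by `R1Out.tb0` is within `ε` of
`∑ y ∈ cls p (A0 \ A1) 1, ω x y b =: h`. All terms are `≥ 0` (`s1_facts`, `frac_nonneg`; `al1` gives `H.Adj y b`), so `S2 ≤ 1`.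
Outer (`b ∉ A1`): `row_mass`: `h = 1 - ∑ y ∈ cls p A1 1, ω x y b ≤ 1 - c δ / 16`, so `S2 ≥ c δ/16 - ε ≥ c δ / 32` and the stated estimate.
Inner (`b ∈ A1`): `h ≤ ∑ y, ω x y b ≤ 11/10 δ` (`i02`), so `S2 ≥ 1 - 11/10 δ - ε ≥ c δ / 32`.
`b ∈ A0` by `supp`.
-/

open scoped Classical

noncomputable section

namespace Pool.Agent.Lib.TriD

variable {V : Type} [Fintype V]

theorem s2_facts {p : V → Fin 3} {G H : SimpleGraph V} {c K s ξ δ ε : ℝ} {A0 A1 A2 A3 : Finset V}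
    {ω : V → V → V → ℝ} {π1 : V → V → V} (hG : Host p G c K) (hL : Level p G H s ξ δ A0 A1 A2 A3)
    (hω : FracW p H A1 A2 c s δ ω) (hc : 0 < c) (hc1 : c < 1) (hξ : 0 ≤ ξ) (hδ : 0 < δ)
    (hδ1 : δ ≤ c ^ 11 / 10 ^ 9) (hξ1 : ξ ≤ c ^ 9 * δ / 10 ^ 6) (hε : ε ≤ c * δ / 64)
    (h1 : R1Out p H A0 A1 A2 A3 ω c s δ ε π1) {x b : V} (hx : p x = 0) (hb : p b = 2)
    (hx1 : x ∈ A1) (hxb : H.Adj x b) :
    c * δ / 32 ≤ S2 p H A0 A1 A2 ω π1 x b ∧ S2 p H A0 A1 A2 ω π1 x b ≤ 1 ∧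
    (b ∉ A1 → |S2 p H A0 A1 A2 ω π1 x b - ∑ y ∈ cls p A1 1, ω x y b| ≤ ε) ∧
    (b ∈ A1 → 1 - 11 / 10 * δ - ε ≤ S2 p H A0 A1 A2 ω π1 x b) := by
  have hs := hL.s0
  have hnn := frac_nonneg hω hs hδ
  have hb0 : b ∈ A0 := hL.supp b x hxb.symm
  have hxc : x ∈ cls p A1 0 := by
    simp only [cls, Finset.mem_filter]
    exact ⟨hx1, hx⟩
  have hbc : b ∈ cls p A0 2 := by
    simp only [cls, Finset.mem_filter]
    exact ⟨hb0, hb⟩
  have hcd : 0 < c * δ := mul_pos hc hδ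
  have hT : ∑ y ∈ cls p (A0 \ A1) 1, w2 p H A0 A1 A2 ω π1 y x b =
      ∑ y ∈ (cls p (A0 \ A1) 1).filter (fun y => al1 p H A0 A1 A2 π1 y b),
        ω x y b / S1 p A0 A1 ω y b := by
    rw [Finset.sum_filter]
    refine Finset.sum_congr rfl fun y hy => ?_
    unfold w2
    simp [hy, hx1]
  have hT0 : 0 ≤ ∑ y ∈ (cls p (A0 \ A1) 1).filter (fun y => al1 p H A0 A1 A2 π1 y b),
      ω x y b / S1 p A0 A1 ω y b := by
    refine Finset.sum_nonneg fun y hy => ?_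
    have ha := (Finset.mem_filter.1 hy).2
    have h2 := (s1_facts hG hL hω hc hc1 hξ hδ hδ1 hξ1 ha.1 hb ha.2.2.1).1
    exact div_nonneg (hnn x y b) (le_trans (by positivity) h2)
  have h3 := abs_le.1 (h1.tb0 x hxc b hbc)
  have hS : S2 p H A0 A1 A2 ω π1 x b =
      1 - ∑ y ∈ (cls p (A0 \ A1) 1).filter (fun y => al1 p H A0 A1 A2 π1 y b),
        ω x y b / S1 p A0 A1 ω y b := by
    unfold S2
    rw [hT]
  have hsub : ∑ y ∈ cls p (A0 \ A1) 1, ω x y b ≤ ∑ y, ω x y b :=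
    Finset.sum_le_sum_of_subset_of_nonneg (Finset.subset_univ _) fun y _ _ => hnn x y b
  have h11 : c ^ 11 ≤ 1 := pow_le_one₀ hc.le hc1.le
  have hd9 : δ ≤ 1 / 10 ^ 9 := hδ1.trans (div_le_div_of_nonneg_right h11 (by norm_num))
  have hcd1 : c * δ ≤ δ := by nlinarith
  norm_num at hd9
  have hin : b ∈ A1 → 1 - 11 / 10 * δ - ε ≤ S2 p H A0 A1 A2 ω π1 x b := by
    intro hb1
    have h4 := hω.i02 x b hx1 hb1
    rw [hS]
    linarith [h3.2]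
  have hout : b ∉ A1 → |S2 p H A0 A1 A2 ω π1 x b - ∑ y ∈ cls p A1 1, ω x y b| ≤ ε := by
    intro hb1
    have h4 := (row_mass hG hL hω hc hc1 hξ hδ hδ1 hξ1 hx hb hxb hb1).2
    rw [hS, abs_le]
    constructor
    · linarith [h3.2]
    · linarith [h3.1]
  refine ⟨?_, ?_, hout, hin⟩
  · by_cases hb1 : b ∈ A1
    · have h4 := hin hb1
      linarith
    · have h4 := (row_mass hG hL hω hc hc1 hξ hδ hδ1 hξ1 hx hb hxb hb1).1
      have h5 := (abs_le.1 (hout hb1)).1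
      linarith
  · rw [hS]
    linarith

end Pool.Agent.Lib.TriD
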