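import Pool.Agent.Lib.TriD.RdB0
import Pool.Agent.Lib.TriD.Bad
import Pool.Agent.Lib.TriD.RDefs

set_option autoImplicit false

/-!
MODULE RdB1 (about 300 lines). The hypotheses of the round lemma for round 2: columns `y` outside `A1` are processed, `y` needs a
matching between the rows `x ∈ A1` adjacent to `y` and the symbols `b` with `al1 y b`.

`X = cls p (A0 \ A1) 1`, `Y = cls p A1 0`, `Z = cls p A0 2`, `E0` = edges of `H` in `Y × Z` not inside `A2`, weights `w2 y x b`, constant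
`cR c δ = c^4 δ^2 / 10^4`, scale `2 s`, error `ε`.

PROOF. `card`: for `y ∈ X` the symbols of `{b | p b = 2, H.Adj y b}` that are not alive are exactly the `π1 x y`, `x ∈ cls p (A0 \ A1) 0`
adjacent to `y` (all of them are neighbours of `y` by `R1Out.mem`; `y ∉ A2`, so the clause about `A2` in `al1` is void), they are
distinct by `R1Out.disj`. So the number of alive ones is `card N_2(y) - card {x ∈ cls p (A0 \ A1) 0 | H.Adj x y} =
card N_0(y) - card {x ∈ cls p (A0 \ A1) 0 | ...} = card {x ∈ cls p A1 0 | H.Adj x y}` (`TDiv`).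
`w0`: `w2 ≠ 0` implies `ω ≠ 0`, so `Allow x y b`. `w1`: for `y ∈ X`, `x ∈ A1` adjacent to `y`, `al1 y b`, `(x,b) ∈ E0` the triangle is allowed
(`y ∉ A1`), `w2 = ω / S1` with `δ/(2s) ≤ ω ≤ 5/(c s)`, `c δ/16 ≤ S1 ≤ 1`: `cR/(2 s) ≤ δ/(2 s) ≤ w2 ≤ 80/(c^2 δ s) ≤ 1/(cR * (2 s))`.
`sumY` (for `x`): `∑ b ∈ Z, w2 y x b = ∑ b with al1 y b, ω x y b / S1 y b`, within `ε` of `1` by `R1Out.ta`.
`sumZ` (for `b` with `al1 y b`): `∑ x ∈ Y, w2 y x b = (∑ x ∈ cls p A1 0, ω x y b) / S1 y b = 1` by `s1_facts` (`y ∉ A1`), and `ε ≥ 0`.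
`haz`: `∑ y ∈ X, w2 y x b = 1 - S2 x b ≤ 1 - c δ/32 ≤ 1 - cR` (`s2_facts`).
`comY` (rows `x, x'`, given `y`): by `bad_edge` (`u = x`, `v = y`, `j = 2`, `i = 0`) for all but `4 K/c^3` of the `x'` the number of
`b ∈ cls p (A0 \ A1) 2` with `H.Adj x b ∧ H.Adj y b ∧ H.Adj x' b` is at least `c^3/8 s`; by `R1Out.td` at least
`c δ/16 * c^3/8 s - ε s ≥ c^4 δ/256 s ≥ cR * (2 s)` of them satisfy `al1 y b` (`ε ≤ c^4 δ / 256`), and then `(x,b), (x',b) ∈ E0` (`b ∉ A2`).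
`comZ` (symbols `b, b'`, given `y`): `bad_edge` (`u = y`, `v = b`, `j = 0`, `i = 2`), second part: `≥ c^3/8 s` rows `x ∈ cls p (A1 \ A2) 0`
adjacent to `y, b, b'`; the pairs are in `E0` (`x ∉ A2`). The set of rows has at least `c^3/8 s` elements (`good_one` for `y`, `j = 0`,
class `A1 \ A2`), and so has the set of symbols by `card`; `16 K/c^3 ≤ c^3/8 s` by `hs`.
-/

open scoped Classical

noncomputable section

namespace Pool.Agent.Lib.TriD

variable {V : Type} [Fintype V]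

private theorem b1_cls {p : V → Fin 3} {Z : Finset V} {j : Fin 3} {z : V} :
    z ∈ cls p Z j ↔ z ∈ Z ∧ p z = j := by
  simp [cls]

private theorem b1_card {p : V → Fin 3} {G H : SimpleGraph V} {c s ξ δ ε : ℝ} {A0 A1 A2 A3 : Finset V}
    {ω : V → V → V → ℝ} {π1 : V → V → V} (hL : Level p G H s ξ δ A0 A1 A2 A3)
    (h1 : R1Out p H A0 A1 A2 A3 ω c s δ ε π1) {y : V} (hy : y ∈ cls p (A0 \ A1) 1) :
    ((cls p A1 0).filter (fun x => H.Adj x y)).card =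
      ((cls p A0 2).filter (fun b => al1 p H A0 A1 A2 π1 y b)).card := by
  have hy' := b1_cls.mp hy
  have hpy : p y = 1 := hy'.2
  have hyA1 : y ∉ A1 := (Finset.mem_sdiff.mp hy'.1).2
  have hyA2 : y ∉ A2 := fun h => hyA1 (hL.sub2 h)
  obtain ⟨P, hP⟩ : ∃ P, P = (cls p (A0 \ A1) 0).filter (fun x => H.Adj x y) := ⟨_, rfl⟩
  have hN0 : (nbr p H 0 {y}).card = ((cls p A1 0).filter (fun x => H.Adj x y)).card + P.card := by
    have hd : Disjoint ((cls p A1 0).filter (fun x => H.Adj x y)) P := by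
      rw [hP, Finset.disjoint_left]
      intro x hx hx'
      simp only [Finset.mem_filter, b1_cls, Finset.mem_sdiff] at hx hx'
      exact hx'.1.1.2 hx.1.1
    rw [← Finset.card_union_of_disjoint hd]
    congr 1
    ext x
    simp only [nbr, hP, Finset.mem_filter, Finset.mem_union, Finset.mem_univ, true_and, b1_cls,
      Finset.mem_sdiff, Finset.mem_singleton, forall_eq]
    constructor
    · rintro ⟨h2, h3⟩
      have h4 : x ∈ A0 := hL.supp x y h3.symm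
      by_cases h5 : x ∈ A1
      · exact Or.inl ⟨⟨h5, h2⟩, h3.symm⟩
      · exact Or.inr ⟨⟨⟨h4, h5⟩, h2⟩, h3.symm⟩
    · rintro (⟨⟨h2, h3⟩, h4⟩ | ⟨⟨h2, h3⟩, h4⟩)
      · exact ⟨h3, h4.symm⟩
      · exact ⟨h3, h4.symm⟩
  have hPm : ∀ x ∈ P, x ∈ cls p (A0 \ A1) 0 ∧ H.Adj x y := by
    intro x hx
    rw [hP, Finset.mem_filter] at hx
    exact hx
  have himg : ∀ x ∈ P, p (π1 x y) = 2 ∧ H.Adj y (π1 x y) := by
    intro x hx
    obtain ⟨hx1, hx2⟩ := hPm x hx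
    have hb := (h1.bij x hx1).mapsTo (show y ∈ {y | p y = 1 ∧ H.Adj x y} from ⟨hpy, hx2⟩)
    exact ⟨hb.1, (h1.mem x hx1 y hpy hx2).1⟩
  have hN2 : (nbr p H 2 {y}).card =
      ((cls p A0 2).filter (fun b => al1 p H A0 A1 A2 π1 y b)).card + P.card := by
    have hinj : Set.InjOn (fun x => π1 x y) (P : Set V) := by
      intro x hx x' hx' he
      by_contra hne
      obtain ⟨hx1, hx2⟩ := hPm x hx
      obtain ⟨hx1', hx2'⟩ := hPm x' hx'
      exact h1.disj x hx1 x' hx1' hne y hpy hx2 hx2' he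
    have hc : (P.image (fun x => π1 x y)).card = P.card := Finset.card_image_of_injOn hinj
    rw [← hc]
    have hd : Disjoint ((cls p A0 2).filter (fun b => al1 p H A0 A1 A2 π1 y b))
        (P.image (fun x => π1 x y)) := by
      rw [Finset.disjoint_left]
      intro b hb hb'
      rw [Finset.mem_filter] at hb
      obtain ⟨x, hx, rfl⟩ := Finset.mem_image.mp hb'
      obtain ⟨hx1, hx2⟩ := hPm x hx
      exact hb.2.2.2.2.2 x hx1 hx2 rfl
    rw [← Finset.card_union_of_disjoint hd]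
    congr 1
    ext b
    simp only [nbr, Finset.mem_filter, Finset.mem_union, Finset.mem_univ, true_and, b1_cls,
      Finset.mem_image, Finset.mem_singleton, forall_eq]
    constructor
    · rintro ⟨h2, h3⟩
      have h4 : b ∈ A0 := hL.supp b y h3.symm
      by_cases h5 : ∃ x ∈ P, π1 x y = b
      · exact Or.inr h5
      · left
        refine ⟨⟨h4, h2⟩, hpy, h2, h3, fun h => hyA2 h.1, ?_⟩
        intro x hx hxy hxb
        exact h5 ⟨x, by rw [hP, Finset.mem_filter]; exact ⟨hx, hxy⟩, hxb⟩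
    · rintro (⟨⟨h2, h3⟩, h4⟩ | ⟨x, hx, rfl⟩)
      · exact ⟨h3, h4.2.2.1⟩
      · exact himg x hx
  have htd := hL.tdiv y 0 2 (by rw [hpy]; decide) (by rw [hpy]; decide)
  omega

private theorem b1_num {c δ ξ : ℝ} (hc : 0 < c) (hc1 : c < 1) (hδ : 0 < δ)
    (hδ1 : δ ≤ c ^ 11 / 10 ^ 9) (hξ1 : ξ ≤ c ^ 9 * δ / 10 ^ 6) :
    δ ≤ 1 / 10 ^ 9 ∧ ξ ≤ 1 ∧ 2 * ξ + 12 * δ ≤ c ^ 3 / 16 ∧ 0 < cR c δ ∧ cR c δ < 1 ∧
      cR c δ ≤ c * δ / 32 ∧ cR c δ ≤ δ ∧ cR c δ * 2 ≤ c ^ 4 * δ / 256 ∧ cR c δ * 2 ≤ c ^ 3 / 8 ∧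
      c ^ 4 * δ / 256 ≤ c * δ / 64 := by
  have h11 : c ^ 11 ≤ c ^ 3 := pow_le_pow_of_le_one hc.le hc1.le (by norm_num)
  have h9 : c ^ 9 ≤ 1 := pow_le_one₀ hc.le hc1.le
  have h3 : c ^ 3 ≤ 1 := pow_le_one₀ hc.le hc1.le
  have h30 : 0 < c ^ 3 := by positivity
  have h4 : c ^ 4 ≤ 1 := pow_le_one₀ hc.le hc1.le
  have h40 : 0 < c ^ 4 := by positivity
  have h41 : c ^ 4 ≤ c := by
    calc c ^ 4 ≤ c ^ 1 := pow_le_pow_of_le_one hc.le hc1.le (by norm_num)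
      _ = c := pow_one c
  have h43 : c ^ 4 ≤ c ^ 3 := pow_le_pow_of_le_one hc.le hc1.le (by norm_num)
  have hd3 : δ ≤ c ^ 3 / 10 ^ 9 := hδ1.trans (div_le_div_of_nonneg_right h11 (by norm_num))
  have hd0 : δ ≤ 1 / 10 ^ 9 := hd3.trans (div_le_div_of_nonneg_right h3 (by norm_num))
  have hx : ξ ≤ δ / 10 ^ 6 := by
    refine hξ1.trans (div_le_div_of_nonneg_right ?_ (by norm_num))
    nlinarith
  have hc4d : c ^ 4 * δ ≤ c * δ := mul_le_mul_of_nonneg_right h41 hδ.le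
  have hc4d2 : c ^ 4 * δ ≤ c ^ 3 * δ := mul_le_mul_of_nonneg_right h43 hδ.le
  have hdd : c ^ 4 * δ ^ 2 ≤ c ^ 4 * δ * (1 / 10 ^ 9) := by
    rw [pow_two, ← mul_assoc]
    exact mul_le_mul_of_nonneg_left hd0 (by positivity)
  have hc4d0 : 0 < c ^ 4 * δ := by positivity
  have hcd1 : c * δ ≤ δ := by nlinarith
  have hc3d : c ^ 3 * δ ≤ c ^ 3 * (1 / 10 ^ 9) := mul_le_mul_of_nonneg_left hd0 h30.le
  norm_num at hd3 hd0 hx hdd hc3d
  unfold cR
  norm_num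
  refine ⟨by linarith, by linarith, by linarith, by positivity, by linarith, by linarith,
    by linarith, by linarith, by linarith, by linarith⟩

theorem rhyp2 {p : V → Fin 3} {G H : SimpleGraph V} {c K s ξ δ ε : ℝ} {A0 A1 A2 A3 : Finset V}
    {ω : V → V → V → ℝ} {π1 : V → V → V} (hG : Host p G c K) (hL : Level p G H s ξ δ A0 A1 A2 A3)
    (hω : FracW p H A1 A2 c s δ ω) (hc : 0 < c) (hc1 : c < 1) (hK : 0 ≤ K) (hξ : 0 ≤ ξ)
    (hδ : 0 < δ) (hδ1 : δ ≤ c ^ 11 / 10 ^ 9) (hξ1 : ξ ≤ c ^ 9 * δ / 10 ^ 6) (hs1 : 1 ≤ s)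
    (hs : 128 * K / c ^ 6 ≤ s) (hε0 : 0 ≤ ε) (hε : ε ≤ c ^ 4 * δ / 256)
    (h1 : R1Out p H A0 A1 A2 A3 ω c s δ ε π1) :
    RHyp (cls p (A0 \ A1) 1) (cls p A1 0) (cls p A0 2)
      ((cls p A1 0 ×ˢ cls p A0 2).filter (fun e => H.Adj e.1 e.2 ∧ ¬ (e.1 ∈ A2 ∧ e.2 ∈ A2)))
      (fun y => (cls p A1 0).filter (fun x => H.Adj x y))
      (fun y => (cls p A0 2).filter (fun b => al1 p H A0 A1 A2 π1 y b))
      (w2 p H A0 A1 A2 ω π1) (cR c δ) (2 * s) ε := by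
  obtain ⟨hd0, hξ', hsm, hcR0, hcR1, hcR2, hcR3, hcR4, hcR5, hc64⟩ := b1_num hc hc1 hδ hδ1 hξ1
  have hs0 : 0 < s := hL.s0
  have hnn := frac_nonneg hω hs0 hδ
  have hsz : ∀ j, ((cls p A0 j).card : ℝ) ≤ 2 * s := by
    intro j
    have h := (cnt_size hG hL j).1
    nlinarith
  have hmX : ∀ y, y ∈ cls p (A0 \ A1) 1 → y ∈ A0 ∧ y ∉ A1 ∧ y ∉ A2 ∧ p y = 1 := by
    intro y hy
    have h := b1_cls.mp hy
    have h2 := Finset.mem_sdiff.mp h.1
    exact ⟨h2.1, h2.2, fun h3 => h2.2 (hL.sub2 h3), h.2⟩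
  have hs6 : 16 * K / c ^ 3 ≤ c ^ 3 / 8 * s := by
    rw [div_le_iff₀ (by positivity)] at hs ⊢
    have e : c ^ 3 / 8 * s * c ^ 3 = s * c ^ 6 / 8 := by ring
    rw [e]
    linarith
  have hYbig : ∀ y ∈ cls p (A0 \ A1) 1,
      c ^ 3 / 8 * s ≤ ((cls p A1 0).filter (fun x => H.Adj x y)).card := by
    intro y hy
    obtain ⟨hy0, hy1, hy2, hpy⟩ := hmX y hy
    have h := (good_one hG hL hc hc1 hξ hδ.le hsm hy0 (j := 0) (by rw [hpy]; decide)).2
    refine h.trans ?_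
    have hsub : (cls p (A1 \ A2) 0).filter (fun z => H.Adj y z) ⊆
        (cls p A1 0).filter (fun x => H.Adj x y) := by
      intro x hx
      simp only [Finset.mem_filter, b1_cls, Finset.mem_sdiff] at hx ⊢
      exact ⟨⟨hx.1.1.1, hx.1.2⟩, hx.2.symm⟩
    exact_mod_cast Finset.card_le_card hsub
  refine
    { hc := hcR0
      hc1 := hcR1
      hs := by linarith
      he := hε0
      cX := ?_
      cY := ?_
      cZ := hsz 2
      subY := fun y _ => Finset.filter_subset _ _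
      subZ := fun y _ => Finset.filter_subset _ _
      card := fun y hy => b1_card hL h1 hy
      subE := Finset.filter_subset _ _
      w0 := ?_
      w1 := ?_
      sumY := ?_
      sumZ := ?_
      haz := ?_
      comY := ?_
      comZ := ?_ }
  · have hsub : cls p (A0 \ A1) 1 ⊆ cls p A0 1 := by
      intro z hz
      simp only [b1_cls, Finset.mem_sdiff] at hz ⊢
      exact ⟨hz.1.1, hz.2⟩
    have h : ((cls p (A0 \ A1) 1).card : ℝ) ≤ (cls p A0 1).card := by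
      exact_mod_cast Finset.card_le_card hsub
    exact h.trans (hsz 1)
  · have hsub : cls p A1 0 ⊆ cls p A0 0 := by
      intro z hz
      simp only [b1_cls] at hz ⊢
      exact ⟨hL.sub1 hz.1, hz.2⟩
    have h : ((cls p A1 0).card : ℝ) ≤ (cls p A0 0).card := by
      exact_mod_cast Finset.card_le_card hsub
    exact h.trans (hsz 0)
  · -- w0
    intro y x b hno
    unfold w2
    split_ifs with hcond
    · obtain ⟨hy, hx1, hal⟩ := hcond
      by_cases h0 : ω x y b = 0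
      · rw [h0, zero_div]
      · exfalso
        apply hno
        have hA := hω.supp x y b h0
        obtain ⟨⟨hpx, hpy, hpb, hxy, hxb, hyb⟩, -, -, hn2, -⟩ := hA
        have hbA : b ∈ A0 := hL.supp b y hyb.symm
        refine ⟨hy, ?_, ?_, ?_⟩
        · exact Finset.mem_filter.mpr ⟨b1_cls.mpr ⟨hx1, hpx⟩, hxy⟩
        · exact Finset.mem_filter.mpr ⟨b1_cls.mpr ⟨hbA, hpb⟩, hal⟩
        · exact Finset.mem_filter.mpr ⟨Finset.mem_product.mpr ⟨b1_cls.mpr ⟨hx1, hpx⟩,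
            b1_cls.mpr ⟨hbA, hpb⟩⟩, hxb, hn2⟩
    · rfl
  · -- w1
    intro y hy x hx b hb hxb
    obtain ⟨hy0, hy1, hy2, hpy⟩ := hmX y hy
    have hx' := Finset.mem_filter.mp hx
    have hx'' := b1_cls.mp hx'.1
    have hb' := Finset.mem_filter.mp hb
    have hal : al1 p H A0 A1 A2 π1 y b := hb'.2
    have hE := (Finset.mem_filter.mp hxb).2
    have hyb : H.Adj y b := hal.2.2.1
    have hallow : Allow p H A1 A2 x y b :=
      ⟨⟨hx''.2, hpy, hal.2.1, hx'.2, hE.1, hyb⟩, fun h => hy1 h.2.1, fun h => hy2 h.2, hE.2,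
        fun h => hy2 h.1⟩
    have hlb := hω.lb x y b hallow
    have hub := hω.ub x y b
    obtain ⟨hS1, hS2, -, -⟩ := s1_facts hG hL hω hc hc1 hξ hδ hδ1 hξ1 hpy hal.2.1 hyb
    have hSpos : 0 < S1 p A0 A1 ω y b := lt_of_lt_of_le (by positivity) hS1
    have hw : w2 p H A0 A1 A2 ω π1 y x b = ω x y b / S1 p A0 A1 ω y b := by
      unfold w2
      rw [if_pos ⟨hy, hx''.1, hal⟩]
    rw [hw]
    constructor
    · calc cR c δ / (2 * s) ≤ δ / (2 * s) := div_le_div_of_nonneg_right hcR3 (by positivity)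
        _ ≤ ω x y b := hlb
        _ ≤ ω x y b / S1 p A0 A1 ω y b := by
          rw [le_div_iff₀ hSpos]
          nlinarith [hnn x y b]
    · rw [div_le_iff₀ hSpos]
      have h2 : 5 / (c * s) ≤ 1 / (cR c δ * (2 * s)) * (c * δ / 16) := by
        unfold cR
        have e : 1 / (c ^ 4 * δ ^ 2 / 10 ^ 4 * (2 * s)) * (c * δ / 16) = (625 / 2) / (c ^ 3 * δ * s) := by
          field_simp
          norm_num
        rw [e, div_le_div_iff₀ (by positivity) (by positivity)]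
        have h3 : c ^ 3 * δ ≤ c * (1 / 10 ^ 9) := by
          have h4 : c ^ 3 ≤ c := by
            calc c ^ 3 ≤ c ^ 1 := pow_le_pow_of_le_one hc.le hc1.le (by norm_num)
              _ = c := pow_one c
          exact mul_le_mul h4 hd0 hδ.le hc.le
        have h5 : 5 * (c ^ 3 * δ) ≤ 625 / 2 * c := by
          norm_num at h3
          linarith
        calc 5 * (c ^ 3 * δ * s) = 5 * (c ^ 3 * δ) * s := by ring
          _ ≤ 625 / 2 * c * s := mul_le_mul_of_nonneg_right h5 hs0.le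
          _ = 625 / 2 * (c * s) := by ring
      calc ω x y b ≤ 5 / (c * s) := hub
        _ ≤ 1 / (cR c δ * (2 * s)) * (c * δ / 16) := h2
        _ ≤ 1 / (cR c δ * (2 * s)) * S1 p A0 A1 ω y b :=
          mul_le_mul_of_nonneg_left hS1 (by positivity)
  · -- sumY
    intro y hy x hx
    obtain ⟨hy0, hy1, hy2, hpy⟩ := hmX y hy
    have hx' := Finset.mem_filter.mp hx
    have hx'' := b1_cls.mp hx'.1
    have h := h1.ta x hx'.1 y hy hx'.2
    have e : ∑ b ∈ cls p A0 2, w2 p H A0 A1 A2 ω π1 y x b =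
        ∑ b ∈ Finset.univ.filter (fun b => al1 p H A0 A1 A2 π1 y b), ω x y b / S1 p A0 A1 ω y b := by
      rw [Finset.sum_filter]
      rw [← Finset.sum_subset (Finset.subset_univ (cls p A0 2))]
      · apply Finset.sum_congr rfl
        intro b _
        unfold w2
        by_cases hal : al1 p H A0 A1 A2 π1 y b
        · rw [if_pos ⟨hy, hx''.1, hal⟩, if_pos hal]
        · rw [if_neg (fun h => hal h.2.2), if_neg hal]
      · intro b _ hb
        rw [if_neg]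
        intro hal
        exact hb (b1_cls.mpr ⟨hL.supp b y hal.2.2.1.symm, hal.2.1⟩)
    rw [e]
    exact h
  · -- sumZ
    intro y hy b hb
    obtain ⟨hy0, hy1, hy2, hpy⟩ := hmX y hy
    have hb' := Finset.mem_filter.mp hb
    have hal : al1 p H A0 A1 A2 π1 y b := hb'.2
    obtain ⟨hS1, hS2, hS3, -⟩ := s1_facts hG hL hω hc hc1 hξ hδ hδ1 hξ1 hpy hal.2.1 hal.2.2.1
    have hSpos : 0 < S1 p A0 A1 ω y b := lt_of_lt_of_le (by positivity) hS1
    have e : ∑ x ∈ cls p A1 0, w2 p H A0 A1 A2 ω π1 y x b = 1 := by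
      have e1 : ∑ x ∈ cls p A1 0, w2 p H A0 A1 A2 ω π1 y x b =
          ∑ x ∈ cls p A1 0, ω x y b / S1 p A0 A1 ω y b := by
        apply Finset.sum_congr rfl
        intro x hx
        unfold w2
        rw [if_pos ⟨hy, (b1_cls.mp hx).1, hal⟩]
      rw [e1, ← Finset.sum_div, ← hS3 (fun h => hy1 h.1)]
      exact div_self hSpos.ne'
    rw [e, sub_self, abs_zero]
    exact hε0
  · -- haz
    intro x b hxb
    obtain ⟨hprod, hadj, -⟩ := Finset.mem_filter.mp hxb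
    obtain ⟨hx, hb⟩ := Finset.mem_product.mp hprod
    have hx' := b1_cls.mp hx
    have hb' := b1_cls.mp hb
    have h := (s2_facts hG hL hω hc hc1 hξ hδ hδ1 hξ1 (hε.trans hc64) h1 hx'.2 hb'.2 hx'.1 hadj).1
    unfold S2 at h
    linarith
  · -- comY
    intro y hy x hx
    obtain ⟨hy0, hy1, hy2, hpy⟩ := hmX y hy
    have hx' := Finset.mem_filter.mp hx
    have hx'' := b1_cls.mp hx'.1
    have hbad := bad_edge hG hL hc hc1 hK hξ hδ.le hsm hx'.2 (j := 2) (i := 0)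
      (by rw [hx''.2]; decide) (by rw [hpy]; decide) (by decide)
    have hsub : ((cls p A1 0).filter (fun x => H.Adj x y)).filter (fun x' =>
        ((((cls p A0 2).filter (fun b => al1 p H A0 A1 A2 π1 y b)).filter (fun b =>
          (x, b) ∈ (cls p A1 0 ×ˢ cls p A0 2).filter (fun e => H.Adj e.1 e.2 ∧ ¬ (e.1 ∈ A2 ∧ e.2 ∈ A2)) ∧
          (x', b) ∈ (cls p A1 0 ×ˢ cls p A0 2).filter
            (fun e => H.Adj e.1 e.2 ∧ ¬ (e.1 ∈ A2 ∧ e.2 ∈ A2)))).card : ℝ) < cR c δ * (2 * s)) ⊆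
        A0.filter (fun u' => p u' = 0 ∧ ¬ (c ^ 3 / 8 * s ≤
          ((cls p (A0 \ A1) 2).filter (fun z => H.Adj x z ∧ H.Adj y z ∧ H.Adj u' z)).card ∧
        c ^ 3 / 8 * s ≤
          ((cls p (A1 \ A2) 2).filter (fun z => H.Adj x z ∧ H.Adj y z ∧ H.Adj u' z)).card)) := by
      intro x' hx1
      obtain ⟨hxf, hlt⟩ := Finset.mem_filter.mp hx1
      obtain ⟨hxc, hxy'⟩ := Finset.mem_filter.mp hxf
      have hxc' := b1_cls.mp hxc
      refine Finset.mem_filter.mpr ⟨hL.sub1 hxc'.1, hxc'.2, ?_⟩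
      rintro ⟨hN, -⟩
      have htd := h1.td y hy x hx'.1 x' hxc
      have e1 : (cls p (A0 \ A1) 2).filter (fun z => H.Adj x z ∧ H.Adj y z ∧ H.Adj x' z) =
          (cls p (A0 \ A1) 2).filter (fun b => H.Adj y b ∧ H.Adj x b ∧ H.Adj x' b) := by
        apply Finset.filter_congr
        intro z _
        tauto
      rw [e1] at hN
      have hsub2 : (cls p (A0 \ A1) 2).filter (fun b => al1 p H A0 A1 A2 π1 y b ∧ H.Adj x b ∧
            H.Adj x' b) ⊆ ((cls p A0 2).filter (fun b => al1 p H A0 A1 A2 π1 y b)).filter (fun b =>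
          (x, b) ∈ (cls p A1 0 ×ˢ cls p A0 2).filter (fun e => H.Adj e.1 e.2 ∧ ¬ (e.1 ∈ A2 ∧ e.2 ∈ A2)) ∧
          (x', b) ∈ (cls p A1 0 ×ˢ cls p A0 2).filter
            (fun e => H.Adj e.1 e.2 ∧ ¬ (e.1 ∈ A2 ∧ e.2 ∈ A2))) := by
        intro b hb
        obtain ⟨hbc, hal, hxb, hxb'⟩ := Finset.mem_filter.mp hb
        have hbc' := b1_cls.mp hbc
        have hb0 := Finset.mem_sdiff.mp hbc'.1
        have hbc0 : b ∈ cls p A0 2 := b1_cls.mpr ⟨hb0.1, hbc'.2⟩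
        have hb2 : b ∉ A2 := fun h => hb0.2 (hL.sub2 h)
        refine Finset.mem_filter.mpr ⟨Finset.mem_filter.mpr ⟨hbc0, hal⟩, ?_, ?_⟩
        · exact Finset.mem_filter.mpr ⟨Finset.mem_product.mpr ⟨hx'.1, hbc0⟩, hxb, fun h => hb2 h.2⟩
        · exact Finset.mem_filter.mpr ⟨Finset.mem_product.mpr ⟨hxc, hbc0⟩, hxb', fun h => hb2 h.2⟩
      have h3 : (((cls p (A0 \ A1) 2).filter (fun b => al1 p H A0 A1 A2 π1 y b ∧ H.Adj x b ∧
            H.Adj x' b)).card : ℝ) ≤ (((cls p A0 2).filter (fun b => al1 p H A0 A1 A2 π1 y b)).filter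
            (fun b => (x, b) ∈ (cls p A1 0 ×ˢ cls p A0 2).filter
              (fun e => H.Adj e.1 e.2 ∧ ¬ (e.1 ∈ A2 ∧ e.2 ∈ A2)) ∧
          (x', b) ∈ (cls p A1 0 ×ˢ cls p A0 2).filter
            (fun e => H.Adj e.1 e.2 ∧ ¬ (e.1 ∈ A2 ∧ e.2 ∈ A2)))).card := by
        exact_mod_cast Finset.card_le_card hsub2
      have h4 : c * δ / 16 * (c ^ 3 / 8 * s) ≤ c * δ / 16 *
          ((cls p (A0 \ A1) 2).filter (fun b => H.Adj y b ∧ H.Adj x b ∧ H.Adj x' b)).card :=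
        mul_le_mul_of_nonneg_left hN (by positivity)
      have h5 : c * δ / 16 * (c ^ 3 / 8 * s) = 2 * (c ^ 4 * δ / 256) * s := by ring
      have h6 : ε * s ≤ c ^ 4 * δ / 256 * s := mul_le_mul_of_nonneg_right hε hs0.le
      have h7 : cR c δ * 2 * s ≤ c ^ 4 * δ / 256 * s := mul_le_mul_of_nonneg_right hcR4 hs0.le
      linarith
    have h1' : ((((cls p A1 0).filter (fun x => H.Adj x y)).filter (fun x' =>
        ((((cls p A0 2).filter (fun b => al1 p H A0 A1 A2 π1 y b)).filter (fun b =>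
          (x, b) ∈ (cls p A1 0 ×ˢ cls p A0 2).filter (fun e => H.Adj e.1 e.2 ∧ ¬ (e.1 ∈ A2 ∧ e.2 ∈ A2)) ∧
          (x', b) ∈ (cls p A1 0 ×ˢ cls p A0 2).filter
            (fun e => H.Adj e.1 e.2 ∧ ¬ (e.1 ∈ A2 ∧ e.2 ∈ A2)))).card : ℝ) < cR c δ * (2 * s))).card : ℝ)
          ≤ 4 * K / c ^ 3 := le_trans (by exact_mod_cast Finset.card_le_card hsub) hbad
    have h2' := hYbig y hy
    have h3' : 4 * (4 * K / c ^ 3) = 16 * K / c ^ 3 := by ring
    have h4' : (4 : ℝ) * ((((cls p A1 0).filter (fun x => H.Adj x y)).filter (fun x' =>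
        ((((cls p A0 2).filter (fun b => al1 p H A0 A1 A2 π1 y b)).filter (fun b =>
          (x, b) ∈ (cls p A1 0 ×ˢ cls p A0 2).filter (fun e => H.Adj e.1 e.2 ∧ ¬ (e.1 ∈ A2 ∧ e.2 ∈ A2)) ∧
          (x', b) ∈ (cls p A1 0 ×ˢ cls p A0 2).filter
            (fun e => H.Adj e.1 e.2 ∧ ¬ (e.1 ∈ A2 ∧ e.2 ∈ A2)))).card : ℝ) < cR c δ * (2 * s))).card : ℝ)
        ≤ ((cls p A1 0).filter (fun x => H.Adj x y)).card := by linarith
    exact_mod_cast h4'
  · -- comZ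
    intro y hy b hb
    obtain ⟨hy0, hy1, hy2, hpy⟩ := hmX y hy
    have hb' := Finset.mem_filter.mp hb
    have hal : al1 p H A0 A1 A2 π1 y b := hb'.2
    have hbc := b1_cls.mp hb'.1
    have hbad := bad_edge hG hL hc hc1 hK hξ hδ.le hsm hal.2.2.1 (j := 0) (i := 2)
      (by rw [hpy]; decide) (by rw [hbc.2]; decide) (by decide)
    have hsub : ((cls p A0 2).filter (fun b => al1 p H A0 A1 A2 π1 y b)).filter (fun b' =>
        ((((cls p A1 0).filter (fun x => H.Adj x y)).filter (fun x =>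
          (x, b) ∈ (cls p A1 0 ×ˢ cls p A0 2).filter (fun e => H.Adj e.1 e.2 ∧ ¬ (e.1 ∈ A2 ∧ e.2 ∈ A2)) ∧
          (x, b') ∈ (cls p A1 0 ×ˢ cls p A0 2).filter
            (fun e => H.Adj e.1 e.2 ∧ ¬ (e.1 ∈ A2 ∧ e.2 ∈ A2)))).card : ℝ) < cR c δ * (2 * s)) ⊆
        A0.filter (fun u' => p u' = 2 ∧ ¬ (c ^ 3 / 8 * s ≤
          ((cls p (A0 \ A1) 0).filter (fun z => H.Adj y z ∧ H.Adj b z ∧ H.Adj u' z)).card ∧
        c ^ 3 / 8 * s ≤
          ((cls p (A1 \ A2) 0).filter (fun z => H.Adj y z ∧ H.Adj b z ∧ H.Adj u' z)).card)) := by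
      intro b' hb1
      obtain ⟨hbf, hlt⟩ := Finset.mem_filter.mp hb1
      obtain ⟨hbc1, hal'⟩ := Finset.mem_filter.mp hbf
      have hbc1' := b1_cls.mp hbc1
      refine Finset.mem_filter.mpr ⟨hbc1'.1, hbc1'.2, ?_⟩
      rintro ⟨-, hN⟩
      have hsub2 : (cls p (A1 \ A2) 0).filter (fun z => H.Adj y z ∧ H.Adj b z ∧ H.Adj b' z) ⊆
          ((cls p A1 0).filter (fun x => H.Adj x y)).filter (fun x =>
          (x, b) ∈ (cls p A1 0 ×ˢ cls p A0 2).filter (fun e => H.Adj e.1 e.2 ∧ ¬ (e.1 ∈ A2 ∧ e.2 ∈ A2)) ∧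
          (x, b') ∈ (cls p A1 0 ×ˢ cls p A0 2).filter
            (fun e => H.Adj e.1 e.2 ∧ ¬ (e.1 ∈ A2 ∧ e.2 ∈ A2))) := by
        intro x hx
        obtain ⟨hxc, hyx, hbx, hbx'⟩ := Finset.mem_filter.mp hx
        have hxc' := b1_cls.mp hxc
        have hx0 := Finset.mem_sdiff.mp hxc'.1
        have hxc0 : x ∈ cls p A1 0 := b1_cls.mpr ⟨hx0.1, hxc'.2⟩
        refine Finset.mem_filter.mpr ⟨Finset.mem_filter.mpr ⟨hxc0, hyx.symm⟩, ?_, ?_⟩
        · exact Finset.mem_filter.mpr ⟨Finset.mem_product.mpr ⟨hxc0, hb'.1⟩, hbx.symm,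
            fun h => hx0.2 h.1⟩
        · exact Finset.mem_filter.mpr ⟨Finset.mem_product.mpr ⟨hxc0, hbc1⟩, hbx'.symm,
            fun h => hx0.2 h.1⟩
      have h3 : (((cls p (A1 \ A2) 0).filter (fun z => H.Adj y z ∧ H.Adj b z ∧ H.Adj b' z)).card : ℝ) ≤
          (((cls p A1 0).filter (fun x => H.Adj x y)).filter (fun x =>
          (x, b) ∈ (cls p A1 0 ×ˢ cls p A0 2).filter (fun e => H.Adj e.1 e.2 ∧ ¬ (e.1 ∈ A2 ∧ e.2 ∈ A2)) ∧
          (x, b') ∈ (cls p A1 0 ×ˢ cls p A0 2).filter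
            (fun e => H.Adj e.1 e.2 ∧ ¬ (e.1 ∈ A2 ∧ e.2 ∈ A2)))).card := by
        exact_mod_cast Finset.card_le_card hsub2
      have h7 : cR c δ * 2 * s ≤ c ^ 3 / 8 * s := mul_le_mul_of_nonneg_right hcR5 hs0.le
      linarith
    have h1' : ((((cls p A0 2).filter (fun b => al1 p H A0 A1 A2 π1 y b)).filter (fun b' =>
        ((((cls p A1 0).filter (fun x => H.Adj x y)).filter (fun x =>
          (x, b) ∈ (cls p A1 0 ×ˢ cls p A0 2).filter (fun e => H.Adj e.1 e.2 ∧ ¬ (e.1 ∈ A2 ∧ e.2 ∈ A2)) ∧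
          (x, b') ∈ (cls p A1 0 ×ˢ cls p A0 2).filter
            (fun e => H.Adj e.1 e.2 ∧ ¬ (e.1 ∈ A2 ∧ e.2 ∈ A2)))).card : ℝ) < cR c δ * (2 * s))).card : ℝ)
          ≤ 4 * K / c ^ 3 := le_trans (by exact_mod_cast Finset.card_le_card hsub) hbad
    have h2' := hYbig y hy
    rw [b1_card hL h1 hy] at h2'
    have h3' : 4 * (4 * K / c ^ 3) = 16 * K / c ^ 3 := by ring
    have h4' : (4 : ℝ) * ((((cls p A0 2).filter (fun b => al1 p H A0 A1 A2 π1 y b)).filter (fun b' =>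
        ((((cls p A1 0).filter (fun x => H.Adj x y)).filter (fun x =>
          (x, b) ∈ (cls p A1 0 ×ˢ cls p A0 2).filter (fun e => H.Adj e.1 e.2 ∧ ¬ (e.1 ∈ A2 ∧ e.2 ∈ A2)) ∧
          (x, b') ∈ (cls p A1 0 ×ˢ cls p A0 2).filter
            (fun e => H.Adj e.1 e.2 ∧ ¬ (e.1 ∈ A2 ∧ e.2 ∈ A2)))).card : ℝ) < cR c δ * (2 * s))).card : ℝ)
        ≤ ((cls p A0 2).filter (fun b => al1 p H A0 A1 A2 π1 y b)).card := by linarith
    exact_mod_cast h4'

end Pool.Agent.Lib.TriD
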