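import Pool.Agent.Lib.TriD.RdB1
import Pool.Agent.Lib.TriD.RdIdx

set_option autoImplicit false

/-!
MODULE RdB2 (about 400 lines). Round 2.

PROOF. Adaptation of RdA2. `round_idx (cR c δ) ε2` with `ε2 = c^2 * δ * ε / 400` gives `m0, e0`; `ε1 = min (min e0 (ε / 4)) (c^4 δ / 256)` and
`m` large (`≥ m0`, `1`, `128 K/c^6`, `6`). Scale `2 s`. For `(x, b) ∈ E0`: `1 - ∑ y ∈ X, w2 y x b = S2 x b`. The pairs `(x, b)` alive after the round
are those with `al2 x b` (the condition `x ∈ Yx y` is `x ∈ cls p A1 0 ∧ H.Adj x y`).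
Tests. Row tests (`i = (x, y, k)`, `ty i = x`, `x, y ∈ A0`):
k=0: `fy b = c^2 δ/160 * ω x y b / S1 y b` if `al1 y b ∧ b ∉ A1`, else `0` (`ω / S1 ≤ 80/(c^2 δ s)`); k=1,2,3: `1/(2s)` if `b ∈ A1 \ A2` / `A2 \ A3` / `A3`.
Column tests (`i = (b, y, k)`, `tz i = b`): k=0: `fz x = c^2 δ/160 * ω x y b / S1 y b` if `al1 y b` (the condition is on `y, b` only), else `0`;
k=1,2,3: `1/(2s)` if `x ∈ A1 \ A2` / `A2 \ A3` / `A3`. Number of tests `≤ 4 (6 s)^2 ≤ (2 s)^20`.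
`ug`: `y ∈ A1`, `b ∉ A1`, `al1 y b`: column test k=0 times `160/(c^2 δ)`: `∑ al2 x b, ω x y b/(S1 y b * S2 x b)` is within
`160 ε2/(c^2 δ) ≤ ε` of `∑ x ∈ cls p A1 0, ω x y b / S1 y b = 1` (`s1_facts`, `b ∉ A1`; `ω ≠ 0` implies `(x,b) ∈ E0`).
`uh`: `x, y ∈ A1`: row test k=0: the sum is within `160 ε2/(c^2 δ) ≤ ε/2` of `∑ b ∈ (cls p (A0 \ A1) 2) with al1 y b, ω x y b / S1 y b`, which by `tc` is at
most `∑ b ∈ cls p (A0 \ A1) 2, ω x y b + ε1 ≤ 11/10 δ + ε1` (`i01`).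
`uj`: `b ∉ A1`: column test k=1 times `2 s`, `S2 ≥ c δ/32`: `number alive ≥ (c δ/32) (number - 2 s ε2)`.
`dead`: `x ∈ A1`, `Z`: `∑ alive b ∈ cls p Z 2, 1/S2 ≥ N - 2 s ε2`, `S2 ≥ 1 - 11/10 δ - ε1` (`s2_facts`, inner), so
`alive ≥ (1 - 11/10 δ - ε1)(N - 2 s ε2) ≥ N - 11/10 δ N - ε1 N - 2 s ε2`, `N ≤ card (cls p A1 2) ≤ s`: `ε1 s + 2 s ε2 ≤ ε s`. Same for `b ∈ A1`.
NOTE the statement gives `ε1` first: the error allowed in round 1.
-/

open scoped Classical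

noncomputable section

namespace Pool.Agent.Lib.TriD

private theorem b2_cls {V : Type} [Fintype V] {p : V → Fin 3} {Z : Finset V} {j : Fin 3} {z : V} :
    z ∈ cls p Z j ↔ z ∈ Z ∧ p z = j := by
  simp [cls]

private theorem b2_num {c δ : ℝ} (hc : 0 < c) (hc1 : c < 1) (hδ : 0 < δ)
    (hδ1 : δ ≤ c ^ 11 / 10 ^ 9) :
    δ ≤ 1 / 10 ^ 9 ∧ 0 < cR c δ ∧ cR c δ < 1 ∧ c ^ 4 * δ / 256 ≤ c * δ / 64 ∧ c * δ ≤ 1 := by
  have h11 : c ^ 11 ≤ 1 := pow_le_one₀ hc.le hc1.le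
  have h4 : c ^ 4 ≤ 1 := pow_le_one₀ hc.le hc1.le
  have h40 : 0 < c ^ 4 := by positivity
  have h41 : c ^ 4 ≤ c := by
    calc c ^ 4 ≤ c ^ 1 := pow_le_pow_of_le_one hc.le hc1.le (by norm_num)
      _ = c := pow_one c
  have hd0 : δ ≤ 1 / 10 ^ 9 := hδ1.trans (div_le_div_of_nonneg_right h11 (by norm_num))
  have hc4d : c ^ 4 * δ ≤ c * δ := mul_le_mul_of_nonneg_right h41 hδ.le
  have hdd : c ^ 4 * δ ^ 2 ≤ 1 := by
    have h1 : δ ≤ 1 := by norm_num at hd0; linarith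
    have h2 : δ ^ 2 ≤ 1 := pow_le_one₀ hδ.le h1
    nlinarith
  have hcd : c * δ ≤ 1 := by
    have h1 : δ ≤ 1 := by norm_num at hd0; linarith
    nlinarith
  unfold cR
  refine ⟨hd0, by positivity, ?_, ?_, hcd⟩
  · norm_num
    linarith
  · have : 0 < c * δ := by positivity
    linarith

private theorem b2_ind {V : Type} [Fintype V] {p : V → Fin 3} {A Z : Finset V} (hZ : Z ⊆ A)
    (j : Fin 3) (P : V → Prop) [DecidablePred P] (F : V → ℝ) (hF : ∀ b, b ∉ Z → F b = 0) :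
    ∑ b ∈ (cls p A j).filter P, F b = ∑ b ∈ (cls p Z j).filter P, F b := by
  symm
  apply Finset.sum_subset
  · intro b hb
    rw [Finset.mem_filter, b2_cls] at hb ⊢
    exact ⟨⟨hZ hb.1.1, hb.1.2⟩, hb.2⟩
  · intro b hb hnb
    apply hF
    intro hbZ
    apply hnb
    rw [Finset.mem_filter, b2_cls] at hb ⊢
    exact ⟨⟨hbZ, hb.1.2⟩, hb.2⟩

private theorem b2_cnt {V : Type} (T : Finset V) (P Q : V → Prop) [DecidablePred P]
    [DecidablePred Q] (R : V → ℝ) {s e r : ℝ} (hs : 0 < s) (hr : 0 < r) (hR : ∀ z ∈ T, P z → r ≤ R z)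
    (h : |∑ z ∈ T.filter P, 1 / (2 * s) / R z - ∑ z ∈ T.filter Q, 1 / (2 * s)| ≤ e) :
    r * (((T.filter Q).card : ℝ) - 2 * s * e) ≤ (T.filter P).card := by
  rw [Finset.sum_const, nsmul_eq_mul] at h
  have h1 : ∑ z ∈ T.filter P, 1 / (2 * s) / R z ≤ ((T.filter P).card : ℝ) * (1 / (2 * s) / r) := by
    rw [← nsmul_eq_mul]
    apply Finset.sum_le_card_nsmul
    intro z hz
    obtain ⟨hz1, hz2⟩ := Finset.mem_filter.mp hz
    exact div_le_div_of_nonneg_left (by positivity) hr (hR z hz1 hz2)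
  have h0 := (abs_le.mp h).1
  have h2 : ((T.filter Q).card : ℝ) * (1 / (2 * s)) - e ≤ ((T.filter P).card : ℝ) * (1 / (2 * s) / r) := by
    linarith
  have h3 := mul_le_mul_of_nonneg_right h2 (show 0 ≤ 2 * s * r by positivity)
  have e1 : (((T.filter Q).card : ℝ) * (1 / (2 * s)) - e) * (2 * s * r) =
      r * (((T.filter Q).card : ℝ) - 2 * s * e) := by
    field_simp
  have e2 : ((T.filter P).card : ℝ) * (1 / (2 * s) / r) * (2 * s * r) = (T.filter P).card := by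
    field_simp
  linarith

private theorem b2_cardA0 {V : Type} [Fintype V] {p : V → Fin 3} {G H : SimpleGraph V}
    {c K s ξ δ : ℝ} {A0 A1 A2 A3 : Finset V} (hG : Host p G c K)
    (hL : Level p G H s ξ δ A0 A1 A2 A3) (hξ : ξ ≤ 1) : (A0.card : ℝ) ≤ 6 * s := by
  have h : A0 = cls p A0 0 ∪ (cls p A0 1 ∪ cls p A0 2) := by
    ext z
    simp only [Finset.mem_union, b2_cls]
    have h3 : ∀ a : Fin 3, a = 0 ∨ a = 1 ∨ a = 2 := by decide
    have := h3 (p z)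
    tauto
  have h1 : A0.card ≤ (cls p A0 0).card + ((cls p A0 1).card + (cls p A0 2).card) := by
    conv_lhs => rw [h]
    exact (Finset.card_union_le _ _).trans (Nat.add_le_add_left (Finset.card_union_le _ _) _)
  have h2 : (A0.card : ℝ) ≤ (cls p A0 0).card + ((cls p A0 1).card + (cls p A0 2).card) := by
    exact_mod_cast h1
  have c0 := (cnt_size hG hL 0).1
  have c1 := (cnt_size hG hL 1).1
  have c2 := (cnt_size hG hL 2).1
  have hs := hL.s0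
  nlinarith

private theorem b2_memf {V : Type} {T : Finset V} {P : V → Prop} {inst : DecidablePred P} {z : V} :
    z ∈ @Finset.filter V P inst T ↔ z ∈ T ∧ P z := @Finset.mem_filter V P inst T z

/-- The edges of round 2. -/
private def b2E {V : Type} [Fintype V] (p : V → Fin 3) (H : SimpleGraph V) (A0 A1 A2 : Finset V) (x b : V) :
    Prop :=
  (x ∈ cls p A1 0 ∧ b ∈ cls p A0 2) ∧ H.Adj x b ∧ ¬ (x ∈ A2 ∧ b ∈ A2)

private theorem b2_ωE {V : Type} [Fintype V] {p : V → Fin 3} {H : SimpleGraph V}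
    {c s δ : ℝ} {A0 A1 A2 : Finset V} {ω : V → V → V → ℝ} (hω : FracW p H A1 A2 c s δ ω) {x y b : V}
    (h : ω x y b ≠ 0) (hx : x ∈ cls p A1 0) (hb : b ∈ cls p A0 2) : b2E p H A0 A1 A2 x b := by
  obtain ⟨⟨-, -, -, -, hxb, -⟩, -, -, hn2, -⟩ := hω.supp x y b h
  exact ⟨⟨hx, hb⟩, hxb, hn2⟩

private theorem b2_ug {V : Type} [Fintype V] {p : V → Fin 3} {G H : SimpleGraph V}
    {c K s ξ δ : ℝ} {A0 A1 A2 A3 : Finset V} {ω : V → V → V → ℝ} {π1 π2 : V → V → V}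
    (hG : Host p G c K) (hL : Level p G H s ξ δ A0 A1 A2 A3) (hω : FracW p H A1 A2 c s δ ω)
    (hc : 0 < c) (hc1 : c < 1) (hξ : 0 ≤ ξ) (hδ : 0 < δ)
    (hδ1 : δ ≤ c ^ 11 / 10 ^ 9) (hξ1 : ξ ≤ c ^ 9 * δ / 10 ^ 6) {κ ε ε2 : ℝ} (hε : 0 < ε) (hκ0 : 0 < κ)
    (hκε : ε2 = κ * (2 / 5 * ε)) {y b : V} (hb : b ∈ cls p (A0 \ A1) 2)
    (hyb : al1 p H A0 A1 A2 π1 y b)
    (h : |∑ x ∈ (cls p A1 0).filter (fun x => al2 p H A0 A1 A2 π2 x b),
        (if al1 p H A0 A1 A2 π1 y b then κ * (ω x y b / S1 p A0 A1 ω y b) else 0) /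
          S2 p H A0 A1 A2 ω π1 x b -
        ∑ x ∈ (cls p A1 0).filter (fun x => b2E p H A0 A1 A2 x b),
          (if al1 p H A0 A1 A2 π1 y b then κ * (ω x y b / S1 p A0 A1 ω y b) else 0)| ≤ ε2) :
    |∑ x ∈ Finset.univ.filter (fun x => al2 p H A0 A1 A2 π2 x b),
      ω x y b / (S1 p A0 A1 ω y b * S2 p H A0 A1 A2 ω π1 x b) - 1| ≤ ε := by
  have hb' := b2_cls.mp hb
  have hbs := Finset.mem_sdiff.mp hb'.1
  have hbA0 : b ∈ cls p A0 2 := b2_cls.mpr ⟨hbs.1, hb'.2⟩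
  obtain ⟨hS1, -, hS3, -⟩ := s1_facts hG hL hω hc hc1 hξ hδ hδ1 hξ1 hyb.1 hyb.2.1 hyb.2.2.1
  have hSpos : 0 < S1 p A0 A1 ω y b := lt_of_lt_of_le (by positivity) hS1
  have e1 : ∑ x ∈ (cls p A1 0).filter (fun x => al2 p H A0 A1 A2 π2 x b),
      (if al1 p H A0 A1 A2 π1 y b then κ * (ω x y b / S1 p A0 A1 ω y b) else 0) /
        S2 p H A0 A1 A2 ω π1 x b = κ * ∑ x ∈ Finset.univ.filter (fun x => al2 p H A0 A1 A2 π2 x b),
        ω x y b / (S1 p A0 A1 ω y b * S2 p H A0 A1 A2 ω π1 x b) := by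
    have e0 : (cls p A1 0).filter (fun x => al2 p H A0 A1 A2 π2 x b) =
        Finset.univ.filter (fun x => al2 p H A0 A1 A2 π2 x b) := by
      ext x
      simp only [Finset.mem_filter, Finset.mem_univ, true_and, b2_cls]
      constructor
      · exact fun h => h.2
      · exact fun h => ⟨⟨h.2.2.1, h.1⟩, h⟩
    rw [e0, Finset.mul_sum]
    apply Finset.sum_congr rfl
    intro x _
    rw [if_pos hyb, mul_div_assoc, div_div]
  have e2 : ∑ x ∈ (cls p A1 0).filter (fun x => b2E p H A0 A1 A2 x b),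
        (if al1 p H A0 A1 A2 π1 y b then κ * (ω x y b / S1 p A0 A1 ω y b) else 0) = κ := by
    have e3 : ∑ x ∈ (cls p A1 0).filter (fun x => b2E p H A0 A1 A2 x b),
        (if al1 p H A0 A1 A2 π1 y b then κ * (ω x y b / S1 p A0 A1 ω y b) else 0) =
        ∑ x ∈ cls p A1 0, κ * (ω x y b / S1 p A0 A1 ω y b) := by
      rw [Finset.sum_congr rfl (fun x _ => if_pos hyb)]
      apply Finset.sum_subset (Finset.filter_subset _ _)
      intro x hx hnx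
      by_cases h0 : ω x y b = 0
      · rw [h0, zero_div, mul_zero]
      · exfalso
        exact hnx (Finset.mem_filter.mpr ⟨hx, b2_ωE hω h0 hx hbA0⟩)
    rw [e3, ← Finset.mul_sum, ← Finset.sum_div, ← hS3 (fun h => hbs.2 h.2), div_self hSpos.ne',
      mul_one]
  rw [e1, e2] at h
  have e4 : ∀ u : ℝ, κ * u - κ = κ * (u - 1) := fun u => by ring
  rw [e4, abs_mul, abs_of_pos hκ0, hκε] at h
  have h5 := le_of_mul_le_mul_left h hκ0
  linarith

private theorem b2_uh {V : Type} [Fintype V] {p : V → Fin 3} {G H : SimpleGraph V}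
    {c K s ξ δ : ℝ} {A0 A1 A2 A3 : Finset V} {ω : V → V → V → ℝ} {π1 π2 : V → V → V}
    (hG : Host p G c K) (hL : Level p G H s ξ δ A0 A1 A2 A3) (hω : FracW p H A1 A2 c s δ ω)
    (hc : 0 < c) (hc1 : c < 1) (hξ : 0 ≤ ξ) (hδ : 0 < δ)
    (hδ1 : δ ≤ c ^ 11 / 10 ^ 9) (hξ1 : ξ ≤ c ^ 9 * δ / 10 ^ 6) {κ ε ε1 ε2 : ℝ} (hκ0 : 0 < κ)
    (hκε : ε2 = κ * (2 / 5 * ε)) (hε1 : ε1 ≤ ε / 4) (hε : 0 < ε) {x y : V} (hx : x ∈ A1) (hy : y ∈ A1)
    (htc : |∑ b ∈ (cls p (A0 \ A1) 2).filter (fun b => al1 p H A0 A1 A2 π1 y b),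
      ω x y b / S1 p A0 A1 ω y b - ∑ b ∈ cls p (A0 \ A1) 2, ω x y b| ≤ ε1)
    (h : |∑ b ∈ (cls p A0 2).filter (fun b => al2 p H A0 A1 A2 π2 x b),
        (if al1 p H A0 A1 A2 π1 y b ∧ b ∉ A1 then κ * (ω x y b / S1 p A0 A1 ω y b) else 0) /
          S2 p H A0 A1 A2 ω π1 x b -
        ∑ b ∈ (cls p A0 2).filter (fun b => b2E p H A0 A1 A2 x b),
          (if al1 p H A0 A1 A2 π1 y b ∧ b ∉ A1 then κ * (ω x y b / S1 p A0 A1 ω y b) else 0)| ≤ ε2) :
    ∑ b ∈ (cls p (A0 \ A1) 2).filter (fun b =>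
      al2 p H A0 A1 A2 π2 x b ∧ al1 p H A0 A1 A2 π1 y b),
      ω x y b / (S1 p A0 A1 ω y b * S2 p H A0 A1 A2 ω π1 x b) ≤ 11 / 10 * δ + ε := by
  have hnn := frac_nonneg hω hL.s0 hδ
  have e1 : ∑ b ∈ (cls p A0 2).filter (fun b => al2 p H A0 A1 A2 π2 x b),
      (if al1 p H A0 A1 A2 π1 y b ∧ b ∉ A1 then κ * (ω x y b / S1 p A0 A1 ω y b) else 0) /
        S2 p H A0 A1 A2 ω π1 x b =
      κ * ∑ b ∈ (cls p (A0 \ A1) 2).filter (fun b =>
        al2 p H A0 A1 A2 π2 x b ∧ al1 p H A0 A1 A2 π1 y b),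
        ω x y b / (S1 p A0 A1 ω y b * S2 p H A0 A1 A2 ω π1 x b) := by
    rw [Finset.mul_sum]
    symm
    have hsub : (cls p (A0 \ A1) 2).filter (fun b =>
        al2 p H A0 A1 A2 π2 x b ∧ al1 p H A0 A1 A2 π1 y b) ⊆
        (cls p A0 2).filter (fun b => al2 p H A0 A1 A2 π2 x b) := by
      intro b hb
      obtain ⟨hb1, hb2, hb3⟩ := Finset.mem_filter.mp hb
      have hb4 := b2_cls.mp hb1
      exact Finset.mem_filter.mpr ⟨b2_cls.mpr ⟨(Finset.mem_sdiff.mp hb4.1).1, hb4.2⟩, hb2⟩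
    rw [← Finset.sum_subset hsub]
    · apply Finset.sum_congr rfl
      intro b hb
      obtain ⟨hb1, hb2, hb3⟩ := Finset.mem_filter.mp hb
      have hb4 := b2_cls.mp hb1
      rw [if_pos ⟨hb3, (Finset.mem_sdiff.mp hb4.1).2⟩, mul_div_assoc, div_div]
    · intro b hb hnb
      rw [if_neg, zero_div]
      rintro ⟨hb3, hb4⟩
      apply hnb
      obtain ⟨hb1, hb2⟩ := Finset.mem_filter.mp hb
      have hb5 := b2_cls.mp hb1
      exact Finset.mem_filter.mpr ⟨b2_cls.mpr ⟨Finset.mem_sdiff.mpr ⟨hb5.1, hb4⟩, hb5.2⟩, hb2, hb3⟩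
  have hterm : ∀ b, 0 ≤ (if al1 p H A0 A1 A2 π1 y b ∧ b ∉ A1 then
      κ * (ω x y b / S1 p A0 A1 ω y b) else 0) := by
    intro b
    split_ifs with hb
    · obtain ⟨hS1, -, -, -⟩ := s1_facts hG hL hω hc hc1 hξ hδ hδ1 hξ1 hb.1.1 hb.1.2.1 hb.1.2.2.1
      have hSpos : 0 < S1 p A0 A1 ω y b := lt_of_lt_of_le (by positivity) hS1
      have := hnn x y b
      positivity
    · exact le_rfl
  have e2 : ∑ b ∈ (cls p A0 2).filter (fun b => b2E p H A0 A1 A2 x b),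
        (if al1 p H A0 A1 A2 π1 y b ∧ b ∉ A1 then κ * (ω x y b / S1 p A0 A1 ω y b) else 0) ≤
      κ * ∑ b ∈ (cls p (A0 \ A1) 2).filter (fun b => al1 p H A0 A1 A2 π1 y b),
        ω x y b / S1 p A0 A1 ω y b := by
    rw [Finset.mul_sum]
    calc ∑ b ∈ (cls p A0 2).filter (fun b => b2E p H A0 A1 A2 x b),
        (if al1 p H A0 A1 A2 π1 y b ∧ b ∉ A1 then κ * (ω x y b / S1 p A0 A1 ω y b) else 0)
        ≤ ∑ b ∈ cls p A0 2, (if al1 p H A0 A1 A2 π1 y b ∧ b ∉ A1 then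
            κ * (ω x y b / S1 p A0 A1 ω y b) else 0) :=
          Finset.sum_le_sum_of_subset_of_nonneg (Finset.filter_subset _ _) (fun b _ _ => hterm b)
      _ = ∑ b ∈ (cls p (A0 \ A1) 2).filter (fun b => al1 p H A0 A1 A2 π1 y b),
            (if al1 p H A0 A1 A2 π1 y b ∧ b ∉ A1 then
            κ * (ω x y b / S1 p A0 A1 ω y b) else 0) := by
          symm
          apply Finset.sum_subset
          · intro b hb
            have hb4 := b2_cls.mp (Finset.mem_filter.mp hb).1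
            exact b2_cls.mpr ⟨(Finset.mem_sdiff.mp hb4.1).1, hb4.2⟩
          · intro b hb hnb
            rw [if_neg]
            rintro ⟨hb3, hb4⟩
            apply hnb
            have hb5 := b2_cls.mp hb
            exact Finset.mem_filter.mpr ⟨b2_cls.mpr ⟨Finset.mem_sdiff.mpr ⟨hb5.1, hb4⟩, hb5.2⟩, hb3⟩
      _ = ∑ b ∈ (cls p (A0 \ A1) 2).filter (fun b => al1 p H A0 A1 A2 π1 y b),
            κ * (ω x y b / S1 p A0 A1 ω y b) := by
          apply Finset.sum_congr rfl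
          intro b hb
          obtain ⟨hb1, hb2⟩ := Finset.mem_filter.mp hb
          rw [if_pos ⟨hb2, (Finset.mem_sdiff.mp (b2_cls.mp hb1).1).2⟩]
  have htc' := (abs_le.mp htc).2
  have hi : ∑ b ∈ cls p (A0 \ A1) 2, ω x y b ≤ 11 / 10 * δ :=
    (Finset.sum_le_sum_of_subset_of_nonneg (Finset.subset_univ _) (fun b _ _ => hnn x y b)).trans
      (hω.i01 x y hx hy)
  rw [e1] at h
  have h6 := (abs_le.mp h).2
  have h7 : κ * ∑ b ∈ (cls p (A0 \ A1) 2).filter (fun b => al1 p H A0 A1 A2 π1 y b),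
        ω x y b / S1 p A0 A1 ω y b ≤ κ * (11 / 10 * δ + ε1) :=
    mul_le_mul_of_nonneg_left (by linarith) hκ0.le
  rw [hκε] at h6
  have h8 : κ * ∑ b ∈ (cls p (A0 \ A1) 2).filter (fun b =>
        al2 p H A0 A1 A2 π2 x b ∧ al1 p H A0 A1 A2 π1 y b),
        ω x y b / (S1 p A0 A1 ω y b * S2 p H A0 A1 A2 ω π1 x b) ≤
        κ * (11 / 10 * δ + ε1 + 2 / 5 * ε) := by linarith
  have h9 := le_of_mul_le_mul_left h8 hκ0
  linarith

private theorem b2_uj {V : Type} [Fintype V] {p : V → Fin 3} {H : SimpleGraph V}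
    {c s δ : ℝ} {A0 A1 A2 : Finset V} {ω : V → V → V → ℝ} {π1 π2 : V → V → V}
    (hs0 : 0 < s) (hc : 0 < c) (hδ : 0 < δ) (hcd : c * δ ≤ 1) {κ ε ε2 : ℝ} (hε : 0 < ε) (hκ0 : 0 < κ)
    (hκ1 : κ ≤ 1) (hκε : ε2 = κ * (2 / 5 * ε)) {b : V} (hb : b ∈ cls p (A0 \ A1) 2)
    (hs2 : ∀ x ∈ cls p (A1 \ A2) 0, al2 p H A0 A1 A2 π2 x b →
      c * δ / 32 ≤ S2 p H A0 A1 A2 ω π1 x b)
    (h : |∑ x ∈ (cls p (A1 \ A2) 0).filter (fun x => al2 p H A0 A1 A2 π2 x b),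
        1 / (2 * s) / S2 p H A0 A1 A2 ω π1 x b -
        ∑ x ∈ (cls p (A1 \ A2) 0).filter (fun x => b2E p H A0 A1 A2 x b), 1 / (2 * s)| ≤ ε2) :
    c * δ / 32 * ((cls p (A1 \ A2) 0).filter (fun x => H.Adj x b)).card - ε * s ≤
      ((cls p (A1 \ A2) 0).filter (fun x => al2 p H A0 A1 A2 π2 x b)).card := by
  have hb' := b2_cls.mp hb
  have hbs := Finset.mem_sdiff.mp hb'.1
  have hcdp : 0 < c * δ / 32 := by positivity
  have h2 := b2_cnt (cls p (A1 \ A2) 0) (fun x => al2 p H A0 A1 A2 π2 x b)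
    (fun x => b2E p H A0 A1 A2 x b) (fun x => S2 p H A0 A1 A2 ω π1 x b) hs0 hcdp hs2 h
  have e1 : (cls p (A1 \ A2) 0).filter (fun x => b2E p H A0 A1 A2 x b) =
      (cls p (A1 \ A2) 0).filter (fun x => H.Adj x b) := by
    apply Finset.filter_congr
    intro x hx
    have hx' := b2_cls.mp hx
    have hx'' := Finset.mem_sdiff.mp hx'.1
    constructor
    · exact fun h => h.2.1
    · intro hxb
      exact ⟨⟨b2_cls.mpr ⟨hx''.1, hx'.2⟩, b2_cls.mpr ⟨hbs.1, hb'.2⟩⟩, hxb, fun h => hx''.2 h.1⟩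
  rw [e1] at h2
  have h3 : c * δ / 32 * (2 * s * ε2) ≤ ε * s := by
    rw [hκε]
    have h4 : κ * (2 / 5 * ε) ≤ 1 * (2 / 5 * ε) := mul_le_mul_of_nonneg_right hκ1 (by positivity)
    have h5 : 2 * s * (κ * (2 / 5 * ε)) ≤ 2 * s * (2 / 5 * ε) := by
      apply mul_le_mul_of_nonneg_left _ (by positivity)
      linarith
    have h6 : c * δ / 32 ≤ 1 := by linarith
    have h7 : 0 ≤ 2 * s * (κ * (2 / 5 * ε)) := by positivity
    calc c * δ / 32 * (2 * s * (κ * (2 / 5 * ε))) ≤ 1 * (2 * s * (κ * (2 / 5 * ε))) :=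
          mul_le_mul_of_nonneg_right h6 h7
      _ ≤ ε * s := by
          have : 0 ≤ s * ε := by positivity
          linarith
  linarith

private theorem b2_deadnum {δ ε ε1 ε2 κ s : ℝ} (hδ : 0 < δ) (hε : 0 < ε) (hε10 : 0 < ε1)
    (hε1b : ε1 ≤ ε / 4) (hs0 : 0 < s) (hκ0 : 0 < κ) (hκ1 : κ ≤ 1 / 160)
    (hκε : ε2 = κ * (2 / 5 * ε)) (N D a Ca : ℝ)
    (h2 : (1 - 11 / 10 * δ - ε1) * (N - 2 * s * ε2) ≤ a) (h3 : D = N - a)
    (h4 : N ≤ Ca) (h5 : Ca ≤ s) (h6 : 0 ≤ N) : D ≤ 12 / 10 * δ * Ca + ε * s := by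
  have h7 : 2 * s * ε2 ≤ s * (ε / 100) := by
    rw [hκε]
    have h8 : κ * (2 / 5 * ε) ≤ 1 / 160 * (2 / 5 * ε) :=
      mul_le_mul_of_nonneg_right hκ1 (by positivity)
    have h9 : 2 * s * (κ * (2 / 5 * ε)) ≤ 2 * s * (1 / 160 * (2 / 5 * ε)) :=
      mul_le_mul_of_nonneg_left h8 (by positivity)
    have h10 : 0 < s * ε := by positivity
    linarith
  have h8 : 0 ≤ 2 * s * ε2 := by
    rw [hκε]
    positivity
  have h9 : ε1 * N ≤ ε / 4 * s := mul_le_mul hε1b (h4.trans h5) h6 (by positivity)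
  have h10 : δ * N ≤ δ * Ca := mul_le_mul_of_nonneg_left h4 hδ.le
  have h11 : 0 ≤ (11 / 10 * δ + ε1) * (2 * s * ε2) := by positivity
  have h12 : 0 < ε * s := by positivity
  have h13 : 0 ≤ δ * Ca := mul_nonneg hδ.le (h6.trans h4)
  have h14 : (1 - 11 / 10 * δ - ε1) * (N - 2 * s * ε2) = N - 11 / 10 * (δ * N) - ε1 * N -
      2 * s * ε2 + (11 / 10 * δ + ε1) * (2 * s * ε2) := by ring
  rw [h14] at h2
  linarith

private theorem b2_part {V : Type} (T : Finset V) (P Q R : V → Prop) [DecidablePred P]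
    [DecidablePred Q] [DecidablePred R] (h : ∀ z ∈ T, (Q z ↔ (R z ∨ P z))) (hd : ∀ z ∈ T, R z → ¬ P z) :
    ((T.filter Q).card : ℝ) = ((T.filter R).card : ℝ) + ((T.filter P).card : ℝ) := by
  have e : (T.filter Q).card = (T.filter R).card + (T.filter P).card := by
    rw [← Finset.card_union_of_disjoint]
    · congr 1
      ext b
      simp only [Finset.mem_filter, Finset.mem_union]
      constructor
      · rintro ⟨hb, hq⟩
        rcases (h b hb).mp hq with h1 | h1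
        · exact Or.inl ⟨hb, h1⟩
        · exact Or.inr ⟨hb, h1⟩
      · rintro (⟨hb, h1⟩ | ⟨hb, h1⟩)
        · exact ⟨hb, (h b hb).mpr (Or.inl h1)⟩
        · exact ⟨hb, (h b hb).mpr (Or.inr h1)⟩
    · rw [Finset.disjoint_left]
      intro z hz hz2
      obtain ⟨h1, h2⟩ := Finset.mem_filter.mp hz
      exact hd z h1 h2 (Finset.mem_filter.mp hz2).2
  exact_mod_cast e

theorem roundB (c K δ ε : ℝ) (hc : 0 < c) (hc1 : c < 1) (hK : 0 ≤ K) (hδ : 0 < δ)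
    (hδ1 : δ ≤ c ^ 11 / 10 ^ 9) (hε : 0 < ε) (hε1 : ε ≤ 1) : ∃ ε1 m : ℝ, 0 < ε1 ∧ ε1 ≤ ε ∧
    ∀ {V : Type} [Fintype V] {p : V → Fin 3} {G H : SimpleGraph V} {s ξ : ℝ} {A0 A1 A2 A3 : Finset V}
      {ω : V → V → V → ℝ} {π1 : V → V → V}, Host p G c K → Level p G H s ξ δ A0 A1 A2 A3 →
      FracW p H A1 A2 c s δ ω → 0 ≤ ξ → ξ ≤ c ^ 9 * δ / 10 ^ 6 → m ≤ s →
      R1Out p H A0 A1 A2 A3 ω c s δ ε1 π1 →
      ∃ π2 : V → V → V, R2Out p H A0 A1 A2 A3 ω c s δ ε π1 π2 := by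
  obtain ⟨hd0, hcR0, hcR1, hc64, hcd1⟩ := b2_num hc hc1 hδ hδ1
  have hκ0 : 0 < c ^ 2 * δ / 160 := by positivity
  have hε2 : 0 < c ^ 2 * δ * ε / 400 := by positivity
  obtain ⟨m0, e0, hm0, he0, hround⟩ := round_idx (cR c δ) hcR0 hcR1 (c ^ 2 * δ * ε / 400) hε2
  refine ⟨min (min e0 (ε / 4)) (c ^ 4 * δ / 256), max m0 (128 * K / c ^ 6), ?_, ?_, ?_⟩
  · exact lt_min (lt_min he0 (by positivity)) (by positivity)
  · exact (min_le_left _ _).trans ((min_le_right _ _).trans (by linarith))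
  intro V _ p G H s ξ A0 A1 A2 A3 ω π1 hG hL hω hξ hξ1 hm h1
  obtain ⟨ε1, hε1def⟩ : ∃ e, e = min (min e0 (ε / 4)) (c ^ 4 * δ / 256) := ⟨_, rfl⟩
  rw [← hε1def] at h1
  have hε10 : 0 < ε1 := by
    rw [hε1def]
    exact lt_min (lt_min he0 (by positivity)) (by positivity)
  have hε1a : ε1 ≤ e0 := by
    rw [hε1def]
    exact (min_le_left _ _).trans (min_le_left _ _)
  have hε1b : ε1 ≤ ε / 4 := by
    rw [hε1def]
    exact (min_le_left _ _).trans (min_le_right _ _)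
  have hε1c : ε1 ≤ c ^ 4 * δ / 256 := by
    rw [hε1def]
    exact min_le_right _ _
  obtain ⟨ε2, hε2def⟩ : ∃ e, e = c ^ 2 * δ * ε / 400 := ⟨_, rfl⟩
  obtain ⟨κ, hκdef⟩ : ∃ e, e = c ^ 2 * δ / 160 := ⟨_, rfl⟩
  rw [← hε2def] at hround hε2
  rw [← hκdef] at hκ0
  have hκε : ε2 = κ * (2 / 5 * ε) := by
    rw [hε2def, hκdef]
    ring
  have hκ2 : κ ≤ 1 / 160 := by
    rw [hκdef]
    have h2 : c ^ 2 * δ ≤ 1 := by
      have : c ^ 2 * δ = c * (c * δ) := by ring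
      rw [this]
      have : 0 < c * δ := by positivity
      nlinarith
    linarith
  have hκ1 : κ ≤ 1 := by linarith
  have hs1 : 1 ≤ s := (hm0.trans (le_max_left _ _)).trans hm
  have hs0 : 0 < s := by linarith
  have hsK : 128 * K / c ^ 6 ≤ s := (le_max_right _ _).trans hm
  have hm0s : m0 ≤ 2 * s := by
    have := (le_max_left m0 (128 * K / c ^ 6)).trans hm
    linarith
  have hR := rhyp2 hG hL hω hc hc1 hK hξ hδ hδ1 hξ1 hs1 hsK hε10.le hε1c h1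
  have hnn := frac_nonneg hω hs0 hδ
  haveI : Nonempty V := by
    by_contra hne
    rw [not_nonempty_iff] at hne
    have h2 := hL.s1
    rw [Fintype.card_eq_zero] at h2
    push_cast at h2
    linarith
  have hξδ : ξ ≤ 1 / 10 ^ 6 := by
    have h9 : c ^ 9 ≤ 1 := pow_le_one₀ hc.le hc1.le
    have h3 : δ ≤ 1 := by norm_num at hd0; linarith
    have h4 : 0 < c ^ 9 := by positivity
    have h2 : c ^ 9 * δ ≤ 1 := by nlinarith
    refine hξ1.trans ?_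
    norm_num
    linarith
  have hξ' : ξ ≤ 1 := by
    norm_num at hξδ
    linarith
  obtain ⟨Zk, hZk⟩ : ∃ Zk : Fin 3 → Finset V, Zk = ![A1 \ A2, A2 \ A3, A3] := ⟨_, rfl⟩
  have hZk0 : Zk 0 = A1 \ A2 := by rw [hZk]; rfl
  have hZk1 : Zk 1 = A2 \ A3 := by rw [hZk]; rfl
  have hZk2 : Zk 2 = A3 := by rw [hZk]; rfl
  have hZsub : ∀ k, Zk k ⊆ A1 := by
    intro k
    fin_cases k
    · show Zk 0 ⊆ A1
      rw [hZk0]
      exact Finset.sdiff_subset
    · show Zk 1 ⊆ A1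
      rw [hZk1]
      exact Finset.sdiff_subset.trans hL.sub2
    · show Zk 2 ⊆ A1
      rw [hZk2]
      exact hL.sub3.trans hL.sub2
  have hZsub0 : ∀ k, Zk k ⊆ A0 := fun k => (hZsub k).trans hL.sub1
  have hcard : ((Fintype.card ({v // v ∈ A0} × ({v // v ∈ A0} ⊕ Fin 3)) : ℕ) : ℝ) ≤
      (2 * s) ^ 20 := by
    have h2 : Fintype.card ({v // v ∈ A0} × ({v // v ∈ A0} ⊕ Fin 3)) = A0.card * (A0.card + 3) := by
      simp
    rw [h2]
    push_cast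
    have h3 := b2_cardA0 hG hL hξ'
    have h4 : (0 : ℝ) ≤ A0.card := Nat.cast_nonneg _
    have h5 : (A0.card : ℝ) * (A0.card + 3) ≤ 6 * s * (9 * s) :=
      mul_le_mul h3 (by linarith) (by positivity) (by positivity)
    have h6 : (2 * s) ^ 20 = 2 ^ 20 * (s ^ 2 * s ^ 18) := by ring
    have h7 : 1 ≤ s ^ 18 := one_le_pow₀ hs1
    have h8 : s ^ 2 ≤ s ^ 2 * s ^ 18 := le_mul_of_one_le_right (by positivity) h7
    rw [h6]
    nlinarith
  have hbnd : ∀ x y b, al1 p H A0 A1 A2 π1 y b →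
      |κ * (ω x y b / S1 p A0 A1 ω y b)| ≤ 1 / (2 * s) := by
    intro x y b hal
    obtain ⟨hS1, -, -, -⟩ := s1_facts hG hL hω hc hc1 hξ hδ hδ1 hξ1 hal.1 hal.2.1 hal.2.2.1
    have hSpos : 0 < S1 p A0 A1 ω y b := lt_of_lt_of_le (by positivity) hS1
    have h2 := hnn x y b
    have h3 := hω.ub x y b
    rw [abs_of_nonneg (by positivity)]
    have h4 : ω x y b / S1 p A0 A1 ω y b ≤ 5 / (c * s) / (c * δ / 16) :=
      div_le_div₀ (by positivity) h3 (by positivity) hS1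
    calc κ * (ω x y b / S1 p A0 A1 ω y b) ≤ κ * (5 / (c * s) / (c * δ / 16)) :=
          mul_le_mul_of_nonneg_left h4 hκ0.le
      _ = 1 / (2 * s) := by
          rw [hκdef]
          field_simp
          norm_num
  have hpos2 : (0 : ℝ) ≤ 1 / (2 * s) := by positivity
  obtain ⟨E, hEdef⟩ : ∃ E : Finset (V × V), E = (cls p A1 0 ×ˢ cls p A0 2).filter
      (fun e => H.Adj e.1 e.2 ∧ ¬ (e.1 ∈ A2 ∧ e.2 ∈ A2)) := ⟨_, rfl⟩
  have hE : ∀ x b, (x, b) ∈ E ↔ b2E p H A0 A1 A2 x b := by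
    intro x b
    rw [hEdef, Finset.mem_filter, Finset.mem_product]
    exact Iff.rfl
  rw [← hEdef] at hR
  obtain ⟨fy, hfy⟩ : ∃ fy : ({v // v ∈ A0} × ({v // v ∈ A0} ⊕ Fin 3)) → V → ℝ, fy =
      (fun i => Sum.elim (fun (y : {v // v ∈ A0}) (b : V) =>
        if al1 p H A0 A1 A2 π1 y.1 b ∧ b ∉ A1 then κ * (ω i.1.1 y.1 b / S1 p A0 A1 ω y.1 b) else 0)
      (fun (k : Fin 3) (b : V) => if b ∈ Zk k then 1 / (2 * s) else 0) i.2) := ⟨_, rfl⟩
  obtain ⟨fz, hfz⟩ : ∃ fz : ({v // v ∈ A0} × ({v // v ∈ A0} ⊕ Fin 3)) → V → ℝ, fz =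
      (fun i => Sum.elim (fun (y : {v // v ∈ A0}) (x : V) =>
        if al1 p H A0 A1 A2 π1 y.1 i.1.1 then
          κ * (ω x y.1 i.1.1 / S1 p A0 A1 ω y.1 i.1.1) else 0)
      (fun (k : Fin 3) (x : V) => if x ∈ Zk k then 1 / (2 * s) else 0) i.2) := ⟨_, rfl⟩
  have hfy1 : ∀ i b, |fy i b| ≤ 1 / (2 * s) := by
    rw [hfy]
    rintro ⟨x, y | k⟩ b
    · show |if al1 p H A0 A1 A2 π1 y.1 b ∧ b ∉ A1 then
        κ * (ω x.1 y.1 b / S1 p A0 A1 ω y.1 b) else 0| ≤ _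
      split_ifs with h
      · exact hbnd _ _ _ h.1
      · rw [abs_zero]
        exact hpos2
    · show |if b ∈ Zk k then 1 / (2 * s) else 0| ≤ _
      split_ifs with h
      · rw [abs_of_nonneg hpos2]
      · rw [abs_zero]
        exact hpos2
  have hfz1 : ∀ i b, |fz i b| ≤ 1 / (2 * s) := by
    rw [hfz]
    rintro ⟨b, y | k⟩ x
    · show |if al1 p H A0 A1 A2 π1 y.1 b.1 then
        κ * (ω x y.1 b.1 / S1 p A0 A1 ω y.1 b.1) else 0| ≤ _
      split_ifs with h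
      · exact hbnd _ _ _ h
      · rw [abs_zero]
        exact hpos2
    · show |if x ∈ Zk k then 1 / (2 * s) else 0| ≤ _
      split_ifs with h
      · rw [abs_of_nonneg hpos2]
      · rw [abs_zero]
        exact hpos2
  obtain ⟨π2, hbij, hmem, hdisj, hrow, hcol⟩ := hround (cls p (A0 \ A1) 1) (cls p A1 0) (cls p A0 2)
    E _ _ (w2 p H A0 A1 A2 ω π1) (2 * s) ε1 hR hm0s hε1a
    ({v // v ∈ A0} × ({v // v ∈ A0} ⊕ Fin 3)) ({v // v ∈ A0} × ({v // v ∈ A0} ⊕ Fin 3)) hcard hcard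
    (fun i => i.1.1) fy (fun i => i.1.1) fz hfy1 hfz1
  -- the alive pairs
  have hal : ∀ x b, ((x, b) ∈ E ∧
      ∀ y ∈ cls p (A0 \ A1) 1, x ∈ (cls p A1 0).filter (fun x => H.Adj x y) → π2 y x ≠ b) ↔
      al2 p H A0 A1 A2 π2 x b := by
    intro x b
    rw [hE]
    constructor
    · rintro ⟨⟨⟨hx, hb⟩, hadj, hn⟩, hall⟩
      have hx' := b2_cls.mp hx
      have hb' := b2_cls.mp hb
      refine ⟨hx'.2, hb'.2, hx'.1, hadj, hn, ?_⟩
      intro y hy hxy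
      exact hall y hy (Finset.mem_filter.mpr ⟨hx, hxy⟩)
    · rintro ⟨hx, hb, hx1, hadj, hn, hall⟩
      refine ⟨⟨⟨b2_cls.mpr ⟨hx1, hx⟩, b2_cls.mpr ⟨hL.supp b x hadj.symm, hb⟩⟩, hadj, hn⟩, ?_⟩
      intro y hy hxy
      exact hall y hy (Finset.mem_filter.mp hxy).2
  have row : ∀ i : {v // v ∈ A0} × ({v // v ∈ A0} ⊕ Fin 3),
      |∑ b ∈ (cls p A0 2).filter (fun b => al2 p H A0 A1 A2 π2 i.1.1 b),
        fy i b / S2 p H A0 A1 A2 ω π1 i.1.1 b -
        ∑ b ∈ (cls p A0 2).filter (fun b => b2E p H A0 A1 A2 i.1.1 b), fy i b| ≤ ε2 := by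
    intro i
    refine le_trans (le_of_eq ?_) (hrow i)
    refine congrArg abs (congrArg₂ (fun a b : ℝ => a - b) ?_ ?_)
    · refine Finset.sum_congr (Finset.ext fun b => ?_) (fun _ _ => rfl)
      constructor
      · intro h
        have h2 := b2_memf.mp h
        exact b2_memf.mpr ⟨h2.1, (hal _ _).mpr h2.2⟩
      · intro h
        have h2 := b2_memf.mp h
        exact b2_memf.mpr ⟨h2.1, (hal _ _).mp h2.2⟩
    · refine Finset.sum_congr (Finset.ext fun b => ?_) (fun _ _ => rfl)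
      constructor
      · intro h
        have h2 := b2_memf.mp h
        exact b2_memf.mpr ⟨h2.1, (hE _ _).mpr h2.2⟩
      · intro h
        have h2 := b2_memf.mp h
        exact b2_memf.mpr ⟨h2.1, (hE _ _).mp h2.2⟩
  have col : ∀ i : {v // v ∈ A0} × ({v // v ∈ A0} ⊕ Fin 3),
      |∑ x ∈ (cls p A1 0).filter (fun x => al2 p H A0 A1 A2 π2 x i.1.1),
        fz i x / S2 p H A0 A1 A2 ω π1 x i.1.1 -
        ∑ x ∈ (cls p A1 0).filter (fun x => b2E p H A0 A1 A2 x i.1.1), fz i x| ≤ ε2 := by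
    intro i
    refine le_trans (le_of_eq ?_) (hcol i)
    refine congrArg abs (congrArg₂ (fun a b : ℝ => a - b) ?_ ?_)
    · refine Finset.sum_congr (Finset.ext fun b => ?_) (fun _ _ => rfl)
      constructor
      · intro h
        have h2 := b2_memf.mp h
        exact b2_memf.mpr ⟨h2.1, (hal _ _).mpr h2.2⟩
      · intro h
        have h2 := b2_memf.mp h
        exact b2_memf.mpr ⟨h2.1, (hal _ _).mp h2.2⟩
    · refine Finset.sum_congr (Finset.ext fun b => ?_) (fun _ _ => rfl)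
      constructor
      · intro h
        have h2 := b2_memf.mp h
        exact b2_memf.mpr ⟨h2.1, (hE _ _).mpr h2.2⟩
      · intro h
        have h2 := b2_memf.mp h
        exact b2_memf.mpr ⟨h2.1, (hE _ _).mp h2.2⟩
  clear hrow hcol hround
  have rowk : ∀ x ∈ A0, ∀ k : Fin 3,
      |∑ b ∈ (cls p (Zk k) 2).filter (fun b => al2 p H A0 A1 A2 π2 x b),
        1 / (2 * s) / S2 p H A0 A1 A2 ω π1 x b -
        ∑ b ∈ (cls p (Zk k) 2).filter (fun b => b2E p H A0 A1 A2 x b), 1 / (2 * s)| ≤ ε2 := by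
    intro x hx k
    have h := row (⟨x, hx⟩, Sum.inr k)
    have hf1 : ∀ b, b ∉ Zk k → fy (⟨x, hx⟩, Sum.inr k) b = 0 := by
      intro b hb
      rw [hfy]
      exact if_neg hb
    have hf2 : ∀ b, b ∈ Zk k → fy (⟨x, hx⟩, Sum.inr k) b = 1 / (2 * s) := by
      intro b hb
      rw [hfy]
      exact if_pos hb
    rw [b2_ind (hZsub0 k) 2 (fun b => al2 p H A0 A1 A2 π2 x b)
        (fun b => fy (⟨x, hx⟩, Sum.inr k) b / S2 p H A0 A1 A2 ω π1 x b)
        (fun b hb => by rw [hf1 b hb, zero_div]),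
      b2_ind (hZsub0 k) 2 (fun b => b2E p H A0 A1 A2 x b)
        (fun b => fy (⟨x, hx⟩, Sum.inr k) b) hf1] at h
    rw [Finset.sum_congr rfl (fun b hb => by
        rw [hf2 b (b2_cls.mp (Finset.mem_filter.mp hb).1).1]),
      Finset.sum_congr rfl (fun b hb => hf2 b (b2_cls.mp (Finset.mem_filter.mp hb).1).1)] at h
    exact h
  have colk : ∀ b ∈ A0, ∀ k : Fin 3,
      |∑ x ∈ (cls p (Zk k) 0).filter (fun x => al2 p H A0 A1 A2 π2 x b),
        1 / (2 * s) / S2 p H A0 A1 A2 ω π1 x b -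
        ∑ x ∈ (cls p (Zk k) 0).filter (fun x => b2E p H A0 A1 A2 x b), 1 / (2 * s)| ≤ ε2 := by
    intro b hb k
    have h := col (⟨b, hb⟩, Sum.inr k)
    have hf1 : ∀ x, x ∉ Zk k → fz (⟨b, hb⟩, Sum.inr k) x = 0 := by
      intro x hx
      rw [hfz]
      exact if_neg hx
    have hf2 : ∀ x, x ∈ Zk k → fz (⟨b, hb⟩, Sum.inr k) x = 1 / (2 * s) := by
      intro x hx
      rw [hfz]
      exact if_pos hx
    rw [b2_ind (hZsub k) 0 (fun x => al2 p H A0 A1 A2 π2 x b)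
        (fun x => fz (⟨b, hb⟩, Sum.inr k) x / S2 p H A0 A1 A2 ω π1 x b)
        (fun x hx => by rw [hf1 x hx, zero_div]),
      b2_ind (hZsub k) 0 (fun x => b2E p H A0 A1 A2 x b)
        (fun x => fz (⟨b, hb⟩, Sum.inr k) x) hf1] at h
    rw [Finset.sum_congr rfl (fun x hx => by
        rw [hf2 x (b2_cls.mp (Finset.mem_filter.mp hx).1).1]),
      Finset.sum_congr rfl (fun x hx => hf2 x (b2_cls.mp (Finset.mem_filter.mp hx).1).1)] at h
    exact h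
  have hsmall : ε1 ≤ c * δ / 64 := hε1c.trans hc64
  have hs2 : ∀ x b, x ∈ cls p A1 0 → p b = 2 → H.Adj x b →
      c * δ / 32 ≤ S2 p H A0 A1 A2 ω π1 x b ∧
      (b ∈ A1 → 1 - 11 / 10 * δ - ε1 ≤ S2 p H A0 A1 A2 ω π1 x b) := by
    intro x b hx hb hxb
    have hx' := b2_cls.mp hx
    have h := s2_facts hG hL hω hc hc1 hξ hδ hδ1 hξ1 hsmall h1 hx'.2 hb hx'.1 hxb
    exact ⟨h.1, h.2.2.2⟩
  have hr1 : 0 < 1 - 11 / 10 * δ - ε1 := by
    have : ε1 ≤ 1 / 4 := by linarith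
    norm_num at hd0
    linarith
  have hsize : ∀ k j, ((cls p (Zk k) j).card : ℝ) ≤ s := by
    intro k j
    have hsub : cls p (Zk k) j ⊆ cls p A1 j := by
      intro z hz
      have hz' := b2_cls.mp hz
      exact b2_cls.mpr ⟨hZsub k hz'.1, hz'.2⟩
    have h2 : ((cls p (Zk k) j).card : ℝ) ≤ (cls p A1 j).card := by
      exact_mod_cast Finset.card_le_card hsub
    have h3 := (cnt_size hG hL j).2.1
    have h4 : (1 / 4 + ξ) * s ≤ 1 * s := by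
      apply mul_le_mul_of_nonneg_right _ hs0.le
      norm_num at hξδ
      linarith
    linarith
  refine ⟨π2, ?_⟩
  refine
    { bij := ?_
      mem := ?_
      disj := ?_
      ug := ?_
      uh := ?_
      uj := ?_
      dead := ?_ }
  · intro y hy
    have h := hbij y hy
    have e1 : (((cls p A1 0).filter (fun x => H.Adj x y) : Finset V) : Set V) =
        {x | p x = 0 ∧ x ∈ A1 ∧ H.Adj x y} := by
      ext x
      simp only [Finset.coe_filter, b2_cls, Set.mem_setOf_eq]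
      tauto
    have e2 : (((cls p A0 2).filter (fun b => al1 p H A0 A1 A2 π1 y b) : Finset V) : Set V) =
        {b | al1 p H A0 A1 A2 π1 y b} := by
      ext b
      simp only [Finset.coe_filter, b2_cls, Set.mem_setOf_eq]
      constructor
      · exact fun h => h.2
      · exact fun h => ⟨⟨hL.supp b y h.2.2.1.symm, h.2.1⟩, h⟩
    rw [e1, e2] at h
    exact h
  · intro y hy x hx hxy
    have h := (hE _ _).mp (hmem y hy x (Finset.mem_filter.mpr ⟨hx, hxy⟩))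
    exact h.2
  · intro y hy y' hy' hne x hx hxy hxy'
    exact hdisj y hy y' hy' hne x (Finset.mem_filter.mpr ⟨hx, hxy⟩)
      (Finset.mem_filter.mpr ⟨hx, hxy'⟩)
  · -- ug
    intro y hy b hb hyb
    have hb' := b2_cls.mp hb
    have hbs := Finset.mem_sdiff.mp hb'.1
    have hy' := b2_cls.mp hy
    have h := col (⟨b, hbs.1⟩, Sum.inl ⟨y, hL.sub1 hy'.1⟩)
    rw [hfz] at h
    exact b2_ug hG hL hω hc hc1 hξ hδ hδ1 hξ1 hε hκ0 hκε hb hyb h
  · -- uh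
    intro x hx y hy
    have hx' := b2_cls.mp hx
    have hy' := b2_cls.mp hy
    have h := row (⟨x, hL.sub1 hx'.1⟩, Sum.inl ⟨y, hL.sub1 hy'.1⟩)
    rw [hfy] at h
    exact b2_uh hG hL hω hc hc1 hξ hδ hδ1 hξ1 hκ0 hκε hε1b hε hx'.1 hy'.1 (h1.tc x hx y hy) h
  · -- uj
    intro b hb
    have hb' := b2_cls.mp hb
    have hbs := Finset.mem_sdiff.mp hb'.1
    have h := colk b hbs.1 0
    rw [hZk0] at h
    refine b2_uj (c := c) (δ := δ) hs0 hc hδ hcd1 hε hκ0 hκ1 hκε hb ?_ h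
    intro x _ hal2
    exact (hs2 x b (b2_cls.mpr ⟨hal2.2.2.1, hal2.1⟩) hb'.2 hal2.2.2.2.1).1
  · -- dead
    intro Z hZ
    have hk : ∃ k, Z = Zk k := by
      rcases hZ with rfl | rfl | hZ
      · exact ⟨0, hZk0.symm⟩
      · exact ⟨1, hZk1.symm⟩
      · rw [Set.mem_singleton_iff] at hZ
        exact ⟨2, by rw [hZk2, hZ]⟩
    obtain ⟨k, rfl⟩ := hk
    constructor
    · intro x hx
      have hx' := b2_cls.mp hx
      have h := rowk x (hL.sub1 hx'.1) k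
      have hlow : ∀ b ∈ cls p (Zk k) 2, al2 p H A0 A1 A2 π2 x b →
          1 - 11 / 10 * δ - ε1 ≤ S2 p H A0 A1 A2 ω π1 x b := fun b hb hal2 =>
        (hs2 x b hx hal2.2.1 hal2.2.2.2.1).2 (hZsub k (b2_cls.mp hb).1)
      have h2 := b2_cnt (cls p (Zk k) 2) (fun b => al2 p H A0 A1 A2 π2 x b)
        (fun b => b2E p H A0 A1 A2 x b) (fun b => S2 p H A0 A1 A2 ω π1 x b) hs0 hr1 hlow h
      refine b2_deadnum hδ hε hε10 hε1b hs0 hκ0 hκ2 hκε _ _ _ _ h2 ?_ ?_ (hsize k 2)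
        (Nat.cast_nonneg _)
      · refine eq_sub_of_add_eq (Eq.symm (b2_part (cls p (Zk k) 2) (fun b => al2 p H A0 A1 A2 π2 x b)
          (fun b => b2E p H A0 A1 A2 x b) (fun b => H.Adj x b ∧ ¬ (x ∈ A2 ∧ b ∈ A2) ∧
            ¬ al2 p H A0 A1 A2 π2 x b) (fun b hb => by
            have hb' := b2_cls.mp hb
            constructor
            · rintro ⟨-, hadj, hn⟩
              by_cases h0 : al2 p H A0 A1 A2 π2 x b
              · exact Or.inr h0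
              · exact Or.inl ⟨hadj, hn, h0⟩
            · rintro (⟨hadj, hn, -⟩ | h0)
              · exact ⟨⟨hx, b2_cls.mpr ⟨hZsub0 k hb'.1, hb'.2⟩⟩, hadj, hn⟩
              · exact ⟨⟨hx, b2_cls.mpr ⟨hZsub0 k hb'.1, hb'.2⟩⟩, h0.2.2.2.1, h0.2.2.2.2.1⟩)
            (fun b _ h3 => h3.2.2)))
      · exact_mod_cast Finset.card_le_card (Finset.filter_subset _ _)
    · intro b hb
      have hb' := b2_cls.mp hb
      have h := colk b (hL.sub1 hb'.1) k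
      have hlow : ∀ x ∈ cls p (Zk k) 0, al2 p H A0 A1 A2 π2 x b →
          1 - 11 / 10 * δ - ε1 ≤ S2 p H A0 A1 A2 ω π1 x b := fun x hx hal2 =>
        (hs2 x b (b2_cls.mpr ⟨hal2.2.2.1, hal2.1⟩) hb'.2 hal2.2.2.2.1).2 hb'.1
      have h2 := b2_cnt (cls p (Zk k) 0) (fun x => al2 p H A0 A1 A2 π2 x b)
        (fun x => b2E p H A0 A1 A2 x b) (fun x => S2 p H A0 A1 A2 ω π1 x b) hs0 hr1 hlow h
      refine b2_deadnum hδ hε hε10 hε1b hs0 hκ0 hκ2 hκε _ _ _ _ h2 ?_ ?_ (hsize k 0)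
        (Nat.cast_nonneg _)
      · refine eq_sub_of_add_eq (Eq.symm (b2_part (cls p (Zk k) 0) (fun x => al2 p H A0 A1 A2 π2 x b)
          (fun x => b2E p H A0 A1 A2 x b) (fun x => H.Adj x b ∧ ¬ (x ∈ A2 ∧ b ∈ A2) ∧
            ¬ al2 p H A0 A1 A2 π2 x b) (fun x hx => by
            have hx' := b2_cls.mp hx
            constructor
            · rintro ⟨-, hadj, hn⟩
              by_cases h0 : al2 p H A0 A1 A2 π2 x b
              · exact Or.inr h0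
              · exact Or.inl ⟨hadj, hn, h0⟩
            · rintro (⟨hadj, hn, -⟩ | h0)
              · exact ⟨⟨b2_cls.mpr ⟨hZsub k hx'.1, hx'.2⟩, b2_cls.mpr ⟨hL.sub1 hb'.1, hb'.2⟩⟩,
                  hadj, hn⟩
              · exact ⟨⟨b2_cls.mpr ⟨hZsub k hx'.1, hx'.2⟩, b2_cls.mpr ⟨hL.sub1 hb'.1, hb'.2⟩⟩,
                  h0.2.2.2.1, h0.2.2.2.2.1⟩)
            (fun x _ h3 => h3.2.2)))
      · exact_mod_cast Finset.card_le_card (Finset.filter_subset _ _)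

end Pool.Agent.Lib.TriD
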