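import Pool.Agent.Lib.TriD.RdDefs

set_option autoImplicit false

/-!
MODULE RdC0 (about 150 lines). Before round 3 every symbol outside `A1` has equally many alive rows and columns.

PROOF. `b ∈ cls p (A0 \ A1) 2`, `N0 = {x | p x = 0, H.Adj x b}`, `N1 = {y | p y = 1, H.Adj y b}`; `N0.card = N1.card` (`hL.tdiv b`, both different
from `p b = 2`; `nbr p H j {b}` uses `H.Adj b z`). `b ∉ A2` (`A2 ⊆ A1`), so the condition on `A2` in `al1`, `al2` is empty at `b`.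
(1) For `x ∈ N0 \ A1` (`x ∈ A0` by `supp`) there is exactly one `y` with `p y = 1`, `H.Adj x y`, `π1 x y = b` (`h1.bij`), and `H.Adj y b` (`h1.mem`). The map
`x ↦ y` is a bijection of `N0 \ A1` onto `U1 = {y ∈ N1 | ∃ x ∈ cls p (A0 \ A1) 0, H.Adj x y ∧ π1 x y = b}` (injective by `h1.disj`; surjective: `x` has
`H.Adj x b` by `h1.bij`). `{y | al1 y b} = N1 \ U1`, so `card {y | al1 y b} = N1.card - card (N0 \ A1) = card (N0 ∩ A1)`.
(2) For `y ∉ A1` with `al1 y b` there is exactly one `x ∈ A1` with `p x = 0`, `H.Adj x y`, `π2 y x = b` (`h2.bij`), and `H.Adj x b` (`h2.mem`). The map `y ↦ x` is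
a bijection of `{y ∉ A1 | al1 y b}` onto `U2 = {x ∈ N0 ∩ A1 | ∃ y ∈ cls p (A0 \ A1) 1, H.Adj x y ∧ π2 y x = b}` (injective by `h2.disj`, surjective because
`π2 y x = b` is alive by `h2.bij`). `{x | al2 x b} = (N0 ∩ A1) \ U2`. Hence `card {x | al2 x b} = card (N0 ∩ A1) - card {y ∉ A1 | al1 y b} =
card {y | al1 y b} - card {y ∉ A1 | al1 y b} = card {y ∈ A1 | al1 y b}`.
-/

open scoped Classical

noncomputable section

namespace Pool.Agent.Lib.TriD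

variable {V : Type} [Fintype V]

private theorem rdc_card_rel {α β : Type} (S : Finset α) (T : Finset β) (r : α → β → Prop)
    (h1 : ∀ x ∈ S, ∃ y ∈ T, r x y) (h2 : ∀ y ∈ T, ∃ x ∈ S, r x y)
    (h3 : ∀ x ∈ S, ∀ y ∈ T, ∀ y' ∈ T, r x y → r x y' → y = y')
    (h4 : ∀ x ∈ S, ∀ x' ∈ S, ∀ y ∈ T, r x y → r x' y → x = x') : S.card = T.card := by
  choose f hf hr using h1
  refine Finset.card_bij f hf ?_ ?_
  · intro a ha a' ha' h
    refine h4 a ha a' ha' (f a ha) (hf a ha) (hr a ha) ?_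
    rw [h]
    exact hr a' ha'
  · intro y hy
    obtain ⟨x, hx, hxy⟩ := h2 y hy
    exact ⟨x, hx, h3 x hx _ (hf x hx) y hy (hr x hx) hxy⟩

theorem card3 {p : V → Fin 3} {G H : SimpleGraph V} {c s ξ δ ε : ℝ} {A0 A1 A2 A3 : Finset V}
    {ω : V → V → V → ℝ} {π1 π2 : V → V → V} (hL : Level p G H s ξ δ A0 A1 A2 A3)
    (h1 : R1Out p H A0 A1 A2 A3 ω c s δ ε π1) (h2 : R2Out p H A0 A1 A2 A3 ω c s δ ε π1 π2)
    {b : V} (hb : b ∈ cls p (A0 \ A1) 2) :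
    ((cls p A1 0).filter (fun x => al2 p H A0 A1 A2 π2 x b)).card =
      ((cls p A1 1).filter (fun y => al1 p H A0 A1 A2 π1 y b)).card := by
  have hbm : (b ∈ A0 ∧ b ∉ A1) ∧ p b = 2 := by
    have h := hb
    unfold cls at h
    rw [Finset.mem_filter, Finset.mem_sdiff] at h
    exact h
  obtain ⟨⟨hb0, hb1⟩, hb2⟩ := hbm
  have hbA2 : b ∉ A2 := fun h => hb1 (hL.sub2 h)
  have hcls : ∀ (Z : Finset V) (j : Fin 3) (x : V), x ∈ cls p Z j ↔ x ∈ Z ∧ p x = j := by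
    intro Z j x
    unfold cls
    rw [Finset.mem_filter]
  obtain ⟨N0, hN0⟩ : ∃ N : Finset V, N = nbr p H 0 {b} := ⟨_, rfl⟩
  obtain ⟨N1, hN1⟩ : ∃ N : Finset V, N = nbr p H 1 {b} := ⟨_, rfl⟩
  have hm0 : ∀ x, x ∈ N0 ↔ p x = 0 ∧ H.Adj b x := by
    intro x
    rw [hN0]
    unfold nbr
    rw [Finset.mem_filter]
    simp
  have hm1 : ∀ x, x ∈ N1 ↔ p x = 1 ∧ H.Adj b x := by
    intro x
    rw [hN1]
    unfold nbr
    rw [Finset.mem_filter]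
    simp
  have hN01 : N0.card = N1.card := by
    rw [hN0, hN1]
    apply hL.tdiv b 0 1
    · rw [hb2]; decide
    · rw [hb2]; decide
  have hin0 : ∀ x, H.Adj b x → x ∈ A0 := fun x hx => hL.supp x b hx.symm
  -- first step
  obtain ⟨S1, hS1⟩ : ∃ S : Finset V, S = N0.filter (fun x => x ∉ A1) := ⟨_, rfl⟩
  obtain ⟨U1, hU1⟩ : ∃ U : Finset V, U = N1.filter (fun y => ∃ x ∈ cls p (A0 \ A1) 0,
    H.Adj x y ∧ π1 x y = b) := ⟨_, rfl⟩
  have hcard1 : S1.card = U1.card := by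
    apply rdc_card_rel S1 U1 (fun x y => p y = 1 ∧ H.Adj x y ∧ π1 x y = b)
    · intro x hx
      rw [hS1, Finset.mem_filter, hm0] at hx
      obtain ⟨⟨hx0, hxb⟩, hx1⟩ := hx
      have hxc : x ∈ cls p (A0 \ A1) 0 := by
        rw [hcls, Finset.mem_sdiff]
        exact ⟨⟨hin0 x hxb, hx1⟩, hx0⟩
      obtain ⟨y, ⟨hy1, hy2⟩, hy3⟩ := (h1.bij x hxc).surjOn (show b ∈ {b | p b = 2 ∧ H.Adj x b} from
        ⟨hb2, hxb.symm⟩)
      have hyb := (h1.mem x hxc y hy1 hy2).1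
      rw [hy3] at hyb
      refine ⟨y, ?_, hy1, hy2, hy3⟩
      rw [hU1, Finset.mem_filter, hm1]
      exact ⟨⟨hy1, hyb.symm⟩, x, hxc, hy2, hy3⟩
    · intro y hy
      rw [hU1, Finset.mem_filter, hm1] at hy
      obtain ⟨⟨hy1, hyb⟩, x, hxc, hxy, hπ⟩ := hy
      have hxb := (h1.bij x hxc).mapsTo (show y ∈ {y | p y = 1 ∧ H.Adj x y} from ⟨hy1, hxy⟩)
      rw [hπ] at hxb
      refine ⟨x, ?_, hy1, hxy, hπ⟩
      rw [hcls, Finset.mem_sdiff] at hxc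
      rw [hS1, Finset.mem_filter, hm0]
      exact ⟨⟨hxc.2, hxb.2.symm⟩, hxc.1.2⟩
    · intro x hx y _ y' _ hy hy'
      rw [hS1, Finset.mem_filter, hm0] at hx
      obtain ⟨⟨hx0, hxb⟩, hx1⟩ := hx
      have hxc : x ∈ cls p (A0 \ A1) 0 := by
        rw [hcls, Finset.mem_sdiff]
        exact ⟨⟨hin0 x hxb, hx1⟩, hx0⟩
      exact (h1.bij x hxc).injOn ⟨hy.1, hy.2.1⟩ ⟨hy'.1, hy'.2.1⟩ (hy.2.2.trans hy'.2.2.symm)
    · intro x hx x' hx' y _ hy hy'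
      rw [hS1, Finset.mem_filter, hm0] at hx hx'
      have hxc : x ∈ cls p (A0 \ A1) 0 := by
        rw [hcls, Finset.mem_sdiff]
        exact ⟨⟨hin0 x hx.1.2, hx.2⟩, hx.1.1⟩
      have hxc' : x' ∈ cls p (A0 \ A1) 0 := by
        rw [hcls, Finset.mem_sdiff]
        exact ⟨⟨hin0 x' hx'.1.2, hx'.2⟩, hx'.1.1⟩
      by_contra hne
      exact h1.disj x hxc x' hxc' hne y hy.1 hy.2.1 hy'.2.1 (hy.2.2.trans hy'.2.2.symm)
  obtain ⟨Q, hQ⟩ : ∃ Q : Finset V, Q = N1.filter (fun y => ¬ ∃ x ∈ cls p (A0 \ A1) 0,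
    H.Adj x y ∧ π1 x y = b) := ⟨_, rfl⟩
  have hQal : ∀ y, y ∈ Q ↔ al1 p H A0 A1 A2 π1 y b := by
    intro y
    rw [hQ, Finset.mem_filter, hm1]
    unfold al1
    constructor
    · rintro ⟨⟨h1', h2'⟩, h3'⟩
      refine ⟨h1', hb2, h2'.symm, fun h => hbA2 h.2, ?_⟩
      intro x hx hxy hπ
      exact h3' ⟨x, hx, hxy, hπ⟩
    · rintro ⟨h1', -, h2', -, h3'⟩
      refine ⟨⟨h1', h2'.symm⟩, ?_⟩
      rintro ⟨x, hx, hxy, hπ⟩
      exact h3' x hx hxy hπ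
  have hsplit1 : U1.card + Q.card = N1.card := by
    rw [hU1, hQ]
    exact Finset.card_filter_add_card_filter_not _
  obtain ⟨R, hR⟩ : ∃ R : Finset V, R = N0.filter (fun x => ¬ x ∉ A1) := ⟨_, rfl⟩
  have hsplit0 : S1.card + R.card = N0.card := by
    rw [hS1, hR]
    exact Finset.card_filter_add_card_filter_not _
  have hRm : ∀ x, x ∈ R ↔ (p x = 0 ∧ H.Adj b x) ∧ x ∈ A1 := by
    intro x
    rw [hR, Finset.mem_filter, hm0, not_not]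
  have hQR : Q.card = R.card := by omega
  -- second step
  obtain ⟨S2, hS2⟩ : ∃ S : Finset V, S = Q.filter (fun y => y ∉ A1) := ⟨_, rfl⟩
  obtain ⟨U2, hU2⟩ : ∃ U : Finset V, U = R.filter (fun x => ∃ y ∈ cls p (A0 \ A1) 1,
    H.Adj x y ∧ π2 y x = b) := ⟨_, rfl⟩
  have hyc : ∀ y ∈ S2, y ∈ cls p (A0 \ A1) 1 ∧ al1 p H A0 A1 A2 π1 y b := by
    intro y hy
    rw [hS2, Finset.mem_filter, hQal] at hy
    refine ⟨?_, hy.1⟩
    rw [hcls, Finset.mem_sdiff]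
    exact ⟨⟨hin0 y hy.1.2.2.1.symm, hy.2⟩, hy.1.1⟩
  have hcard2 : S2.card = U2.card := by
    apply rdc_card_rel S2 U2 (fun y x => (p x = 0 ∧ x ∈ A1 ∧ H.Adj x y) ∧ π2 y x = b)
    · intro y hy
      obtain ⟨hyc1, hal⟩ := hyc y hy
      obtain ⟨x, hx, hπ⟩ := (h2.bij y hyc1).surjOn (show b ∈ {b | al1 p H A0 A1 A2 π1 y b} from hal)
      have hx' : p x = 0 ∧ x ∈ A1 ∧ H.Adj x y := hx
      have hxb := (h2.mem y hyc1 x (by rw [hcls]; exact ⟨hx'.2.1, hx'.1⟩) hx'.2.2).1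
      rw [hπ] at hxb
      refine ⟨x, ?_, hx', hπ⟩
      rw [hU2, Finset.mem_filter, hRm]
      exact ⟨⟨⟨hx'.1, hxb.symm⟩, hx'.2.1⟩, y, hyc1, hx'.2.2, hπ⟩
    · intro x hx
      rw [hU2, Finset.mem_filter, hRm] at hx
      obtain ⟨⟨⟨hx0, hxb⟩, hx1⟩, y, hyc1, hxy, hπ⟩ := hx
      have hal := (h2.bij y hyc1).mapsTo (show x ∈ {x | p x = 0 ∧ x ∈ A1 ∧ H.Adj x y} from
        ⟨hx0, hx1, hxy⟩)
      rw [hπ] at hal
      refine ⟨y, ?_, ⟨hx0, hx1, hxy⟩, hπ⟩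
      rw [hS2, Finset.mem_filter, hQal]
      refine ⟨hal, ?_⟩
      rw [hcls, Finset.mem_sdiff] at hyc1
      exact hyc1.1.2
    · intro y hy x _ x' _ hx hx'
      exact (h2.bij y (hyc y hy).1).injOn hx.1 hx'.1 (hx.2.trans hx'.2.symm)
    · intro y hy y' hy' x _ hx hx'
      by_contra hne
      exact h2.disj y (hyc y hy).1 y' (hyc y' hy').1 hne x (by rw [hcls]; exact ⟨hx.1.2.1, hx.1.1⟩)
        hx.1.2.2 hx'.1.2.2 (hx.2.trans hx'.2.symm)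
  obtain ⟨W, hW⟩ : ∃ W : Finset V, W = R.filter (fun x => ¬ ∃ y ∈ cls p (A0 \ A1) 1,
    H.Adj x y ∧ π2 y x = b) := ⟨_, rfl⟩
  have hsplit2 : U2.card + W.card = R.card := by
    rw [hU2, hW]
    exact Finset.card_filter_add_card_filter_not _
  obtain ⟨T, hT⟩ : ∃ T : Finset V, T = Q.filter (fun y => ¬ y ∉ A1) := ⟨_, rfl⟩
  have hsplit3 : S2.card + T.card = Q.card := by
    rw [hS2, hT]
    exact Finset.card_filter_add_card_filter_not _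
  have hWT : W.card = T.card := by omega
  have hL1 : (cls p A1 0).filter (fun x => al2 p H A0 A1 A2 π2 x b) = W := by
    ext x
    rw [Finset.mem_filter, hcls, hW, Finset.mem_filter, hRm]
    unfold al2
    constructor
    · rintro ⟨⟨h1', h2'⟩, -, -, -, h3', -, h4'⟩
      refine ⟨⟨⟨h2', h3'.symm⟩, h1'⟩, ?_⟩
      rintro ⟨y, hy, hxy, hπ⟩
      exact h4' y hy hxy hπ
    · rintro ⟨⟨⟨h1', h2'⟩, h3'⟩, h4'⟩
      refine ⟨⟨h3', h1'⟩, h1', hb2, h3', h2'.symm, fun h => hbA2 h.2, ?_⟩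
      intro y hy hxy hπ
      exact h4' ⟨y, hy, hxy, hπ⟩
  have hR1 : (cls p A1 1).filter (fun y => al1 p H A0 A1 A2 π1 y b) = T := by
    ext y
    rw [Finset.mem_filter, hcls, hT, Finset.mem_filter, hQal, not_not]
    constructor
    · rintro ⟨⟨h1', -⟩, h2'⟩
      exact ⟨h2', h1'⟩
    · rintro ⟨h1', h2'⟩
      exact ⟨⟨h2', h1'.1⟩, h1'⟩
  rw [hL1, hR1, hWT]

end Pool.Agent.Lib.TriD
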