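import Pool.Agent.Lib.TriD.RdS1
import Pool.Agent.Lib.TriD.Bad
import Pool.Agent.Lib.TriD.RdC0
import Pool.Agent.Lib.TriD.RDefs
import Pool.Agent.Lib.TriD.RdB0

set_option autoImplicit false

/-!
MODULE RdC1 (about 300 lines). The hypotheses of the round lemma for round 3.

`X = cls p (A0 \ A1) 2` (symbols `b`), `Y = cls p A1 0` (rows `x`), `Z = cls p A1 1` (columns `y`), `E0` = pairs of `Y × Z` not both in `A2` (they are
edges of `H`: `Host.cells`, `Level.full`), `Yx b = {x | al2 x b}`, `Zx b = {y ∈ A1 | al1 y b}`, weights `w3 b x y`, constant `cR c δ = c^4 δ^2 / 10^4`, scale `2 s`,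
error `64 ε / (c δ)`. Write `S1 = S1 y b`, `S2 = S2 x b`.

PROOF. Sizes: `cnt_size` (`cls p A0 2` for `X`), `(1 + ξ) s ≤ 2 s`. `card`: `card3`.
(F) for `al1 y b`: `c δ / 16 ≤ S1 ≤ 1` (`s1_facts`). (G) for `x ∈ cls p A1 0`, `b ∈ X`, `H.Adj x b`: `w2 y x b` (`y ∈ cls p (A0 \ A1) 1`) is `ω x y b / S1` if
`al1 y b`, else `0`; so by `tb0` (`h1`) and `row_mass`: `| S2 - m | ≤ ε` with `m = ∑ y ∈ cls p A1 1, ω x y b ≥ c δ / 16`; hence `S2 ≥ c δ / 32`; `S2 ≤ 1`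
because `w2 ≥ 0` (`frac_nonneg`).
`w0`: if `b ∈ X`, `al2 x b`, `y ∈ A1`, `al1 y b` and `(x, y) ∉ E0` then `x, y ∈ A2`, the triangle is not allowed and `ω x y b = 0` (`hω.supp`).
`w1`: the triangle is allowed (`b ∉ A1`, `x, y` not both in `A2`): `w3 ≥ ω ≥ δ/(2s) ≥ cR/(2s)` and `w3 ≤ 5/(c s) * (16/(c δ)) * (32/(c δ)) =
2560/(c^3 δ^2 s) ≤ 1/(cR * 2 s)`.
`sumY` (`al2 x b`): `∑ y ∈ Z, w3 b x y = (1/S2) ∑ y ∈ cls p A1 1, al1 y b, ω / S1`, by `tb1` the sum is within `ε` of `m`, so within `2 ε` of `S2`; divide by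
`S2 ≥ c δ / 32`. `sumZ` (`al1 y b`, `y ∈ A1`): this is `h2.ug` (`al2 x b` implies `x ∈ cls p A1 0`), `ε ≤ 64 ε / (c δ)`.
`haz`: `(x, y) ∈ E0`: `∑ b ∈ X, w3 b x y` is the sum in `h2.uh`, so `≤ 11/10 δ + ε ≤ 1 - cR`.
`comY`: all `x, x' ∈ Yx b` are good: the `y ∈ A1 \ A2` with `al1 y b` are common `E0`-neighbours, their number is by `h1.te` and `good_one` (`v = b`, `j = 1`) at least
`c δ / 16 * (c^3 / 8 * s) - ε s ≥ cR * (2 s)`. So the filter is empty. `comZ`: the same with `h2.uj` and `good_one` (`j = 0`): `c δ / 32 * (c^3 / 8 * s) - ε s ≥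
cR * (2 s)` (`ε ≤ c^4 δ / 1000`, `δ ≤ 1`).
-/

open scoped Classical

noncomputable section

namespace Pool.Agent.Lib.TriD

variable {V : Type} [Fintype V]

private theorem four_le {α : Type} {S : Finset α} {P : α → Prop} [DecidablePred P] {n : ℕ}
    (h : ∀ a ∈ S, ¬ P a) : 4 * (S.filter P).card ≤ n := by
  rw [Finset.filter_eq_empty_iff.2 h]
  simp

private theorem c1_num {c ξ δ ε : ℝ} (hc : 0 < c) (hc1 : c < 1) (hδ : 0 < δ)
    (hδ1 : δ ≤ c ^ 11 / 10 ^ 9) (hξ1 : ξ ≤ c ^ 9 * δ / 10 ^ 6) (hε : ε ≤ c ^ 4 * δ / 512) :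
    δ ≤ 1 / 10 ^ 9 ∧ ξ ≤ 1 ∧ 2 * ξ + 12 * δ ≤ c ^ 3 / 16 ∧ ε ≤ c * δ / 64 ∧ c ^ 4 < 1 ∧
      cR c δ ≤ δ ∧ cR c δ < 1 / 10 ∧ ε < 1 / 10 := by
  have h4 : c ^ 4 < 1 := pow_lt_one₀ hc.le hc1 (by norm_num)
  have h40 : 0 < c ^ 4 := by positivity
  have h11 : c ^ 11 ≤ 1 := pow_le_one₀ hc.le hc1.le
  have h113 : c ^ 11 ≤ c ^ 3 := pow_le_pow_of_le_one hc.le hc1.le (by norm_num)
  have h9 : c ^ 9 ≤ 1 := pow_le_one₀ hc.le hc1.le
  have h41 : c ^ 4 ≤ c := by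
    calc c ^ 4 ≤ c ^ 1 := pow_le_pow_of_le_one hc.le hc1.le (by norm_num)
      _ = c := pow_one c
  have hd : δ ≤ 1 / 10 ^ 9 := hδ1.trans (div_le_div_of_nonneg_right h11 (by norm_num))
  have hd3 : δ ≤ c ^ 3 / 10 ^ 9 := hδ1.trans (div_le_div_of_nonneg_right h113 (by norm_num))
  have hx : ξ ≤ δ / 10 ^ 6 := by
    refine hξ1.trans (div_le_div_of_nonneg_right ?_ (by norm_num))
    nlinarith
  have hδ' : δ < 1 := lt_of_le_of_lt hd (by norm_num)
  have hcd : c ^ 4 * δ ≤ c * δ := mul_le_mul_of_nonneg_right h41 hδ.le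
  have hcd1 : c ^ 4 * δ ≤ δ := by nlinarith
  have hcR : cR c δ ≤ δ := by
    unfold cR
    have h1 : c ^ 4 * δ ^ 2 ≤ δ := by
      have : c ^ 4 * δ ^ 2 = (c ^ 4 * δ) * δ := by ring
      rw [this]
      nlinarith
    rw [div_le_iff₀ (by norm_num)]
    nlinarith
  have h30 : 0 < c ^ 3 := by positivity
  have hd' : δ ≤ 1 / 1000000000 := by
    norm_num at hd
    exact hd
  have hd3' : δ ≤ c ^ 3 / 1000000000 := by
    norm_num at hd3
    exact hd3
  have hx' : ξ ≤ δ / 1000000 := by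
    norm_num at hx
    exact hx
  refine ⟨hd, ?_, ?_, ?_, h4, hcR, ?_, ?_⟩
  · linarith
  · linarith
  · have : 0 < c * δ := by positivity
    linarith
  · linarith
  · linarith

theorem rhyp3 {p : V → Fin 3} {G H : SimpleGraph V} {c K s ξ δ ε : ℝ} {A0 A1 A2 A3 : Finset V}
    {ω : V → V → V → ℝ} {π1 π2 : V → V → V} (hG : Host p G c K)
    (hL : Level p G H s ξ δ A0 A1 A2 A3) (hω : FracW p H A1 A2 c s δ ω) (hc : 0 < c) (hc1 : c < 1)
    (hK : 0 ≤ K) (hξ : 0 ≤ ξ) (hδ : 0 < δ) (hδ1 : δ ≤ c ^ 11 / 10 ^ 9)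
    (hξ1 : ξ ≤ c ^ 9 * δ / 10 ^ 6) (hs1 : 1 ≤ s) (hε : 0 ≤ ε) (hε1 : ε ≤ c ^ 4 * δ / 1000)
    (h1 : R1Out p H A0 A1 A2 A3 ω c s δ ε π1) (h2 : R2Out p H A0 A1 A2 A3 ω c s δ ε π1 π2) :
    RHyp (cls p (A0 \ A1) 2) (cls p A1 0) (cls p A1 1)
      ((cls p A1 0 ×ˢ cls p A1 1).filter (fun e => ¬ (e.1 ∈ A2 ∧ e.2 ∈ A2)))
      (fun b => (cls p A1 0).filter (fun x => al2 p H A0 A1 A2 π2 x b))
      (fun b => (cls p A1 1).filter (fun y => al1 p H A0 A1 A2 π1 y b))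
      (fun b x y => w3 p H A0 A1 A2 ω π1 π2 b x y) (cR c δ) (2 * s) (64 * ε / (c * δ)) := by
  have hε0 : 0 ≤ ε := hε
  replace hε : ε ≤ c ^ 4 * δ / 512 := by
    refine hε1.trans ?_
    have h0 : 0 < c ^ 4 * δ := by positivity
    linarith
  clear hε1
  obtain ⟨hd9, hx1, hsm, hε2, hc4, hcR1, hcR2, hε1⟩ := c1_num hc hc1 hδ hδ1 hξ1 hε
  have hs : 0 < s := hL.s0
  have hd0 : δ < 1 := lt_of_le_of_lt hd9 (by norm_num)
  have hcR0 : 0 < cR c δ := by unfold cR; positivity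
  have hcd : 0 < c * δ := by positivity
  have mE : ∀ x y, (x, y) ∈ ((cls p A1 0 ×ˢ cls p A1 1).filter
      (fun e : V × V => ¬ (e.1 ∈ A2 ∧ e.2 ∈ A2))) ↔
      ((x ∈ A1 ∧ p x = 0) ∧ (y ∈ A1 ∧ p y = 1)) ∧ ¬ (x ∈ A2 ∧ y ∈ A2) := by
    intro x y
    simp only [cls, Finset.mem_filter, Finset.mem_product]
  have mX : ∀ b, b ∈ cls p (A0 \ A1) 2 ↔ (b ∈ A0 ∧ b ∉ A1) ∧ p b = 2 := by
    intro b
    simp only [cls, Finset.mem_filter, Finset.mem_sdiff]
  have mY : ∀ b x, x ∈ (cls p A1 0).filter (fun x => al2 p H A0 A1 A2 π2 x b) ↔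
      al2 p H A0 A1 A2 π2 x b := by
    intro b x
    simp only [cls, Finset.mem_filter]
    constructor
    · exact fun h => h.2
    · exact fun h => ⟨⟨h.2.2.1, h.1⟩, h⟩
  have mZ : ∀ b y, y ∈ (cls p A1 1).filter (fun y => al1 p H A0 A1 A2 π1 y b) ↔
      y ∈ A1 ∧ al1 p H A0 A1 A2 π1 y b := by
    intro b y
    simp only [cls, Finset.mem_filter]
    constructor
    · exact fun h => ⟨h.1.1, h.2⟩
    · exact fun h => ⟨⟨h.1, h.2.1⟩, h.2⟩
  have hf1 : ∀ {y b : V}, al1 p H A0 A1 A2 π1 y b →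
      c * δ / 16 ≤ S1 p A0 A1 ω y b ∧ S1 p A0 A1 ω y b ≤ 1 := by
    intro y b h
    have := s1_facts hG hL hω hc hc1 hξ hδ hδ1 hξ1 h.1 h.2.1 h.2.2.1
    exact ⟨this.1, this.2.1⟩
  have hf2 : ∀ {x b : V}, al2 p H A0 A1 A2 π2 x b →
      c * δ / 32 ≤ S2 p H A0 A1 A2 ω π1 x b ∧ S2 p H A0 A1 A2 ω π1 x b ≤ 1 ∧
      (b ∉ A1 → |S2 p H A0 A1 A2 ω π1 x b - ∑ y ∈ cls p A1 1, ω x y b| ≤ ε) := by
    intro x b h
    have := s2_facts hG hL hω hc hc1 hξ hδ hδ1 hξ1 hε2 h1 h.1 h.2.1 h.2.2.1 h.2.2.2.1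
    exact ⟨this.1, this.2.1, this.2.2.1⟩
  have hcard := fun j => cnt_size hG hL j
  have hεl : ε ≤ 64 * ε / (c * δ) := by
    rw [le_div_iff₀ hcd]
    have : c * δ ≤ 1 := by nlinarith
    nlinarith
  have hbig : 2 * cR c δ ≤ c ^ 4 * δ / 512 := by
    unfold cR
    have h1 : c ^ 4 * δ ^ 2 ≤ c ^ 4 * δ / 10 ^ 9 := by
      have : c ^ 4 * δ ^ 2 = c ^ 4 * δ * δ := by ring
      rw [this, div_eq_mul_one_div]
      exact mul_le_mul_of_nonneg_left hd9 (by positivity)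
    have h2 : 0 < c ^ 4 * δ := by positivity
    norm_num at h1 ⊢
    linarith
  have hgood : ∀ b ∈ cls p (A0 \ A1) 2, ∀ j : Fin 3, j ≠ 2 →
      c ^ 3 / 8 * s ≤ ((cls p (A1 \ A2) j).filter (fun z => H.Adj z b)).card := by
    intro b hb j hj
    rw [mX] at hb
    have h := (good_one hG hL hc hc1 hξ hδ.le hsm hb.1.1 (j := j) (by rw [hb.2]; exact hj)).2
    refine h.trans (le_of_eq ?_)
    congr 2
    ext z
    simp only [Finset.mem_filter, H.adj_comm b z]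
  have hcol : ∀ b ∈ cls p (A0 \ A1) 2, cR c δ * (2 * s) ≤
      ((cls p (A1 \ A2) 1).filter (fun y => al1 p H A0 A1 A2 π1 y b)).card := by
    intro b hb
    have h3 := h1.te b hb
    have h4 := hgood b hb 1 (by decide)
    have h5 : c * δ / 16 * (c ^ 3 / 8 * s) ≤ c * δ / 16 *
        (((cls p (A1 \ A2) 1).filter (fun z => H.Adj z b)).card : ℝ) :=
      mul_le_mul_of_nonneg_left h4 (by positivity)
    have h6 : c * δ / 16 * (c ^ 3 / 8 * s) = c ^ 4 * δ / 128 * s := by ring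
    have h7 : ε * s ≤ c ^ 4 * δ / 512 * s := mul_le_mul_of_nonneg_right hε hs.le
    have h8 : 2 * cR c δ * s ≤ c ^ 4 * δ / 512 * s := mul_le_mul_of_nonneg_right hbig hs.le
    have h9 : 0 < c ^ 4 * δ * s := by positivity
    nlinarith
  have hrow : ∀ b ∈ cls p (A0 \ A1) 2, cR c δ * (2 * s) ≤
      ((cls p (A1 \ A2) 0).filter (fun x => al2 p H A0 A1 A2 π2 x b)).card := by
    intro b hb
    have h3 := h2.uj b hb
    have h4 := hgood b hb 0 (by decide)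
    have h5 : c * δ / 32 * (c ^ 3 / 8 * s) ≤ c * δ / 32 *
        (((cls p (A1 \ A2) 0).filter (fun z => H.Adj z b)).card : ℝ) :=
      mul_le_mul_of_nonneg_left h4 (by positivity)
    have h6 : c * δ / 32 * (c ^ 3 / 8 * s) = c ^ 4 * δ / 256 * s := by ring
    have h7 : ε * s ≤ c ^ 4 * δ / 512 * s := mul_le_mul_of_nonneg_right hε hs.le
    have h8 : 2 * cR c δ * s ≤ c ^ 4 * δ / 512 * s := mul_le_mul_of_nonneg_right hbig hs.le
    have h9 : 0 < c ^ 4 * δ * s := by positivity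
    nlinarith
  refine ⟨hcR0, by linarith, by linarith, by positivity, ?_, ?_, ?_, ?_, ?_, ?_, ?_, ?_, ?_, ?_,
    ?_, ?_, ?_, ?_⟩
  · have h3 : (cls p (A0 \ A1) 2).card ≤ (cls p A0 2).card := by
      apply Finset.card_le_card
      intro z hz
      simp only [cls, Finset.mem_filter, Finset.mem_sdiff] at hz ⊢
      exact ⟨hz.1.1, hz.2⟩
    have h4 : ((cls p (A0 \ A1) 2).card : ℝ) ≤ (cls p A0 2).card := by exact_mod_cast h3
    have h5 := (hcard 2).1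
    have h6 : (1 + ξ) * s ≤ 2 * s := mul_le_mul_of_nonneg_right (by linarith) hs.le
    linarith
  · have h5 := (hcard 0).2.1
    have h6 : (1 / 4 + ξ) * s ≤ 2 * s := mul_le_mul_of_nonneg_right (by linarith) hs.le
    linarith
  · have h5 := (hcard 1).2.1
    have h6 : (1 / 4 + ξ) * s ≤ 2 * s := mul_le_mul_of_nonneg_right (by linarith) hs.le
    linarith
  · exact fun b _ => Finset.filter_subset _ _
  · exact fun b _ => Finset.filter_subset _ _
  · exact fun b hb => card3 hL h1 h2 hb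
  · exact Finset.filter_subset _ _
  · intro b x y h
    unfold w3
    split_ifs with h3
    · by_cases h4 : x ∈ A2 ∧ y ∈ A2
      · have h5 : ω x y b = 0 := by
          by_contra h6
          exact (hω.supp x y b h6).2.2.1 h4
        rw [h5, zero_div]
      · exact absurd ⟨h3.1, (mY b x).2 h3.2.1, (mZ b y).2 h3.2.2,
          (mE x y).2 ⟨⟨⟨h3.2.1.2.2.1, h3.2.1.1⟩, h3.2.2.1, h3.2.2.2.1⟩, h4⟩⟩ h
    · rfl
  · intro b hb x hx y hy hxy
    have hb' := (mX b).1 hb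
    rw [mY] at hx
    rw [mZ] at hy
    rw [mE] at hxy
    have hbA2 : b ∉ A2 := fun h => hb'.1.2 (hL.sub2 h)
    have hall : Allow p H A1 A2 x y b := by
      refine ⟨⟨hx.1, hy.2.1, hb'.2, hL.full x y hx.2.2.1 hy.1 (hG.cells x y hx.1 hy.2.1),
        hx.2.2.2.1, hy.2.2.2.1⟩, fun h => hb'.1.2 h.2.2, hxy.2, fun h => hbA2 h.2,
        fun h => hbA2 h.2⟩
    have e1 := hω.lb x y b hall
    have e2 := hω.ub x y b
    obtain ⟨a1, a2⟩ := hf1 hy.2
    obtain ⟨b1, b2, -⟩ := hf2 hx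
    have hw : w3 p H A0 A1 A2 ω π1 π2 b x y =
        ω x y b / (S1 p A0 A1 ω y b * S2 p H A0 A1 A2 ω π1 x b) := by
      unfold w3
      rw [if_pos ⟨hb, hx, hy.1, hy.2⟩]
    rw [hw]
    set u := S1 p A0 A1 ω y b
    set v := S2 p H A0 A1 A2 ω π1 x b
    have hu0 : 0 < u := lt_of_lt_of_le (by positivity) a1
    have hv0 : 0 < v := lt_of_lt_of_le (by positivity) b1
    have huv : 0 < u * v := mul_pos hu0 hv0
    have huv1 : u * v ≤ 1 := by nlinarith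
    have huv2 : c * δ / 16 * (c * δ / 32) ≤ u * v :=
      mul_le_mul a1 b1 (by positivity) hu0.le
    constructor
    · rw [le_div_iff₀ huv]
      have h3 : cR c δ / (2 * s) ≤ δ / (2 * s) :=
        div_le_div_of_nonneg_right hcR1 (by positivity)
      have h4 : cR c δ / (2 * s) * (u * v) ≤ cR c δ / (2 * s) * 1 :=
        mul_le_mul_of_nonneg_left huv1 (by positivity)
      linarith
    · rw [div_le_iff₀ huv]
      have h3 : 1 / (cR c δ * (2 * s)) * (c * δ / 16 * (c * δ / 32)) ≤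
          1 / (cR c δ * (2 * s)) * (u * v) :=
        mul_le_mul_of_nonneg_left huv2 (by positivity)
      have h4 : 1 / (cR c δ * (2 * s)) * (c * δ / 16 * (c * δ / 32)) =
          10 ^ 4 / 1024 / (c ^ 2 * s) := by
        unfold cR
        field_simp
        norm_num
      have h5 : 5 / (c * s) ≤ 10 ^ 4 / 1024 / (c ^ 2 * s) := by
        rw [div_le_div_iff₀ (by positivity) (by positivity)]
        have h6 : c ^ 2 * s ≤ c * s := mul_le_mul_of_nonneg_right (by nlinarith) hs.le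
        have h7 : 0 < c * s := by positivity
        norm_num
        nlinarith
      linarith
  · intro b hb x hx
    have hb' := (mX b).1 hb
    rw [mY] at hx
    obtain ⟨b1, b2, b3⟩ := hf2 hx
    have b4 := b3 hb'.1.2
    have hxc : x ∈ cls p A1 0 := by
      simp only [cls, Finset.mem_filter]
      exact ⟨hx.2.2.1, hx.1⟩
    have hbc : b ∈ cls p A0 2 := by
      simp only [cls, Finset.mem_filter]
      exact ⟨hb'.1.1, hb'.2⟩
    have h3 := h1.tb1 x hxc b hbc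
    have hsum : ∑ y ∈ cls p A1 1, w3 p H A0 A1 A2 ω π1 π2 b x y =
        (∑ y ∈ (cls p A1 1).filter (fun y => al1 p H A0 A1 A2 π1 y b),
          ω x y b / S1 p A0 A1 ω y b) / S2 p H A0 A1 A2 ω π1 x b := by
      rw [Finset.sum_div, Finset.sum_filter]
      refine Finset.sum_congr rfl fun y hy => ?_
      have hy' : y ∈ A1 := by
        simp only [cls, Finset.mem_filter] at hy
        exact hy.1
      unfold w3
      by_cases h4 : al1 p H A0 A1 A2 π1 y b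
      · rw [if_pos ⟨hb, hx, hy', h4⟩, if_pos h4, div_div]
      · rw [if_neg (fun h => h4 h.2.2.2), if_neg h4]
    rw [hsum]
    set N := ∑ y ∈ (cls p A1 1).filter (fun y => al1 p H A0 A1 A2 π1 y b),
      ω x y b / S1 p A0 A1 ω y b
    set v := S2 p H A0 A1 A2 ω π1 x b
    set a := ∑ y ∈ cls p A1 1, ω x y b
    have hv0 : 0 < v := lt_of_lt_of_le (by positivity) b1
    have h4 : N / v - 1 = (N - v) / v := by
      rw [sub_div, div_self hv0.ne']
    rw [h4, abs_div, abs_of_pos hv0, div_le_iff₀ hv0]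
    have h5 : |N - v| ≤ 2 * ε := by
      rw [abs_le] at h3 b4 ⊢
      constructor <;> linarith [h3.1, h3.2, b4.1, b4.2]
    have h6 : 64 * ε / (c * δ) * (c * δ / 32) ≤ 64 * ε / (c * δ) * v :=
      mul_le_mul_of_nonneg_left b1 (by positivity)
    have h7 : 64 * ε / (c * δ) * (c * δ / 32) = 2 * ε := by
      field_simp
      ring
    linarith
  · intro b hb y hy
    rw [mZ] at hy
    have hyc : y ∈ cls p A1 1 := by
      simp only [cls, Finset.mem_filter]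
      exact ⟨hy.1, hy.2.1⟩
    have h3 := h2.ug y hyc b hb hy.2
    have hsum : ∑ x ∈ cls p A1 0, w3 p H A0 A1 A2 ω π1 π2 b x y =
        ∑ x ∈ Finset.univ.filter (fun x => al2 p H A0 A1 A2 π2 x b),
          ω x y b / (S1 p A0 A1 ω y b * S2 p H A0 A1 A2 ω π1 x b) := by
      have h4 : Finset.univ.filter (fun x => al2 p H A0 A1 A2 π2 x b) =
          (cls p A1 0).filter (fun x => al2 p H A0 A1 A2 π2 x b) := by
        ext x
        rw [mY]
        simp only [Finset.mem_filter, Finset.mem_univ, true_and]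
      rw [h4, Finset.sum_filter]
      refine Finset.sum_congr rfl fun x hx => ?_
      unfold w3
      by_cases h5 : al2 p H A0 A1 A2 π2 x b
      · rw [if_pos ⟨hb, h5, hy.1, hy.2⟩, if_pos h5]
      · rw [if_neg (fun h => h5 h.2.1), if_neg h5]
    rw [hsum]
    exact h3.trans hεl
  · intro x y hxy
    rw [mE] at hxy
    have hxc : x ∈ cls p A1 0 := by
      simp only [cls, Finset.mem_filter]
      exact hxy.1.1
    have hyc : y ∈ cls p A1 1 := by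
      simp only [cls, Finset.mem_filter]
      exact hxy.1.2
    have h3 := h2.uh x hxc y hyc
    have hsum : ∑ b ∈ cls p (A0 \ A1) 2, w3 p H A0 A1 A2 ω π1 π2 b x y =
        ∑ b ∈ (cls p (A0 \ A1) 2).filter (fun b =>
          al2 p H A0 A1 A2 π2 x b ∧ al1 p H A0 A1 A2 π1 y b),
          ω x y b / (S1 p A0 A1 ω y b * S2 p H A0 A1 A2 ω π1 x b) := by
      rw [Finset.sum_filter]
      refine Finset.sum_congr rfl fun b hb => ?_
      unfold w3
      by_cases h5 : al2 p H A0 A1 A2 π2 x b ∧ al1 p H A0 A1 A2 π1 y b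
      · rw [if_pos ⟨hb, h5.1, hxy.1.2.1, h5.2⟩, if_pos h5]
      · rw [if_neg (fun h => h5 ⟨h.2.1, h.2.2.2⟩), if_neg h5]
    rw [hsum]
    norm_num at hd9
    linarith
  · intro b hb x hx
    rw [mY] at hx
    refine four_le fun x' hx' => ?_
    rw [mY] at hx'
    rw [not_lt]
    refine (hcol b hb).trans ?_
    norm_cast
    apply Finset.card_le_card
    intro y hy
    have hy' : ((y ∈ A1 ∧ y ∉ A2) ∧ p y = 1) ∧ al1 p H A0 A1 A2 π1 y b := by
      simpa only [cls, Finset.mem_filter, Finset.mem_sdiff] using hy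
    rw [Finset.mem_filter, mZ, mE, mE]
    exact ⟨⟨hy'.1.1.1, hy'.2⟩, ⟨⟨⟨hx.2.2.1, hx.1⟩, hy'.1.1.1, hy'.1.2⟩, fun h => hy'.1.1.2 h.2⟩,
      ⟨⟨⟨hx'.2.2.1, hx'.1⟩, hy'.1.1.1, hy'.1.2⟩, fun h => hy'.1.1.2 h.2⟩⟩
  · intro b hb y hy
    rw [mZ] at hy
    refine four_le fun y' hy' => ?_
    rw [mZ] at hy'
    rw [not_lt]
    refine (hrow b hb).trans ?_
    norm_cast
    apply Finset.card_le_card
    intro x hx
    have hx' : ((x ∈ A1 ∧ x ∉ A2) ∧ p x = 0) ∧ al2 p H A0 A1 A2 π2 x b := by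
      simpa only [cls, Finset.mem_filter, Finset.mem_sdiff] using hx
    rw [Finset.mem_filter, mY, mE, mE]
    exact ⟨hx'.2, ⟨⟨⟨hx'.1.1.1, hx'.1.2⟩, hy.1, hy.2.1⟩, fun h => hx'.1.1.2 h.1⟩,
      ⟨⟨⟨hx'.1.1.1, hx'.1.2⟩, hy'.1, hy'.2.1⟩, fun h => hx'.1.1.2 h.1⟩⟩

end Pool.Agent.Lib.TriD
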