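import Pool.Agent.Lib.TriD.RdC1
import Pool.Agent.Lib.TriD.RdIdx

set_option autoImplicit false

/-!
MODULE RdC2 (about 250 lines). Round 3.

PROOF. `ε1 = ε / 2`, `(m0, e0)` from `round_idx (cR c δ) ε1` (`0 < cR < 1`), `ε' = min (min (c δ e0 / 64) (c^4 δ / 1000)) (δ / 10)`, `m = max m0 6` (the scale is
`2 s`). `rhyp3` with `ε'` gives `RHyp` with error `64 ε' / (c δ) ≤ e0`. Index types `ι = κ = {v // v ∈ A0} × Fin 3` (`card ≤ 3 * 3 (1 + ξ) s ≤ (2 s)^20`), tests at rows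
`x` (`ty`), `fy y = 1/(2s)` if `y ∈ Z` else `0`, and at columns `y` (`tz`), `fz x = 1/(2s)` if `x ∈ Z`, for the three sets `Z = A1 \ A2, A2 \ A3, A3` (all `⊆ A1`).
`round_idx` gives `π3`. `bij`: translate `Set.BijOn` on the finsets (`al2 x b` implies `p x = 0`, `x ∈ A1`; `al1 y b` implies `p y = 1`). `mem`, `disj`: clear.
`dead`: let `x ∈ cls p A1 0`. With `N` = number of `y ∈ cls p Z 1`, not both in `A2`, and `a` = number of those with `π3 b x ≠ y` for all `b ∈ X` with `al2 x b`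
(alive) the test times `2 s` reads `∑ alive, 1 / (1 - ∑ b ∈ X, w3 b x y) ≥ N - 2 s ε1`, and `1 - ∑ b ∈ X, w3 b x y ≥ 1 - 11/10 δ - ε' ≥ 1 - 12/10 δ > 0` by `h2.uh`
(the sum of `w3` over `b ∈ X` is the sum in `uh`). So `a ≥ (1 - 12/10 δ)(N - 2 s ε1) ≥ N - 12/10 δ N - ε s`, the dead ones are `N - a`, `N ≤ card (cls p Z 1)`.
Columns `y ∈ cls p A1 1` in the same way.
-/

open scoped Classical

noncomputable section

namespace Pool.Agent.Lib.TriD

private theorem rdc2_dead {V : Type} (Z Z' FA FE : Finset V) (E L : V → Prop) (W f : V → ℝ)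
    {s D ε : ℝ} (hs : 0 < s) (hD : D < 1) (hD0 : 0 ≤ D) (hε : 0 ≤ ε) (hZ : Z' ⊆ Z)
    (hf : ∀ z ∈ Z, f z = if z ∈ Z' then 1 / (2 * s) else 0)
    (hW : ∀ z ∈ Z, E z → W z ≤ D)
    (hFA : ∀ z, z ∈ FA ↔ z ∈ Z ∧ E z ∧ L z) (hFE : ∀ z, z ∈ FE ↔ z ∈ Z ∧ E z)
    (h : |∑ z ∈ FA, f z / (1 - W z) - ∑ z ∈ FE, f z| ≤ ε / 2) :
    ((Z'.filter (fun z => E z ∧ ¬ L z)).card : ℝ) ≤ D * Z'.card + ε * s := by
  have eFA : FA = Z.filter (fun z => E z ∧ L z) := by
    ext z; rw [hFA, Finset.mem_filter]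
  have eFE : FE = Z.filter (fun z => E z) := by
    ext z; rw [hFE, Finset.mem_filter]
  rw [eFA, eFE] at h
  have hsub : ∀ P : V → Prop, (Z.filter P).filter (fun z => z ∈ Z') = Z'.filter P := by
    intro P
    ext z
    simp only [Finset.mem_filter]
    constructor
    · rintro ⟨⟨_, h2⟩, h3⟩
      exact ⟨h3, h2⟩
    · rintro ⟨h1, h2⟩
      exact ⟨⟨hZ h1, h2⟩, h1⟩
  have hN : ∑ z ∈ Z.filter (fun z => E z), f z =
      (Z'.filter (fun z => E z)).card * (1 / (2 * s)) := by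
    rw [← hsub, ← nsmul_eq_mul, ← Finset.sum_const, Finset.sum_filter (fun z => z ∈ Z')]
    refine Finset.sum_congr rfl fun z hz => hf z (Finset.mem_filter.1 hz).1
  have hA : ∑ z ∈ Z.filter (fun z => E z ∧ L z), f z / (1 - W z) ≤
      (Z'.filter (fun z => E z ∧ L z)).card * (1 / (2 * s) / (1 - D)) := by
    have e : (Z'.filter (fun z => E z ∧ L z)) =
        (Z.filter (fun z => E z ∧ L z)).filter (fun z => z ∈ Z') := by
      ext z
      simp only [Finset.mem_filter]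
      constructor
      · rintro ⟨h1, h2⟩
        exact ⟨⟨hZ h1, h2⟩, h1⟩
      · rintro ⟨⟨_, h2⟩, h3⟩
        exact ⟨h3, h2⟩
    rw [e, ← nsmul_eq_mul, ← Finset.sum_const, Finset.sum_filter (fun z => z ∈ Z')]
    refine Finset.sum_le_sum fun z hz => ?_
    obtain ⟨hz1, hz2, -⟩ := Finset.mem_filter.1 hz
    rw [hf z hz1]
    split_ifs with h1
    · have h2 := hW z hz1 hz2
      exact div_le_div_of_nonneg_left (by positivity) (by linarith) (by linarith)
    · rw [zero_div]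
  have hcard : (Z'.filter (fun z => E z)).card =
      (Z'.filter (fun z => E z ∧ L z)).card + (Z'.filter (fun z => E z ∧ ¬ L z)).card := by
    rw [← Finset.filter_filter, ← Finset.filter_filter]
    exact (Finset.card_filter_add_card_filter_not _).symm
  have hcle : (Z'.filter (fun z => E z)).card ≤ Z'.card := Finset.card_filter_le _ _
  have hcardR : ((Z'.filter (fun z => E z)).card : ℝ) =
      (Z'.filter (fun z => E z ∧ L z)).card + (Z'.filter (fun z => E z ∧ ¬ L z)).card := by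
    exact_mod_cast hcard
  have hcleR : ((Z'.filter (fun z => E z)).card : ℝ) ≤ Z'.card := by exact_mod_cast hcle
  set N : ℝ := ((Z'.filter (fun z => E z)).card : ℝ) with hNdef
  set a : ℝ := ((Z'.filter (fun z => E z ∧ L z)).card : ℝ) with hadef
  set d : ℝ := ((Z'.filter (fun z => E z ∧ ¬ L z)).card : ℝ) with hddef
  rw [abs_le] at h
  have h1 : N * (1 / (2 * s)) - a * (1 / (2 * s) / (1 - D)) ≤ ε / 2 := by
    rw [hN] at h
    linarith [h.1]
  have hD1 : 0 < 1 - D := by linarith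
  have h2 : N * (1 - D) - a ≤ ε * s * (1 - D) := by
    have h3 : N * (1 - D) - a =
        (N * (1 / (2 * s)) - a * (1 / (2 * s) / (1 - D))) * (2 * s * (1 - D)) := by
      field_simp
    rw [h3]
    calc _ ≤ ε / 2 * (2 * s * (1 - D)) := mul_le_mul_of_nonneg_right h1 (by positivity)
      _ = _ := by ring
  have h4 : ε * s * (1 - D) ≤ ε * s := by
    have : 0 ≤ ε * s * D := by positivity
    nlinarith
  have h5 : D * N ≤ D * Z'.card := mul_le_mul_of_nonneg_left hcleR hD0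
  nlinarith

private theorem rdc2_small {c δ : ℝ} (hc : 0 < c) (hc1 : c < 1) (hδ : 0 < δ)
    (hδ1 : δ ≤ c ^ 11 / 10 ^ 9) : δ ≤ 1 / 10 ^ 9 ∧ 0 < cR c δ ∧ cR c δ < 1 := by
  have h11 : c ^ 11 ≤ 1 := pow_le_one₀ hc.le hc1.le
  have h1 : δ ≤ 1 / 10 ^ 9 := hδ1.trans (div_le_div_of_nonneg_right h11 (by norm_num))
  refine ⟨h1, by unfold cR; positivity, ?_⟩
  unfold cR
  have h2 : c ^ 4 ≤ 1 := pow_le_one₀ hc.le hc1.le
  have h3 : δ ^ 2 ≤ 1 := by
    apply pow_le_one₀ hδ.le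
    refine h1.trans (by norm_num)
  have h4 : c ^ 4 * δ ^ 2 ≤ 1 * 1 := mul_le_mul h2 h3 (by positivity) (by norm_num)
  rw [div_lt_one (by norm_num)]
  norm_num at h4 ⊢
  linarith

private theorem rdc2_card {V : Type} [Fintype V] {p : V → Fin 3} {G H : SimpleGraph V}
    {c K s ξ δ : ℝ} {A0 A1 A2 A3 : Finset V} (hG : Host p G c K)
    (hL : Level p G H s ξ δ A0 A1 A2 A3) (hξ : ξ ≤ 1) (hs : 1 ≤ s) :
    (Fintype.card ({v // v ∈ A0} × Fin 3) : ℝ) ≤ (2 * s) ^ 20 := by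
  have h0 : (A0.card : ℝ) = ∑ j : Fin 3, ((cls p A0 j).card : ℝ) := by
    have := Finset.card_eq_sum_card_fiberwise (f := p) (s := A0) (t := Finset.univ)
      (fun x _ => Finset.mem_coe.2 (Finset.mem_univ _))
    rw [this]
    push_cast
    rfl
  have h1 : (A0.card : ℝ) ≤ 6 * s := by
    rw [h0]
    have h2 : ∀ j ∈ (Finset.univ : Finset (Fin 3)), ((cls p A0 j).card : ℝ) ≤ 2 * s := by
      intro j _
      refine (cnt_size hG hL j).1.trans ?_
      nlinarith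
    refine (Finset.sum_le_sum h2).trans ?_
    simp
    linarith
  have h3 : (Fintype.card ({v // v ∈ A0} × Fin 3) : ℝ) = A0.card * 3 := by
    simp [Fintype.card_prod]
  rw [h3]
  have h4 : s ≤ s ^ 20 := le_self_pow₀ hs (by norm_num)
  have h5 : (2 * s) ^ 20 = 2 ^ 20 * s ^ 20 := by ring
  rw [h5]
  norm_num
  linarith

theorem roundC (c K δ ε : ℝ) (hc : 0 < c) (hc1 : c < 1) (hK : 0 ≤ K) (hδ : 0 < δ)
    (hδ1 : δ ≤ c ^ 11 / 10 ^ 9) (hε : 0 < ε) : ∃ ε' m : ℝ, 0 < ε' ∧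
    ∀ {V : Type} [Fintype V] {p : V → Fin 3} {G H : SimpleGraph V} {s ξ : ℝ} {A0 A1 A2 A3 : Finset V}
      {ω : V → V → V → ℝ} {π1 π2 : V → V → V}, Host p G c K → Level p G H s ξ δ A0 A1 A2 A3 →
      FracW p H A1 A2 c s δ ω → 0 ≤ ξ → ξ ≤ c ^ 9 * δ / 10 ^ 6 → m ≤ s →
      R1Out p H A0 A1 A2 A3 ω c s δ ε' π1 → R2Out p H A0 A1 A2 A3 ω c s δ ε' π1 π2 →
      ∃ π3 : V → V → V, R3Out p H A0 A1 A2 A3 s δ ε π1 π2 π3 := by
  obtain ⟨hδs, hcR0, hcR1⟩ := rdc2_small hc hc1 hδ hδ1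
  obtain ⟨m0, e0, hm0, he0, hround⟩ := round_idx (cR c δ) hcR0 hcR1 (ε / 2) (by positivity)
  refine ⟨min (min (c * δ * e0 / 64) (c ^ 4 * δ / 1000)) (δ / 10), max m0 6, by positivity, ?_⟩
  intro V _ p G H s ξ A0 A1 A2 A3 ω π1 π2 hG hL hω hξ hξ1 hms h1 h2
  obtain ⟨ε', hε'⟩ : ∃ ε', ε' = min (min (c * δ * e0 / 64) (c ^ 4 * δ / 1000)) (δ / 10) := ⟨_, rfl⟩
  rw [← hε'] at h1 h2
  have hε0 : 0 < ε' := by rw [hε']; positivity
  have hεa : ε' ≤ c * δ * e0 / 64 := by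
    rw [hε']; exact (min_le_left _ _).trans (min_le_left _ _)
  have hεb : ε' ≤ c ^ 4 * δ / 1000 := by
    rw [hε']; exact (min_le_left _ _).trans (min_le_right _ _)
  have hεc : ε' ≤ δ / 10 := by rw [hε']; exact min_le_right _ _
  have hs6 : 6 ≤ s := (le_max_right _ _).trans hms
  have hs1 : 1 ≤ s := by linarith
  have hsm : m0 ≤ 2 * s := by
    have := (le_max_left _ _).trans hms
    linarith
  have hs0 : 0 < s := by linarith
  have hV : Nonempty V := by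
    have h3 : (0:ℝ) < Fintype.card V := lt_of_lt_of_le hL.s0 hL.s1
    exact Fintype.card_pos_iff.1 (by exact_mod_cast h3)
  have hξ2 : ξ ≤ 1 := by
    have h9 : c ^ 9 ≤ 1 := pow_le_one₀ hc.le hc1.le
    refine hξ1.trans ?_
    have : c ^ 9 * δ ≤ 1 * 1 := mul_le_mul h9 (hδs.trans (by norm_num)) hδ.le (by norm_num)
    rw [div_le_one (by norm_num)]
    norm_num at this ⊢
    linarith
  have hR := rhyp3 hG hL hω hc hc1 hK hξ hδ hδ1 hξ1 hs1 hε0.le hεb h1 h2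
  have herr : 64 * ε' / (c * δ) ≤ e0 := by
    rw [div_le_iff₀ (by positivity)]
    linarith
  have hcard := rdc2_card hG hL hξ2 hs1
  have hfb : ∀ (Zs : Fin 3 → Finset V) (i : {v // v ∈ A0} × Fin 3) (z : V),
      |(if z ∈ Zs i.2 then 1 / (2 * s) else 0 : ℝ)| ≤ 1 / (2 * s) := by
    intro Zs i z
    split_ifs
    · rw [abs_of_nonneg (by positivity)]
    · rw [abs_zero]; positivity
  obtain ⟨π3, hbij, hmem, hdisj, hty, htz⟩ := hround _ _ _ _ _ _ _ _ _ hR hsm herr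
    ({v // v ∈ A0} × Fin 3) ({v // v ∈ A0} × Fin 3) hcard hcard
    (fun i => i.1.1) (fun i z => if z ∈ (![A1 \ A2, A2 \ A3, A3] : Fin 3 → Finset V) i.2
      then 1 / (2 * s) else 0)
    (fun i => i.1.1) (fun i z => if z ∈ (![A1 \ A2, A2 \ A3, A3] : Fin 3 → Finset V) i.2
      then 1 / (2 * s) else 0)
    (hfb _) (hfb _)
  have hal2 : ∀ {x b : V}, al2 p H A0 A1 A2 π2 x b → x ∈ cls p A1 0 := by
    intro x b h
    exact Finset.mem_filter.2 ⟨h.2.2.1, h.1⟩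
  have hYx : ∀ {x b : V}, (x ∈ (cls p A1 0).filter (fun x => al2 p H A0 A1 A2 π2 x b) ↔
      al2 p H A0 A1 A2 π2 x b) := by
    intro x b
    rw [Finset.mem_filter]
    exact ⟨fun h => h.2, fun h => ⟨hal2 h, h⟩⟩
  have hZx : ∀ {y b : V}, (y ∈ (cls p A1 1).filter (fun y => al1 p H A0 A1 A2 π1 y b) ↔
      y ∈ A1 ∧ al1 p H A0 A1 A2 π1 y b) := by
    intro y b
    simp only [cls, Finset.mem_filter]
    exact ⟨fun h => ⟨h.1.1, h.2⟩, fun h => ⟨⟨h.1, h.2.1⟩, h.2⟩⟩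
  have hD : 12 / 10 * δ < 1 := by
    have : (1:ℝ) / 10 ^ 9 ≤ 1 / 10 := by norm_num
    linarith
  -- hazard
  have hW : ∀ x ∈ cls p A1 0, ∀ y ∈ cls p A1 1,
      ∑ b ∈ cls p (A0 \ A1) 2, w3 p H A0 A1 A2 ω π1 π2 b x y ≤ 12 / 10 * δ := by
    intro x hx y hy
    have h3 := h2.uh x hx y hy
    have h4 : ∑ b ∈ cls p (A0 \ A1) 2, w3 p H A0 A1 A2 ω π1 π2 b x y =
        ∑ b ∈ (cls p (A0 \ A1) 2).filter (fun b =>
          al2 p H A0 A1 A2 π2 x b ∧ al1 p H A0 A1 A2 π1 y b),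
          ω x y b / (S1 p A0 A1 ω y b * S2 p H A0 A1 A2 ω π1 x b) := by
      rw [Finset.sum_filter]
      refine Finset.sum_congr rfl fun b hb => ?_
      unfold w3
      have hyA : y ∈ A1 := (Finset.mem_filter.1 hy).1
      by_cases h5 : al2 p H A0 A1 A2 π2 x b ∧ al1 p H A0 A1 A2 π1 y b
      · rw [if_pos ⟨hb, h5.1, hyA, h5.2⟩, if_pos h5]
      · rw [if_neg h5, if_neg]
        rintro ⟨-, h6, -, h7⟩
        exact h5 ⟨h6, h7⟩
    rw [h4]
    linarith
  -- the three sets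
  have hZs : ∀ Z ∈ ({A1 \ A2, A2 \ A3, A3} : Set (Finset V)), Z ⊆ A1 ∧
      ∃ j : Fin 3, (![A1 \ A2, A2 \ A3, A3] : Fin 3 → Finset V) j = Z := by
    intro Z hZ
    simp only [Set.mem_insert_iff, Set.mem_singleton_iff] at hZ
    rcases hZ with rfl | rfl | rfl
    · exact ⟨Finset.sdiff_subset, 0, rfl⟩
    · exact ⟨Finset.sdiff_subset.trans hL.sub2, 1, rfl⟩
    · exact ⟨hL.sub3.trans hL.sub2, 2, rfl⟩
  have hclsZ : ∀ (Z : Finset V), Z ⊆ A1 → ∀ j, cls p Z j ⊆ cls p A1 j := by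
    intro Z hZ j z hz
    simp only [cls, Finset.mem_filter] at hz ⊢
    exact ⟨hZ hz.1, hz.2⟩
  have hfZ : ∀ (Z : Finset V) (j : Fin 3), ∀ z ∈ cls p A1 j,
      (if z ∈ Z then 1 / (2 * s) else 0 : ℝ) = if z ∈ cls p Z j then 1 / (2 * s) else 0 := by
    intro Z j z hz
    have h5 : z ∈ cls p Z j ↔ z ∈ Z := by
      simp only [cls, Finset.mem_filter] at hz ⊢
      exact ⟨fun h => h.1, fun h => ⟨h, hz.2⟩⟩
    simp only [h5]
  refine ⟨π3, ⟨?_, ?_, ?_, ?_⟩⟩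
  · intro b hb
    have h3 := hbij b hb
    have e1 : ((((cls p A1 0).filter (fun x => al2 p H A0 A1 A2 π2 x b) : Finset V)) : Set V) =
        {x | al2 p H A0 A1 A2 π2 x b} := by
      ext x
      rw [Finset.mem_coe, hYx]
      rfl
    have e2 : ((((cls p A1 1).filter (fun y => al1 p H A0 A1 A2 π1 y b) : Finset V)) : Set V) =
        {y | y ∈ A1 ∧ al1 p H A0 A1 A2 π1 y b} := by
      ext y
      rw [Finset.mem_coe, hZx]
      rfl
    rw [e1, e2] at h3
    exact h3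
  · intro b hb x hx
    have h3 := hmem b hb x (hYx.2 hx)
    rw [Finset.mem_filter] at h3
    exact h3.2
  · intro b hb b' hb' hne x hx hx'
    exact hdisj b hb b' hb' hne x (hYx.2 hx) (hYx.2 hx')
  · intro Z hZ
    obtain ⟨hZA, j, hj⟩ := hZs Z hZ
    constructor
    · intro x hx
      have hx' := Finset.mem_filter.1 hx
      have hxA0 : x ∈ A0 := hL.sub1 hx'.1
      have h3 := hty (⟨x, hxA0⟩, j)
      simp only [hj] at h3
      have h4 := rdc2_dead (cls p A1 1) (cls p Z 1) _ _ (fun y => ¬ (x ∈ A2 ∧ y ∈ A2))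
        (fun y => ∀ b ∈ cls p (A0 \ A1) 2, al2 p H A0 A1 A2 π2 x b → π3 b x ≠ y)
        (fun y => ∑ b ∈ cls p (A0 \ A1) 2, w3 p H A0 A1 A2 ω π1 π2 b x y)
        (fun y => if y ∈ Z then 1 / (2 * s) else 0) hs0 hD (by positivity) hε.le
        (hclsZ Z hZA 1) (hfZ Z 1) (fun z hz _ => hW x hx z hz) ?_ ?_ h3
      · refine le_trans ?_ h4
        norm_cast
        apply Finset.card_le_card
        intro y hy
        rw [Finset.mem_filter] at hy ⊢
        obtain ⟨hy1, hy2, b, hb, hb2, hb3⟩ := hy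
        exact ⟨hy1, hy2, fun h5 => h5 b hb hb2 hb3⟩
      · intro z
        rw [Finset.mem_filter]
        constructor
        · rintro ⟨h5, h6, h7⟩
          rw [Finset.mem_filter] at h6
          exact ⟨h5, h6.2, fun b hb hb2 => h7 b hb (hYx.2 hb2)⟩
        · rintro ⟨h5, h6, h7⟩
          refine ⟨h5, ?_, fun b hb hb2 => h7 b hb (hYx.1 hb2)⟩
          rw [Finset.mem_filter]
          exact ⟨Finset.mem_product.2 ⟨hx, h5⟩, h6⟩
      · intro z
        rw [Finset.mem_filter]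
        constructor
        · rintro ⟨h5, h6⟩
          rw [Finset.mem_filter] at h6
          exact ⟨h5, h6.2⟩
        · rintro ⟨h5, h6⟩
          refine ⟨h5, ?_⟩
          rw [Finset.mem_filter]
          exact ⟨Finset.mem_product.2 ⟨hx, h5⟩, h6⟩
    · intro y hy
      have hy' := Finset.mem_filter.1 hy
      have hyA0 : y ∈ A0 := hL.sub1 hy'.1
      have h3 := htz (⟨y, hyA0⟩, j)
      simp only [hj] at h3
      have h4 := rdc2_dead (cls p A1 0) (cls p Z 0) _ _ (fun x => ¬ (x ∈ A2 ∧ y ∈ A2))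
        (fun x => ∀ b ∈ cls p (A0 \ A1) 2, al2 p H A0 A1 A2 π2 x b → π3 b x ≠ y)
        (fun x => ∑ b ∈ cls p (A0 \ A1) 2, w3 p H A0 A1 A2 ω π1 π2 b x y)
        (fun x => if x ∈ Z then 1 / (2 * s) else 0) hs0 hD (by positivity) hε.le
        (hclsZ Z hZA 0) (hfZ Z 0) (fun z hz _ => hW z hz y hy) ?_ ?_ h3
      · refine le_trans ?_ h4
        norm_cast
        apply Finset.card_le_card
        intro x hx
        rw [Finset.mem_filter] at hx ⊢
        obtain ⟨hx1, hx2, b, hb, hb2, hb3⟩ := hx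
        exact ⟨hx1, hx2, fun h5 => h5 b hb hb2 hb3⟩
      · intro z
        rw [Finset.mem_filter]
        constructor
        · rintro ⟨h5, h6, h7⟩
          rw [Finset.mem_filter] at h6
          exact ⟨h5, h6.2, fun b hb hb2 => h7 b hb (hYx.2 hb2)⟩
        · rintro ⟨h5, h6, h7⟩
          refine ⟨h5, ?_, fun b hb hb2 => h7 b hb (hYx.1 hb2)⟩
          rw [Finset.mem_filter]
          exact ⟨Finset.mem_product.2 ⟨h5, hy⟩, h6⟩
      · intro z
        rw [Finset.mem_filter]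
        constructor
        · rintro ⟨h5, h6⟩
          rw [Finset.mem_filter] at h6
          exact ⟨h5, h6.2⟩
        · rintro ⟨h5, h6⟩
          refine ⟨h5, ?_⟩
          rw [Finset.mem_filter]
          exact ⟨Finset.mem_product.2 ⟨h5, hy⟩, h6⟩

end Pool.Agent.Lib.TriD
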