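import Pool.Agent.Lib.TriD.Frac

set_option autoImplicit false

/-!
Definitions for the three rounds of a level. Round 1 processes the rows outside `A1` (maps `π1 x : columns → symbols`),
round 2 the columns outside `A1` (maps `π2 y : rows in A1 → symbols`), round 3 the symbols outside `A1`
(maps `π3 b : rows in A1 → columns in A1`).
-/

open scoped Classical

noncomputable section

namespace Pool.Agent.Lib.TriD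

variable {V : Type} [Fintype V]

/-- The edge `(y, b)` (column, symbol), not inside `A2`, is alive after round 1. -/
def al1 (p : V → Fin 3) (H : SimpleGraph V) (A0 A1 A2 : Finset V) (π1 : V → V → V) (y b : V) : Prop :=
  p y = 1 ∧ p b = 2 ∧ H.Adj y b ∧ ¬ (y ∈ A2 ∧ b ∈ A2) ∧
    ∀ x ∈ cls p (A0 \ A1) 0, H.Adj x y → π1 x y ≠ b

/-- Planned survival probability of `(y, b)` in round 1. -/
def S1 (p : V → Fin 3) (A0 A1 : Finset V) (ω : V → V → V → ℝ) (y b : V) : ℝ :=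
  1 - ∑ x ∈ cls p (A0 \ A1) 0, ω x y b

/-- The edge `(x, b)` (row in `A1`, symbol), not inside `A2`, is alive after round 2. -/
def al2 (p : V → Fin 3) (H : SimpleGraph V) (A0 A1 A2 : Finset V) (π2 : V → V → V) (x b : V) : Prop :=
  p x = 0 ∧ p b = 2 ∧ x ∈ A1 ∧ H.Adj x b ∧ ¬ (x ∈ A2 ∧ b ∈ A2) ∧
    ∀ y ∈ cls p (A0 \ A1) 1, H.Adj x y → π2 y x ≠ b

/-- Weights of round 2. -/
def w2 (p : V → Fin 3) (H : SimpleGraph V) (A0 A1 A2 : Finset V) (ω : V → V → V → ℝ) (π1 : V → V → V)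
    (y x b : V) : ℝ :=
  if y ∈ cls p (A0 \ A1) 1 ∧ x ∈ A1 ∧ al1 p H A0 A1 A2 π1 y b then ω x y b / S1 p A0 A1 ω y b else 0

/-- Planned survival probability of `(x, b)` in round 2. -/
def S2 (p : V → Fin 3) (H : SimpleGraph V) (A0 A1 A2 : Finset V) (ω : V → V → V → ℝ) (π1 : V → V → V)
    (x b : V) : ℝ :=
  1 - ∑ y ∈ cls p (A0 \ A1) 1, w2 p H A0 A1 A2 ω π1 y x b

/-- Weights of round 3. -/
def w3 (p : V → Fin 3) (H : SimpleGraph V) (A0 A1 A2 : Finset V) (ω : V → V → V → ℝ)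
    (π1 π2 : V → V → V) (b x y : V) : ℝ :=
  if b ∈ cls p (A0 \ A1) 2 ∧ al2 p H A0 A1 A2 π2 x b ∧ y ∈ A1 ∧ al1 p H A0 A1 A2 π1 y b then
    ω x y b / (S1 p A0 A1 ω y b * S2 p H A0 A1 A2 ω π1 x b) else 0

/-- Output of round 1. -/
structure R1Out (p : V → Fin 3) (H : SimpleGraph V) (A0 A1 A2 A3 : Finset V) (ω : V → V → V → ℝ)
    (c s δ ε : ℝ) (π1 : V → V → V) : Prop where
  bij : ∀ x ∈ cls p (A0 \ A1) 0, Set.BijOn (π1 x) {y | p y = 1 ∧ H.Adj x y} {b | p b = 2 ∧ H.Adj x b}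
  mem : ∀ x ∈ cls p (A0 \ A1) 0, ∀ y, p y = 1 → H.Adj x y →
    H.Adj y (π1 x y) ∧ ¬ (y ∈ A2 ∧ π1 x y ∈ A2)
  disj : ∀ x ∈ cls p (A0 \ A1) 0, ∀ x' ∈ cls p (A0 \ A1) 0, x ≠ x' → ∀ y, p y = 1 → H.Adj x y →
    H.Adj x' y → π1 x y ≠ π1 x' y
  ta : ∀ x ∈ cls p A1 0, ∀ y ∈ cls p (A0 \ A1) 1, H.Adj x y →
    |∑ b ∈ Finset.univ.filter (fun b => al1 p H A0 A1 A2 π1 y b), ω x y b / S1 p A0 A1 ω y b - 1| ≤ ε
  tb0 : ∀ x ∈ cls p A1 0, ∀ b ∈ cls p A0 2,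
    |∑ y ∈ (cls p (A0 \ A1) 1).filter (fun y => al1 p H A0 A1 A2 π1 y b), ω x y b / S1 p A0 A1 ω y b -
      ∑ y ∈ cls p (A0 \ A1) 1, ω x y b| ≤ ε
  tb1 : ∀ x ∈ cls p A1 0, ∀ b ∈ cls p A0 2,
    |∑ y ∈ (cls p A1 1).filter (fun y => al1 p H A0 A1 A2 π1 y b), ω x y b / S1 p A0 A1 ω y b -
      ∑ y ∈ cls p A1 1, ω x y b| ≤ ε
  tc : ∀ x ∈ cls p A1 0, ∀ y ∈ cls p A1 1,
    |∑ b ∈ (cls p (A0 \ A1) 2).filter (fun b => al1 p H A0 A1 A2 π1 y b), ω x y b / S1 p A0 A1 ω y b -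
      ∑ b ∈ cls p (A0 \ A1) 2, ω x y b| ≤ ε
  td : ∀ y ∈ cls p (A0 \ A1) 1, ∀ x ∈ cls p A1 0, ∀ x' ∈ cls p A1 0,
    c * δ / 16 * ((cls p (A0 \ A1) 2).filter (fun b => H.Adj y b ∧ H.Adj x b ∧ H.Adj x' b)).card -
      ε * s ≤ ((cls p (A0 \ A1) 2).filter (fun b => al1 p H A0 A1 A2 π1 y b ∧ H.Adj x b ∧
        H.Adj x' b)).card
  te : ∀ b ∈ cls p (A0 \ A1) 2,
    c * δ / 16 * ((cls p (A1 \ A2) 1).filter (fun y => H.Adj y b)).card - ε * s ≤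
      ((cls p (A1 \ A2) 1).filter (fun y => al1 p H A0 A1 A2 π1 y b)).card
  dead : ∀ Z ∈ ({A1 \ A2, A2 \ A3, A3} : Set (Finset V)),
    (∀ y ∈ cls p A1 1, (((cls p Z 2).filter (fun b => H.Adj y b ∧ ¬ (y ∈ A2 ∧ b ∈ A2) ∧
      ¬ al1 p H A0 A1 A2 π1 y b)).card : ℝ) ≤ 12 / 10 * δ * (cls p Z 2).card + ε * s) ∧
    (∀ b ∈ cls p A1 2, (((cls p Z 1).filter (fun y => H.Adj y b ∧ ¬ (y ∈ A2 ∧ b ∈ A2) ∧
      ¬ al1 p H A0 A1 A2 π1 y b)).card : ℝ) ≤ 12 / 10 * δ * (cls p Z 1).card + ε * s)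

/-- Output of round 2. -/
structure R2Out (p : V → Fin 3) (H : SimpleGraph V) (A0 A1 A2 A3 : Finset V) (ω : V → V → V → ℝ)
    (c s δ ε : ℝ) (π1 π2 : V → V → V) : Prop where
  bij : ∀ y ∈ cls p (A0 \ A1) 1, Set.BijOn (π2 y) {x | p x = 0 ∧ x ∈ A1 ∧ H.Adj x y}
    {b | al1 p H A0 A1 A2 π1 y b}
  mem : ∀ y ∈ cls p (A0 \ A1) 1, ∀ x ∈ cls p A1 0, H.Adj x y →
    H.Adj x (π2 y x) ∧ ¬ (x ∈ A2 ∧ π2 y x ∈ A2)
  disj : ∀ y ∈ cls p (A0 \ A1) 1, ∀ y' ∈ cls p (A0 \ A1) 1, y ≠ y' → ∀ x ∈ cls p A1 0, H.Adj x y →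
    H.Adj x y' → π2 y x ≠ π2 y' x
  ug : ∀ y ∈ cls p A1 1, ∀ b ∈ cls p (A0 \ A1) 2, al1 p H A0 A1 A2 π1 y b →
    |∑ x ∈ Finset.univ.filter (fun x => al2 p H A0 A1 A2 π2 x b),
      ω x y b / (S1 p A0 A1 ω y b * S2 p H A0 A1 A2 ω π1 x b) - 1| ≤ ε
  uh : ∀ x ∈ cls p A1 0, ∀ y ∈ cls p A1 1, ∑ b ∈ (cls p (A0 \ A1) 2).filter (fun b =>
      al2 p H A0 A1 A2 π2 x b ∧ al1 p H A0 A1 A2 π1 y b),
      ω x y b / (S1 p A0 A1 ω y b * S2 p H A0 A1 A2 ω π1 x b) ≤ 11 / 10 * δ + ε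
  uj : ∀ b ∈ cls p (A0 \ A1) 2,
    c * δ / 32 * ((cls p (A1 \ A2) 0).filter (fun x => H.Adj x b)).card - ε * s ≤
      ((cls p (A1 \ A2) 0).filter (fun x => al2 p H A0 A1 A2 π2 x b)).card
  dead : ∀ Z ∈ ({A1 \ A2, A2 \ A3, A3} : Set (Finset V)),
    (∀ x ∈ cls p A1 0, (((cls p Z 2).filter (fun b => H.Adj x b ∧ ¬ (x ∈ A2 ∧ b ∈ A2) ∧
      ¬ al2 p H A0 A1 A2 π2 x b)).card : ℝ) ≤ 12 / 10 * δ * (cls p Z 2).card + ε * s) ∧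
    (∀ b ∈ cls p A1 2, (((cls p Z 0).filter (fun x => H.Adj x b ∧ ¬ (x ∈ A2 ∧ b ∈ A2) ∧
      ¬ al2 p H A0 A1 A2 π2 x b)).card : ℝ) ≤ 12 / 10 * δ * (cls p Z 0).card + ε * s)

/-- Output of round 3. -/
structure R3Out (p : V → Fin 3) (H : SimpleGraph V) (A0 A1 A2 A3 : Finset V)
    (s δ ε : ℝ) (π1 π2 π3 : V → V → V) : Prop where
  bij : ∀ b ∈ cls p (A0 \ A1) 2, Set.BijOn (π3 b) {x | al2 p H A0 A1 A2 π2 x b}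
    {y | y ∈ A1 ∧ al1 p H A0 A1 A2 π1 y b}
  mem : ∀ b ∈ cls p (A0 \ A1) 2, ∀ x, al2 p H A0 A1 A2 π2 x b → ¬ (x ∈ A2 ∧ π3 b x ∈ A2)
  disj : ∀ b ∈ cls p (A0 \ A1) 2, ∀ b' ∈ cls p (A0 \ A1) 2, b ≠ b' → ∀ x, al2 p H A0 A1 A2 π2 x b →
    al2 p H A0 A1 A2 π2 x b' → π3 b x ≠ π3 b' x
  dead : ∀ Z ∈ ({A1 \ A2, A2 \ A3, A3} : Set (Finset V)),
    (∀ x ∈ cls p A1 0, (((cls p Z 1).filter (fun y => ¬ (x ∈ A2 ∧ y ∈ A2) ∧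
      ∃ b ∈ cls p (A0 \ A1) 2, al2 p H A0 A1 A2 π2 x b ∧ π3 b x = y)).card : ℝ) ≤
        12 / 10 * δ * (cls p Z 1).card + ε * s) ∧
    (∀ y ∈ cls p A1 1, (((cls p Z 0).filter (fun x => ¬ (x ∈ A2 ∧ y ∈ A2) ∧
      ∃ b ∈ cls p (A0 \ A1) 2, al2 p H A0 A1 A2 π2 x b ∧ π3 b x = y)).card : ℝ) ≤
        12 / 10 * δ * (cls p Z 0).card + ε * s)

/-- The constant of the round lemma that is used in all three rounds. -/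
def cR (c δ : ℝ) : ℝ := c ^ 4 * δ ^ 2 / 10 ^ 4

end Pool.Agent.Lib.TriD
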