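import Pool.Agent.Lib.TriD.RdDefs
import Pool.Agent.Lib.TriD.Cnt

set_option autoImplicit false

/-!
MODULE RdS1 (about 150 lines). Masses of the exact weights.

PROOFS. `ω ≥ 0`: if `ω x y b ≠ 0` then `Allow` and `ω ≥ δ / (2 s) > 0`. `ω x y b ≠ 0` implies `x, y, b ∈ A0` (`hL.supp`, symmetry)
and `p x = 0, p y = 1, p b = 2`, so a sum over all `x` splits into `cls p (A0 \ A1) 0` and `cls p A1 0`, and so on.
`smass`: let `H.Adj u v`, at least one of `u, v` not in `A1` (outer), `j` the third part. By `cnt_tri` the number of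
`z ∈ cls p (A1 \ A2) j` with `H.Adj u z ∧ H.Adj v z` is at least `(3/16) q - (2 ξ + 6 δ) s ≥ (3/16) c s - (c/16) s = c s / 8`
(`q = s/n*k ≥ c s`; `2 ξ + 6 δ ≤ c / 16` from `hδ1`, `hξ1`), and each of these triangles is allowed: `z ∉ A2`, one of `u, v` is not
in `A1 ⊇ A2`. So the sum of `ω` over the third vertices in `A1` is at least `(c s / 8) * δ / (2 s) = c δ / 16`.
`s1_facts`: `S1 ≤ 1` as `ω ≥ 0`. Outer: `∑ x, ω x y b = 1` (`o12`) so `S1 y b = ∑ x ∈ cls p A1 0, ω x y b ≥ c δ / 16`. Inner: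
`S1 ≥ 1 - 11/10 δ` by `i12` (and `ω ≥ 0`), which is `≥ c δ / 16`.
`row_mass`: `(x, b)` with `x ∈ A1`, `b ∉ A1` is outer: `o02`.
-/

open scoped Classical

noncomputable section

namespace Pool.Agent.Lib.TriD

variable {V : Type} [Fintype V]

private theorem rds_supp {p : V → Fin 3} {H : SimpleGraph V} {A1 A2 : Finset V} {c s δ : ℝ}
    {ω : V → V → V → ℝ} (hω : FracW p H A1 A2 c s δ ω) {x y b : V} (h : ω x y b ≠ 0) :
    Tri p H x y b := (hω.supp x y b h).1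

theorem frac_nonneg {p : V → Fin 3} {H : SimpleGraph V} {A1 A2 : Finset V} {c s δ : ℝ}
    {ω : V → V → V → ℝ} (hω : FracW p H A1 A2 c s δ ω) (hs : 0 < s) (hδ : 0 < δ) (x y b : V) :
    0 ≤ ω x y b := by
  by_cases h : ω x y b = 0
  · exact h.ge
  · have h1 := hω.lb x y b (hω.supp x y b h)
    have h2 : 0 < δ / (2 * s) := by positivity
    linarith

private theorem rds_split {p : V → Fin 3} {A0 A1 : Finset V} (_hA : A1 ⊆ A0) (i : Fin 3)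
    (f : V → ℝ) (hf : ∀ z, f z ≠ 0 → z ∈ A0 ∧ p z = i) :
    ∑ z, f z = ∑ z ∈ cls p (A0 \ A1) i, f z + ∑ z ∈ cls p A1 i, f z := by
  have hd : Disjoint (cls p (A0 \ A1) i) (cls p A1 i) := by
    rw [Finset.disjoint_left]
    intro z hz hz'
    simp only [cls, Finset.mem_filter, Finset.mem_sdiff] at hz hz'
    exact hz.1.2 hz'.1
  rw [← Finset.sum_union hd]
  symm
  refine Finset.sum_subset (Finset.subset_univ _) ?_
  intro z _ hz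
  by_contra hne
  obtain ⟨h0, hp⟩ := hf z hne
  apply hz
  simp only [cls, Finset.mem_union, Finset.mem_filter, Finset.mem_sdiff]
  by_cases h1 : z ∈ A1
  · exact Or.inr ⟨h1, hp⟩
  · exact Or.inl ⟨⟨h0, h1⟩, hp⟩

private theorem rds_small {c ξ δ : ℝ} (hc : 0 < c) (hc1 : c < 1) (hδ : 0 < δ)
    (hδ1 : δ ≤ c ^ 11 / 10 ^ 9) (hξ1 : ξ ≤ c ^ 9 * δ / 10 ^ 6) :
    2 * ξ + 6 * δ ≤ c / 16 ∧ δ ≤ 1 / 10 ^ 9 := by
  have h11 : c ^ 11 ≤ c := by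
    calc c ^ 11 ≤ c ^ 1 := pow_le_pow_of_le_one hc.le hc1.le (by norm_num)
      _ = c := pow_one c
  have h9 : c ^ 9 ≤ 1 := pow_le_one₀ hc.le hc1.le
  have h1 : δ ≤ c / 10 ^ 9 := hδ1.trans (div_le_div_of_nonneg_right h11 (by norm_num))
  have h2 : ξ ≤ δ / 10 ^ 6 := by
    refine hξ1.trans (div_le_div_of_nonneg_right ?_ (by norm_num))
    nlinarith
  norm_num at h1 h2 ⊢
  constructor
  · linarith
  · linarith

private theorem rds_cnt {p : V → Fin 3} {G H : SimpleGraph V} {c K s ξ δ : ℝ}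
    {A0 A1 A2 A3 : Finset V} (hG : Host p G c K) (hL : Level p G H s ξ δ A0 A1 A2 A3)
    (hc : 0 < c) (hc1 : c < 1) (hδ : 0 < δ)
    (hδ1 : δ ≤ c ^ 11 / 10 ^ 9) (hξ1 : ξ ≤ c ^ 9 * δ / 10 ^ 6) {u v : V} (h : H.Adj u v)
    {j : Fin 3} (hju : j ≠ p u) (hjv : j ≠ p v) :
    c * s / 8 ≤ (((cls p (A1 \ A2) j).filter (fun z => H.Adj u z ∧ H.Adj v z)).card : ℝ) := by
  obtain ⟨k, hk1, hk2⟩ := hG.cod
  have h1 := (cnt_tri hG hL k hk2 h hju hjv).2.1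
  have hs := hL.s0
  have hn : (0 : ℝ) < Fintype.card V := by
    have : 0 < Fintype.card V := Fintype.card_pos_iff.2 ⟨u⟩
    exact_mod_cast this
  have hq : c * s ≤ s / Fintype.card V * k := by
    rw [div_mul_eq_mul_div, le_div_iff₀ hn]
    nlinarith
  have hsm := (rds_small hc hc1 hδ hδ1 hξ1).1
  have h2 : (2 * ξ + 6 * δ) * s ≤ c / 16 * s := mul_le_mul_of_nonneg_right hsm hs.le
  rw [abs_le] at h1
  linarith [h1.1]

private theorem rds_mass {p : V → Fin 3} {G H : SimpleGraph V} {c K s ξ δ : ℝ}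
    {A0 A1 A2 A3 : Finset V} (hG : Host p G c K) (hL : Level p G H s ξ δ A0 A1 A2 A3)
    (hc : 0 < c) (hc1 : c < 1) (hδ : 0 < δ)
    (hδ1 : δ ≤ c ^ 11 / 10 ^ 9) (hξ1 : ξ ≤ c ^ 9 * δ / 10 ^ 6) {u v : V} (h : H.Adj u v)
    {j : Fin 3} (hju : j ≠ p u) (hjv : j ≠ p v) (f : V → ℝ) (hf0 : ∀ z, 0 ≤ f z)
    (hf : ∀ z, p z = j → z ∈ A1 → z ∉ A2 → H.Adj u z → H.Adj v z → δ / (2 * s) ≤ f z) :
    c * δ / 16 ≤ ∑ z ∈ cls p A1 j, f z := by
  have hs := hL.s0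
  have hcnt := rds_cnt hG hL hc hc1 hδ hδ1 hξ1 h hju hjv
  set F := (cls p (A1 \ A2) j).filter (fun z => H.Adj u z ∧ H.Adj v z) with hF
  have hsub : F ⊆ cls p A1 j := by
    intro z hz
    simp only [hF, cls, Finset.mem_filter, Finset.mem_sdiff] at hz ⊢
    exact ⟨hz.1.1.1, hz.1.2⟩
  have h1 : ∑ z ∈ F, f z ≤ ∑ z ∈ cls p A1 j, f z :=
    Finset.sum_le_sum_of_subset_of_nonneg hsub fun z _ _ => hf0 z
  have h2 : (F.card : ℝ) * (δ / (2 * s)) ≤ ∑ z ∈ F, f z := by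
    have := Finset.card_nsmul_le_sum F f (δ / (2 * s)) (fun z hz => by
      simp only [hF, cls, Finset.mem_filter, Finset.mem_sdiff] at hz
      exact hf z hz.1.2 hz.1.1.1 hz.1.1.2 hz.2.1 hz.2.2)
    rwa [nsmul_eq_mul] at this
  have h3 : c * δ / 16 ≤ (F.card : ℝ) * (δ / (2 * s)) := by
    have h4 : c * s / 8 * (δ / (2 * s)) ≤ (F.card : ℝ) * (δ / (2 * s)) :=
      mul_le_mul_of_nonneg_right hcnt (by positivity)
    have h5 : c * s / 8 * (δ / (2 * s)) = c * δ / 16 := by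
      field_simp
      norm_num
    linarith
  linarith

private theorem rds_A0 {p : V → Fin 3} {G H : SimpleGraph V} {s ξ δ : ℝ}
    {A0 A1 A2 A3 : Finset V} (hL : Level p G H s ξ δ A0 A1 A2 A3) {x y b : V}
    (h : Tri p H x y b) : x ∈ A0 ∧ y ∈ A0 ∧ b ∈ A0 :=
  ⟨hL.supp _ _ h.2.2.2.1, hL.supp _ _ h.2.2.2.1.symm, hL.supp _ _ h.2.2.2.2.1.symm⟩

theorem s1_facts {p : V → Fin 3} {G H : SimpleGraph V} {c K s ξ δ : ℝ} {A0 A1 A2 A3 : Finset V}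
    {ω : V → V → V → ℝ} (hG : Host p G c K) (hL : Level p G H s ξ δ A0 A1 A2 A3)
    (hω : FracW p H A1 A2 c s δ ω) (hc : 0 < c) (hc1 : c < 1) (hξ : 0 ≤ ξ) (hδ : 0 < δ)
    (hδ1 : δ ≤ c ^ 11 / 10 ^ 9) (hξ1 : ξ ≤ c ^ 9 * δ / 10 ^ 6) {y b : V} (hy : p y = 1) (hb : p b = 2)
    (hyb : H.Adj y b) :
    c * δ / 16 ≤ S1 p A0 A1 ω y b ∧ S1 p A0 A1 ω y b ≤ 1 ∧
    (¬ (y ∈ A1 ∧ b ∈ A1) → S1 p A0 A1 ω y b = ∑ x ∈ cls p A1 0, ω x y b) ∧
    (y ∈ A1 → b ∈ A1 → 1 - 11 / 10 * δ ≤ S1 p A0 A1 ω y b) := by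
  have hs := hL.s0
  have hnn := frac_nonneg hω hs hδ
  have hsplit := rds_split (p := p) hL.sub1 0 (fun x => ω x y b) (fun x hx => by
    have ht := rds_supp hω hx
    exact ⟨(rds_A0 hL ht).1, ht.1⟩)
  have hout0 : 0 ≤ ∑ x ∈ cls p (A0 \ A1) 0, ω x y b := Finset.sum_nonneg fun x _ => hnn x y b
  have hin0 : 0 ≤ ∑ x ∈ cls p A1 0, ω x y b := Finset.sum_nonneg fun x _ => hnn x y b
  have hsm := (rds_small hc hc1 hδ hδ1 hξ1).2
  have h3 : ¬ (y ∈ A1 ∧ b ∈ A1) → S1 p A0 A1 ω y b = ∑ x ∈ cls p A1 0, ω x y b := by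
    intro hno
    have h1 := hω.o12 y b hy hb ⟨hyb, hno⟩
    unfold S1
    linarith
  have h4 : y ∈ A1 → b ∈ A1 → 1 - 11 / 10 * δ ≤ S1 p A0 A1 ω y b := by
    intro h1 h2
    have h5 := hω.i12 y b h1 h2
    unfold S1
    linarith
  refine ⟨?_, ?_, h3, h4⟩
  · by_cases hin : y ∈ A1 ∧ b ∈ A1
    · have h5 := h4 hin.1 hin.2
      norm_num at hsm
      nlinarith
    · rw [h3 hin]
      refine rds_mass hG hL hc hc1 hδ hδ1 hξ1 hyb (j := 0) (by rw [hy]; decide)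
        (by rw [hb]; decide) (fun x => ω x y b) (fun x => hnn x y b) ?_
      intro x hx hx1 hx2 hyx hbx
      refine hω.lb x y b ⟨⟨hx, hy, hb, hyx.symm, hbx.symm, hyb⟩, ?_, ?_, ?_, ?_⟩
      · exact fun h => hin ⟨h.2.1, h.2.2⟩
      · exact fun h => hx2 h.1
      · exact fun h => hx2 h.1
      · exact fun h => hin ⟨hL.sub2 h.1, hL.sub2 h.2⟩
  · unfold S1
    linarith

theorem row_mass {p : V → Fin 3} {G H : SimpleGraph V} {c K s ξ δ : ℝ} {A0 A1 A2 A3 : Finset V}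
    {ω : V → V → V → ℝ} (hG : Host p G c K) (hL : Level p G H s ξ δ A0 A1 A2 A3)
    (hω : FracW p H A1 A2 c s δ ω) (hc : 0 < c) (hc1 : c < 1) (hξ : 0 ≤ ξ) (hδ : 0 < δ)
    (hδ1 : δ ≤ c ^ 11 / 10 ^ 9) (hξ1 : ξ ≤ c ^ 9 * δ / 10 ^ 6) {x b : V} (hx : p x = 0) (hb : p b = 2)
    (hxb : H.Adj x b) (hb1 : b ∉ A1) :
    c * δ / 16 ≤ ∑ y ∈ cls p A1 1, ω x y b ∧
    ∑ y ∈ cls p (A0 \ A1) 1, ω x y b = 1 - ∑ y ∈ cls p A1 1, ω x y b := by
  have hs := hL.s0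
  have hnn := frac_nonneg hω hs hδ
  have hsplit := rds_split (p := p) hL.sub1 1 (fun y => ω x y b) (fun y hy => by
    have ht := rds_supp hω hy
    exact ⟨(rds_A0 hL ht).2.1, ht.2.1⟩)
  have h1 := hω.o02 x b hx hb ⟨hxb, fun h => hb1 h.2⟩
  refine ⟨?_, by linarith⟩
  refine rds_mass hG hL hc hc1 hδ hδ1 hξ1 hxb (j := 1) (by rw [hx]; decide)
    (by rw [hb]; decide) (fun y => ω x y b) (fun y => hnn x y b) ?_
  intro y hy hy1 hy2 hxy hby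
  refine hω.lb x y b ⟨⟨hx, hy, hb, hxy, hxb, hby.symm⟩, ?_, ?_, ?_, ?_⟩
  · exact fun h => hb1 h.2.2
  · exact fun h => hy2 h.2
  · exact fun h => hb1 (hL.sub2 h.2)
  · exact fun h => hb1 (hL.sub2 h.2)

end Pool.Agent.Lib.TriD
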