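import Pool.Agent.Lib.TriD.RSel

set_option autoImplicit false

/-!
MODULE Round. The round lemma.
-/

namespace Pool.Agent.Lib.TriD

private lemma exp_cmp {c R A B : ℝ} (hc : 0 < c) (hR : c ≤ R) (hA : 0 ≤ A) (hA0 : A ≠ 0)
    (hB : B ≤ 1) (h : |Real.log (A * R)| ≤ B) : |1 / R - A| ≤ 2 * B / c := by
  have hR0 : 0 < R := lt_of_lt_of_le hc hR
  have hAR : 0 < A * R := mul_pos (lt_of_le_of_ne hA (Ne.symm hA0)) hR0
  have hB0 : 0 ≤ B := (abs_nonneg _).trans h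
  have hexp : Real.exp (Real.log (A * R)) = A * R := Real.exp_log hAR
  have h1 : |Real.exp (Real.log (A * R)) - 1| ≤ 2 * |Real.log (A * R)| :=
    Real.abs_exp_sub_one_le (h.trans hB)
  have h3 : |Real.exp (Real.log (A * R)) - 1| ≤ 2 * B := by linarith
  have h2 : 1 / R - A = -(Real.exp (Real.log (A * R)) - 1) / R := by
    rw [hexp]; field_simp; ring
  rw [h2, abs_div, abs_neg, abs_of_pos hR0]
  rw [div_le_div_iff₀ hR0 hc]
  calc |Real.exp (Real.log (A * R)) - 1| * c ≤ (2 * B) * c :=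
        mul_le_mul_of_nonneg_right h3 hc.le
    _ ≤ 2 * B * R := mul_le_mul_of_nonneg_left hR (by positivity)

private lemma sum_cmp {ι : Type} (Z : Finset ι) (P Q : ι → Prop) [DecidablePred P]
    [DecidablePred Q] (κ R A A0 : ι → ℝ) {s b d : ℝ} (hs : 0 < s) (hZ : (Z.card : ℝ) ≤ s)
    (hκ : ∀ z, |κ z| ≤ 1 / s) (hb : 0 ≤ b)
    (h1 : ∀ z ∈ Z, P z → |1 / R z - A z| ≤ b) (h0 : ∀ z ∈ Z, ¬ P z → A z = 0)
    (hA1 : ∀ z, Q z → A0 z = 1) (hA0 : ∀ z, ¬ Q z → A0 z = 0)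
    (hd : |∑ z ∈ Z, κ z * A z - ∑ z ∈ Z, κ z * A0 z| ≤ d) :
    |∑ z ∈ Z.filter P, κ z / R z - ∑ z ∈ Z.filter Q, κ z| ≤ b + d := by
  have e1 : ∑ z ∈ Z.filter Q, κ z = ∑ z ∈ Z, κ z * A0 z := by
    rw [Finset.sum_filter]
    refine Finset.sum_congr rfl fun z _ => ?_
    by_cases hq : Q z
    · rw [if_pos hq, hA1 z hq, mul_one]
    · rw [if_neg hq, hA0 z hq, mul_zero]
  have e2 : |∑ z ∈ Z.filter P, κ z / R z - ∑ z ∈ Z, κ z * A z| ≤ b := by
    rw [Finset.sum_filter, ← Finset.sum_sub_distrib]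
    calc |∑ z ∈ Z, ((if P z then κ z / R z else 0) - κ z * A z)|
        ≤ ∑ z ∈ Z, |(if P z then κ z / R z else 0) - κ z * A z| := Finset.abs_sum_le_sum_abs _ _
      _ ≤ ∑ z ∈ Z, (1 / s * b) := by
          refine Finset.sum_le_sum fun z hz => ?_
          by_cases hp : P z
          · rw [if_pos hp]
            have : κ z / R z - κ z * A z = κ z * (1 / R z - A z) := by ring
            rw [this, abs_mul]
            exact mul_le_mul (hκ z) (h1 z hz hp) (abs_nonneg _) (by positivity)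
          · rw [if_neg hp, h0 z hz hp]
            simp only [mul_zero, sub_zero, abs_zero]
            positivity
      _ = (Z.card : ℝ) * (1 / s * b) := by rw [Finset.sum_const, nsmul_eq_mul]
      _ ≤ s * (1 / s * b) := mul_le_mul_of_nonneg_right hZ (by positivity)
      _ = b := by field_simp
  rw [e1]
  calc |∑ z ∈ Z.filter P, κ z / R z - ∑ z ∈ Z, κ z * A0 z|
      = |(∑ z ∈ Z.filter P, κ z / R z - ∑ z ∈ Z, κ z * A z) +
          (∑ z ∈ Z, κ z * A z - ∑ z ∈ Z, κ z * A0 z)| := by ring_nf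
    _ ≤ |∑ z ∈ Z.filter P, κ z / R z - ∑ z ∈ Z, κ z * A z| +
          |∑ z ∈ Z, κ z * A z - ∑ z ∈ Z, κ z * A0 z| := abs_add_le _ _
    _ ≤ b + d := add_le_add e2 hd

open scoped Classical in
theorem round_lemma (c : ℝ) (hc : 0 < c) (hc1 : c < 1) : ∃ K s0 e0 : ℝ, 0 < K ∧ 1 ≤ s0 ∧ 0 < e0 ∧
    ∀ {α β γ : Type} [Nonempty α] [Nonempty γ] (X : Finset α) (Y : Finset β) (Z : Finset γ)
      (E0 : Finset (β × γ)) (Yx : α → Finset β) (Zx : α → Finset γ) (w : α → β → γ → ℝ) (s e : ℝ),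
      RHyp X Y Z E0 Yx Zx w c s e → s0 ≤ s → e ≤ e0 →
      ∀ (TY : Finset (β × (γ → ℝ))) (TZ : Finset (γ × (β → ℝ))),
      (∀ t ∈ TY, ∀ z, |t.2 z| ≤ 1 / s) → (∀ t ∈ TZ, ∀ y, |t.2 y| ≤ 1 / s) →
      (TY.card : ℝ) ≤ s ^ 20 → (TZ.card : ℝ) ≤ s ^ 20 →
      ∃ π : α → β → γ, (∀ x ∈ X, Set.BijOn (π x) (Yx x) (Zx x)) ∧
        (∀ x ∈ X, ∀ y ∈ Yx x, (y, π x y) ∈ E0) ∧
        (∀ x ∈ X, ∀ x' ∈ X, x ≠ x' → ∀ y ∈ Yx x, y ∈ Yx x' → π x y ≠ π x' y) ∧
        (∀ t ∈ TY, |∑ z ∈ Z.filter (fun z => (t.1, z) ∈ E0 ∧ ∀ x ∈ X, t.1 ∈ Yx x → π x t.1 ≠ z),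
            t.2 z / (1 - ∑ x ∈ X, w x t.1 z) - ∑ z ∈ Z.filter (fun z => (t.1, z) ∈ E0), t.2 z| ≤
          K * (e + s ^ (-(1 / 3) : ℝ))) ∧
        (∀ t ∈ TZ, |∑ y ∈ Y.filter (fun y => (y, t.1) ∈ E0 ∧ ∀ x ∈ X, y ∈ Yx x → π x y ≠ t.1),
            t.2 y / (1 - ∑ x ∈ X, w x y t.1) - ∑ y ∈ Y.filter (fun y => (y, t.1) ∈ E0), t.2 y| ≤
          K * (e + s ^ (-(1 / 3) : ℝ))) := by
  obtain ⟨s0, e0, hs0, he0, H⟩ := rsel c hc hc1
  have hCpos : 0 < Real.exp (8448 / c ^ 6) := Real.exp_pos _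
  refine ⟨1 + 2 * Real.exp (8448 / c ^ 6) * (1 + 1 / c) / c,
    max s0 ((2 * Real.exp (8448 / c ^ 6) / c) ^ (3 : ℕ)),
    min e0 (1 / (2 * Real.exp (8448 / c ^ 6))), by positivity, le_trans hs0 (le_max_left _ _),
    lt_min he0 (by positivity), ?_⟩
  intro α β γ _ _ X Y Z E0 Yx Zx w s e hR hs he TY TZ hTY hTZ cTY cTZ
  obtain ⟨xs, π, A, hx1, hx2, hx3, hA0, hst, hAnn, hAlog, htY, htZ⟩ :=
    H X Y Z E0 Yx Zx w s e hR ((le_max_left _ _).trans hs) (he.trans (min_le_left _ _)) TY TZ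
      hTY hTZ cTY cTZ
  have hspos : 0 < s := lt_of_lt_of_le one_pos hR.hs
  have hΔ0 : 0 < s ^ (-(1 / 3) : ℝ) := Real.rpow_pos_of_pos hspos _
  have hΔ : s ^ (-(1 / 3) : ℝ) ≤ c / (2 * Real.exp (8448 / c ^ 6)) := by
    have h1 : (2 * Real.exp (8448 / c ^ 6) / c) ^ (3 : ℕ) ≤ s := (le_max_right _ _).trans hs
    have h2 : (0 : ℝ) < 2 * Real.exp (8448 / c ^ 6) / c := by positivity
    have h3 : 2 * Real.exp (8448 / c ^ 6) / c ≤ s ^ ((1 / 3 : ℝ)) := by
      have h4 := Real.rpow_le_rpow (by positivity) h1 (by norm_num : (0 : ℝ) ≤ 1 / 3)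
      rw [← Real.rpow_natCast, ← Real.rpow_mul h2.le] at h4
      norm_num at h4
      convert h4 using 2
    rw [Real.rpow_neg hspos.le]
    have h5 : c / (2 * Real.exp (8448 / c ^ 6)) = (2 * Real.exp (8448 / c ^ 6) / c)⁻¹ := by
      rw [inv_div]
    rw [h5]
    exact inv_anti₀ h2 h3
  have he' : e ≤ 1 / (2 * Real.exp (8448 / c ^ 6)) := he.trans (min_le_right _ _)
  have he0' : 0 ≤ e := hR.he
  set B : ℝ := Real.exp (8448 / c ^ 6) * (e + s ^ (-(1 / 3) : ℝ) / c) with hBdef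
  have hB1 : B ≤ 1 := by
    have h1 : Real.exp (8448 / c ^ 6) * e ≤ 1 / 2 := by
      calc Real.exp (8448 / c ^ 6) * e ≤
          Real.exp (8448 / c ^ 6) * (1 / (2 * Real.exp (8448 / c ^ 6))) :=
            mul_le_mul_of_nonneg_left he' hCpos.le
        _ = 1 / 2 := by field_simp
    have h2 : Real.exp (8448 / c ^ 6) * (s ^ (-(1 / 3) : ℝ) / c) ≤ 1 / 2 := by
      calc Real.exp (8448 / c ^ 6) * (s ^ (-(1 / 3) : ℝ) / c) ≤
          Real.exp (8448 / c ^ 6) * ((c / (2 * Real.exp (8448 / c ^ 6))) / c) := by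
            refine mul_le_mul_of_nonneg_left ?_ hCpos.le
            exact div_le_div_of_nonneg_right hΔ hc.le
        _ = 1 / 2 := by field_simp
    rw [hBdef, mul_add]; linarith
  have hB0 : 0 ≤ B := by rw [hBdef]; positivity
  -- the alive pairs
  have halive : ∀ t, t ≤ X.card → ∀ y z, (A t y z ≠ 0 ↔ (y, z) ∈ E0 ∧
      ∀ i < t, ¬ (y ∈ Yx (xs i) ∧ π i y = z)) := by
    intro t
    induction t with
    | zero =>
      intro _ y z
      rw [hA0]
      by_cases h : (y, z) ∈ E0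
      · simp [h]
      · simp [h]
    | succ t ih =>
      intro ht y z
      rw [(hst t (by omega)).2.2 y z, ih (by omega) y z]
      constructor
      · rintro ⟨⟨h1, h2⟩, h3⟩
        refine ⟨h1, fun i hi => ?_⟩
        rcases Nat.lt_succ_iff_lt_or_eq.mp hi with h | h
        · exact h2 i h
        · rw [h]; exact h3
      · rintro ⟨h1, h2⟩
        exact ⟨⟨h1, fun i hi => h2 i (by omega)⟩, h2 t (by omega)⟩
  -- the index of an element
  choose! tx htx using hx1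
  have htxs : ∀ t < X.card, tx (xs t) = t := by
    intro t ht
    have h := htx (xs t) (hx2 t ht)
    exact hx3 _ h.1 _ ht h.2
  have halive' : ∀ y z, (A X.card y z ≠ 0 ↔ (y, z) ∈ E0 ∧
      ∀ x ∈ X, y ∈ Yx x → π (tx x) y ≠ z) := by
    intro y z
    rw [halive X.card le_rfl y z]
    constructor
    · rintro ⟨h1, h2⟩
      refine ⟨h1, fun x hx hy hz => ?_⟩
      have h := htx x hx
      exact h2 (tx x) h.1 ⟨by rw [h.2]; exact hy, hz⟩
    · rintro ⟨h1, h2⟩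
      refine ⟨h1, fun i hi hyz => ?_⟩
      have h := h2 (xs i) (hx2 i hi) hyz.1
      rw [htxs i hi] at h
      exact h hyz.2
  have hcmp : ∀ y z, A X.card y z ≠ 0 →
      |1 / (1 - ∑ x ∈ X, w x y z) - A X.card y z| ≤ 2 * B / c := by
    intro y z h
    have h1 := (halive' y z).mp h
    have h2 := hR.haz y z h1.1
    exact exp_cmp hc (by linarith) (hAnn y z) h hB1 (hAlog y z h)
  have hfin : 2 * B / c + s ^ (-(1 / 3) : ℝ) ≤
      (1 + 2 * Real.exp (8448 / c ^ 6) * (1 + 1 / c) / c) * (e + s ^ (-(1 / 3) : ℝ)) := by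
    have h1 : 2 * B / c ≤ 2 * Real.exp (8448 / c ^ 6) * (1 + 1 / c) / c *
        (e + s ^ (-(1 / 3) : ℝ)) := by
      rw [hBdef]
      have h3 : e + s ^ (-(1 / 3) : ℝ) / c ≤ (1 + 1 / c) * (e + s ^ (-(1 / 3) : ℝ)) := by
        have h4 : (1 + 1 / c) * (e + s ^ (-(1 / 3) : ℝ)) =
            e + s ^ (-(1 / 3) : ℝ) / c + (e / c + s ^ (-(1 / 3) : ℝ)) := by ring
        rw [h4]
        have h5 : 0 ≤ e / c := by positivity
        linarith
      calc 2 * (Real.exp (8448 / c ^ 6) * (e + s ^ (-(1 / 3) : ℝ) / c)) / c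
          = 2 * Real.exp (8448 / c ^ 6) / c * (e + s ^ (-(1 / 3) : ℝ) / c) := by ring
        _ ≤ 2 * Real.exp (8448 / c ^ 6) / c * ((1 + 1 / c) * (e + s ^ (-(1 / 3) : ℝ))) :=
            mul_le_mul_of_nonneg_left h3 (by positivity)
        _ = _ := by ring
    have h2 : (1 + 2 * Real.exp (8448 / c ^ 6) * (1 + 1 / c) / c) * (e + s ^ (-(1 / 3) : ℝ)) =
        2 * Real.exp (8448 / c ^ 6) * (1 + 1 / c) / c * (e + s ^ (-(1 / 3) : ℝ)) +
        (e + s ^ (-(1 / 3) : ℝ)) := by ring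
    rw [h2]
    linarith
  refine ⟨fun x => π (tx x), ?_, ?_, ?_, ?_, ?_⟩
  · intro x hx
    have h := htx x hx
    have h1 := (hst (tx x) h.1).1
    rw [h.2] at h1
    exact h1
  · intro x hx y hy
    have h := htx x hx
    have h1 := (hst (tx x) h.1).2.1 y (by rw [h.2]; exact hy)
    exact ((halive (tx x) h.1.le y _).mp h1).1
  · intro x hx x' hx' hne y hy hy'
    have h := htx x hx
    have h' := htx x' hx'
    have hty := (hst (tx x) h.1).2.1 y (by rw [h.2]; exact hy)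
    have hty' := (hst (tx x') h'.1).2.1 y (by rw [h'.2]; exact hy')
    have hnt : tx x ≠ tx x' := by
      intro heq
      apply hne
      rw [← h.2, ← h'.2, heq]
    rcases lt_or_gt_of_ne hnt with hlt | hlt
    · have h2 := ((halive (tx x') h'.1.le y _).mp hty').2 (tx x) hlt
      intro heq
      exact h2 ⟨by rw [h.2]; exact hy, heq⟩
    · have h2 := ((halive (tx x) h.1.le y _).mp hty).2 (tx x') hlt
      intro heq
      exact h2 ⟨by rw [h'.2]; exact hy', heq.symm⟩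
  · intro t ht
    refine le_trans ?_ hfin
    refine sum_cmp Z _ _ t.2 (fun z => 1 - ∑ x ∈ X, w x t.1 z) (fun z => A X.card t.1 z)
      (fun z => A 0 t.1 z) hspos hR.cZ (hTY t ht) (by positivity) ?_ ?_ ?_ ?_ (htY t ht)
    · intro z _ hz
      exact hcmp t.1 z ((halive' t.1 z).mpr hz)
    · intro z _ hz
      by_contra hne
      exact hz ((halive' t.1 z).mp hne)
    · intro z hz
      simp only [hA0, if_pos hz]
    · intro z hz
      simp only [hA0, if_neg hz]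
  · intro t ht
    refine le_trans ?_ hfin
    refine sum_cmp Y _ _ t.2 (fun y => 1 - ∑ x ∈ X, w x y t.1) (fun y => A X.card y t.1)
      (fun y => A 0 y t.1) hspos hR.cY (hTZ t ht) (by positivity) ?_ ?_ ?_ ?_ (htZ t ht)
    · intro y _ hy
      exact hcmp y t.1 ((halive' y t.1).mpr hy)
    · intro y _ hy
      by_contra hne
      exact hy ((halive' y t.1).mp hne)
    · intro y hy
      simp only [hA0, if_pos hy]
    · intro y hy
      simp only [hA0, if_neg hy]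

end Pool.Agent.Lib.TriD
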