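import Pool.Agent.Lib.TriD.RdA2
import Pool.Agent.Lib.TriD.RdB2
import Pool.Agent.Lib.TriD.RdC2

set_option autoImplicit false

/-!
MODULE Rounds (about 100 lines). The three rounds together.

PROOF. `R1Out` and `R2Out` are monotone in `ε` (all fields with `ε` are upper bounds by `ε` or `.. + ε s`, lower bounds `.. - ε s`; `0 ≤ s`).
`roundC ε` gives `εC ≤ ε`; `roundB εC` gives `εB ≤ εC`; `roundA εB` gives `π1` with `R1Out εB`; then `roundB` gives `π2` with `R2Out εC`;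
by monotonicity `R1Out εC`; `roundC` gives `π3` with `R3Out ε`. `m` = maximum of the three and `0`.
-/

open scoped Classical

noncomputable section

namespace Pool.Agent.Lib.TriD

theorem R1Out.mono {V : Type} [Fintype V] {p : V → Fin 3} {H : SimpleGraph V}
    {A0 A1 A2 A3 : Finset V} {ω : V → V → V → ℝ} {c s δ ε ε' : ℝ} {π1 : V → V → V} (hs : 0 ≤ s)
    (h : R1Out p H A0 A1 A2 A3 ω c s δ ε π1) (he : ε ≤ ε') :
    R1Out p H A0 A1 A2 A3 ω c s δ ε' π1 := by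
  have hes : ε * s ≤ ε' * s := mul_le_mul_of_nonneg_right he hs
  exact
    { bij := h.bij
      mem := h.mem
      disj := h.disj
      ta := fun x hx y hy hxy => (h.ta x hx y hy hxy).trans he
      tb0 := fun x hx b hb => (h.tb0 x hx b hb).trans he
      tb1 := fun x hx b hb => (h.tb1 x hx b hb).trans he
      tc := fun x hx y hy => (h.tc x hx y hy).trans he
      td := fun y hy x hx x' hx' => (sub_le_sub_left hes _).trans (h.td y hy x hx x' hx')
      te := fun b hb => (sub_le_sub_left hes _).trans (h.te b hb)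
      dead := fun Z hZ => ⟨fun y hy => ((h.dead Z hZ).1 y hy).trans (add_le_add_right hes _),
        fun b hb => ((h.dead Z hZ).2 b hb).trans (add_le_add_right hes _)⟩ }

theorem R2Out.mono {V : Type} [Fintype V] {p : V → Fin 3} {H : SimpleGraph V}
    {A0 A1 A2 A3 : Finset V} {ω : V → V → V → ℝ} {c s δ ε ε' : ℝ} {π1 π2 : V → V → V} (hs : 0 ≤ s)
    (h : R2Out p H A0 A1 A2 A3 ω c s δ ε π1 π2) (he : ε ≤ ε') :
    R2Out p H A0 A1 A2 A3 ω c s δ ε' π1 π2 := by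
  have hes : ε * s ≤ ε' * s := mul_le_mul_of_nonneg_right he hs
  exact
    { bij := h.bij
      mem := h.mem
      disj := h.disj
      ug := fun y hy b hb hyb => (h.ug y hy b hb hyb).trans he
      uh := fun x hx y hy => (h.uh x hx y hy).trans (add_le_add_right he _)
      uj := fun b hb => (sub_le_sub_left hes _).trans (h.uj b hb)
      dead := fun Z hZ => ⟨fun y hy => ((h.dead Z hZ).1 y hy).trans (add_le_add_right hes _),
        fun b hb => ((h.dead Z hZ).2 b hb).trans (add_le_add_right hes _)⟩ }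

theorem rounds (c K δ ε : ℝ) (hc : 0 < c) (hc1 : c < 1) (hK : 0 ≤ K) (hδ : 0 < δ)
    (hδ1 : δ ≤ c ^ 11 / 10 ^ 9) (hε : 0 < ε) (hε1 : ε ≤ 1) : ∃ m : ℝ,
    ∀ {V : Type} [Fintype V] {p : V → Fin 3} {G H : SimpleGraph V} {s ξ : ℝ} {A0 A1 A2 A3 : Finset V}
      {ω : V → V → V → ℝ}, Host p G c K → Level p G H s ξ δ A0 A1 A2 A3 → FracW p H A1 A2 c s δ ω →
      0 ≤ ξ → ξ ≤ c ^ 9 * δ / 10 ^ 6 → m ≤ s →
      ∃ π1 π2 π3 : V → V → V, R1Out p H A0 A1 A2 A3 ω c s δ ε π1 ∧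
        R2Out p H A0 A1 A2 A3 ω c s δ ε π1 π2 ∧ R3Out p H A0 A1 A2 A3 s δ ε π1 π2 π3 := by
  obtain ⟨ε3, mC, hε3, hC⟩ := roundC c K δ ε hc hc1 hK hδ hδ1 hε
  obtain ⟨εC, hεCd⟩ : ∃ εC, εC = min ε3 ε := ⟨_, rfl⟩
  have hεC0 : 0 < εC := by rw [hεCd]; exact lt_min hε3 hε
  have hεC3 : εC ≤ ε3 := by rw [hεCd]; exact min_le_left _ _
  have hεC : εC ≤ ε := by rw [hεCd]; exact min_le_right _ _
  obtain ⟨εB, mB, hεB0, hεB, hB⟩ := roundB c K δ εC hc hc1 hK hδ hδ1 hεC0 (hεC.trans hε1)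
  obtain ⟨mA, hA⟩ := roundA c K δ εB hc hc1 hK hδ hδ1 hεB0 (hεB.trans (hεC.trans hε1))
  refine ⟨max (max mA mB) (max mC 0), ?_⟩
  intro V _ p G H s ξ A0 A1 A2 A3 ω hG hL hW hξ0 hξ hm
  have hmA : mA ≤ s := ((le_max_left _ _).trans (le_max_left _ _)).trans hm
  have hmB : mB ≤ s := ((le_max_right _ _).trans (le_max_left _ _)).trans hm
  have hmC : mC ≤ s := ((le_max_left _ _).trans (le_max_right _ _)).trans hm
  have hs : 0 ≤ s := ((le_max_right _ _).trans (le_max_right _ _)).trans hm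
  obtain ⟨π1, h1⟩ := hA hG hL hW hξ0 hξ hmA
  have h1C := h1.mono hs hεB
  obtain ⟨π2, h2⟩ := hB hG hL hW hξ0 hξ hmB h1
  obtain ⟨π3, h3⟩ := hC hG hL hW hξ0 hξ hmC (h1C.mono hs hεC3) (h2.mono hs hεC3)
  exact ⟨π1, π2, π3, h1C.mono hs hεC, h2.mono hs hεC, h3⟩

end Pool.Agent.Lib.TriD
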