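import Pool.Agent.Lib.TriD.Sel

set_option autoImplicit false

/-!
MODULE Samp (about 120 lines). Every finite set has a subset of relative size about 1/4 in all sets of a
given family.

PROOF. Apply `selection` with `S = ℕ × Finset V` (number of processed elements, chosen set), `J = Fin M`
(or `ι`), an enumeration `x : Fin A.card → V` of `A` (e.g. `A.equivFin.symm`), `T = A.card`,
`X j (t, B) = card (F j ∩ B) - card (F j ∩ {x 0, ..., x (t-1)}) / 4`, `Good t (t', B) := t' = t ∧ B ⊆ {x i | i < t}`,
`Step t (t, B) (t', B') := B' = B ∨ B' = insert (x t) B`, distribution: `m = 2`, `p = ![1/4, 3/4]`,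
successors `(t+1, insert (x t) B)` and `(t+1, B)`. Mean zero, increments at most `1`: `a = 1, d = 0`,
`D = log (2 * card ι) / lam + card A * lam`. At the end `B ⊆ A` and `card (F j ∩ B)` is within `D` of
`card (F j ∩ A) / 4`.
-/

namespace Pool.Agent.Lib.TriD

open scoped Classical in
private lemma card_inter_ins {V : Type} (F B : Finset V) (v : V) (hv : v ∉ B) :
    ((F ∩ insert v B).card : ℝ) = ((F ∩ B).card : ℝ) + if v ∈ F then 1 else 0 := by
  by_cases h : v ∈ F
  · rw [if_pos h, Finset.inter_insert_of_mem h, Finset.card_insert_of_notMem]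
    · push_cast; ring
    · intro h1
      exact hv (Finset.mem_inter.1 h1).2
  · rw [if_neg h, Finset.inter_insert_of_notMem h, add_zero]

open scoped Classical in
theorem sampling {V ι : Type} [Fintype ι] [Nonempty ι] (A : Finset V) (F : ι → Finset V)
    (lam : ℝ) (hlam : 0 < lam) (hlam1 : lam ≤ 1) :
    ∃ B ⊆ A, ∀ j, |((F j ∩ B).card : ℝ) - ((F j ∩ A).card : ℝ) / 4| ≤
      Real.log (2 * Fintype.card ι) / lam + A.card * lam := by
  obtain ⟨σ, -, -, hgood, hfin⟩ := selection (S := Finset V × Finset V) (J := ι)
    (fun j s => ((F j ∩ s.2).card : ℝ) - ((F j ∩ s.1).card : ℝ) / 4)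
    (fun _ _ _ => True) (fun t s => s.1 ⊆ A ∧ s.1.card = t ∧ s.2 ⊆ s.1) A.card
    1 0 (Real.log (2 * Fintype.card ι) / lam + A.card * lam) lam one_pos le_rfl hlam
    (by simpa using hlam1) (by simp) (∅, ∅) (by simp) (by
      rintro t ht ⟨P, B⟩ ⟨hP, hPt, hB⟩ -
      simp only at hP hPt hB
      obtain ⟨v, hvA, hvP⟩ := Finset.exists_mem_notMem_of_card_lt_card
        (show P.card < A.card by omega)
      have hvB : v ∉ B := fun h => hvP (hB h)
      have hins : insert v P ⊆ A := Finset.insert_subset hvA hP
      have hcard : (insert v P).card = t + 1 := by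
        rw [Finset.card_insert_of_notMem hvP, hPt]
      refine ⟨2, ![1 / 4, 3 / 4], ![(insert v P, insert v B), (insert v P, B)], ?_, ?_, ?_, ?_, ?_⟩
      · intro i
        fin_cases i
        · simp
        · simp; norm_num
      · rw [Fin.sum_univ_two]
        simp only [Matrix.cons_val_zero, Matrix.cons_val_one]
        norm_num
      · intro i _
        refine ⟨trivial, ?_⟩
        fin_cases i
        · exact ⟨hins, hcard, Finset.insert_subset_insert v hB⟩
        · exact ⟨hins, hcard, hB.trans (Finset.subset_insert v P)⟩
      · intro j i _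
        fin_cases i
        · simp only [Fin.zero_eta, Matrix.cons_val_zero]
          rw [card_inter_ins _ _ _ hvB, card_inter_ins _ _ _ hvP]
          split_ifs
          · rw [abs_le]; constructor <;> linarith
          · rw [abs_le]; constructor <;> linarith
        · simp only [Fin.mk_one, Matrix.cons_val_one, Matrix.cons_val_fin_one]
          rw [card_inter_ins _ _ _ hvP]
          split_ifs
          · rw [abs_le]; constructor <;> linarith
          · rw [abs_le]; constructor <;> linarith
      · intro j
        rw [Fin.sum_univ_two]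
        simp only [Matrix.cons_val_zero, Matrix.cons_val_one]
        rw [card_inter_ins _ _ _ hvB, card_inter_ins _ _ _ hvP]
        refine le_of_eq ?_
        rw [abs_eq_zero]
        ring)
  obtain ⟨h1, h2, h3⟩ := hgood A.card le_rfl
  have h4 : (σ A.card).1 = A := Finset.eq_of_subset_of_card_le h1 h2.ge
  refine ⟨(σ A.card).2, h3.trans h4.le, fun j => ?_⟩
  have h5 := hfin A.card le_rfl j
  simp only [h4] at h5
  simpa using h5

end Pool.Agent.Lib.TriD
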