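import Pool.Agent.Lib.TriD.ZDefs

set_option autoImplicit false

/-!
Definitions for the absorbers.
-/

open scoped Classical

noncomputable section

namespace Pool.Agent.Lib.TriD

variable {V : Type}

/-- The edges of `L` are cut into paths `x i - y i - z i - x (τ i)`, `i < m`. -/
structure Idx (p : V → Fin 3) (L : SimpleGraph V) (m : ℕ) (x y z : Fin m → V)
    (τ : Equiv.Perm (Fin m)) : Prop where
  px : ∀ i, p (x i) = 0
  py : ∀ i, p (y i) = 1
  pz : ∀ i, p (z i) = 2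
  xy : ∀ i, L.Adj (x i) (y i)
  yz : ∀ i, L.Adj (y i) (z i)
  zx : ∀ i, L.Adj (z i) (x (τ i))
  ixy : Function.Injective fun i => (x i, y i)
  iyz : Function.Injective fun i => (y i, z i)
  izx : Function.Injective fun i => (z i, x (τ i))
  cxy : ∀ u v, L.Adj u v → p u = 0 → p v = 1 → ∃ i, x i = u ∧ y i = v
  cyz : ∀ u v, L.Adj u v → p u = 1 → p v = 2 → ∃ i, y i = u ∧ z i = v
  czx : ∀ u v, L.Adj u v → p u = 2 → p v = 0 → ∃ i, z i = u ∧ x (τ i) = v

/-- The 27 edges of the absorber with index `i`; `N k i` (`k < 8`) and `o` are the new vertices. -/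
def absEdge {m : ℕ} (x y z : Fin m → V) (τ : Equiv.Perm (Fin m)) (N : Fin 8 → Fin m → V) (o : V)
    (i : Fin m) : Fin 27 → Sym2 V :=
  ![s(N 1 i, x i), s(N 1 i, y i), s(N 1 i, N 2 i), s(N 2 i, N 0 i), s(N 1 i, N 0 i), s(z i, N 2 i),
    s(N 2 i, y i), s(x i, N 0 i), s(N 0 i, z i),
    s(N 4 i, N 0 i), s(N 4 i, z i), s(N 4 i, N 5 i), s(N 5 i, N 3 i), s(N 4 i, N 3 i),
    s(x (τ i), N 5 i), s(N 5 i, z i), s(N 0 i, N 3 i), s(N 3 i, x (τ i)),
    s(N 6 i, x (τ i)), s(N 6 i, o), s(N 6 i, N 3 i), s(N 6 i, N 7 i), s(N 7 i, x (τ i)),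
    s(N 7 i, o), s(N 7 i, N 0 (τ i)), s(N 3 i, o), s(o, N 0 i)]

/-- New vertices of the absorber in the right parts, distinct, adjacent in `G` as required. -/
structure AbsPat (p : V → Fin 3) (G : SimpleGraph V) (m : ℕ) (x y z : Fin m → V)
    (τ : Equiv.Perm (Fin m)) (N : Fin 8 → Fin m → V) (o : V) : Prop where
  inj : Function.Injective fun q : Fin 8 × Fin m => N q.1 q.2
  part : ∀ k i, p (N k i) = (![1, 2, 0, 2, 0, 1, 1, 2] : Fin 8 → Fin 3) k
  parto : p o = 0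
  no : ∀ k i, N k i ≠ o
  nx : ∀ k i j, N k i ≠ x j
  ny : ∀ k i j, N k i ≠ y j
  nz : ∀ k i j, N k i ≠ z j
  ox : ∀ j, x j ≠ o
  adj : ∀ i k, absEdge x y z τ N o i k ∈ G.edgeSet

end Pool.Agent.Lib.TriD
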