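import Pool.Agent.Lib.TriD.ZAbsA

set_option autoImplicit false

/-!
MODULE ZAbs. One absorber for all graphs on a bounded set `Q`.
-/

open scoped Classical

namespace Pool.Agent.Lib.TriD

private lemma zabs_disj {V : Type} {H₁ H₂ : SimpleGraph V}
    (h : ∀ u v, H₁.Adj u v → H₂.Adj u v → False) : Disjoint H₁ H₂ := by
  rw [disjoint_iff_inf_le]
  intro u v huv
  exact (h u v huv.1 huv.2).elim

private lemma zabs_sup_adj {V ι : Type} (s : Finset ι) (A : ι → SimpleGraph V) (u v : V) :
    (s.sup A).Adj u v ↔ ∃ i ∈ s, (A i).Adj u v := by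
  induction s using Finset.induction_on with
  | empty => simp
  | insert a s ha ih =>
    rw [Finset.sup_insert, SimpleGraph.sup_adj, ih]
    constructor
    · rintro (h | ⟨i, hi, h⟩)
      · exact ⟨a, Finset.mem_insert_self _ _, h⟩
      · exact ⟨i, Finset.mem_insert_of_mem hi, h⟩
    · rintro ⟨i, hi, h⟩
      rcases Finset.mem_insert.mp hi with rfl | hi
      · exact Or.inl h
      · exact Or.inr ⟨i, hi, h⟩

private lemma zabs_exists_fam {V : Type} [Fintype V] (G : SimpleGraph V) (p : V → Fin 3) (Q : Finset V)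
    (t : ℕ) (hQ : Q.card ≤ t) :
    ∃ S : Finset (SimpleGraph V), S.card ≤ 2 ^ (t ^ 2) ∧
      ∀ L, L ∈ S ↔ (L ≤ G ∧ (∀ u v, L.Adj u v → u ∈ Q) ∧ TDiv p L) := by
  have hfin : {L : SimpleGraph V | L ≤ G ∧ (∀ u v, L.Adj u v → u ∈ Q) ∧ TDiv p L}.Finite :=
    Set.toFinite _
  refine ⟨hfin.toFinset, ?_, fun L => by rw [Set.Finite.mem_toFinset]; exact Iff.rfl⟩
  have hinj : hfin.toFinset.card ≤ ((Q ×ˢ Q).powerset).card := by
    refine Finset.card_le_card_of_injOn
      (fun L => (Q ×ˢ Q).filter (fun e => L.Adj e.1 e.2)) ?_ ?_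
    · intro L _
      exact Finset.mem_coe.mpr (Finset.mem_powerset.mpr (Finset.filter_subset _ _))
    · intro L hL L' hL' heq
      have hL1 : ∀ u v, L.Adj u v → u ∈ Q := by
        have h := (Set.Finite.mem_toFinset hfin).mp (Finset.mem_coe.mp hL)
        exact h.2.1
      have hL1' : ∀ u v, L'.Adj u v → u ∈ Q := by
        have h := (Set.Finite.mem_toFinset hfin).mp (Finset.mem_coe.mp hL')
        exact h.2.1
      have heq' : (Q ×ˢ Q).filter (fun e => L.Adj e.1 e.2) =
          (Q ×ˢ Q).filter (fun e => L'.Adj e.1 e.2) := heq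
      ext u v
      constructor
      · intro h
        have hm : (u, v) ∈ (Q ×ˢ Q).filter (fun e => L.Adj e.1 e.2) :=
          Finset.mem_filter.mpr ⟨Finset.mem_product.mpr ⟨hL1 u v h, hL1 v u h.symm⟩, h⟩
        rw [heq'] at hm
        exact (Finset.mem_filter.mp hm).2
      · intro h
        have hm : (u, v) ∈ (Q ×ˢ Q).filter (fun e => L'.Adj e.1 e.2) :=
          Finset.mem_filter.mpr ⟨Finset.mem_product.mpr ⟨hL1' u v h, hL1' v u h.symm⟩, h⟩
        rw [← heq'] at hm
        exact (Finset.mem_filter.mp hm).2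
  refine hinj.trans ?_
  rw [Finset.card_powerset, Finset.card_product]
  refine Nat.pow_le_pow_right (by norm_num) ?_
  calc Q.card * Q.card ≤ t * t := Nat.mul_le_mul hQ hQ
    _ = t ^ 2 := by ring

private def ZGood {V : Type} [Fintype V] (G : SimpleGraph V) (U Q : Finset V) (t : ℕ)
    (L A : SimpleGraph V) (W : Finset V) : Prop :=
  A ≤ G ∧ W.card ≤ 8 * t ^ 2 + 1 ∧ (∀ w ∈ W, w ∉ U ∧ w ∉ Q) ∧
    (∀ u v, A.Adj u v → (u ∈ Q ∨ u ∈ W) ∧ (u ∈ W ∨ v ∈ W)) ∧ TD A ∧ TD (A ⊔ L)

theorem absorber (c K δ : ℝ) (hc : 0 < c) (hc1 : c ≤ 1) (hK : 0 ≤ K) (hδ : 0 < δ) (t : ℕ) :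
    ∃ n0 : ℕ, ∀ (V : Type) [Fintype V] (p : V → Fin 3) (G : SimpleGraph V), Host p G c K →
      n0 ≤ Fintype.card V → ∀ U1 Q : Finset V, Q.card ≤ t →
      (∀ S : Finset V, S.card ≤ 3 → ∀ j, ((nbr p G j S ∩ U1).card : ℝ) ≤
        ((nbr p G j S).card : ℝ) / 4 + c ^ 2 / 8 * Fintype.card V) →
      ∃ A : SimpleGraph V, A ≤ G ∧ (∀ u v, A.Adj u v → u ∉ U1 ∨ v ∉ U1) ∧
        (∀ u, ((Finset.univ.filter (fun v => A.Adj u v)).card : ℝ) ≤ δ * Fintype.card V) ∧
        TD A ∧ ∀ L : SimpleGraph V, L ≤ G → (∀ u v, L.Adj u v → u ∈ Q) → TDiv p L →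
          TD (A ⊔ L) ∧ Disjoint A L := by
  obtain ⟨n1, hn1⟩ := abs_single c K hc hc1 hK (t + 2 ^ (t ^ 2) * (8 * t ^ 2 + 1)) t
  refine ⟨max n1 ⌈((t + 2 ^ (t ^ 2) * (8 * t ^ 2 + 1) : ℕ) : ℝ) / δ⌉₊, ?_⟩
  intro V _ p G hG hn U1 Q hQ hU
  obtain ⟨S, hScard, hS⟩ := zabs_exists_fam G p Q t hQ
  have hfδ : ((t + 2 ^ (t ^ 2) * (8 * t ^ 2 + 1) : ℕ) : ℝ) ≤ δ * Fintype.card V := by
    have h1 : ((t + 2 ^ (t ^ 2) * (8 * t ^ 2 + 1) : ℕ) : ℝ) / δ ≤ Fintype.card V := by
      refine (Nat.le_ceil _).trans ?_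
      exact_mod_cast (le_max_right _ _).trans hn
    rw [div_le_iff₀ hδ] at h1
    linarith
  have hfam : ∀ s : Finset (SimpleGraph V), s ⊆ S →
      ∃ (A : SimpleGraph V → SimpleGraph V) (W : SimpleGraph V → Finset V),
        (∀ L ∈ s, ZGood G U1 Q t L (A L) (W L)) ∧
        ∀ L ∈ s, ∀ L' ∈ s, L ≠ L' → Disjoint (W L) (W L') := by
    intro s
    induction s using Finset.induction_on with
    | empty =>
      intro _
      exact ⟨fun L => L, fun _ => ∅, by simp, by simp⟩
    | insert a s ha ih =>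
      intro hs
      obtain ⟨A, W, hA, hW⟩ := ih (fun x hx => hs (Finset.mem_insert_of_mem hx))
      have haS : a ∈ S := hs (Finset.mem_insert_self _ _)
      have hF : (Q ∪ s.biUnion W).card ≤ t + 2 ^ (t ^ 2) * (8 * t ^ 2 + 1) := by
        refine (Finset.card_union_le _ _).trans (add_le_add hQ ?_)
        calc (s.biUnion W).card ≤ s.card * (8 * t ^ 2 + 1) :=
              Finset.card_biUnion_le_card_mul _ _ _ (fun L hL => (hA L hL).2.1)
          _ ≤ 2 ^ (t ^ 2) * (8 * t ^ 2 + 1) := by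
              refine Nat.mul_le_mul_right _ ?_
              exact (Finset.card_le_card
                (fun x hx => hs (Finset.mem_insert_of_mem hx))).trans hScard
      obtain ⟨ha1, ha2, ha3⟩ := (hS a).mp haS
      obtain ⟨A0, W0, h1, h2, h3, h4, h5, h6⟩ := hn1 V p G hG ((le_max_left _ _).trans hn) U1
        (Q ∪ s.biUnion W) Q hF Finset.subset_union_left hQ hU a ha1 ha2 ha3
      refine ⟨Function.update A a A0, Function.update W a W0, ?_, ?_⟩
      · intro L hL
        by_cases hLa : L = a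
        · subst hLa
          rw [Function.update_self, Function.update_self]
          refine ⟨h1, h2, fun w hw => ⟨(h3 w hw).1, fun hq => (h3 w hw).2 ?_⟩, h4, h5, h6⟩
          exact Finset.mem_union_left _ hq
        · rw [Function.update_of_ne hLa, Function.update_of_ne hLa]
          exact hA L ((Finset.mem_insert.mp hL).resolve_left hLa)
      · intro L hL L' hL' hne
        have key : ∀ M ∈ s, Disjoint W0 (W M) := by
          intro M hM
          rw [Finset.disjoint_left]
          intro w hw hw'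
          exact (h3 w hw).2 (Finset.mem_union_right _ (Finset.mem_biUnion.mpr ⟨M, hM, hw'⟩))
        by_cases hLa : L = a
        · subst hLa
          have hne' : L' ≠ L := fun h => hne h.symm
          rw [Function.update_self, Function.update_of_ne hne']
          exact key L' ((Finset.mem_insert.mp hL').resolve_left hne')
        · by_cases hLa' : L' = a
          · subst hLa'
            rw [Function.update_self, Function.update_of_ne hLa]
            exact (key L ((Finset.mem_insert.mp hL).resolve_left hLa)).symm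
          · rw [Function.update_of_ne hLa, Function.update_of_ne hLa']
            exact hW L ((Finset.mem_insert.mp hL).resolve_left hLa) L'
              ((Finset.mem_insert.mp hL').resolve_left hLa') hne
  obtain ⟨A, W, hA, hW⟩ := hfam S (Finset.Subset.refl _)
  have hdisA : ∀ L ∈ S, ∀ L' ∈ S, L ≠ L' → Disjoint (A L) (A L') := by
    intro L hL L' hL' hne
    refine zabs_disj ?_
    intro u v h h'
    have hd := hW L hL L' hL' hne
    have e1 := (hA L hL).2.2.2.1 u v h
    have e2 := (hA L' hL').2.2.2.1 u v h'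
    have e3 := (hA L' hL').2.2.2.1 v u h'.symm
    have key : ∀ w, w ∈ W L → (w ∈ Q ∨ w ∈ W L') → False := by
      intro w hw hw'
      rcases hw' with hq | hq
      · exact ((hA L hL).2.2.1 w hw).2 hq
      · exact (Finset.disjoint_left.mp hd hw) hq
    rcases e1.2 with hu | hv
    · exact key u hu e2.1
    · exact key v hv e3.1
  have hdisL : ∀ L ∈ S, ∀ L' : SimpleGraph V, (∀ u v, L'.Adj u v → u ∈ Q) →
      Disjoint (A L) L' := by
    intro L hL L' hL'
    refine zabs_disj ?_
    intro u v h h'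
    have e1 := (hA L hL).2.2.2.1 u v h
    rcases e1.2 with hu | hv
    · exact ((hA L hL).2.2.1 u hu).2 (hL' u v h')
    · exact ((hA L hL).2.2.1 v hv).2 (hL' v u h'.symm)
  refine ⟨S.sup A, ?_, ?_, ?_, ?_, ?_⟩
  · exact Finset.sup_le fun L hL => (hA L hL).1
  · intro u v h
    obtain ⟨L, hL, h'⟩ := (zabs_sup_adj S A u v).mp h
    rcases ((hA L hL).2.2.2.1 u v h').2 with hu | hv
    · exact Or.inl ((hA L hL).2.2.1 u hu).1
    · exact Or.inr ((hA L hL).2.2.1 v hv).1
  · intro u
    refine le_trans ?_ hfδ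
    have hsub : (Finset.univ.filter (fun v => (S.sup A).Adj u v)) ⊆ Q ∪ S.biUnion W := by
      intro v hv
      obtain ⟨L, hL, h'⟩ := (zabs_sup_adj S A u v).mp (Finset.mem_filter.mp hv).2
      rcases ((hA L hL).2.2.2.1 v u h'.symm).1 with hq | hq
      · exact Finset.mem_union_left _ hq
      · exact Finset.mem_union_right _ (Finset.mem_biUnion.mpr ⟨L, hL, hq⟩)
    have hcard : (Finset.univ.filter (fun v => (S.sup A).Adj u v)).card ≤
        t + 2 ^ (t ^ 2) * (8 * t ^ 2 + 1) := by
      refine (Finset.card_le_card hsub).trans ((Finset.card_union_le _ _).trans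
        (add_le_add hQ ?_))
      calc (S.biUnion W).card ≤ S.card * (8 * t ^ 2 + 1) :=
            Finset.card_biUnion_le_card_mul _ _ _ (fun L hL => (hA L hL).2.1)
        _ ≤ 2 ^ (t ^ 2) * (8 * t ^ 2 + 1) := Nat.mul_le_mul_right _ hScard
    exact_mod_cast hcard
  · exact TD.finset_sup S A (fun L hL => (hA L hL).2.2.2.2.1) hdisA
  · intro L hLG hLQ hLT
    have hL : L ∈ S := (hS L).mpr ⟨hLG, hLQ, hLT⟩
    have hdL : Disjoint (S.sup A) L := by
      rw [Finset.disjoint_sup_left]
      intro M hM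
      exact hdisL M hM L hLQ
    refine ⟨?_, hdL⟩
    have hsplit : S.sup A ⊔ L = (A L ⊔ L) ⊔ (S.erase L).sup A := by
      conv_lhs => rw [← Finset.insert_erase hL]
      rw [Finset.sup_insert]
      ac_rfl
    rw [hsplit]
    refine TD.sup (hA L hL).2.2.2.2.2 ?_ ?_
    · refine TD.finset_sup _ A (fun M hM => (hA M (Finset.mem_of_mem_erase hM)).2.2.2.2.1) ?_
      intro M hM M' hM' hne
      exact hdisA M (Finset.mem_of_mem_erase hM) M' (Finset.mem_of_mem_erase hM') hne
    · rw [Finset.disjoint_sup_right]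
      intro M hM
      rw [disjoint_sup_left]
      refine ⟨?_, ?_⟩
      · exact hdisA L hL M (Finset.mem_of_mem_erase hM) (Finset.ne_of_mem_erase hM).symm
      · exact (hdisL M (Finset.mem_of_mem_erase hM) L hLQ).symm

end Pool.Agent.Lib.TriD
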