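import Pool.Agent.Lib.TriD.ZDefs

set_option autoImplicit false

/-!
MODULE ZPick (about 60 lines). Distinct representatives avoiding a set.

PROOF. Hall's theorem `Finset.all_card_le_biUnion_card_iff_exists_injective` for the sets `S i \ F`, which
have at least `m` elements.
-/

open scoped Classical

namespace Pool.Agent.Lib.TriD

theorem pick {V : Type} (m : ℕ) (S : Fin m → Finset V) (F : Finset V)
    (h : ∀ i, F.card + m ≤ (S i).card) :
    ∃ f : Fin m → V, Function.Injective f ∧ ∀ i, f i ∈ S i ∧ f i ∉ F := by
  have hT : ∀ i, m ≤ (S i \ F).card := by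
    intro i
    have h1 := Finset.le_card_sdiff F (S i)
    have h2 := h i
    omega
  have hall : ∀ s : Finset (Fin m), s.card ≤ (s.biUnion fun i => S i \ F).card := by
    intro s
    rcases s.eq_empty_or_nonempty with hs | ⟨i, hi⟩
    · simp [hs]
    · have h1 : s.card ≤ m := by
        have := Finset.card_le_univ s
        simpa using this
      have h2 : (S i \ F).card ≤ (s.biUnion fun i => S i \ F).card :=
        Finset.card_le_card (Finset.subset_biUnion_of_mem (fun i => S i \ F) hi)
      exact h1.trans ((hT i).trans h2)
  obtain ⟨f, hf, hf2⟩ := (Finset.all_card_le_biUnion_card_iff_exists_injective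
    (fun i => S i \ F)).mp hall
  refine ⟨f, hf, fun i => ?_⟩
  have := hf2 i
  rw [Finset.mem_sdiff] at this
  exact this

end Pool.Agent.Lib.TriD
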