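import Pool.Agent.Lib.TriD.ZADefs
import Pool.Agent.Lib.TriD.ZPick

set_option autoImplicit false

/-!
MODULE ZEmb (about 300 lines). Embedding of the absorber pattern outside `U ∪ F`.

PROOF. Put `n = card V`, `N_j(S) = nbr p G j S`.
(M) If `D` is a set inside one part, `card D ≥ c^2 n` (`c^2 ≤ c`), then for every other part all but `K / c^2` vertices `u` satisfy
`card (D ∩ N(u)) ≥ c * card D` (`Host.mix`). With `D = N_2({x, y})` this is `card N_2({x, y, u}) ≥ c * card N_2({x, y})`, and so on.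
(O) if `card S ≤ 3` and `card N_j(S) ≥ c^2 n` then `card (N_j(S) \ U) ≥ (3/4) c^2 n - c^2 n / 8 = (5/8) c^2 n` by `hU`.
(B) `N_j(e) = k ≥ c n` for edges `e` and `card N_j({v}) ≥ c n` (`Host.cod, deg`); cells are edges.
(P) `pick`: if for every `i : Fin m'` the admissible set `S i ⊆ V` has at least `(5/8) c^2 n - 4 K / c^2` elements, which is
`≥ (f + 8 m + 1) + m'` for `n ≥ n0`, then there are distinct `v i ∈ S i` outside `U ∪ F ∪` (all vertices chosen before); here `S i` is taken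
inside the complement of `U`, so the forbidden set of `pick` is `F ∪` (chosen vertices), of size `≤ f + 8 m + 1`.
Choose, for all `i` simultaneously with `pick` (writing `t = τ i`):
 1. `N 0 i = p i ∈ N_1({z i})` with `card N_2({x i, y i, p i}) ≥ c^2 n`  [(M) for `D = N_2({x i, y i})`, `x i y i` is an edge];
 2. `o` in part 0, not in `U ∪ F`, different from the previous ones, with `card N_2({x i, p i, o}) ≥ c^2 n` and `card N_2({x (τ i), p i, o}) ≥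
    c^2 n` for all `i` [(M) for at most `2 m'` sets `D = N_2({x i, p i})`, `N_2({x t, p i})` (cells); part 0 has `≥ c n` elements (`Host.size`), by
    `hU` with `S = ∅` (`nbr p G 0 ∅ = part 0`) at least `c n / 2` outside `U`; here `2 m' K / c^2` vertices are excluded];
 3. `N 1 i = a i ∈ N_2({x i, y i, p i})` with `card N_0({z i, a i}) ≥ c^2 n`  [(M) for `D = N_0({z i})`];
 4. `N 2 i = b i ∈ N_0({z i, a i})`;
 5. `N 3 i = q i ∈ N_2({x t, p i, o})` with `card N_0({z i, q i}) ≥ c^2 n` and `card N_1({z i, q i}) ≥ c^2 n`;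
 6. `N 4 i = c i ∈ N_0({z i, q i})`, `N 5 i = d i ∈ N_1({z i, q i})`;
 7. `N 7 i = f i ∈ N_2({x t, p t, o})` with `card N_1({q i, f i}) ≥ c^2 n`  [(M) for `D = N_1({q i})`];
 8. `N 6 i = e i ∈ N_1({q i, f i})`.
(`x, y, z` lie in `F`, so new vertices differ from them; `{z i, q i}` etc. are pairs of vertices of part 2, `S` of size 2.)
All 27 adjacencies hold (no edge of `L` is needed): those between parts 0 and 1 are cells, the others are in 1 - 8:
`p z` (1), `a x, a y, a p` (3), `a b, z b` (4), `q x t, q p, q o` (5), `c z, c q, d z, d q` (6), `f x t, f p t, f o` (7), `e q, e f` (8).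
-/

open scoped Classical

namespace Pool.Agent.Lib.TriD

private theorem ze_insert {V : Type} [Fintype V] (p : V → Fin 3) (G : SimpleGraph V) (j : Fin 3) (u : V)
    (S : Finset V) : nbr p G j (insert u S) = (nbr p G j S).filter (fun z => G.Adj u z) := by
  ext z
  simp only [nbr, Finset.mem_filter, Finset.mem_univ, true_and, Finset.forall_mem_insert]
  tauto

private theorem ze_mem {V : Type} [Fintype V] {p : V → Fin 3} {G : SimpleGraph V} {j : Fin 3}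
    {S : Finset V} {z : V} : z ∈ nbr p G j S ↔ p z = j ∧ ∀ u ∈ S, G.Adj u z := by
  simp [nbr]

private theorem ze_mix {V : Type} [Fintype V] {p : V → Fin 3} {G : SimpleGraph V} {c K : ℝ}
    (hH : Host p G c K) (hc : 0 < c) (hn : 0 < (Fintype.card V : ℝ)) (i j : Fin 3) (hij : i ≠ j)
    (S : Finset V) (hS : c ^ 2 * Fintype.card V ≤ (nbr p G i S).card) :
    ∃ bad : Finset V, (bad.card : ℝ) ≤ K / c ^ 2 ∧ ∀ u, p u = j → u ∉ bad →
      c * (nbr p G i S).card ≤ (nbr p G i (insert u S)).card := by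
  refine ⟨Finset.univ.filter (fun u => p u = j ∧
      (((nbr p G i S).filter (fun z => G.Adj u z)).card : ℝ) < c * (nbr p G i S).card), ?_, ?_⟩
  · have h1 := hH.mix i j (nbr p G i S) hij (fun z hz => (ze_mem.mp hz).1)
    have hc2 : 0 < c ^ 2 := by positivity
    rw [le_div_iff₀ hc2]
    have h2 : ((Finset.univ.filter (fun u => p u = j ∧
      (((nbr p G i S).filter (fun z => G.Adj u z)).card : ℝ) < c * (nbr p G i S).card)).card : ℝ) *
        (c ^ 2 * Fintype.card V) ≤ K * Fintype.card V :=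
      le_trans (mul_le_mul_of_nonneg_left hS (Nat.cast_nonneg _)) h1
    have h3 : ((Finset.univ.filter (fun u => p u = j ∧
      (((nbr p G i S).filter (fun z => G.Adj u z)).card : ℝ) < c * (nbr p G i S).card)).card : ℝ) *
        c ^ 2 * Fintype.card V ≤ K * Fintype.card V := by
      rw [mul_assoc]
      exact h2
    exact le_of_mul_le_mul_right h3 hn
  · intro u hu hb
    rw [ze_insert]
    by_contra hlt
    apply hb
    simp only [Finset.mem_filter, Finset.mem_univ, true_and]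
    exact ⟨hu, not_le.mp hlt⟩

private theorem ze_choose {V : Type} [Fintype V] {p : V → Fin 3} {G : SimpleGraph V} {c K : ℝ}
    {f m : ℕ} {U : Finset V}
    (hU : ∀ S : Finset V, S.card ≤ 3 → ∀ j, ((nbr p G j S ∩ U).card : ℝ) ≤
        ((nbr p G j S).card : ℝ) / 4 + c ^ 2 / 8 * Fintype.card V)
    (hbig : (f : ℝ) + 8 * m + 1 + (m + 1) + (4 + 2 * m) * (K / c ^ 2) ≤ 5 / 8 * c ^ 2 * Fintype.card V)
    (j : Fin 3) (M : ℕ) (hM : M ≤ m + 1) (S : Fin M → Finset V) (hS3 : ∀ i, (S i).card ≤ 3)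
    (hS : ∀ i, c ^ 2 * Fintype.card V ≤ (nbr p G j (S i)).card) (bad : Fin M → Finset V)
    (hbad : ∀ i, ((bad i).card : ℝ) ≤ (4 + 2 * m) * (K / c ^ 2)) (W : Finset V)
    (hW : W.card ≤ f + 8 * m + 1) :
    ∃ v : Fin M → V, Function.Injective v ∧ ∀ i, (p (v i) = j ∧ ∀ u ∈ S i, G.Adj u (v i)) ∧
      v i ∉ U ∧ v i ∉ bad i ∧ v i ∉ W := by
  have hcard : ∀ i, W.card + M ≤ ((nbr p G j (S i) \ U) \ bad i).card := by
    intro i
    have h1 := Finset.card_inter_add_card_sdiff (nbr p G j (S i)) U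
    have h2 := Finset.le_card_sdiff (bad i) (nbr p G j (S i) \ U)
    have h3 := hU (S i) (hS3 i) j
    have h4 := hS i
    have h5 := hbad i
    have h1' : ((nbr p G j (S i) ∩ U).card : ℝ) + ((nbr p G j (S i) \ U).card : ℝ) =
        (nbr p G j (S i)).card := by exact_mod_cast h1
    have h2' : ((nbr p G j (S i) \ U).card : ℝ) ≤ (((nbr p G j (S i) \ U) \ bad i).card : ℝ) +
        (bad i).card := by
      have : (nbr p G j (S i) \ U).card ≤ ((nbr p G j (S i) \ U) \ bad i).card + (bad i).card := by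
        omega
      exact_mod_cast this
    have h6 : (W.card : ℝ) + M ≤ (((nbr p G j (S i) \ U) \ bad i).card : ℝ) := by
      have hW' : (W.card : ℝ) ≤ f + 8 * m + 1 := by exact_mod_cast hW
      have hM' : (M : ℝ) ≤ m + 1 := by exact_mod_cast hM
      nlinarith
    exact_mod_cast h6
  obtain ⟨v, hv1, hv2⟩ := pick M (fun i => (nbr p G j (S i) \ U) \ bad i) W hcard
  refine ⟨v, hv1, fun i => ?_⟩
  obtain ⟨h1, h2⟩ := hv2 i
  rw [Finset.mem_sdiff, Finset.mem_sdiff] at h1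
  exact ⟨ze_mem.mp h1.1.1, h1.1.2, h1.2, h2⟩

private theorem ze_grow {V : Type} {M : ℕ} (W : Finset V) (v : Fin M → V) :
    (W ∪ Finset.univ.image v).card ≤ W.card + M := by
  refine (Finset.card_union_le _ _).trans ?_
  have h : (Finset.univ.image v).card ≤ M := by
    refine Finset.card_image_le.trans ?_
    simp
  omega

private theorem ze_ne {V : Type} {W : Finset V} {a b : V} (h : a ∉ W) (hb : b ∈ W) : a ≠ b := by
  rintro rfl
  exact h hb

theorem abs_embed (c K : ℝ) (hc : 0 < c) (hc1 : c ≤ 1) (hK : 0 ≤ K) (f m : ℕ) :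
    ∃ n0 : ℕ, ∀ (V : Type) [Fintype V] (p : V → Fin 3) (G : SimpleGraph V), Host p G c K →
      n0 ≤ Fintype.card V → ∀ U F : Finset V, F.card ≤ f →
      (∀ S : Finset V, S.card ≤ 3 → ∀ j, ((nbr p G j S ∩ U).card : ℝ) ≤
        ((nbr p G j S).card : ℝ) / 4 + c ^ 2 / 8 * Fintype.card V) →
      ∀ m' ≤ m, ∀ (x y z : Fin m' → V) (τ : Equiv.Perm (Fin m')),
        (∀ i, p (x i) = 0 ∧ p (y i) = 1 ∧ p (z i) = 2) →
        (∀ i, x i ∈ F ∧ y i ∈ F ∧ z i ∈ F) →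
        ∃ (N : Fin 8 → Fin m' → V) (o : V), AbsPat p G m' x y z τ N o ∧
          (∀ k i, N k i ∉ U ∧ N k i ∉ F) ∧ o ∉ U ∧ o ∉ F := by
  have hc2 : 0 < c ^ 2 := by positivity
  have hKc : 0 ≤ K / c ^ 2 := by positivity
  obtain ⟨n0, hn0⟩ := exists_nat_ge (((f : ℝ) + 8 * m + 1 + (m + 1) + (4 + 2 * m) * (K / c ^ 2)) /
    (5 / 8 * c ^ 2))
  refine ⟨n0 + 1, ?_⟩
  intro V _ p G hH hn U F hF hU m' hm x y z τ hp hin
  have hnpos : 0 < (Fintype.card V : ℝ) := by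
    have : 0 < Fintype.card V := by omega
    exact_mod_cast this
  have hbig : (f : ℝ) + 8 * m + 1 + (m + 1) + (4 + 2 * m) * (K / c ^ 2) ≤
      5 / 8 * c ^ 2 * Fintype.card V := by
    rw [div_le_iff₀ (by positivity)] at hn0
    have h1 : (n0 : ℝ) ≤ Fintype.card V := by
      have : n0 ≤ Fintype.card V := by omega
      exact_mod_cast this
    nlinarith
  have hcc : c ^ 2 ≤ c := by nlinarith
  have hcn : c ^ 2 * Fintype.card V ≤ c * Fintype.card V := mul_le_mul_of_nonneg_right hcc hnpos.le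
  -- sizes
  have hcod : ∀ u v j, G.Adj u v → j ≠ p u → j ≠ p v →
      c * Fintype.card V ≤ ((nbr p G j {u, v}).card : ℝ) := by
    intro u v j huv h1 h2
    obtain ⟨k, hk, hk2⟩ := hH.cod
    rw [hk2 u v huv j h1 h2]
    exact hk
  have hsq : ∀ t : ℝ, c * Fintype.card V ≤ t → c ^ 2 * Fintype.card V ≤ c * t := by
    intro t ht
    nlinarith
  have hpow1 : K / c ^ 2 ≤ (4 + 2 * (m : ℝ)) * (K / c ^ 2) := by
    have : (0 : ℝ) ≤ m := Nat.cast_nonneg m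
    nlinarith
  have hpow2 : K / c ^ 2 + K / c ^ 2 ≤ (4 + 2 * (m : ℝ)) * (K / c ^ 2) := by
    have : (0 : ℝ) ≤ m := Nat.cast_nonneg m
    nlinarith [mul_nonneg this hKc]
  have hpow0 : (((∅ : Finset V).card : ℕ) : ℝ) ≤ (4 + 2 * (m : ℝ)) * (K / c ^ 2) := by
    simp only [Finset.card_empty, Nat.cast_zero]
    positivity
  have hpow3 : ∀ A B : Finset V, (A.card : ℝ) ≤ K / c ^ 2 → (B.card : ℝ) ≤ K / c ^ 2 →
      ((A ∪ B).card : ℝ) ≤ (4 + 2 * (m : ℝ)) * (K / c ^ 2) := by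
    intro A B hA hB
    have h1 : ((A ∪ B).card : ℝ) ≤ A.card + B.card := by exact_mod_cast Finset.card_union_le A B
    linarith
  have hx : ∀ i, p (x i) = 0 := fun i => (hp i).1
  have hy : ∀ i, p (y i) = 1 := fun i => (hp i).2.1
  have hz : ∀ i, p (z i) = 2 := fun i => (hp i).2.2
  have hm1 : m' ≤ m + 1 := by omega
  have c3 : ∀ u v w : V, (insert u ({v, w} : Finset V)).card ≤ 3 := by
    intro u v w
    exact Finset.card_le_three
  have c2 : ∀ u v : V, (insert u ({v} : Finset V)).card ≤ 3 := by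
    intro u v
    exact Finset.card_le_two.trans (by norm_num)
  have c1 : ∀ v : V, ({v} : Finset V).card ≤ 3 := by
    intro v
    simp
  -- step 1: N0
  have s1 : ∀ i, ∃ bad : Finset V, (bad.card : ℝ) ≤ K / c ^ 2 ∧ ∀ u, p u = 1 → u ∉ bad →
      c ^ 2 * Fintype.card V ≤ (nbr p G 2 (insert u {x i, y i})).card := by
    intro i
    have h1 : c * Fintype.card V ≤ ((nbr p G 2 {x i, y i}).card : ℝ) :=
      hcod _ _ 2 (hH.cells _ _ (hx i) (hy i)) (by rw [hx]; decide) (by rw [hy]; decide)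
    obtain ⟨bad, hb1, hb2⟩ := ze_mix hH hc hnpos 2 1 (by decide) {x i, y i} (hcn.trans h1)
    exact ⟨bad, hb1, fun u hu hub => (hsq _ h1).trans (hb2 u hu hub)⟩
  choose b1 hb1 hb1' using s1
  obtain ⟨N0, N0i, hN0⟩ := ze_choose hU hbig 1 m' hm1 (fun i => {z i}) (fun i => c1 _)
    (fun i => hcn.trans (hH.deg (z i) 1 (by rw [hz]; decide))) b1 (fun i => (hb1 i).trans hpow1) F
    (by omega)
  have N0p : ∀ i, p (N0 i) = 1 := fun i => (hN0 i).1.1
  have N0z : ∀ i, G.Adj (z i) (N0 i) := fun i => (hN0 i).1.2 _ (by simp)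
  have N0s : ∀ i, c ^ 2 * Fintype.card V ≤ ((nbr p G 2 (insert (N0 i) {x i, y i})).card : ℝ) :=
    fun i => hb1' i _ (N0p i) (hN0 i).2.2.1
  -- step 2: o
  have s2 : ∀ i k, ∃ bad : Finset V, (bad.card : ℝ) ≤ K / c ^ 2 ∧ ∀ u, p u = 0 → u ∉ bad →
      c ^ 2 * Fintype.card V ≤ (nbr p G 2 (insert u {x i, N0 k})).card := by
    intro i k
    have h1 : c * Fintype.card V ≤ ((nbr p G 2 {x i, N0 k}).card : ℝ) :=
      hcod _ _ 2 (hH.cells _ _ (hx i) (N0p k)) (by rw [hx]; decide) (by rw [N0p]; decide)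
    obtain ⟨bad, hb1, hb2⟩ := ze_mix hH hc hnpos 2 0 (by decide) {x i, N0 k} (hcn.trans h1)
    exact ⟨bad, hb1, fun u hu hub => (hsq _ h1).trans (hb2 u hu hub)⟩
  choose b2 hb2 hb2' using s2
  have hpart0 : c ^ 2 * Fintype.card V ≤ ((nbr p G 0 ∅).card : ℝ) := by
    have h1 : nbr p G 0 ∅ = cls p Finset.univ 0 := by
      ext v
      simp [nbr, cls]
    rw [h1]
    exact hcn.trans (hH.size 0)
  have hb2c : (((Finset.univ.biUnion fun i : Fin m' => b2 i i ∪ b2 (τ i) i).card : ℕ) : ℝ) ≤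
      (4 + 2 * (m : ℝ)) * (K / c ^ 2) := by
    have h1 : (Finset.univ.biUnion fun i : Fin m' => b2 i i ∪ b2 (τ i) i).card ≤
        ∑ i : Fin m', ((b2 i i).card + (b2 (τ i) i).card) :=
      Finset.card_biUnion_le.trans (Finset.sum_le_sum fun i _ => Finset.card_union_le _ _)
    have h2 : ((∑ i : Fin m', ((b2 i i).card + (b2 (τ i) i).card) : ℕ) : ℝ) ≤
        m' * (2 * (K / c ^ 2)) := by
      push_cast
      calc ∑ i : Fin m', (((b2 i i).card : ℝ) + ((b2 (τ i) i).card : ℝ))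
          ≤ ∑ _i : Fin m', (2 * (K / c ^ 2)) :=
            Finset.sum_le_sum fun i _ => by linarith [hb2 i i, hb2 (τ i) i]
        _ = m' * (2 * (K / c ^ 2)) := by simp
    have h3 : (m' : ℝ) ≤ m := by exact_mod_cast hm
    have h4 : ((Finset.univ.biUnion fun i : Fin m' => b2 i i ∪ b2 (τ i) i).card : ℝ) ≤
        ((∑ i : Fin m', ((b2 i i).card + (b2 (τ i) i).card) : ℕ) : ℝ) := by exact_mod_cast h1
    nlinarith
  obtain ⟨W1, hW1⟩ : ∃ W, W = F ∪ Finset.univ.image N0 := ⟨_, rfl⟩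
  have cW1 : W1.card ≤ f + m' := by
    rw [hW1]
    exact (ze_grow F N0).trans (by omega)
  obtain ⟨ov, -, hov⟩ := ze_choose hU hbig 0 1 (by omega) (fun _ => ∅) (fun i => by simp)
    (fun i => hpart0) (fun _ => Finset.univ.biUnion fun i : Fin m' => b2 i i ∪ b2 (τ i) i)
    (fun _ => hb2c) W1 (by omega)
  obtain ⟨⟨op, -⟩, oU, ob, oW⟩ := hov 0
  obtain ⟨o, ho⟩ : ∃ o, o = ov 0 := ⟨_, rfl⟩
  rw [← ho] at op oU ob oW
  have ob1 : ∀ i, o ∉ b2 i i ∧ o ∉ b2 (τ i) i := by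
    intro i
    constructor
    · intro h
      exact ob (Finset.mem_biUnion.mpr ⟨i, Finset.mem_univ _, Finset.mem_union_left _ h⟩)
    · intro h
      exact ob (Finset.mem_biUnion.mpr ⟨i, Finset.mem_univ _, Finset.mem_union_right _ h⟩)
  have os1 : ∀ i, c ^ 2 * Fintype.card V ≤ ((nbr p G 2 (insert o {x i, N0 i})).card : ℝ) :=
    fun i => hb2' i i o op (ob1 i).1
  have os2 : ∀ i, c ^ 2 * Fintype.card V ≤ ((nbr p G 2 (insert o {x (τ i), N0 i})).card : ℝ) :=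
    fun i => hb2' (τ i) i o op (ob1 i).2
  obtain ⟨W2, hW2⟩ : ∃ W, W = insert o W1 := ⟨_, rfl⟩
  have cW2 : W2.card ≤ f + m' + 1 := by
    rw [hW2]
    exact (Finset.card_insert_le _ _).trans (by omega)
  -- step 3: N1
  have s3 : ∀ i, ∃ bad : Finset V, (bad.card : ℝ) ≤ K / c ^ 2 ∧ ∀ u, p u = 2 → u ∉ bad →
      c ^ 2 * Fintype.card V ≤ (nbr p G 0 (insert u {z i})).card := by
    intro i
    have h1 : c * Fintype.card V ≤ ((nbr p G 0 {z i}).card : ℝ) :=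
      hH.deg _ 0 (by rw [hz]; decide)
    obtain ⟨bad, hb1, hb2⟩ := ze_mix hH hc hnpos 0 2 (by decide) {z i} (hcn.trans h1)
    exact ⟨bad, hb1, fun u hu hub => (hsq _ h1).trans (hb2 u hu hub)⟩
  choose b3 hb3 hb3' using s3
  obtain ⟨N1, N1i, hN1⟩ := ze_choose hU hbig 2 m' hm1 (fun i => insert (N0 i) {x i, y i})
    (fun i => c3 _ _ _) N0s b3 (fun i => (hb3 i).trans hpow1) W2 (by omega)
  have N1p : ∀ i, p (N1 i) = 2 := fun i => (hN1 i).1.1
  have N1s : ∀ i, c ^ 2 * Fintype.card V ≤ ((nbr p G 0 (insert (N1 i) {z i})).card : ℝ) :=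
    fun i => hb3' i _ (N1p i) (hN1 i).2.2.1
  obtain ⟨W3, hW3⟩ : ∃ W, W = W2 ∪ Finset.univ.image N1 := ⟨_, rfl⟩
  have cW3 : W3.card ≤ f + 2 * m' + 1 := by
    rw [hW3]
    exact (ze_grow _ _).trans (by omega)
  -- step 4: N2
  obtain ⟨N2, N2i, hN2⟩ := ze_choose hU hbig 0 m' hm1 (fun i => insert (N1 i) {z i})
    (fun i => c2 _ _) N1s (fun _ => ∅) (fun i => hpow0) W3 (by omega)
  obtain ⟨W4, hW4⟩ : ∃ W, W = W3 ∪ Finset.univ.image N2 := ⟨_, rfl⟩
  have cW4 : W4.card ≤ f + 3 * m' + 1 := by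
    rw [hW4]
    exact (ze_grow _ _).trans (by omega)
  -- step 5: N3
  have s5 : ∀ i, ∃ bad : Finset V, (bad.card : ℝ) ≤ K / c ^ 2 ∧ ∀ u, p u = 2 → u ∉ bad →
      c ^ 2 * Fintype.card V ≤ (nbr p G 1 (insert u {z i})).card := by
    intro i
    have h1 : c * Fintype.card V ≤ ((nbr p G 1 {z i}).card : ℝ) :=
      hH.deg _ 1 (by rw [hz]; decide)
    obtain ⟨bad, hb1, hb2⟩ := ze_mix hH hc hnpos 1 2 (by decide) {z i} (hcn.trans h1)
    exact ⟨bad, hb1, fun u hu hub => (hsq _ h1).trans (hb2 u hu hub)⟩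
  choose b5 hb5 hb5' using s5
  obtain ⟨N3, N3i, hN3⟩ := ze_choose hU hbig 2 m' hm1 (fun i => insert o {x (τ i), N0 i})
    (fun i => c3 _ _ _) os2 (fun i => b3 i ∪ b5 i) (fun i => hpow3 _ _ (hb3 i) (hb5 i)) W4 (by omega)
  have N3p : ∀ i, p (N3 i) = 2 := fun i => (hN3 i).1.1
  have N3s0 : ∀ i, c ^ 2 * Fintype.card V ≤ ((nbr p G 0 (insert (N3 i) {z i})).card : ℝ) :=
    fun i => hb3' i _ (N3p i) (fun h => (hN3 i).2.2.1 (Finset.mem_union_left _ h))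
  have N3s1 : ∀ i, c ^ 2 * Fintype.card V ≤ ((nbr p G 1 (insert (N3 i) {z i})).card : ℝ) :=
    fun i => hb5' i _ (N3p i) (fun h => (hN3 i).2.2.1 (Finset.mem_union_right _ h))
  obtain ⟨W5, hW5⟩ : ∃ W, W = W4 ∪ Finset.univ.image N3 := ⟨_, rfl⟩
  have cW5 : W5.card ≤ f + 4 * m' + 1 := by
    rw [hW5]
    exact (ze_grow _ _).trans (by omega)
  -- step 6: N4, N5
  obtain ⟨N4, N4i, hN4⟩ := ze_choose hU hbig 0 m' hm1 (fun i => insert (N3 i) {z i})
    (fun i => c2 _ _) N3s0 (fun _ => ∅) (fun i => hpow0) W5 (by omega)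
  obtain ⟨W6, hW6⟩ : ∃ W, W = W5 ∪ Finset.univ.image N4 := ⟨_, rfl⟩
  have cW6 : W6.card ≤ f + 5 * m' + 1 := by
    rw [hW6]
    exact (ze_grow _ _).trans (by omega)
  obtain ⟨N5, N5i, hN5⟩ := ze_choose hU hbig 1 m' hm1 (fun i => insert (N3 i) {z i})
    (fun i => c2 _ _) N3s1 (fun _ => ∅) (fun i => hpow0) W6 (by omega)
  obtain ⟨W7, hW7⟩ : ∃ W, W = W6 ∪ Finset.univ.image N5 := ⟨_, rfl⟩
  have cW7 : W7.card ≤ f + 6 * m' + 1 := by
    rw [hW7]
    exact (ze_grow _ _).trans (by omega)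
  -- step 7: N7
  have s7 : ∀ i, ∃ bad : Finset V, (bad.card : ℝ) ≤ K / c ^ 2 ∧ ∀ u, p u = 2 → u ∉ bad →
      c ^ 2 * Fintype.card V ≤ (nbr p G 1 (insert u {N3 i})).card := by
    intro i
    have h1 : c * Fintype.card V ≤ ((nbr p G 1 {N3 i}).card : ℝ) :=
      hH.deg _ 1 (by rw [N3p]; decide)
    obtain ⟨bad, hb1, hb2⟩ := ze_mix hH hc hnpos 1 2 (by decide) {N3 i} (hcn.trans h1)
    exact ⟨bad, hb1, fun u hu hub => (hsq _ h1).trans (hb2 u hu hub)⟩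
  choose b7 hb7 hb7' using s7
  obtain ⟨N7, N7i, hN7⟩ := ze_choose hU hbig 2 m' hm1 (fun i => insert o {x (τ i), N0 (τ i)})
    (fun i => c3 _ _ _) (fun i => os1 (τ i)) b7 (fun i => (hb7 i).trans hpow1) W7 (by omega)
  have N7p : ∀ i, p (N7 i) = 2 := fun i => (hN7 i).1.1
  have N7s : ∀ i, c ^ 2 * Fintype.card V ≤ ((nbr p G 1 (insert (N7 i) {N3 i})).card : ℝ) :=
    fun i => hb7' i _ (N7p i) (hN7 i).2.2.1
  obtain ⟨W8, hW8⟩ : ∃ W, W = W7 ∪ Finset.univ.image N7 := ⟨_, rfl⟩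
  have cW8 : W8.card ≤ f + 7 * m' + 1 := by
    rw [hW8]
    exact (ze_grow _ _).trans (by omega)
  -- step 8: N6
  obtain ⟨N6, N6i, hN6⟩ := ze_choose hU hbig 1 m' hm1 (fun i => insert (N7 i) {N3 i})
    (fun i => c2 _ _) N7s (fun _ => ∅) (fun i => hpow0) W8 (by omega)
  -- memberships
  have l12 : ∀ v, v ∈ W1 → v ∈ W2 := fun v h => by rw [hW2]; exact Finset.mem_insert_of_mem h
  have l23 : ∀ v, v ∈ W2 → v ∈ W3 := fun v h => by rw [hW3]; exact Finset.mem_union_left _ h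
  have l34 : ∀ v, v ∈ W3 → v ∈ W4 := fun v h => by rw [hW4]; exact Finset.mem_union_left _ h
  have l45 : ∀ v, v ∈ W4 → v ∈ W5 := fun v h => by rw [hW5]; exact Finset.mem_union_left _ h
  have l56 : ∀ v, v ∈ W5 → v ∈ W6 := fun v h => by rw [hW6]; exact Finset.mem_union_left _ h
  have l67 : ∀ v, v ∈ W6 → v ∈ W7 := fun v h => by rw [hW7]; exact Finset.mem_union_left _ h
  have l78 : ∀ v, v ∈ W7 → v ∈ W8 := fun v h => by rw [hW8]; exact Finset.mem_union_left _ h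
  have l58 : ∀ v, v ∈ W5 → v ∈ W8 := fun v h => l78 v (l67 v (l56 v h))
  have l57 : ∀ v, v ∈ W5 → v ∈ W7 := fun v h => l67 v (l56 v h)
  have mF : ∀ v, v ∈ F → v ∈ W1 := fun v h => by rw [hW1]; exact Finset.mem_union_left _ h
  have m0 : ∀ i, N0 i ∈ W1 := fun i => by
    rw [hW1]; exact Finset.mem_union_right _ (Finset.mem_image_of_mem _ (Finset.mem_univ _))
  have mo : o ∈ W2 := by rw [hW2]; exact Finset.mem_insert_self _ _
  have m1 : ∀ i, N1 i ∈ W3 := fun i => by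
    rw [hW3]; exact Finset.mem_union_right _ (Finset.mem_image_of_mem _ (Finset.mem_univ _))
  have m2 : ∀ i, N2 i ∈ W4 := fun i => by
    rw [hW4]; exact Finset.mem_union_right _ (Finset.mem_image_of_mem _ (Finset.mem_univ _))
  have m3 : ∀ i, N3 i ∈ W5 := fun i => by
    rw [hW5]; exact Finset.mem_union_right _ (Finset.mem_image_of_mem _ (Finset.mem_univ _))
  have m4 : ∀ i, N4 i ∈ W6 := fun i => by
    rw [hW6]; exact Finset.mem_union_right _ (Finset.mem_image_of_mem _ (Finset.mem_univ _))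
  have m5 : ∀ i, N5 i ∈ W7 := fun i => by
    rw [hW7]; exact Finset.mem_union_right _ (Finset.mem_image_of_mem _ (Finset.mem_univ _))
  have m7 : ∀ i, N7 i ∈ W8 := fun i => by
    rw [hW8]; exact Finset.mem_union_right _ (Finset.mem_image_of_mem _ (Finset.mem_univ _))
  have l24 : ∀ v, v ∈ W2 → v ∈ W4 := fun v h => l34 v (l23 v h)
  have l25 : ∀ v, v ∈ W2 → v ∈ W5 := fun v h => l45 v (l24 v h)
  have q1 : ∀ i, N1 i ∉ W2 := fun i => (hN1 i).2.2.2
  have q2 : ∀ i, N2 i ∉ W3 := fun i => (hN2 i).2.2.2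
  have q3 : ∀ i, N3 i ∉ W4 := fun i => (hN3 i).2.2.2
  have q4 : ∀ i, N4 i ∉ W5 := fun i => (hN4 i).2.2.2
  have q5 : ∀ i, N5 i ∉ W6 := fun i => (hN5 i).2.2.2
  have q7 : ∀ i, N7 i ∉ W7 := fun i => (hN7 i).2.2.2
  have q6 : ∀ i, N6 i ∉ W8 := fun i => (hN6 i).2.2.2
  obtain ⟨N, hNdef⟩ : ∃ N : Fin 8 → Fin m' → V, N = ![N0, N1, N2, N3, N4, N5, N6, N7] := ⟨_, rfl⟩
  have e0 : N 0 = N0 := by rw [hNdef]; rfl
  have e1 : N 1 = N1 := by rw [hNdef]; rfl
  have e2 : N 2 = N2 := by rw [hNdef]; rfl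
  have e3 : N 3 = N3 := by rw [hNdef]; rfl
  have e4 : N 4 = N4 := by rw [hNdef]; rfl
  have e5 : N 5 = N5 := by rw [hNdef]; rfl
  have e6 : N 6 = N6 := by rw [hNdef]; rfl
  have e7 : N 7 = N7 := by rw [hNdef]; rfl
  have allk : ∀ P : Fin 8 → Prop, P 0 → P 1 → P 2 → P 3 → P 4 → P 5 → P 6 → P 7 → ∀ k, P k := by
    intro P h0 h1 h2 h3 h4 h5 h6 h7 k
    fin_cases k <;> assumption
  have hNUF : ∀ k i, N k i ∉ U ∧ N k i ∉ F ∧ N k i ≠ o := by
    refine allk _ ?_ ?_ ?_ ?_ ?_ ?_ ?_ ?_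
    · intro i
      rw [e0]
      exact ⟨(hN0 i).2.1, (hN0 i).2.2.2, (ze_ne oW (m0 i)).symm⟩
    · intro i
      rw [e1]
      exact ⟨(hN1 i).2.1, fun h => q1 i (l12 _ (mF _ h)), ze_ne (q1 i) mo⟩
    · intro i
      rw [e2]
      exact ⟨(hN2 i).2.1, fun h => q2 i (l23 _ (l12 _ (mF _ h))), ze_ne (q2 i) (l23 _ mo)⟩
    · intro i
      rw [e3]
      exact ⟨(hN3 i).2.1, fun h => q3 i (l24 _ (l12 _ (mF _ h))), ze_ne (q3 i) (l24 _ mo)⟩
    · intro i
      rw [e4]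
      exact ⟨(hN4 i).2.1, fun h => q4 i (l25 _ (l12 _ (mF _ h))), ze_ne (q4 i) (l25 _ mo)⟩
    · intro i
      rw [e5]
      exact ⟨(hN5 i).2.1, fun h => q5 i (l56 _ (l25 _ (l12 _ (mF _ h)))),
        ze_ne (q5 i) (l56 _ (l25 _ mo))⟩
    · intro i
      rw [e6]
      exact ⟨(hN6 i).2.1, fun h => q6 i (l58 _ (l25 _ (l12 _ (mF _ h)))),
        ze_ne (q6 i) (l58 _ (l25 _ mo))⟩
    · intro i
      rw [e7]
      exact ⟨(hN7 i).2.1, fun h => q7 i (l57 _ (l25 _ (l12 _ (mF _ h)))),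
        ze_ne (q7 i) (l57 _ (l25 _ mo))⟩
  have d10 : ∀ i j, N1 i ≠ N0 j := fun i j => ze_ne (q1 i) (l12 _ (m0 j))
  have d20 : ∀ i j, N2 i ≠ N0 j := fun i j => ze_ne (q2 i) (l23 _ (l12 _ (m0 j)))
  have d21 : ∀ i j, N2 i ≠ N1 j := fun i j => ze_ne (q2 i) (m1 j)
  have d30 : ∀ i j, N3 i ≠ N0 j := fun i j => ze_ne (q3 i) (l24 _ (l12 _ (m0 j)))
  have d31 : ∀ i j, N3 i ≠ N1 j := fun i j => ze_ne (q3 i) (l34 _ (m1 j))
  have d32 : ∀ i j, N3 i ≠ N2 j := fun i j => ze_ne (q3 i) (m2 j)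
  have r0 : ∀ j, N0 j ∈ W5 := fun j => l25 _ (l12 _ (m0 j))
  have r1 : ∀ j, N1 j ∈ W5 := fun j => l45 _ (l34 _ (m1 j))
  have r2 : ∀ j, N2 j ∈ W5 := fun j => l45 _ (m2 j)
  have d40 : ∀ i j, N4 i ≠ N0 j := fun i j => ze_ne (q4 i) (r0 j)
  have d41 : ∀ i j, N4 i ≠ N1 j := fun i j => ze_ne (q4 i) (r1 j)
  have d42 : ∀ i j, N4 i ≠ N2 j := fun i j => ze_ne (q4 i) (r2 j)
  have d43 : ∀ i j, N4 i ≠ N3 j := fun i j => ze_ne (q4 i) (m3 j)
  have d50 : ∀ i j, N5 i ≠ N0 j := fun i j => ze_ne (q5 i) (l56 _ (r0 j))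
  have d51 : ∀ i j, N5 i ≠ N1 j := fun i j => ze_ne (q5 i) (l56 _ (r1 j))
  have d52 : ∀ i j, N5 i ≠ N2 j := fun i j => ze_ne (q5 i) (l56 _ (r2 j))
  have d53 : ∀ i j, N5 i ≠ N3 j := fun i j => ze_ne (q5 i) (l56 _ (m3 j))
  have d54 : ∀ i j, N5 i ≠ N4 j := fun i j => ze_ne (q5 i) (m4 j)
  have d70 : ∀ i j, N7 i ≠ N0 j := fun i j => ze_ne (q7 i) (l57 _ (r0 j))
  have d71 : ∀ i j, N7 i ≠ N1 j := fun i j => ze_ne (q7 i) (l57 _ (r1 j))
  have d72 : ∀ i j, N7 i ≠ N2 j := fun i j => ze_ne (q7 i) (l57 _ (r2 j))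
  have d73 : ∀ i j, N7 i ≠ N3 j := fun i j => ze_ne (q7 i) (l57 _ (m3 j))
  have d74 : ∀ i j, N7 i ≠ N4 j := fun i j => ze_ne (q7 i) (l67 _ (m4 j))
  have d75 : ∀ i j, N7 i ≠ N5 j := fun i j => ze_ne (q7 i) (m5 j)
  have d60 : ∀ i j, N6 i ≠ N0 j := fun i j => ze_ne (q6 i) (l58 _ (r0 j))
  have d61 : ∀ i j, N6 i ≠ N1 j := fun i j => ze_ne (q6 i) (l58 _ (r1 j))
  have d62 : ∀ i j, N6 i ≠ N2 j := fun i j => ze_ne (q6 i) (l58 _ (r2 j))
  have d63 : ∀ i j, N6 i ≠ N3 j := fun i j => ze_ne (q6 i) (l58 _ (m3 j))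
  have d64 : ∀ i j, N6 i ≠ N4 j := fun i j => ze_ne (q6 i) (l78 _ (l67 _ (m4 j)))
  have d65 : ∀ i j, N6 i ≠ N5 j := fun i j => ze_ne (q6 i) (l78 _ (m5 j))
  have d67 : ∀ i j, N6 i ≠ N7 j := fun i j => ze_ne (q6 i) (m7 j)
  have hinj : Function.Injective fun q : Fin 8 × Fin m' => N q.1 q.2 := by
    rintro ⟨k, i⟩ ⟨l, j⟩ h
    have h' : N k i = N l j := h
    have hki : ∀ k, ∀ i j, N k i = N k j → i = j := by
      refine allk _ ?_ ?_ ?_ ?_ ?_ ?_ ?_ ?_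
      · intro i j h; rw [e0] at h; exact N0i h
      · intro i j h; rw [e1] at h; exact N1i h
      · intro i j h; rw [e2] at h; exact N2i h
      · intro i j h; rw [e3] at h; exact N3i h
      · intro i j h; rw [e4] at h; exact N4i h
      · intro i j h; rw [e5] at h; exact N5i h
      · intro i j h; rw [e6] at h; exact N6i h
      · intro i j h; rw [e7] at h; exact N7i h
    have hkl : ∀ k l, ∀ i j, N k i = N l j → k = l := by
      have sy : ∀ (a b : Fin m' → V), (∀ i j, a i ≠ b j) → ∀ i j, b i = a j → False :=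
        fun a b h i j h' => absurd h'.symm (h j i)
      have no : ∀ (a b : Fin m' → V), (∀ i j, a i ≠ b j) → ∀ i j, a i = b j → False :=
        fun a b h i j h' => absurd h' (h i j)
      refine allk _ ?_ ?_ ?_ ?_ ?_ ?_ ?_ ?_
      · refine allk _ ?_ ?_ ?_ ?_ ?_ ?_ ?_ ?_ <;> intro i j h <;> simp only [e0, e1, e2, e3, e4, e5, e6, e7] at h
        exacts [rfl, (sy _ _ d10 _ _ h).elim, (sy _ _ d20 _ _ h).elim, (sy _ _ d30 _ _ h).elim, (sy _ _ d40 _ _ h).elim, (sy _ _ d50 _ _ h).elim, (sy _ _ d60 _ _ h).elim, (sy _ _ d70 _ _ h).elim]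
      · refine allk _ ?_ ?_ ?_ ?_ ?_ ?_ ?_ ?_ <;> intro i j h <;> simp only [e0, e1, e2, e3, e4, e5, e6, e7] at h
        exacts [(no _ _ d10 _ _ h).elim, rfl, (sy _ _ d21 _ _ h).elim, (sy _ _ d31 _ _ h).elim, (sy _ _ d41 _ _ h).elim, (sy _ _ d51 _ _ h).elim, (sy _ _ d61 _ _ h).elim, (sy _ _ d71 _ _ h).elim]
      · refine allk _ ?_ ?_ ?_ ?_ ?_ ?_ ?_ ?_ <;> intro i j h <;> simp only [e0, e1, e2, e3, e4, e5, e6, e7] at h
        exacts [(no _ _ d20 _ _ h).elim, (no _ _ d21 _ _ h).elim, rfl, (sy _ _ d32 _ _ h).elim, (sy _ _ d42 _ _ h).elim, (sy _ _ d52 _ _ h).elim, (sy _ _ d62 _ _ h).elim, (sy _ _ d72 _ _ h).elim]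
      · refine allk _ ?_ ?_ ?_ ?_ ?_ ?_ ?_ ?_ <;> intro i j h <;> simp only [e0, e1, e2, e3, e4, e5, e6, e7] at h
        exacts [(no _ _ d30 _ _ h).elim, (no _ _ d31 _ _ h).elim, (no _ _ d32 _ _ h).elim, rfl, (sy _ _ d43 _ _ h).elim, (sy _ _ d53 _ _ h).elim, (sy _ _ d63 _ _ h).elim, (sy _ _ d73 _ _ h).elim]
      · refine allk _ ?_ ?_ ?_ ?_ ?_ ?_ ?_ ?_ <;> intro i j h <;> simp only [e0, e1, e2, e3, e4, e5, e6, e7] at h
        exacts [(no _ _ d40 _ _ h).elim, (no _ _ d41 _ _ h).elim, (no _ _ d42 _ _ h).elim, (no _ _ d43 _ _ h).elim, rfl, (sy _ _ d54 _ _ h).elim, (sy _ _ d64 _ _ h).elim, (sy _ _ d74 _ _ h).elim]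
      · refine allk _ ?_ ?_ ?_ ?_ ?_ ?_ ?_ ?_ <;> intro i j h <;> simp only [e0, e1, e2, e3, e4, e5, e6, e7] at h
        exacts [(no _ _ d50 _ _ h).elim, (no _ _ d51 _ _ h).elim, (no _ _ d52 _ _ h).elim, (no _ _ d53 _ _ h).elim, (no _ _ d54 _ _ h).elim, rfl, (sy _ _ d65 _ _ h).elim, (sy _ _ d75 _ _ h).elim]
      · refine allk _ ?_ ?_ ?_ ?_ ?_ ?_ ?_ ?_ <;> intro i j h <;> simp only [e0, e1, e2, e3, e4, e5, e6, e7] at h
        exacts [(no _ _ d60 _ _ h).elim, (no _ _ d61 _ _ h).elim, (no _ _ d62 _ _ h).elim, (no _ _ d63 _ _ h).elim, (no _ _ d64 _ _ h).elim, (no _ _ d65 _ _ h).elim, rfl, (no _ _ d67 _ _ h).elim]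
      · refine allk _ ?_ ?_ ?_ ?_ ?_ ?_ ?_ ?_ <;> intro i j h <;> simp only [e0, e1, e2, e3, e4, e5, e6, e7] at h
        exacts [(no _ _ d70 _ _ h).elim, (no _ _ d71 _ _ h).elim, (no _ _ d72 _ _ h).elim, (no _ _ d73 _ _ h).elim, (no _ _ d74 _ _ h).elim, (no _ _ d75 _ _ h).elim, (sy _ _ d67 _ _ h).elim, rfl]
    have hk := hkl k l i j h'
    subst hk
    rw [hki k i j h']
  refine ⟨N, o, ⟨hinj, ?_, op, fun k i => (hNUF k i).2.2, ?_, ?_, ?_, ?_, ?_⟩,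
    fun k i => ⟨(hNUF k i).1, (hNUF k i).2.1⟩, oU, fun h => oW (mF _ h)⟩
  · refine allk _ ?_ ?_ ?_ ?_ ?_ ?_ ?_ ?_ <;> intro i
    · rw [e0]; exact N0p i
    · rw [e1]; exact N1p i
    · rw [e2]; exact (hN2 i).1.1
    · rw [e3]; exact N3p i
    · rw [e4]; exact (hN4 i).1.1
    · rw [e5]; exact (hN5 i).1.1
    · rw [e6]; exact (hN6 i).1.1
    · rw [e7]; exact N7p i
  · intro k i j h
    exact (hNUF k i).2.1 (h ▸ (hin j).1)
  · intro k i j h
    exact (hNUF k i).2.1 (h ▸ (hin j).2.1)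
  · intro k i j h
    exact (hNUF k i).2.1 (h ▸ (hin j).2.2)
  · intro j h
    exact oW (h ▸ mF _ (hin j).1)
  · intro i k
    have hcell : ∀ u v, p u = 0 → p v = 1 → s(u, v) ∈ G.edgeSet := fun u v h1 h2 =>
      (SimpleGraph.mem_edgeSet G).mpr (hH.cells u v h1 h2)
    have hcell' : ∀ u v, p u = 1 → p v = 0 → s(u, v) ∈ G.edgeSet := fun u v h1 h2 =>
      (SimpleGraph.mem_edgeSet G).mpr (hH.cells v u h2 h1).symm
    have ad : ∀ u v, G.Adj u v → s(u, v) ∈ G.edgeSet := fun u v h => (SimpleGraph.mem_edgeSet G).mpr h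
    have ad' : ∀ u v, G.Adj v u → s(u, v) ∈ G.edgeSet := fun u v h => (SimpleGraph.mem_edgeSet G).mpr h.symm
    have a_p := (hN1 i).1.2 (N0 i) (by simp)
    have a_x := (hN1 i).1.2 (x i) (by simp)
    have a_y := (hN1 i).1.2 (y i) (by simp)
    have b_a := (hN2 i).1.2 (N1 i) (by simp)
    have b_z := (hN2 i).1.2 (z i) (by simp)
    have q_o := (hN3 i).1.2 o (by simp)
    have q_x := (hN3 i).1.2 (x (τ i)) (by simp)
    have q_p := (hN3 i).1.2 (N0 i) (by simp)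
    have c_q := (hN4 i).1.2 (N3 i) (by simp)
    have c_z := (hN4 i).1.2 (z i) (by simp)
    have d_q := (hN5 i).1.2 (N3 i) (by simp)
    have d_z := (hN5 i).1.2 (z i) (by simp)
    have f_o := (hN7 i).1.2 o (by simp)
    have f_x := (hN7 i).1.2 (x (τ i)) (by simp)
    have f_p := (hN7 i).1.2 (N0 (τ i)) (by simp)
    have e_f := (hN6 i).1.2 (N7 i) (by simp)
    have e_q := (hN6 i).1.2 (N3 i) (by simp)
    have N2p : ∀ i, p (N2 i) = 0 := fun i => (hN2 i).1.1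
    have N4p : ∀ i, p (N4 i) = 0 := fun i => (hN4 i).1.1
    have N5p : ∀ i, p (N5 i) = 1 := fun i => (hN5 i).1.1
    have N6p : ∀ i, p (N6 i) = 1 := fun i => (hN6 i).1.1
    have p_z := N0z i
    unfold absEdge
    rw [e0, e1, e2, e3, e4, e5, e6, e7]
    fin_cases k
    · exact ad' _ _ a_x
    · exact ad' _ _ a_y
    · exact ad _ _ b_a
    · exact hcell _ _ (N2p i) (N0p i)
    · exact ad' _ _ a_p
    · exact ad _ _ b_z
    · exact hcell _ _ (N2p i) (hy i)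
    · exact hcell _ _ (hx i) (N0p i)
    · exact ad' _ _ p_z
    · exact hcell _ _ (N4p i) (N0p i)
    · exact ad' _ _ c_z
    · exact hcell _ _ (N4p i) (N5p i)
    · exact ad' _ _ d_q
    · exact ad' _ _ c_q
    · exact hcell _ _ (hx _) (N5p i)
    · exact ad' _ _ d_z
    · exact ad _ _ q_p
    · exact ad' _ _ q_x
    · exact hcell' _ _ (N6p i) (hx _)
    · exact hcell' _ _ (N6p i) op
    · exact ad' _ _ e_q
    · exact ad' _ _ e_f
    · exact ad' _ _ f_x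
    · exact ad' _ _ f_o
    · exact ad' _ _ f_p
    · exact ad' _ _ q_o
    · exact hcell _ _ op (N0p i)

end Pool.Agent.Lib.TriD
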