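import Pool.Agent.Lib.TriD.ZDefs

set_option autoImplicit false

/-!
Basic facts on triangle decompositions.
-/

open scoped Classical

namespace Pool.Agent.Lib.TriD

variable {V : Type} [Fintype V]

theorem TD_bot : TD (⊥ : SimpleGraph V) := by
  refine ⟨∅, by simp, ?_⟩
  intro u v h
  exact absurd h (by simp)

theorem TD.sup {H₁ H₂ : SimpleGraph V} (h₁ : TD H₁) (h₂ : TD H₂) (hd : Disjoint H₁ H₂) :
    TD (H₁ ⊔ H₂) := by
  obtain ⟨T₁, hc₁, hu₁⟩ := h₁
  obtain ⟨T₂, hc₂, hu₂⟩ := h₂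
  have hno : ∀ u v, H₁.Adj u v → H₂.Adj u v → False := by
    intro u v h1 h2
    have hle : H₁ ⊓ H₂ ≤ ⊥ := disjoint_iff_inf_le.mp hd
    exact hle (show (H₁ ⊓ H₂).Adj u v from ⟨h1, h2⟩)
  have hmem : ∀ (H : SimpleGraph V) (t : Finset V) (u v : V), H.IsNClique 3 t → u ∈ t → v ∈ t → u ≠ v →
      H.Adj u v := by
    intro H t u v ht hu hv huv
    exact ht.isClique hu hv huv
  refine ⟨T₁ ∪ T₂, ?_, ?_⟩
  · intro t ht
    rcases Finset.mem_union.mp ht with h | h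
    · exact (hc₁ t h).mono le_sup_left
    · exact (hc₂ t h).mono le_sup_right
  · intro u v huv
    have hne : u ≠ v := huv.ne
    rcases huv with h | h
    · obtain ⟨t, ⟨ht, hut, hvt⟩, huni⟩ := hu₁ u v h
      refine ⟨t, ⟨Finset.mem_union_left _ ht, hut, hvt⟩, ?_⟩
      rintro t' ⟨ht', hu', hv'⟩
      rcases Finset.mem_union.mp ht' with h' | h'
      · exact huni t' ⟨h', hu', hv'⟩
      · exact (hno u v h (hmem H₂ t' u v (hc₂ t' h') hu' hv' hne)).elim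
    · obtain ⟨t, ⟨ht, hut, hvt⟩, huni⟩ := hu₂ u v h
      refine ⟨t, ⟨Finset.mem_union_right _ ht, hut, hvt⟩, ?_⟩
      rintro t' ⟨ht', hu', hv'⟩
      rcases Finset.mem_union.mp ht' with h' | h'
      · exact (hno u v (hmem H₁ t' u v (hc₁ t' h') hu' hv' hne) h).elim
      · exact huni t' ⟨h', hu', hv'⟩

theorem TD.finset_sup {ι : Type} (s : Finset ι) (A : ι → SimpleGraph V) (h : ∀ i ∈ s, TD (A i))
    (hd : ∀ i ∈ s, ∀ j ∈ s, i ≠ j → Disjoint (A i) (A j)) : TD (s.sup A) := by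
  induction s using Finset.induction_on with
  | empty => simpa using (TD_bot : TD (⊥ : SimpleGraph V))
  | insert a s ha ih =>
    rw [Finset.sup_insert]
    refine TD.sup (h a (Finset.mem_insert_self _ _)) (ih ?_ ?_) ?_
    · intro i hi
      exact h i (Finset.mem_insert_of_mem hi)
    · intro i hi j hj hij
      exact hd i (Finset.mem_insert_of_mem hi) j (Finset.mem_insert_of_mem hj) hij
    · rw [Finset.disjoint_sup_right]
      intro i hi
      refine hd a (Finset.mem_insert_self _ _) i (Finset.mem_insert_of_mem hi) ?_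
      rintro rfl
      exact ha hi

private theorem ztd_pair {a b c u v : V} (hu : u = a ∨ u = b ∨ u = c) (hv : v = a ∨ v = b ∨ v = c)
    (huv : u ≠ v) : ∃ k : Fin 3, triEdge (a, b, c) k = s(u, v) := by
  rcases hu with rfl | rfl | rfl <;> rcases hv with rfl | rfl | rfl
  · exact (huv rfl).elim
  · exact ⟨0, rfl⟩
  · exact ⟨2, rfl⟩
  · exact ⟨0, Sym2.eq_swap⟩
  · exact (huv rfl).elim
  · exact ⟨1, rfl⟩
  · exact ⟨2, Sym2.eq_swap⟩
  · exact ⟨1, Sym2.eq_swap⟩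
  · exact (huv rfl).elim

theorem TD_of_triples {ι : Type} [Fintype ι] (H : SimpleGraph V) (t : ι → V × V × V)
    (hinj : Function.Injective fun q : ι × Fin 3 => triEdge (t q.1) q.2)
    (hran : ∀ e : Sym2 V, e ∈ H.edgeSet ↔ ∃ q : ι × Fin 3, triEdge (t q.1) q.2 = e) : TD H := by
  have hadj : ∀ i, H.Adj (t i).1 (t i).2.1 ∧ H.Adj (t i).2.1 (t i).2.2 ∧ H.Adj (t i).1 (t i).2.2 := by
    intro i
    refine ⟨?_, ?_, ?_⟩
    · exact (SimpleGraph.mem_edgeSet H).mp ((hran s((t i).1, (t i).2.1)).mpr ⟨(i, 0), rfl⟩)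
    · exact (SimpleGraph.mem_edgeSet H).mp ((hran s((t i).2.1, (t i).2.2)).mpr ⟨(i, 1), rfl⟩)
    · exact (SimpleGraph.mem_edgeSet H).mp ((hran s((t i).1, (t i).2.2)).mpr ⟨(i, 2), rfl⟩)
  let F : ι → Finset V := fun i => {(t i).1, (t i).2.1, (t i).2.2}
  have hF : ∀ i u, u ∈ F i ↔ (u = (t i).1 ∨ u = (t i).2.1 ∨ u = (t i).2.2) := by
    intro i u
    simp [F]
  have hpair : ∀ i u v, u ∈ F i → v ∈ F i → u ≠ v → ∃ k : Fin 3, triEdge (t i) k = s(u, v) := by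
    intro i u v hu hv huv
    exact ztd_pair ((hF i u).mp hu) ((hF i v).mp hv) huv
  refine ⟨Finset.univ.image F, ?_, ?_⟩
  · intro s hs
    obtain ⟨i, -, rfl⟩ := Finset.mem_image.mp hs
    obtain ⟨h1, h2, h3⟩ := hadj i
    rw [SimpleGraph.is3Clique_iff]
    exact ⟨(t i).1, (t i).2.1, (t i).2.2, h1, h3, h2, rfl⟩
  · intro u v huv
    obtain ⟨⟨i, k⟩, hq⟩ := (hran s(u, v)).mp ((SimpleGraph.mem_edgeSet H).mpr huv)
    have hmem : u ∈ F i ∧ v ∈ F i := by
      have hq' : triEdge (t i) k = s(u, v) := hq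
      have h3 : k = 0 ∨ k = 1 ∨ k = 2 := by
        fin_cases k <;> simp
      rw [hF, hF]
      rcases h3 with rfl | rfl | rfl
      · have h4 : s((t i).1, (t i).2.1) = s(u, v) := hq'
        rcases Sym2.eq_iff.mp h4 with ⟨h5, h6⟩ | ⟨h5, h6⟩
        · exact ⟨Or.inl h5.symm, Or.inr (Or.inl h6.symm)⟩
        · exact ⟨Or.inr (Or.inl h6.symm), Or.inl h5.symm⟩
      · have h4 : s((t i).2.1, (t i).2.2) = s(u, v) := hq'
        rcases Sym2.eq_iff.mp h4 with ⟨h5, h6⟩ | ⟨h5, h6⟩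
        · exact ⟨Or.inr (Or.inl h5.symm), Or.inr (Or.inr h6.symm)⟩
        · exact ⟨Or.inr (Or.inr h6.symm), Or.inr (Or.inl h5.symm)⟩
      · have h4 : s((t i).1, (t i).2.2) = s(u, v) := hq'
        rcases Sym2.eq_iff.mp h4 with ⟨h5, h6⟩ | ⟨h5, h6⟩
        · exact ⟨Or.inl h5.symm, Or.inr (Or.inr h6.symm)⟩
        · exact ⟨Or.inr (Or.inr h6.symm), Or.inl h5.symm⟩
    refine ⟨F i, ⟨Finset.mem_image_of_mem F (Finset.mem_univ i), hmem.1, hmem.2⟩, ?_⟩
    rintro s ⟨hs, hu, hv⟩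
    obtain ⟨i', -, rfl⟩ := Finset.mem_image.mp hs
    obtain ⟨k', hk'⟩ := hpair i' u v hu hv huv.ne
    have heq : ((i', k') : ι × Fin 3) = (i, k) := by
      apply hinj
      show triEdge (t i') k' = triEdge (t i) k
      rw [hk']
      exact hq.symm
    have hi : i' = i := congrArg Prod.fst heq
    rw [hi]

end Pool.Agent.Lib.TriD
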