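import Pool.Agent.Lib.TriD.ZADefs
import Pool.Agent.Lib.TriD.ZTD

set_option autoImplicit false

/-!
MODULE ZPat (about 300 lines). The absorber pattern: `A` and `A ⊔ L` have triangle decompositions.

PROOF. Write `p = N 0, a = N 1, b = N 2, q = N 3, c = N 4, d = N 5, e = N 6, f = N 7` (parts 1, 2, 0, 2, 0, 1, 1, 2; `o` in part 0),
`t = τ i`. The 30 families of pairs: the 27 of `absEdge` (index `k < 27`) and `s(x i, y i)`, `s(y i, z i)`, `s(z i, x t)`.
(1) The map `Fin m × Fin 30 → Sym2 V` is injective. Give every vertex a kind in `Fin 12`: kind `k` if `v = N k i` for some `i`, `8` if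
`v = o`, else `9 + p v` (so `x, y, z` have kinds 9, 10, 11; well defined by `inj, no, nx, ny, nz, ox` and the parts). The unordered
pairs of kinds of the 30 families are 30 different ones (in the order of `absEdge`: 1-9, 1-10, 1-2, 2-0, 1-0, 11-2, 2-10, 9-0, 0-11, 4-0,
4-11, 4-5, 5-3, 4-3, 9-5, 5-11, 0-3, 3-9, 6-9, 6-8, 6-3, 6-7, 7-9, 7-8, 7-0, 3-8, 8-0, then 9-10, 10-11, 11-9; `decide` on `Sym2 (Fin 12)` or
on ordered pairs), so the family is determined; inside one family the two ends have different kinds, so equality of the pairs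
gives equality of the ends, one of them is some `N k i` (`inj`), or it is one of the last three families (`ixy, iyz, izx`).
(2) `A := SimpleGraph.fromEdgeSet {g | ∃ i k, g = absEdge x y z τ N o i k}`; no loops (kinds differ), `A.edgeSet` is that set.
`A ≤ G` by `adj`. Every edge has a new vertex `N k i` as an end, and all ends are of the listed form.
(3) `A`: triples (`ι = Fin m × Fin 9`), for each `i`:
  (a, x, p), (a, b, y), (z, b, p), (c, p, q), (c, d, z), (x t, d, q), (e, q, o), (e, f, x t), (p t, f, o).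
`A ⊔ L`: triples (`ι = Fin m × Fin 10`), for each `i`:
  (a, x, y), (a, b, p), (z, b, y), (c, p, z), (c, d, q), (x t, d, z), (e, q, x t), (e, f, o), (p t, f, x t), (o, p, q),
where a letter without argument means the value at `i`. The `27 m` (resp. `30 m`) edges of these triples are the pairs of the families,
each family once, with index `i` except: `(p t, o)` = family 26 at `τ i` in the first list, `(p t, x t)` = family 7 at `τ i` in the
second list (`τ` is a bijection). I checked this by computer. So `TD_of_triples` applies: the map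
`(i, j, side) ↦ (family, index)` is a bijection onto `Fin m × Fin 27` (resp. `Fin m × Fin 30`), injectivity follows from (1), the
range is the edge set (for `L`: by `hp` and `cxy, cyz, czx` every edge of `L` is in one of the last three families).
-/


open scoped Classical

namespace Pool.Agent.Lib.TriD

private def zpF {V : Type} {m : ℕ} (x y z : Fin m → V) (τ : Equiv.Perm (Fin m)) (N : Fin 8 → Fin m → V)
    (o : V) (i : Fin m) : Fin 30 → Sym2 V :=
  ![s(N 1 i, x i), s(N 1 i, y i), s(N 1 i, N 2 i), s(N 2 i, N 0 i), s(N 1 i, N 0 i), s(z i, N 2 i),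
    s(N 2 i, y i), s(x i, N 0 i), s(N 0 i, z i),
    s(N 4 i, N 0 i), s(N 4 i, z i), s(N 4 i, N 5 i), s(N 5 i, N 3 i), s(N 4 i, N 3 i),
    s(x (τ i), N 5 i), s(N 5 i, z i), s(N 0 i, N 3 i), s(N 3 i, x (τ i)),
    s(N 6 i, x (τ i)), s(N 6 i, o), s(N 6 i, N 3 i), s(N 6 i, N 7 i), s(N 7 i, x (τ i)),
    s(N 7 i, o), s(N 7 i, N 0 (τ i)), s(N 3 i, o), s(o, N 0 i),
    s(x i, y i), s(y i, z i), s(z i, x (τ i))]

private def zpK : Fin 30 → Sym2 (Fin 12) :=
  ![s(1, 9), s(1, 10), s(1, 2), s(2, 0), s(1, 0), s(11, 2), s(2, 10), s(9, 0), s(0, 11),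
    s(4, 0), s(4, 11), s(4, 5), s(5, 3), s(4, 3), s(9, 5), s(5, 11), s(0, 3), s(3, 9),
    s(6, 9), s(6, 8), s(6, 3), s(6, 7), s(7, 9), s(7, 8), s(7, 0), s(3, 8), s(8, 0),
    s(9, 10), s(10, 11), s(11, 9)]

private theorem zpK_inj : Function.Injective zpK := by
  unfold zpK
  decide

private theorem zp_kind {V : Type} {p : V → Fin 3} {G L : SimpleGraph V} {m : ℕ}
    {x y z : Fin m → V} {τ : Equiv.Perm (Fin m)} {N : Fin 8 → Fin m → V} {o : V}
    (hI : Idx p L m x y z τ) (hP : AbsPat p G m x y z τ N o) :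
    ∃ kd : V → Fin 12, (∀ k i, kd (N k i) = Fin.castLE (by norm_num) k) ∧ kd o = 8 ∧
      (∀ i, kd (x i) = 9) ∧ (∀ i, kd (y i) = 10) ∧ (∀ i, kd (z i) = 11) := by
  classical
  refine ⟨fun v => if h : ∃ k i, v = N k i then Fin.castLE (by norm_num) h.choose else
    if v = o then 8 else (![9, 10, 11] : Fin 3 → Fin 12) (p v), ?_, ?_, ?_, ?_, ?_⟩
  · intro k i
    have h : ∃ k' i', N k i = N k' i' := ⟨k, i, rfl⟩
    have h2 : h.choose = k := by
      obtain ⟨i', hi'⟩ := h.choose_spec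
      have := hP.inj (a₁ := (k, i)) (a₂ := (h.choose, i')) hi'
      exact (congrArg Prod.fst this).symm
    simp only [dif_pos h, h2]
  · have h : ¬ ∃ k i, o = N k i := by
      rintro ⟨k, i, h⟩
      exact hP.no k i h.symm
    simp only [dif_neg h, if_true]
  · intro i
    have h : ¬ ∃ k j, x i = N k j := by
      rintro ⟨k, j, h⟩
      exact hP.nx k j i h.symm
    simp only [dif_neg h, if_neg (hP.ox i), hI.px i]
    rfl
  · intro i
    have h : ¬ ∃ k j, y i = N k j := by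
      rintro ⟨k, j, h⟩
      exact hP.ny k j i h.symm
    have h2 : ¬ y i = o := by
      intro h
      have h3 := hI.py i
      rw [h, hP.parto] at h3
      exact absurd h3 (by decide)
    simp only [dif_neg h, if_neg h2, hI.py i]
    rfl
  · intro i
    have h : ¬ ∃ k j, z i = N k j := by
      rintro ⟨k, j, h⟩
      exact hP.nz k j i h.symm
    have h2 : ¬ z i = o := by
      intro h
      have h3 := hI.pz i
      rw [h, hP.parto] at h3
      exact absurd h3 (by decide)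
    simp only [dif_neg h, if_neg h2, hI.pz i]
    rfl

private theorem zp_cases (P : Fin 30 → Prop) (h0 : P 0) (h1 : P 1) (h2 : P 2) (h3 : P 3) (h4 : P 4)
    (h5 : P 5) (h6 : P 6) (h7 : P 7) (h8 : P 8) (h9 : P 9) (h10 : P 10) (h11 : P 11) (h12 : P 12)
    (h13 : P 13) (h14 : P 14) (h15 : P 15) (h16 : P 16) (h17 : P 17) (h18 : P 18) (h19 : P 19)
    (h20 : P 20) (h21 : P 21) (h22 : P 22) (h23 : P 23) (h24 : P 24) (h25 : P 25) (h26 : P 26)
    (h27 : P 27) (h28 : P 28) (h29 : P 29) : ∀ k, P k := by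
  intro k
  fin_cases k <;> assumption

private theorem zp_map {V : Type} {m : ℕ}
    {x y z : Fin m → V} {τ : Equiv.Perm (Fin m)} {N : Fin 8 → Fin m → V} {o : V} (kd : V → Fin 12)
    (h1 : ∀ k i, kd (N k i) = Fin.castLE (by norm_num) k) (h2 : kd o = 8)
    (h3 : ∀ i, kd (x i) = 9) (h4 : ∀ i, kd (y i) = 10) (h5 : ∀ i, kd (z i) = 11) (i : Fin m) :
    ∀ k, Sym2.map kd (zpF x y z τ N o i k) = zpK k := by
  have hm : ∀ (u v : V) (a b : Fin 12), kd u = a → kd v = b → Sym2.map kd s(u, v) = s(a, b) := by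
    intro u v a b ha hb
    rw [Sym2.map_mk, ha, hb]
  apply zp_cases
  all_goals
    first
    | exact hm _ _ _ _ (h1 _ _) (h1 _ _)
    | exact hm _ _ _ _ (h1 _ _) (h3 _)
    | exact hm _ _ _ _ (h1 _ _) (h4 _)
    | exact hm _ _ _ _ (h1 _ _) (h5 _)
    | exact hm _ _ _ _ (h1 _ _) h2
    | exact hm _ _ _ _ (h3 _) (h1 _ _)
    | exact hm _ _ _ _ (h5 _) (h1 _ _)
    | exact hm _ _ _ _ h2 (h1 _ _)
    | exact hm _ _ _ _ (h3 _) (h4 _)
    | exact hm _ _ _ _ (h4 _) (h5 _)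
    | exact hm _ _ _ _ (h5 _) (h3 _)

private theorem zp_inj {V : Type} {p : V → Fin 3} {G L : SimpleGraph V} {m : ℕ}
    {x y z : Fin m → V} {τ : Equiv.Perm (Fin m)} {N : Fin 8 → Fin m → V} {o : V}
    (hI : Idx p L m x y z τ) (hP : AbsPat p G m x y z τ N o) (i j : Fin m) (k l : Fin 30)
    (h : zpF x y z τ N o i k = zpF x y z τ N o j l) : i = j ∧ k = l := by
  obtain ⟨kd, h1, h2, h3, h4, h5⟩ := zp_kind hI hP
  have hkl : k = l := by
    apply zpK_inj
    rw [← zp_map kd h1 h2 h3 h4 h5 i k, ← zp_map (τ := τ) kd h1 h2 h3 h4 h5 j l, h]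
  subst hkl
  refine ⟨?_, rfl⟩
  have hN : ∀ a, N a i = N a j → i = j := fun a ha =>
    congrArg Prod.snd (hP.inj (a₁ := (a, i)) (a₂ := (a, j)) ha)
  have hs : ∀ (u v u' v' : V), s(u, v) = s(u', v') → kd u ≠ kd v → kd u = kd u' → u = u' ∧ v = v' := by
    intro u v u' v' he hne hu
    rcases Sym2.eq_iff.mp he with h' | ⟨h', h''⟩
    · exact h'
    · exact absurd (by rw [h'', ← hu]) hne
  have hne1 : ∀ a b c d, a ≠ b → kd (N a c) ≠ kd (N b d) := by
    intro a b c d hab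
    rw [h1, h1]
    intro h
    exact hab ((Fin.castLE_inj (hmn := by norm_num)).mp h)
  revert h
  revert k
  apply zp_cases
  all_goals intro h
  · exact hN _ (hs _ _ _ _ h (by rw [h1, h3]; decide) (by rw [h1, h1])).1
  · exact hN _ (hs _ _ _ _ h (by rw [h1, h4]; decide) (by rw [h1, h1])).1
  · exact hN _ (hs _ _ _ _ h (by rw [h1, h1]; decide) (by rw [h1, h1])).1
  · exact hN _ (hs _ _ _ _ h (by rw [h1, h1]; decide) (by rw [h1, h1])).1
  · exact hN _ (hs _ _ _ _ h (by rw [h1, h1]; decide) (by rw [h1, h1])).1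
  · exact hN _ (hs _ _ _ _ h (by rw [h5, h1]; decide) (by rw [h5, h5])).2
  · exact hN _ (hs _ _ _ _ h (by rw [h1, h4]; decide) (by rw [h1, h1])).1
  · exact hN _ (hs _ _ _ _ h (by rw [h3, h1]; decide) (by rw [h3, h3])).2
  · exact hN _ (hs _ _ _ _ h (by rw [h1, h5]; decide) (by rw [h1, h1])).1
  · exact hN _ (hs _ _ _ _ h (by rw [h1, h1]; decide) (by rw [h1, h1])).1
  · exact hN _ (hs _ _ _ _ h (by rw [h1, h5]; decide) (by rw [h1, h1])).1
  · exact hN _ (hs _ _ _ _ h (by rw [h1, h1]; decide) (by rw [h1, h1])).1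
  · exact hN _ (hs _ _ _ _ h (by rw [h1, h1]; decide) (by rw [h1, h1])).1
  · exact hN _ (hs _ _ _ _ h (by rw [h1, h1]; decide) (by rw [h1, h1])).1
  · exact hN _ (hs _ _ _ _ h (by rw [h3, h1]; decide) (by rw [h3, h3])).2
  · exact hN _ (hs _ _ _ _ h (by rw [h1, h5]; decide) (by rw [h1, h1])).1
  · exact hN _ (hs _ _ _ _ h (by rw [h1, h1]; decide) (by rw [h1, h1])).1
  · exact hN _ (hs _ _ _ _ h (by rw [h1, h3]; decide) (by rw [h1, h1])).1
  · exact hN _ (hs _ _ _ _ h (by rw [h1, h3]; decide) (by rw [h1, h1])).1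
  · exact hN _ (hs _ _ _ _ h (by rw [h1, h2]; decide) (by rw [h1, h1])).1
  · exact hN _ (hs _ _ _ _ h (by rw [h1, h1]; decide) (by rw [h1, h1])).1
  · exact hN _ (hs _ _ _ _ h (by rw [h1, h1]; decide) (by rw [h1, h1])).1
  · exact hN _ (hs _ _ _ _ h (by rw [h1, h3]; decide) (by rw [h1, h1])).1
  · exact hN _ (hs _ _ _ _ h (by rw [h1, h2]; decide) (by rw [h1, h1])).1
  · exact hN _ (hs _ _ _ _ h (by rw [h1, h1]; decide) (by rw [h1, h1])).1
  · exact hN _ (hs _ _ _ _ h (by rw [h1, h2]; decide) (by rw [h1, h1])).1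
  · exact hN _ (hs _ _ _ _ h (by rw [h2, h1]; decide) rfl).2
  · have h' := hs _ _ _ _ h (by rw [h3, h4]; decide) (by rw [h3, h3])
    exact hI.ixy (Prod.ext h'.1 h'.2)
  · have h' := hs _ _ _ _ h (by rw [h4, h5]; decide) (by rw [h4, h4])
    exact hI.iyz (Prod.ext h'.1 h'.2)
  · have h' := hs _ _ _ _ h (by rw [h5, h3]; decide) (by rw [h5, h5])
    exact hI.izx (Prod.ext h'.1 h'.2)

private theorem zp_core {V : Type} [Fintype V] {m n : ℕ} (H : SimpleGraph V) (F : Fin m → Fin 30 → Sym2 V)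
    (hF : ∀ i j k l, F i k = F j l → i = j ∧ k = l)
    (t : Fin m → Fin n → V × V × V) (kk : Fin n → Fin 3 → Fin 30)
    (pp : Fin n → Fin 3 → Equiv.Perm (Fin m))
    (hk : ∀ j j' s s', kk j s = kk j' s' → j = j' ∧ s = s')
    (ht : ∀ i j s, triEdge (t i j) s = F (pp j s i) (kk j s))
    (hH : ∀ e, e ∈ H.edgeSet ↔ ∃ i j s, F i (kk j s) = e) : TD H := by
  refine TD_of_triples (ι := Fin m × Fin n) H (fun q => t q.1 q.2) ?_ ?_
  · rintro ⟨⟨i, j⟩, s⟩ ⟨⟨i', j'⟩, s'⟩ h
    have h' : triEdge (t i j) s = triEdge (t i' j') s' := h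
    rw [ht, ht] at h'
    obtain ⟨h1, h2⟩ := hF _ _ _ _ h'
    obtain ⟨h3, h4⟩ := hk _ _ _ _ h2
    subst h3; subst h4
    have h5 : i = i' := (pp j s).injective h1
    rw [h5]
  · intro e
    rw [hH]
    constructor
    · rintro ⟨i, j, s, he⟩
      refine ⟨((((pp j s).symm i), j), s), ?_⟩
      show triEdge (t ((pp j s).symm i) j) s = e
      rw [ht, Equiv.apply_symm_apply, he]
    · rintro ⟨⟨⟨i, j⟩, s⟩, he⟩
      refine ⟨pp j s i, j, s, ?_⟩
      rw [← ht]
      exact he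

private def zpkA : Fin 9 → Fin 3 → Fin 30 :=
  ![![0, 7, 4], ![2, 6, 1], ![5, 3, 8], ![9, 16, 13], ![11, 15, 10], ![14, 12, 17], ![20, 25, 19],
    ![21, 22, 18], ![24, 23, 26]]

private def zpkB : Fin 10 → Fin 3 → Fin 30 :=
  ![![0, 27, 1], ![2, 3, 4], ![5, 6, 28], ![9, 8, 10], ![11, 12, 13], ![14, 15, 29], ![20, 17, 18],
    ![21, 23, 19], ![24, 22, 7], ![26, 16, 25]]

private theorem zpkA_inj : ∀ j j' s s', zpkA j s = zpkA j' s' → j = j' ∧ s = s' := by
  unfold zpkA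
  decide

private theorem zpkB_inj : ∀ j j' s s', zpkB j s = zpkB j' s' → j = j' ∧ s = s' := by
  unfold zpkB
  decide

private theorem zpkA_sur : ∀ k : Fin 27, ∃ j s, zpkA j s = Fin.castLE (by norm_num) k := by
  unfold zpkA
  decide

private theorem zpkA_lt : ∀ j s, ∃ k : Fin 27, zpkA j s = Fin.castLE (by norm_num) k := by
  unfold zpkA
  decide

private theorem zpkB_sur : ∀ k : Fin 30, ∃ j s, zpkB j s = k := by
  unfold zpkB
  decide

private theorem zp_lt {V : Type} {m : ℕ} {x y z : Fin m → V} {τ : Equiv.Perm (Fin m)}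
    {N : Fin 8 → Fin m → V} {o : V} (i : Fin m) (k : Fin 27) :
    zpF x y z τ N o i (Fin.castLE (by norm_num) k) = absEdge x y z τ N o i k := by
  fin_cases k <;> rfl

private theorem zp_ends {V : Type} {m : ℕ} {x y z : Fin m → V} {τ : Equiv.Perm (Fin m)}
    {N : Fin 8 → Fin m → V} {o : V} (i : Fin m) (k : Fin 27) :
    ∃ u v, absEdge x y z τ N o i k = s(u, v) ∧ ((∃ k i, u = N k i) ∨ ∃ k i, v = N k i) ∧
      ((∃ k i, u = N k i) ∨ u = o ∨ ∃ i, u = x i ∨ u = y i ∨ u = z i) ∧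
      ((∃ k i, v = N k i) ∨ v = o ∨ ∃ i, v = x i ∨ v = y i ∨ v = z i) := by
  fin_cases k <;>
    first
    | exact ⟨_, _, rfl, Or.inl ⟨_, _, rfl⟩, Or.inl ⟨_, _, rfl⟩, Or.inl ⟨_, _, rfl⟩⟩
    | exact ⟨_, _, rfl, Or.inl ⟨_, _, rfl⟩, Or.inl ⟨_, _, rfl⟩, Or.inr (Or.inl rfl)⟩
    | exact ⟨_, _, rfl, Or.inl ⟨_, _, rfl⟩, Or.inl ⟨_, _, rfl⟩, Or.inr (Or.inr ⟨_, Or.inl rfl⟩)⟩
    | exact ⟨_, _, rfl, Or.inl ⟨_, _, rfl⟩, Or.inl ⟨_, _, rfl⟩,
        Or.inr (Or.inr ⟨_, Or.inr (Or.inl rfl)⟩)⟩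
    | exact ⟨_, _, rfl, Or.inl ⟨_, _, rfl⟩, Or.inl ⟨_, _, rfl⟩,
        Or.inr (Or.inr ⟨_, Or.inr (Or.inr rfl)⟩)⟩
    | exact ⟨_, _, rfl, Or.inr ⟨_, _, rfl⟩, Or.inr (Or.inl rfl), Or.inl ⟨_, _, rfl⟩⟩
    | exact ⟨_, _, rfl, Or.inr ⟨_, _, rfl⟩, Or.inr (Or.inr ⟨_, Or.inl rfl⟩), Or.inl ⟨_, _, rfl⟩⟩
    | exact ⟨_, _, rfl, Or.inr ⟨_, _, rfl⟩, Or.inr (Or.inr ⟨_, Or.inr (Or.inl rfl)⟩),
        Or.inl ⟨_, _, rfl⟩⟩
    | exact ⟨_, _, rfl, Or.inr ⟨_, _, rfl⟩, Or.inr (Or.inr ⟨_, Or.inr (Or.inr rfl)⟩),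
        Or.inl ⟨_, _, rfl⟩⟩

theorem abs_pattern {V : Type} [Fintype V] {p : V → Fin 3} {G L : SimpleGraph V} {m : ℕ}
    {x y z : Fin m → V} {τ : Equiv.Perm (Fin m)} {N : Fin 8 → Fin m → V} {o : V}
    (hp : ∀ u v, L.Adj u v → p u ≠ p v) (hI : Idx p L m x y z τ)
    (hP : AbsPat p G m x y z τ N o) :
    ∃ A : SimpleGraph V, A ≤ G ∧
      (∀ u v, A.Adj u v → (∃ k i, u = N k i) ∨ ∃ k i, v = N k i) ∧
      (∀ u v, A.Adj u v → (∃ k i, u = N k i) ∨ u = o ∨ ∃ i, u = x i ∨ u = y i ∨ u = z i) ∧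
      TD A ∧ TD (A ⊔ L) := by
  obtain ⟨A, hAdef⟩ : ∃ A : SimpleGraph V, A = SimpleGraph.fromEdgeSet
      {e | ∃ i k, absEdge x y z τ N o i k = e} := ⟨_, rfl⟩
  have hAe : ∀ e, e ∈ A.edgeSet ↔ ∃ i k, absEdge x y z τ N o i k = e := by
    intro e
    rw [hAdef, SimpleGraph.edgeSet_fromEdgeSet]
    constructor
    · rintro ⟨h, -⟩
      exact h
    · rintro ⟨i, k, h⟩
      refine ⟨⟨i, k, h⟩, ?_⟩
      intro hd
      have h1 : e ∈ G.edgeSet := by
        rw [← h]
        exact hP.adj i k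
      exact G.not_isDiag_of_mem_edgeSet h1 hd
  have hends : ∀ u v, A.Adj u v → ((∃ k i, u = N k i) ∨ ∃ k i, v = N k i) ∧
      ((∃ k i, u = N k i) ∨ u = o ∨ ∃ i, u = x i ∨ u = y i ∨ u = z i) := by
    intro u v h
    obtain ⟨i, k, hik⟩ := (hAe _).mp ((SimpleGraph.mem_edgeSet A).mpr h)
    obtain ⟨u', v', h1, h2, h3, h4⟩ := zp_ends (x := x) (y := y) (z := z) (τ := τ) (N := N) (o := o) i k
    rw [h1] at hik
    rcases Sym2.eq_iff.mp hik with ⟨rfl, rfl⟩ | ⟨rfl, rfl⟩
    · exact ⟨h2, h3⟩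
    · exact ⟨h2.symm, h4⟩
  refine ⟨A, ?_, fun u v h => (hends u v h).1, fun u v h => (hends u v h).2, ?_, ?_⟩
  · intro u v h
    obtain ⟨i, k, hik⟩ := (hAe _).mp ((SimpleGraph.mem_edgeSet A).mpr h)
    have := hP.adj i k
    rw [hik] at this
    exact (SimpleGraph.mem_edgeSet G).mp this
  · refine zp_core (m := m) (n := 9) A (zpF x y z τ N o) (zp_inj hI hP)
      (fun i => ![(N 1 i, x i, N 0 i), (N 1 i, N 2 i, y i), (z i, N 2 i, N 0 i), (N 4 i, N 0 i, N 3 i),
        (N 4 i, N 5 i, z i), (x (τ i), N 5 i, N 3 i), (N 6 i, N 3 i, o), (N 6 i, N 7 i, x (τ i)),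
        (N 0 (τ i), N 7 i, o)]) zpkA (fun j s => if j = 8 ∧ s = 2 then τ else Equiv.refl _)
      zpkA_inj ?_ ?_
    · intro i j s
      fin_cases j <;> fin_cases s <;> first | rfl | exact Sym2.eq_swap
    · intro e
      rw [hAe]
      constructor
      · rintro ⟨i, k, h⟩
        obtain ⟨j, s, hjs⟩ := zpkA_sur k
        refine ⟨i, j, s, ?_⟩
        rw [hjs, zp_lt, h]
      · rintro ⟨i, j, s, h⟩
        obtain ⟨k, hk⟩ := zpkA_lt j s
        refine ⟨i, k, ?_⟩
        rw [← zp_lt, ← hk, h]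
  · refine zp_core (m := m) (n := 10) (A ⊔ L) (zpF x y z τ N o) (zp_inj hI hP)
      (fun i => ![(N 1 i, x i, y i), (N 1 i, N 2 i, N 0 i), (z i, N 2 i, y i), (N 4 i, N 0 i, z i),
        (N 4 i, N 5 i, N 3 i), (x (τ i), N 5 i, z i), (N 6 i, N 3 i, x (τ i)), (N 6 i, N 7 i, o),
        (N 0 (τ i), N 7 i, x (τ i)), (o, N 0 i, N 3 i)]) zpkB
      (fun j s => if j = 8 ∧ s = 2 then τ else Equiv.refl _)
      zpkB_inj ?_ ?_
    · intro i j s
      fin_cases j <;> fin_cases s <;> first | rfl | exact Sym2.eq_swap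
    · intro e
      constructor
      · intro h
        rw [SimpleGraph.edgeSet_sup] at h
        rcases h with h | h
        · obtain ⟨i, k, h⟩ := (hAe _).mp h
          obtain ⟨j, s, hjs⟩ := zpkB_sur (Fin.castLE (by norm_num) k)
          refine ⟨i, j, s, ?_⟩
          rw [hjs, zp_lt, h]
        · induction e using Sym2.ind with
          | _ u v =>
            have huv : L.Adj u v := (SimpleGraph.mem_edgeSet L).mp h
            have key : ∀ (k : Fin 30) (i : Fin m), zpF x y z τ N o i k = s(u, v) →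
                ∃ i j s', zpF x y z τ N o i (zpkB j s') = s(u, v) := by
              intro k i hk
              obtain ⟨j, s', hjs⟩ := zpkB_sur k
              exact ⟨i, j, s', by rw [hjs, hk]⟩
            have main : ∀ u v, L.Adj u v → (p u = 0 ∧ p v = 1 ∨ p u = 1 ∧ p v = 2 ∨ p u = 2 ∧ p v = 0) →
                ∃ (k : Fin 30) (i : Fin m), zpF x y z τ N o i k = s(u, v) := by
              intro u v huv h3
              rcases h3 with ⟨h3, h4⟩ | ⟨h3, h4⟩ | ⟨h3, h4⟩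
              · obtain ⟨i, h5, h6⟩ := hI.cxy u v huv h3 h4
                refine ⟨27, i, ?_⟩
                rw [← h5, ← h6]
                rfl
              · obtain ⟨i, h5, h6⟩ := hI.cyz u v huv h3 h4
                refine ⟨28, i, ?_⟩
                rw [← h5, ← h6]
                rfl
              · obtain ⟨i, h5, h6⟩ := hI.czx u v huv h3 h4
                refine ⟨29, i, ?_⟩
                rw [← h5, ← h6]
                rfl
            have hcase : ∀ a b : Fin 3, a ≠ b → ((a = 0 ∧ b = 1 ∨ a = 1 ∧ b = 2 ∨ a = 2 ∧ b = 0) ∨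
                (b = 0 ∧ a = 1 ∨ b = 1 ∧ a = 2 ∨ b = 2 ∧ a = 0)) := by decide
            rcases hcase _ _ (hp u v huv) with h3 | h3
            · obtain ⟨k, i, hk⟩ := main u v huv h3
              exact key k i hk
            · obtain ⟨k, i, hk⟩ := main v u huv.symm h3
              exact key k i (by rw [hk]; exact Sym2.eq_swap)
      · rintro ⟨i, j, s, h⟩
        rw [SimpleGraph.edgeSet_sup]
        have hall : ∀ k : Fin 30, (∃ k' : Fin 27, k = Fin.castLE (by norm_num) k') ∨ k = 27 ∨ k = 28 ∨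
            k = 29 := by decide
        rcases hall (zpkB j s) with ⟨k', hk⟩ | hk | hk | hk
        · left
          rw [hAe]
          refine ⟨i, k', ?_⟩
          rw [← zp_lt, ← hk, h]
        · right
          rw [hk] at h
          rw [← h]
          exact (SimpleGraph.mem_edgeSet L).mpr (hI.xy i)
        · right
          rw [hk] at h
          rw [← h]
          exact (SimpleGraph.mem_edgeSet L).mpr (hI.yz i)
        · right
          rw [hk] at h
          rw [← h]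
          exact (SimpleGraph.mem_edgeSet L).mpr (hI.zx i)

end Pool.Agent.Lib.TriD
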