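import Pool.Agent.Lib.TriD.ZDec
import Pool.Agent.Lib.TriD.ZPat
import Pool.Agent.Lib.TriD.ZEmb

set_option autoImplicit false

/-!
MODULE ZAbsA (about 120 lines). Absorber of one graph `L`.

PROOF. `n0` from `abs_embed` with `f` and `m = t ^ 2`. Given `L`, `exists_idx` gives `m', x, y, z, τ`; all `x i, y i, z i` lie in `Q` (they are ends of
edges of `L`, use symmetry of `L.Adj`), `m' ≤ t ^ 2` by injectivity of `i ↦ (x i, y i) ∈ Q × Q`. `abs_embed` (with `F`, `Q ⊆ F`) gives `N, o`;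
`abs_pattern` gives `A`. `W := image of N ∪ {o}` (at most `8 m' + 1` elements).
-/

open scoped Classical

namespace Pool.Agent.Lib.TriD

theorem abs_single (c K : ℝ) (hc : 0 < c) (hc1 : c ≤ 1) (hK : 0 ≤ K) (f t : ℕ) :
    ∃ n0 : ℕ, ∀ (V : Type) [Fintype V] (p : V → Fin 3) (G : SimpleGraph V), Host p G c K →
      n0 ≤ Fintype.card V → ∀ U F Q : Finset V, F.card ≤ f → Q ⊆ F → Q.card ≤ t →
      (∀ S : Finset V, S.card ≤ 3 → ∀ j, ((nbr p G j S ∩ U).card : ℝ) ≤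
        ((nbr p G j S).card : ℝ) / 4 + c ^ 2 / 8 * Fintype.card V) →
      ∀ L : SimpleGraph V, L ≤ G → (∀ u v, L.Adj u v → u ∈ Q) → TDiv p L →
        ∃ (A : SimpleGraph V) (W : Finset V), A ≤ G ∧ W.card ≤ 8 * t ^ 2 + 1 ∧
          (∀ w ∈ W, w ∉ U ∧ w ∉ F) ∧
          (∀ u v, A.Adj u v → (u ∈ Q ∨ u ∈ W) ∧ (u ∈ W ∨ v ∈ W)) ∧ TD A ∧ TD (A ⊔ L) := by
  obtain ⟨n0, hn0⟩ := abs_embed c K hc hc1 hK f (t ^ 2)
  refine ⟨n0, ?_⟩
  intro V _ p G hG hn U F Q hF hQF hQ hU L hLG hLQ hL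
  have hp : ∀ u v, L.Adj u v → p u ≠ p v := fun u v h => hG.part u v (hLG h)
  obtain ⟨m, x, y, z, τ, hI⟩ := exists_idx p L hp hL
  have hxQ : ∀ i, x i ∈ Q := fun i => hLQ _ _ (hI.xy i)
  have hyQ : ∀ i, y i ∈ Q := fun i => hLQ _ _ (hI.yz i)
  have hzQ : ∀ i, z i ∈ Q := fun i => hLQ _ _ (hI.zx i)
  have hm : m ≤ t ^ 2 := by
    have h1 : (Finset.univ.image fun i => (x i, y i)).card = m := by
      rw [Finset.card_image_of_injective _ hI.ixy, Finset.card_univ, Fintype.card_fin]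
    have h2 : (Finset.univ.image fun i => (x i, y i)) ⊆ Q ×ˢ Q := by
      intro a ha
      obtain ⟨i, -, rfl⟩ := Finset.mem_image.mp ha
      exact Finset.mem_product.mpr ⟨hxQ i, hyQ i⟩
    have h3 := Finset.card_le_card h2
    rw [h1, Finset.card_product] at h3
    calc m ≤ Q.card * Q.card := h3
      _ ≤ t * t := Nat.mul_le_mul hQ hQ
      _ = t ^ 2 := by ring
  obtain ⟨N, o, hP, hN, hoU, hoF⟩ := hn0 V p G hG hn U F hF hU m hm x y z τ
    (fun i => ⟨hI.px i, hI.py i, hI.pz i⟩)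
    (fun i => ⟨hQF (hxQ i), hQF (hyQ i), hQF (hzQ i)⟩)
  obtain ⟨A, hAG, hA1, hA2, hTA, hTAL⟩ := abs_pattern hp hI hP
  have hW : ∀ w, w ∈ insert o ((Finset.univ : Finset (Fin 8 × Fin m)).image fun q => N q.1 q.2) ↔
      w = o ∨ ∃ k i, w = N k i := by
    intro w
    rw [Finset.mem_insert, Finset.mem_image]
    constructor
    · rintro (h | ⟨q, -, h⟩)
      · exact Or.inl h
      · exact Or.inr ⟨q.1, q.2, h.symm⟩
    · rintro (h | ⟨k, i, h⟩)
      · exact Or.inl h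
      · exact Or.inr ⟨(k, i), Finset.mem_univ _, h.symm⟩
  refine ⟨A, insert o ((Finset.univ : Finset (Fin 8 × Fin m)).image fun q => N q.1 q.2), hAG,
    ?_, ?_, ?_, hTA, hTAL⟩
  · refine (Finset.card_insert_le _ _).trans ?_
    refine Nat.succ_le_succ (Finset.card_image_le.trans ?_)
    rw [Finset.card_univ, Fintype.card_prod, Fintype.card_fin, Fintype.card_fin]
    exact Nat.mul_le_mul_left 8 hm
  · intro w hw
    rcases (hW w).mp hw with rfl | ⟨k, i, rfl⟩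
    · exact ⟨hoU, hoF⟩
    · exact hN k i
  · intro u v huv
    refine ⟨?_, ?_⟩
    · rcases hA2 u v huv with h | h | ⟨i, h | h | h⟩
      · exact Or.inr ((hW u).mpr (Or.inr h))
      · exact Or.inr ((hW u).mpr (Or.inl h))
      · exact Or.inl (h ▸ hxQ i)
      · exact Or.inl (h ▸ hyQ i)
      · exact Or.inl (h ▸ hzQ i)
    · rcases hA1 u v huv with h | h
      · exact Or.inl ((hW u).mpr (Or.inr h))
      · exact Or.inr ((hW v).mpr (Or.inr h))

end Pool.Agent.Lib.TriD
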