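import Pool.Agent.Lib.TriD.ZDefs
import Pool.Agent.Lib.MP_6fba53_co.Basic

set_option autoImplicit false

/-!
A triangle decomposition of the graph of a design system is a triple array.
-/

open scoped Classical

namespace Pool.Agent.Lib.TriD

open Pool.Agent.Lib.MP_6fba53_co

private theorem adj_rc' {R C S : Type} (A : R → S → Prop) (M : C → S → Prop) (x : R) (y : C) :
    (dg A M).Adj (Sum.inl x) (Sum.inr (Sum.inl y)) := by
  simp [dg]

private theorem adj_rs' {R C S : Type} (A : R → S → Prop) (M : C → S → Prop) (x : R) (b : S) :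
    (dg A M).Adj (Sum.inl x) (Sum.inr (Sum.inr b)) ↔ A x b := by
  simp [dg]

private theorem adj_cs' {R C S : Type} (A : R → S → Prop) (M : C → S → Prop) (y : C) (b : S) :
    (dg A M).Adj (Sum.inr (Sum.inl y)) (Sum.inr (Sum.inr b)) ↔ M y b := by
  simp [dg]

private theorem adj_rr' {R C S : Type} (A : R → S → Prop) (M : C → S → Prop) (x x' : R) :
    ¬ (dg A M).Adj (Sum.inl x) (Sum.inl x') := by
  simp [dg]

private theorem adj_cc' {R C S : Type} (A : R → S → Prop) (M : C → S → Prop) (y y' : C) :
    ¬ (dg A M).Adj (Sum.inr (Sum.inl y)) (Sum.inr (Sum.inl y')) := by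
  simp [dg]

private theorem adj_ss' {R C S : Type} (A : R → S → Prop) (M : C → S → Prop) (b b' : S) :
    ¬ (dg A M).Adj (Sum.inr (Sum.inr b)) (Sum.inr (Sum.inr b')) := by
  simp [dg]

private theorem third {V : Type} {G : SimpleGraph V} {t : Finset V} (ht : G.IsNClique 3 t)
    {u v : V} (hu : u ∈ t) (hv : v ∈ t) (huv : u ≠ v) :
    ∃ w, t = {u, v, w} ∧ G.Adj u w ∧ G.Adj v w := by
  have h1 : ((t.erase u).erase v).card = 1 := by
    rw [Finset.card_erase_of_mem (Finset.mem_erase.2 ⟨huv.symm, hv⟩),
      Finset.card_erase_of_mem hu, ht.card_eq]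
  obtain ⟨w, hw⟩ := Finset.card_eq_one.1 h1
  have hwm : w ∈ (t.erase u).erase v := by rw [hw]; simp
  rw [Finset.mem_erase, Finset.mem_erase] at hwm
  obtain ⟨hwv, hwu, hwt⟩ := hwm
  refine ⟨w, ?_, ht.isClique (by simpa using hu) (by simpa using hwt) (Ne.symm hwu),
    ht.isClique (by simpa using hv) (by simpa using hwt) (Ne.symm hwv)⟩
  ext z
  constructor
  · intro hz
    by_cases hzu : z = u
    · simp [hzu]
    by_cases hzv : z = v
    · simp [hzv]
    have : z ∈ (t.erase u).erase v := Finset.mem_erase.2 ⟨hzv, Finset.mem_erase.2 ⟨hzu, hz⟩⟩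
    rw [hw] at this
    simp only [Finset.mem_singleton] at this
    simp [this]
  · intro hz
    simp only [Finset.mem_insert, Finset.mem_singleton] at hz
    rcases hz with rfl | rfl | rfl
    · exact hu
    · exact hv
    · exact hwt

theorem array_of_TD {R C S : Type} [Fintype R] [Fintype C] [Fintype S] [DecidableEq S]
    {A : R → S → Prop} {M : C → S → Prop} {r c k : ℕ} (h : DSys A M r c k)
    (ht : TD (dg A M)) : ∃ f : R → C → S, IsTripleArray f k (c - k) (r - k) k := by
  obtain ⟨T, hT, hE⟩ := ht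
  set tr : R → C → S → Finset (R ⊕ C ⊕ S) := fun x y b =>
    {Sum.inl x, Sum.inr (Sum.inl y), Sum.inr (Sum.inr b)} with htr
  have m1 : ∀ x y b, (Sum.inl x : R ⊕ C ⊕ S) ∈ tr x y b := by intro x y b; simp [htr]
  have m2 : ∀ x y b, (Sum.inr (Sum.inl y) : R ⊕ C ⊕ S) ∈ tr x y b := by intro x y b; simp [htr]
  have m3 : ∀ x y b, (Sum.inr (Sum.inr b) : R ⊕ C ⊕ S) ∈ tr x y b := by intro x y b; simp [htr]
  have hP4 : ∀ x y b, tr x y b ∈ T → A x b ∧ M y b := by
    intro x y b hb
    have hc := (hT _ hb).isClique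
    constructor
    · have := hc (Finset.mem_coe.2 (m1 x y b)) (Finset.mem_coe.2 (m3 x y b)) (by simp)
      exact (adj_rs' A M x b).1 this
    · have := hc (Finset.mem_coe.2 (m2 x y b)) (Finset.mem_coe.2 (m3 x y b)) (by simp)
      exact (adj_cs' A M y b).1 this
  have hP1 : ∀ x y, ∃! b, tr x y b ∈ T := by
    intro x y
    obtain ⟨t, ⟨htT, hxt, hyt⟩, hun⟩ := hE _ _ (adj_rc' A M x y)
    obtain ⟨w, hw, hxw, hyw⟩ := third (hT t htT) hxt hyt (by simp)
    rcases w with x' | y' | b
    · exact absurd hxw (adj_rr' A M x x')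
    · exact absurd hyw (adj_cc' A M y y')
    · refine ⟨b, ?_, ?_⟩
      · show tr x y b ∈ T
        have : tr x y b = t := by
          rw [hw]
          ext z
          simp only [htr, Finset.mem_insert, Finset.mem_singleton]
        rw [this]; exact htT
      · intro b' hb'
        have h1 : tr x y b' = t := hun _ ⟨hb', m1 x y b', m2 x y b'⟩
        have h2 := m3 x y b'
        rw [h1, hw] at h2
        simpa using h2
  have hP2 : ∀ x b, A x b → ∃! y, tr x y b ∈ T := by
    intro x b hxb
    obtain ⟨t, ⟨htT, hxt, hbt⟩, hun⟩ := hE _ _ ((adj_rs' A M x b).2 hxb)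
    obtain ⟨w, hw, hxw, hbw⟩ := third (hT t htT) hxt hbt (by simp)
    rcases w with x' | y | b'
    · exact absurd hxw (adj_rr' A M x x')
    · refine ⟨y, ?_, ?_⟩
      · show tr x y b ∈ T
        have : tr x y b = t := by
          rw [hw]
          ext z
          simp only [htr, Finset.mem_insert, Finset.mem_singleton]
          tauto
        rw [this]; exact htT
      · intro y' hy'
        have h1 : tr x y' b = t := hun _ ⟨hy', m1 x y' b, m3 x y' b⟩
        have h2 := m2 x y' b
        rw [h1, hw] at h2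
        simpa using h2
    · exact absurd hbw (adj_ss' A M b b')
  have hP3 : ∀ y b, M y b → ∃! x, tr x y b ∈ T := by
    intro y b hyb
    obtain ⟨t, ⟨htT, hyt, hbt⟩, hun⟩ := hE _ _ ((adj_cs' A M y b).2 hyb)
    obtain ⟨w, hw, hyw, hbw⟩ := third (hT t htT) hyt hbt (by simp)
    rcases w with x | y' | b'
    · refine ⟨x, ?_, ?_⟩
      · show tr x y b ∈ T
        have : tr x y b = t := by
          rw [hw]
          ext z
          simp only [htr, Finset.mem_insert, Finset.mem_singleton]
          tauto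
        rw [this]; exact htT
      · intro x' hx'
        have h1 : tr x' y b = t := hun _ ⟨hx', m2 x' y b, m3 x' y b⟩
        have h2 := m1 x' y b
        rw [h1, hw] at h2
        simpa using h2
    · exact absurd hyw (adj_cc' A M y y')
    · exact absurd hbw (adj_ss' A M b b')
  choose f hf hfu using hP1
  have key : ∀ x y b, f x y = b ↔ tr x y b ∈ T := by
    intro x y b
    constructor
    · rintro rfl; exact hf x y
    · intro hb; exact (hfu x y b hb).symm
  have imR : ∀ x, Finset.univ.image (f x) = Finset.univ.filter (fun b => A x b) := by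
    intro x
    ext b
    simp only [Finset.mem_image, Finset.mem_univ, true_and, Finset.mem_filter]
    constructor
    · rintro ⟨y, hy⟩
      exact (hP4 x y b ((key x y b).1 hy)).1
    · intro hb
      obtain ⟨y, hy, _⟩ := hP2 x b hb
      exact ⟨y, (key x y b).2 hy⟩
  have imC : ∀ y, Finset.univ.image (fun x => f x y) = Finset.univ.filter (fun b => M y b) := by
    intro y
    ext b
    simp only [Finset.mem_image, Finset.mem_univ, true_and, Finset.mem_filter]
    constructor
    · rintro ⟨x, hx⟩
      exact (hP4 x y b ((key x y b).1 hx)).2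
    · intro hb
      obtain ⟨x, hx, _⟩ := hP3 y b hb
      exact ⟨x, (key x y b).2 hx⟩
  refine ⟨f, ?_, ?_, ?_, ?_, ?_, ?_⟩
  · intro x y y' hyy
    have h1 := (key x y _).1 rfl
    have h2 := (key x y' _).1 hyy.symm
    obtain ⟨y0, _, hu⟩ := hP2 x (f x y) (hP4 _ _ _ h1).1
    rw [hu y h1, hu y' h2]
  · intro y x x' hxx
    have h1 := (key x y _).1 rfl
    have h2 := (key x' y (f x y)).1 hxx.symm
    obtain ⟨x0, _, hu⟩ := hP3 y (f x y) (hP4 _ _ _ h1).2
    rw [hu x h1, hu x' h2]
  · intro s
    rw [← h.degSR s]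
    refine Finset.card_bij (fun p _ => p.1) ?_ ?_ ?_
    · rintro ⟨x, y⟩ hp
      simp only [Finset.mem_filter, Finset.mem_univ, true_and] at hp ⊢
      exact (hP4 x y s ((key x y s).1 hp)).1
    · rintro ⟨x, y⟩ hp ⟨x', y'⟩ hp' hxx
      simp only [Finset.mem_filter, Finset.mem_univ, true_and] at hp hp' hxx
      subst hxx
      have h1 := (key x y s).1 hp
      have h2 := (key x y' s).1 hp'
      obtain ⟨y0, _, hu⟩ := hP2 x s (hP4 _ _ _ h1).1
      rw [hu y h1, hu y' h2]
    · intro x hx
      simp only [Finset.mem_filter, Finset.mem_univ, true_and] at hx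
      obtain ⟨y, hy, _⟩ := hP2 x s hx
      exact ⟨(x, y), by simpa using (key x y s).2 hy, rfl⟩
  · intro x x' hx
    rw [imR, imR, ← Finset.filter_and]
    have := h.rr x x' hx
    have h2 : (Finset.univ.filter fun b => A x b ∧ A x' b).card = c - k := by omega
    rw [← h2]
  · intro y y' hy
    rw [imC, imC, ← Finset.filter_and]
    have := h.cc y y' hy
    have h2 : (Finset.univ.filter fun b => M y b ∧ M y' b).card = r - k := by omega
    rw [← h2]
  · intro x y
    rw [imR, imC, ← Finset.filter_and]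
    have h2 := h.rc x y
    rw [← h2]

end Pool.Agent.Lib.TriD
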