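import Pool.Agent.Lib.TriD.ZDefs

set_option autoImplicit false
set_option linter.unusedSectionVars false

/-!
The graph of a design system satisfies `Host`.
-/

open scoped Classical

namespace Pool.Agent.Lib.TriD

section adj

variable {R C S : Type} (A : R → S → Prop) (M : C → S → Prop)

private theorem hadj_rc (x : R) (y : C) : (dg A M).Adj (Sum.inl x) (Sum.inr (Sum.inl y)) := by
  simp [dg]

private theorem hadj_cr (x : R) (y : C) : (dg A M).Adj (Sum.inr (Sum.inl y)) (Sum.inl x) := by
  simp [dg]

private theorem hadj_rs (x : R) (b : S) :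
    (dg A M).Adj (Sum.inl x) (Sum.inr (Sum.inr b)) ↔ A x b := by
  simp [dg]

private theorem hadj_sr (x : R) (b : S) :
    (dg A M).Adj (Sum.inr (Sum.inr b)) (Sum.inl x) ↔ A x b := by
  simp [dg]

private theorem hadj_cs (y : C) (b : S) :
    (dg A M).Adj (Sum.inr (Sum.inl y)) (Sum.inr (Sum.inr b)) ↔ M y b := by
  simp [dg]

private theorem hadj_sc (y : C) (b : S) :
    (dg A M).Adj (Sum.inr (Sum.inr b)) (Sum.inr (Sum.inl y)) ↔ M y b := by
  simp [dg]

private theorem hadj_rr (x x' : R) : ¬ (dg A M).Adj (Sum.inl x) (Sum.inl x') := by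
  simp [dg]

private theorem hadj_cc (y y' : C) :
    ¬ (dg A M).Adj (Sum.inr (Sum.inl y)) (Sum.inr (Sum.inl y')) := by
  simp [dg]

private theorem hadj_ss (b b' : S) :
    ¬ (dg A M).Adj (Sum.inr (Sum.inr b)) (Sum.inr (Sum.inr b')) := by
  simp [dg]

end adj

section split

variable {R C S : Type} [Fintype R] [Fintype C] [Fintype S]

private theorem card_split (P : R ⊕ C ⊕ S → Prop) [DecidablePred P] :
    (Finset.univ.filter P).card = (Finset.univ.filter fun x => P (Sum.inl x)).card +
      ((Finset.univ.filter fun y => P (Sum.inr (Sum.inl y))).card +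
        (Finset.univ.filter fun b => P (Sum.inr (Sum.inr b))).card) := by
  simp only [Finset.card_filter, Fintype.sum_sum_type]

private theorem nbr0 (G : SimpleGraph (R ⊕ C ⊕ S)) (U : Finset (R ⊕ C ⊕ S)) :
    (nbr dp G 0 U).card = (Finset.univ.filter fun x : R => ∀ u ∈ U, G.Adj u (Sum.inl x)).card := by
  unfold nbr
  rw [card_split]
  simp [dp]

private theorem nbr1 (G : SimpleGraph (R ⊕ C ⊕ S)) (U : Finset (R ⊕ C ⊕ S)) :
    (nbr dp G 1 U).card =
      (Finset.univ.filter fun y : C => ∀ u ∈ U, G.Adj u (Sum.inr (Sum.inl y))).card := by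
  unfold nbr
  rw [card_split]
  simp [dp]

private theorem nbr2 (G : SimpleGraph (R ⊕ C ⊕ S)) (U : Finset (R ⊕ C ⊕ S)) :
    (nbr dp G 2 U).card =
      (Finset.univ.filter fun b : S => ∀ u ∈ U, G.Adj u (Sum.inr (Sum.inr b))).card := by
  unfold nbr
  rw [card_split]
  simp [dp]

private theorem sub0 (D : Finset (R ⊕ C ⊕ S)) (hD : ∀ z ∈ D, dp z = 0)
    (P : R ⊕ C ⊕ S → Prop) [DecidablePred P] :
    (D.filter P).card =
      ((Finset.univ.filter fun x : R => Sum.inl x ∈ D).filter fun x => P (Sum.inl x)).card := by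
  have e : D.filter P = ((Finset.univ.filter fun x : R => Sum.inl x ∈ D).filter
      fun x => P (Sum.inl x)).image (fun x : R => (Sum.inl x : R ⊕ C ⊕ S)) := by
    ext z
    rcases z with x | y | b
    · simp
    · have := hD (Sum.inr (Sum.inl y))
      simp [dp] at this
      simp [this]
    · have := hD (Sum.inr (Sum.inr b))
      simp [dp] at this
      simp [this]
  rw [e, Finset.card_image_of_injective _ (fun a b h => by simpa using h)]

private theorem sub1 (D : Finset (R ⊕ C ⊕ S)) (hD : ∀ z ∈ D, dp z = 1)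
    (P : R ⊕ C ⊕ S → Prop) [DecidablePred P] :
    (D.filter P).card =
      ((Finset.univ.filter fun y : C => Sum.inr (Sum.inl y) ∈ D).filter
        fun y => P (Sum.inr (Sum.inl y))).card := by
  have e : D.filter P = ((Finset.univ.filter fun y : C => Sum.inr (Sum.inl y) ∈ D).filter
      fun y => P (Sum.inr (Sum.inl y))).image
        (fun y : C => (Sum.inr (Sum.inl y) : R ⊕ C ⊕ S)) := by
    ext z
    rcases z with x | y | b
    · have := hD (Sum.inl x)
      simp [dp] at this
      simp [this]
    · simp
    · have := hD (Sum.inr (Sum.inr b))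
      simp [dp] at this
      simp [this]
  rw [e, Finset.card_image_of_injective _ (fun a b h => by simpa using h)]

private theorem sub2 (D : Finset (R ⊕ C ⊕ S)) (hD : ∀ z ∈ D, dp z = 2)
    (P : R ⊕ C ⊕ S → Prop) [DecidablePred P] :
    (D.filter P).card =
      ((Finset.univ.filter fun b : S => Sum.inr (Sum.inr b) ∈ D).filter
        fun b => P (Sum.inr (Sum.inr b))).card := by
  have e : D.filter P = ((Finset.univ.filter fun b : S => Sum.inr (Sum.inr b) ∈ D).filter
      fun b => P (Sum.inr (Sum.inr b))).image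
        (fun b : S => (Sum.inr (Sum.inr b) : R ⊕ C ⊕ S)) := by
    ext z
    rcases z with x | y | b
    · have := hD (Sum.inl x)
      simp [dp] at this
      simp [this]
    · have := hD (Sum.inr (Sum.inl y))
      simp [dp] at this
      simp [this]
    · simp
  rw [e, Finset.card_image_of_injective _ (fun a b h => by simpa using h)]

/-- Chebyshev. -/
private theorem cheb {U : Type} [Fintype U] (f : U → ℝ) (N q ε K : ℝ) (hN : 0 ≤ N) (hε : 0 < ε)
    (hq : ε ≤ q) (hK : 0 ≤ K) (hs : ∑ u, (f u - N * q) ^ 2 ≤ K * N) :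
    ((Finset.univ.filter fun u => f u < ε / 4 * N).card : ℝ) * N ≤ 4 / ε ^ 2 * K := by
  rcases hN.eq_or_lt with h0 | h0
  · rw [← h0, mul_zero]
    positivity
  have h1 : ((Finset.univ.filter fun u => f u < ε / 4 * N).card : ℝ) * ((ε / 2) ^ 2 * N ^ 2) ≤
      ∑ u, (f u - N * q) ^ 2 := by
    calc ((Finset.univ.filter fun u => f u < ε / 4 * N).card : ℝ) * ((ε / 2) ^ 2 * N ^ 2)
        = ∑ u ∈ Finset.univ.filter (fun u => f u < ε / 4 * N), ((ε / 2) ^ 2 * N ^ 2) := by
          rw [Finset.sum_const, nsmul_eq_mul]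
      _ ≤ ∑ u ∈ Finset.univ.filter (fun u => f u < ε / 4 * N), (f u - N * q) ^ 2 := by
          refine Finset.sum_le_sum ?_
          intro u hu
          simp only [Finset.mem_filter, Finset.mem_univ, true_and] at hu
          have h2 : ε / 2 * N ≤ N * q - f u := by nlinarith [mul_le_mul_of_nonneg_left hq h0.le]
          have h3 : 0 ≤ ε / 2 * N := by positivity
          calc (ε / 2) ^ 2 * N ^ 2 = (ε / 2 * N) ^ 2 := by ring
            _ ≤ (N * q - f u) ^ 2 := pow_le_pow_left₀ h3 h2 2
            _ = (f u - N * q) ^ 2 := by ring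
      _ ≤ ∑ u, (f u - N * q) ^ 2 := by
          refine Finset.sum_le_sum_of_subset_of_nonneg (Finset.filter_subset _ _) ?_
          intro u _ _
          positivity
  have h2 := h1.trans hs
  set n : ℝ := ((Finset.univ.filter fun u => f u < ε / 4 * N).card : ℝ) with hn
  have h3 : (n * N) * (ε ^ 2 / 4) ≤ K := by
    have : ((n * N) * (ε ^ 2 / 4)) * N ≤ K * N := by
      calc ((n * N) * (ε ^ 2 / 4)) * N = n * ((ε / 2) ^ 2 * N ^ 2) := by ring
        _ ≤ K * N := h2
    exact le_of_mul_le_mul_right this h0
  calc n * N = 4 / ε ^ 2 * ((n * N) * (ε ^ 2 / 4)) := by field_simp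
    _ ≤ 4 / ε ^ 2 * K := mul_le_mul_of_nonneg_left h3 (by positivity)

end split

theorem host_of_sys {R C S : Type} [Fintype R] [Fintype C] [Fintype S]
    {A : R → S → Prop} {M : C → S → Prop} {r c k : ℕ} (h : DSys A M r c k) (hm : DMix A M r c k)
    (ε : ℝ) (hε : 0 < ε) (hr : 0 < r) (hc : 0 < c) (hk : 0 < k) (hkε : ε * (r + c) ≤ k) :
    Host dp (dg A M) (ε / 4) (4 / ε ^ 2) := by
  have hS : 0 < Fintype.card S := by have := h.cS; omega
  obtain ⟨b0⟩ := Fintype.card_pos_iff.1 hS
  have hkr : k ≤ r := by
    rw [← h.degSR b0, ← h.cR]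
    exact Finset.card_le_univ _
  have hkc : k ≤ c := by
    rw [← h.degSC b0, ← h.cC]
    exact Finset.card_le_univ _
  have hkS : k ≤ Fintype.card S := by have := h.cS; omega
  have hV : Fintype.card (R ⊕ C ⊕ S) = r + (c + Fintype.card S) := by
    rw [Fintype.card_sum, Fintype.card_sum, h.cR, h.cC]
  have hVk : ε / 4 * (Fintype.card (R ⊕ C ⊕ S) : ℝ) ≤ k := by
    have h1 : (Fintype.card (R ⊕ C ⊕ S) : ℝ) ≤ 2 * (r + c) := by
      have h2 : Fintype.card (R ⊕ C ⊕ S) ≤ 2 * (r + c) := by
        have := h.cS
        omega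
      exact_mod_cast h2
    have hk0 : (0 : ℝ) ≤ k := Nat.cast_nonneg _
    calc ε / 4 * (Fintype.card (R ⊕ C ⊕ S) : ℝ) ≤ ε / 4 * (2 * (r + c)) :=
          mul_le_mul_of_nonneg_left h1 (by positivity)
      _ = (ε * (r + c)) / 2 := by ring
      _ ≤ k / 2 := by linarith
      _ ≤ k := by linarith
  have hkV : (k : ℝ) ≤ (Fintype.card (R ⊕ C ⊕ S) : ℝ) := by
    have : k ≤ Fintype.card (R ⊕ C ⊕ S) := by omega
    exact_mod_cast this
  have hrc : (0 : ℝ) < (r : ℝ) + c := by
    have : (0 : ℝ) < r := by exact_mod_cast hr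
    positivity
  have hkr' : (k : ℝ) ≤ r := by exact_mod_cast hkr
  have hkc' : (k : ℝ) ≤ c := by exact_mod_cast hkc
  have hε1 : ε ≤ 1 := by
    have h1 : ε * (r + c) ≤ 1 * ((r : ℝ) + c) := by
      have : (0 : ℝ) ≤ c := Nat.cast_nonneg _
      linarith
    exact le_of_mul_le_mul_right h1 hrc
  have hqc : ε ≤ (c : ℝ) / (r + c) := by
    rw [le_div_iff₀ hrc]; linarith
  have hqr : ε ≤ (r : ℝ) / (r + c) := by
    rw [le_div_iff₀ hrc]; linarith
  have hk0 : (0 : ℝ) ≤ k := Nat.cast_nonneg _
  have hfin : ∀ n : ℝ, n ≤ 4 / ε ^ 2 * k → n ≤ 4 / ε ^ 2 * (Fintype.card (R ⊕ C ⊕ S) : ℝ) :=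
    fun n hn => hn.trans (mul_le_mul_of_nonneg_left hkV (by positivity))
  -- degrees
  have d01 : ∀ x : R, (nbr dp (dg A M) 1 {Sum.inl x}).card = c := by
    intro x
    rw [nbr1, ← h.cC, ← Finset.card_univ]
    congr 1
    ext y
    simp [hadj_rc]
  have d02 : ∀ x : R, (nbr dp (dg A M) 2 {Sum.inl x}).card = c := by
    intro x
    rw [nbr2, ← h.degR x]
    congr 1
    ext b
    simp [hadj_rs]
  have d10 : ∀ y : C, (nbr dp (dg A M) 0 {Sum.inr (Sum.inl y)}).card = r := by
    intro y
    rw [nbr0, ← h.cR, ← Finset.card_univ]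
    congr 1
    ext x
    simp [hadj_cr]
  have d12 : ∀ y : C, (nbr dp (dg A M) 2 {Sum.inr (Sum.inl y)}).card = r := by
    intro y
    rw [nbr2, ← h.degC y]
    congr 1
    ext b
    simp [hadj_cs]
  have d20 : ∀ b : S, (nbr dp (dg A M) 0 {Sum.inr (Sum.inr b)}).card = k := by
    intro b
    rw [nbr0, ← h.degSR b]
    congr 1
    ext x
    simp [hadj_sr]
  have d21 : ∀ b : S, (nbr dp (dg A M) 1 {Sum.inr (Sum.inr b)}).card = k := by
    intro b
    rw [nbr1, ← h.degSC b]
    congr 1
    ext y
    simp [hadj_sc]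
  -- codegrees
  have c2 : ∀ (x : R) (y : C) (U : Finset (R ⊕ C ⊕ S)),
      (∀ z, z ∈ U ↔ z = Sum.inl x ∨ z = Sum.inr (Sum.inl y)) →
      (nbr dp (dg A M) 2 U).card = k := by
    intro x y U hU
    rw [nbr2, ← h.rc x y]
    congr 1
    ext b
    simp [hU, hadj_rs, hadj_cs]
  have c1 : ∀ (x : R) (b : S) (U : Finset (R ⊕ C ⊕ S)),
      (∀ z, z ∈ U ↔ z = Sum.inl x ∨ z = Sum.inr (Sum.inr b)) → A x b →
      (nbr dp (dg A M) 1 U).card = k := by
    intro x b U hU _
    rw [nbr1, ← h.degSC b]
    congr 1
    ext y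
    simp [hU, hadj_rc, hadj_sc]
  have c0 : ∀ (y : C) (b : S) (U : Finset (R ⊕ C ⊕ S)),
      (∀ z, z ∈ U ↔ z = Sum.inr (Sum.inl y) ∨ z = Sum.inr (Sum.inr b)) → M y b →
      (nbr dp (dg A M) 0 U).card = k := by
    intro y b U hU _
    rw [nbr0, ← h.degSR b]
    congr 1
    ext x
    simp [hU, hadj_cr, hadj_sr]
  have dfin : ∀ (v : R ⊕ C ⊕ S) (j : Fin 3), j ≠ dp v →
      k ≤ (nbr dp (dg A M) j {v}).card := by
    intro v j hj
    rcases v with x | y | b
    · fin_cases j
      · simp [dp] at hj
      · show k ≤ (nbr dp (dg A M) 1 {Sum.inl x}).card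
        rw [d01]; exact hkc
      · show k ≤ (nbr dp (dg A M) 2 {Sum.inl x}).card
        rw [d02]; exact hkc
    · fin_cases j
      · show k ≤ (nbr dp (dg A M) 0 {Sum.inr (Sum.inl y)}).card
        rw [d10]; exact hkr
      · simp [dp] at hj
      · show k ≤ (nbr dp (dg A M) 2 {Sum.inr (Sum.inl y)}).card
        rw [d12]; exact hkr
    · fin_cases j
      · show k ≤ (nbr dp (dg A M) 0 {Sum.inr (Sum.inr b)}).card
        rw [d20]
      · show k ≤ (nbr dp (dg A M) 1 {Sum.inr (Sum.inr b)}).card
        rw [d21]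
      · simp [dp] at hj
  refine ⟨?_, ?_, ?_, ?_, ?_, ?_, ?_⟩
  · -- part
    intro u v huv
    rcases u with x | y | b <;> rcases v with x' | y' | b'
    · exact absurd huv (hadj_rr A M x x')
    · simp [dp]
    · simp [dp]
    · simp [dp]
    · exact absurd huv (hadj_cc A M y y')
    · simp [dp]
    · simp [dp]
    · simp [dp]
    · exact absurd huv (hadj_ss A M b b')
  · -- cells
    intro u v hu hv
    rcases u with x | y | b <;> rcases v with x' | y' | b' <;> simp [dp] at hu hv
    exact hadj_rc A M x y'
  · -- size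
    intro j
    refine hVk.trans ?_
    have hsz : k ≤ (cls dp (Finset.univ : Finset (R ⊕ C ⊕ S)) j).card := by
      unfold cls
      rw [card_split]
      fin_cases j
      · have : (Finset.univ.filter fun x : R =>
            dp (Sum.inl x : R ⊕ C ⊕ S) = 0).card = r := by
          simp [dp, h.cR]
        refine hkr.trans ?_
        rw [← this]
        exact Nat.le_add_right _ _
      · have : (Finset.univ.filter fun y : C =>
            dp (Sum.inr (Sum.inl y) : R ⊕ C ⊕ S) = 1).card = c := by
          simp [dp, h.cC]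
        refine hkc.trans ?_
        rw [← this]
        exact (Nat.le_add_right _ _).trans (Nat.le_add_left _ _)
      · have : (Finset.univ.filter fun b : S =>
            dp (Sum.inr (Sum.inr b) : R ⊕ C ⊕ S) = 2).card = Fintype.card S := by
          simp [dp]
        refine hkS.trans ?_
        rw [← this]
        exact (Nat.le_add_left _ _).trans (Nat.le_add_left _ _)
    exact_mod_cast hsz
  · -- cod
    refine ⟨k, hVk, ?_⟩
    intro u v huv j hju hjv
    rcases u with x | y | b <;> rcases v with x' | y' | b'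
    · exact absurd huv (hadj_rr A M x x')
    · have : j = 2 := by
        fin_cases j <;> simp [dp] at hju hjv ⊢
      subst this
      exact c2 x y' _ (by intro z; simp)
    · have : j = 1 := by
        fin_cases j <;> simp [dp] at hju hjv ⊢
      subst this
      exact c1 x b' _ (by intro z; simp) ((hadj_rs A M x b').1 huv)
    · have : j = 2 := by
        fin_cases j <;> simp [dp] at hju hjv ⊢
      subst this
      exact c2 x' y _ (by intro z; simp [or_comm])
    · exact absurd huv (hadj_cc A M y y')
    · have : j = 0 := by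
        fin_cases j <;> simp [dp] at hju hjv ⊢
      subst this
      exact c0 y b' _ (by intro z; simp) ((hadj_cs A M y b').1 huv)
    · have : j = 1 := by
        fin_cases j <;> simp [dp] at hju hjv ⊢
      subst this
      exact c1 x' b _ (by intro z; simp [or_comm]) ((hadj_sr A M x' b).1 huv)
    · have : j = 0 := by
        fin_cases j <;> simp [dp] at hju hjv ⊢
      subst this
      exact c0 y' b _ (by intro z; simp [or_comm]) ((hadj_sc A M y' b).1 huv)
    · exact absurd huv (hadj_ss A M b b')
  · -- deg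
    intro v j hj
    refine hVk.trans ?_
    exact_mod_cast dfin v j hj
  · -- tdiv
    intro v j j' hj hj'
    rcases v with x | y | b
    · have e : ∀ i : Fin 3, i ≠ dp (Sum.inl x : R ⊕ C ⊕ S) →
          (nbr dp (dg A M) i {Sum.inl x}).card = c := by
        intro i hi
        fin_cases i
        · simp [dp] at hi
        · exact d01 x
        · exact d02 x
      rw [e j hj, e j' hj']
    · have e : ∀ i : Fin 3, i ≠ dp (Sum.inr (Sum.inl y) : R ⊕ C ⊕ S) →
          (nbr dp (dg A M) i {Sum.inr (Sum.inl y)}).card = r := by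
        intro i hi
        fin_cases i
        · exact d10 y
        · simp [dp] at hi
        · exact d12 y
      rw [e j hj, e j' hj']
    · have e : ∀ i : Fin 3, i ≠ dp (Sum.inr (Sum.inr b) : R ⊕ C ⊕ S) →
          (nbr dp (dg A M) i {Sum.inr (Sum.inr b)}).card = k := by
        intro i hi
        fin_cases i
        · exact d20 b
        · exact d21 b
        · simp [dp] at hi
      rw [e j hj, e j' hj']
  · -- mix
    intro i j D hij hD
    have hDc0 : (0 : ℝ) ≤ D.card := Nat.cast_nonneg _
    -- complete pairs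
    have full : (∀ u, dp u = j → ∀ z ∈ D, (dg A M).Adj u z) →
        ((Finset.univ.filter (fun u => dp u = j ∧
          ((D.filter (fun z => (dg A M).Adj u z)).card : ℝ) < ε / 4 * D.card)).card : ℝ) * D.card
        ≤ 4 / ε ^ 2 * Fintype.card (R ⊕ C ⊕ S) := by
      intro hfull
      have : (Finset.univ.filter (fun u => dp u = j ∧
          ((D.filter (fun z => (dg A M).Adj u z)).card : ℝ) < ε / 4 * D.card)) = ∅ := by
        rw [Finset.filter_eq_empty_iff]
        rintro u - ⟨hu, hlt⟩
        rw [Finset.filter_true_of_mem (hfull u hu)] at hlt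
        nlinarith
      rw [this]
      simp only [Finset.card_empty, Nat.cast_zero, zero_mul]
      positivity
    fin_cases i <;> fin_cases j
    · exact absurd rfl hij
    · refine full ?_
      intro u hu z hz
      have hz' := hD z hz
      rcases u with x | y | b <;> rcases z with x' | y' | b' <;> simp [dp] at hu hz'
      exact hadj_cr A M x' y
    · -- rows, symbols
      have hD' : ∀ z ∈ D, dp z = 0 := hD
      set D' : Finset R := Finset.univ.filter fun x : R => (Sum.inl x : R ⊕ C ⊕ S) ∈ D with hDD
      have hcard : D.card = D'.card := by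
        have := sub0 D hD' (fun _ => True)
        simpa using this
      have hcnt : (Finset.univ.filter (fun u : R ⊕ C ⊕ S => dp u = 2 ∧
          ((D.filter (fun z => (dg A M).Adj u z)).card : ℝ) < ε / 4 * D.card)).card =
          (Finset.univ.filter fun b : S =>
            ((D'.filter fun x => A x b).card : ℝ) < ε / 4 * D'.card).card := by
        rw [card_split]
        simp only [dp, Fin.isValue, hcard]
        simp only [sub0 D hD', hadj_sr]
        simp [hDD]
      have hch := cheb (fun b : S => ((D'.filter fun x => A x b).card : ℝ)) D'.card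
        (c / (r + c)) ε k (Nat.cast_nonneg _) hε hqc hk0 (hm.m1 D')
      refine hfin _ ?_
      show ((Finset.univ.filter (fun u : R ⊕ C ⊕ S => dp u = 2 ∧
          ((D.filter (fun z => (dg A M).Adj u z)).card : ℝ) < ε / 4 * D.card)).card : ℝ) *
            D.card ≤ _
      rw [hcnt, hcard]
      exact hch
    · refine full ?_
      intro u hu z hz
      have hz' := hD z hz
      rcases u with x | y | b <;> rcases z with x' | y' | b' <;> simp [dp] at hu hz'
      exact hadj_rc A M x y'
    · exact absurd rfl hij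
    · -- columns, symbols
      have hD' : ∀ z ∈ D, dp z = 1 := hD
      set D' : Finset C := Finset.univ.filter
        fun y : C => (Sum.inr (Sum.inl y) : R ⊕ C ⊕ S) ∈ D with hDD
      have hcard : D.card = D'.card := by
        have := sub1 D hD' (fun _ => True)
        simpa using this
      have hcnt : (Finset.univ.filter (fun u : R ⊕ C ⊕ S => dp u = 2 ∧
          ((D.filter (fun z => (dg A M).Adj u z)).card : ℝ) < ε / 4 * D.card)).card =
          (Finset.univ.filter fun b : S =>
            ((D'.filter fun y => M y b).card : ℝ) < ε / 4 * D'.card).card := by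
        rw [card_split]
        simp only [dp, Fin.isValue, hcard]
        simp only [sub1 D hD', hadj_sc]
        simp [hDD]
      have hch := cheb (fun b : S => ((D'.filter fun y => M y b).card : ℝ)) D'.card
        (r / (r + c)) ε k (Nat.cast_nonneg _) hε hqr hk0 (hm.m2 D')
      refine hfin _ ?_
      show ((Finset.univ.filter (fun u : R ⊕ C ⊕ S => dp u = 2 ∧
          ((D.filter (fun z => (dg A M).Adj u z)).card : ℝ) < ε / 4 * D.card)).card : ℝ) *
            D.card ≤ _
      rw [hcnt, hcard]
      exact hch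
    · -- symbols, rows
      have hD' : ∀ z ∈ D, dp z = 2 := hD
      set D' : Finset S := Finset.univ.filter
        fun b : S => (Sum.inr (Sum.inr b) : R ⊕ C ⊕ S) ∈ D with hDD
      have hcard : D.card = D'.card := by
        have := sub2 D hD' (fun _ => True)
        simpa using this
      have hcnt : (Finset.univ.filter (fun u : R ⊕ C ⊕ S => dp u = 0 ∧
          ((D.filter (fun z => (dg A M).Adj u z)).card : ℝ) < ε / 4 * D.card)).card =
          (Finset.univ.filter fun x : R =>
            ((D'.filter fun b => A x b).card : ℝ) < ε / 4 * D'.card).card := by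
        rw [card_split]
        simp only [dp, Fin.isValue, hcard]
        simp only [sub2 D hD', hadj_rs]
        simp [hDD]
      have hch := cheb (fun x : R => ((D'.filter fun b => A x b).card : ℝ)) D'.card
        (c / (r + c)) ε k (Nat.cast_nonneg _) hε hqc hk0 (hm.m3 D')
      refine hfin _ ?_
      show ((Finset.univ.filter (fun u : R ⊕ C ⊕ S => dp u = 0 ∧
          ((D.filter (fun z => (dg A M).Adj u z)).card : ℝ) < ε / 4 * D.card)).card : ℝ) *
            D.card ≤ _
      rw [hcnt, hcard]
      exact hch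
    · -- symbols, columns
      have hD' : ∀ z ∈ D, dp z = 2 := hD
      set D' : Finset S := Finset.univ.filter
        fun b : S => (Sum.inr (Sum.inr b) : R ⊕ C ⊕ S) ∈ D with hDD
      have hcard : D.card = D'.card := by
        have := sub2 D hD' (fun _ => True)
        simpa using this
      have hcnt : (Finset.univ.filter (fun u : R ⊕ C ⊕ S => dp u = 1 ∧
          ((D.filter (fun z => (dg A M).Adj u z)).card : ℝ) < ε / 4 * D.card)).card =
          (Finset.univ.filter fun y : C =>
            ((D'.filter fun b => M y b).card : ℝ) < ε / 4 * D'.card).card := by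
        rw [card_split]
        simp only [dp, Fin.isValue, hcard]
        simp only [sub2 D hD', hadj_cs]
        simp [hDD]
      have hch := cheb (fun y : C => ((D'.filter fun b => M y b).card : ℝ)) D'.card
        (r / (r + c)) ε k (Nat.cast_nonneg _) hε hqr hk0 (hm.m4 D')
      refine hfin _ ?_
      show ((Finset.univ.filter (fun u : R ⊕ C ⊕ S => dp u = 1 ∧
          ((D.filter (fun z => (dg A M).Adj u z)).card : ℝ) < ε / 4 * D.card)).card : ℝ) *
            D.card ≤ _
      rw [hcnt, hcard]
      exact hch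
    · exact absurd rfl hij

end Pool.Agent.Lib.TriD
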