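import Pool.Agent.Lib.TriD.ZSys
import Pool.Agent.Lib.TriD.ZHost
import Pool.Agent.Lib.TriD.ZArr

set_option autoImplicit false

/-!
From triangle decompositions of hosts to triple arrays for dense symmetric designs.
-/

open scoped Classical

namespace Pool.Agent.Lib.TriD

open Pool.Agent.Lib.MP_6fba53_co

theorem dense_of_td (hT : ∀ c K : ℝ, 0 < c → c ≤ 1 → 0 ≤ K → ∃ n0 : ℕ, ∀ (V : Type) [Fintype V]
      (p : V → Fin 3) (G : SimpleGraph V), Host p G c K → n0 ≤ Fintype.card V → TD G)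
    (ε : ℝ) (hε : 0 < ε) :
    ∃ N : ℕ, ∀ r c lam : ℕ, N ≤ r + c → (lam : ℝ) + ε * (r + c) ≤ r →
      ∀ B : Fin (r + c) → Finset (Fin (r + c)), SymD (r + c) r lam B →
      ∃ A : Fin r → Fin c → Fin (r + c - 1),
        IsTripleArray A (r - lam) (c - (r - lam)) lam (r - lam) := by
  by_cases hε1 : 1 < ε
  · refine ⟨1, ?_⟩
    intro r c lam hN hl B _
    exfalso
    have h1 : (1 : ℝ) ≤ (r : ℝ) + c := by exact_mod_cast hN
    have h2 : (0 : ℝ) ≤ lam := Nat.cast_nonneg _
    have h3 : (0 : ℝ) ≤ c := Nat.cast_nonneg _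
    nlinarith
  · push Not at hε1
    obtain ⟨n0, hn0⟩ := hT (ε / 4) (4 / ε ^ 2) (by positivity) (by linarith) (by positivity)
    refine ⟨max n0 ⌈2 / ε⌉₊ + 1, ?_⟩
    intro r c lam hN hl B hB
    have hNn : n0 ≤ r + c := le_trans (le_trans (le_max_left _ _) (Nat.le_succ _)) hN
    have hNc : ⌈2 / ε⌉₊ ≤ r + c := le_trans (le_trans (le_max_right _ _) (Nat.le_succ _)) hN
    have hrc0 : 0 < r + c := lt_of_lt_of_le (Nat.succ_pos _) hN
    have h2 : 2 / ε ≤ (r : ℝ) + c := by
      have := (Nat.le_ceil (2 / ε)).trans (Nat.cast_le.mpr hNc : ((⌈2 / ε⌉₊ : ℕ) : ℝ) ≤ ((r + c : ℕ) : ℝ))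
      push_cast at this
      exact this
    have h3 : 2 ≤ ε * ((r : ℝ) + c) := by
      rw [div_le_iff₀ hε] at h2
      linarith
    have h4 : (lam : ℝ) + 2 ≤ r := by linarith
    have h5 : lam + 2 ≤ r := by exact_mod_cast h4
    have hr : 2 ≤ r := by omega
    have hlr : lam < r := by omega
    have hc : 0 < c := by
      rcases Nat.eq_zero_or_pos c with h | h
      · exfalso
        subst h
        have h6 := (hB.rep hrc0 hr).2
        have h7 : 0 < r - 1 := by omega
        simp only [Nat.add_zero] at h6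
        have h8 := Nat.eq_of_mul_eq_mul_right h7 h6
        omega
      · exact h
    have hkc : ((r - lam : ℕ) : ℝ) = (r : ℝ) - lam := Nat.cast_sub hlr.le
    have hsys := sys_of_design hB hr hlr ⟨0, hrc0⟩
    have hmix := mix_of_design hB hr hlr ⟨0, hrc0⟩
    have hhost := host_of_sys hsys hmix ε hε (by omega) hc (by omega : 0 < r - lam) (by rw [hkc]; linarith)
    have htd := hn0 _ _ _ hhost (by
      have e1 := hsys.cR
      have e2 := hsys.cC
      rw [Fintype.card_sum, Fintype.card_sum, e1, e2]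
      omega)
    obtain ⟨f, hf⟩ := array_of_TD hsys htd
    have e3 := hsys.cS
    have hf' := hf.transport (Fintype.equivFinOfCardEq hsys.cR).symm (Fintype.equivFinOfCardEq hsys.cC).symm
      (Fintype.equivFinOfCardEq (n := r + c - 1) (by omega))
    have h9 : r - (r - lam) = lam := by omega
    rw [h9] at hf'
    exact ⟨_, hf'⟩

end Pool.Agent.Lib.TriD
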