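import Pool.Agent.Lib.TriD.ZNDefs

set_option autoImplicit false

/-!
MODULE ZN01 (about 120 lines). Every row-column edge of `H \ nxt` is in exactly one triangle.

Abbreviations: `O j = cls p (A0 \ A1) j`, `al1 y b`, `al2 x b` alive after round 1 / 2, triangles of `tset`: type 1 `(x, y, π1 x y)`,
`x ∈ O 0`, type 2 `(x, y, π2 y x)`, `y ∈ O 1`, `x ∈ A1`, type 3 `(x, π3 b x, b)`, `b ∈ O 2`, `al2 x b`. Ends of edges of `H` lie in `A0`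
(`Level.supp` and symmetry), `H ≤ G`, parts of adjacent vertices differ (`Host.part`). Use `nxt_adj`.

PROOF. Let `(H \ nxt).Adj x y`. If `x ∉ A1` then `x ∈ O 0` and `b = π1 x y` (types 2, 3 need `x ∈ A1`). If `x ∈ A1`, `y ∉ A1`: `b = π2 y x` (type 1
needs `x ∉ A1`; type 3 needs `y = π3 b x ∈ A1` by `h3.bij`). If `x, y ∈ A1`: not in `nxt`, so not both in `A2` and `keep x y` fails: there is
`b ∈ O 2` with `al2 x b`, `π3 b x = y`; unique by `h3.disj`; types 1, 2 need `x ∉ A1`, `y ∉ A1`.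
-/

open scoped Classical

noncomputable section

namespace Pool.Agent.Lib.TriD

variable {V : Type} [Fintype V]

theorem nxt_01 {p : V → Fin 3} {G H : SimpleGraph V} {c K s ξ δ ε : ℝ} {A0 A1 A2 A3 : Finset V}
    {ω : V → V → V → ℝ} {π1 π2 π3 : V → V → V} (hG : Host p G c K)
    (hL : Level p G H s ξ δ A0 A1 A2 A3) (h1 : R1Out p H A0 A1 A2 A3 ω c s δ ε π1)
    (h2 : R2Out p H A0 A1 A2 A3 ω c s δ ε π1 π2) (h3 : R3Out p H A0 A1 A2 A3 s δ ε π1 π2 π3) :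
    ∀ x y, p x = 0 → p y = 1 → (H \ nxt p H A0 A1 A2 π1 π2 π3).Adj x y →
      ∃! b, (x, y, b) ∈ tset p H A0 A1 A2 π1 π2 π3 := by
  intro x y hx hy hxy
  rw [SimpleGraph.sdiff_adj] at hxy
  obtain ⟨hH, hn⟩ := hxy
  have hxA0 : x ∈ A0 := hL.supp x y hH
  have hyA0 : y ∈ A0 := hL.supp y x hH.symm
  have hmem : ∀ b, (x, y, b) ∈ tset p H A0 A1 A2 π1 π2 π3 ↔
      (x ∈ cls p (A0 \ A1) 0 ∧ p y = 1 ∧ H.Adj x y ∧ b = π1 x y) ∨
      (y ∈ cls p (A0 \ A1) 1 ∧ x ∈ cls p A1 0 ∧ H.Adj x y ∧ b = π2 y x) ∨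
      (b ∈ cls p (A0 \ A1) 2 ∧ al2 p H A0 A1 A2 π2 x b ∧ y = π3 b x) := by
    intro b
    unfold tset
    rw [Finset.mem_filter]
    exact ⟨fun h => h.2, fun h => ⟨Finset.mem_univ _, h⟩⟩
  have hcls : ∀ (Z : Finset V) (j : Fin 3) (z : V), z ∈ cls p Z j ↔ z ∈ Z ∧ p z = j :=
    fun Z j z => Finset.mem_filter
  by_cases hxA1 : x ∈ A1
  · by_cases hyA1 : y ∈ A1
    · have hk : ¬ keep p H A0 A1 A2 π1 π2 π3 x y := fun hk =>
        hn (nxt_adj.mpr ⟨hH, hxA1, hyA1, Or.inr (Or.inl hk)⟩)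
      have hex : ∃ b ∈ cls p (A0 \ A1) 2, al2 p H A0 A1 A2 π2 x b ∧ π3 b x = y := by
        by_contra hcon
        apply hk
        refine Or.inr (Or.inr ⟨hx, hy, ?_⟩)
        intro b hb hal heq
        exact hcon ⟨b, hb, hal, heq⟩
      obtain ⟨b, hb, hal, heq⟩ := hex
      refine ⟨b, (hmem b).mpr (Or.inr (Or.inr ⟨hb, hal, heq.symm⟩)), ?_⟩
      intro b' hb'
      rcases (hmem b').mp hb' with ⟨h, -⟩ | ⟨h, -⟩ | ⟨hb1, hb2, hb3⟩
      · exact absurd hxA1 (Finset.mem_sdiff.mp ((hcls _ _ _).mp h).1).2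
      · exact absurd hyA1 (Finset.mem_sdiff.mp ((hcls _ _ _).mp h).1).2
      · by_contra hne
        exact h3.disj b' hb1 b hb hne x hb2 hal (hb3.symm.trans heq.symm)
    · have hyO : y ∈ cls p (A0 \ A1) 1 := (hcls _ _ _).mpr ⟨Finset.mem_sdiff.mpr ⟨hyA0, hyA1⟩, hy⟩
      have hxO : x ∈ cls p A1 0 := (hcls _ _ _).mpr ⟨hxA1, hx⟩
      refine ⟨π2 y x, (hmem _).mpr (Or.inr (Or.inl ⟨hyO, hxO, hH, rfl⟩)), ?_⟩
      intro b' hb'
      rcases (hmem b').mp hb' with ⟨h, -⟩ | ⟨-, -, -, h⟩ | ⟨hb1, hb2, hb3⟩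
      · exact absurd hxA1 (Finset.mem_sdiff.mp ((hcls _ _ _).mp h).1).2
      · exact h
      · have h5 := (h3.bij b' hb1).mapsTo hb2
        rw [← hb3] at h5
        exact absurd h5.1 hyA1
  · have hxO : x ∈ cls p (A0 \ A1) 0 := (hcls _ _ _).mpr ⟨Finset.mem_sdiff.mpr ⟨hxA0, hxA1⟩, hx⟩
    refine ⟨π1 x y, (hmem _).mpr (Or.inl ⟨hxO, hy, hH, rfl⟩), ?_⟩
    intro b' hb'
    rcases (hmem b').mp hb' with ⟨-, -, -, h⟩ | ⟨-, h, -⟩ | ⟨-, hb2, -⟩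
    · exact h
    · exact absurd ((hcls _ _ _).mp h).1 hxA1
    · exact absurd hb2.2.2.1 hxA1

end Pool.Agent.Lib.TriD
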