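import Pool.Agent.Lib.TriD.ZNDefs

set_option autoImplicit false

/-!
MODULE ZN02 (about 130 lines). Every row-symbol edge of `H \ nxt` is in exactly one triangle.

Abbreviations: `O j = cls p (A0 \ A1) j`, `al1 y b`, `al2 x b` alive after round 1 / 2, triangles of `tset`: type 1 `(x, y, π1 x y)`,
`x ∈ O 0`, type 2 `(x, y, π2 y x)`, `y ∈ O 1`, `x ∈ A1`, type 3 `(x, π3 b x, b)`, `b ∈ O 2`, `al2 x b`. Ends of edges of `H` lie in `A0`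
(`Level.supp` and symmetry), `H ≤ G`, parts of adjacent vertices differ (`Host.part`). Use `nxt_adj`.

PROOF. Let `(H \ nxt).Adj x b`. If `x ∉ A1`: `x ∈ O 0`, `b` is in the image of `π1 x` (`h1.bij`), `y` unique by injectivity on
`{y | p y = 1 ∧ H.Adj x y}`; types 2, 3 need `x ∈ A1`. Let `x ∈ A1`. If `al2 x b`: `b ∈ A1` would give `nxt.Adj x b`; so `b ∈ O 2` and `y = π3 b x`; type 1 needs
`x ∉ A1`; type 2 with `b = π2 y x` contradicts `al2 x b`. If not `al2 x b`: either `x, b ∈ A2` (then `nxt.Adj x b`, contradiction; `A2 ⊆ A1`), or there is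
`y ∈ O 1` with `H.Adj x y`, `π2 y x = b`: type 2, `y` unique by `h2.disj`; type 3 needs `al2 x b`.
-/

open scoped Classical

noncomputable section

namespace Pool.Agent.Lib.TriD

variable {V : Type} [Fintype V]

theorem nxt_02 {p : V → Fin 3} {G H : SimpleGraph V} {c K s ξ δ ε : ℝ} {A0 A1 A2 A3 : Finset V}
    {ω : V → V → V → ℝ} {π1 π2 π3 : V → V → V} (hG : Host p G c K)
    (hL : Level p G H s ξ δ A0 A1 A2 A3) (h1 : R1Out p H A0 A1 A2 A3 ω c s δ ε π1)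
    (h2 : R2Out p H A0 A1 A2 A3 ω c s δ ε π1 π2) (h3 : R3Out p H A0 A1 A2 A3 s δ ε π1 π2 π3) :
    ∀ x b, p x = 0 → p b = 2 → (H \ nxt p H A0 A1 A2 π1 π2 π3).Adj x b →
      ∃! y, (x, y, b) ∈ tset p H A0 A1 A2 π1 π2 π3 := by
  intro x b hx hb hxb
  rw [SimpleGraph.sdiff_adj] at hxb
  obtain ⟨hH, hn⟩ := hxb
  have hxA0 : x ∈ A0 := hL.supp x b hH
  have hbA0 : b ∈ A0 := hL.supp b x hH.symm
  have hmem : ∀ y, (x, y, b) ∈ tset p H A0 A1 A2 π1 π2 π3 ↔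
      (x ∈ cls p (A0 \ A1) 0 ∧ p y = 1 ∧ H.Adj x y ∧ b = π1 x y) ∨
      (y ∈ cls p (A0 \ A1) 1 ∧ x ∈ cls p A1 0 ∧ H.Adj x y ∧ b = π2 y x) ∨
      (b ∈ cls p (A0 \ A1) 2 ∧ al2 p H A0 A1 A2 π2 x b ∧ y = π3 b x) := by
    intro y
    unfold tset
    rw [Finset.mem_filter]
    exact ⟨fun h => h.2, fun h => ⟨Finset.mem_univ _, h⟩⟩
  have hcls : ∀ (Z : Finset V) (j : Fin 3) (z : V), z ∈ cls p Z j ↔ z ∈ Z ∧ p z = j :=
    fun Z j z => Finset.mem_filter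
  by_cases hxA1 : x ∈ A1
  · by_cases hal : al2 p H A0 A1 A2 π2 x b
    · have hbA1 : b ∉ A1 := fun hbA1 =>
        hn (nxt_adj.mpr ⟨hH, hxA1, hbA1, Or.inr (Or.inl (Or.inr (Or.inl hal)))⟩)
      have hbO : b ∈ cls p (A0 \ A1) 2 := (hcls _ _ _).mpr ⟨Finset.mem_sdiff.mpr ⟨hbA0, hbA1⟩, hb⟩
      refine ⟨π3 b x, (hmem _).mpr (Or.inr (Or.inr ⟨hbO, hal, rfl⟩)), ?_⟩
      intro y' hy'
      rcases (hmem y').mp hy' with ⟨h, -⟩ | ⟨h4, h5, h6, h7⟩ | ⟨-, -, h⟩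
      · exact absurd hxA1 (Finset.mem_sdiff.mp ((hcls _ _ _).mp h).1).2
      · exact absurd h7.symm (hal.2.2.2.2.2 y' h4 h6)
      · exact h
    · have hA2 : ¬ (x ∈ A2 ∧ b ∈ A2) := fun h =>
        hn (nxt_adj.mpr ⟨hH, hxA1, hL.sub2 h.2, Or.inl h⟩)
      have hex : ∃ y ∈ cls p (A0 \ A1) 1, H.Adj x y ∧ π2 y x = b := by
        by_contra hcon
        apply hal
        refine ⟨hx, hb, hxA1, hH, hA2, ?_⟩
        intro y hy hxy heq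
        exact hcon ⟨y, hy, hxy, heq⟩
      obtain ⟨y, hy, hxy, heq⟩ := hex
      have hxO : x ∈ cls p A1 0 := (hcls _ _ _).mpr ⟨hxA1, hx⟩
      refine ⟨y, (hmem _).mpr (Or.inr (Or.inl ⟨hy, hxO, hxy, heq.symm⟩)), ?_⟩
      intro y' hy'
      rcases (hmem y').mp hy' with ⟨h, -⟩ | ⟨h4, h5, h6, h7⟩ | ⟨-, h, -⟩
      · exact absurd hxA1 (Finset.mem_sdiff.mp ((hcls _ _ _).mp h).1).2
      · by_contra hne
        exact h2.disj y' h4 y hy hne x hxO h6 hxy (h7.symm.trans heq.symm)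
      · exact absurd h hal
  · have hxO : x ∈ cls p (A0 \ A1) 0 := (hcls _ _ _).mpr ⟨Finset.mem_sdiff.mpr ⟨hxA0, hxA1⟩, hx⟩
    obtain ⟨y, hy, heq⟩ := (h1.bij x hxO).surjOn ⟨hb, hH⟩
    refine ⟨y, (hmem _).mpr (Or.inl ⟨hxO, hy.1, hy.2, heq.symm⟩), ?_⟩
    intro y' hy'
    rcases (hmem y').mp hy' with ⟨-, h4, h5, h6⟩ | ⟨-, h, -⟩ | ⟨-, h, -⟩
    · exact (h1.bij x hxO).injOn ⟨h4, h5⟩ hy (h6.symm.trans heq.symm)
    · exact absurd ((hcls _ _ _).mp h).1 hxA1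
    · exact absurd h.2.2.1 hxA1

end Pool.Agent.Lib.TriD
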