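import Pool.Agent.Lib.TriD.ZNDefs

set_option autoImplicit false

/-!
MODULE ZN12 (about 130 lines). Every column-symbol edge of `H \ nxt` is in exactly one triangle.

Abbreviations: `O j = cls p (A0 \ A1) j`, `al1 y b`, `al2 x b` alive after round 1 / 2, triangles of `tset`: type 1 `(x, y, π1 x y)`,
`x ∈ O 0`, type 2 `(x, y, π2 y x)`, `y ∈ O 1`, `x ∈ A1`, type 3 `(x, π3 b x, b)`, `b ∈ O 2`, `al2 x b`. Ends of edges of `H` lie in `A0`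
(`Level.supp` and symmetry), `H ≤ G`, parts of adjacent vertices differ (`Host.part`). Use `nxt_adj`.

PROOF. Let `(H \ nxt).Adj y b`. If `al1 y b`: for `y ∉ A1`, `y ∈ O 1`, `b` is in the image of `π2 y` (`h2.bij`), `x` unique by injectivity; type 1 with
`π1 x y = b` contradicts `al1`, type 3 needs `y ∈ A1`. For `y ∈ A1`: `b ∈ A1` would give `nxt.Adj y b`, so `b ∈ O 2` and `y` is in the image of `π3 b`
(`h3.bij`), `x` unique by injectivity on `{x | al2 x b}`; type 1 contradicts `al1`, type 2 needs `y ∉ A1`. If not `al1 y b`: `y, b ∈ A2` would give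
`nxt.Adj y b`; so there is `x ∈ O 0` with `H.Adj x y`, `π1 x y = b`, unique by `h1.disj`; type 2 (`b = π2 y x` is alive by `h2.bij`) and type 3
(`y = π3 b x`, `al1 y b` by `h3.bij`) need `al1 y b`.
-/

open scoped Classical

noncomputable section

namespace Pool.Agent.Lib.TriD

variable {V : Type} [Fintype V]

theorem nxt_12 {p : V → Fin 3} {G H : SimpleGraph V} {c K s ξ δ ε : ℝ} {A0 A1 A2 A3 : Finset V}
    {ω : V → V → V → ℝ} {π1 π2 π3 : V → V → V} (hG : Host p G c K)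
    (hL : Level p G H s ξ δ A0 A1 A2 A3) (h1 : R1Out p H A0 A1 A2 A3 ω c s δ ε π1)
    (h2 : R2Out p H A0 A1 A2 A3 ω c s δ ε π1 π2) (h3 : R3Out p H A0 A1 A2 A3 s δ ε π1 π2 π3) :
    ∀ y b, p y = 1 → p b = 2 → (H \ nxt p H A0 A1 A2 π1 π2 π3).Adj y b →
      ∃! x, (x, y, b) ∈ tset p H A0 A1 A2 π1 π2 π3 := by
  intro y b hpy hpb hyb
  rw [SimpleGraph.sdiff_adj, nxt_adj] at hyb
  obtain ⟨hH, hnx⟩ := hyb
  have hy0 : y ∈ A0 := hL.supp y b hH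
  have hb0 : b ∈ A0 := hL.supp b y hH.symm
  have hmem : ∀ x, (x, y, b) ∈ tset p H A0 A1 A2 π1 π2 π3 ↔
      ((x ∈ cls p (A0 \ A1) 0 ∧ p y = 1 ∧ H.Adj x y ∧ b = π1 x y) ∨
      (y ∈ cls p (A0 \ A1) 1 ∧ x ∈ cls p A1 0 ∧ H.Adj x y ∧ b = π2 y x) ∨
      (b ∈ cls p (A0 \ A1) 2 ∧ al2 p H A0 A1 A2 π2 x b ∧ y = π3 b x)) := by
    intro x
    unfold tset
    rw [Finset.mem_filter]
    exact ⟨fun h => h.2, fun h => ⟨Finset.mem_univ _, h⟩⟩
  have hcls : ∀ (Z : Finset V) (j : Fin 3) (z : V), z ∈ cls p Z j ↔ z ∈ Z ∧ p z = j := by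
    intro Z j z
    unfold cls
    rw [Finset.mem_filter]
  by_cases hal : al1 p H A0 A1 A2 π1 y b
  · by_cases hy1 : y ∈ A1
    · have hb1 : b ∉ A1 := fun hb1 =>
        hnx ⟨hH, hy1, hb1, Or.inr (Or.inl (Or.inl hal))⟩
      have hbO : b ∈ cls p (A0 \ A1) 2 := (hcls _ _ _).mpr ⟨Finset.mem_sdiff.mpr ⟨hb0, hb1⟩, hpb⟩
      have hbij := h3.bij b hbO
      obtain ⟨x, hx, hxy⟩ := hbij.surjOn (show y ∈ {y | y ∈ A1 ∧ al1 p H A0 A1 A2 π1 y b} from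
        ⟨hy1, hal⟩)
      refine ⟨x, (hmem x).mpr (Or.inr (Or.inr ⟨hbO, hx, hxy.symm⟩)), ?_⟩
      intro x' hx'
      rcases (hmem x').mp hx' with ⟨a1, -, a3, a4⟩ | ⟨a1, -, -, -⟩ | ⟨-, a2, a3⟩
      · exact absurd a4.symm (hal.2.2.2.2 x' a1 a3)
      · exact absurd hy1 (Finset.mem_sdiff.mp ((hcls _ _ _).mp a1).1).2
      · exact hbij.injOn a2 hx (by rw [hxy, ← a3])
    · have hyO : y ∈ cls p (A0 \ A1) 1 := (hcls _ _ _).mpr ⟨Finset.mem_sdiff.mpr ⟨hy0, hy1⟩, hpy⟩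
      have hbij := h2.bij y hyO
      obtain ⟨x, hx, hxy⟩ := hbij.surjOn (show b ∈ {b | al1 p H A0 A1 A2 π1 y b} from hal)
      refine ⟨x, (hmem x).mpr (Or.inr (Or.inl ⟨hyO, (hcls _ _ _).mpr ⟨hx.2.1, hx.1⟩, hx.2.2,
        hxy.symm⟩)), ?_⟩
      intro x' hx'
      rcases (hmem x').mp hx' with ⟨a1, -, a3, a4⟩ | ⟨-, a2, a3, a4⟩ | ⟨a1, a2, a3⟩
      · exact absurd a4.symm (hal.2.2.2.2 x' a1 a3)
      · have hx'' : x' ∈ {x | p x = 0 ∧ x ∈ A1 ∧ H.Adj x y} :=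
          ⟨((hcls _ _ _).mp a2).2, ((hcls _ _ _).mp a2).1, a3⟩
        exact hbij.injOn hx'' hx (by rw [hxy, ← a4])
      · have h5 := (h3.bij b a1).mapsTo (show x' ∈ {x | al2 p H A0 A1 A2 π2 x b} from a2)
        rw [← a3] at h5
        exact absurd h5.1 hy1
  · have hA2 : ¬ (y ∈ A2 ∧ b ∈ A2) := fun h =>
      hnx ⟨hH, hL.sub2 h.1, hL.sub2 h.2, Or.inl h⟩
    have hex : ∃ x ∈ cls p (A0 \ A1) 0, H.Adj x y ∧ π1 x y = b := by
      by_contra hcon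
      push Not at hcon
      exact hal ⟨hpy, hpb, hH, hA2, hcon⟩
    obtain ⟨x, hx, hxy, hxb⟩ := hex
    refine ⟨x, (hmem x).mpr (Or.inl ⟨hx, hpy, hxy, hxb.symm⟩), ?_⟩
    intro x' hx'
    rcases (hmem x').mp hx' with ⟨a1, -, a3, a4⟩ | ⟨a1, a2, a3, a4⟩ | ⟨a1, a2, a3⟩
    · by_contra hne
      exact h1.disj x' a1 x hx hne y hpy a3 hxy (by rw [← a4, hxb])
    · have h5 := (h2.bij y a1).mapsTo (show x' ∈ {x | p x = 0 ∧ x ∈ A1 ∧ H.Adj x y} from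
        ⟨((hcls _ _ _).mp a2).2, ((hcls _ _ _).mp a2).1, a3⟩)
      rw [← a4] at h5
      exact absurd h5 hal
    · have h5 := (h3.bij b a1).mapsTo (show x' ∈ {x | al2 p H A0 A1 A2 π2 x b} from a2)
      rw [← a3] at h5
      exact absurd h5.2 hal

end Pool.Agent.Lib.TriD
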