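import Pool.Agent.Lib.TriD.ZNDefs

set_option autoImplicit false

/-!
MODULE ZNM (about 200 lines). Few edges inside `A1` are missing in the next graph.

Abbreviations: `O j = cls p (A0 \ A1) j`, `al1 y b`, `al2 x b` alive after round 1 / 2, triangles of `tset`: type 1 `(x, y, π1 x y)`,
`x ∈ O 0`, type 2 `(x, y, π2 y x)`, `y ∈ O 1`, `x ∈ A1`, type 3 `(x, π3 b x, b)`, `b ∈ O 2`, `al2 x b`. Ends of edges of `H` lie in `A0`
(`Level.supp` and symmetry), `H ≤ G`, parts of adjacent vertices differ (`Host.part`). Use `nxt_adj`.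

PROOF. Let `Z` be one of `A1 \ A2`, `A2 \ A3`, `A3` (all `⊆ A1` by `sub2, sub3`). A vertex `z ∈ cls p Z j` with `G.Adj u z` and not `nxt.Adj u z`
has `H.Adj u z` (`Level.full`), `u, z` are not both in `A2`, neither `keep u z` nor `keep z u`. If `j = p u` there is none (`Host.part`).
`(p u, j) = (1, 2)`: `¬ al1 u z`, so it is counted in `h1.dead` (first part); `(2, 1)`: `h1.dead`, second part; `(0, 2), (2, 0)`: `h2.dead`;
`(0, 1)`: not `keep u z` gives `b ∈ O 2` with `al2 u b`, `π3 b u = z`: `h3.dead`, first part; `(1, 0)`: not `keep z u`: second part.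
So the number is at most `12/10 δ card (cls p Z j) + ε s`, and `card (cls p Z j) ≤ card (cls p A1 j) ≤ (1/4 + ξ) s` (`cnt_size`), in total
`≤ (0.3 + 0.12) δ s + δ s / 4 ≤ 3 δ (s / 4)`.
-/

open scoped Classical

noncomputable section

namespace Pool.Agent.Lib.TriD

variable {V : Type} [Fintype V]

private theorem znm_fin (x : Fin 3) : x = 0 ∨ x = 1 ∨ x = 2 := by
  revert x; decide

private theorem znm_le {α : Type} {S T : Finset α} {B : ℝ} (h : S ⊆ T) (hT : (T.card : ℝ) ≤ B) :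
    (S.card : ℝ) ≤ B :=
  le_trans (by exact_mod_cast Finset.card_le_card h) hT

private theorem znm_main {p : V → Fin 3} {G H : SimpleGraph V} {c K s ξ δ ε : ℝ}
    {A0 A1 A2 A3 : Finset V}
    {ω : V → V → V → ℝ} {π1 π2 π3 : V → V → V} (hG : Host p G c K)
    (hL : Level p G H s ξ δ A0 A1 A2 A3) (h1 : R1Out p H A0 A1 A2 A3 ω c s δ ε π1)
    (h2 : R2Out p H A0 A1 A2 A3 ω c s δ ε π1 π2) (h3 : R3Out p H A0 A1 A2 A3 s δ ε π1 π2 π3)
    (hξ1 : ξ ≤ 1 / 10) (hδ : 0 < δ) (hε1 : ε ≤ δ / 4)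
    {Z : Finset V} (hZ : Z ∈ ({A1 \ A2, A2 \ A3, A3} : Set (Finset V))) (hZA : Z ⊆ A1)
    {u : V} (hu : u ∈ A1) (j : Fin 3) :
    (miss G (nxt p H A0 A1 A2 π1 π2 π3) u (cls p Z j) : ℝ) ≤ 3 * δ * (s / 4) := by
  have hs := hL.s0
  -- membership facts
  have hm : ∀ z ∈ (cls p Z j).filter
      (fun z => G.Adj u z ∧ ¬ (nxt p H A0 A1 A2 π1 π2 π3).Adj u z),
      z ∈ cls p Z j ∧ p z = j ∧ p u ≠ p z ∧ H.Adj u z ∧ ¬ (u ∈ A2 ∧ z ∈ A2) ∧
        ¬ keep p H A0 A1 A2 π1 π2 π3 u z ∧ ¬ keep p H A0 A1 A2 π1 π2 π3 z u := by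
    intro z hz
    rw [Finset.mem_filter] at hz
    obtain ⟨hz1, hz2, hz3⟩ := hz
    have hz4 := hz1
    rw [cls, Finset.mem_filter] at hz4
    have hzA : z ∈ A1 := hZA hz4.1
    have hH : H.Adj u z := hL.full u z hu hzA hz2
    rw [nxt_adj] at hz3
    refine ⟨hz1, hz4.2, hG.part u z hz2, hH, ?_, ?_, ?_⟩
    · intro h; exact hz3 ⟨hH, hu, hzA, Or.inl h⟩
    · intro h; exact hz3 ⟨hH, hu, hzA, Or.inr (Or.inl h)⟩
    · intro h; exact hz3 ⟨hH, hu, hzA, Or.inr (Or.inr h)⟩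
  have hcls : ∀ i, p u = i → u ∈ cls p A1 i := fun i hi => by
    rw [cls, Finset.mem_filter]; exact ⟨hu, hi⟩
  by_cases hj : p u = j
  · have h0 : (cls p Z j).filter
      (fun z => G.Adj u z ∧ ¬ (nxt p H A0 A1 A2 π1 π2 π3).Adj u z) = ∅ := by
      rw [Finset.eq_empty_iff_forall_notMem]
      intro z hz
      obtain ⟨_, h4, h5, _⟩ := hm z hz
      exact h5 (by rw [hj, h4])
    unfold miss
    rw [h0]
    simp only [Finset.card_empty, Nat.cast_zero]
    positivity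
  · have hbound : (miss G (nxt p H A0 A1 A2 π1 π2 π3) u (cls p Z j) : ℝ) ≤
        12 / 10 * δ * (cls p Z j).card + ε * s := by
      unfold miss
      rcases znm_fin (p u) with hp | hp | hp <;> rcases znm_fin j with hj' | hj' | hj' <;>
        subst hj'
      · exact absurd hp hj
      · -- (0, 1)
        refine znm_le ?_ ((h3.dead Z hZ).1 u (hcls 0 hp))
        intro z hz
        obtain ⟨g1, g2, g3, g4, g5, g6, g7⟩ := hm z hz
        rw [Finset.mem_filter]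
        refine ⟨g1, g5, ?_⟩
        by_contra hcon
        apply g6
        refine Or.inr (Or.inr ⟨hp, g2, ?_⟩)
        intro b hb hal hπ
        exact hcon ⟨b, hb, hal, hπ⟩
      · -- (0, 2)
        refine znm_le ?_ ((h2.dead Z hZ).1 u (hcls 0 hp))
        intro z hz
        obtain ⟨g1, g2, g3, g4, g5, g6, g7⟩ := hm z hz
        rw [Finset.mem_filter]
        exact ⟨g1, g4, g5, fun h => g6 (Or.inr (Or.inl h))⟩
      · -- (1, 0)
        refine znm_le ?_ ((h3.dead Z hZ).2 u (hcls 1 hp))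
        intro z hz
        obtain ⟨g1, g2, g3, g4, g5, g6, g7⟩ := hm z hz
        rw [Finset.mem_filter]
        refine ⟨g1, fun h => g5 ⟨h.2, h.1⟩, ?_⟩
        by_contra hcon
        apply g7
        refine Or.inr (Or.inr ⟨g2, hp, ?_⟩)
        intro b hb hal hπ
        exact hcon ⟨b, hb, hal, hπ⟩
      · exact absurd hp hj
      · -- (1, 2)
        refine znm_le ?_ ((h1.dead Z hZ).1 u (hcls 1 hp))
        intro z hz
        obtain ⟨g1, g2, g3, g4, g5, g6, g7⟩ := hm z hz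
        rw [Finset.mem_filter]
        exact ⟨g1, g4, g5, fun h => g6 (Or.inl h)⟩
      · -- (2, 0)
        refine znm_le ?_ ((h2.dead Z hZ).2 u (hcls 2 hp))
        intro z hz
        obtain ⟨g1, g2, g3, g4, g5, g6, g7⟩ := hm z hz
        rw [Finset.mem_filter]
        exact ⟨g1, g4.symm, fun h => g5 ⟨h.2, h.1⟩, fun h => g7 (Or.inr (Or.inl h))⟩
      · -- (2, 1)
        refine znm_le ?_ ((h1.dead Z hZ).2 u (hcls 2 hp))
        intro z hz
        obtain ⟨g1, g2, g3, g4, g5, g6, g7⟩ := hm z hz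
        rw [Finset.mem_filter]
        exact ⟨g1, g4.symm, fun h => g5 ⟨h.2, h.1⟩, fun h => g7 (Or.inl h)⟩
      · exact absurd hp hj
    have hcard : ((cls p Z j).card : ℝ) ≤ (1 / 4 + ξ) * s := by
      refine le_trans ?_ (cnt_size hG hL j).2.1
      have : cls p Z j ⊆ cls p A1 j := by
        intro z hz
        rw [cls, Finset.mem_filter] at hz ⊢
        exact ⟨hZA hz.1, hz.2⟩
      exact_mod_cast Finset.card_le_card this
    have hc2 : ((cls p Z j).card : ℝ) ≤ 35 / 100 * s := by nlinarith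
    have hε2 : ε * s ≤ δ / 4 * s := mul_le_mul_of_nonneg_right hε1 hs.le
    have hc3 : 12 / 10 * δ * ((cls p Z j).card : ℝ) ≤ 12 / 10 * δ * (35 / 100 * s) :=
      mul_le_mul_of_nonneg_left hc2 (by positivity)
    have hds : 0 < δ * s := mul_pos hδ hs
    nlinarith

theorem nxt_miss {p : V → Fin 3} {G H : SimpleGraph V} {c K s ξ δ ε : ℝ} {A0 A1 A2 A3 : Finset V}
    {ω : V → V → V → ℝ} {π1 π2 π3 : V → V → V} (hG : Host p G c K)
    (hL : Level p G H s ξ δ A0 A1 A2 A3) (h1 : R1Out p H A0 A1 A2 A3 ω c s δ ε π1)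
    (h2 : R2Out p H A0 A1 A2 A3 ω c s δ ε π1 π2) (h3 : R3Out p H A0 A1 A2 A3 s δ ε π1 π2 π3)
    (hc : 0 < c) (hξ : 0 ≤ ξ) (hξ1 : ξ ≤ 1 / 10) (hδ : 0 < δ) (hε1 : ε ≤ δ / 4) :
    ∀ u ∈ A1, ∀ j,
      (miss G (nxt p H A0 A1 A2 π1 π2 π3) u (cls p (A1 \ A2) j) : ℝ) ≤ 3 * δ * (s / 4) ∧
      (miss G (nxt p H A0 A1 A2 π1 π2 π3) u (cls p (A2 \ A3) j) : ℝ) ≤ 3 * δ * (s / 4) ∧
      (miss G (nxt p H A0 A1 A2 π1 π2 π3) u (cls p A3 j) : ℝ) ≤ 3 * δ * (s / 4) := by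
  intro u hu j
  have hZ2 : A2 ⊆ A1 := hL.sub2
  have hZ3 : A3 ⊆ A1 := fun z hz => hL.sub2 (hL.sub3 hz)
  refine ⟨?_, ?_, ?_⟩
  · exact znm_main hG hL h1 h2 h3 hξ1 hδ hε1 (by simp) Finset.sdiff_subset hu j
  · exact znm_main hG hL h1 h2 h3 hξ1 hδ hε1 (by simp)
      (fun z hz => hZ2 (Finset.sdiff_subset hz)) hu j
  · exact znm_main hG hL h1 h2 h3 hξ1 hδ hε1 (by simp) hZ3 hu j

end Pool.Agent.Lib.TriD
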