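import Pool.Agent.Lib.TriD.ZDefs

set_option autoImplicit false

/-!
MODULE ZSet. Criterion for triangle decompositions by a set of triples.
-/

open scoped Classical

namespace Pool.Agent.Lib.TriD

variable {V : Type} [Fintype V]

private theorem fin3_swap : ∀ a b : Fin 3, a ≠ b →
    ¬ ((a = 0 ∧ b = 1) ∨ (a = 0 ∧ b = 2) ∨ (a = 1 ∧ b = 2)) →
    (b = 0 ∧ a = 1) ∨ (b = 0 ∧ a = 2) ∨ (b = 1 ∧ a = 2) := by
  decide

theorem TD_of_set {p : V → Fin 3} {H : SimpleGraph V} (T : Finset (V × V × V))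
    (hp : ∀ u v, H.Adj u v → p u ≠ p v)
    (hT : ∀ t ∈ T, Tri p H t.1 t.2.1 t.2.2)
    (h01 : ∀ x y, p x = 0 → p y = 1 → H.Adj x y → ∃! b, (x, y, b) ∈ T)
    (h02 : ∀ x b, p x = 0 → p b = 2 → H.Adj x b → ∃! y, (x, y, b) ∈ T)
    (h12 : ∀ y b, p y = 1 → p b = 2 → H.Adj y b → ∃! x, (x, y, b) ∈ T) : TD H := by
  -- a member of a triple is determined by its part
  have key : ∀ t ∈ T, ∀ u, u ∈ ({t.1, t.2.1, t.2.2} : Finset V) →
      (p u = 0 → u = t.1) ∧ (p u = 1 → u = t.2.1) ∧ (p u = 2 → u = t.2.2) := by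
    intro t ht u hu
    obtain ⟨h0, h1, h2, -, -, -⟩ := hT t ht
    simp only [Finset.mem_insert, Finset.mem_singleton] at hu
    rcases hu with rfl | rfl | rfl
    · refine ⟨fun _ => rfl, fun h => ?_, fun h => ?_⟩ <;> rw [h0] at h <;> simp at h
    · refine ⟨fun h => ?_, fun _ => rfl, fun h => ?_⟩ <;> rw [h1] at h <;> simp at h
    · refine ⟨fun h => ?_, fun h => ?_, fun _ => rfl⟩ <;> rw [h2] at h <;> simp at h
  have main : ∀ u v, H.Adj u v →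
      (p u = 0 ∧ p v = 1) ∨ (p u = 0 ∧ p v = 2) ∨ (p u = 1 ∧ p v = 2) →
      ∃! t, t ∈ T.image (fun t => ({t.1, t.2.1, t.2.2} : Finset V)) ∧ u ∈ t ∧ v ∈ t := by
    intro u v huv hc
    rcases hc with ⟨hu, hv⟩ | ⟨hu, hv⟩ | ⟨hu, hv⟩
    · obtain ⟨b, hb, hb'⟩ := h01 u v hu hv huv
      refine ⟨{u, v, b}, ⟨Finset.mem_image.2 ⟨(u, v, b), hb, rfl⟩, by simp, by simp⟩, ?_⟩
      rintro s ⟨hs, hus, hvs⟩
      obtain ⟨t, ht, rfl⟩ := Finset.mem_image.1 hs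
      have e1 := (key t ht u hus).1 hu
      have e2 := (key t ht v hvs).2.1 hv
      have : (u, v, t.2.2) ∈ T := by rw [e1, e2]; exact ht
      have e3 := hb' _ this
      rw [← e1, ← e2, e3]
    · obtain ⟨b, hb, hb'⟩ := h02 u v hu hv huv
      refine ⟨{u, b, v}, ⟨Finset.mem_image.2 ⟨(u, b, v), hb, rfl⟩, by simp, by simp⟩, ?_⟩
      rintro s ⟨hs, hus, hvs⟩
      obtain ⟨t, ht, rfl⟩ := Finset.mem_image.1 hs
      have e1 := (key t ht u hus).1 hu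
      have e2 := (key t ht v hvs).2.2 hv
      have : (u, t.2.1, v) ∈ T := by rw [e1, e2]; exact ht
      have e3 := hb' _ this
      rw [← e1, ← e2, e3]
    · obtain ⟨b, hb, hb'⟩ := h12 u v hu hv huv
      refine ⟨{b, u, v}, ⟨Finset.mem_image.2 ⟨(b, u, v), hb, rfl⟩, by simp, by simp⟩, ?_⟩
      rintro s ⟨hs, hus, hvs⟩
      obtain ⟨t, ht, rfl⟩ := Finset.mem_image.1 hs
      have e1 := (key t ht u hus).2.1 hu
      have e2 := (key t ht v hvs).2.2 hv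
      have : (t.1, u, v) ∈ T := by rw [e1, e2]; exact ht
      have e3 := hb' _ this
      rw [← e1, ← e2, e3]
  refine ⟨T.image (fun t => ({t.1, t.2.1, t.2.2} : Finset V)), ?_, ?_⟩
  · intro s hs
    obtain ⟨t, ht, rfl⟩ := Finset.mem_image.1 hs
    obtain ⟨-, -, -, h1, h2, h3⟩ := hT t ht
    exact SimpleGraph.is3Clique_iff.2 ⟨t.1, t.2.1, t.2.2, h1, h2, h3, rfl⟩
  · intro u v huv
    have hne := hp u v huv
    by_cases hc : (p u = 0 ∧ p v = 1) ∨ (p u = 0 ∧ p v = 2) ∨ (p u = 1 ∧ p v = 2)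
    · exact main u v huv hc
    · obtain ⟨t, ⟨ht1, ht2, ht3⟩, ht4⟩ := main v u huv.symm (fin3_swap _ _ hne hc)
      exact ⟨t, ⟨ht1, ht3, ht2⟩, fun s hs => ht4 s ⟨hs.1, hs.2.2, hs.2.1⟩⟩

end Pool.Agent.Lib.TriD
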