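import Pool.Agent.Lib.TriD.ZNT
import Pool.Agent.Lib.TriD.ZN01
import Pool.Agent.Lib.TriD.ZN02
import Pool.Agent.Lib.TriD.ZN12
import Pool.Agent.Lib.TriD.ZNM
import Pool.Agent.Lib.TriD.ZSet
import Pool.Agent.Lib.TriD.ZFin

set_option autoImplicit false

/-!
MODULE ZLev. The level lemma from the three rounds.
-/

open scoped Classical

noncomputable section

namespace Pool.Agent.Lib.TriD

theorem levelStep_of_rounds {c K δ ξ ε m : ℝ} (hc : 0 < c) (hξ : 0 ≤ ξ) (hξ1 : ξ ≤ 1 / 10)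
    (hδ : 0 < δ) (hε1 : ε ≤ δ / 4) (h : RoundsOK c K δ ξ ε m) : LevelStep c K δ ξ m := by
  intro V _ p G H s A0 A1 A2 A3 hG hL hs
  obtain ⟨ω, π1, π2, π3, h1, h2, h3⟩ := h V p G H s A0 A1 A2 A3 hG hL hs
  have hpG : ∀ u v, H.Adj u v → p u ≠ p v := fun u v huv => hG.part u v (hL.le huv)
  have hle : nxt p H A0 A1 A2 π1 π2 π3 ≤ H := fun u v huv => (nxt_adj.1 huv).1
  have hTD : TD (H \ nxt p H A0 A1 A2 π1 π2 π3) :=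
    TD_of_set (p := p) (tset p H A0 A1 A2 π1 π2 π3)
      (fun u v huv => hpG u v ((SimpleGraph.sdiff_adj _ _ _ _).1 huv).1)
      (nxt_tri hG hL h1 h2 h3) (nxt_01 hG hL h1 h2 h3) (nxt_02 hG hL h1 h2 h3)
      (nxt_12 hG hL h1 h2 h3)
  refine ⟨nxt p H A0 A1 A2 π1 π2 π3, hle, fun u v huv => (nxt_adj.1 huv).2.1, ?_, hTD, ?_,
    nxt_miss hG hL h1 h2 h3 hc hξ hξ1 hδ hε1⟩
  · intro u v hu hv huv
    exact nxt_adj.2 ⟨hL.full u v (hL.sub2 hu) (hL.sub2 hv) huv, hL.sub2 hu, hL.sub2 hv,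
      Or.inl ⟨hu, hv⟩⟩
  · have hd := TDiv.sdiff hL.tdiv (hTD.tdiv p (fun u v huv =>
      hpG u v ((SimpleGraph.sdiff_adj _ _ _ _).1 huv).1)) sdiff_le
    rwa [sdiff_sdiff_right_self, inf_eq_right.2 hle] at hd

theorem td_of_rounds (h : ∀ c K : ℝ, 0 < c → c < 1 → 0 ≤ K → ∃ δ ξ ε m : ℝ, 0 < δ ∧ 0 < ξ ∧
      ξ ≤ 1 / 10 ∧ ε ≤ δ / 4 ∧ RoundsOK c K δ ξ ε m)
    (c K : ℝ) (hc : 0 < c) (hc1 : c < 1) (hK : 0 ≤ K) :
    ∃ n0 : ℕ, ∀ (V : Type) [Fintype V] (p : V → Fin 3) (G : SimpleGraph V), Host p G c K →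
      n0 ≤ Fintype.card V → TD G := by
  obtain ⟨δ, ξ, ε, m, hδ, hξ, hξ1, hε, hR⟩ := h c K hc hc1 hK
  exact td_of_level c K δ ξ m hc hc1.le hK hδ hξ
    (levelStep_of_rounds hc hξ.le hξ1 hδ hε hR)

end Pool.Agent.Lib.TriD
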