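import Pool.Agent.Lib.TriD.ZSys
import Pool.Agent.Lib.TriD.ZHost
import Pool.Agent.Lib.TriD.ZArrF

set_option autoImplicit false

/-!
From triangle decompositions of hosts to triple arrays for dense symmetric designs: for every base block.
-/

open scoped Classical

namespace Pool.Agent.Lib.TriD

open Pool.Agent.Lib.MP_6fba53_co

theorem dense_full (hT : ∀ c K : ℝ, 0 < c → c < 1 → 0 ≤ K → ∃ n0 : ℕ, ∀ (V : Type) [Fintype V]
      (p : V → Fin 3) (G : SimpleGraph V), Host p G c K → n0 ≤ Fintype.card V → TD G)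
    (ε : ℝ) (hε : 0 < ε) :
    ∃ N : ℕ, ∀ r c lam : ℕ, N ≤ r + c → (lam : ℝ) + ε * (r + c) ≤ r →
      ∀ B : Fin (r + c) → Finset (Fin (r + c)), SymD (r + c) r lam B →
      (∀ j0 : Fin (r + c), ∃ f : {x : Fin (r + c) // x ∈ B j0} → {y : Fin (r + c) // y ∉ B j0} →
        {j : Fin (r + c) // j ≠ j0}, (∀ x y, x.1 ∉ B (f x y).1 ∧ y.1 ∈ B (f x y).1) ∧
          IsTripleArray f (r - lam) (c - (r - lam)) lam (r - lam)) ∧
      ∃ A : Fin r → Fin c → Fin (r + c - 1),
        IsTripleArray A (r - lam) (c - (r - lam)) lam (r - lam) := by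
  by_cases hε1 : 1 < ε
  · refine ⟨1, ?_⟩
    intro r c lam hN hl B _
    exfalso
    have h1 : (1 : ℝ) ≤ (r : ℝ) + c := by exact_mod_cast hN
    have h2 : (0 : ℝ) ≤ lam := Nat.cast_nonneg _
    have h3 : (0 : ℝ) ≤ c := Nat.cast_nonneg _
    nlinarith
  · push Not at hε1
    obtain ⟨n0, hn0⟩ := hT (ε / 4) (4 / ε ^ 2) (by positivity) (by linarith) (by positivity)
    refine ⟨max n0 ⌈2 / ε⌉₊ + 1, ?_⟩
    intro r c lam hN hl B hB
    have hNn : n0 ≤ r + c := le_trans (le_trans (le_max_left _ _) (Nat.le_succ _)) hN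
    have hNc : ⌈2 / ε⌉₊ ≤ r + c := le_trans (le_trans (le_max_right _ _) (Nat.le_succ _)) hN
    have hrc0 : 0 < r + c := lt_of_lt_of_le (Nat.succ_pos _) hN
    have h2 : 2 / ε ≤ (r : ℝ) + c := by
      have := (Nat.le_ceil (2 / ε)).trans
        (Nat.cast_le.mpr hNc : ((⌈2 / ε⌉₊ : ℕ) : ℝ) ≤ ((r + c : ℕ) : ℝ))
      push_cast at this
      exact this
    have h3 : 2 ≤ ε * ((r : ℝ) + c) := by
      rw [div_le_iff₀ hε] at h2
      linarith
    have h4 : (lam : ℝ) + 2 ≤ r := by linarith
    have h5 : lam + 2 ≤ r := by exact_mod_cast h4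
    have hr : 2 ≤ r := by omega
    have hlr : lam < r := by omega
    have hc : 0 < c := by
      rcases Nat.eq_zero_or_pos c with h | h
      · exfalso
        subst h
        have h6 := (hB.rep hrc0 hr).2
        have h7 : 0 < r - 1 := by omega
        simp only [Nat.add_zero] at h6
        have h8 := Nat.eq_of_mul_eq_mul_right h7 h6
        omega
      · exact h
    have hkc : ((r - lam : ℕ) : ℝ) = (r : ℝ) - lam := Nat.cast_sub hlr.le
    have h9 : r - (r - lam) = lam := by omega
    have main : ∀ j0 : Fin (r + c), ∃ f : {x : Fin (r + c) // x ∈ B j0} →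
        {y : Fin (r + c) // y ∉ B j0} → {j : Fin (r + c) // j ≠ j0},
        (∀ x y, x.1 ∉ B (f x y).1 ∧ y.1 ∈ B (f x y).1) ∧
          IsTripleArray f (r - lam) (c - (r - lam)) lam (r - lam) := by
      intro j0
      have hsys := sys_of_design hB hr hlr j0
      have hmix := mix_of_design hB hr hlr j0
      have hhost := host_of_sys hsys hmix ε hε (by omega) hc (by omega : 0 < r - lam)
        (by rw [hkc]; linarith)
      have htd := hn0 _ _ _ hhost (by
        have e1 := hsys.cR
        have e2 := hsys.cC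
        rw [Fintype.card_sum, Fintype.card_sum, e1, e2]
        omega)
      obtain ⟨f, hf1, hf⟩ := array_of_TD_full hsys htd
      rw [h9] at hf
      exact ⟨f, hf1, hf⟩
    refine ⟨main, ?_⟩
    have hsys := sys_of_design hB hr hlr ⟨0, hrc0⟩
    obtain ⟨f, -, hf⟩ := main ⟨0, hrc0⟩
    have e3 := hsys.cS
    exact ⟨_, hf.transport (Fintype.equivFinOfCardEq hsys.cR).symm
      (Fintype.equivFinOfCardEq hsys.cC).symm
      (Fintype.equivFinOfCardEq (n := r + c - 1) (by omega))⟩

/-- The labelled form: rows = points of the base block, columns = the other points, symbols = the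
other blocks, the symbol of a cell is a block that misses the row and contains the column. -/
theorem dense_label (hT : ∀ c K : ℝ, 0 < c → c < 1 → 0 ≤ K → ∃ n0 : ℕ, ∀ (V : Type) [Fintype V]
      (p : V → Fin 3) (G : SimpleGraph V), Host p G c K → n0 ≤ Fintype.card V → TD G)
    (ε : ℝ) (hε : 0 < ε) :
    ∃ N : ℕ, ∀ r c lam : ℕ, N ≤ r + c → (lam : ℝ) + ε * (r + c) ≤ r →
      ∀ B : Fin (r + c) → Finset (Fin (r + c)), SymD (r + c) r lam B → ∀ j0 : Fin (r + c),
      ∃ (A : Fin r → Fin c → Fin (r + c - 1)) (row : Fin r ≃ {x : Fin (r + c) // x ∈ B j0})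
        (col : Fin c ≃ {y : Fin (r + c) // y ∉ B j0})
        (sym : Fin (r + c - 1) ≃ {j : Fin (r + c) // j ≠ j0}),
        IsTripleArray A (r - lam) (c - (r - lam)) lam (r - lam) ∧
          ∀ i l, (row i).1 ∉ B (sym (A i l)).1 ∧ (col l).1 ∈ B (sym (A i l)).1 := by
  obtain ⟨N, hN⟩ := dense_full hT ε hε
  refine ⟨N, fun r c lam h1 h2 B hB j0 => ?_⟩
  obtain ⟨f, hf1, hf⟩ := (hN r c lam h1 h2 B hB).1 j0
  have cR : Fintype.card {x : Fin (r + c) // x ∈ B j0} = r := by
    rw [Fintype.card_coe, hB.card]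
  have cC : Fintype.card {y : Fin (r + c) // y ∉ B j0} = c := by
    rw [Fintype.card_subtype_compl, Fintype.card_coe, hB.card, Fintype.card_fin]
    omega
  have cS : Fintype.card {j : Fin (r + c) // j ≠ j0} = r + c - 1 := by
    rw [Fintype.card_subtype_compl, Fintype.card_fin, Fintype.card_subtype_eq]
  have hf' := hf.transport (Fintype.equivFinOfCardEq cR).symm (Fintype.equivFinOfCardEq cC).symm
    (Fintype.equivFinOfCardEq cS)
  refine ⟨_, (Fintype.equivFinOfCardEq cR).symm, (Fintype.equivFinOfCardEq cC).symm,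
    (Fintype.equivFinOfCardEq cS).symm, hf', fun i l => ?_⟩
  simp only [Equiv.symm_apply_apply]
  exact hf1 _ _

end Pool.Agent.Lib.TriD
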