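import Pool.Agent.Lib.TriD.Rounds
import Pool.Agent.Lib.TriD.ZLev
import Pool.Agent.Lib.TriD.ZTop

set_option autoImplicit false

/-!
The theorem: large hosts have triangle decompositions; large dense symmetric designs have triple
arrays.
-/

open scoped Classical

noncomputable section

namespace Pool.Agent.Lib.TriD

open Pool.Agent.Lib.MP_6fba53_co

theorem rounds_ok (c K : ℝ) (hc : 0 < c) (hc1 : c < 1) (hK : 0 ≤ K) :
    ∃ δ ξ ε m : ℝ, 0 < δ ∧ 0 < ξ ∧ ξ ≤ 1 / 10 ∧ ε ≤ δ / 4 ∧ RoundsOK c K δ ξ ε m := by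
  obtain ⟨δ, hδd⟩ : ∃ δ, δ = c ^ 11 / 10 ^ 9 := ⟨_, rfl⟩
  have hδ : 0 < δ := by rw [hδd]; positivity
  have hδ1 : δ ≤ c ^ 11 / 10 ^ 9 := hδd.le
  have hδ2 : δ ≤ 1 := by
    rw [hδd]
    have : c ^ 11 ≤ 1 := pow_le_one₀ hc.le hc1.le
    have h2 : c ^ 11 / 10 ^ 9 ≤ 1 / 10 ^ 9 := by gcongr
    refine h2.trans (by norm_num)
  obtain ⟨ξ, hξd⟩ : ∃ ξ, ξ = c ^ 9 * δ / 10 ^ 6 := ⟨_, rfl⟩
  have hξ : 0 < ξ := by rw [hξd]; positivity
  have hξ1 : ξ ≤ 1 / 10 := by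
    rw [hξd]
    have h1 : c ^ 9 ≤ 1 := pow_le_one₀ hc.le hc1.le
    have h2 : c ^ 9 * δ ≤ 1 := mul_le_one₀ h1 hδ.le hδ2
    have h3 : c ^ 9 * δ / 10 ^ 6 ≤ 1 / 10 ^ 6 := by gcongr
    refine h3.trans (by norm_num)
  obtain ⟨m, hm⟩ := rounds c K δ (δ / 4) hc hc1 hK hδ hδ1 (by positivity) (by linarith)
  refine ⟨δ, ξ, δ / 4, max m (max 1 (10 ^ 4 * K / c ^ 7)), hδ, hξ, hξ1, le_rfl, ?_⟩
  intro V _ p G H s A0 A1 A2 A3 hG hL hs
  have hsm : m ≤ s := (le_max_left _ _).trans hs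
  have hs1 : 1 ≤ s := ((le_max_left _ _).trans (le_max_right _ _)).trans hs
  have hsK : 10 ^ 4 * K / c ^ 7 ≤ s := ((le_max_right _ _).trans (le_max_right _ _)).trans hs
  obtain ⟨ω, hω⟩ := frac hG hL hc hc1 hK hξ.le hδ hδ1 hξd.le hsK hs1
  obtain ⟨π1, π2, π3, h1, h2, h3⟩ := hm hG hL hω hξ.le hξd.le hsm
  exact ⟨ω, π1, π2, π3, h1, h2, h3⟩

/-- Every sufficiently large graph with the host axioms has a triangle decomposition. -/
theorem host_td (c K : ℝ) (hc : 0 < c) (hc1 : c < 1) (hK : 0 ≤ K) :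
    ∃ n0 : ℕ, ∀ (V : Type) [Fintype V] (p : V → Fin 3) (G : SimpleGraph V), Host p G c K →
      n0 ≤ Fintype.card V → TD G :=
  td_of_rounds rounds_ok c K hc hc1 hK

/-- Every large dense symmetric design has a triple array for every base block. -/
theorem dense_designs (ε : ℝ) (hε : 0 < ε) :
    ∃ N : ℕ, ∀ r c lam : ℕ, N ≤ r + c → (lam : ℝ) + ε * (r + c) ≤ r →
      ∀ B : Fin (r + c) → Finset (Fin (r + c)), SymD (r + c) r lam B → ∀ j0 : Fin (r + c),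
      ∃ (A : Fin r → Fin c → Fin (r + c - 1)) (row : Fin r ≃ {x : Fin (r + c) // x ∈ B j0})
        (col : Fin c ≃ {y : Fin (r + c) // y ∉ B j0})
        (sym : Fin (r + c - 1) ≃ {j : Fin (r + c) // j ≠ j0}),
        IsTripleArray A (r - lam) (c - (r - lam)) lam (r - lam) ∧
          ∀ i l, (row i).1 ∉ B (sym (A i l)).1 ∧ (col l).1 ∈ B (sym (A i l)).1 :=
  dense_label host_td ε hε

end Pool.Agent.Lib.TriD
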