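import Pool.Agent.Lib.TriD.ZADefs

set_option autoImplicit false

/-!
MODULE ZDec (about 180 lines). A tripartite graph with equal degrees to both other parts is cut into paths.

PROOF. Let `E01 = {(u, v) | L.Adj u v, p u = 0, p v = 1}`, `E12` and `E20` in the same way (finsets or subtypes of `V × V`).
For `v` with `p v = 1` there is a bijection `β v : nbr p L 0 {v} → nbr p L 2 {v}` (equal cardinalities, `TDiv`;
`Finset.equivOfCardEq`), for `w` with `p w = 2` a bijection `γ w : nbr p L 1 {w} → nbr p L 0 {w}`, for `u` with `p u = 0` a bijection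
`α u : nbr p L 2 {u} → nbr p L 1 {u}`. The maps `(u, v) ↦ (v, β v u)`, `(v, w) ↦ (w, γ w v)`, `(w, u) ↦ (u, α u w)` are bijections
`E01 → E12 → E20 → E01`. Take `e : Fin m ≃ E01`, `(x i, y i) = e i`, `(y i, z i)` the image in `E12`, `(z i, u i)` the image in `E20`,
and let `τ i = j` where `e j` is the image of `(z i, u i)` in `E01`, so `x (τ i) = u i`. All fields are immediate.
-/

open scoped Classical

namespace Pool.Agent.Lib.TriD

private abbrev zdE {V : Type} (p : V → Fin 3) (L : SimpleGraph V) (i j : Fin 3) : Type :=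
  {e : V × V // p e.1 = i ∧ p e.2 = j ∧ L.Adj e.1 e.2}

private theorem zd_mem {V : Type} [Fintype V] (p : V → Fin 3) (L : SimpleGraph V) (j : Fin 3)
    (v z : V) : z ∈ nbr p L j {v} ↔ p z = j ∧ L.Adj v z := by
  unfold nbr
  simp

private theorem zd_map {V : Type} [Fintype V] (p : V → Fin 3) (L : SimpleGraph V)
    (hL : TDiv p L) (i j k : Fin 3) (hij : i ≠ j) (hkj : k ≠ j) :
    ∃ φ : zdE p L i j ≃ zdE p L j k, ∀ e, (φ e).1.1 = e.1.2 := by
  have hex : ∀ v : V, p v = j → Nonempty ((nbr p L i {v}) ≃ (nbr p L k {v})) := by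
    intro v hv
    refine ⟨Finset.equivOfCardEq ?_⟩
    exact hL v i k (by rw [hv]; exact hij) (by rw [hv]; exact hkj)
  let β : (v : {v : V // p v = j}) → ((nbr p L i {v.1}) ≃ (nbr p L k {v.1})) :=
    fun v => Classical.choice (hex v.1 v.2)
  let f : zdE p L i j → zdE p L j k := fun e =>
    ⟨(e.1.2, (β ⟨e.1.2, e.2.2.1⟩ ⟨e.1.1, (zd_mem p L i _ _).mpr ⟨e.2.1, e.2.2.2.symm⟩⟩).1),
      e.2.2.1, ((zd_mem p L k _ _).mp
        (β ⟨e.1.2, e.2.2.1⟩ ⟨e.1.1, (zd_mem p L i _ _).mpr ⟨e.2.1, e.2.2.2.symm⟩⟩).2).1,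
      ((zd_mem p L k _ _).mp
        (β ⟨e.1.2, e.2.2.1⟩ ⟨e.1.1, (zd_mem p L i _ _).mpr ⟨e.2.1, e.2.2.2.symm⟩⟩).2).2⟩
  have hf : Function.Bijective f := by
    constructor
    · rintro ⟨⟨u, v⟩, h1, h2, h3⟩ ⟨⟨u', v'⟩, h1', h2', h3'⟩ h
      have h4 := congrArg Subtype.val h
      have h5 : v = v' := congrArg Prod.fst h4
      subst h5
      have h6 := congrArg Prod.snd h4
      have h7 := (β ⟨v, h2⟩).injective (Subtype.ext h6)
      have h8 : u = u' := congrArg Subtype.val h7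
      subst h8
      rfl
    · rintro ⟨⟨v, w⟩, h1, h2, h3⟩
      have hw : w ∈ nbr p L k {v} := (zd_mem p L k _ _).mpr ⟨h2, h3⟩
      obtain ⟨⟨u, hu⟩, hu2⟩ := (β ⟨v, h1⟩).surjective ⟨w, hw⟩
      have hu3 := (zd_mem p L i _ _).mp hu
      refine ⟨⟨(u, v), hu3.1, h1, hu3.2.symm⟩, ?_⟩
      apply Subtype.ext
      refine Prod.ext rfl ?_
      exact congrArg Subtype.val hu2
  exact ⟨Equiv.ofBijective f hf, fun e => rfl⟩

theorem exists_idx {V : Type} [Fintype V] (p : V → Fin 3) (L : SimpleGraph V)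
    (hp : ∀ u v, L.Adj u v → p u ≠ p v) (hL : TDiv p L) :
    ∃ (m : ℕ) (x y z : Fin m → V) (τ : Equiv.Perm (Fin m)), Idx p L m x y z τ := by
  obtain ⟨φ1, h1⟩ := zd_map p L hL 0 1 2 (by decide) (by decide)
  obtain ⟨φ2, h2⟩ := zd_map p L hL 1 2 0 (by decide) (by decide)
  obtain ⟨φ3, h3⟩ := zd_map p L hL 2 0 1 (by decide) (by decide)
  have : Fintype (zdE p L 0 1) := Fintype.ofFinite _
  let e : Fin (Fintype.card (zdE p L 0 1)) ≃ zdE p L 0 1 := (Fintype.equivFin _).symm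
  let τ : Equiv.Perm (Fin (Fintype.card (zdE p L 0 1))) :=
    e.trans (φ1.trans (φ2.trans (φ3.trans e.symm)))
  have hτ : ∀ i, e (τ i) = φ3 (φ2 (φ1 (e i))) := by
    intro i
    simp [τ]
  have hy : ∀ i, (φ1 (e i)).1.1 = (e i).1.2 := fun i => h1 (e i)
  have hz : ∀ i, (φ2 (φ1 (e i))).1.1 = (φ1 (e i)).1.2 := fun i => h2 (φ1 (e i))
  have hx : ∀ i, (e (τ i)).1.1 = (φ2 (φ1 (e i))).1.2 := by
    intro i
    rw [hτ, h3]
  refine ⟨_, fun i => (e i).1.1, fun i => (e i).1.2, fun i => (φ1 (e i)).1.2, τ, ?_⟩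
  constructor
  · exact fun i => (e i).2.1
  · exact fun i => (e i).2.2.1
  · exact fun i => (φ1 (e i)).2.2.1
  · exact fun i => (e i).2.2.2
  · intro i
    have := (φ1 (e i)).2.2.2
    rw [hy] at this
    exact this
  · intro i
    have := (φ2 (φ1 (e i))).2.2.2
    rw [hz, ← hx] at this
    exact this
  · intro i j hij
    exact e.injective (Subtype.ext hij)
  · intro i j hij
    obtain ⟨hij1, hij2⟩ : (e i).1.2 = (e j).1.2 ∧ (φ1 (e i)).1.2 = (φ1 (e j)).1.2 :=
      Prod.mk.inj hij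
    apply e.injective
    apply φ1.injective
    apply Subtype.ext
    refine Prod.ext ?_ hij2
    rw [hy, hy]
    exact hij1
  · intro i j hij
    obtain ⟨hij1, hij2⟩ : (φ1 (e i)).1.2 = (φ1 (e j)).1.2 ∧
        (e (τ i)).1.1 = (e (τ j)).1.1 := Prod.mk.inj hij
    apply e.injective
    apply φ1.injective
    apply φ2.injective
    apply Subtype.ext
    refine Prod.ext ?_ ?_
    · rw [hz, hz]
      exact hij1
    · rw [← hx, ← hx]
      exact hij2
  · intro u v huv hu hv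
    obtain ⟨i, hi⟩ := e.surjective ⟨(u, v), hu, hv, huv⟩
    exact ⟨i, by simp only [hi], by simp only [hi]⟩
  · intro u v huv hu hv
    obtain ⟨a, ha⟩ := φ1.surjective ⟨(u, v), hu, hv, huv⟩
    obtain ⟨i, hi⟩ := e.surjective a
    refine ⟨i, ?_, ?_⟩
    · have := hy i
      rw [hi, ha] at this
      simp only [hi]
      exact this.symm
    · simp only [hi, ha]
  · intro u v huv hu hv
    obtain ⟨b, hb⟩ := φ2.surjective ⟨(u, v), hu, hv, huv⟩
    obtain ⟨a, ha⟩ := φ1.surjective b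
    obtain ⟨i, hi⟩ := e.surjective a
    refine ⟨i, ?_, ?_⟩
    · have := hz i
      rw [hi, ha, hb] at this
      simp only [hi, ha]
      exact this.symm
    · have := hx i
      rw [hi, ha, hb] at this
      exact this

end Pool.Agent.Lib.TriD
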