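import Pool.Agent.Lib.TriD.Defs

set_option autoImplicit false

/-!
Definitions for the design part, the absorbers and the assembly (modules with prefix Z).
-/

open scoped Classical

noncomputable section

namespace Pool.Agent.Lib.TriD

/-- A symmetric design: `v` points, `v` blocks of size `r`, every pair of points in `lam` blocks. -/
structure SymD (v r lam : ℕ) (B : Fin v → Finset (Fin v)) : Prop where
  card : ∀ j, (B j).card = r
  pair : ∀ x y, x ≠ y → (Finset.univ.filter fun j => x ∈ B j ∧ y ∈ B j).card = lam

/-- Part function on rows + columns + symbols. -/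
def dp {R C S : Type} : R ⊕ C ⊕ S → Fin 3
  | Sum.inl _ => 0
  | Sum.inr (Sum.inl _) => 1
  | Sum.inr (Sum.inr _) => 2

/-- The tripartite graph: all cells, `A` = row-symbol edges, `M` = column-symbol edges. -/
def dg {R C S : Type} (A : R → S → Prop) (M : C → S → Prop) : SimpleGraph (R ⊕ C ⊕ S) :=
  SimpleGraph.fromRel (fun u v => match u, v with
    | Sum.inl _, Sum.inr (Sum.inl _) => True
    | Sum.inl x, Sum.inr (Sum.inr b) => A x b
    | Sum.inr (Sum.inl y), Sum.inr (Sum.inr b) => M y b
    | _, _ => False)

/-- Counting axioms of the pair (row-symbol, column-symbol) obtained from a symmetric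
`2-(r+c, r, r-k)` design. `rr`, `cc`: two rows, two columns. -/
structure DSys {R C S : Type} [Fintype R] [Fintype C] [Fintype S]
    (A : R → S → Prop) (M : C → S → Prop) (r c k : ℕ) : Prop where
  cR : Fintype.card R = r
  cC : Fintype.card C = c
  cS : Fintype.card S + 1 = r + c
  degR : ∀ x, (Finset.univ.filter fun b => A x b).card = c
  degC : ∀ y, (Finset.univ.filter fun b => M y b).card = r
  degSR : ∀ b, (Finset.univ.filter fun x => A x b).card = k
  degSC : ∀ b, (Finset.univ.filter fun y => M y b).card = k
  rc : ∀ x y, (Finset.univ.filter fun b => A x b ∧ M y b).card = k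
  rr : ∀ x x', x ≠ x' → (Finset.univ.filter fun b => A x b ∧ A x' b).card + k = c
  cc : ∀ y y', y ≠ y' → (Finset.univ.filter fun b => M y b ∧ M y' b).card + k = r

/-- Second moment bounds: for a set `D` in one class the number of neighbours in `D` is
concentrated around its mean. -/
structure DMix {R C S : Type} [Fintype R] [Fintype C] [Fintype S]
    (A : R → S → Prop) (M : C → S → Prop) (r c k : ℕ) : Prop where
  m1 : ∀ D : Finset R, ∑ b : S, (((D.filter fun x => A x b).card : ℝ) - D.card * (c / (r + c))) ^ 2
    ≤ k * D.card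
  m2 : ∀ D : Finset C, ∑ b : S, (((D.filter fun y => M y b).card : ℝ) - D.card * (r / (r + c))) ^ 2
    ≤ k * D.card
  m3 : ∀ D : Finset S, ∑ x : R, (((D.filter fun b => A x b).card : ℝ) - D.card * (c / (r + c))) ^ 2
    ≤ k * D.card
  m4 : ∀ D : Finset S, ∑ y : C, (((D.filter fun b => M y b).card : ℝ) - D.card * (r / (r + c))) ^ 2
    ≤ k * D.card

/-- The three edges of a triple of vertices. -/
def triEdge {V : Type} (t : V × V × V) : Fin 3 → Sym2 V
  | 0 => s(t.1, t.2.1)
  | 1 => s(t.2.1, t.2.2)
  | 2 => s(t.1, t.2.2)

end Pool.Agent.Lib.TriD
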