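import Pool.Agent.Lib.TriD.ZDefs

set_option autoImplicit false

/-!
MODULE ZDual (about 180 lines). In a symmetric design every point lies in `r` blocks and two blocks meet in `lam` points.

PROOF. `rep`: for a point `x` let `r_x` be the number of blocks containing `x`. Counting pairs `(y, j)`, `y ≠ x`, `x, y ∈ B j`:
`r_x * (r - 1) = lam * (v - 1)`. Sum over `x`: `∑ x, r_x = ∑ j, (B j).card = v * r` (`Finset.sum_card_bipartiteAbove_eq_sum_card_bipartiteBelow`
or `Finset.sum_comm`), so `v * r * (r - 1) = v * lam * (v - 1)`, `v > 0`, hence `r * (r - 1) = lam * (v - 1)` and then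
`r_x * (r - 1) = r * (r - 1)`, `r ≥ 2`, so `r_x = r`.
`dual`: over ℚ (or ℝ) let `N x j = if x ∈ B j then 1 else 0`, `J` the all ones matrix. `N * Nᵀ = (r - lam) • 1 + lam • J`, `N * J = r • J`
(by `rep`), `J * N = r • J` (block sizes). So `N * (Nᵀ - (lam / r) • J) = (r - lam) • 1`, i.e. `N` times
`P := (1 / (r - lam)) • (Nᵀ - (lam / r) • J)` is `1`, hence `P * N = 1` (`Matrix.mul_eq_one_comm`), which reads
`Nᵀ * N = (r - lam) • 1 + (lam / r) • (J * N) = (r - lam) • 1 + lam • J`. The entry `(i, j)`, `i ≠ j`, is `(B i ∩ B j).card = lam`.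
-/

open scoped Classical

namespace Pool.Agent.Lib.TriD

private theorem zd_point {v r lam : ℕ} {B : Fin v → Finset (Fin v)} (h : SymD v r lam B) (x : Fin v) :
    (Finset.univ.filter fun j => x ∈ B j).card * (r - 1) = lam * (v - 1) := by
  have key := Finset.sum_card_bipartiteAbove_eq_sum_card_bipartiteBelow
    (s := Finset.univ.filter fun j => x ∈ B j) (t := (Finset.univ : Finset (Fin v)).erase x)
    (fun (j y : Fin v) => y ∈ B j)
  have h1 : ∀ j ∈ (Finset.univ.filter fun j => x ∈ B j),
      (Finset.bipartiteAbove (fun (j y : Fin v) => y ∈ B j) ((Finset.univ : Finset (Fin v)).erase x) j).card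
        = r - 1 := by
    intro j hj
    have hxj : x ∈ B j := (Finset.mem_filter.mp hj).2
    have e : Finset.bipartiteAbove (fun (j y : Fin v) => y ∈ B j)
        ((Finset.univ : Finset (Fin v)).erase x) j = (B j).erase x := by
      ext y
      simp [Finset.bipartiteAbove]
    rw [e, Finset.card_erase_of_mem hxj, h.card j]
  have h2 : ∀ y ∈ (Finset.univ : Finset (Fin v)).erase x,
      (Finset.bipartiteBelow (fun (j y : Fin v) => y ∈ B j) (Finset.univ.filter fun j => x ∈ B j) y).card
        = lam := by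
    intro y hy
    have hne : x ≠ y := fun e => (Finset.mem_erase.mp hy).1 e.symm
    rw [← h.pair x y hne]
    congr 1
    ext j
    simp [Finset.bipartiteBelow]
  rw [Finset.sum_congr rfl h1, Finset.sum_congr rfl h2] at key
  simp only [Finset.sum_const, smul_eq_mul, Finset.card_erase_of_mem (Finset.mem_univ x),
    Finset.card_univ, Fintype.card_fin] at key
  rw [key, mul_comm]

private theorem zd_total {v r lam : ℕ} {B : Fin v → Finset (Fin v)} (h : SymD v r lam B) :
    ∑ x, (Finset.univ.filter fun j => x ∈ B j).card = v * r := by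
  have key := Finset.sum_card_bipartiteAbove_eq_sum_card_bipartiteBelow
    (s := (Finset.univ : Finset (Fin v))) (t := (Finset.univ : Finset (Fin v)))
    (fun (x j : Fin v) => x ∈ B j)
  have h1 : ∀ x ∈ (Finset.univ : Finset (Fin v)),
      (Finset.bipartiteAbove (fun (x j : Fin v) => x ∈ B j) Finset.univ x).card
        = (Finset.univ.filter fun j => x ∈ B j).card := fun x _ => rfl
  have h2 : ∀ j ∈ (Finset.univ : Finset (Fin v)),
      (Finset.bipartiteBelow (fun (x j : Fin v) => x ∈ B j) Finset.univ j).card = r := by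
    intro j _
    rw [← h.card j]
    congr 1
    ext x
    simp [Finset.bipartiteBelow]
  rw [Finset.sum_congr rfl h1, Finset.sum_congr rfl h2] at key
  rw [key]
  simp

private theorem zd_rel {v r lam : ℕ} {B : Fin v → Finset (Fin v)} (h : SymD v r lam B) (hv : 0 < v) :
    r * (r - 1) = lam * (v - 1) := by
  have h1 : (∑ x, (Finset.univ.filter fun j => x ∈ B j).card) * (r - 1) = v * (lam * (v - 1)) := by
    rw [Finset.sum_mul, Finset.sum_congr rfl (fun x _ => zd_point h x)]
    simp
  rw [zd_total h, mul_assoc] at h1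
  exact Nat.eq_of_mul_eq_mul_left hv h1

theorem SymD.rep {v r lam : ℕ} {B : Fin v → Finset (Fin v)} (h : SymD v r lam B) (hv : 0 < v)
    (hr : 2 ≤ r) : (∀ x, (Finset.univ.filter fun j => x ∈ B j).card = r) ∧
      r * (r - 1) = lam * (v - 1) := by
  refine ⟨fun x => ?_, zd_rel h hv⟩
  have h1 := zd_point h x
  rw [← zd_rel h hv] at h1
  exact Nat.eq_of_mul_eq_mul_right (by omega) h1

private theorem zd_mul {v : ℕ} (f g : Fin v → Prop) [DecidablePred f] [DecidablePred g] :
    ∑ j, (if f j then (1 : ℚ) else 0) * (if g j then (1 : ℚ) else 0)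
      = ((Finset.univ.filter fun j => f j ∧ g j).card : ℚ) := by
  have e : ∀ j ∈ (Finset.univ : Finset (Fin v)), (if f j then (1 : ℚ) else 0) * (if g j then (1 : ℚ) else 0)
      = if f j ∧ g j then (1 : ℚ) else 0 := by
    intro j _
    by_cases h1 : f j <;> by_cases h2 : g j <;> simp [h1, h2]
  rw [Finset.sum_congr rfl e, Finset.sum_boole]

theorem SymD.dual {v r lam : ℕ} {B : Fin v → Finset (Fin v)} (h : SymD v r lam B) (hv : 0 < v)
    (hr : 2 ≤ r) (hl : lam < r) : ∀ i j, i ≠ j → (B i ∩ B j).card = lam := by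
  obtain ⟨hrep, -⟩ := SymD.rep h hv hr
  have hr0 : (r : ℚ) ≠ 0 := by
    have : 0 < r := by omega
    exact_mod_cast this.ne'
  have hd0 : (r : ℚ) - lam ≠ 0 := by
    have : (lam : ℚ) < r := by exact_mod_cast hl
    exact sub_ne_zero.mpr this.ne'
  let N : Matrix (Fin v) (Fin v) ℚ := Matrix.of fun x j => if x ∈ B j then 1 else 0
  let J : Matrix (Fin v) (Fin v) ℚ := Matrix.of fun _ _ => 1
  have hN : ∀ x j, N x j = if x ∈ B j then 1 else 0 := fun x j => rfl
  have hJ : ∀ x j, J x j = 1 := fun x j => rfl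
  have h1 : N * N.transpose = ((r : ℚ) - lam) • (1 : Matrix (Fin v) (Fin v) ℚ) + (lam : ℚ) • J := by
    ext x y
    rw [Matrix.mul_apply]
    simp only [Matrix.transpose_apply, hN, Matrix.add_apply, Matrix.smul_apply, hJ, smul_eq_mul]
    rw [zd_mul (fun j => x ∈ B j) (fun j => y ∈ B j)]
    by_cases hxy : x = y
    · subst hxy
      rw [Matrix.one_apply_eq]
      have e : (Finset.univ.filter fun j => x ∈ B j ∧ x ∈ B j) = Finset.univ.filter fun j => x ∈ B j := by
        ext j
        simp
      rw [e, hrep x]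
      ring
    · rw [Matrix.one_apply_ne hxy, h.pair x y hxy]
      ring
  have h2 : N * J = (r : ℚ) • J := by
    ext x y
    rw [Matrix.mul_apply]
    simp only [hN, Matrix.smul_apply, hJ, smul_eq_mul, mul_one]
    rw [Finset.sum_boole, hrep x]
  have h3 : J * N = (r : ℚ) • J := by
    ext x j
    rw [Matrix.mul_apply]
    simp only [hN, Matrix.smul_apply, hJ, smul_eq_mul, mul_one, one_mul]
    rw [Finset.sum_boole]
    have e : (Finset.univ.filter fun x => x ∈ B j) = B j := by
      ext x
      simp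
    rw [e, h.card j]
  let P : Matrix (Fin v) (Fin v) ℚ := (1 / ((r : ℚ) - lam)) • (N.transpose - ((lam : ℚ) / r) • J)
  have hNP : N * P = 1 := by
    show N * ((1 / ((r : ℚ) - lam)) • (N.transpose - ((lam : ℚ) / r) • J)) = 1
    rw [Matrix.mul_smul, Matrix.mul_sub, Matrix.mul_smul, h1, h2, smul_smul, div_mul_cancel₀ _ hr0,
      add_sub_cancel_right, smul_smul, one_div, inv_mul_cancel₀ hd0, one_smul]
  have hPN : P * N = 1 := mul_eq_one_comm.mp hNP
  have h4 : N.transpose * N = ((r : ℚ) - lam) • (1 : Matrix (Fin v) (Fin v) ℚ) + (lam : ℚ) • J := by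
    have e : ((1 / ((r : ℚ) - lam)) • (N.transpose - ((lam : ℚ) / r) • J)) * N = 1 := hPN
    rw [Matrix.smul_mul, Matrix.sub_mul, Matrix.smul_mul, h3, smul_smul, div_mul_cancel₀ _ hr0] at e
    have e2 : ((r : ℚ) - lam) • ((1 / ((r : ℚ) - lam)) • (N.transpose * N - (lam : ℚ) • J))
        = ((r : ℚ) - lam) • (1 : Matrix (Fin v) (Fin v) ℚ) := by rw [e]
    rw [smul_smul, mul_one_div_cancel hd0, one_smul] at e2
    rw [← e2]
    abel
  intro i j hij
  have h5 := congrFun (congrFun h4 i) j
  rw [Matrix.mul_apply] at h5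
  simp only [Matrix.transpose_apply, hN, Matrix.add_apply, Matrix.smul_apply, hJ, smul_eq_mul] at h5
  rw [zd_mul (fun x => x ∈ B i) (fun x => x ∈ B j), Matrix.one_apply_ne hij] at h5
  have e : (Finset.univ.filter fun x => x ∈ B i ∧ x ∈ B j) = B i ∩ B j := by
    ext x
    simp
  rw [e] at h5
  have h6 : (((B i ∩ B j).card : ℕ) : ℚ) = ((lam : ℕ) : ℚ) := by
    rw [h5]
    ring
  exact_mod_cast h6

end Pool.Agent.Lib.TriD
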