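import Pool.Agent.Lib.TriD.ZDefs

set_option autoImplicit false

/-!
MODULE ZTDv (about 100 lines). Divisibility of graphs with a triangle decomposition.

PROOF. `TD.tdiv`: let `T` be the decomposition, `v` a vertex, `j, k ≠ p v`. Every `t ∈ T` containing `v` is a 3-clique, its vertices lie in
three different parts (`hp`), so it contains exactly one vertex of part `j`. The map `z ↦` (the unique `t ∈ T` containing `v, z`) is a
bijection from `nbr p H j {v}` onto `{t ∈ T | v ∈ t}`; the same for `k`.
`TDiv.sdiff`: for `A ≤ G` the set `nbr p (G \ A) j {v}` is `nbr p G j {v} \ nbr p A j {v}` and `nbr p A j {v} ⊆ nbr p G j {v}`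
(`Finset.card_sdiff_of_subset`).
-/

open scoped Classical

namespace Pool.Agent.Lib.TriD

variable {V : Type} [Fintype V]

private theorem mem_nbr_single {H : SimpleGraph V} {p : V → Fin 3} {j : Fin 3} {v z : V} :
    z ∈ nbr p H j {v} ↔ p z = j ∧ H.Adj v z := by
  simp [nbr]

theorem TD.tdiv {H : SimpleGraph V} (h : TD H) (p : V → Fin 3)
    (hp : ∀ u v, H.Adj u v → p u ≠ p v) : TDiv p H := by
  obtain ⟨T, hT1, hT2⟩ := h
  intro v j k hj hk
  have key : ∀ i, i ≠ p v → (nbr p H i {v}).card = (T.filter fun t => v ∈ t).card := by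
    intro i hi
    have hz : ∀ z ∈ nbr p H i {v}, H.Adj v z := fun z hz => (mem_nbr_single.1 hz).2
    refine Finset.card_bij (fun z hz' => (hT2 v z (hz z hz')).choose) ?_ ?_ ?_
    · intro z hz'
      have h1 := (hT2 v z (hz z hz')).choose_spec.1
      exact Finset.mem_filter.2 ⟨h1.1, h1.2.1⟩
    · intro z hz' w hw' hzw
      have h1 := (hT2 v z (hz z hz')).choose_spec.1
      have h2 := (hT2 v w (hz w hw')).choose_spec.1
      simp only at hzw
      rw [← hzw] at h2
      by_contra hne
      have h3 := (hT1 _ h1.1).isClique h1.2.2 h2.2.2 hne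
      exact hp z w h3 ((mem_nbr_single.1 hz').1.trans (mem_nbr_single.1 hw').1.symm)
    · intro t ht
      obtain ⟨htT, hvt⟩ := Finset.mem_filter.1 ht
      have hcl := hT1 t htT
      have hinj : Set.InjOn p (t : Set V) := by
        intro a ha b hb hab
        by_contra hne
        exact hp a b (hcl.isClique ha hb hne) hab
      have hcard : (t.image p).card = 3 := by
        rw [Finset.card_image_of_injOn hinj, hcl.card_eq]
      have huniv : t.image p = Finset.univ :=
        Finset.eq_univ_of_card _ (by rw [hcard, Fintype.card_fin])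
      obtain ⟨z, hzt, hzi⟩ := Finset.mem_image.1 (huniv ▸ Finset.mem_univ i : i ∈ t.image p)
      have hne : v ≠ z := by
        rintro rfl
        exact hi hzi.symm
      have hadj : H.Adj v z := hcl.isClique hvt hzt hne
      have hmem : z ∈ nbr p H i {v} := mem_nbr_single.2 ⟨hzi, hadj⟩
      refine ⟨z, hmem, ?_⟩
      have h1 := (hT2 v z (hz z hmem)).choose_spec
      exact (h1.2 t ⟨htT, hvt, hzt⟩).symm
  rw [key j hj, key k hk]

theorem TDiv.sdiff {G A : SimpleGraph V} {p : V → Fin 3} (hG : TDiv p G) (hA : TDiv p A)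
    (hAG : A ≤ G) : TDiv p (G \ A) := by
  have hs : ∀ (v : V) (j : Fin 3),
      (nbr p (G \ A) j {v}).card = (nbr p G j {v}).card - (nbr p A j {v}).card := by
    intro v j
    have h1 : nbr p (G \ A) j {v} = nbr p G j {v} \ nbr p A j {v} := by
      ext z
      simp only [Finset.mem_sdiff, mem_nbr_single, SimpleGraph.sdiff_adj]
      tauto
    have h2 : nbr p A j {v} ⊆ nbr p G j {v} := by
      intro z hz
      rw [mem_nbr_single] at hz ⊢
      exact ⟨hz.1, hAG hz.2⟩
    rw [h1, Finset.card_sdiff_of_subset h2]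
  intro v j k hj hk
  rw [hs, hs, hG v j k hj hk, hA v j k hj hk]

end Pool.Agent.Lib.TriD
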