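import Pool.Agent.Lib.TriD.ZVorS

set_option autoImplicit false

/-!
MODULE ZVor (about 180 lines). The vortex.

PROOF. `n = card V`, `s i = n / 4^i`. `m0 = (400 / min ξ 1)^3` (so `m0 ≥ 1` and `400 s^(2/3) ≤ min ξ 1 * s` for `s ≥ m0`).
By induction on `l ≤ L` there is `U : ℕ → Finset V` with `U 0 = univ`, `U (i+1) ⊆ U i` for all `i`, and for `i ≤ l`:
 (a) `| card (F S j ∩ U i) - card (F S j) / 4^i | ≤ 400 (s i)^(2/3)` for all `S ⊆ U (i-2)`, `card S ≤ 4` (truncated subtraction),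
 (b) `| card (U i) - s i | ≤ 400 (s i)^(2/3)`.
`l = 0`: `U = fun _ => univ`. Step `l < L`: `s l ≥ 4 m0`, so `card (U l) ≤ 2 s l` and `card (U (l-1)) ≤ 2 s (l-1) ≤ 8 s l` (for `l = 0`: `U 0 = univ`).
`vortex_step` with `A = U l`, `A' = U (l-1)`, `s = s l` gives `B`; new `U' i = U i` for `i ≤ l`, `U' i = B` for `i > l`. For `S ⊆ U ((l+1)-2) = U (l-1)`
(which is `⊆ U (l-2)`): `| card (F S j ∩ B) - card (F S j) / 4^(l+1) | ≤ 50 (s l)^(2/3) + 100 (s l)^(2/3) = 150 (s l)^(2/3)`, and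
`150 (s l)^(2/3) = 150 * 4^(2/3) * (s (l+1))^(2/3) ≤ 400 (s (l+1))^(2/3)` as `4^(2/3) ≤ 2.6` (`2.6^3 = 17.576 ≥ 16`). The same for (b).
At the end `400 (s i)^(2/3) ≤ min ξ 1 * s i` for `i ≤ L` because `s i ≥ s L ≥ m0`.
-/

open scoped Classical

namespace Pool.Agent.Lib.TriD

private lemma four_pow : (4 : ℝ) ^ (2 / 3 : ℝ) ≤ 2.6 := by
  have h : ((4 : ℝ) ^ (2 / 3 : ℝ)) ^ (3 : ℕ) = 16 := by
    rw [← Real.rpow_natCast, ← Real.rpow_mul (by norm_num)]
    norm_num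
  by_contra hc
  push Not at hc
  have h2 : (2.6 : ℝ) ^ 3 < ((4 : ℝ) ^ (2 / 3 : ℝ)) ^ (3 : ℕ) :=
    pow_lt_pow_left₀ hc (by norm_num) (by norm_num)
  rw [h] at h2
  norm_num at h2

private lemma pow_bd (ξ : ℝ) (hξ : 0 < ξ) (s : ℝ) (hs : (400 / min ξ 1) ^ 3 ≤ s) :
    400 * s ^ (2 / 3 : ℝ) ≤ min ξ 1 * s := by
  have hm : 0 < min ξ 1 := lt_min hξ one_pos
  have h0 : 0 < 400 / min ξ 1 := by positivity
  have hs0 : 0 < s := lt_of_lt_of_le (by positivity) hs
  have h1 : 400 / min ξ 1 ≤ s ^ (1 / 3 : ℝ) := by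
    have h2 : ((400 / min ξ 1) ^ 3) ^ (1 / 3 : ℝ) ≤ s ^ (1 / 3 : ℝ) :=
      Real.rpow_le_rpow (by positivity) hs (by norm_num)
    have h3 : ((400 / min ξ 1) ^ 3) ^ (1 / 3 : ℝ) = 400 / min ξ 1 := by
      rw [← Real.rpow_natCast, ← Real.rpow_mul h0.le]
      norm_num
    rwa [h3] at h2
  have h4 : s = s ^ (2 / 3 : ℝ) * s ^ (1 / 3 : ℝ) := by
    rw [← Real.rpow_add hs0]
    norm_num
  have h5 : 400 ≤ min ξ 1 * s ^ (1 / 3 : ℝ) := by
    rw [div_le_iff₀ hm] at h1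
    linarith [mul_comm (min ξ 1) (s ^ (1 / 3 : ℝ))]
  have h6 : 0 ≤ s ^ (2 / 3 : ℝ) := Real.rpow_nonneg hs0.le _
  calc 400 * s ^ (2 / 3 : ℝ) ≤ (min ξ 1 * s ^ (1 / 3 : ℝ)) * s ^ (2 / 3 : ℝ) :=
        mul_le_mul_of_nonneg_right h5 h6
    _ = min ξ 1 * (s ^ (2 / 3 : ℝ) * s ^ (1 / 3 : ℝ)) := by ring
    _ = min ξ 1 * s := by rw [← h4]

private lemma step_bd (s : ℝ) (hs : 0 < s) :
    150 * s ^ (2 / 3 : ℝ) ≤ 400 * (s / 4) ^ (2 / 3 : ℝ) := by
  have h1 : s ^ (2 / 3 : ℝ) = 4 ^ (2 / 3 : ℝ) * (s / 4) ^ (2 / 3 : ℝ) := by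
    rw [← Real.mul_rpow (by norm_num) (by positivity)]
    congr 1
    ring
  have h2 : 0 ≤ (s / 4) ^ (2 / 3 : ℝ) := Real.rpow_nonneg (by positivity) _
  have h3 := mul_le_mul_of_nonneg_right four_pow h2
  rw [h1]
  nlinarith

private lemma comb_bd (a b c x y : ℝ) (hx : 0 < x) (h1 : |a - b / 4| ≤ 50 * x ^ (2 / 3 : ℝ))
    (h2 : |b - c| ≤ 400 * x ^ (2 / 3 : ℝ)) (hy : y = c / 4) :
    |a - y| ≤ 400 * (x / 4) ^ (2 / 3 : ℝ) := by
  refine le_trans ?_ (step_bd x hx)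
  rw [hy]
  rw [abs_le] at h1 h2 ⊢
  constructor <;> linarith [h1.1, h1.2, h2.1, h2.2]

private lemma ind {V : Type} [Fintype V] (ξ : ℝ) (hξ : 0 < ξ)
    (F : Finset V → Fin 3 → Finset V) (L : ℕ)
    (hL : (400 / min ξ 1) ^ 3 ≤ (Fintype.card V : ℝ) / 4 ^ L) (l : ℕ) (hl : l ≤ L) :
    ∃ U : ℕ → Finset V, U 0 = Finset.univ ∧ (∀ i, U (i + 1) ⊆ U i) ∧
      (∀ i ≤ l, ∀ S ⊆ U (i - 2), S.card ≤ 4 → ∀ j,
        |((F S j ∩ U i).card : ℝ) - ((F S j).card : ℝ) / 4 ^ i| ≤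
          400 * ((Fintype.card V : ℝ) / 4 ^ i) ^ (2 / 3 : ℝ)) ∧
      ∀ i ≤ l, |((U i).card : ℝ) - (Fintype.card V : ℝ) / 4 ^ i| ≤
          400 * ((Fintype.card V : ℝ) / 4 ^ i) ^ (2 / 3 : ℝ) := by
  induction l with
  | zero =>
    refine ⟨fun _ => Finset.univ, rfl, fun _ => Finset.Subset.refl _, ?_, ?_⟩
    · intro i hi S _ _ j
      have hi0 : i = 0 := by omega
      subst hi0
      simp only [Finset.inter_univ, pow_zero, div_one, sub_self, abs_zero]
      positivity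
    · intro i hi
      have hi0 : i = 0 := by omega
      subst hi0
      simp only [Finset.card_univ, pow_zero, div_one, sub_self, abs_zero]
      positivity
  | succ l ih =>
    obtain ⟨U, hU0, hUs, hUa, hUb⟩ := ih (by omega)
    have hanti : Antitone U := antitone_nat_of_succ_le hUs
    set n : ℝ := (Fintype.card V : ℝ) with hn
    set m0 : ℝ := (400 / min ξ 1) ^ 3 with hm0
    have hm : 0 < min ξ 1 := lt_min hξ one_pos
    have hm0pos : 1 ≤ m0 := by
      have h1 : (1 : ℝ) ≤ 400 / min ξ 1 := by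
        rw [le_div_iff₀ hm]
        have := min_le_right ξ 1
        linarith
      exact one_le_pow₀ h1
    have hn0 : 0 ≤ n := by positivity
    have hmono : ∀ i ≤ L, m0 ≤ n / 4 ^ i := by
      intro i hi
      refine hL.trans ?_
      exact div_le_div_of_nonneg_left hn0 (by positivity)
        (pow_le_pow_right₀ (by norm_num) hi)
    have hcard : ∀ i ≤ l, ((U i).card : ℝ) ≤ 2 * (n / 4 ^ i) := by
      intro i hi
      have h1 := hUb i hi
      have h2 := pow_bd ξ hξ (n / 4 ^ i) (hmono i (by omega))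
      have h3 : min ξ 1 * (n / 4 ^ i) ≤ 1 * (n / 4 ^ i) :=
        mul_le_mul_of_nonneg_right (min_le_right _ _) (by positivity)
      rw [abs_le] at h1
      linarith [h1.2]
    have hsl : 1 ≤ n / 4 ^ l := hm0pos.trans (hmono l (by omega))
    have hcard' : ((U (l - 1)).card : ℝ) ≤ 8 * (n / 4 ^ l) := by
      have h1 := hcard (l - 1) (by omega)
      rcases Nat.eq_zero_or_pos l with h0 | h0
      · subst h0
        simp only [Nat.zero_sub, pow_zero, div_one] at h1 ⊢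
        linarith
      · obtain ⟨k, rfl⟩ : ∃ k, l = k + 1 := ⟨l - 1, by omega⟩
        simp only [Nat.add_sub_cancel] at h1 ⊢
        have h2 : n / 4 ^ k = 4 * (n / 4 ^ (k + 1)) := by
          rw [pow_succ]
          field_simp
        rw [h2] at h1
        linarith
    obtain ⟨B, hBA, hB1, hB2⟩ := vortex_step F (U l) (U (l - 1)) (n / 4 ^ l) hsl
      (hcard l le_rfl) hcard'
    have hdiv : n / 4 ^ (l + 1) = n / 4 ^ l / 4 := by
      rw [pow_succ]
      field_simp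
    have hlp : 0 < n / 4 ^ l := by linarith
    refine ⟨fun i => if i ≤ l then U i else B, ?_, ?_, ?_, ?_⟩
    · simp [hU0]
    · intro i
      by_cases h1 : i + 1 ≤ l
      · have h2 : i ≤ l := by omega
        simp only [h1, h2, if_true]
        exact hUs i
      · by_cases h2 : i ≤ l
        · have h3 : i = l := by omega
          simp only [h1, h2, if_true, if_false]
          rw [h3]
          exact hBA
        · simp only [h1, h2, if_false]
          exact Finset.Subset.refl _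
    · intro i hi S hS hS4 j
      by_cases h1 : i ≤ l
      · have h2 : i - 2 ≤ l := by omega
        simp only [h2, if_true] at hS
        simp only [h1, if_true]
        exact hUa i h1 S hS hS4 j
      · have h3 : i = l + 1 := by omega
        subst h3
        have h2 : l + 1 - 2 ≤ l := by omega
        simp only [h2, if_true] at hS
        simp only [h1, if_false]
        have h4 : l + 1 - 2 = l - 1 := by omega
        rw [h4] at hS
        have h5 : S ⊆ U (l - 2) := hS.trans (hanti (by omega))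
        have h6 := hB1 S hS hS4 j
        have h7 := hUa l le_rfl S h5 hS4 j
        rw [hdiv]
        refine comb_bd _ _ _ _ _ hlp h6 h7 ?_
        rw [pow_succ]
        field_simp
    · intro i hi
      by_cases h1 : i ≤ l
      · simp only [h1, if_true]
        exact hUb i h1
      · have h3 : i = l + 1 := by omega
        subst h3
        simp only [h1, if_false]
        have h7 := hUb l le_rfl
        have h8 := comb_bd _ _ _ _ (n / 4 ^ (l + 1)) hlp hB2 h7 hdiv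
        rw [hdiv] at h8 ⊢
        exact h8

theorem vortex (ξ : ℝ) (hξ : 0 < ξ) : ∃ m0 : ℝ, 0 < m0 ∧ ∀ (V : Type) [Fintype V]
    (F : Finset V → Fin 3 → Finset V) (L : ℕ), m0 ≤ (Fintype.card V : ℝ) / 4 ^ L →
    ∃ U : ℕ → Finset V, U 0 = Finset.univ ∧ (∀ i, U (i + 1) ⊆ U i) ∧
      (∀ i ≤ L, ∀ S ⊆ U (i - 2), S.card ≤ 4 → ∀ j,
        |((F S j ∩ U i).card : ℝ) - ((F S j).card : ℝ) / 4 ^ i| ≤
          ξ * ((Fintype.card V : ℝ) / 4 ^ i)) ∧
      ∀ i ≤ L, ((U i).card : ℝ) ≤ 2 * ((Fintype.card V : ℝ) / 4 ^ i) := by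
  have hm : 0 < min ξ 1 := lt_min hξ one_pos
  refine ⟨(400 / min ξ 1) ^ 3, by positivity, ?_⟩
  intro V _ F L hL
  obtain ⟨U, hU0, hUs, hUa, hUb⟩ := ind ξ hξ F L hL L le_rfl
  have hn0 : (0 : ℝ) ≤ (Fintype.card V : ℝ) := by positivity
  have hmono : ∀ i ≤ L, (400 / min ξ 1) ^ 3 ≤ (Fintype.card V : ℝ) / 4 ^ i := by
    intro i hi
    refine hL.trans ?_
    exact div_le_div_of_nonneg_left hn0 (by positivity)
      (pow_le_pow_right₀ (by norm_num) hi)
  refine ⟨U, hU0, hUs, ?_, ?_⟩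
  · intro i hi S hS hS4 j
    refine (hUa i hi S hS hS4 j).trans ?_
    refine (pow_bd ξ hξ _ (hmono i hi)).trans ?_
    exact mul_le_mul_of_nonneg_right (min_le_left _ _) (by positivity)
  · intro i hi
    have h1 := hUb i hi
    have h2 := pow_bd ξ hξ _ (hmono i hi)
    have h3 : min ξ 1 * ((Fintype.card V : ℝ) / 4 ^ i) ≤ 1 * ((Fintype.card V : ℝ) / 4 ^ i) :=
      mul_le_mul_of_nonneg_right (min_le_right _ _) (by positivity)
    rw [abs_le] at h1
    linarith [h1.2]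

end Pool.Agent.Lib.TriD
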