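import Pool.Agent.Lib.TriD.ZTD
import Pool.Agent.Lib.TriD.ZTDv
import Pool.Agent.Lib.TriD.ZAbs
import Pool.Agent.Lib.TriD.ZVor

set_option autoImplicit false

/-!
MODULE ZMain (about 250 lines). Iteration over the levels of the vortex and final absorption.

PROOF. `n = card V`. `ξ' = min ξ (c^2 / 2)`, `m0` from `vortex ξ'`, `m1 = max (max m0 m) 1`, `t = ⌈32 m1⌉₊`, `n0 ≥` the `n0` of `absorber c K δ t`
and `n0 ≥ 4 m1`. Let `l` be maximal with `4 m1 ≤ n / 4^l`; so `n / 4^l < 16 m1` and `m1 ≤ n / 4^(l+1)`. Let `U` be the vortex for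
`F S j = nbr p G j S`, `L = l + 1`. `Q = U l`, `card Q ≤ 2 n / 4^l ≤ t`. Take `A` from `absorber` for `U1 = U 1`, `Q` (its hypothesis: vortex at
`i = 1`, `U (1-2) = U 0 = univ`, `ξ' / 4 ≤ c^2 / 8`; if `l = 0` also fine). `H0 = G \ A`.
Claim by induction on `i ≤ l`: there is `H ≤ H0` with `H.Adj u v → u ∈ U i`, `G.Adj u v → H.Adj u v` for `u, v ∈ U (i+1)`, `TDiv p H`, the three
`dead` bounds of `Level` for `u ∈ U i` with `s = n / 4^i` and `A0, A1, A2 = U i, U (i+1), U (i+2)`, and `TD (H0 \ H)`.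
`i = 0`: `H = H0`: edges of `A` have an end outside `U 1`; `TDiv.sdiff` with `TD.tdiv` for `A`; missing edges at `u` are edges of `A`, at
most `δ n ≤ 3 δ s`; `H0 \ H0 = ⊥`. Step: the fields of `Level p G H (n / 4^i) ξ δ (U i) (U (i+1)) (U (i+2)) (U (i+3))`: `vor0, vor1, vor2` are
the vortex property at `i, i+1, i+2 ≤ l + 1` for `S ⊆ U i ⊆ U (i+2-2), ...` (`s / n = 1 / 4^i`, `s / n / 4 = 1 / 4^(i+1)`, `s / n / 16 = 1 / 4^(i+2)`, errors
`ξ' s / 4^a ≤ ξ s`); `m ≤ m1 ≤ s`. `LevelStep` gives `H'`; `H0 \ H' = (H0 \ H) ⊔ (H \ H')`, disjoint (`TD.sup`).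
End: `i = l`, `L = H ≤ G` lives on `Q`, `TD (A ⊔ H)` and `Disjoint A H` from `absorber`, `G = (A ⊔ H) ⊔ (H0 \ H)`, disjoint union.
-/

open scoped Classical

namespace Pool.Agent.Lib.TriD

/-- The level lemma, as a hypothesis. -/
def LevelStep (c K δ ξ m : ℝ) : Prop :=
  ∀ (V : Type) [Fintype V] (p : V → Fin 3) (G H : SimpleGraph V) (s : ℝ)
    (A0 A1 A2 A3 : Finset V), Host p G c K → Level p G H s ξ δ A0 A1 A2 A3 → m ≤ s →
    ∃ H' : SimpleGraph V, H' ≤ H ∧ (∀ u v, H'.Adj u v → u ∈ A1) ∧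
      (∀ u v, u ∈ A2 → v ∈ A2 → G.Adj u v → H'.Adj u v) ∧ TD (H \ H') ∧ TDiv p H' ∧
      ∀ u ∈ A1, ∀ j, (miss G H' u (cls p (A1 \ A2) j) : ℝ) ≤ 3 * δ * (s / 4) ∧
        (miss G H' u (cls p (A2 \ A3) j) : ℝ) ≤ 3 * δ * (s / 4) ∧
        (miss G H' u (cls p A3 j) : ℝ) ≤ 3 * δ * (s / 4)

private theorem zm_miss_le {V : Type} [Fintype V] (G H A : SimpleGraph V) (u : V) (Z : Finset V)
    (h : ∀ z, G.Adj u z → ¬ H.Adj u z → A.Adj u z) :
    miss G H u Z ≤ (Finset.univ.filter (fun v => A.Adj u v)).card := by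
  unfold miss
  apply Finset.card_le_card
  intro z hz
  have hz' := Finset.mem_filter.mp hz
  exact Finset.mem_filter.mpr ⟨Finset.mem_univ _, h z hz'.2.1 hz'.2.2⟩

theorem td_of_level (c K δ ξ m : ℝ) (hc : 0 < c) (hc1 : c ≤ 1) (hK : 0 ≤ K) (hδ : 0 < δ)
    (hξ : 0 < ξ) (h : LevelStep c K δ ξ m) :
    ∃ n0 : ℕ, ∀ (V : Type) [Fintype V] (p : V → Fin 3) (G : SimpleGraph V), Host p G c K →
      n0 ≤ Fintype.card V → TD G := by
  have hξ' : 0 < min ξ (c ^ 2 / 2) := lt_min hξ (by positivity)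
  obtain ⟨m0, hm0, hvor⟩ := vortex (min ξ (c ^ 2 / 2)) hξ'
  obtain ⟨m1, hm1⟩ : ∃ m1 : ℝ, m1 = max (max m0 m) 1 := ⟨_, rfl⟩
  have hm1a : m0 ≤ m1 := by
    rw [hm1]; exact le_trans (le_max_left _ _) (le_max_left _ _)
  have hm1b : m ≤ m1 := by
    rw [hm1]; exact le_trans (le_max_right _ _) (le_max_left _ _)
  have hm1c : 1 ≤ m1 := by
    rw [hm1]; exact le_max_right _ _
  obtain ⟨n0, habs⟩ := absorber c K δ hc hc1 hK hδ ⌈32 * m1⌉₊
  refine ⟨max n0 ⌈4 * m1⌉₊, ?_⟩
  intro V _ p G hG hn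
  have hn0 : n0 ≤ Fintype.card V := le_trans (le_max_left _ _) hn
  have hn1 : 4 * m1 ≤ (Fintype.card V : ℝ) :=
    le_trans (Nat.le_ceil _) (by exact_mod_cast le_trans (le_max_right _ _) hn)
  obtain ⟨n, hnn⟩ : ∃ n : ℝ, n = (Fintype.card V : ℝ) := ⟨_, rfl⟩
  rw [← hnn] at hn1
  have hnpos : 0 < n := by linarith
  -- the last level
  have hex : ∃ k : ℕ, n / 4 ^ k < 4 * m1 := by
    obtain ⟨k, hk⟩ := pow_unbounded_of_one_lt n (show (1 : ℝ) < 4 by norm_num)
    refine ⟨k, ?_⟩
    rw [div_lt_iff₀ (by positivity)]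
    have h4 : (0 : ℝ) < 4 ^ k := by positivity
    nlinarith
  obtain ⟨l, hl1, hl2⟩ : ∃ l : ℕ, 4 * m1 ≤ n / 4 ^ l ∧ n / 4 ^ (l + 1) < 4 * m1 := by
    have hk := Nat.find_spec hex
    have hmin := fun j (hj : j < Nat.find hex) => Nat.find_min hex hj
    obtain ⟨k, hkk⟩ : ∃ k : ℕ, k = Nat.find hex := ⟨_, rfl⟩
    rw [← hkk] at hk hmin
    cases k with
    | zero =>
      simp at hk
      linarith
    | succ k =>
      refine ⟨k, ?_, hk⟩
      have := hmin k (Nat.lt_succ_self k)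
      push Not at this
      exact this
  have hmono : ∀ i ≤ l, n / 4 ^ l ≤ n / 4 ^ i := by
    intro i hi
    apply div_le_div_of_nonneg_left hnpos.le (by positivity)
    exact pow_le_pow_right₀ (by norm_num) hi
  have hsucc : ∀ i : ℕ, n / 4 ^ (i + 1) = n / 4 ^ i / 4 := by
    intro i
    rw [pow_succ, div_div]
  -- the vortex
  obtain ⟨U, hU0, hUs, hUv, hUc⟩ := hvor V (fun S j => nbr p G j S) (l + 1) (by
    rw [← hnn, hsucc]
    linarith)
  rw [← hnn] at hUv hUc
  have hanti : ∀ i j : ℕ, i ≤ j → U j ⊆ U i := by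
    intro i j hij
    induction hij with
    | refl => exact Finset.Subset.refl _
    | step _ ih => exact (hUs _).trans ih
  -- the absorber
  have hQ : (U l).card ≤ ⌈32 * m1⌉₊ := by
    have h1 := hUc l (Nat.le_succ l)
    have h2 : n / 4 ^ l < 16 * m1 := by
      rw [hsucc] at hl2
      linarith
    have h3 : ((U l).card : ℝ) ≤ (⌈32 * m1⌉₊ : ℝ) := by
      refine le_trans h1 (le_trans ?_ (Nat.le_ceil _))
      linarith
    exact_mod_cast h3
  obtain ⟨A, hAG, hAU, hAd, hAT, hAabs⟩ := habs V p G hG hn0 (U 1) (U l) hQ (by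
    intro S hS j
    have h1 := hUv 1 (by omega) S (by
      show S ⊆ U (1 - 2)
      rw [show (1 - 2 : ℕ) = 0 from rfl, hU0]
      exact Finset.subset_univ S) (by omega) j
    have h2 := (abs_le.mp h1).2
    rw [← hnn]
    have h3 : min ξ (c ^ 2 / 2) * (n / 4 ^ 1) ≤ c ^ 2 / 8 * n := by
      have h4 : min ξ (c ^ 2 / 2) ≤ c ^ 2 / 2 := min_le_right _ _
      have h5 : min ξ (c ^ 2 / 2) * (n / 4 ^ 1) ≤ c ^ 2 / 2 * (n / 4 ^ 1) :=
        mul_le_mul_of_nonneg_right h4 (by positivity)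
      linarith
    have h6 : ((nbr p G j S).card : ℝ) / 4 ^ 1 = ((nbr p G j S).card : ℝ) / 4 := by norm_num
    rw [h6] at h2
    linarith)
  have hAp : ∀ u v, A.Adj u v → p u ≠ p v := fun u v huv => hG.part u v (hAG huv)
  -- the induction over the levels
  have hclaim : ∀ i ≤ l, ∃ H : SimpleGraph V, H ≤ G \ A ∧ (∀ u v, H.Adj u v → u ∈ U i) ∧
      (∀ u v, u ∈ U (i + 1) → v ∈ U (i + 1) → G.Adj u v → H.Adj u v) ∧ TDiv p H ∧
      (∀ u ∈ U i, ∀ j, (miss G H u (cls p (U i \ U (i + 1)) j) : ℝ) ≤ 3 * δ * (n / 4 ^ i) ∧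
        (miss G H u (cls p (U (i + 1) \ U (i + 2)) j) : ℝ) ≤ 3 * δ * (n / 4 ^ i) ∧
        (miss G H u (cls p (U (i + 2)) j) : ℝ) ≤ 3 * δ * (n / 4 ^ i)) ∧
      TD ((G \ A) \ H) := by
    intro i
    induction i with
    | zero =>
      intro _
      have hmiss : ∀ u (Z : Finset V), (miss G (G \ A) u Z : ℝ) ≤ 3 * δ * (n / 4 ^ 0) := by
        intro u Z
        have h1 : miss G (G \ A) u Z ≤ (Finset.univ.filter (fun v => A.Adj u v)).card := by
          apply zm_miss_le
          intro z hz1 hz2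
          by_contra hcon
          exact hz2 ⟨hz1, hcon⟩
        have h2 : (miss G (G \ A) u Z : ℝ) ≤
            ((Finset.univ.filter (fun v => A.Adj u v)).card : ℝ) := by exact_mod_cast h1
        have h3 := hAd u
        rw [← hnn] at h3
        have h4 : 0 ≤ δ * n := by positivity
        rw [pow_zero, div_one]
        linarith
      refine ⟨G \ A, le_refl _, ?_, ?_, ?_, ?_, ?_⟩
      · intro u v _
        rw [hU0]
        exact Finset.mem_univ _
      · intro u v hu hv huv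
        refine ⟨huv, ?_⟩
        intro hA
        rcases hAU u v hA with h1 | h1
        · exact h1 hu
        · exact h1 hv
      · exact TDiv.sdiff hG.tdiv (hAT.tdiv p hAp) hAG
      · intro u _ j
        exact ⟨hmiss _ _, hmiss _ _, hmiss _ _⟩
      · rw [sdiff_self]
        exact TD_bot
    | succ i ih =>
      intro hi
      obtain ⟨H, hH1, hH2, hH3, hH4, hH5, hH6⟩ := ih (by omega)
      have hspos : 0 < n / 4 ^ i := by positivity
      have hsn : n / 4 ^ i / (Fintype.card V : ℝ) = 1 / 4 ^ i := by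
        rw [← hnn]
        field_simp
      have herr : min ξ (c ^ 2 / 2) ≤ ξ := min_le_left _ _
      have hlev : Level p G H (n / 4 ^ i) ξ δ (U i) (U (i + 1)) (U (i + 2)) (U (i + 3)) := by
        refine
          { s0 := hspos
            s1 := ?_
            sub1 := hUs i
            sub2 := hUs (i + 1)
            sub3 := hUs (i + 2)
            vor0 := ?_
            vor1 := ?_
            vor2 := ?_
            le := hH1.trans sdiff_le
            supp := hH2
            full := hH3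
            tdiv := hH4
            dead := hH5 }
        · rw [← hnn]
          apply div_le_self hnpos.le
          exact one_le_pow₀ (by norm_num)
        · intro S hS hS4 j
          have h1 := hUv i (by omega) S (hS.trans (hanti _ _ (by omega))) hS4 j
          rw [hsn]
          have h2 : 1 / (4 : ℝ) ^ i * ((nbr p G j S).card : ℝ) = ((nbr p G j S).card : ℝ) / 4 ^ i := by
            ring
          rw [h2]
          exact le_trans h1 (mul_le_mul_of_nonneg_right herr hspos.le)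
        · intro S hS hS4 j
          have h1 := hUv (i + 1) (by omega) S (hS.trans (hanti _ _ (by omega))) hS4 j
          rw [hsn]
          have h2 : 1 / (4 : ℝ) ^ i / 4 * ((nbr p G j S).card : ℝ) =
              ((nbr p G j S).card : ℝ) / 4 ^ (i + 1) := by
            rw [pow_succ]
            field_simp
          rw [h2]
          refine le_trans h1 ?_
          rw [hsucc]
          have h3 : min ξ (c ^ 2 / 2) * (n / 4 ^ i / 4) ≤ ξ * (n / 4 ^ i / 4) :=
            mul_le_mul_of_nonneg_right herr (by positivity)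
          have h4 : 0 < ξ * (n / 4 ^ i) := by positivity
          linarith
        · intro S hS hS4 j
          have h1 := hUv (i + 2) (by omega) S (hS.trans (hanti _ _ (by omega))) hS4 j
          rw [hsn]
          have h2 : 1 / (4 : ℝ) ^ i / 16 * ((nbr p G j S).card : ℝ) =
              ((nbr p G j S).card : ℝ) / 4 ^ (i + 2) := by
            rw [pow_add]
            field_simp
            ring
          rw [h2]
          refine le_trans h1 ?_
          rw [show i + 2 = (i + 1) + 1 from rfl, hsucc, hsucc]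
          have h3 : min ξ (c ^ 2 / 2) * (n / 4 ^ i / 4 / 4) ≤ ξ * (n / 4 ^ i / 4 / 4) :=
            mul_le_mul_of_nonneg_right herr (by positivity)
          have h4 : 0 < ξ * (n / 4 ^ i) := by positivity
          linarith
      have hms : m ≤ n / 4 ^ i := by
        have h1 := hmono i (by omega)
        linarith
      obtain ⟨H', hA1, hA2, hA3, hA4, hA5, hA6⟩ := h V p G H (n / 4 ^ i) _ _ _ _ hG hlev hms
      refine ⟨H', hA1.trans hH1, hA2, hA3, hA5, ?_, ?_⟩
      · intro u hu j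
        rw [hsucc]
        exact hA6 u hu j
      · have h1 : (G \ A) \ H' = ((G \ A) \ H) ⊔ (H \ H') :=
          (sdiff_sup_sdiff_cancel hH1 hA1).symm
        rw [h1]
        exact TD.sup hH6 hA4 (disjoint_sdiff_self_left.mono_right sdiff_le)
  obtain ⟨H, hH1, hH2, hH3, hH4, hH5, hH6⟩ := hclaim l (le_refl l)
  obtain ⟨hT, hdisj⟩ := hAabs H (hH1.trans sdiff_le) hH2 hH4
  have hle : A ⊔ H ≤ G := sup_le hAG (hH1.trans sdiff_le)
  have hfin : G = (A ⊔ H) ⊔ ((G \ A) \ H) := by
    rw [sdiff_sdiff_left]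
    exact (sup_sdiff_cancel_right hle).symm
  rw [hfin]
  refine TD.sup hT hH6 ?_
  rw [sdiff_sdiff_left]
  exact disjoint_sdiff_self_right

end Pool.Agent.Lib.TriD
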