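import Pool.Agent.Lib.TriD.RdDefs
import Pool.Agent.Lib.TriD.ZMain

set_option autoImplicit false

/-!
Definitions for the end of a level: the next graph and the set of triangles of the three rounds.
-/

open scoped Classical

noncomputable section

namespace Pool.Agent.Lib.TriD

variable {V : Type} [Fintype V]

/-- The pair `(u, v)` (in the order of the parts) is not used by the three rounds. -/
def keep (p : V → Fin 3) (H : SimpleGraph V) (A0 A1 A2 : Finset V) (π1 π2 π3 : V → V → V)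
    (u v : V) : Prop :=
  al1 p H A0 A1 A2 π1 u v ∨ al2 p H A0 A1 A2 π2 u v ∨
    (p u = 0 ∧ p v = 1 ∧ ∀ b ∈ cls p (A0 \ A1) 2, al2 p H A0 A1 A2 π2 u b → π3 b u ≠ v)

/-- The graph on `A1` that is left after the level. -/
def nxt (p : V → Fin 3) (H : SimpleGraph V) (A0 A1 A2 : Finset V) (π1 π2 π3 : V → V → V) :
    SimpleGraph V :=
  SimpleGraph.fromRel (fun u v => H.Adj u v ∧ u ∈ A1 ∧ v ∈ A1 ∧
    ((u ∈ A2 ∧ v ∈ A2) ∨ keep p H A0 A1 A2 π1 π2 π3 u v))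

theorem nxt_adj {p : V → Fin 3} {H : SimpleGraph V} {A0 A1 A2 : Finset V} {π1 π2 π3 : V → V → V}
    {u v : V} : (nxt p H A0 A1 A2 π1 π2 π3).Adj u v ↔ H.Adj u v ∧ u ∈ A1 ∧ v ∈ A1 ∧
      ((u ∈ A2 ∧ v ∈ A2) ∨ keep p H A0 A1 A2 π1 π2 π3 u v ∨ keep p H A0 A1 A2 π1 π2 π3 v u) := by
  unfold nxt
  rw [SimpleGraph.fromRel_adj]
  constructor
  · rintro ⟨-, ⟨h1, h2, h3, h4⟩ | ⟨h1, h2, h3, h4⟩⟩
    · refine ⟨h1, h2, h3, ?_⟩
      rcases h4 with h | h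
      · exact Or.inl h
      · exact Or.inr (Or.inl h)
    · refine ⟨h1.symm, h3, h2, ?_⟩
      rcases h4 with h | h
      · exact Or.inl ⟨h.2, h.1⟩
      · exact Or.inr (Or.inr h)
  · rintro ⟨h1, h2, h3, h4⟩
    refine ⟨h1.ne, ?_⟩
    rcases h4 with h | h | h
    · exact Or.inl ⟨h1, h2, h3, Or.inl h⟩
    · exact Or.inl ⟨h1, h2, h3, Or.inr h⟩
    · exact Or.inr ⟨h1.symm, h3, h2, Or.inr h⟩

/-- The triangles `(x, y, b)` of the three rounds. -/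
def tset (p : V → Fin 3) (H : SimpleGraph V) (A0 A1 A2 : Finset V) (π1 π2 π3 : V → V → V) :
    Finset (V × V × V) :=
  Finset.univ.filter (fun t =>
    (t.1 ∈ cls p (A0 \ A1) 0 ∧ p t.2.1 = 1 ∧ H.Adj t.1 t.2.1 ∧ t.2.2 = π1 t.1 t.2.1) ∨
    (t.2.1 ∈ cls p (A0 \ A1) 1 ∧ t.1 ∈ cls p A1 0 ∧ H.Adj t.1 t.2.1 ∧ t.2.2 = π2 t.2.1 t.1) ∨
    (t.2.2 ∈ cls p (A0 \ A1) 2 ∧ al2 p H A0 A1 A2 π2 t.1 t.2.2 ∧ t.2.1 = π3 t.2.2 t.1))

/-- The rounds of a level, as a hypothesis. -/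
def RoundsOK (c K δ ξ ε m : ℝ) : Prop :=
  ∀ (V : Type) [Fintype V] (p : V → Fin 3) (G H : SimpleGraph V) (s : ℝ)
    (A0 A1 A2 A3 : Finset V), Host p G c K → Level p G H s ξ δ A0 A1 A2 A3 → m ≤ s →
    ∃ (ω : V → V → V → ℝ) (π1 π2 π3 : V → V → V), R1Out p H A0 A1 A2 A3 ω c s δ ε π1 ∧
      R2Out p H A0 A1 A2 A3 ω c s δ ε π1 π2 ∧ R3Out p H A0 A1 A2 A3 s δ ε π1 π2 π3

end Pool.Agent.Lib.TriD
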