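import Pool.Agent.Lib.TriD.ZNDefs

set_option autoImplicit false

/-!
MODULE ZNT (about 120 lines). The triangles of the rounds are triangles of `H \ nxt`.

Abbreviations: `O j = cls p (A0 \ A1) j`, `al1 y b`, `al2 x b` alive after round 1 / 2, triangles of `tset`: type 1 `(x, y, π1 x y)`,
`x ∈ O 0`, type 2 `(x, y, π2 y x)`, `y ∈ O 1`, `x ∈ A1`, type 3 `(x, π3 b x, b)`, `b ∈ O 2`, `al2 x b`. Ends of edges of `H` lie in `A0`
(`Level.supp` and symmetry), `H ≤ G`, parts of adjacent vertices differ (`Host.part`). Use `nxt_adj`.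

PROOF. `(H \ nxt).Adj u v ↔ H.Adj u v ∧ ¬ nxt.Adj u v` (`SimpleGraph.sdiff_adj`).
Type 1, `b = π1 x y`: `x ∉ A1`, so the edges at `x` are not in `nxt`; `H.Adj x b`, `p b = 2` by `h1.bij` (maps to); `H.Adj y b` and not both in
`A2` by `h1.mem`; `keep y b` fails: `al1 y b` says `π1 x y ≠ b`, the other alternatives have wrong parts; `keep b y` has wrong parts.
Type 2, `b = π2 y x`: `al1 y b` by `h2.bij` (so `H.Adj y b`, `p b = 2`), `y ∉ A1`; `H.Adj x b`, not both in `A2` by `h2.mem`; `keep x b` fails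
because `al2 x b` says `π2 y x ≠ b`.
Type 3, `y = π3 b x`: `y ∈ A1`, `al1 y b` by `h3.bij`, `p y = 1`; `b ∉ A1`; `x ∈ A1`, `H.Adj x b` by `al2`; `H.Adj x y` by `Host.cells` and `Level.full`;
`(x, y)` is not both in `A2` (`h3.mem`) and `keep x y` fails (`π3 b x = y`).
-/

open scoped Classical

noncomputable section

namespace Pool.Agent.Lib.TriD

variable {V : Type} [Fintype V]

theorem nxt_tri {p : V → Fin 3} {G H : SimpleGraph V} {c K s ξ δ ε : ℝ} {A0 A1 A2 A3 : Finset V}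
    {ω : V → V → V → ℝ} {π1 π2 π3 : V → V → V} (hG : Host p G c K)
    (hL : Level p G H s ξ δ A0 A1 A2 A3) (h1 : R1Out p H A0 A1 A2 A3 ω c s δ ε π1)
    (h2 : R2Out p H A0 A1 A2 A3 ω c s δ ε π1 π2) (h3 : R3Out p H A0 A1 A2 A3 s δ ε π1 π2 π3) :
    ∀ t ∈ tset p H A0 A1 A2 π1 π2 π3,
      Tri p (H \ nxt p H A0 A1 A2 π1 π2 π3) t.1 t.2.1 t.2.2 := by
  have hmem : ∀ {Z : Finset V} {j : Fin 3} {v : V}, v ∈ cls p Z j ↔ v ∈ Z ∧ p v = j := by
    intro Z j v
    unfold cls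
    exact Finset.mem_filter
  have hfin : ∀ {v : V} {i j : Fin 3}, p v = i → p v = j → i ≠ j → False :=
    fun h h' hij => hij (h.symm.trans h')
  have hout : ∀ {u v : V}, H.Adj u v → u ∉ A1 → (H \ nxt p H A0 A1 A2 π1 π2 π3).Adj u v := by
    intro u v huv hu
    rw [SimpleGraph.sdiff_adj]
    exact ⟨huv, fun h => hu (nxt_adj.1 h).2.1⟩
  have hout' : ∀ {u v : V}, H.Adj u v → v ∉ A1 → (H \ nxt p H A0 A1 A2 π1 π2 π3).Adj u v := by
    intro u v huv hv
    exact (hout huv.symm hv).symm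
  rintro ⟨x, y, b⟩ ht
  unfold tset at ht
  rw [Finset.mem_filter] at ht
  rcases ht.2 with ⟨hx, hy, hxy, hb⟩ | ⟨hy, hx, hxy, hb⟩ | ⟨hb, hxb, hy⟩
  · -- type 1
    dsimp only at hx hy hxy hb ⊢
    have hx' := hmem.1 hx
    have hxA : x ∉ A1 := (Finset.mem_sdiff.1 hx'.1).2
    have hbb := (h1.bij x hx).mapsTo (show y ∈ {y | p y = 1 ∧ H.Adj x y} from ⟨hy, hxy⟩)
    rw [← hb] at hbb
    have hm := h1.mem x hx y hy hxy
    rw [← hb] at hm
    refine ⟨hx'.2, hy, hbb.1, hout hxy hxA, hout hbb.2 hxA, ?_⟩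
    rw [SimpleGraph.sdiff_adj]
    refine ⟨hm.1, fun h => ?_⟩
    rcases (nxt_adj.1 h).2.2.2 with h | (h | h | h) | (h | h | h)
    · exact hm.2 h
    · exact h.2.2.2.2 x hx hxy hb.symm
    · exact hfin hy h.1 (by decide)
    · exact hfin hy h.1 (by decide)
    · exact hfin hbb.1 h.1 (by decide)
    · exact hfin hbb.1 h.1 (by decide)
    · exact hfin hbb.1 h.1 (by decide)
  · -- type 2
    dsimp only at hx hy hxy hb ⊢
    have hx' := hmem.1 hx
    have hy' := hmem.1 hy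
    have hyA : y ∉ A1 := (Finset.mem_sdiff.1 hy'.1).2
    have hbb := (h2.bij y hy).mapsTo
      (show x ∈ {x | p x = 0 ∧ x ∈ A1 ∧ H.Adj x y} from ⟨hx'.2, hx'.1, hxy⟩)
    rw [← hb] at hbb
    have hm := h2.mem y hy x hx hxy
    rw [← hb] at hm
    refine ⟨hx'.2, hy'.2, hbb.2.1, hout' hxy hyA, ?_, hout hbb.2.2.1 hyA⟩
    rw [SimpleGraph.sdiff_adj]
    refine ⟨hm.1, fun h => ?_⟩
    rcases (nxt_adj.1 h).2.2.2 with h | (h | h | h) | (h | h | h)
    · exact hm.2 h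
    · exact hfin hx'.2 h.1 (by decide)
    · exact h.2.2.2.2.2 y hy hxy hb.symm
    · exact hfin hbb.2.1 h.2.1 (by decide)
    · exact hfin hbb.2.1 h.1 (by decide)
    · exact hfin hbb.2.1 h.1 (by decide)
    · exact hfin hbb.2.1 h.1 (by decide)
  · -- type 3
    dsimp only at hxb hy hb ⊢
    have hb' := hmem.1 hb
    have hbA : b ∉ A1 := (Finset.mem_sdiff.1 hb'.1).2
    have hyy := (h3.bij b hb).mapsTo (show x ∈ {x | al2 p H A0 A1 A2 π2 x b} from hxb)
    rw [← hy] at hyy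
    have hm := h3.mem b hb x hxb
    rw [← hy] at hm
    have hxy : H.Adj x y := hL.full x y hxb.2.2.1 hyy.1 (hG.cells x y hxb.1 hyy.2.1)
    refine ⟨hxb.1, hyy.2.1, hb'.2, ?_, hout' hxb.2.2.2.1 hbA, hout' hyy.2.2.2.1 hbA⟩
    rw [SimpleGraph.sdiff_adj]
    refine ⟨hxy, fun h => ?_⟩
    rcases (nxt_adj.1 h).2.2.2 with h | (h | h | h) | (h | h | h)
    · exact hm h
    · exact hfin hxb.1 h.1 (by decide)
    · exact hfin hyy.2.1 h.2.1 (by decide)
    · exact h.2.2 b hb hxb hy.symm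
    · exact hfin hxb.1 h.2.1 (by decide)
    · exact hfin hyy.2.1 h.1 (by decide)
    · exact hfin hyy.2.1 h.1 (by decide)

end Pool.Agent.Lib.TriD
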