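import Pool.Agent.Lib.TriD.ZDefs

set_option autoImplicit false

/-!
MODULE ZVar (about 100 lines). Variance bound.

PROOF. Write `d b = (D.filter fun a => R a b).card`. `∑ b, d b = r * D.card` and
`∑ b, (d b)^2 = ∑ a ∈ D, ∑ a' ∈ D, card {b | R a b ∧ R a' b} = r * D.card + lam * D.card * (D.card - 1)`. Hence the sum in
question is `(r - lam) * D.card + D.card^2 * (lam - r^2 / v)` (use `Fintype.card β = v`), and
`lam * v = r^2 - r + lam ≤ r^2` by `he`.
-/

open scoped Classical

namespace Pool.Agent.Lib.TriD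

private theorem var_card_ind {α β : Type} [Fintype α] [Fintype β] (R : α → β → Prop)
    (D : Finset α) (b : β) :
    ((D.filter fun a => R a b).card : ℝ) = ∑ a ∈ D, (if R a b then (1 : ℝ) else 0) := by
  rw [Finset.sum_boole]

private theorem var_sum1 {α β : Type} [Fintype α] [Fintype β] (R : α → β → Prop) (r : ℕ)
    (hr : ∀ a, (Finset.univ.filter fun b => R a b).card = r) (D : Finset α) :
    ∑ b, ((D.filter fun a => R a b).card : ℝ) = r * D.card := by
  simp_rw [var_card_ind]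
  rw [Finset.sum_comm]
  have : ∀ a ∈ D, ∑ b, (if R a b then (1 : ℝ) else 0) = r := by
    intro a _
    rw [Finset.sum_boole, hr a]
  rw [Finset.sum_congr rfl this, Finset.sum_const, nsmul_eq_mul, mul_comm]

private theorem var_sum2 {α β : Type} [Fintype α] [Fintype β] (R : α → β → Prop) (r lam : ℕ)
    (hr : ∀ a, (Finset.univ.filter fun b => R a b).card = r)
    (hl : ∀ a a', a ≠ a' → (Finset.univ.filter fun b => R a b ∧ R a' b).card = lam)
    (D : Finset α) :
    ∑ b, ((D.filter fun a => R a b).card : ℝ) ^ 2 =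
      r * D.card + lam * (D.card * (D.card - 1)) := by
  have h1 : ∀ b, ((D.filter fun a => R a b).card : ℝ) ^ 2 =
      ∑ a ∈ D, ∑ a' ∈ D, (if R a b ∧ R a' b then (1 : ℝ) else 0) := by
    intro b
    rw [var_card_ind, sq, Finset.sum_mul_sum]
    refine Finset.sum_congr rfl fun a _ => Finset.sum_congr rfl fun a' _ => ?_
    by_cases h : R a b <;> by_cases h' : R a' b <;> simp [h, h']
  simp_rw [h1]
  rw [Finset.sum_comm]
  have h2 : ∀ a ∈ D, ∑ b, ∑ a' ∈ D, (if R a b ∧ R a' b then (1 : ℝ) else 0) =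
      r + (D.card - 1) * lam := by
    intro a ha
    rw [Finset.sum_comm]
    rw [← Finset.add_sum_erase D _ ha]
    have e1 : ∑ b, (if R a b ∧ R a b then (1 : ℝ) else 0) = r := by
      simp only [and_self]
      rw [Finset.sum_boole, hr a]
    have e2 : ∀ a' ∈ D.erase a, ∑ b, (if R a b ∧ R a' b then (1 : ℝ) else 0) = lam := by
      intro a' ha'
      rw [Finset.sum_boole, hl a a' (Finset.ne_of_mem_erase ha').symm]
    rw [e1, Finset.sum_congr rfl e2, Finset.sum_const, nsmul_eq_mul]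
    have hpos : 1 ≤ D.card := Finset.card_pos.mpr ⟨a, ha⟩
    rw [Finset.card_erase_of_mem ha, Nat.cast_sub hpos, Nat.cast_one]
  rw [Finset.sum_congr rfl h2, Finset.sum_const, nsmul_eq_mul]
  ring

theorem var_bound {α β : Type} [Fintype α] [Fintype β] (R : α → β → Prop) (v r lam : ℕ)
    (hv : 0 < v) (hβ : Fintype.card β = v)
    (hr : ∀ a, (Finset.univ.filter fun b => R a b).card = r)
    (hl : ∀ a a', a ≠ a' → (Finset.univ.filter fun b => R a b ∧ R a' b).card = lam)
    (hlr : lam ≤ r) (he : r * (r - 1) = lam * (v - 1)) (D : Finset α) :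
    ∑ b, (((D.filter fun a => R a b).card : ℝ) - D.card * ((r : ℝ) / v)) ^ 2 ≤
      ((r : ℝ) - lam) * D.card := by
  have s1 := var_sum1 R r hr D
  have s2 := var_sum2 R r lam hr hl D
  have hvR : (0 : ℝ) < v := by exact_mod_cast hv
  have heR : (r : ℝ) * ((r : ℝ) - 1) = lam * ((v : ℝ) - 1) := by
    have hv1 : ((v - 1 : ℕ) : ℝ) = (v : ℝ) - 1 := by
      rw [Nat.cast_sub (by omega), Nat.cast_one]
    have hr1 : ((r * (r - 1) : ℕ) : ℝ) = (r : ℝ) * ((r : ℝ) - 1) := by
      rcases Nat.eq_zero_or_pos r with h0 | h0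
      · subst h0; simp
      · rw [Nat.cast_mul, Nat.cast_sub (by omega), Nat.cast_one]
    rw [← hr1, he, Nat.cast_mul, hv1]
  have hlrR : (lam : ℝ) ≤ r := by exact_mod_cast hlr
  have expand : ∑ b, (((D.filter fun a => R a b).card : ℝ) - D.card * ((r : ℝ) / v)) ^ 2 =
      (r * D.card + lam * (D.card * (D.card - 1))) - 2 * (D.card * ((r : ℝ) / v)) * (r * D.card)
        + v * (D.card * ((r : ℝ) / v)) ^ 2 := by
    have : ∀ b, (((D.filter fun a => R a b).card : ℝ) - D.card * ((r : ℝ) / v)) ^ 2 =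
        ((D.filter fun a => R a b).card : ℝ) ^ 2
          - 2 * (D.card * ((r : ℝ) / v)) * ((D.filter fun a => R a b).card : ℝ)
          + (D.card * ((r : ℝ) / v)) ^ 2 := by
      intro b; ring
    simp_rw [this]
    rw [Finset.sum_add_distrib, Finset.sum_sub_distrib, ← Finset.mul_sum, s1, s2,
      Finset.sum_const, Finset.card_univ, hβ, nsmul_eq_mul]
  rw [expand]
  set c : ℝ := (D.card : ℝ) with hc
  have hc0 : 0 ≤ c := Nat.cast_nonneg _
  have key : (r * c + lam * (c * (c - 1))) - 2 * (c * ((r : ℝ) / v)) * (r * c)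
        + v * (c * ((r : ℝ) / v)) ^ 2 = ((r : ℝ) - lam) * c + c ^ 2 * (lam - (r : ℝ) ^ 2 / v) := by
    field_simp
    ring
  rw [key]
  have hle : (lam : ℝ) - (r : ℝ) ^ 2 / v ≤ 0 := by
    rw [sub_nonpos, le_div_iff₀ hvR]
    nlinarith
  have : c ^ 2 * (lam - (r : ℝ) ^ 2 / v) ≤ 0 := mul_nonpos_of_nonneg_of_nonpos (sq_nonneg c) hle
  linarith

end Pool.Agent.Lib.TriD
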