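import Pool.Agent.Lib.TriD.ZDual
import Pool.Agent.Lib.TriD.ZVar

set_option autoImplicit false

/-!
MODULE ZSys (about 220 lines). The counting axioms and second moment bounds from a symmetric design with a base block `j0`:
rows = points of `B j0`, columns = the other points, symbols = the other blocks; row `x` - symbol `j` iff `x ∉ B j`, column
`y` - symbol `j` iff `y ∈ B j`.

PROOF. By `SymD.rep` every point is in `r` blocks, by `SymD.dual` two blocks meet in `lam` points, `r (r-1) = lam (r+c-1)`.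
`cR`: `(B j0).card = r`; `cC`: complement; `cS`: all indices but one. `degR`: `x ∈ B j0` is not in `r + c - r = c` blocks,
none of them is `j0`. `degC`: `y ∉ B j0` lies in `r` blocks, none is `j0`. `degSR`: `(B j0 \ B j).card = r - lam`; `degSC`: `(B j \ B j0).card
= r - lam`. `rc`: `y` is in `r` blocks, `lam` of them contain `x`. `rr`: the number of blocks missing `x` and `x'` is
`(r + c) - (2 r - lam)`. `cc`: `lam` blocks contain `y, y'`, none is `j0`. (Transfer from subtypes to filters with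
`Fintype.card_subtype` / `Finset.card_bij`.)
`mix_of_design`: m2 (`D` a set of columns): map `D` to a set `D'` of points, `var_bound` with `R x j := x ∈ B j`, `v = r + c`; the sum over
`j ≠ j0` is at most the sum over all `j` (squares). m1: for `D ⊆ B j0` the number of `x ∈ D` with `x ∉ B j` is
`D.card - card {x ∈ D | x ∈ B j}` and `1 - c / (r + c) = r / (r + c)`, so the squares are the same. m4, m3: the same with
`R j x := x ∈ B j` (dual design: blocks as `α`, points as `β`, hypotheses from `SymD.card`, `SymD.dual`), `D` a set of blocks `≠ j0`.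
`lam ≤ r` and `(r - lam : ℕ)` casts to `r - lam`.
-/

open scoped Classical

namespace Pool.Agent.Lib.TriD

private noncomputable def cnt {α : Type} (s : Finset α) (p : α → Prop) : ℕ := (s.filter p).card

private theorem cnt_eq {α : Type} (s : Finset α) (p : α → Prop) {d : DecidablePred p} :
    (@Finset.filter α p d s).card = cnt s p := by
  unfold cnt
  congr

private theorem cnt_congr {α : Type} {s : Finset α} {p p' : α → Prop}
    (h : ∀ x ∈ s, p x ↔ p' x) : cnt s p = cnt s p' := by
  unfold cnt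
  rw [Finset.filter_congr h]

private theorem cnt_add {α : Type} (s : Finset α) (p : α → Prop) :
    cnt s p + cnt s (fun j => ¬ p j) = s.card := by
  have h := Finset.card_filter_add_card_filter_not (s := s) p
  rw [cnt_eq, cnt_eq] at h
  exact h

private theorem cnt_add2 {α : Type} (s : Finset α) (p q : α → Prop) :
    cnt s (fun j => p j ∧ q j) + cnt s (fun j => p j ∧ ¬ q j) = cnt s p := by
  have h := cnt_add (s.filter p) q
  have h0 : ∀ q' : α → Prop, cnt (s.filter p) q' = cnt s (fun j => p j ∧ q' j) := by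
    intro q'
    have h1 : cnt (s.filter p) q' = ((s.filter p).filter q').card := rfl
    rw [h1, Finset.filter_filter, cnt_eq]
  rw [h0, h0, cnt_eq] at h
  exact h

private theorem cnt_sub {α : Type} [Fintype α] (q p : α → Prop) {ft : Fintype {j // q j}} :
    cnt (@Finset.univ _ ft) (fun b : {j // q j} => p b.1) =
      cnt Finset.univ (fun j => q j ∧ p j) := by
  unfold cnt
  refine Finset.card_bij (fun b _ => b.1) ?_ ?_ ?_
  · intro b hb
    simp only [Finset.mem_filter, Finset.mem_univ, true_and] at hb ⊢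
    exact ⟨b.2, hb⟩
  · intro a _ b _ hab
    exact Subtype.ext hab
  · intro j hj
    simp only [Finset.mem_filter, Finset.mem_univ, true_and] at hj
    refine ⟨⟨j, hj.1⟩, ?_, rfl⟩
    simp only [Finset.mem_filter, Finset.mem_univ, true_and]
    exact hj.2

private theorem cnt_sub_all {α : Type} [Fintype α] (q : α → Prop) {ft : Fintype {j // q j}} :
    @Fintype.card {j // q j} ft = cnt Finset.univ (fun j => q j) := by
  have h := cnt_sub q (fun _ => True) (ft := ft)
  have h1 : cnt (@Finset.univ _ ft) (fun b : {j // q j} => True) = @Fintype.card {j // q j} ft := by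
    unfold cnt
    rw [← Finset.card_univ]
    congr 1
    ext b
    simp only [Finset.mem_filter, Finset.mem_univ, true_and]
  rw [h1] at h
  rw [h]
  exact cnt_congr (fun x _ => ⟨fun hx => hx.1, fun hx => ⟨hx, trivial⟩⟩)

private theorem cnt_mem {α : Type} [Fintype α] (s : Finset α) :
    cnt Finset.univ (fun x => x ∈ s) = s.card := by
  unfold cnt
  congr 1
  ext x
  simp only [Finset.mem_filter, Finset.mem_univ, true_and]

private theorem cnt_inter {α : Type} [Fintype α] (s t : Finset α) {d : DecidableEq α} :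
    cnt Finset.univ (fun x => x ∈ s ∧ x ∈ t) = (s ∩ t).card := by
  unfold cnt
  congr 1
  ext x
  simp only [Finset.mem_filter, Finset.mem_univ, true_and, Finset.mem_inter]

private theorem sys_aux {r c lam : ℕ} {B : Fin (r + c) → Finset (Fin (r + c))} (hl : lam < r)
    (hp : ∀ x y, x ≠ y → cnt Finset.univ (fun j => x ∈ B j ∧ y ∈ B j) = lam)
    (hrep : ∀ x, cnt Finset.univ (fun j => x ∈ B j) = r) :
    (∀ x, cnt Finset.univ (fun j => x ∉ B j) = c) ∧
    (∀ x y, x ≠ y → cnt Finset.univ (fun j => x ∉ B j ∧ y ∈ B j) = r - lam) ∧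
    (∀ x y, x ≠ y → cnt Finset.univ (fun j => x ∉ B j ∧ y ∉ B j) + (r - lam) = c) := by
  have h1 : ∀ x, cnt Finset.univ (fun j => x ∉ B j) = c := by
    intro x
    have h2 := cnt_add (Finset.univ : Finset (Fin (r + c))) (fun j => x ∈ B j)
    rw [hrep x, Finset.card_univ, Fintype.card_fin] at h2
    omega
  have h3 : ∀ x y, x ≠ y → cnt Finset.univ (fun j => x ∉ B j ∧ y ∈ B j) = r - lam := by
    intro x y hxy
    have h4 := cnt_add2 (Finset.univ : Finset (Fin (r + c))) (fun j => y ∈ B j) (fun j => x ∈ B j)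
    have h6 : cnt Finset.univ (fun j => y ∈ B j ∧ ¬ x ∈ B j) =
        cnt Finset.univ (fun j => x ∉ B j ∧ y ∈ B j) := cnt_congr (fun j _ => and_comm)
    rw [hrep y, hp y x hxy.symm, h6] at h4
    omega
  refine ⟨h1, h3, ?_⟩
  intro x y hxy
  have h4 := cnt_add2 (Finset.univ : Finset (Fin (r + c))) (fun j => x ∉ B j) (fun j => y ∈ B j)
  rw [h1 x, h3 x y hxy] at h4
  omega

private theorem sdiff_aux {r c lam : ℕ} {B : Fin (r + c) → Finset (Fin (r + c))}
    (hc : ∀ j, (B j).card = r) (hd : ∀ i j, i ≠ j → (B i ∩ B j).card = lam)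
    (i j : Fin (r + c)) (hij : i ≠ j) :
    cnt Finset.univ (fun x => x ∈ B i ∧ x ∉ B j) = r - lam := by
  have h4 := cnt_add2 (Finset.univ : Finset (Fin (r + c))) (fun x => x ∈ B i) (fun x => x ∈ B j)
  rw [cnt_mem, hc i, cnt_inter, hd i j hij] at h4
  omega

theorem sys_of_design {r c lam : ℕ} {B : Fin (r + c) → Finset (Fin (r + c))}
    (h : SymD (r + c) r lam B) (hr : 2 ≤ r) (hl : lam < r) (j0 : Fin (r + c)) :
    DSys (R := {x : Fin (r + c) // x ∈ B j0}) (C := {x : Fin (r + c) // x ∉ B j0})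
      (S := {j : Fin (r + c) // j ≠ j0}) (fun x j => x.1 ∉ B j.1) (fun y j => y.1 ∈ B j.1)
      r c (r - lam) := by
  have hv : 0 < r + c := by omega
  have hrep : ∀ x, cnt Finset.univ (fun j => x ∈ B j) = r := by
    intro x
    rw [← cnt_eq]
    exact (h.rep hv hr).1 x
  have hp : ∀ x y, x ≠ y → cnt Finset.univ (fun j => x ∈ B j ∧ y ∈ B j) = lam := by
    intro x y hxy
    rw [← cnt_eq]
    exact h.pair x y hxy
  have hd := h.dual hv hr hl
  obtain ⟨a1, a2, a3⟩ := sys_aux hl hp hrep
  constructor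
  · rw [cnt_sub_all, cnt_mem, h.card j0]
  · rw [cnt_sub_all]
    have h4 := cnt_add (Finset.univ : Finset (Fin (r + c))) (fun x => x ∈ B j0)
    rw [cnt_mem, h.card j0, Finset.card_univ, Fintype.card_fin] at h4
    omega
  · rw [cnt_sub_all]
    have h4 := cnt_add (Finset.univ : Finset (Fin (r + c))) (fun x => x ∈ ({j0} : Finset (Fin (r + c))))
    rw [cnt_mem, Finset.card_singleton, Finset.card_univ, Fintype.card_fin] at h4
    have h5 : cnt Finset.univ (fun x => ¬ x ∈ ({j0} : Finset (Fin (r + c)))) =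
        cnt Finset.univ (fun j => j ≠ j0) :=
      cnt_congr (fun j _ => by rw [Finset.mem_singleton])
    omega
  · intro x
    rw [cnt_eq, cnt_sub (fun j => j ≠ j0) (fun j => x.1 ∉ B j)]
    refine Eq.trans (cnt_congr (fun j _ => ⟨fun hj => hj.2, fun hj => ⟨?_, hj⟩⟩)) (a1 x.1)
    intro hjj
    rw [hjj] at hj
    exact hj x.2
  · intro y
    rw [cnt_eq, cnt_sub (fun j => j ≠ j0) (fun j => y.1 ∈ B j)]
    refine Eq.trans (cnt_congr (fun j _ => ⟨fun hj => hj.2, fun hj => ⟨?_, hj⟩⟩)) (hrep y.1)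
    intro hjj
    rw [hjj] at hj
    exact y.2 hj
  · intro b
    rw [cnt_eq, cnt_sub (fun x => x ∈ B j0) (fun x => x ∉ B b.1)]
    exact sdiff_aux h.card hd j0 b.1 (Ne.symm b.2)
  · intro b
    rw [cnt_eq, cnt_sub (fun x => x ∉ B j0) (fun x => x ∈ B b.1)]
    exact Eq.trans (cnt_congr (fun x _ => and_comm)) (sdiff_aux h.card hd b.1 j0 b.2)
  · intro x y
    have hxy : x.1 ≠ y.1 := by
      intro hh
      apply y.2
      rw [← hh]
      exact x.2
    rw [cnt_eq, cnt_sub (fun j => j ≠ j0) (fun j => x.1 ∉ B j ∧ y.1 ∈ B j)]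
    refine Eq.trans (cnt_congr (fun j _ => ⟨fun hj => hj.2, fun hj => ⟨?_, hj⟩⟩))
      (a2 x.1 y.1 hxy)
    intro hjj
    rw [hjj] at hj
    exact y.2 hj.2
  · intro x x' hxx
    have hne : x.1 ≠ x'.1 := fun hh => hxx (Subtype.ext hh)
    rw [cnt_eq, cnt_sub (fun j => j ≠ j0) (fun j => x.1 ∉ B j ∧ x'.1 ∉ B j)]
    refine Eq.trans ?_ (a3 x.1 x'.1 hne)
    refine congrArg (fun t : ℕ => t + (r - lam)) ?_
    refine cnt_congr (fun j _ => ⟨fun hj => hj.2, fun hj => ⟨?_, hj⟩⟩)
    intro hjj
    rw [hjj] at hj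
    exact hj.1 x.2
  · intro y y' hyy
    have hne : y.1 ≠ y'.1 := fun hh => hyy (Subtype.ext hh)
    rw [cnt_eq, cnt_sub (fun j => j ≠ j0) (fun j => y.1 ∈ B j ∧ y'.1 ∈ B j)]
    have h5 : cnt Finset.univ (fun j => j ≠ j0 ∧ y.1 ∈ B j ∧ y'.1 ∈ B j) = lam := by
      refine Eq.trans (cnt_congr (fun j _ => ⟨fun hj => hj.2, fun hj => ⟨?_, hj⟩⟩))
        (hp y.1 y'.1 hne)
      intro hjj
      rw [hjj] at hj
      exact y.2 hj.1
    omega

private theorem card_filter_map {α : Type} {q : α → Prop} (D : Finset {a // q a}) (p : α → Prop) :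
    ((D.map (Function.Embedding.subtype q)).filter p).card =
      (D.filter fun a => p a.1).card := by
  symm
  refine Finset.card_bij (fun a _ => a.1) ?_ ?_ ?_
  · intro a ha
    rw [Finset.mem_filter] at ha ⊢
    refine ⟨?_, ha.2⟩
    rw [Finset.mem_map]
    exact ⟨a, ha.1, rfl⟩
  · intro a _ b _ hab
    exact Subtype.ext hab
  · intro x hx
    rw [Finset.mem_filter, Finset.mem_map] at hx
    obtain ⟨⟨a, ha, hax⟩, hp⟩ := hx
    have hax' : a.1 = x := hax
    refine ⟨a, Finset.mem_filter.2 ⟨ha, ?_⟩, hax'⟩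
    rw [hax']
    exact hp

private theorem core {α β : Type} [Fintype α] [Fintype β] (Rl : α → β → Prop) (v r lam : ℕ)
    (hv : 0 < v) (hβ : Fintype.card β = v)
    (hr : ∀ a, cnt Finset.univ (fun b => Rl a b) = r)
    (hl : ∀ a a', a ≠ a' → cnt Finset.univ (fun b => Rl a b ∧ Rl a' b) = lam)
    (hlr : lam ≤ r) (he : r * (r - 1) = lam * (v - 1))
    (q : α → Prop) (q' : β → Prop) [Fintype {b // q' b}] (D : Finset {a // q a}) :
    ∑ b : {b // q' b}, (((D.filter fun a => Rl a.1 b.1).card : ℝ) - D.card * ((r : ℝ) / v)) ^ 2 ≤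
      ((r : ℝ) - lam) * D.card := by
  have hr' : ∀ a, (Finset.univ.filter fun b => Rl a b).card = r := by
    intro a
    rw [cnt_eq]
    exact hr a
  have hl' : ∀ a a', a ≠ a' → (Finset.univ.filter fun b => Rl a b ∧ Rl a' b).card = lam := by
    intro a a' haa
    rw [cnt_eq]
    exact hl a a' haa
  have h1 := var_bound Rl v r lam hv hβ hr' hl' hlr he (D.map (Function.Embedding.subtype q))
  rw [Finset.card_map] at h1
  have h2 : ∀ b : β, (((D.map (Function.Embedding.subtype q)).filter fun a => Rl a b).card : ℝ) =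
      ((D.filter fun a => Rl a.1 b).card : ℝ) := by
    intro b
    rw [card_filter_map D (fun a => Rl a b)]
  have h3 : ∑ b : {b // q' b}, (((D.filter fun a => Rl a.1 b.1).card : ℝ) -
      D.card * ((r : ℝ) / v)) ^ 2 = ∑ b ∈ Finset.univ.filter (fun b => q' b),
        (((D.filter fun a => Rl a.1 b).card : ℝ) - D.card * ((r : ℝ) / v)) ^ 2 := by
    symm
    refine Finset.sum_subtype (Finset.univ.filter (fun b => q' b)) (fun x => ?_)
      (fun b => (((D.filter fun a => Rl a.1 b).card : ℝ) - D.card * ((r : ℝ) / v)) ^ 2)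
    rw [Finset.mem_filter]
    exact ⟨fun h => h.2, fun h => ⟨Finset.mem_univ _, h⟩⟩
  rw [h3]
  refine le_trans (Finset.sum_le_sum_of_subset_of_nonneg (Finset.filter_subset _ _)
    (fun b _ _ => sq_nonneg _)) ?_
  refine le_trans (le_of_eq ?_) h1
  refine Finset.sum_congr rfl (fun b _ => ?_)
  rw [h2 b]

private theorem core_neg {α β : Type} [Fintype α] [Fintype β] (Rl : α → β → Prop) (r c lam : ℕ)
    (hv : 0 < r + c) (hβ : Fintype.card β = r + c)
    (hr : ∀ a, cnt Finset.univ (fun b => Rl a b) = r)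
    (hl : ∀ a a', a ≠ a' → cnt Finset.univ (fun b => Rl a b ∧ Rl a' b) = lam)
    (hlr : lam ≤ r) (he : r * (r - 1) = lam * (r + c - 1))
    (q : α → Prop) (q' : β → Prop) [Fintype {b // q' b}] (D : Finset {a // q a}) :
    ∑ b : {b // q' b}, ((cnt D (fun a => ¬ Rl a.1 b.1) : ℝ) -
      D.card * ((c : ℝ) / ((r : ℝ) + c))) ^ 2 ≤ ((r : ℝ) - lam) * D.card := by
  refine le_trans (le_of_eq ?_) (core Rl (r + c) r lam hv hβ hr hl hlr he q q' D)
  refine Finset.sum_congr rfl (fun b _ => ?_)
  have h1 := cnt_add D (fun a => Rl a.1 b.1)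
  have h2 : (cnt D (fun a => Rl a.1 b.1) : ℝ) + (cnt D (fun a => ¬ Rl a.1 b.1) : ℝ)
      = D.card := by exact_mod_cast h1
  have h3 : (c : ℝ) / ((r : ℝ) + c) = 1 - (r : ℝ) / ((r : ℝ) + c) := by
    have h4 : (r : ℝ) + c ≠ 0 := by
      have : (0 : ℝ) < ((r + c : ℕ) : ℝ) := by exact_mod_cast hv
      push_cast at this
      exact this.ne'
    field_simp
    ring
  have h5 : (cnt D (fun a => ¬ Rl a.1 b.1) : ℝ) =
      D.card - (cnt D (fun a => Rl a.1 b.1) : ℝ) := by linarith
  rw [h3, h5, cnt_eq D (fun a => Rl a.1 b.1)]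
  push_cast
  ring

theorem mix_of_design {r c lam : ℕ} {B : Fin (r + c) → Finset (Fin (r + c))}
    (h : SymD (r + c) r lam B) (hr : 2 ≤ r) (hl : lam < r) (j0 : Fin (r + c)) :
    DMix (R := {x : Fin (r + c) // x ∈ B j0}) (C := {x : Fin (r + c) // x ∉ B j0})
      (S := {j : Fin (r + c) // j ≠ j0}) (fun x j => x.1 ∉ B j.1) (fun y j => y.1 ∈ B j.1)
      r c (r - lam) := by
  have hv : 0 < r + c := by omega
  have hrep := (h.rep hv hr).1
  have he := (h.rep hv hr).2
  have hd := h.dual hv hr hl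
  have hcast : ((r - lam : ℕ) : ℝ) = (r : ℝ) - lam := Nat.cast_sub hl.le
  have hcard : Fintype.card (Fin (r + c)) = r + c := Fintype.card_fin _
  have hc1 : ∀ x, cnt Finset.univ (fun j => x ∈ B j) = r := by
    intro x
    rw [← cnt_eq]
    exact hrep x
  have hc2 : ∀ x y, x ≠ y → cnt Finset.univ (fun j => x ∈ B j ∧ y ∈ B j) = lam := by
    intro x y hxy
    rw [← cnt_eq]
    exact h.pair x y hxy
  have hb1 : ∀ j, cnt Finset.univ (fun x => x ∈ B j) = r := by
    intro j
    rw [cnt_mem]
    exact h.card j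
  have hb2 : ∀ j j', j ≠ j' → cnt Finset.univ (fun x => x ∈ B j ∧ x ∈ B j') = lam := by
    intro j j' hjj
    rw [cnt_inter]
    exact hd j j' hjj
  constructor
  · intro D
    rw [hcast]
    simp only [cnt_eq]
    exact core_neg (fun x j => x ∈ B j) r c lam hv hcard hc1 hc2 hl.le he
      (fun x => x ∈ B j0) (fun j => j ≠ j0) D
  · intro D
    rw [hcast]
    have h1 := core (fun x j => x ∈ B j) (r + c) r lam hv hcard hc1 hc2 hl.le he
      (fun x => x ∉ B j0) (fun j => j ≠ j0) D
    simp only [cnt_eq] at h1 ⊢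
    push_cast at h1
    exact h1
  · intro D
    rw [hcast]
    simp only [cnt_eq]
    exact core_neg (fun j x => x ∈ B j) r c lam hv hcard hb1 hb2 hl.le he
      (fun j => j ≠ j0) (fun x => x ∈ B j0) D
  · intro D
    rw [hcast]
    have h1 := core (fun j x => x ∈ B j) (r + c) r lam hv hcard hb1 hb2 hl.le he
      (fun j => j ≠ j0) (fun x => x ∉ B j0) D
    simp only [cnt_eq] at h1 ⊢
    push_cast at h1
    exact h1

end Pool.Agent.Lib.TriD
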