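import Pool.Agent.Lib.TriD.Samp

set_option autoImplicit false

/-!
MODULE ZVorS (about 130 lines). One step of the vortex.

PROOF. Apply `sampling` to `A` with the index type `ι = Option ((Fin 4 → Option {v // v ∈ A'}) × Fin 3)`: the set of `none` is
`Finset.univ` (or `A`), the set of `some (g, j)` is `F S j` with `S` = the set of the values `g a ≠ none`; every `S ⊆ A'` with at most 4
elements is of this form. `card ι ≤ 1 + 3 (8 s + 1)^4 ≤ 1 + 3 (9 s)^4 ≤ 20000 s^4`, `lam = s^(-1/2) ≤ 1`. The bound of `sampling` is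
`log (2 card ι) * s^(1/2) + 2 s * s^(-1/2) ≤ (log 40000 + 4 log s + 2) s^(1/2) ≤ (13 + 24 s^(1/6)) s^(1/2) ≤ 50 s^(2/3)`,
because `log s = 6 log (s^(1/6)) ≤ 6 s^(1/6)` and `1 ≤ s^(1/6)` (`s^(1/6) * s^(1/2) = s^(2/3)`), `log 40000 ≤ 11`.
-/

open scoped Classical

namespace Pool.Agent.Lib.TriD

private theorem zvors_num {s a b : ℝ} (hs : 1 ≤ s) (ha0 : 0 ≤ a) (ha : a ≤ 8 * s) (hb0 : 0 ≤ b)
    (hb : b ≤ 2 * s) :
    Real.log (2 * (1 + 3 * (a + 1) ^ 4)) / s ^ (-(1 / 2) : ℝ) + b * s ^ (-(1 / 2) : ℝ) ≤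
      50 * s ^ (2 / 3 : ℝ) := by
  have hs0 : 0 < s := by linarith
  have h1 : 2 * (1 + 3 * (a + 1) ^ 4) ≤ 40000 * s ^ 4 := by
    have h2 : (a + 1) ^ 4 ≤ (9 * s) ^ 4 := pow_le_pow_left₀ (by linarith) (by linarith) 4
    have h3 : 1 ≤ s ^ 4 := one_le_pow₀ hs
    have h4 : (9 * s) ^ 4 = 6561 * s ^ 4 := by ring
    rw [h4] at h2
    linarith
  have hlog : Real.log (2 * (1 + 3 * (a + 1) ^ 4)) ≤ 11 + 24 * s ^ (1 / 6 : ℝ) := by
    have h2 : Real.log (2 * (1 + 3 * (a + 1) ^ 4)) ≤ Real.log (40000 * s ^ 4) :=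
      Real.log_le_log (by positivity) h1
    rw [Real.log_mul (x := 40000) (by norm_num) (by positivity), Real.log_pow] at h2
    have h3 : Real.log 40000 ≤ 11 := by
      rw [Real.log_le_iff_le_exp (by norm_num)]
      have h5 := Real.exp_one_gt_d9
      have h6 : Real.exp 11 = Real.exp 1 ^ 11 := by rw [← Real.exp_nat_mul]; norm_num
      rw [h6]
      have h7 : (2.7 : ℝ) ^ 11 ≤ Real.exp 1 ^ 11 := pow_le_pow_left₀ (by norm_num) (by linarith) 11
      refine le_trans ?_ h7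
      norm_num
    have h4 : Real.log s ≤ s ^ (1 / 6 : ℝ) / (1 / 6) := Real.log_le_rpow_div hs0.le (by norm_num)
    push_cast at h2
    linarith
  have e1 : Real.log (2 * (1 + 3 * (a + 1) ^ 4)) / s ^ (-(1 / 2) : ℝ) =
      Real.log (2 * (1 + 3 * (a + 1) ^ 4)) * s ^ (1 / 2 : ℝ) := by
    rw [Real.rpow_neg hs0.le, div_inv_eq_mul]
  have e2 : b * s ^ (-(1 / 2) : ℝ) ≤ 2 * s ^ (1 / 2 : ℝ) := by
    have h2 : b * s ^ (-(1 / 2) : ℝ) ≤ 2 * s * s ^ (-(1 / 2) : ℝ) :=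
      mul_le_mul_of_nonneg_right hb (by positivity)
    have h3 : s * s ^ (-(1 / 2) : ℝ) = s ^ (1 / 2 : ℝ) := by
      nth_rewrite 1 [← Real.rpow_one s]
      rw [← Real.rpow_add hs0]
      norm_num
    rw [mul_assoc, h3] at h2
    exact h2
  have e3 : s ^ (1 / 6 : ℝ) * s ^ (1 / 2 : ℝ) = s ^ (2 / 3 : ℝ) := by
    rw [← Real.rpow_add hs0]
    norm_num
  have e4 : s ^ (1 / 2 : ℝ) ≤ s ^ (2 / 3 : ℝ) := Real.rpow_le_rpow_of_exponent_le hs (by norm_num)
  have e5 : Real.log (2 * (1 + 3 * (a + 1) ^ 4)) * s ^ (1 / 2 : ℝ) ≤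
      (11 + 24 * s ^ (1 / 6 : ℝ)) * s ^ (1 / 2 : ℝ) :=
    mul_le_mul_of_nonneg_right hlog (by positivity)
  rw [e1]
  have e6 : (11 + 24 * s ^ (1 / 6 : ℝ)) * s ^ (1 / 2 : ℝ) =
      11 * s ^ (1 / 2 : ℝ) + 24 * s ^ (2 / 3 : ℝ) := by
    rw [← e3]; ring
  rw [e6] at e5
  linarith [Real.rpow_pos_of_pos hs0 (2 / 3 : ℝ)]

theorem vortex_step {V : Type} [Fintype V] (F : Finset V → Fin 3 → Finset V) (A A' : Finset V)
    (s : ℝ) (hs : 1 ≤ s) (hA : (A.card : ℝ) ≤ 2 * s) (hA' : (A'.card : ℝ) ≤ 8 * s) :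
    ∃ B ⊆ A, (∀ S ⊆ A', S.card ≤ 4 → ∀ j,
        |((F S j ∩ B).card : ℝ) - ((F S j ∩ A).card : ℝ) / 4| ≤ 50 * s ^ (2 / 3 : ℝ)) ∧
      |(B.card : ℝ) - (A.card : ℝ) / 4| ≤ 50 * s ^ (2 / 3 : ℝ) := by
  have hs0 : 0 < s := by linarith
  let ι := Option ((Fin 4 → Option {v // v ∈ A'}) × Fin 3)
  let Sg : (Fin 4 → Option {v // v ∈ A'}) → Finset V := fun g =>
    Finset.univ.filter (fun v : V => ∃ i : Fin 4, ∃ h : v ∈ A', g i = some ⟨v, h⟩)
  let FF : ι → Finset V := fun o => o.elim Finset.univ (fun q => F (Sg q.1) q.2)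
  have hcard : Fintype.card ι = 1 + 3 * (A'.card + 1) ^ 4 := by
    simp only [ι, Fintype.card_option, Fintype.card_prod, Fintype.card_fun, Fintype.card_fin,
      Fintype.card_coe]
    ring
  obtain ⟨B, hBA, hB⟩ := sampling A FF (s ^ (-(1 / 2) : ℝ)) (by positivity)
    (Real.rpow_le_one_of_one_le_of_nonpos hs (by norm_num))
  have hD : Real.log (2 * Fintype.card ι) / s ^ (-(1 / 2) : ℝ) + A.card * s ^ (-(1 / 2) : ℝ) ≤
      50 * s ^ (2 / 3 : ℝ) := by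
    rw [hcard]
    push_cast
    exact zvors_num hs (by positivity) hA' (by positivity) hA
  refine ⟨B, hBA, ?_, ?_⟩
  · intro S hS hc j
    let g : Fin 4 → Option {v // v ∈ A'} := fun i =>
      if h : (i : ℕ) < S.card then
        some ⟨(S.equivFin.symm ⟨i, h⟩).1, hS (S.equivFin.symm ⟨i, h⟩).2⟩ else none
    have hg : Sg g = S := by
      ext v
      simp only [Sg, Finset.mem_filter, Finset.mem_univ, true_and]
      constructor
      · rintro ⟨i, h, hi⟩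
        by_cases h' : (i : ℕ) < S.card
        · simp only [g, dif_pos h', Option.some.injEq, Subtype.mk.injEq] at hi
          rw [← hi]
          exact (S.equivFin.symm ⟨i, h'⟩).2
        · simp [g, dif_neg h'] at hi
      · intro hv
        have hlt := (S.equivFin ⟨v, hv⟩).2
        refine ⟨⟨(S.equivFin ⟨v, hv⟩).1, lt_of_lt_of_le hlt hc⟩, hS hv, ?_⟩
        simp [g]
    have h1 := hB (some (g, j))
    simp only [FF, Option.elim, hg] at h1
    exact h1.trans hD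
  · have h1 := hB none
    simp only [FF, Option.elim, Finset.univ_inter] at h1
    exact h1.trans hD

end Pool.Agent.Lib.TriD
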